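import Pool.Agent.H420_NCF.Spec

/-!
# factorisation into irreducibles and factors with constant term: assembly of phases 1 and 2 (module A1)
-/

namespace Pool.Agent.H420_NCF

open Pool.Agent.NPC Pool.Agent.NPC.H532 Pool.Agent.H687R2.LLL
open scoped Matrix

namespace A1

/-! ### Lists: `take` and `drop` are polynomial-time computable -/

theorem take_eq {β : Type} (l : List β) (i k : ℕ) :
    ((l.zipIdx k).filter fun q => decide (q.2 < k + i)).map Prod.fst = l.take i := by
  induction l generalizing i k with
  | nil => simp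
  | cons x l ih =>
      rw [List.zipIdx_cons]
      cases i with
      | zero =>
          rw [List.take_zero, List.map_eq_nil_iff, List.filter_eq_nil_iff]
          intro q hq
          rw [decide_eq_true_iff]
          rcases List.mem_cons.1 hq with rfl | hq
          · simp
          · have := List.le_snd_of_mem_zipIdx hq
            omega
      | succ i =>
          rw [List.filter_cons, if_pos (by simp), List.map_cons, List.take_succ_cons, ← ih i (k + 1)]
          congr 3
          funext q
          congr 1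
          rw [eq_iff_iff]
          omega

theorem drop_eq {β : Type} (l : List β) (i k : ℕ) :
    ((l.zipIdx k).filter fun q => decide (k + i ≤ q.2)).map Prod.fst = l.drop i := by
  induction l generalizing i k with
  | nil => simp
  | cons x l ih =>
      rw [List.zipIdx_cons]
      cases i with
      | zero =>
          rw [List.drop_zero, List.filter_eq_self.2]
          · rw [List.map_cons]
            congr 1
            have := ih 0 (k + 1)
            rw [List.drop_zero, List.filter_eq_self.2] at this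
            · exact this
            · intro q hq
              have := List.le_snd_of_mem_zipIdx hq
              rw [decide_eq_true_iff]
              omega
          · intro q hq
            rw [decide_eq_true_iff]
            rcases List.mem_cons.1 hq with rfl | hq
            · simp
            · have := List.le_snd_of_mem_zipIdx hq
              omega
      | succ i =>
          rw [List.filter_cons, if_neg (by simp), List.drop_succ_cons, ← ih i (k + 1)]
          congr 2
          funext q
          congr 1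
          rw [eq_iff_iff]
          omega

theorem poly_take {α β : Type} [TEnc α] [TEnc β] {l : α → List β} {n : α → ℕ} (hl : Poly l)
    (hn : Poly n) : Poly (fun a => (l a).take (n a)) := by
  refine (NPC.Poly.map (F := fun _ (q : β × ℕ) => q.1) (Poly.filter
    (p := fun a (q : β × ℕ) => decide (q.2 < n a)) (Poly.zipIdx hl)
    (Poly.decide_lt (Poly.snd (Poly.snd Poly.id)) (hn.comp (Poly.fst Poly.id))))
    (Poly.fst (Poly.snd Poly.id))).congr fun a => ?_
  have := take_eq (l a) (n a) 0
  simp only [Nat.zero_add] at this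
  exact this

theorem poly_drop {α β : Type} [TEnc α] [TEnc β] {l : α → List β} {n : α → ℕ} (hl : Poly l)
    (hn : Poly n) : Poly (fun a => (l a).drop (n a)) := by
  refine (NPC.Poly.map (F := fun _ (q : β × ℕ) => q.1) (Poly.filter
    (p := fun a (q : β × ℕ) => decide (n a ≤ q.2)) (Poly.zipIdx hl)
    (Poly.decide_le (hn.comp (Poly.fst Poly.id)) (Poly.snd (Poly.snd Poly.id))))
    (Poly.fst (Poly.snd Poly.id))).congr fun a => ?_
  have := drop_eq (l a) (n a) 0
  simp only [Nat.zero_add] at this
  exact this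

/-! ### A word of minimal length -/

/-- The words of `f` with nonzero coefficient. -/
def nzw (f : IP) : List (List ℕ) := (f.map fun t => t.1).filter fun w => !decide (cof f w = 0)

/-- The words of `f` of minimal length with nonzero coefficient. -/
def minw (f : IP) : List (List ℕ) :=
  (nzw f).filter fun w => (nzw f).all fun v => decide (w.length ≤ v.length)

/-- A word of `f` of minimal length with nonzero coefficient. -/
def mu (f : IP) : List ℕ := (minw f).head?.getD []

theorem mem_nzw {f : IP} {w : List ℕ} : w ∈ nzw f ↔ cof f w ≠ 0 := by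
  unfold nzw
  rw [List.mem_filter]
  constructor
  · rintro ⟨_, h⟩; simpa using h
  · intro h
    refine ⟨?_, by simpa using h⟩
    by_contra hw
    apply h
    unfold cof
    rw [List.filter_eq_nil_iff.2 (fun t ht => by
      rw [decide_eq_true_iff]; intro h'; exact hw (List.mem_map.2 ⟨t, ht, h'⟩))]
    rfl

theorem mu_spec {f : IP} (h : ∃ w, cof f w ≠ 0) :
    cof f (mu f) ≠ 0 ∧ ∀ w, cof f w ≠ 0 → (mu f).length ≤ w.length := by
  classical
  obtain ⟨w0, hw0⟩ := h
  have hex : ∃ n, ∃ w, cof f w ≠ 0 ∧ w.length = n := ⟨_, w0, hw0, rfl⟩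
  obtain ⟨w, hw, hwn⟩ := Nat.find_spec hex
  have hmin : ∀ v, cof f v ≠ 0 → w.length ≤ v.length := fun v hv => by
    rw [hwn]; exact Nat.find_min' hex ⟨v, hv, rfl⟩
  have hmem : w ∈ minw f := by
    unfold minw
    rw [List.mem_filter]
    refine ⟨mem_nzw.2 hw, ?_⟩
    rw [List.all_eq_true]
    intro v hv
    rw [decide_eq_true_iff]
    exact hmin v (mem_nzw.1 hv)
  have hmu : mu f ∈ minw f := by
    unfold mu
    cases hm : minw f with
    | nil => rw [hm] at hmem; simp at hmem
    | cons a l => simp
  unfold minw at hmu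
  rw [List.mem_filter, List.all_eq_true] at hmu
  refine ⟨mem_nzw.1 hmu.1, fun v hv => ?_⟩
  have := hmu.2 v (mem_nzw.2 hv)
  rwa [decide_eq_true_iff] at this

theorem poly_nzw (hc : Poly (fun p : IP × List ℕ => cof p.1 p.2)) : Poly nzw := by
  refine Poly.filter (l := fun f : IP => f.map fun t => t.1)
    (p := fun f w => !decide (cof f w = 0)) (NPC.Poly.map (F := fun _ (t : List ℕ × ℤ) => t.1)
      Poly.id (Poly.fst (Poly.snd Poly.id))) ?_
  exact Poly.not (Poly.decide_eq hc (NPC.Poly.const 0))

theorem poly_mu (hc : Poly (fun p : IP × List ℕ => cof p.1 p.2)) : Poly mu := by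
  have h1 := poly_nzw hc
  have h2 : Poly minw := by
    refine Poly.filter (l := nzw)
      (p := fun f w => (nzw f).all fun v => decide (w.length ≤ v.length)) h1 ?_
    refine Poly.all (l := fun x : IP × List ℕ => nzw x.1)
      (p := fun x v => decide (x.2.length ≤ v.length)) (h1.comp (Poly.fst Poly.id)) ?_
    exact Poly.decide_le (Poly.length (Poly.snd (Poly.fst Poly.id)))
      (Poly.length (Poly.snd Poly.id))
  exact Poly.head?_getD h2 []

/-! ### The algorithm -/

section Alg
variable (H : IP × List ℕ × List ℕ → Bool × IP) (sp : IP → IP × IP) (dv : IP × IP → IP)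

/-- The right factors found in phase 1. -/
def hs (f : IP) : List IP :=
  ((List.range (mu f).length).filter fun i => (H (f, (mu f).take (i + 1), (mu f).drop (i + 1))).1).map
    fun i => (H (f, (mu f).take (i + 1), (mu f).drop (i + 1))).2

/-- The list of the factors. -/
def out (f : IP) : List (Bool × IP) :=
  (((f :: hs H f).zip (hs H f)).flatMap fun q =>
    [(false, (sp (dv (q.1, q.2))).1), (true, (sp (dv (q.1, q.2))).2)]) ++
    [(false, (f :: hs H f).reverse.head?.getD [])]

theorem poly_out (hc : Poly (fun p : IP × List ℕ => cof p.1 p.2)) (hH : Poly H) (hs' : Poly sp)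
    (hd : Poly dv) : Poly (out H sp dv) := by
  have hmu := poly_mu hc
  have hrec : Poly (fun p : IP × ℕ => H (p.1, (mu p.1).take (p.2 + 1), (mu p.1).drop (p.2 + 1))) := by
    refine hH.comp (Poly.pair (Poly.fst Poly.id) (Poly.pair ?_ ?_))
    · exact poly_take (hmu.comp (Poly.fst Poly.id)) (Poly.succ (Poly.snd Poly.id))
    · exact poly_drop (hmu.comp (Poly.fst Poly.id)) (Poly.succ (Poly.snd Poly.id))
  have h1 : Poly (hs H) := by
    refine NPC.Poly.map (l := fun f : IP => (List.range (mu f).length).filter fun i =>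
      (H (f, (mu f).take (i + 1), (mu f).drop (i + 1))).1)
      (F := fun f i => (H (f, (mu f).take (i + 1), (mu f).drop (i + 1))).2) ?_ (Poly.snd hrec)
    exact Poly.filter (l := fun f : IP => List.range (mu f).length)
      (p := fun f i => (H (f, (mu f).take (i + 1), (mu f).drop (i + 1))).1)
      (Poly.range_length hmu) (Poly.fst hrec)
  have h2 : Poly (fun f : IP => f :: hs H f) := Poly.cons Poly.id h1
  have h3 : Poly (fun f : IP => (f :: hs H f).zip (hs H f)) := Poly.zip h2 h1
  have h4 : Poly (fun p : IP × (IP × IP) => sp (dv (p.2.1, p.2.2))) :=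
    hs'.comp (hd.comp (Poly.pair (Poly.fst (Poly.snd Poly.id)) (Poly.snd (Poly.snd Poly.id))))
  refine Poly.append (Poly.flatMap (F := fun _ q =>
    [(false, (sp (dv (q.1, q.2))).1), (true, (sp (dv (q.1, q.2))).2)]) h3 ?_) ?_
  · exact Poly.cons (Poly.pair (NPC.Poly.const false) (Poly.fst h4))
      (Poly.cons (Poly.pair (NPC.Poly.const true) (Poly.snd h4)) (NPC.Poly.const []))
  · exact Poly.cons (Poly.pair (NPC.Poly.const false) (Poly.head?_getD (Poly.reverse h2) []))
      (NPC.Poly.const [])

end Alg

/-! ### Correctness -/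

/-- The output from a list of right factors. -/
def outL (sp : IP → IP × IP) (dv : IP × IP → IP) : IP → List IP → List (Bool × IP)
  | f, [] => [(false, f)]
  | f, h :: l => (false, (sp (dv (f, h))).1) :: (true, (sp (dv (f, h))).2) :: outL sp dv h l

theorem outL_eq (sp : IP → IP × IP) (dv : IP × IP → IP) (f : IP) (l : List IP) :
    (((f :: l).zip l).flatMap fun q =>
      [(false, (sp (dv (q.1, q.2))).1), (true, (sp (dv (q.1, q.2))).2)]) ++
      [(false, (f :: l).reverse.head?.getD [])] = outL sp dv f l := by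
  induction l generalizing f with
  | nil => simp [outL]
  | cons h l ih =>
    rw [outL, ← ih h, List.zip_cons_cons, List.flatMap_cons]
    simp

theorem IsLow.smul {k : Type*} [Field k] {p : NC k} {d : ℕ} (h : IsLow p d) {c : k} (hc : c ≠ 0) :
    IsLow (c • p) d := by
  obtain ⟨⟨w, hw, hw'⟩, h2⟩ := h
  refine ⟨⟨w, hw, ?_⟩, fun v hv => ?_⟩
  · rw [map_smul, smul_eq_mul]; exact mul_ne_zero hc hw'
  · rw [map_smul, h2 v hv, smul_zero]

/-- The lower degree of the left factor. -/
theorem IsLow.left {k : Type*} [Field k] {f g h : NC k} {m d : ℕ} (hf : IsLow f m) (he : f = g * h)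
    (hh : IsLow h d) : IsLow g (m - d) ∧ d ≤ m := by
  have hg0 : g ≠ 0 := by
    rintro rfl
    rw [zero_mul] at he
    exact hf.ne_zero he
  obtain ⟨e, hge⟩ := exists_isLow hg0
  have h1 := hge.mul hh
  rw [← he] at h1
  have h2 := h1.unique hf
  have h3 : m - d = e := by omega
  exact ⟨by rw [h3]; exact hge, by omega⟩

/-- The right factor `h` of `f`, of lower degree `m - e`, is the one found in phase 1. -/
def Ok (f : NC ℚ) (m e : ℕ) (h : NC ℚ) : Prop :=
  e ≤ m ∧ IsLow h (m - e) ∧ (∃ g, f = g * h) ∧
    ∀ g' h', f = g' * h' → (∃ a, e ≤ a ∧ IsLow g' a) → ∃ t, h = t * h'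

theorem chain {sp : IP → IP × IP} {dv : IP × IP → IP}
    (hs : ∀ (p : IP) (m : ℕ), 0 < m → IsLow (pol p) m →
      (∃ c : ℚ, c ≠ 0 ∧ pol (sp p).1 * pol (sp p).2 = c • pol p) ∧ eps (pol (sp p).1) ≠ 0 ∧
      ∀ b' a', pol p = b' * a' → eps b' ≠ 0 → ∃ t, pol (sp p).1 = b' * t)
    (hd : ∀ (f h : IP) (q : NC ℚ), pol f ≠ 0 →
      pol f = q * pol h → ∃ c : ℚ, c ≠ 0 ∧ pol (dv (f, h)) = c • q)
    (h21 : L21S ℚ) (f : NC ℚ) (m : ℕ) (hf : IsLow f m) (hh : ℕ → IP) :
    ∀ (es : List ℕ) (e0 : ℕ), Ok f m e0 (pol (hh e0)) → es.Pairwise (· < ·) →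
      (∀ e ∈ es, e0 < e ∧ Good f e ∧ Ok f m e (pol (hh e))) →
      (∀ e, e0 < e → e ≤ m → Good f e → e ∈ es) →
      (∃ c : ℚ, c ≠ 0 ∧
        ((outL sp dv (hh e0) (es.map hh)).map fun t => pol t.2).prod = c • pol (hh e0)) ∧
      ∀ t ∈ outL sp dv (hh e0) (es.map hh), (t.1 = true → Irreducible (pol t.2)) ∧
        (t.1 = false → eps (pol t.2) ≠ 0) := by
  have hgoodm : Good f m := ⟨f, 1, (mul_one f).symm, hf⟩
  intro es
  induction es with
  | nil =>
    intro e0 h0 _ _ hall
    have he0 : e0 = m := by
      by_contra hne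
      have := hall m (by have := h0.1; omega) le_rfl hgoodm
      simp at this
    subst he0
    obtain ⟨_, hlow, _⟩ := h0
    rw [Nat.sub_self] at hlow
    refine ⟨⟨1, one_ne_zero, by simp [outL]⟩, ?_⟩
    intro t ht
    simp only [List.map_nil, outL, List.mem_singleton] at ht
    subst ht
    refine ⟨fun h => by simp at h, fun _ => ?_⟩
    obtain ⟨⟨w, hw, hw'⟩, _⟩ := hlow
    have : w = [] := List.length_eq_zero_iff.1 hw
    subst this
    exact hw'
  | cons e es ih =>
    intro e0 h0 hpw hmem hall
    obtain ⟨he0e, hgood, hoke⟩ := hmem e (by simp)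
    rw [List.pairwise_cons] at hpw
    obtain ⟨⟨c1, hc1, hprod⟩, hrest⟩ := ih e hoke hpw.2
      (fun e' he' => ⟨hpw.1 e' he', (hmem e' (by simp [he'])).2⟩)
      (fun e' he' hle hg => by
        have := hall e' (by omega) hle hg
        rcases List.mem_cons.1 this with h | h
        · omega
        · exact h)
    obtain ⟨h0m, h0low, ⟨g0, hg0⟩, h0max⟩ := h0
    obtain ⟨hem, helow, ⟨g1, hg1⟩, hemax⟩ := hoke
    have hg1low := (IsLow.left hf hg1 helow).1
    have hsub : m - (m - e) = e := by omega
    rw [hsub] at hg1low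
    obtain ⟨t, ht⟩ := h0max g1 (pol (hh e)) hg1 ⟨e, he0e.le, hg1low⟩
    have hne : pol (hh e0) ≠ 0 := h0low.ne_zero
    obtain ⟨c2, hc2, hdv⟩ := hd (hh e0) (hh e) t hne ht
    have htlow := (IsLow.left h0low ht helow).1
    have hsub2 : m - e0 - (m - e) = e - e0 := by omega
    rw [hsub2] at htlow
    have hplow : IsLow (pol (dv (hh e0, hh e))) (e - e0) := by
      rw [hdv]; exact IsLow.smul htlow hc2
    obtain ⟨⟨c3, hc3, hsp⟩, hceps, hcmax⟩ := hs (dv (hh e0, hh e)) (e - e0) (by omega) hplow
    refine ⟨⟨c1 * (c3 * c2), mul_ne_zero hc1 (mul_ne_zero hc3 hc2), ?_⟩, ?_⟩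
    · rw [List.map_cons, outL, List.map_cons, List.map_cons, List.prod_cons, List.prod_cons, hprod,
        ← mul_assoc, hsp, hdv, ht, mul_smul_comm, smul_mul_assoc, smul_mul_assoc, smul_smul,
        smul_smul, mul_assoc]
    · intro t' ht'
      rw [List.map_cons, outL, List.mem_cons, List.mem_cons] at ht'
      rcases ht' with rfl | rfl | ht'
      · exact ⟨fun h => by simp at h, fun _ => hceps⟩
      · refine ⟨fun _ => ?_, fun h => by simp at h⟩
        have hg0low := (IsLow.left hf hg0 h0low).1
        have hsub3 : m - (m - e0) = e0 := by omega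
        rw [hsub3] at hg0low
        have hcc : (c3 * c2)⁻¹ ≠ 0 := inv_ne_zero (mul_ne_zero hc3 hc2)
        have hPlow : IsLow ((c3 * c2)⁻¹ • g0) e0 := IsLow.smul hg0low hcc
        have hqlow : IsLow (c3 • pol (dv (hh e0, hh e))) (e - e0) := IsLow.smul hplow hc3
        refine h21 f ((c3 * c2)⁻¹ • g0) (c3 • pol (dv (hh e0, hh e))) (pol (hh e))
          (pol (sp (dv (hh e0, hh e))).1) (pol (sp (dv (hh e0, hh e))).2) e0 e hf.ne_zero ?_
          hPlow ?_ he0e ?_ hemax hsp.symm hceps ?_
        · rw [hdv, smul_smul, smul_mul_smul_comm, inv_mul_cancel₀ (mul_ne_zero hc3 hc2), one_smul,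
            mul_assoc, ← ht, ← hg0]
        · have := hPlow.mul hqlow
          rwa [Nat.add_sub_cancel' he0e.le] at this
        · intro a ha1 ha2 hga
          have := hall a ha1 (by omega) hga
          rcases List.mem_cons.1 this with h | h
          · omega
          · have := hpw.1 a h; omega
        · intro b' a' hb' hepsb'
          refine hcmax b' (c3⁻¹ • a') ?_ hepsb'
          rw [mul_smul_comm, ← hb', smul_smul, inv_mul_cancel₀ hc3, one_smul]
      · exact hrest t' ht'

end A1

open A1 in
theorem a1 (hv : VTS) (hH : HStepS) (hs : SplitS) (hd : DivS) (h21 : L21S ℚ) : A1S := by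
  obtain ⟨_, _, hcofP, _, _, _, hcof, _⟩ := hv
  obtain ⟨H, hHP, hHspec⟩ := hH
  obtain ⟨sp, hspP, hspec⟩ := hs
  obtain ⟨dv, hdvP, hdvspec⟩ := hd
  refine ⟨out H sp dv, poly_out H sp dv hcofP hHP hspP hdvP, fun f hf => ?_⟩
  -- a word of minimal length
  obtain ⟨w0, hw0⟩ := exists_supp hf
  have hex : ∃ w, cof f w ≠ 0 := by
    refine ⟨w0, fun h => hw0 ?_⟩
    rw [hcof, h]; simp
  obtain ⟨hmu0, hmumin⟩ := mu_spec hex
  have hcfmu : cf (mu f) (pol f) ≠ 0 := by
    rw [hcof]; exact_mod_cast hmu0
  have hlow : IsLow (pol f) (mu f).length := by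
    refine ⟨⟨mu f, rfl, hcfmu⟩, fun w hw => ?_⟩
    rw [hcof]
    by_contra h
    have h' : cof f w ≠ 0 := by exact_mod_cast h
    have := hmumin w h'
    omega
  set m := (mu f).length with hm
  have hstep : ∀ e, 0 < e → e ≤ m → _ := fun e he hem =>
    hHspec f ((mu f).take e) ((mu f).drop e) (by rw [List.take_append_drop]; exact hlow)
      (by rw [List.take_append_drop]; exact hcfmu)
      (by
        intro h
        have : ((mu f).take e).length = 0 := by rw [h]; rfl
        rw [List.length_take] at this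
        omega)
  have hlt : ∀ e, e ≤ m → ((mu f).take e).length = e := fun e he => by
    rw [List.length_take]; omega
  have hld : ∀ e, ((mu f).drop e).length = m - e := fun e => by
    rw [List.length_drop]
  -- the right factors
  let hh : ℕ → IP := fun e => if e = 0 then f else (H (f, (mu f).take e, (mu f).drop e)).2
  have hhs : ∀ e, 0 < e → hh e = (H (f, (mu f).take e, (mu f).drop e)).2 := fun e he => by
    simp only [hh]; rw [if_neg (by omega)]
  let es : List ℕ := ((List.range m).filter fun i =>
    (H (f, (mu f).take (i + 1), (mu f).drop (i + 1))).1).map (· + 1)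
  have hes : es.map hh = A1.hs H f := by
    simp only [es, A1.hs, List.map_map]
    rfl
  have hpw : es.Pairwise (· < ·) := by
    simp only [es]
    rw [List.pairwise_map]
    refine List.Pairwise.imp ?_ (List.Pairwise.filter _ List.pairwise_lt_range)
    intro a b hab
    omega
  have hmemes : ∀ e, e ∈ es ↔ 0 < e ∧ e ≤ m ∧ Good (pol f) e := by
    intro e
    simp only [es, List.mem_map, List.mem_filter, List.mem_range]
    constructor
    · rintro ⟨i, ⟨hi, hi'⟩, rfl⟩
      refine ⟨by omega, by omega, ?_⟩
      have := (hstep (i + 1) (by omega) (by omega)).1.1 hi'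
      rwa [hlt _ (by omega)] at this
    · rintro ⟨he, hem, hg⟩
      obtain ⟨i, rfl⟩ : ∃ i, e = i + 1 := ⟨e - 1, by omega⟩
      refine ⟨i, ⟨by omega, ?_⟩, rfl⟩
      refine (hstep (i + 1) (by omega) (by omega)).1.2 ?_
      rwa [hlt _ (by omega)]
  have hok0 : Ok (pol f) m 0 (pol (hh 0)) := by
    refine ⟨Nat.zero_le _, ?_, ⟨1, ?_⟩, ?_⟩
    · simpa [hh] using hlow
    · simp [hh]
    · intro g' h' hgh _
      exact ⟨g', by simpa [hh] using hgh⟩
  have hoke : ∀ e ∈ es, 0 < e ∧ Good (pol f) e ∧ Ok (pol f) m e (pol (hh e)) := by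
    intro e he
    obtain ⟨he0, hem, hg⟩ := (hmemes e).1 he
    refine ⟨he0, hg, ?_⟩
    have h1 := (hstep e he0 hem).2 (by rwa [hlt _ hem])
    rw [hlt _ hem, hld] at h1
    rw [hhs e he0]
    exact ⟨hem, h1.1, h1.2.1, h1.2.2⟩
  have hfin := chain (sp := sp) (dv := dv) hspec hdvspec h21 (pol f) m hlow hh es 0 hok0 hpw hoke
    (fun e he hem hg => (hmemes e).2 ⟨he, hem, hg⟩)
  have hout : outL sp dv (hh 0) (es.map hh) = out H sp dv f := by
    rw [hes]
    unfold out
    rw [outL_eq]
    rfl
  rw [hout] at hfin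
  have hh0 : hh 0 = f := rfl
  rw [hh0] at hfin
  exact hfin

end Pool.Agent.H420_NCF
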