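import Pool.Agent.H420_NCF.Spec

/-!
# Module A2: factorisation of polynomials with constant term: assembly of phase 3
-/

namespace Pool.Agent.H420_NCF

open Pool.Agent.NPC Pool.Agent.NPC.H532 Pool.Agent.H687R2.LLL
open scoped Matrix

namespace A2

/-- The rows of the identity matrix. -/
def idr (n : ℕ) : List (List ℤ) := tab n fun i j => if i = j then 1 else 0

theorem length_idr (n : ℕ) : ∀ v ∈ idr n, v.length = n := by
  intro v hv
  unfold idr tab at hv
  rw [List.mem_map] at hv
  obtain ⟨i, _, rfl⟩ := hv
  simp

theorem vspan_idr (n : ℕ) : vspan n (idr n) = ⊤ := by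
  rw [eq_top_iff]
  intro v _
  have h1 : v = ∑ i, v i • (Pi.single i 1 : Fin n → ℚ) := by
    conv_lhs => rw [← Finset.univ_sum_single v]
    refine Finset.sum_congr rfl fun i _ => ?_
    rw [← Pi.single_smul, smul_eq_mul, mul_one]
  rw [h1]
  refine Submodule.sum_mem _ fun i _ => Submodule.smul_mem _ _ (Submodule.subset_span ?_)
  refine ⟨(List.range n).map fun j => if (i : ℕ) = j then 1 else 0, ?_, ?_⟩
  · unfold idr tab
    rw [List.mem_map]
    exact ⟨i, by simp, rfl⟩
  · funext j
    unfold vq
    rw [List.getD_eq_getElem _ _ (by simp)]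
    simp only [List.getElem_map, List.getElem_range]
    by_cases h : i = j
    · subst h; simp
    · rw [Pi.single_apply, if_neg (Ne.symm h), if_neg (by simpa [Fin.ext_iff] using h)]
      simp

theorem vspan_cons (n : ℕ) (v : List ℤ) (L : List (List ℤ)) :
    vspan n (v :: L) = vspan n L ⊔ Submodule.span ℚ {vq n v} := by
  unfold vspan
  rw [← Submodule.span_union]
  congr 1
  ext w
  simp only [List.mem_cons, Set.mem_ofPred_eq, Set.mem_union, Set.mem_singleton_iff]
  constructor
  · rintro ⟨u, rfl | hu, rfl⟩
    · exact Or.inr rfl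
    · exact Or.inl ⟨u, hu, rfl⟩
  · rintro (⟨u, hu, rfl⟩ | rfl)
    · exact ⟨u, Or.inr hu, rfl⟩
    · exact ⟨v, Or.inl rfl, rfl⟩

/-- The algorithm. -/
def alg (F : List (List (List ℤ)) → List (List (List (List ℤ))))
    (ch : List (List ℤ) × List (List (List (List ℤ))) → List (List (List ℤ)))
    (mh : List (List ℕ) × List (List ℤ) → List ℤ) (dv : IP × IP → IP) (f : IP) : List IP :=
  if lets f = [] then [f] else
    ((List.range ((ws f).flatMap fun _ => F ((lets f).map (tm f [] []))).length).map fun i =>
      dv ((((ch (idr (ws f).length, (ws f).flatMap fun _ => F ((lets f).map (tm f [] [])))).map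
          fun W => toIP (ws f) (mh (ws f, vecOf (ws f) f :: W))).getD (i + 1) []),
        (((ch (idr (ws f).length, (ws f).flatMap fun _ => F ((lets f).map (tm f [] [])))).map
          fun W => toIP (ws f) (mh (ws f, vecOf (ws f) f :: W))).getD i []))).reverse ++
    [((ch (idr (ws f).length, (ws f).flatMap fun _ => F ((lets f).map (tm f [] [])))).map
          fun W => toIP (ws f) (mh (ws f, vecOf (ws f) f :: W))).getD 0 []]

theorem alg_poly (hv : VTS) {F : List (List (List ℤ)) → List (List (List (List ℤ)))}
    {ch : List (List ℤ) × List (List (List (List ℤ))) → List (List (List ℤ))}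
    {mh : List (List ℕ) × List (List ℤ) → List ℤ} {dv : IP × IP → IP} (hF : Poly F)
    (hch : Poly ch) (hmh : Poly mh) (hdv : Poly dv) : Poly (alg F ch mh dv) := by
  obtain ⟨pws, plets, -, pvec, ptoIP, ptm, -⟩ := hv
  have hMs : Poly (fun f : IP => (lets f).map (tm f [] [])) := by
    have h0 : NPC.Poly (fun p : IP × ℕ => (p.1, ([] : List ℕ), ([] : List ℕ), p.2)) :=
      NPC.Poly.pair (NPC.Poly.fst NPC.Poly.id) (NPC.Poly.pair (NPC.Poly.const _)
        (NPC.Poly.pair (NPC.Poly.const _) (NPC.Poly.snd NPC.Poly.id)))
    have h1 := NPC.Poly.comp ptm h0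
    have h2 := NPC.Poly.map (l := lets) (F := fun (f : IP) (x : ℕ) => tm f [] [] x) plets h1
    exact h2
  have hmm : Poly (fun f : IP => (ws f).flatMap fun _ => F ((lets f).map (tm f [] []))) :=
    Poly.flatMap (F := fun f _ => F ((lets f).map (tm f [] []))) pws
      ((hF.comp hMs).comp (Poly.fst Poly.id))
  have hid : Poly (fun f : IP => idr (ws f).length) := by
    unfold idr
    refine Poly_tab (f := fun _ i j => if i = j then 1 else 0) (UPoly.length pws) ?_
    exact Poly.ite (Poly.decide_eq (Poly.snd (Poly.fst Poly.id)) (Poly.snd Poly.id))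
      (NPC.Poly.const _) (NPC.Poly.const _)
  have hhs : Poly (fun f : IP => (ch (idr (ws f).length,
      (ws f).flatMap fun _ => F ((lets f).map (tm f [] [])))).map
          fun W => toIP (ws f) (mh (ws f, vecOf (ws f) f :: W))) := by
    refine NPC.Poly.map (F := fun f W => toIP (ws f) (mh (ws f, vecOf (ws f) f :: W)))
      (hch.comp (Poly.pair hid hmm)) ?_
    have h1 : Poly (fun p : IP × List (List ℤ) => ws p.1) := pws.comp (Poly.fst Poly.id)
    have h2 : Poly (fun p : IP × List (List ℤ) => vecOf (ws p.1) p.1) :=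
      pvec.comp (Poly.pair h1 (Poly.fst Poly.id))
    exact ptoIP.comp (Poly.pair h1 (hmh.comp (Poly.pair h1 (Poly.cons h2 (Poly.snd Poly.id)))))
  unfold alg
  refine Poly.ite (Poly.decide_eq plets (NPC.Poly.const _)) (Poly.cons Poly.id (NPC.Poly.const _)) ?_
  refine Poly.append (Poly.reverse ?_) (Poly.cons (Poly.getD hhs (NPC.Poly.const _) (NPC.Poly.const _))
    (NPC.Poly.const _))
  refine NPC.Poly.map (F := fun f i =>
      dv ((((ch (idr (ws f).length, (ws f).flatMap fun _ => F ((lets f).map (tm f [] [])))).map
          fun W => toIP (ws f) (mh (ws f, vecOf (ws f) f :: W))).getD (i + 1) []),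
        (((ch (idr (ws f).length, (ws f).flatMap fun _ => F ((lets f).map (tm f [] [])))).map
          fun W => toIP (ws f) (mh (ws f, vecOf (ws f) f :: W))).getD i [])))
    (Poly.range_length hmm) ?_
  have h3 := hhs.comp (Poly.fst (Poly.id (α := IP × ℕ)))
  exact hdv.comp (Poly.pair (Poly.getD h3 (Poly.succ (Poly.snd Poly.id)) (NPC.Poly.const _))
    (Poly.getD h3 (Poly.snd Poly.id) (NPC.Poly.const _)))

/-- Telescoping products. -/
theorem telescope (h : ℕ → NC ℚ) (p : ℕ → NC ℚ) (L : ℕ)
    (h1 : ∀ i < L, ∃ c : ℚ, c ≠ 0 ∧ c • h (i + 1) = p i * h i) :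
    ∃ c : ℚ, c ≠ 0 ∧ (((List.range L).map p).reverse ++ [h 0]).prod = c • h L := by
  induction L with
  | zero => exact ⟨1, one_ne_zero, by simp⟩
  | succ L ih =>
    obtain ⟨c, hc, hc'⟩ := ih fun i hi => h1 i (by omega)
    obtain ⟨d, hd, hd'⟩ := h1 L (by omega)
    refine ⟨c * d, mul_ne_zero hc hd, ?_⟩
    rw [List.range_succ, List.map_append, List.reverse_append]
    simp only [List.map_cons, List.map_nil, List.reverse_cons, List.reverse_nil, List.nil_append,
      List.cons_append, List.prod_cons]
    rw [hc', mul_smul_comm, ← hd', smul_smul]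

theorem map_flatMap_const {α β γ : Type} (g : β → γ) (l : List β) (w : List α) :
    (w.flatMap fun _ => l).map g = (List.replicate w.length (l.map g)).flatten := by
  induction w with
  | nil => rfl
  | cons a w ih =>
    rw [List.flatMap_cons, List.map_append, ih, List.length_cons, List.replicate_succ,
      List.flatten_cons]

theorem tails_mem (hv : VTS) (f : IP) (u w : List ℕ) (h : u ++ w ∈ ws f) : w ∈ ws f := by
  obtain ⟨-, -, -, -, -, -, -, -, -, -, hcl, -⟩ := hv
  induction u with
  | nil => exact h
  | cons x u ih => exact ih (hcl f x _ h).1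

end A2

open A2

theorem a2 (hv : VTS) (ht : TAS) (hc : ChainS) (hm : MinhS) (hd : DivS) (hk : KeyS ℚ)
    (hw : WZS ℚ) : A2S := by
  obtain ⟨F, hF, hF2⟩ := ht
  obtain ⟨ch, hch, hch2⟩ := hc
  obtain ⟨mh, hmh, hmh2⟩ := hm
  obtain ⟨dv, hdv, hdv2⟩ := hd
  refine ⟨alg F ch mh dv, alg_poly hv hF hch hmh hdv, fun f hf => ?_⟩
  have hf0 : pol f ≠ 0 := fun h => hf (by rw [h, map_zero])
  have hv' := hv
  obtain ⟨-, -, -, -, -, -, hcof, hnd, hnil, hcw, hcl, hinj, hran, htoip, hvec, htm⟩ := hv'
  have hfnil : f ≠ [] := by
    rintro rfl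
    exact hf0 rfl
  have hnilmem : [] ∈ ws f := hnil f hfnil
  unfold alg
  by_cases hl : lets f = []
  · rw [if_pos hl]
    refine ⟨⟨1, one_ne_zero, by simp⟩, fun g hg => ?_⟩
    rw [List.mem_singleton] at hg
    subst hg
    left
    rw [isUnit_iff]
    refine ⟨⟨[], rfl, hf⟩, fun w hw => ?_⟩
    cases w with
    | nil => simp at hw
    | cons x w =>
      by_contra hne
      rw [hcof] at hne
      have h1 := hcl g x w (hcw g _ (by exact_mod_cast hne))
      rw [hl] at h1
      simp at h1
  · rw [if_neg hl]
    -- names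
    set n := (ws f).length with hn
    have hnpos : 0 < n := List.length_pos_of_mem hnilmem
    set Ms := (lets f).map (tm f [] []) with hMs
    set mm := (ws f).flatMap (fun _ => F Ms) with hmm
    set chn := ch (idr n, mm) with hchn
    set hs : List IP := chn.map (fun W => toIP (ws f) (mh (ws f, vecOf (ws f) f :: W))) with hhs
    set M : ℕ → Matrix (Fin n) (Fin n) ℚ := fun x => mq n (tm f [] [] x) with hM
    have hMs0 : Ms ≠ [] := by
      rw [hMs]; simpa using hl
    have hMsmat : ∀ N ∈ Ms, IsMat n n N := by
      intro N hN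
      rw [hMs, List.mem_map] at hN
      obtain ⟨x, _, rfl⟩ := hN
      exact (htm f [] [] x).1
    obtain ⟨hFm, hFj⟩ := hF2 n Ms hnpos hMs0 hMsmat
    have hmmem : ∀ m ∈ mm, m ∈ F Ms := by
      intro m hm
      rw [hmm, List.mem_flatMap] at hm
      exact hm.choose_spec.2
    obtain ⟨hclen, hcmem, hc0, hcs⟩ := hch2 n (idr n) mm (length_idr n)
      (fun m hm => (hFm m (hmmem m hm)).1)
    -- the algebra generated
    have hMzero : ∀ x, x ∉ lets f → M x = 0 := by
      intro x hx
      funext i j
      rw [hM]
      show ((entry (tm f [] [] x) i j : ℤ) : ℚ) = 0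
      have h1 : entry (tm f [] [] x) i j = 0 := by
        unfold entry tm
        rw [List.getD_eq_getElem (List.map _ (ws f)) _ (by rw [List.length_map]; exact i.2),
          List.getElem_map, List.getD_eq_getElem _ _ (by rw [List.length_map]; exact j.2)]
        simp only [List.getElem_map, List.nil_append]
        have e1 : (ws f)[(i : ℕ)]'i.2 ≠ x :: (ws f)[(j : ℕ)]'j.2 := by
          intro h
          have h2 := List.getElem_mem (l := ws f) (n := i) i.2
          rw [h] at h2
          exact hx (hcl f x _ h2).2
        have e2 : cof f (x :: (ws f)[(j : ℕ)]'j.2) = 0 := by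
          by_contra h
          exact hx (hcl f x _ (hcw f _ h)).2
        rw [if_neg e1, e2]
        simp
      rw [h1]; simp
    have halg : algOf n Ms = Algebra.adjoin ℚ (Set.range M) := by
      unfold algOf
      apply le_antisymm
      · refine Algebra.adjoin_mono ?_
        rintro w ⟨N, hN, rfl⟩
        rw [hMs, List.mem_map] at hN
        obtain ⟨x, _, rfl⟩ := hN
        exact ⟨x, rfl⟩
      · refine Algebra.adjoin_le ?_
        rintro _ ⟨x, rfl⟩
        by_cases hx : x ∈ lets f
        · refine Algebra.subset_adjoin ⟨tm f [] [] x, ?_, rfl⟩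
          rw [hMs]
          exact List.mem_map_of_mem hx
        · rw [hMzero x hx]
          exact Subalgebra.zero_mem _
    -- the space of left quotients
    have hQ : Qsp (pol f) ≤ LinearMap.range (phi (ws f)) := by
      unfold Qsp
      rw [Submodule.span_le]
      rintro _ ⟨u, _, rfl⟩
      rw [SetLike.mem_coe, hran _ _ (hnd f)]
      intro w hw'
      rw [cf_lqw, hcof] at hw'
      exact tails_mem hv f u w (hcw f _ (by exact_mod_cast hw'))
    have hφinj : Function.Injective (phi (ws f)) := hinj _ (hnd f)
    have hφM : ∀ x v, phi (ws f) (v ᵥ* M x) = Top (pol f) [] [] x (phi (ws f) v) :=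
      fun x v => (htm f [] [] x).2 v
    have hφf : phi (ws f) (vq n (vecOf (ws f) f)) = pol f :=
      hvec _ _ (hnd f) (fun w hw' => hcw f w hw')
    have hveclen : (vecOf (ws f) f).length = n := by unfold vecOf; simp [hn]
    have hvec0 : vq n (vecOf (ws f) f) ≠ 0 := by
      intro h
      rw [h, map_zero] at hφf
      exact hf0 hφf.symm
    -- the minimal elements
    have hmin : ∀ W : List (List ℤ), (∀ v ∈ W, v.length = n) →
        IsMin ((vspan n W).map (phi (ws f)) ⊔ Submodule.span ℚ {pol f})
          (pol (toIP (ws f) (mh (ws f, vecOf (ws f) f :: W)))) := by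
      intro W hW
      have h1 := hmh2 (ws f) (vecOf (ws f) f :: W) (hnd f) (by
        intro v hv''
        rcases List.mem_cons.1 hv'' with rfl | h
        · exact hveclen
        · exact hW v h) (by
        intro h
        have h2 : vq n (vecOf (ws f) f) ∈ vspan n (vecOf (ws f) f :: W) :=
          Submodule.subset_span ⟨_, List.mem_cons_self, rfl⟩
        rw [← hn] at h
        rw [h, Submodule.mem_bot] at h2
        exact hvec0 h2)
      rw [htoip _ _ h1.1]
      have h3 : (vspan n W).map (phi (ws f)) ⊔ Submodule.span ℚ {pol f} =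
          (vspan n (vecOf (ws f) f :: W)).map (phi (ws f)) := by
        rw [vspan_cons, Submodule.map_sup, Submodule.map_span, Set.image_singleton, hφf]
      rw [h3]
      exact h1.2
    -- the chain
    set W : ℕ → Submodule ℚ (Fin n → ℚ) := fun i => vspan n (chn.getD i []) with hW
    have hgetlen : ∀ i, ∀ v ∈ chn.getD i [], v.length = n := by
      intro i v hv''
      by_cases hi : i < chn.length
      · rw [List.getD_eq_getElem _ _ hi] at hv''
        exact hcmem _ (List.getElem_mem hi) v hv''
      · rw [List.getD_eq_default _ _ (by omega)] at hv''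
        simp at hv''
    set h : ℕ → NC ℚ := fun i => pol (hs.getD i []) with hh
    have hmin' : ∀ i ≤ mm.length, IsMin ((W i).map (phi (ws f)) ⊔ Submodule.span ℚ {pol f}) (h i) := by
      intro i hi
      have h1 : i < chn.length := by rw [hclen]; omega
      have h2 : hs.getD i [] = toIP (ws f) (mh (ws f, vecOf (ws f) f :: chn.getD i [])) := by
        rw [List.getD_eq_getElem _ _ (by rw [hhs]; simpa using h1), List.getD_eq_getElem _ _ h1]
        simp only [hhs, List.getElem_map]
      rw [hh]
      simp only
      rw [h2]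
      exact hmin _ (hgetlen i)
    have hmmget : ∀ i < mm.length, mm.getD i [] ∈ F Ms := by
      intro i hi
      rw [List.getD_eq_getElem _ _ hi]
      exact hmmem _ (List.getElem_mem hi)
    have hWstab : ∀ i ≤ mm.length, ∀ x, ∀ w ∈ W i, w ᵥ* M x ∈ W i := by
      intro i
      induction i with
      | zero =>
        intro _ x w _
        rw [hW]
        simp only
        rw [hc0, vspan_idr]
        trivial
      | succ i ih =>
        intro hi
        have h1 := (hk (pol f) hf n (phi (ws f)) hφinj hQ M hφM _
          (halg ▸ (hFm _ (hmmget i (by omega))).2) (W i) (ih (by omega))).1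
        have h2 : W (i + 1) = wmul (W i) (mspan n (mm.getD i [])) := hcs i (by omega)
        rw [h2]
        exact h1
    have hstep : ∀ i < mm.length, ∃ p, h (i + 1) = p * h i ∧ (IsUnit p ∨ Irreducible p) := by
      intro i hi
      have h1 := (hk (pol f) hf n (phi (ws f)) hφinj hQ M hφM _
          (halg ▸ (hFm _ (hmmget i hi)).2) (W i) (hWstab i (by omega))).2
      refine h1 _ _ (hmin' i (by omega)) ?_
      have h2 : W (i + 1) = wmul (W i) (mspan n (mm.getD i [])) := hcs i hi
      rw [← h2]
      exact hmin' (i + 1) (by omega)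
    have hne : ∀ i ≤ mm.length, h i ≠ 0 := by
      intro i hi
      obtain ⟨-, d, hd', -⟩ := hmin' i hi
      exact hd'.ne_zero
    -- the quotients
    have hquot : ∀ i < mm.length, ∃ c : ℚ, c ≠ 0 ∧ c • h (i + 1) =
        pol (dv (hs.getD (i + 1) [], hs.getD i [])) * h i ∧
        (IsUnit (pol (dv (hs.getD (i + 1) [], hs.getD i []))) ∨
          Irreducible (pol (dv (hs.getD (i + 1) [], hs.getD i [])))) := by
      intro i hi
      obtain ⟨p, hp, hp'⟩ := hstep i hi
      obtain ⟨c, hc, hc'⟩ := hdv2 (hs.getD (i + 1) []) (hs.getD i []) p (hne (i + 1) (by omega)) hp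
      refine ⟨c, hc, ?_, ?_⟩
      · rw [hc', smul_mul_assoc, hp]
      · rw [hc']
        have hu : IsUnit (c • (1 : NC ℚ)) :=
          ⟨⟨c • 1, c⁻¹ • 1, by simp [smul_smul, hc], by simp [smul_smul, hc]⟩, rfl⟩
        have hcp : c • p = (c • (1 : NC ℚ)) * p := by rw [smul_mul_assoc, one_mul]
        rw [hcp]
        rcases hp' with hp' | hp'
        · exact Or.inl (hu.mul hp')
        · exact Or.inr ((irreducible_isUnit_mul hu).2 hp')
    -- the last element of the chain
    have hfold : ∀ i ≤ mm.length, W i = ((mm.take i).map (mspan n)).foldl wmul (W 0) := by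
      intro i
      induction i with
      | zero => intro _; simp
      | succ i ih =>
        intro hi
        have h2 : W (i + 1) = wmul (W i) (mspan n (mm.getD i [])) := hcs i (by omega)
        rw [h2, ih (by omega), List.take_succ_eq_append_getElem (by omega), List.map_append,
          List.foldl_append, List.getD_eq_getElem _ _ (by omega)]
        rfl
    have hlast : W mm.length = ⊥ := by
      rw [hfold _ le_rfl, List.take_length]
      have h1 : mm.map (mspan n) = (List.replicate n ((F Ms).map (mspan n))).flatten := by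
        rw [hmm]
        exact map_flatMap_const _ (F Ms) (ws f)
      rw [h1]
      refine hw n (algOf n Ms) _ ?_ ?_ _ ?_
      · intro m hm'
        rw [List.mem_map] at hm'
        obtain ⟨m', hm'', rfl⟩ := hm'
        exact (hFm m' hm'').2
      · intro a ha ha'
        exact hFj a ha fun m hm' => ha' _ (List.mem_map_of_mem hm')
      · intro w _ a _
        rw [hW]
        simp only
        rw [hc0, vspan_idr]
        trivial
    have hlast' : ∃ c : ℚ, c ≠ 0 ∧ h mm.length = c • pol f := by
      obtain ⟨h1, -⟩ := hmin' mm.length le_rfl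
      rw [hlast, Submodule.map_bot, bot_sup_eq, Submodule.mem_span_singleton] at h1
      obtain ⟨c, hc⟩ := h1
      refine ⟨c, ?_, hc.symm⟩
      rintro rfl
      rw [zero_smul] at hc
      exact hne _ le_rfl hc.symm
    -- the first element of the chain
    have hfirst : IsUnit (h 0) := by
      obtain ⟨h1, d, hd1, hd2⟩ := hmin' 0 (Nat.zero_le _)
      have h3 : d = 0 := by
        by_contra hd0
        have h4 : (1 : NC ℚ) ∈ (W 0).map (phi (ws f)) ⊔ Submodule.span ℚ {pol f} := by
          refine Submodule.mem_sup_left ?_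
          rw [hW]
          simp only
          rw [hc0, vspan_idr, Submodule.map_top, hran _ _ (hnd f)]
          intro w hw'
          rw [← mon_nil, cf_mon] at hw'
          by_cases h5 : [] = w
          · rw [← h5]; exact hnilmem
          · rw [if_neg h5] at hw'; exact absurd rfl hw'
        have h6 := hd2 1 h4 (by
          intro w hw'
          exact isDeg_one.2 w (by omega))
        exact one_ne_zero h6
      rw [isUnit_iff]
      rw [h3] at hd1
      exact hd1
    -- conclusion
    refine ⟨?_, ?_⟩
    · obtain ⟨c, hc, hc'⟩ := telescope h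
        (fun i => pol (dv (hs.getD (i + 1) [], hs.getD i []))) mm.length
        (fun i hi => by
          obtain ⟨c, hc, hc', -⟩ := hquot i hi
          exact ⟨c, hc, hc'⟩)
      obtain ⟨d, hd0, hd'⟩ := hlast'
      refine ⟨c * d, mul_ne_zero hc hd0, ?_⟩
      rw [mul_smul, ← hd', ← hc']
      congr 1
      rw [List.map_append, List.map_reverse, List.map_map]
      rfl
    · intro g hg
      rw [List.mem_append, List.mem_reverse, List.mem_map, List.mem_singleton] at hg
      rcases hg with ⟨i, hi, rfl⟩ | rfl
      · rw [List.mem_range] at hi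
        obtain ⟨c, hc, hc', hc''⟩ := hquot i hi
        exact hc''
      · exact Or.inl hfirst

end Pool.Agent.H420_NCF
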