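import Pool.Agent.H420_NCF.Spec

/-!
# central elements separating simple modules (module CEN)
-/

namespace Pool.Agent.H420_NCF

open Pool.Agent.NPC Pool.Agent.NPC.H532 Pool.Agent.H687R2.LLL
open scoped Matrix

namespace CEN

/-- A sum of isotypic components is a two-sided ideal. -/
theorem twoSided_sSup {R : Type} [Ring R] [IsSemisimpleRing R] (s : Set (Submodule R R))
    (hs : s ⊆ isotypicComponents R R) : Ideal.IsTwoSided (sSup s) :=
  isFullyInvariant_iff_isTwoSided.1 (isFullyInvariant_iff_sSup_isotypicComponents.2 ⟨s, hs, rfl⟩)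

theorem main {R : Type} [Ring R] [IsSemisimpleRing R] (I0 J0 : Ideal R) [IsSimpleModule R I0]
    [IsSimpleModule R J0] (h : IsEmpty (I0 ≃ₗ[R] J0)) :
    ∃ z : R, (∀ r, z * r = r * z) ∧ (∀ s ∈ I0, z * s = s) ∧ ∀ t ∈ J0, z * t = 0 := by
  let c : Submodule R R := isotypicComponent R R I0
  let d : Submodule R R := isotypicComponent R R J0
  have hc : c ∈ isotypicComponents R R := ⟨I0, inferInstance, rfl⟩
  have hd : d ∈ isotypicComponents R R := ⟨J0, inferInstance, rfl⟩
  have hI0 : I0 ≤ c := Submodule.le_isotypicComponent _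
  have hJ0 : J0 ≤ d := Submodule.le_isotypicComponent _
  have hdc : d ≠ c := by
    intro he
    have h1 : J0 ≤ isotypicComponent R R I0 := hJ0.trans he.le
    obtain ⟨e⟩ := isIsotypicOfType_submodule_iff.mp (.isotypicComponent R R I0) _ h1
    exact h.false e.symm
  let s : Set (Submodule R R) := isotypicComponents R R \ {c}
  have hs : s ⊆ isotypicComponents R R := Set.sdiff_subset
  have hdis : Disjoint c (sSup s) := (sSupIndep_isotypicComponents R R) hc
  have hsup : c ⊔ sSup s = ⊤ := by
    rw [← sSup_isotypicComponents R R, ← sSup_insert]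
    congr 1
    rw [Set.insert_sdiff_singleton, Set.insert_eq_of_mem hc]
  have hds : d ≤ sSup s := le_sSup ⟨hd, hdc⟩
  have h2c : Ideal.IsTwoSided c := by
    have := twoSided_sSup {c} (by simpa using hc)
    rwa [sSup_singleton] at this
  have h2s : Ideal.IsTwoSided (sSup s) := twoSided_sSup s hs
  have h1 : (1 : R) ∈ c ⊔ sSup s := by rw [hsup]; trivial
  obtain ⟨a, ha, b, hb, hab⟩ := Submodule.mem_sup.1 h1
  have hbot : ∀ x ∈ c, x ∈ sSup s → x = 0 := fun x hx hx' =>
    (Submodule.mem_bot R).1 (hdis.le_bot ⟨hx, hx'⟩)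
  refine ⟨a, fun r => ?_, fun x hx => ?_, fun y hy => ?_⟩
  · have e1 : a * r - r * a = r * b - b * r := by
      have e2 : a * r + b * r = r := by rw [← add_mul, hab, one_mul]
      have e3 : r * a + r * b = r := by rw [← mul_add, hab, mul_one]
      rw [sub_eq_sub_iff_add_eq_add, e2, add_comm, e3]
    have m1 : a * r - r * a ∈ c := sub_mem (Ideal.mul_mem_right r c ha) (Ideal.mul_mem_left c r ha)
    have m2 : a * r - r * a ∈ sSup s := by
      rw [e1]
      exact sub_mem (Ideal.mul_mem_left _ r hb) (Ideal.mul_mem_right r (sSup s : Ideal R) hb)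
    exact sub_eq_zero.1 (hbot _ m1 m2)
  · have e2 : a * x + b * x = x := by rw [← add_mul, hab, one_mul]
    have e3 : b * x = 0 := hbot _ (Ideal.mul_mem_left c b (hI0 hx))
      (Ideal.mul_mem_right x (sSup s : Ideal R) hb)
    rwa [e3, add_zero] at e2
  · exact hbot _ (Ideal.mul_mem_right y c ha) (Ideal.mul_mem_left _ a (hds (hJ0 hy)))

end CEN

theorem cen : CENS := by
  intro R _ _ S T _ _ _ _ _ _ h
  obtain ⟨I0, ⟨e⟩⟩ := IsSemisimpleRing.exists_linearEquiv_ideal_of_isSimpleModule R S
  obtain ⟨J0, ⟨f⟩⟩ := IsSemisimpleRing.exists_linearEquiv_ideal_of_isSimpleModule R T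
  have := IsSimpleModule.congr e.symm
  have := IsSimpleModule.congr f.symm
  obtain ⟨z, h1, h2, h3⟩ := CEN.main I0 J0 ⟨fun g => h.false ((e.trans g).trans f.symm)⟩
  refine ⟨z, h1, fun s => ?_, fun t => ?_⟩
  · apply e.injective
    rw [map_smul]
    apply Subtype.ext
    exact h2 _ (e s).2
  · apply f.injective
    rw [map_smul, map_zero]
    apply Subtype.ext
    exact h3 _ (f t).2

end Pool.Agent.H420_NCF
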