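import Pool.Agent.H420_NCF.Spec

/-!
# chains of subspaces (module Chain)
-/

namespace Pool.Agent.H420_NCF

open Pool.Agent.NPC Pool.Agent.NPC.H532 Pool.Agent.H687R2.LLL
open scoped Matrix

namespace Chain

/-- a row vector times a matrix -/
def vm (n : ℕ) (v : List ℤ) (c : List (List ℤ)) : List ℤ :=
  (List.range n).map fun j => ((List.range n).map fun i => v.getD i 0 * entry c i j).sum

/-- cut or pad to length `n` -/
def cut (n : ℕ) (v : List ℤ) : List ℤ := (List.range n).map fun j => v.getD j 0

/-- all products -/
def prods (n : ℕ) (W : List (List ℤ)) (m : List (List (List ℤ))) : List (List ℤ) :=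
  W.flatMap fun v => m.map fun c => vm n v c

/-- the chain -/
def chL (sel : List (List ℤ) → List (List ℤ)) (n : ℕ) :
    List (List ℤ) → List (List (List (List ℤ))) → List (List (List ℤ))
  | W, [] => [W]
  | W, m :: l => W :: chL sel n (sel (prods n W m)) l

theorem vm_length (n : ℕ) (v : List ℤ) (c : List (List ℤ)) : (vm n v c).length = n := by
  simp [vm]

theorem cut_length (n : ℕ) (v : List ℤ) : (cut n v).length = n := by simp [cut]

theorem cut_self {n : ℕ} {v : List ℤ} (h : v.length = n) : cut n v = v := by
  apply List.ext_getElem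
  · rw [cut_length, h]
  · intro i h1 h2
    simp [cut, List.getElem?_eq_getElem h2]

theorem mem_prods {n : ℕ} {W : List (List ℤ)} {m : List (List (List ℤ))} {y : List ℤ} :
    y ∈ prods n W m ↔ ∃ v ∈ W, ∃ c ∈ m, vm n v c = y := by
  simp [prods]

theorem prods_length {n : ℕ} {W : List (List ℤ)} {m : List (List (List ℤ))} {y : List ℤ}
    (h : y ∈ prods n W m) : y.length = n := by
  obtain ⟨v, _, c, _, rfl⟩ := mem_prods.1 h
  exact vm_length _ _ _

theorem vq_vm (n : ℕ) (v : List ℤ) (c : List (List ℤ)) :
    vq n (vm n v c) = vq n v ᵥ* mq n c := by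
  funext j
  have h1 : (vm n v c).getD (j : ℕ) 0 =
      ((List.range n).map fun i => v.getD i 0 * entry c i j).sum := by
    unfold vm
    rw [List.getD_eq_getElem _ _ (by simp)]
    simp
  unfold vq
  rw [h1, Matrix.vecMul, dotProduct]
  have h2 : ((List.range n).map fun i => v.getD i 0 * entry c i j).sum =
      ∑ i : Fin n, v.getD i 0 * entry c i j := by
    rw [← Finset.sum_range (fun i => v.getD i 0 * entry c i (j : ℕ))]
    rfl
  rw [h2]
  push_cast
  rfl

theorem vspan_nil (n : ℕ) : vspan n [] = ⊥ := by
  unfold vspan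
  rw [Submodule.span_eq_bot]
  rintro x ⟨v, hv, _⟩
  exact absurd hv List.not_mem_nil

theorem wmul_bot {n : ℕ} (m : Submodule ℚ (Matrix (Fin n) (Fin n) ℚ)) :
    wmul (⊥ : Submodule ℚ (Fin n → ℚ)) m = ⊥ := by
  unfold wmul
  rw [Submodule.span_eq_bot]
  rintro x ⟨w, hw, c, _, rfl⟩
  rw [Submodule.mem_bot] at hw
  rw [hw, Matrix.zero_vecMul]

theorem vspan_prods (n : ℕ) (W : List (List ℤ)) (m : List (List (List ℤ))) :
    vspan n (prods n W m) = wmul (vspan n W) (mspan n m) := by
  apply le_antisymm
  · unfold vspan
    rw [Submodule.span_le]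
    rintro x ⟨y, hy, rfl⟩
    obtain ⟨v, hv, c, hc, rfl⟩ := mem_prods.1 hy
    rw [vq_vm]
    exact Submodule.subset_span ⟨vq n v, Submodule.subset_span ⟨v, hv, rfl⟩, mq n c,
      Submodule.subset_span ⟨c, hc, rfl⟩, rfl⟩
  · unfold wmul
    rw [Submodule.span_le]
    rintro x ⟨w, hw, c, hc, rfl⟩
    show w ᵥ* c ∈ vspan n (prods n W m)
    have hc' : c ∈ Submodule.span ℚ {w | ∃ v ∈ m, w = mq n v} := hc
    have hw' : w ∈ Submodule.span ℚ {w | ∃ v ∈ W, w = vq n v} := hw
    clear hw hc
    induction hw' using Submodule.span_induction with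
    | mem w hw =>
      obtain ⟨v, hv, rfl⟩ := hw
      induction hc' using Submodule.span_induction with
      | mem c hc =>
        obtain ⟨M, hM, rfl⟩ := hc
        rw [← vq_vm]
        exact Submodule.subset_span ⟨vm n v M, mem_prods.2 ⟨v, hv, M, hM, rfl⟩, rfl⟩
      | zero => rw [Matrix.vecMul_zero]; exact Submodule.zero_mem _
      | add a b _ _ ha hb => rw [Matrix.vecMul_add]; exact Submodule.add_mem _ ha hb
      | smul r a _ ha => rw [Matrix.vecMul_smul]; exact Submodule.smul_mem _ _ ha
    | zero => rw [Matrix.zero_vecMul]; exact Submodule.zero_mem _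
    | add a b _ _ ha hb => rw [Matrix.add_vecMul]; exact Submodule.add_mem _ ha hb
    | smul r a _ ha => rw [Matrix.smul_vecMul]; exact Submodule.smul_mem _ _ ha

/-- what is used of the selection -/
def SelSpec (sel : List (List ℤ) → List (List ℤ)) : Prop :=
  ∀ (n : ℕ) (L : List (List ℤ)), (∀ v ∈ L, v.length = n) →
    (∀ v ∈ sel L, v ∈ L) ∧ Ind n (sel L) ∧ vspan n (sel L) = vspan n L

theorem sel_nil {sel : List (List ℤ) → List (List ℤ)} (hs : SelSpec sel) : sel [] = [] := by
  have := (hs 0 [] (by simp)).1
  exact List.eq_nil_iff_forall_not_mem.2 fun v hv => absurd (this v hv) List.not_mem_nil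

theorem sel_length {sel : List (List ℤ) → List (List ℤ)} (hs : SelSpec sel) {n : ℕ}
    {L : List (List ℤ)} (hL : ∀ v ∈ L, v.length = n) : (sel L).length ≤ n := by
  have h := (hs n L hL).2.1
  unfold Ind at h
  have := h.fintype_card_le_finrank
  simpa using this

theorem step_spec {sel : List (List ℤ) → List (List ℤ)} (hs : SelSpec sel) {n N : ℕ}
    {W : List (List ℤ)} (hW : W = [] ∨ N = n) (m : List (List (List ℤ))) :
    (∀ v ∈ sel (prods N W m), v.length = n) ∧
    vspan n (sel (prods N W m)) = wmul (vspan n W) (mspan n m) ∧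
    (sel (prods N W m) = [] ∨ N = n) := by
  rcases hW with rfl | rfl
  · have h1 : prods N [] m = [] := rfl
    rw [h1, sel_nil hs, vspan_nil, wmul_bot]
    exact ⟨fun v hv => absurd hv List.not_mem_nil, rfl, Or.inl rfl⟩
  · have h1 := hs N (prods N W m) fun v hv => prods_length hv
    refine ⟨fun v hv => prods_length (h1.1 v hv), ?_, Or.inr rfl⟩
    rw [h1.2.2, vspan_prods]

theorem chL_length (sel : List (List ℤ) → List (List ℤ)) (N : ℕ) :
    ∀ (l : List (List (List (List ℤ)))) (W : List (List ℤ)),
      (chL sel N W l).length = l.length + 1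
  | [], W => rfl
  | m :: l, W => by
    rw [chL, List.length_cons, chL_length sel N l, List.length_cons]

theorem chL_zero (sel : List (List ℤ) → List (List ℤ)) (N : ℕ)
    (l : List (List (List (List ℤ)))) (W : List (List ℤ)) :
      (chL sel N W l).getD 0 [] = W := by
  cases l <;> simp [chL]

theorem chL_spec {sel : List (List ℤ) → List (List ℤ)} (hs : SelSpec sel) {n N : ℕ} :
    ∀ (l : List (List (List (List ℤ)))) (W : List (List ℤ)), (∀ v ∈ W, v.length = n) →
      (W = [] ∨ N = n) → (∀ W' ∈ chL sel N W l, ∀ v ∈ W', v.length = n) ∧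
      ∀ i < l.length, vspan n ((chL sel N W l).getD (i + 1) []) =
        wmul (vspan n ((chL sel N W l).getD i [])) (mspan n (l.getD i []))
  | [], W => by
    intro hW _
    refine ⟨fun W' hW' => ?_, fun i hi => absurd hi (by simp)⟩
    rw [chL, List.mem_singleton] at hW'
    rw [hW']; exact hW
  | m :: l, W => by
    intro hW hN
    obtain ⟨h1, h2, h3⟩ := step_spec hs hN m
    obtain ⟨h4, h5⟩ := chL_spec hs l (sel (prods N W m)) h1 h3
    refine ⟨fun W' hW' => ?_, fun i hi => ?_⟩
    · rw [chL, List.mem_cons] at hW'
      rcases hW' with rfl | hW'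
      · exact hW
      · exact h4 W' hW'
    · rw [chL]
      cases i with
      | zero =>
        rw [List.getD_cons_succ, List.getD_cons_zero, List.getD_cons_zero, chL_zero]
        exact h2
      | succ i =>
        rw [List.getD_cons_succ, List.getD_cons_succ, List.getD_cons_succ]
        exact h5 i (by simpa using hi)

/-- size control -/
def G (n : ℕ) (W : List (List ℤ)) (b : ℕ) : Prop :=
  (∀ v ∈ W, v.length = n) ∧ W.length ≤ n ∧ MB W b

theorem G.sz_le {n b : ℕ} {W : List (List ℤ)} (h : G n W b) :
    sz W ≤ n * (n * (4 * b + 6) + 2) + 1 := by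
  obtain ⟨h1, h2, h3⟩ := h
  refine (sz_list_le (B := n * (4 * b + 6) + 1) ?_).trans ?_
  · intro v hv
    refine (sz_list_le (B := 4 * b + 5) ?_).trans ?_
    · intro z hz
      have := H532.sz_int_le z
      have := h3 v hv z hz
      omega
    · rw [h1 v hv]
  · exact Nat.add_le_add_right (Nat.mul_le_mul_right _ h2) 1

theorem G.mono {n b b' : ℕ} {W : List (List ℤ)} (h : G n W b) (hb : b ≤ b') : G n W b' :=
  ⟨h.1, h.2.1, fun r hr z hz => (h.2.2 r hr z hz).trans hb⟩

theorem G_step {sel : List (List ℤ) → List (List ℤ)} (hs : SelSpec sel) {n b c : ℕ}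
    {W : List (List ℤ)} (h : G n W b) {m : List (List (List ℤ))} (hm : ∀ M ∈ m, MB M c) :
    G n (sel (prods n W m)) (b + (c + n.size)) := by
  have h1 := hs n (prods n W m) fun v hv => prods_length hv
  refine ⟨fun v hv => prods_length (h1.1 v hv), sel_length hs fun v hv => prods_length hv, ?_⟩
  intro r hr z hz
  obtain ⟨v, hv, M, hM, rfl⟩ := mem_prods.1 (h1.1 r hr)
  simp only [vm, List.mem_map, List.mem_range] at hz
  obtain ⟨j, hj, rfl⟩ := hz
  have h2 := ib_list_sum ((List.range n).map fun i => v.getD i 0 * entry M i j) (b + c) (by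
    intro z hz
    simp only [List.mem_map, List.mem_range] at hz
    obtain ⟨k, _, rfl⟩ := hz
    have h3 := ib_mul (v.getD k 0) (entry M k j)
    have h4 := ib_entry_le (hm M hM) k j
    have h5 : ib (v.getD k 0) ≤ b := by
      by_cases hk : k < v.length
      · rw [List.getD_eq_getElem _ _ hk]
        exact h.2.2 v hv _ (List.getElem_mem _)
      · rw [List.getD_eq_default _ _ (not_lt.1 hk), ib_zero]
        exact Nat.zero_le _
    omega)
  simp only [List.length_map, List.length_range] at h2
  omega

theorem chL_G {sel : List (List ℤ) → List (List ℤ)} (hs : SelSpec sel) {n c : ℕ} :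
    ∀ (l : List (List (List (List ℤ)))) (W : List (List ℤ)) (b : ℕ), G n W b →
      (∀ m ∈ l, ∀ M ∈ m, MB M c) →
      ∀ W' ∈ chL sel n W l, G n W' (b + l.length * (c + n.size))
  | [], W, b => by
    intro hW _ W' hW'
    rw [chL, List.mem_singleton] at hW'
    rw [hW']
    exact hW.mono (by simp)
  | m :: l, W, b => by
    intro hW hl W' hW'
    rw [chL, List.mem_cons] at hW'
    rcases hW' with rfl | hW'
    · exact hW.mono (by omega)
    · have h1 := G_step hs hW (hl m (by simp))
      have h2 := chL_G hs l _ _ h1 (fun m hm => hl m (List.mem_cons_of_mem _ hm)) W' hW'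
      refine h2.mono ?_
      rw [List.length_cons]
      apply le_of_eq
      ring

theorem foldl_eq (sel : List (List ℤ) → List (List ℤ)) (n : ℕ) :
    ∀ (l : List (List (List (List ℤ)))) (W : List (List ℤ)) (acc : List (List (List ℤ))),
      l.foldl (fun acc m => sel (prods n (acc.getD 0 []) m) :: acc) (W :: acc) =
        (chL sel n W l).reverse ++ acc
  | [], W, acc => by simp [chL]
  | m :: l, W, acc => by
    rw [List.foldl_cons, List.getD_cons_zero, foldl_eq sel n l, chL]
    simp

section
variable {α : Type} [TEnc α]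

theorem Poly_vm {n : α → ℕ} {v : α → List ℤ} {c : α → List (List ℤ)} (hn : UPoly n)
    (hv : Poly v) (hc : Poly c) : Poly (fun a => vm (n a) (v a) (c a)) := by
  unfold vm
  refine NPC.Poly.map (F := fun a j => ((List.range (n a)).map fun i =>
    (v a).getD i 0 * entry (c a) i j).sum) hn.range ?_
  refine Poly_sumZ ?_
  refine NPC.Poly.map (α := α × ℕ) (F := fun p i => (v p.1).getD i 0 * entry (c p.1) i p.2)
    (hn.comp (Poly.fst Poly.id)).range ?_
  have h1 : Poly (fun p : (α × ℕ) × ℕ => p.1.1) := Poly.fst (Poly.fst Poly.id)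
  have h2 : Poly (fun p : (α × ℕ) × ℕ => p.1.2) := Poly.snd (Poly.fst Poly.id)
  have h3 : Poly (fun p : (α × ℕ) × ℕ => p.2) := Poly.snd Poly.id
  exact Poly_mulZ (Poly.getD (hv.comp h1) h3 (NPC.Poly.const _)) (Poly_entry (hc.comp h1) h3 h2)

theorem Poly_cut {n : α → ℕ} {v : α → List ℤ} (hn : UPoly n) (hv : Poly v) :
    Poly (fun a => cut (n a) (v a)) := by
  unfold cut
  refine NPC.Poly.map (F := fun a j => (v a).getD j 0) hn.range ?_
  exact Poly.getD (hv.comp (Poly.fst Poly.id)) (Poly.snd Poly.id) (NPC.Poly.const _)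

theorem Poly_prods {n : α → ℕ} {W : α → List (List ℤ)} {m : α → List (List (List ℤ))}
    (hn : UPoly n) (hW : Poly W) (hm : Poly m) : Poly (fun a => prods (n a) (W a) (m a)) := by
  unfold prods
  refine NPC.Poly.flatMap (F := fun a v => (m a).map fun c => vm (n a) v c) hW ?_
  refine NPC.Poly.map (α := α × List ℤ) (F := fun p c => vm (n p.1) p.2 c)
    (hm.comp (Poly.fst Poly.id)) ?_
  exact Poly_vm (hn.comp (Poly.fst (Poly.fst Poly.id))) (Poly.snd (Poly.fst Poly.id))
    (Poly.snd Poly.id)

end

end Chain

open Chain in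
theorem chain (h : SelS) : ChainS := by
  obtain ⟨sel, hsel, hs⟩ := h
  have hs' : SelSpec sel := hs
  set nn : List (List ℤ) × List (List (List (List ℤ))) → ℕ := fun a => (a.1.getD 0 []).length
    with hnn
  have hn : UPoly nn := UPoly.length (Poly.getD (l := fun a : List (List ℤ) × List (List (List (List ℤ))) => a.1)
      (n := fun _ => 0) (d := fun _ => ([] : List ℤ)) (Poly.fst Poly.id) (NPC.Poly.const 0) (NPC.Poly.const []))
  have hz1 : ∀ a : List (List ℤ) × List (List (List (List ℤ))), sz a.1 ≤ sz a := by
    rintro ⟨L, mm⟩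
    show sz L ≤ sz (L, mm)
    rw [sz_pair]
    omega
  have hz2 : ∀ a : List (List ℤ) × List (List (List (List ℤ))), sz a.2 ≤ sz a := by
    rintro ⟨L, mm⟩
    show sz mm ≤ sz (L, mm)
    rw [sz_pair]
    omega
  refine ⟨fun a => chL sel (nn a) (sel (a.1.map (cut (nn a)))) a.2, ?_, ?_⟩
  · have hW0 : Poly (fun a : List (List ℤ) × List (List (List (List ℤ))) =>
        sel (a.1.map (cut (nn a)))) := by
      refine hsel.comp (NPC.Poly.map (F := fun a v => cut (nn a) v) (Poly.fst Poly.id) ?_)
      exact Poly_cut (hn.comp (Poly.fst Poly.id)) (Poly.snd Poly.id)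
    have hF : Poly (fun p : (List (List ℤ) × List (List (List (List ℤ)))) ×
        List (List (List ℤ)) × List (List (List ℤ)) =>
          sel (prods (nn p.1) (p.2.1.getD 0 []) p.2.2) :: p.2.1) := by
      refine Poly.cons (hsel.comp (Poly_prods (hn.comp (Poly.fst Poly.id)) ?_ ?_)) ?_
      · exact Poly.getD (Poly.fst (Poly.snd Poly.id)) (NPC.Poly.const 0) (NPC.Poly.const [])
      · exact Poly.snd (Poly.snd Poly.id)
      · exact Poly.fst (Poly.snd Poly.id)
    have hfold : Poly (fun a : List (List ℤ) × List (List (List (List ℤ))) =>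
        a.2.foldl (fun acc m => sel (prods (nn a) (acc.getD 0 []) m) :: acc)
          [sel (a.1.map (cut (nn a)))]) := by
      refine Poly_foldl (F := fun a (acc : List (List (List ℤ))) (m : List (List (List ℤ))) =>
        sel (prods (nn a) (acc.getD 0 []) m) :: acc)
        (Poly.snd Poly.id) (Poly.cons hW0 (NPC.Poly.const [])) hF
        (fun a => (sz a + 1) * ((sz a * (sz a * (4 * (sz a + sz a * (sz a + sz a)) + 6) + 2) + 1)
          + 1) + 1) ?_ ?_
      · have hz : PB (fun a : List (List ℤ) × List (List (List (List ℤ))) => sz a) :=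
          PB.sz Poly.id
        have hb : PB (fun a : List (List ℤ) × List (List (List (List ℤ))) =>
          4 * (sz a + sz a * (sz a + sz a)) + 6) :=
          ((PB.const 4).mul (hz.add (hz.mul (hz.add hz)))).add (PB.const 6)
        exact ((hz.add (PB.const 1)).mul (((hz.mul ((hz.mul hb).add (PB.const 2))).add
          (PB.const 1)).add (PB.const 1))).add (PB.const 1)
      · intro a k hk
        rw [foldl_eq, List.append_nil, sz_reverse]
        have hna : nn a ≤ sz a := by
          have h1 := length_lt_sz (a.1.getD 0 [])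
          have h2 : sz (a.1.getD 0 []) ≤ sz a := by
            have h3 := hz1 a
            have h4 := sz_pos a.1
            by_cases h0 : 0 < a.1.length
            · have h5 := sz_le_of_mem (List.getElem_mem h0)
              rw [List.getD_eq_getElem _ _ h0]
              omega
            · rw [List.getD_eq_default _ _ (not_lt.1 h0), sz_list_nil]
              omega
          show (a.1.getD 0 []).length ≤ sz a
          omega
        have hG0 : G (nn a) (sel (a.1.map (cut (nn a)))) (sz a) := by
          have h1 : ∀ v ∈ a.1.map (cut (nn a)), v.length = nn a := by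
            intro v hv
            obtain ⟨w, _, rfl⟩ := List.mem_map.1 hv
            exact cut_length _ _
          have h2 := hs (nn a) _ h1
          refine ⟨fun v hv => h1 v (h2.1 v hv), sel_length hs' h1, ?_⟩
          intro r hr z hz
          obtain ⟨w, hw, rfl⟩ := List.mem_map.1 (h2.1 r hr)
          simp only [cut, List.mem_map, List.mem_range] at hz
          obtain ⟨j, _, rfl⟩ := hz
          by_cases hj : j < w.length
          · rw [List.getD_eq_getElem _ _ hj]
            refine (ib_le_sz _).trans ?_
            have h3 := sz_le_of_mem (List.getElem_mem hj)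
            have h4 := sz_le_of_mem hw
            have h5 : sz a.1 ≤ sz a := hz1 a
            omega
          · rw [List.getD_eq_default _ _ (not_lt.1 hj), ib_zero]
            exact Nat.zero_le _
        have hM : ∀ m ∈ a.2.take k, ∀ M ∈ m, MB M (sz a) := by
          intro m hm M hM r hr z hz
          have h1 := sz_le_of_mem (List.mem_of_mem_take hm)
          have h2 := sz_le_of_mem hM
          have h3 := sz_le_of_mem hr
          have h4 := sz_le_of_mem hz
          have h5 := ib_le_sz z
          have h6 : sz a.2 ≤ sz a := hz2 a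
          omega
        have hk' : (a.2.take k).length ≤ sz a := by
          have h1 := length_lt_sz a.2
          have h6 : sz a.2 ≤ sz a := hz2 a
          rw [List.length_take]
          omega
        have hall := chL_G hs' (a.2.take k) _ _ hG0 hM
        have hsize : (nn a).size ≤ sz a := (Poly.size_le_self _).trans hna
        refine (sz_list_le (B := sz a * (sz a * (4 * (sz a + sz a * (sz a + sz a)) + 6) + 2) + 1)
          ?_).trans ?_
        · intro W' hW'
          have h1 := (hall W' hW').mono (b' := sz a + sz a * (sz a + sz a))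
            (Nat.add_le_add_left (Nat.mul_le_mul hk' (Nat.add_le_add_left hsize _)) _)
          refine h1.sz_le.trans ?_
          gcongr
        · rw [chL_length]
          gcongr
    refine (Poly.reverse hfold).congr fun a => ?_
    rw [foldl_eq, List.append_nil, List.reverse_reverse]
  · intro n L mm hL hmm
    have hcut : ∀ v ∈ L.map (cut (nn (L, mm))), v.length = nn (L, mm) := by
      intro v hv
      obtain ⟨w, _, rfl⟩ := List.mem_map.1 hv
      exact cut_length _ _
    have hW0 : sel (L.map (cut (nn (L, mm)))) = [] ∨ nn (L, mm) = n := by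
      cases L with
      | nil => left; rw [List.map_nil]; exact sel_nil hs'
      | cons v L' => right; exact hL v (by simp)
    have hmap : L.map (cut (nn (L, mm))) = L := by
      cases L with
      | nil => rfl
      | cons v L' =>
        have : nn (v :: L', mm) = n := hL v (by simp)
        rw [this]
        conv_rhs => rw [← List.map_id (v :: L')]
        exact List.map_congr_left fun w hw => cut_self (hL w hw)
    rw [hmap] at hW0
    have hval : (fun a : List (List ℤ) × List (List (List (List ℤ))) =>
        chL sel (nn a) (sel (a.1.map (cut (nn a)))) a.2) (L, mm) =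
        chL sel (nn (L, mm)) (sel L) mm := by
      show chL sel (nn (L, mm)) (sel (L.map (cut (nn (L, mm))))) mm = _
      rw [hmap]
    rw [hval]
    have h1 := hs n L hL
    have h2 := chL_spec hs' (n := n) (N := nn (L, mm)) mm (sel L)
      (fun v hv => hL v (h1.1 v hv)) hW0
    refine ⟨chL_length _ _ _ _, h2.1, ?_, h2.2⟩
    rw [chL_zero]
    exact h1.2.2

end Pool.Agent.H420_NCF
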