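import Pool.Agent.H420_NCF.Spec

/-!
# Closure of a space under matrices
-/

namespace Pool.Agent.H420_NCF

open Pool.Agent.NPC Pool.Agent.NPC.H532 Pool.Agent.H687R2.LLL
open scoped Matrix

namespace Clo

/-- the vector `v` cut or filled up to length `n` -/
def pad (n : ℕ) (v : List ℤ) : List ℤ := (List.range n).map fun i => v.getD i 0

/-- row vector times matrix -/
def vm (n : ℕ) (v : List ℤ) (M : List (List ℤ)) : List ℤ :=
  (List.range n).map fun j => ((List.range n).map fun i => v.getD i 0 * entry M i j).sum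

/-- the list of a round, before selection -/
def big (n : ℕ) (Ms : List (List (List ℤ))) (cur : List (List ℤ)) : List (List ℤ) :=
  cur ++ cur.flatMap fun v => Ms.map fun M => vm n v M

/-- dimension -/
def dm (a : List (List (List ℤ)) × List (List ℤ)) : ℕ := (a.2.getD 0 []).length

/-- the state after `k` rounds -/
def rnd (sel : List (List ℤ) → List (List ℤ)) (a : List (List (List ℤ)) × List (List ℤ)) (k : ℕ) :
    List (List ℤ) :=
  (List.range k).foldl (fun cur _ => sel (big (dm a) a.1 cur)) (sel (a.2.map (pad (dm a))))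

theorem rnd_zero (sel : List (List ℤ) → List (List ℤ)) (a : List (List (List ℤ)) × List (List ℤ)) :
    rnd sel a 0 = sel (a.2.map (pad (dm a))) := rfl

theorem rnd_succ (sel : List (List ℤ) → List (List ℤ)) (a : List (List (List ℤ)) × List (List ℤ))
    (k : ℕ) : rnd sel a (k + 1) = sel (big (dm a) a.1 (rnd sel a k)) := by
  unfold rnd
  rw [List.range_succ, List.foldl_append]
  rfl

theorem pad_length (n : ℕ) (v : List ℤ) : (pad n v).length = n := by simp [pad]

theorem vm_length (n : ℕ) (v : List ℤ) (M : List (List ℤ)) : (vm n v M).length = n := by simp [vm]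

theorem pad_eq {n : ℕ} {v : List ℤ} (h : v.length = n) : pad n v = v := by
  subst h
  unfold pad
  apply List.ext_getElem
  · simp
  · intro i h1 h2
    simp
    rw [List.getElem?_eq_getElem h2, Option.getD_some]

theorem big_length {n : ℕ} {Ms : List (List (List ℤ))} {cur : List (List ℤ)}
    (h : ∀ v ∈ cur, v.length = n) : ∀ v ∈ big n Ms cur, v.length = n := by
  intro v hv
  unfold big at hv
  rw [List.mem_append, List.mem_flatMap] at hv
  rcases hv with hv | ⟨w, _, hv⟩
  · exact h v hv
  · rw [List.mem_map] at hv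
    obtain ⟨M, _, rfl⟩ := hv
    exact vm_length _ _ _

/-! ### polynomial time -/

section
variable {α : Type} [TEnc α]

theorem Poly_pad {n : α → ℕ} {v : α → List ℤ} (hn : UPoly n) (hv : Poly v) :
    Poly (fun a => pad (n a) (v a)) := by
  unfold pad
  refine NPC.Poly.map (F := fun a i => (v a).getD i 0) hn.range ?_
  exact Poly.getD (hv.comp (Poly.fst Poly.id)) (Poly.snd Poly.id) (NPC.Poly.const _)

theorem Poly_vm {n : α → ℕ} {v : α → List ℤ} {M : α → List (List ℤ)} (hn : UPoly n) (hv : Poly v)
    (hM : Poly M) : Poly (fun a => vm (n a) (v a) (M a)) := by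
  unfold vm
  refine NPC.Poly.map (F := fun a j => ((List.range (n a)).map fun i =>
    (v a).getD i 0 * entry (M a) i j).sum) hn.range ?_
  refine Poly_sumZ ?_
  have h1 : Poly (fun p : α × ℕ => p.1) := Poly.fst Poly.id
  refine NPC.Poly.map (α := α × ℕ) (F := fun p i => (v p.1).getD i 0 * entry (M p.1) i p.2)
    (hn.comp h1).range ?_
  have h2 : Poly (fun p : (α × ℕ) × ℕ => p.1.1) := Poly.fst (Poly.fst Poly.id)
  have h3 : Poly (fun p : (α × ℕ) × ℕ => p.1.2) := Poly.snd (Poly.fst Poly.id)
  have h4 : Poly (fun p : (α × ℕ) × ℕ => p.2) := Poly.snd Poly.id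
  exact Poly_mulZ (Poly.getD (hv.comp h2) h4 (NPC.Poly.const _)) (Poly_entry (hM.comp h2) h4 h3)

theorem Poly_big {n : α → ℕ} {Ms : α → List (List (List ℤ))} {cur : α → List (List ℤ)}
    (hn : UPoly n) (hM : Poly Ms) (hc : Poly cur) : Poly (fun a => big (n a) (Ms a) (cur a)) := by
  unfold big
  refine Poly.append hc ?_
  refine Poly.flatMap (F := fun a v => (Ms a).map fun M => vm (n a) v M) hc ?_
  have h1 : Poly (fun p : α × List ℤ => p.1) := Poly.fst Poly.id
  refine NPC.Poly.map (α := α × List ℤ) (F := fun p M => vm (n p.1) p.2 M) (hM.comp h1) ?_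
  have h2 : Poly (fun p : (α × List ℤ) × List (List ℤ) => p.1.1) := Poly.fst (Poly.fst Poly.id)
  have h3 : Poly (fun p : (α × List ℤ) × List (List ℤ) => p.1.2) := Poly.snd (Poly.fst Poly.id)
  exact Poly_vm (hn.comp h2) h3 (Poly.snd Poly.id)

end

theorem UPoly_dm : UPoly dm := by
  unfold dm
  exact UPoly.length (Poly.getD (Poly.snd Poly.id) (NPC.Poly.const 0) (NPC.Poly.const []))

/-- specification of the selection -/
def Spec (sel : List (List ℤ) → List (List ℤ)) : Prop :=
  ∀ (n : ℕ) (L : List (List ℤ)), (∀ v ∈ L, v.length = n) →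
    (∀ v ∈ sel L, v ∈ L) ∧ Ind n (sel L) ∧ vspan n (sel L) = vspan n L

theorem Ind_length {n : ℕ} {L : List (List ℤ)} (h : Ind n L) : L.length ≤ n := by
  have := h.fintype_card_le_finrank
  simpa using this

theorem rnd_len {sel : List (List ℤ) → List (List ℤ)} (hs : Spec sel)
    (a : List (List (List ℤ)) × List (List ℤ)) (k : ℕ) : ∀ v ∈ rnd sel a k, v.length = dm a := by
  induction k with
  | zero =>
    rw [rnd_zero]
    have h1 : ∀ v ∈ a.2.map (pad (dm a)), v.length = dm a := by
      intro v hv
      rw [List.mem_map] at hv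
      obtain ⟨w, _, rfl⟩ := hv
      exact pad_length _ _
    intro v hv
    exact h1 v ((hs _ _ h1).1 v hv)
  | succ k ih =>
    rw [rnd_succ]
    intro v hv
    exact big_length ih v ((hs _ _ (big_length ih)).1 v hv)

theorem rnd_ind {sel : List (List ℤ) → List (List ℤ)} (hs : Spec sel)
    (a : List (List (List ℤ)) × List (List ℤ)) (k : ℕ) : Ind (dm a) (rnd sel a k) := by
  cases k with
  | zero =>
    rw [rnd_zero]
    have h1 : ∀ v ∈ a.2.map (pad (dm a)), v.length = dm a := by
      intro v hv
      rw [List.mem_map] at hv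
      obtain ⟨w, _, rfl⟩ := hv
      exact pad_length _ _
    exact (hs _ _ h1).2.1
  | succ k =>
    rw [rnd_succ]
    exact (hs _ _ (big_length (rnd_len hs a k))).2.1

theorem ib_getD {v : List ℤ} {b : ℕ} (h : ∀ z ∈ v, ib z ≤ b) (i : ℕ) : ib (v.getD i 0) ≤ b := by
  by_cases hi : i < v.length
  · rw [List.getD_eq_getElem _ _ hi]
    exact h _ (List.getElem_mem _)
  · rw [List.getD_eq_default _ _ (not_lt.1 hi), ib_zero]
    exact Nat.zero_le _

theorem MB_big {n : ℕ} {Ms : List (List (List ℤ))} {cur : List (List ℤ)} {b c : ℕ}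
    (hc : MB cur b) (hM : ∀ M ∈ Ms, MB M c) : MB (big n Ms cur) (b + (c + n.size)) := by
  intro r hr z hz
  unfold big at hr
  rw [List.mem_append, List.mem_flatMap] at hr
  rcases hr with hr | ⟨v, hv, hr⟩
  · exact (hc r hr z hz).trans (by omega)
  · rw [List.mem_map] at hr
    obtain ⟨M, hM', rfl⟩ := hr
    unfold vm at hz
    simp only [List.mem_map, List.mem_range] at hz
    obtain ⟨j, hj, rfl⟩ := hz
    have := ib_list_sum ((List.range n).map fun i => v.getD i 0 * entry M i j) (b + c) (by
      intro z hz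
      simp only [List.mem_map, List.mem_range] at hz
      obtain ⟨i, _, rfl⟩ := hz
      have h1 := ib_mul (v.getD i 0) (entry M i j)
      have h2 := ib_getD (hc v hv) i
      have h3 := ib_entry_le (hM M hM') i j
      omega)
    simp only [List.length_map, List.length_range] at this
    omega

theorem MB_pad {n : ℕ} {L : List (List ℤ)} {b : ℕ} (h : MB L b) : MB (L.map (pad n)) b := by
  intro r hr z hz
  rw [List.mem_map] at hr
  obtain ⟨v, hv, rfl⟩ := hr
  unfold pad at hz
  simp only [List.mem_map, List.mem_range] at hz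
  obtain ⟨j, hj, rfl⟩ := hz
  exact ib_getD (h v hv) j

theorem rnd_MB {sel : List (List ℤ) → List (List ℤ)} (hs : Spec sel)
    (a : List (List (List ℤ)) × List (List ℤ)) (k : ℕ) :
    MB (rnd sel a k) (sz a.2 + k * (sz a.1 + (dm a).size)) := by
  have hM : ∀ M ∈ a.1, MB M (sz a.1) := by
    intro M hM r hr z hz
    exact (MB_sz M r hr z hz).trans (sz_le_of_mem hM).le
  induction k with
  | zero =>
    rw [rnd_zero]
    have h1 : ∀ v ∈ a.2.map (pad (dm a)), v.length = dm a := by
      intro v hv
      rw [List.mem_map] at hv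
      obtain ⟨w, _, rfl⟩ := hv
      exact pad_length _ _
    intro r hr z hz
    have := MB_pad (n := dm a) (MB_sz a.2) r ((hs _ _ h1).1 r hr) z hz
    simpa using this
  | succ k ih =>
    rw [rnd_succ]
    intro r hr z hz
    have := MB_big (n := dm a) ih hM r ((hs _ _ (big_length (rnd_len hs a k))).1 r hr) z hz
    refine this.trans (le_of_eq ?_)
    ring

theorem sz_rnd_le {sel : List (List ℤ) → List (List ℤ)} (hs : Spec sel)
    (a : List (List (List ℤ)) × List (List ℤ)) (k : ℕ) (hk : k ≤ dm a) :
    sz (rnd sel a k) ≤ dm a * (dm a * (4 * (sz a.2 + dm a * (sz a.1 + (dm a).size)) + 6) + 2) + 1 := by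
  have h1 : (rnd sel a k).length ≤ dm a := Ind_length (rnd_ind hs a k)
  have h2 : ∀ v ∈ rnd sel a k,
      sz v ≤ dm a * (4 * (sz a.2 + dm a * (sz a.1 + (dm a).size)) + 6) + 1 := by
    intro v hv
    have h3 := sz_le_length_mul v (4 * (sz a.2 + dm a * (sz a.1 + (dm a).size)) + 5) (by
      intro z hz
      have h4 := H532.sz_int_le z
      have h5 := rnd_MB hs a k v hv z hz
      have h6 : k * (sz a.1 + (dm a).size) ≤ dm a * (sz a.1 + (dm a).size) :=
        Nat.mul_le_mul_right _ hk
      omega)
    rw [rnd_len hs a k v hv] at h3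
    exact h3
  exact (sz_le_length_mul _ _ h2).trans (Nat.add_le_add_right (Nat.mul_le_mul_right _ h1) 1)

theorem Poly_rnd {sel : List (List ℤ) → List (List ℤ)} (hp : Poly sel) (hs : Spec sel) :
    Poly (fun a => rnd sel a (dm a)) := by
  unfold rnd
  have hid : Poly (fun a : List (List (List ℤ)) × List (List ℤ) => a) := Poly.id
  have h2 : Poly (fun a : List (List (List ℤ)) × List (List ℤ) => a.2) := Poly.snd Poly.id
  have h1 : Poly (fun a : List (List (List ℤ)) × List (List ℤ) => a.1) := Poly.fst Poly.id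
  refine Poly_foldRange (n := dm) (s := fun a => sel (a.2.map (pad (dm a))))
    (F := fun a cur _ => sel (big (dm a) a.1 cur)) UPoly_dm ?_ ?_
    (fun a => dm a * (dm a * (4 * (sz a.2 + dm a * (sz a.1 + (dm a).size)) + 6) + 2) + 1) ?_ ?_
  · refine hp.comp (NPC.Poly.map (F := fun a v => pad (dm a) v) h2 ?_)
    exact Poly_pad (UPoly_dm.comp (Poly.fst Poly.id)) (Poly.snd Poly.id)
  · refine hp.comp (Poly_big (UPoly_dm.comp (Poly.fst Poly.id)) (h1.comp (Poly.fst Poly.id))
      (Poly.fst (Poly.snd Poly.id)))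
  · have hd : PB dm := PB.of_upoly UPoly_dm
    have hA : PB (fun a : List (List (List ℤ)) × List (List ℤ) =>
        sz a.2 + dm a * (sz a.1 + (dm a).size)) :=
      (PB.sz h2).add (hd.mul ((PB.sz h1).add (PB.size hd)))
    exact (hd.mul ((hd.mul (((PB.const 4).mul hA).add (PB.const 6))).add (PB.const 2))).add
      (PB.const 1)
  · intro a k hk
    exact sz_rnd_le hs a k hk

/-! ### correctness -/

theorem vspan_append (n : ℕ) (A B : List (List ℤ)) :
    vspan n (A ++ B) = vspan n A ⊔ vspan n B := by
  unfold vspan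
  rw [← Submodule.span_union]
  congr 1
  ext w
  simp only [List.mem_append, Set.mem_union, Set.mem_ofPred_eq]
  constructor
  · rintro ⟨v, h | h, e⟩
    · exact Or.inl ⟨v, h, e⟩
    · exact Or.inr ⟨v, h, e⟩
  · rintro (⟨v, h, e⟩ | ⟨v, h, e⟩)
    · exact ⟨v, Or.inl h, e⟩
    · exact ⟨v, Or.inr h, e⟩

theorem list_sum_range (n : ℕ) (f : ℕ → ℤ) :
    ((List.range n).map f).sum = ∑ i : Fin n, f i := by
  rw [← List.sum_ofFn]
  congr 1
  apply List.ext_getElem
  · simp
  · intro i h1 h2
    simp

theorem vq_vm (n : ℕ) (v : List ℤ) (M : List (List ℤ)) :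
    vq n (vm n v M) = vq n v ᵥ* mq n M := by
  funext j
  have h1 : (vm n v M).getD j 0 =
      ((List.range n).map fun i => v.getD i 0 * entry M i j).sum := by
    unfold vm
    rw [List.getD_eq_getElem _ _ (by simp)]
    simp
  rw [Matrix.vecMul, dotProduct]
  unfold vq mq
  rw [h1, list_sum_range]
  push_cast
  rfl

/-- one round, on subspaces -/
def T (n : ℕ) (Ms : List (List (List ℤ))) (V : Submodule ℚ (Fin n → ℚ)) :
    Submodule ℚ (Fin n → ℚ) :=
  V ⊔ Submodule.span ℚ {y | ∃ w ∈ V, ∃ M ∈ Ms, y = w ᵥ* mq n M}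

theorem vspan_big (n : ℕ) (Ms : List (List (List ℤ))) (cur : List (List ℤ)) :
    vspan n (big n Ms cur) = T n Ms (vspan n cur) := by
  unfold big T
  rw [vspan_append]
  congr 1
  apply le_antisymm
  · unfold vspan
    rw [Submodule.span_le]
    rintro y ⟨v, hv, rfl⟩
    rw [List.mem_flatMap] at hv
    obtain ⟨w, hw, hv⟩ := hv
    rw [List.mem_map] at hv
    obtain ⟨M, hM, rfl⟩ := hv
    rw [vq_vm]
    exact Submodule.subset_span ⟨vq n w, Submodule.subset_span ⟨w, hw, rfl⟩, M, hM, rfl⟩
  · rw [Submodule.span_le]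
    rintro y ⟨w, hw, M, hM, rfl⟩
    have hw' : w ∈ Submodule.span ℚ {w | ∃ v ∈ cur, w = vq n v} := hw
    induction hw' using Submodule.span_induction with
    | mem x hx =>
      obtain ⟨v, hv, rfl⟩ := hx
      rw [← vq_vm]
      refine Submodule.subset_span ⟨vm n v M, ?_, rfl⟩
      rw [List.mem_flatMap]
      exact ⟨v, hv, List.mem_map_of_mem hM⟩
    | zero => rw [Matrix.zero_vecMul]; exact Submodule.zero_mem _
    | add x y hx hy h1 h2 =>
      rw [Matrix.add_vecMul]; exact Submodule.add_mem _ (h1 hx) (h2 hy)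
    | smul c x hx h1 =>
      rw [Matrix.smul_vecMul]; exact Submodule.smul_mem _ _ (h1 hx)

theorem T_ge (n : ℕ) (Ms : List (List (List ℤ))) (V : Submodule ℚ (Fin n → ℚ)) : V ≤ T n Ms V :=
  le_sup_left

theorem T_mem {n : ℕ} {Ms : List (List (List ℤ))} {V : Submodule ℚ (Fin n → ℚ)}
    {w : Fin n → ℚ} (hw : w ∈ V) {M : List (List ℤ)} (hM : M ∈ Ms) : w ᵥ* mq n M ∈ T n Ms V :=
  Submodule.mem_sup_right (Submodule.subset_span ⟨w, hw, M, hM, rfl⟩)

theorem T_le {n : ℕ} {Ms : List (List (List ℤ))} {V U : Submodule ℚ (Fin n → ℚ)} (h : V ≤ U)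
    (hU : ∀ M ∈ Ms, ∀ w ∈ U, w ᵥ* mq n M ∈ U) : T n Ms V ≤ U := by
  refine sup_le h ?_
  rw [Submodule.span_le]
  rintro y ⟨w, hw, M, hM, rfl⟩
  exact hU M hM w (h hw)

theorem T_stable (n : ℕ) (Ms : List (List (List ℤ))) (V : Submodule ℚ (Fin n → ℚ)) :
    T n Ms ((T n Ms)^[n] V) = (T n Ms)^[n] V := by
  by_contra hne
  have key : ∀ k ≤ n, (T n Ms)^[k] V < (T n Ms)^[k + 1] V := by
    intro k hk
    rw [Function.iterate_succ_apply']
    refine lt_of_le_of_ne (T_ge _ _ _) fun h => hne ?_
    have h2 : ∀ j, (T n Ms)^[k + j] V = (T n Ms)^[k] V := by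
      intro j
      induction j with
      | zero => rfl
      | succ j ih =>
        rw [← add_assoc, Function.iterate_succ_apply', ih, ← h]
    have h3 := h2 (n - k)
    have h4 : k + (n - k) = n := by omega
    rw [h4] at h3
    rw [h3]
    exact h.symm
  have h5 : ∀ k ≤ n + 1, k ≤ Module.finrank ℚ ((T n Ms)^[k] V) := by
    intro k
    induction k with
    | zero => intro _; exact Nat.zero_le _
    | succ k ih =>
      intro hk
      have h6 := ih (by omega)
      have h7 := Submodule.finrank_lt_finrank_of_lt (key k (by omega))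
      omega
  have h8 := h5 (n + 1) le_rfl
  have h9 := Submodule.finrank_le ((T n Ms)^[n + 1] V)
  simp only [Module.finrank_fintype_fun_eq_card, Fintype.card_fin] at h9
  omega

end Clo

open Clo in
theorem clo (h : SelS) : CloS := by
  obtain ⟨sel, hp, hs⟩ := h
  have hs' : Spec sel := hs
  refine ⟨fun a => rnd sel a (dm a), Poly_rnd hp hs', ?_⟩
  intro n Ms L hMs hL
  by_cases hLe : L = []
  · -- the empty list
    subst hLe
    have hd : dm (Ms, ([] : List (List ℤ))) = 0 := rfl
    have he : rnd sel (Ms, ([] : List (List ℤ))) (dm (Ms, ([] : List (List ℤ)))) = [] := by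
      rw [hd, rnd_zero]
      have := (hs 0 [] (by simp)).1
      simp only [List.map_nil]
      exact List.eq_nil_iff_forall_not_mem.mpr fun v hv => by simpa using this v hv
    simp only [he]
    have hbot : vspan n [] = ⊥ := by
      unfold vspan
      simp
    refine ⟨by simp, ?_, le_refl _, ?_, ?_⟩
    · unfold Ind
      have : IsEmpty (Fin ([] : List (List ℤ)).length) := by
        rw [List.length_nil]; exact Fin.isEmpty
      exact linearIndependent_empty_type
    · intro M _ w hw
      rw [hbot, Submodule.mem_bot] at hw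
      rw [hw, Matrix.zero_vecMul]
      exact Submodule.zero_mem _
    · intro U _ _
      rw [hbot]
      exact bot_le
  · have hd : dm (Ms, L) = n := by
      unfold dm
      obtain ⟨v, L', rfl⟩ := List.exists_cons_of_ne_nil hLe
      simpa using hL v (by simp)
    set a : List (List (List ℤ)) × List (List ℤ) := (Ms, L) with ha
    have hpad : a.2.map (pad (dm a)) = L := by
      rw [hd]
      conv_rhs => rw [← List.map_id L]
      apply List.map_congr_left
      intro v hv
      exact pad_eq (hL v hv)
    have hspan : ∀ k, vspan n (rnd sel a k) = (T n Ms)^[k] (vspan n L) := by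
      intro k
      induction k with
      | zero =>
        rw [rnd_zero, hpad]
        exact (hs n L hL).2.2
      | succ k ih =>
        rw [rnd_succ, Function.iterate_succ_apply', ← ih, ← vspan_big, hd]
        have h1 := rnd_len hs' a k
        rw [hd] at h1
        exact (hs n _ (big_length h1)).2.2
    have hlen := rnd_len hs' a (dm a)
    have hind := rnd_ind hs' a (dm a)
    rw [hd] at hlen hind
    have hstab := T_stable n Ms (vspan n L)
    simp only [hd]
    rw [hspan n]
    refine ⟨hlen, hind, ?_, ?_, ?_⟩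
    · have : ∀ k, vspan n L ≤ (T n Ms)^[k] (vspan n L) := by
        intro k
        induction k with
        | zero => exact le_refl _
        | succ k ih =>
          rw [Function.iterate_succ_apply']
          exact ih.trans (T_ge _ _ _)
      exact this n
    · intro M hM w hw
      have := T_mem hw hM
      rwa [hstab] at this
    · intro U hU hUM
      have : ∀ k, (T n Ms)^[k] (vspan n L) ≤ U := by
        intro k
        induction k with
        | zero => exact hU
        | succ k ih =>
          rw [Function.iterate_succ_apply']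
          exact T_le ih hUM
      exact this n

end Pool.Agent.H420_NCF
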