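import Mathlib

/-!
# Noncommutative polynomials: coefficients, left quotients, degrees (definitions and basic lemmas)

`NC k` is the free associative algebra over `k` on the letters `0, 1, 2, ...`: finite linear
combinations of words, with the product given by concatenation.
-/

namespace Pool.Agent.H420_NCF

open Submodule

/-- The free associative algebra on the letters `0, 1, 2, ...`, as the algebra of the free monoid. -/
abbrev NC (k : Type*) [Field k] := MonoidAlgebra k (FreeMonoid ℕ)

variable {k : Type*} [Field k]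

/-- The coefficient of the word `w`, as a linear functional. -/
def cf (w : List ℕ) : NC k →ₗ[k] k where
  toFun p := p.coeff (FreeMonoid.ofList w)
  map_add' p q := by simp
  map_smul' c p := by simp

/-- The word `w` as an element of the algebra. -/
noncomputable def mon (w : List ℕ) : NC k := MonoidAlgebra.single (FreeMonoid.ofList w) 1

@[ext] theorem NC.ext {p q : NC k} (h : ∀ w, cf w p = cf w q) : p = q := by
  apply MonoidAlgebra.ext
  ext w
  exact h (FreeMonoid.toList w)

theorem cf_apply (w : List ℕ) (p : NC k) : cf w p = p.coeff (FreeMonoid.ofList w) := rfl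

theorem cf_mon (u w : List ℕ) : cf w (mon u : NC k) = if u = w then 1 else 0 := by
  classical
  rw [cf_apply, mon, MonoidAlgebra.coeff_single, Finsupp.single_apply]
  exact if_congr Iff.rfl rfl rfl

/-- Induction on monomials. -/
theorem mon_induction {P : NC k → Prop} (p : NC k) (h0 : P 0) (hadd : ∀ p q, P p → P q → P (p + q))
    (hm : ∀ (c : k) (w : List ℕ), P (c • mon w)) : P p := by
  induction p using MonoidAlgebra.induction_linear with
  | zero => exact h0
  | add p q hp hq => exact hadd p q hp hq
  | single w c =>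
    have := hm c (FreeMonoid.toList w)
    unfold mon at this
    rwa [MonoidAlgebra.smul_single, smul_eq_mul, mul_one, FreeMonoid.ofList_toList] at this

theorem mon_nil : (mon [] : NC k) = 1 := rfl

theorem mon_append (u v : List ℕ) : (mon (u ++ v) : NC k) = mon u * mon v := by
  unfold mon
  rw [MonoidAlgebra.single_mul_single, mul_one, FreeMonoid.ofList_append]

theorem mon_cons (x : ℕ) (v : List ℕ) : (mon (x :: v) : NC k) = mon [x] * mon v :=
  mon_append [x] v

/-- The constant term. -/
def eps : NC k →ₗ[k] k := cf []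

theorem eps_def (p : NC k) : eps p = cf [] p := rfl

theorem eps_one : eps (1 : NC k) = 1 := by
  rw [← mon_nil, eps_def, cf_mon, if_pos rfl]

theorem eps_mon (w : List ℕ) : eps (mon w : NC k) = if w = [] then 1 else 0 := by
  rw [eps_def, cf_mon]

/-- The left quotient by the letter `x`: `lq x (x w) = w` and `lq x w = 0` if the word `w` does not
begin with `x`. -/
noncomputable def lq (x : ℕ) : NC k →ₗ[k] NC k where
  toFun p := MonoidAlgebra.ofCoeff
    (p.coeff.comapDomain (fun w => FreeMonoid.of x * w) (mul_right_injective _).injOn)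
  map_add' p q := by
    apply MonoidAlgebra.ext; ext w; simp
  map_smul' c p := by
    apply MonoidAlgebra.ext; ext w; simp

theorem cf_lq (x : ℕ) (w : List ℕ) (p : NC k) : cf w (lq x p) = cf (x :: w) p := rfl

theorem lq_mon_nil (x : ℕ) : lq x (mon [] : NC k) = 0 := by
  ext w; rw [cf_lq, cf_mon, map_zero, if_neg (by simp)]

theorem lq_mon_cons (x y : ℕ) (w : List ℕ) :
    lq x (mon (y :: w) : NC k) = if x = y then mon w else 0 := by
  ext v
  rw [cf_lq, cf_mon]
  by_cases h : x = y
  · subst h; simp [cf_mon]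
  · rw [if_neg h, map_zero, if_neg (by simp; intro h'; exact absurd h'.symm h)]

theorem lq_one (x : ℕ) : lq x (1 : NC k) = 0 := by rw [← mon_nil, lq_mon_nil]

theorem lq_mon_mul (x y : ℕ) (p : NC k) : lq x (mon [y] * p) = if x = y then p else 0 := by
  refine mon_induction (P := fun p => lq x (mon [y] * p) = if x = y then p else 0) p
    (by rw [mul_zero, map_zero, ite_self]) (fun p q hp hq => ?_) (fun c w => ?_)
  · rw [mul_add, map_add, hp, hq]; split_ifs <;> simp
  · rw [mul_smul_comm, map_smul, ← mon_cons, lq_mon_cons]; split_ifs <;> simp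

/-- The product rule for left quotients. -/
theorem lq_mul (x : ℕ) (g h : NC k) : lq x (g * h) = lq x g * h + eps g • lq x h := by
  refine mon_induction (P := fun g => lq x (g * h) = lq x g * h + eps g • lq x h) g
    (by rw [zero_mul, map_zero, map_zero, zero_mul, zero_smul, add_zero])
    (fun p q hp hq => ?_) (fun c w => ?_)
  · rw [add_mul, map_add, hp, hq, map_add, map_add, add_mul, add_smul]; abel
  · rw [smul_mul_assoc, map_smul, map_smul, map_smul, smul_mul_assoc, smul_eq_mul, mul_smul,
      ← smul_add]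
    congr 1
    cases w with
    | nil => rw [mon_nil, one_mul, lq_one, eps_one]; simp
    | cons y w =>
      rw [mon_cons, mul_assoc, lq_mon_mul, lq_mon_mul, ← mon_cons, eps_mon,
        if_neg (List.cons_ne_nil _ _), zero_smul, add_zero]
      by_cases hxy : x = y
      · rw [if_pos hxy, if_pos hxy]
      · rw [if_neg hxy, if_neg hxy, zero_mul]

/-- The left quotient by a word (the first letter is divided off first). -/
noncomputable def lqw (u : List ℕ) (p : NC k) : NC k := u.foldl (fun q x => lq x q) p

theorem lqw_nil (p : NC k) : lqw [] p = p := rfl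

theorem lqw_cons (x : ℕ) (u : List ℕ) (p : NC k) : lqw (x :: u) p = lqw u (lq x p) := rfl

theorem lqw_append (u v : List ℕ) (p : NC k) : lqw (u ++ v) p = lqw v (lqw u p) := by
  unfold lqw; rw [List.foldl_append]

theorem lqw_snoc (u : List ℕ) (x : ℕ) (p : NC k) : lqw (u ++ [x]) p = lq x (lqw u p) := by
  rw [lqw_append]; rfl

theorem cf_lqw (u w : List ℕ) (p : NC k) : cf w (lqw u p) = cf (u ++ w) p := by
  induction u generalizing p with
  | nil => rfl
  | cons x u ih => rw [lqw_cons, ih, cf_lq]; rfl

theorem lqw_add (u : List ℕ) (p q : NC k) : lqw u (p + q) = lqw u p + lqw u q :=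
  NC.ext fun w => by rw [map_add, cf_lqw, cf_lqw, cf_lqw, map_add]

theorem lqw_smul (u : List ℕ) (c : k) (p : NC k) : lqw u (c • p) = c • lqw u p :=
  NC.ext fun w => by rw [map_smul, cf_lqw, cf_lqw, map_smul]

/-- Polynomials of degree less than `b`. -/
def Rlt (k : Type*) [Field k] (b : ℕ) : Submodule k (NC k) where
  carrier := {p | ∀ w : List ℕ, b ≤ w.length → cf w p = 0}
  add_mem' := fun hp hq w hw => by rw [map_add, hp w hw, hq w hw, add_zero]
  zero_mem' := fun w _ => map_zero _
  smul_mem' := fun c p hp w hw => by rw [map_smul, hp w hw, smul_zero]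

theorem mem_Rlt {b : ℕ} {p : NC k} : p ∈ Rlt k b ↔ ∀ w : List ℕ, b ≤ w.length → cf w p = 0 :=
  Iff.rfl

/-- The set of words occurring in `p`. -/
def supp (p : NC k) : Set (List ℕ) := {w | cf w p ≠ 0}

theorem supp_finite (p : NC k) : (supp p).Finite := by
  have : supp p ⊆ FreeMonoid.toList '' (p.coeff.support : Set (FreeMonoid ℕ)) := by
    intro w hw
    exact ⟨FreeMonoid.ofList w, by
      rw [Finset.mem_coe, Finsupp.mem_support_iff]; exact hw, rfl⟩
  exact ((Finset.finite_toSet _).image _).subset this

/-- `IsDeg p d`: the longest words of `p` have length `d` (in particular `p ≠ 0`). -/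
def IsDeg (p : NC k) (d : ℕ) : Prop :=
  (∃ w : List ℕ, w.length = d ∧ cf w p ≠ 0) ∧ ∀ w : List ℕ, d < w.length → cf w p = 0

/-- `IsLow p d`: the shortest words of `p` have length `d` (in particular `p ≠ 0`). -/
def IsLow (p : NC k) (d : ℕ) : Prop :=
  (∃ w : List ℕ, w.length = d ∧ cf w p ≠ 0) ∧ ∀ w : List ℕ, w.length < d → cf w p = 0

theorem exists_supp {p : NC k} (hp : p ≠ 0) : ∃ w, cf w p ≠ 0 := by
  by_contra h
  push Not at h
  exact hp (NC.ext fun w => by rw [h w, map_zero])

theorem exists_isDeg {p : NC k} (hp : p ≠ 0) : ∃ d, IsDeg p d := by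
  obtain ⟨w, hw⟩ := exists_supp hp
  obtain ⟨w, hw1, hw2⟩ := (supp_finite p).exists_maximalFor List.length _ ⟨w, hw⟩
  refine ⟨w.length, ⟨w, rfl, hw1⟩, fun v hv => ?_⟩
  by_contra h
  have := hw2 (j := v) h hv.le
  omega

theorem exists_isLow {p : NC k} (hp : p ≠ 0) : ∃ d, IsLow p d := by
  obtain ⟨w, hw⟩ := exists_supp hp
  obtain ⟨w, hw1, hw2⟩ := (supp_finite p).exists_minimalFor List.length _ ⟨w, hw⟩
  refine ⟨w.length, ⟨w, rfl, hw1⟩, fun v hv => ?_⟩
  by_contra h
  have := hw2 (j := v) h hv.le
  omega

theorem IsDeg.ne_zero {p : NC k} {d : ℕ} (h : IsDeg p d) : p ≠ 0 := by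
  rintro rfl; obtain ⟨⟨w, _, hw⟩, _⟩ := h; exact hw (map_zero _)

theorem IsLow.ne_zero {p : NC k} {d : ℕ} (h : IsLow p d) : p ≠ 0 := by
  rintro rfl; obtain ⟨⟨w, _, hw⟩, _⟩ := h; exact hw (map_zero _)

theorem IsDeg.unique {p : NC k} {d e : ℕ} (h : IsDeg p d) (h' : IsDeg p e) : d = e := by
  obtain ⟨⟨w, hw, hw'⟩, h2⟩ := h
  obtain ⟨⟨v, hv, hv'⟩, h2'⟩ := h'
  by_contra hne
  rcases lt_or_gt_of_ne hne with hlt | hlt
  · exact hv' (h2 v (by omega))
  · exact hw' (h2' w (by omega))

theorem IsLow.unique {p : NC k} {d e : ℕ} (h : IsLow p d) (h' : IsLow p e) : d = e := by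
  obtain ⟨⟨w, hw, hw'⟩, h2⟩ := h
  obtain ⟨⟨v, hv, hv'⟩, h2'⟩ := h'
  by_contra hne
  rcases lt_or_gt_of_ne hne with hlt | hlt
  · exact hw' (h2' w (by omega))
  · exact hv' (h2 v (by omega))

theorem IsDeg.mem_Rlt {p : NC k} {d : ℕ} (h : IsDeg p d) : p ∈ Rlt k (d + 1) :=
  fun w hw => h.2 w (by omega)

/-- The coefficient of a word in a product. -/
theorem cf_mul (w : List ℕ) (p q : NC k) :
    cf w (p * q) = ∑ i ∈ Finset.range (w.length + 1), cf (w.take i) p * cf (w.drop i) q := by
  induction w generalizing p with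
  | nil =>
    simp only [List.length_nil, zero_add, Finset.range_one, Finset.sum_singleton, List.take_nil,
      List.drop_nil]
    refine mon_induction (P := fun p => cf [] (p * q) = cf [] p * cf [] q) p
      (by rw [zero_mul, map_zero, zero_mul])
      (fun p p' hp hq => ?_) (fun c w => ?_)
    · rw [add_mul, map_add, hp, hq, map_add, add_mul]
    · rw [smul_mul_assoc, map_smul, map_smul, smul_mul_assoc]
      congr 1
      cases w with
      | nil => rw [mon_nil, one_mul, ← mon_nil, cf_mon]; simp
      | cons y w =>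
        rw [mon_cons, mul_assoc, ← mon_cons, cf_mon, if_neg (by simp), zero_mul]
        refine mon_induction (P := fun r => cf [] (mon [y] * r) = 0) (mon w * q)
          (by rw [mul_zero, map_zero]) (fun p p' hp hq => ?_) (fun c w => ?_)
        · rw [mul_add, map_add, hp, hq, add_zero]
        · rw [mul_smul_comm, map_smul, ← mon_cons, cf_mon, if_neg (by simp), smul_zero]
  | cons x w ih =>
    rw [← cf_lq, lq_mul, map_add, map_smul, ih, List.length_cons, Finset.sum_range_succ' _ (w.length + 1)]
    simp only [List.take_succ_cons, List.drop_succ_cons, cf_lq, List.take_zero, List.drop_zero,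
      smul_eq_mul, eps_def]

theorem eps_mul (p q : NC k) : eps (p * q) = eps p * eps q := by
  rw [eps_def, cf_mul]; simp [eps_def]

theorem IsDeg.mul {p q : NC k} {d e : ℕ} (hp : IsDeg p d) (hq : IsDeg q e) :
    IsDeg (p * q) (d + e) := by
  obtain ⟨⟨u, hu, hu'⟩, hp2⟩ := hp
  obtain ⟨⟨v, hv, hv'⟩, hq2⟩ := hq
  constructor
  · refine ⟨u ++ v, by simp [hu, hv], ?_⟩
    rw [cf_mul, Finset.sum_eq_single u.length]
    · rw [List.take_left, List.drop_left]; exact mul_ne_zero hu' hv'
    · intro i hi hne
      rcases lt_or_gt_of_ne hne with h | h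
      · rw [hq2 _ (by simp; omega), mul_zero]
      · simp only [Finset.mem_range, List.length_append] at hi
        rw [hp2 _ (by rw [List.length_take, List.length_append]; omega), zero_mul]
    · intro h; exact absurd (Finset.mem_range.2 (by rw [List.length_append]; omega)) h
  · intro w hw
    rw [cf_mul]
    refine Finset.sum_eq_zero fun i hi => ?_
    simp only [Finset.mem_range] at hi
    by_cases h : d < i
    · rw [hp2 _ (by rw [List.length_take]; omega), zero_mul]
    · rw [hq2 _ (by rw [List.length_drop]; omega), mul_zero]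

theorem IsLow.mul {p q : NC k} {d e : ℕ} (hp : IsLow p d) (hq : IsLow q e) :
    IsLow (p * q) (d + e) := by
  obtain ⟨⟨u, hu, hu'⟩, hp2⟩ := hp
  obtain ⟨⟨v, hv, hv'⟩, hq2⟩ := hq
  constructor
  · refine ⟨u ++ v, by simp [hu, hv], ?_⟩
    rw [cf_mul, Finset.sum_eq_single u.length]
    · rw [List.take_left, List.drop_left]; exact mul_ne_zero hu' hv'
    · intro i hi hne
      rcases lt_or_gt_of_ne hne with h | h
      · rw [hp2 _ (by rw [List.length_take]; omega), zero_mul]
      · simp only [Finset.mem_range, List.length_append] at hi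
        rw [hq2 _ (by rw [List.length_drop, List.length_append]; omega), mul_zero]
    · intro h; exact absurd (Finset.mem_range.2 (by rw [List.length_append]; omega)) h
  · intro w hw
    rw [cf_mul]
    refine Finset.sum_eq_zero fun i hi => ?_
    simp only [Finset.mem_range] at hi
    by_cases h : i < d
    · rw [hp2 _ (by rw [List.length_take]; omega), zero_mul]
    · rw [hq2 _ (by rw [List.length_drop]; omega), mul_zero]

theorem mul_ne_zero' {p q : NC k} (hp : p ≠ 0) (hq : q ≠ 0) : p * q ≠ 0 := by
  obtain ⟨d, hd⟩ := exists_isDeg hp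
  obtain ⟨e, he⟩ := exists_isDeg hq
  exact (hd.mul he).ne_zero

instance : NoZeroDivisors (NC k) := ⟨fun {a b} h => by
  by_contra h'
  push Not at h'
  exact mul_ne_zero' h'.1 h'.2 h⟩

noncomputable instance : IsDomain (NC k) := NoZeroDivisors.to_isDomain _

theorem isDeg_one : IsDeg (1 : NC k) 0 := by
  refine ⟨⟨[], rfl, ?_⟩, fun w hw => ?_⟩
  · rw [← mon_nil, cf_mon, if_pos rfl]; exact one_ne_zero
  · rw [← mon_nil, cf_mon, if_neg]; rintro rfl; simp at hw

theorem eq_smul_one_of_isDeg {p : NC k} (h : IsDeg p 0) : p = eps p • 1 := by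
  ext w
  rw [map_smul, ← mon_nil, cf_mon]
  by_cases hw : [] = w
  · subst hw; rw [if_pos rfl, smul_eq_mul, mul_one]; rfl
  · rw [if_neg hw, smul_zero]
    exact h.2 w (by cases w <;> simp_all)

/-- The units are the nonzero constants. -/
theorem isUnit_iff {p : NC k} : IsUnit p ↔ IsDeg p 0 := by
  constructor
  · rintro ⟨u, rfl⟩
    obtain ⟨d, hd⟩ := exists_isDeg u.ne_zero
    obtain ⟨e, he⟩ := exists_isDeg (u⁻¹).ne_zero
    have h1 := hd.mul he
    rw [Units.mul_inv] at h1
    have h2 := h1.unique isDeg_one
    have : d = 0 := by omega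
    rwa [this] at hd
  · intro h
    have h1 := eq_smul_one_of_isDeg h
    have h2 : eps p ≠ 0 := by
      intro h0; rw [h0, zero_smul] at h1; exact h.ne_zero h1
    rw [h1]
    exact ⟨⟨eps p • 1, (eps p)⁻¹ • 1, by simp [smul_smul, h2], by simp [smul_smul, h2]⟩, rfl⟩

/-- An element without constant term all of whose left quotients lie in a left ideal lies in it. -/
theorem mem_of_lq {I : Submodule (NC k) (NC k)} {p : NC k} (h0 : eps p = 0)
    (h : ∀ x, lq x p ∈ I) : p ∈ I := by
  classical
  -- a finite set of letters containing all first letters of words of `p`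
  obtain ⟨s, hs⟩ : ∃ s : Finset ℕ, ∀ x w, cf (x :: w) p ≠ 0 → x ∈ s := by
    refine ⟨((supp_finite p).toFinset.image fun w => w.headD 0), fun x w hw => ?_⟩
    simp only [Finset.mem_image, Set.Finite.mem_toFinset]
    exact ⟨x :: w, hw, rfl⟩
  have key : p = ∑ x ∈ s, mon [x] * lq x p := by
    ext w
    rw [map_sum]
    cases w with
    | nil =>
      rw [← eps_def, h0]
      symm
      refine Finset.sum_eq_zero fun x _ => ?_
      rw [← eps_def, eps_mul, eps_mon, if_neg (by simp), zero_mul]
    | cons y w =>
      have : ∀ x ∈ s, cf (y :: w) (mon [x] * lq x p) = if y = x then cf (y :: w) p else 0 := by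
        intro x _
        rw [← cf_lq, lq_mon_mul]
        split_ifs with hxy
        · subst hxy; rw [cf_lq]
        · rw [map_zero]
      rw [Finset.sum_congr rfl this, Finset.sum_ite_eq]
      split_ifs with hy
      · rfl
      · by_contra hne; exact hy (hs y w hne)
  rw [key]
  exact Submodule.sum_mem _ fun x _ => Submodule.smul_mem I (mon [x]) (h x)

/-- The left ideal generated by `h`. -/
noncomputable def LI (h : NC k) : Submodule (NC k) (NC k) := Submodule.span (NC k) {h}

theorem mem_LI {p h : NC k} : p ∈ LI h ↔ ∃ q, p = q * h := by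
  unfold LI
  rw [Submodule.mem_span_singleton]
  exact ⟨fun ⟨q, hq⟩ => ⟨q, hq.symm⟩, fun ⟨q, hq⟩ => ⟨q, hq.symm⟩⟩

end Pool.Agent.H420_NCF
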