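import Pool.Agent.H420_NCF.Spec

/-!
# Module Div: exact right division
-/

namespace Pool.Agent.H420_NCF

open Pool.Agent.NPC Pool.Agent.NPC.H532 Pool.Agent.H687R2.LLL
open scoped Matrix

namespace Div

/-- The product of a word and a polynomial. -/
def shift (w : List ℕ) (h : IP) : IP := h.map fun t => (w ++ t.1, t.2)

theorem pol_shift (w : List ℕ) (h : IP) : pol (shift w h) = mon w * pol h := by
  induction h with
  | nil => simp [shift, pol]
  | cons t h ih =>
    unfold pol shift at *
    rw [List.map_cons, List.map_cons, List.sum_cons, ih, List.map_cons, List.sum_cons, mul_add,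
      mul_smul_comm, ← mon_append]

/-- All beginnings of words. -/
def pr (f : IP) : List (List ℕ) := (ws (f.map fun t => (t.1.reverse, t.2))).map List.reverse

theorem mem_ws (f : IP) (w : List ℕ) : w ∈ ws f ↔ ∃ t ∈ f, w <:+ t.1 := by
  unfold ws
  rw [List.mem_dedup, List.mem_flatMap]
  simp only [List.mem_tails]

theorem mem_pr (f : IP) (a : List ℕ) : a ∈ pr f ↔ ∃ t ∈ f, a <+: t.1 := by
  unfold pr
  rw [List.mem_map]
  constructor
  · rintro ⟨b, hb, rfl⟩
    rw [mem_ws] at hb
    obtain ⟨t, ht, hbt⟩ := hb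
    rw [List.mem_map] at ht
    obtain ⟨t', ht', rfl⟩ := ht
    refine ⟨t', ht', ?_⟩
    rw [← List.reverse_suffix, List.reverse_reverse]
    exact hbt
  · rintro ⟨t, ht, hat⟩
    refine ⟨a.reverse, ?_, List.reverse_reverse a⟩
    rw [mem_ws]
    refine ⟨(t.1.reverse, t.2), ?_, ?_⟩
    · rw [List.mem_map]; exact ⟨t, ht, rfl⟩
    · simpa using hat

/-- All words needed. -/
def wd (f h : IP) : List (List ℕ) := ws (f ++ (pr f).flatMap fun w => shift w h)

/-- The coordinates of the polynomial and of the multiples of the factor. -/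
def rows (f h : IP) : List (List ℤ) :=
  vecOf (wd f h) f :: (pr f).map fun w => vecOf (wd f h) (shift w h)

/-- The first vector with nonzero first coordinate. -/
def pick (U : List (List ℤ)) : List ℤ := (U.filter fun u => !decide (ent u 0 = 0)).getD 0 []

/-- The quotient. -/
def out (kq : List (List ℤ) → List (List ℤ)) (p : IP × IP) : IP :=
  toIP (pr p.1) ((pick (kq (rows p.1 p.2))).tail.map fun z => -z)

theorem out_poly (hv : VTS) {kq : List (List ℤ) → List (List ℤ)} (hk : NPC.Poly kq) :
    NPC.Poly (out kq) := by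
  obtain ⟨pws, plets, -, pvec, ptoIP, ptm, -⟩ := hv
  have ppr : NPC.Poly pr := by
    have h1 : NPC.Poly (fun f : IP => f.map fun t => (t.1.reverse, t.2)) :=
      NPC.Poly.map (F := fun (_ : IP) (t : List ℕ × ℤ) => (t.1.reverse, t.2)) NPC.Poly.id
        (NPC.Poly.pair (NPC.Poly.reverse (NPC.Poly.fst (NPC.Poly.snd NPC.Poly.id)))
          (NPC.Poly.snd (NPC.Poly.snd NPC.Poly.id)))
    have h2 := NPC.Poly.comp pws h1
    exact NPC.Poly.map (F := fun _ w => List.reverse w) h2
      (NPC.Poly.reverse (NPC.Poly.snd NPC.Poly.id))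
  have pshift : NPC.Poly (fun p : List ℕ × IP => shift p.1 p.2) := by
    unfold shift
    exact NPC.Poly.map (F := fun (p : List ℕ × IP) t => (p.1 ++ t.1, t.2))
      (NPC.Poly.snd NPC.Poly.id)
      (NPC.Poly.pair (NPC.Poly.append (NPC.Poly.fst (NPC.Poly.fst NPC.Poly.id))
        (NPC.Poly.fst (NPC.Poly.snd NPC.Poly.id))) (NPC.Poly.snd (NPC.Poly.snd NPC.Poly.id)))
  have ppr1 : NPC.Poly (fun p : IP × IP => pr p.1) := NPC.Poly.comp ppr (NPC.Poly.fst NPC.Poly.id)
  have psh : NPC.Poly (fun x : (IP × IP) × List ℕ => shift x.2 x.1.2) := by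
    have h1 : NPC.Poly (fun x : (IP × IP) × List ℕ => (x.2, x.1.2)) :=
      NPC.Poly.pair (NPC.Poly.snd NPC.Poly.id) (NPC.Poly.snd (NPC.Poly.fst NPC.Poly.id))
    have h2 := NPC.Poly.comp pshift h1
    exact h2
  have pwd : NPC.Poly (fun p : IP × IP => wd p.1 p.2) := by
    have h1 : NPC.Poly (fun p : IP × IP => p.1 ++ (pr p.1).flatMap fun w => shift w p.2) :=
      NPC.Poly.append (NPC.Poly.fst NPC.Poly.id)
        (NPC.Poly.flatMap (F := fun (p : IP × IP) w => shift w p.2) ppr1 psh)
    have h2 := NPC.Poly.comp pws h1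
    exact h2
  have prows : NPC.Poly (fun p : IP × IP => rows p.1 p.2) := by
    unfold rows
    refine NPC.Poly.cons ?_ ?_
    · have h1 : NPC.Poly (fun p : IP × IP => (wd p.1 p.2, p.1)) :=
        NPC.Poly.pair pwd (NPC.Poly.fst NPC.Poly.id)
      have h2 := NPC.Poly.comp pvec h1
      exact h2
    · refine NPC.Poly.map (F := fun (p : IP × IP) w => vecOf (wd p.1 p.2) (shift w p.2)) ppr1 ?_
      have h1 : NPC.Poly (fun x : (IP × IP) × List ℕ => (wd x.1.1 x.1.2, shift x.2 x.1.2)) :=
        NPC.Poly.pair (NPC.Poly.comp (g := fun p : IP × IP => wd p.1 p.2) pwd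
          (NPC.Poly.fst NPC.Poly.id)) psh
      have h2 := NPC.Poly.comp pvec h1
      exact h2
  have ppick : NPC.Poly pick := by
    unfold pick
    refine NPC.Poly.getD ?_ (NPC.Poly.const _) (NPC.Poly.const _)
    refine NPC.Poly.filter (p := fun _ u => !decide (ent u 0 = 0)) NPC.Poly.id ?_
    refine NPC.Poly.not (NPC.Poly.decide_eq ?_ (NPC.Poly.const _))
    exact NPC.Poly.getD (NPC.Poly.snd NPC.Poly.id) (NPC.Poly.const _) (NPC.Poly.const _)
  have h3 : NPC.Poly (fun p : IP × IP => (pick (kq (rows p.1 p.2))).tail.map fun z => -z) := by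
    refine NPC.Poly.map (F := fun _ z => -z) (NPC.Poly.tail ?_) ?_
    · exact NPC.Poly.comp ppick (NPC.Poly.comp hk prows)
    · exact Poly_neg (NPC.Poly.snd NPC.Poly.id)
  have h4 := NPC.Poly.comp ptoIP (NPC.Poly.pair ppr1 h3)
  exact h4

theorem word_of_cof {f : IP} {w : List ℕ} (h : cof f w ≠ 0) : ∃ t ∈ f, t.1 = w := by
  by_contra hne
  push Not at hne
  apply h
  unfold cof
  rw [List.filter_eq_nil_iff.2 (by
    intro t ht
    simpa using hne t ht)]
  rfl

/-- The words of a left factor are beginnings of words of the product. -/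
theorem prefix_word {F q H : NC ℚ} (hF : F = q * H) (hF0 : F ≠ 0) {a : List ℕ}
    (ha : cf a q ≠ 0) : ∃ w, cf w F ≠ 0 ∧ a <+: w := by
  have hH : H ≠ 0 := by
    rintro rfl
    rw [mul_zero] at hF
    exact hF0 hF
  obtain ⟨d, ⟨v, hvd, hv⟩, hd⟩ := exists_isDeg hH
  have hfin : ({b | b ∈ supp q ∧ a <+: b} : Set (List ℕ)).Finite :=
    (supp_finite q).subset fun b hb => hb.1
  obtain ⟨b, ⟨hb1, hb2⟩, hb3⟩ := hfin.exists_maximalFor List.length _ ⟨a, ha, List.prefix_refl a⟩
  refine ⟨b ++ v, ?_, hb2.trans (List.prefix_append b v)⟩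
  rw [hF, cf_mul, Finset.sum_eq_single b.length]
  · rw [List.take_left, List.drop_left]
    exact mul_ne_zero hb1 hv
  · intro i hi hne
    rw [Finset.mem_range, List.length_append] at hi
    rcases lt_or_gt_of_ne hne with h | h
    · rw [hd _ (by rw [List.length_drop, List.length_append]; omega), mul_zero]
    · by_contra hcon
      have h1 : cf ((b ++ v).take i) q ≠ 0 := fun h0 => hcon (by rw [h0, zero_mul])
      have hbp : b <+: (b ++ v).take i := by
        rw [List.prefix_take_iff]
        exact ⟨List.prefix_append b v, h.le⟩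
      have h2 := hb3 (j := (b ++ v).take i) ⟨h1, hb2.trans hbp⟩ hbp.length_le
      rw [List.length_take, List.length_append] at h2
      omega
  · intro h
    exact absurd (Finset.mem_range.2 (by rw [List.length_append]; omega)) h

theorem phi_apply (l : List (List ℕ)) (c : ℕ → ℚ) :
    phi l (fun i => c i) = ∑ i ∈ Finset.range l.length, c i • (mon (l.getD i []) : NC ℚ) := by
  unfold phi
  rw [Fintype.linearCombination_apply,
    ← Fin.sum_univ_eq_sum_range (fun i => c i • (mon (l.getD i []) : NC ℚ)) l.length]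

/-- The image of a combination of the rows. -/
theorem phi_rows (hv : VTS) (f h : IP) (c : ℕ → ℚ) :
    phi (wd f h) (∑ i ∈ Finset.range (rows f h).length,
      c i • vq (wd f h).length ((rows f h).getD i [])) =
    c 0 • pol f + phi (pr f) (fun i => c (i + 1)) * pol h := by
  obtain ⟨-, -, -, -, -, -, hcof, hnd, hnil, hcw, hcl, hinj, hran, htoip, hvec, htm⟩ := hv
  have hlen : (rows f h).length = (pr f).length + 1 := by simp [rows]
  have e0 : phi (wd f h) (vq (wd f h).length (vecOf (wd f h) f)) = pol f := by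
    refine hvec _ _ (hnd _) fun w hw => ?_
    obtain ⟨t, ht, rfl⟩ := word_of_cof hw
    unfold wd
    rw [mem_ws]
    exact ⟨t, List.mem_append_left _ ht, List.suffix_rfl⟩
  have e1 : ∀ w ∈ pr f, phi (wd f h) (vq (wd f h).length (vecOf (wd f h) (shift w h))) =
      mon w * pol h := by
    intro w hw
    rw [← pol_shift]
    refine hvec _ _ (hnd _) fun y hy => ?_
    obtain ⟨t, ht, rfl⟩ := word_of_cof hy
    unfold wd
    rw [mem_ws]
    refine ⟨t, List.mem_append_right _ ?_, List.suffix_rfl⟩
    rw [List.mem_flatMap]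
    exact ⟨w, hw, ht⟩
  rw [hlen, Finset.sum_range_succ', map_add, map_smul, map_sum, phi_apply (pr f) fun i => c (i + 1),
    Finset.sum_mul, add_comm]
  congr 1
  · congr 1
  · refine Finset.sum_congr rfl fun i hi => ?_
    rw [Finset.mem_range] at hi
    rw [map_smul, smul_mul_assoc]
    congr 1
    have h1 : (rows f h).getD (i + 1) [] = vecOf (wd f h) (shift ((pr f).getD i []) h) := by
      unfold rows
      rw [List.getD_cons_succ, List.getD_eq_getElem _ _ (by simpa using hi), List.getElem_map,
        List.getD_eq_getElem _ _ hi]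
    rw [h1]
    refine e1 _ ?_
    rw [List.getD_eq_getElem _ _ hi]
    exact List.getElem_mem hi

theorem rows_length (f h : IP) : ∀ r ∈ rows f h, r.length = (wd f h).length := by
  intro r hr
  unfold rows at hr
  rcases List.mem_cons.1 hr with rfl | hr
  · simp [vecOf]
  · rw [List.mem_map] at hr
    obtain ⟨w, _, rfl⟩ := hr
    simp [vecOf]

end Div

open Pool.Agent.H420_NCF.Div in
theorem div_ (hv : VTS) (hk : K2S) : DivS := by
  obtain ⟨kq, hkq, hkq2⟩ := hk
  refine ⟨out kq, out_poly hv hkq, fun f h q hf0 hfq => ?_⟩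
  have hv' := hv
  obtain ⟨-, -, -, -, -, -, hcof, hnd, hnil, hcw, hcl, hinj, hran, htoip, hvec, htm⟩ := hv'
  have hh0 : pol h ≠ 0 := by
    intro h0
    rw [h0, mul_zero] at hfq
    exact hf0 hfq
  have hprnd : (pr f).Nodup := (hnd _).map List.reverse_injective
  -- the coordinates of the quotient
  have hqr : q ∈ LinearMap.range (phi (pr f)) := by
    rw [hran _ _ hprnd]
    intro a ha
    obtain ⟨w, hw, haw⟩ := prefix_word hfq hf0 ha
    rw [hcof] at hw
    obtain ⟨t, ht, rfl⟩ := word_of_cof (f := f) (w := w) (by exact_mod_cast hw)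
    rw [mem_pr]
    exact ⟨t, ht, haw⟩
  obtain ⟨c', hc'⟩ := hqr
  obtain ⟨h1, h2⟩ := hkq2 (rows f h) (wd f h).length (rows_length f h)
  have hlen : (rows f h).length = (pr f).length + 1 := by simp [rows]
  set C : ℕ → ℚ := fun i => if i = 0 then 1 else
    if h' : i - 1 < (pr f).length then -c' ⟨i - 1, h'⟩ else 0 with hC
  have hsum : ∀ c : ℕ → ℚ, ∑ i : Fin (rows f h).length,
      c i • vq (wd f h).length ((rows f h).getD i []) = ∑ i ∈ Finset.range (rows f h).length,
      c i • vq (wd f h).length ((rows f h).getD i []) := fun c =>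
    Fin.sum_univ_eq_sum_range (fun i => c i • vq (wd f h).length ((rows f h).getD i []))
      (rows f h).length
  have hCrel : ∑ i : Fin (rows f h).length,
      C i • vq (wd f h).length ((rows f h).getD i []) = 0 := by
    rw [hsum]
    have hndw : (wd f h).Nodup := hnd _
    refine hinj (wd f h) hndw ?_
    rw [phi_rows hv, map_zero]
    have e1 : (fun i : Fin (pr f).length => C (i + 1)) = -c' := by
      funext i
      rw [hC]
      simp
    rw [e1, map_neg, hc', hC]
    simp only [if_true, one_smul]
    rw [hfq]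
    simp
  have hmem := h2 (fun i => C i) hCrel
  -- a relation with nonzero first entry
  have hex : ∃ u ∈ kq (rows f h), ent u 0 ≠ 0 := by
    by_contra hne
    push Not at hne
    have h3 : ∀ c ∈ vspan (rows f h).length (kq (rows f h)),
        c ⟨0, by rw [hlen]; omega⟩ = 0 := by
      intro c hc
      unfold vspan at hc
      induction hc using Submodule.span_induction with
      | mem x hx =>
        obtain ⟨u, hu, rfl⟩ := hx
        have := hne u hu
        unfold ent at this
        simp only [vq, this]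
        simp
      | zero => rfl
      | add x y _ _ hx hy => rw [Pi.add_apply, hx, hy, add_zero]
      | smul r x _ hx => rw [Pi.smul_apply, hx, smul_zero]
    have h4 := h3 _ hmem
    rw [hC] at h4
    simp at h4
  have hpick : pick (kq (rows f h)) ∈ kq (rows f h) ∧ ent (pick (kq (rows f h))) 0 ≠ 0 := by
    obtain ⟨u, hu, hu0⟩ := hex
    have h5 : u ∈ (kq (rows f h)).filter fun u => !decide (ent u 0 = 0) := by
      rw [List.mem_filter]
      exact ⟨hu, by simpa using hu0⟩
    have h6 := List.length_pos_of_mem h5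
    have h7 : pick (kq (rows f h)) ∈ (kq (rows f h)).filter fun u => !decide (ent u 0 = 0) := by
      unfold pick
      rw [List.getD_eq_getElem _ _ h6]
      exact List.getElem_mem h6
    rw [List.mem_filter] at h7
    exact ⟨h7.1, by simpa using h7.2⟩
  obtain ⟨hpm, hp0⟩ := hpick
  set u := pick (kq (rows f h)) with hu
  obtain ⟨hul, huf⟩ := h1 u hpm
  refine ⟨(ent u 0 : ℚ), by exact_mod_cast hp0, ?_⟩
  -- the relation
  have hrel : ∑ i ∈ Finset.range (rows f h).length,
      (ent u i : ℚ) • vq (wd f h).length ((rows f h).getD i []) = 0 := by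
    funext j
    have := huf j
    unfold form at this
    rw [Finset.sum_apply, Pi.zero_apply]
    simp only [Pi.smul_apply, vq, smul_eq_mul]
    exact_mod_cast this
  have hrel2 := congrArg (phi (wd f h)) hrel
  rw [phi_rows hv (c := fun i => (ent u i : ℚ)), map_zero, hfq, ← smul_mul_assoc, ← add_mul] at hrel2
  have hrel3 := (mul_eq_zero.1 hrel2).resolve_right hh0
  have hul' : u.length = (pr f).length + 1 := by rw [hul, hlen]
  have hout : pol (out kq (f, h)) = - phi (pr f) (fun i => (ent u (i + 1) : ℚ)) := by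
    unfold out
    simp only
    rw [htoip _ _ (by simp [← hu, hul']), ← map_neg]
    congr 1
    funext i
    simp only [vq, Pi.neg_apply, ← hu]
    obtain ⟨a, v, hav⟩ : ∃ a v, u = a :: v := by
      cases hcu : u with
      | nil => rw [hcu] at hul'; simp at hul'
      | cons a v => exact ⟨a, v, rfl⟩
    rw [hav]
    rw [hav] at hul'
    simp only [List.length_cons, Nat.add_right_cancel_iff] at hul'
    unfold ent
    rw [List.tail_cons, List.getD_cons_succ, List.getD_eq_getElem _ _ (by
      rw [List.length_map, hul']; exact i.2), List.getElem_map,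
      List.getD_eq_getElem _ _ (by rw [hul']; exact i.2)]
    push_cast
    rfl
  rw [hout]
  exact (eq_neg_of_add_eq_zero_left hrel3).symm

end Pool.Agent.H420_NCF
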