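import Pool.Agent.H420_NCF.Spec

/-!
# Module E1: splitting a reduced commutative algebra over the rationals in polynomial time
-/

namespace Pool.Agent.H420_NCF

open Pool.Agent.NPC Pool.Agent.NPC.H532 Pool.Agent.H687R2.LLL
open scoped Matrix

namespace E1

/-- The bits of all entries. -/
def bitsAll (γ : List (List (List ℤ))) : List Bool :=
  γ.flatMap fun M => M.flatMap fun r => r.flatMap fun z => z.natAbs.bits

/-- A unary bound for the number of matrices and the bit lengths of the entries. -/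
def NN (γ : List (List (List ℤ))) : ℕ := (bitsAll γ).length + γ.length

theorem UPoly_NN : UPoly NN := by
  refine UPoly.add (UPoly.length ?_) (UPoly.length Poly.id)
  refine Poly.flatMap (α := List (List (List ℤ))) (β := List (List ℤ)) (γ := Bool)
    (F := fun _ M => M.flatMap fun r => r.flatMap fun z => z.natAbs.bits) Poly.id ?_
  refine Poly.flatMap (α := List (List (List ℤ)) × List (List ℤ)) (β := List ℤ) (γ := Bool)
    (F := fun _ r => r.flatMap fun z => z.natAbs.bits) (Poly.snd Poly.id) ?_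
  refine Poly.flatMap (α := (List (List (List ℤ)) × List (List ℤ)) × List ℤ) (β := ℤ) (γ := Bool)
    (F := fun _ z => z.natAbs.bits) (Poly.snd Poly.id) ?_
  exact Poly.natBits (Poly_natAbs (Poly.snd Poly.id))

theorem length_le_NN (γ : List (List (List ℤ))) : γ.length ≤ NN γ := by unfold NN; omega

theorem length_flatMap_ge {α β : Type} {l : List α} {f : α → List β} {a : α} (h : a ∈ l) :
    (f a).length ≤ (l.flatMap f).length := by
  induction l with
  | nil => simp at h
  | cons b l ih =>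
    rw [List.flatMap_cons, List.length_append]
    rcases List.mem_cons.1 h with rfl | h
    · omega
    · have := ih h
      omega

theorem gm_lt (γ : List (List (List ℤ))) (i j l : ℕ) : |gm γ i j l| < 2 ^ NN γ := by
  unfold gm entry
  have h0 : |(0 : ℤ)| < 2 ^ NN γ := by rw [abs_zero]; positivity
  by_cases hi : i < γ.length
  · rw [List.getD_eq_getElem γ _ hi]
    by_cases hj : j < (γ[i]).length
    · rw [List.getD_eq_getElem (γ[i]) _ hj]
      by_cases hl : l < (γ[i][j]).length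
      · rw [List.getD_eq_getElem (γ[i][j]) _ hl]
        set z := γ[i][j][l] with hz
        have h1 : (z.natAbs.bits).length ≤ (bitsAll γ).length := by
          refine le_trans ?_ (length_flatMap_ge (List.getElem_mem hi))
          refine le_trans ?_ (length_flatMap_ge (List.getElem_mem hj))
          exact length_flatMap_ge (f := fun z : ℤ => z.natAbs.bits) (List.getElem_mem hl)
        have h2 : z.natAbs < 2 ^ NN γ := by
          have h3 := Nat.lt_size_self z.natAbs
          rw [Nat.size_eq_bits_len] at h1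
          exact lt_of_lt_of_le h3 (Nat.pow_le_pow_right (by norm_num) (by unfold NN; omega))
        rw [Int.abs_eq_natAbs]
        exact_mod_cast h2
      · rw [List.getD_eq_default _ _ (not_lt.1 hl)]; exact h0
    · rw [List.getD_eq_default (γ[i]) _ (not_lt.1 hj)]; simp
  · rw [List.getD_eq_default γ _ (not_lt.1 hi)]; simp

/-- A list of units of length `k`, if `k` is at most the bound. -/
def ul (qB : Polynomial ℕ) (γ : List (List (List ℤ))) (k : ℕ) : List Unit :=
  (RP.un (qB.eval (NN γ) + 1) k).map fun _ => ()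

theorem ul_eq (qB : Polynomial ℕ) (γ : List (List (List ℤ))) (k : ℕ)
    (hk : k ≤ qB.eval (NN γ) + 1) : ul qB γ k = List.replicate k () := by
  unfold ul
  rw [List.map_const', RP.un_length hk]

theorem Poly_ul (qB : Polynomial ℕ) :
    Poly (fun p : List (List (List ℤ)) × ℕ => ul qB p.1 p.2) := by
  unfold ul
  refine NPC.Poly.map (α := List (List (List ℤ)) × ℕ) (β := ℕ) (γ := Unit) (F := fun _ _ => ()) ?_
    (NPC.Poly.const ())
  exact RP.Poly_un (m := fun p : List (List (List ℤ)) × ℕ => qB.eval (NN p.1) + 1)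
    (UPoly.add (UPoly.eval (UPoly_NN.comp (Poly.fst Poly.id)) qB) (UPoly.const 1))
    (Poly.snd Poly.id)

/-- The test for the prime. -/
def goodp (t : List (List (List ℤ)) × List Unit → Bool) (qB : Polynomial ℕ)
    (γ : List (List (List ℤ))) (k : ℕ) : Bool :=
  (decide (2 ≤ k) && ((List.range (qB.eval (NN γ) + 1)).all fun d =>
    !((decide (2 ≤ d) && decide (d < k)) && decide (k % d = 0)))) && t (γ, ul qB γ k)

theorem Poly_goodp {t : List (List (List ℤ)) × List Unit → Bool} (ht : Poly t)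
    (qB : Polynomial ℕ) : Poly (fun p : List (List (List ℤ)) × ℕ => goodp t qB p.1 p.2) := by
  unfold goodp
  refine Poly.and (Poly.and (Poly.decide_le (NPC.Poly.const 2) (Poly.snd Poly.id)) ?_)
    (ht.comp (Poly.pair (Poly.fst Poly.id) (Poly_ul qB)))
  refine Poly.all (α := List (List (List ℤ)) × ℕ) (β := ℕ) (p := fun p d =>
    !((decide (2 ≤ d) && decide (d < p.2)) && decide (p.2 % d = 0))) ?_ ?_
  · exact (UPoly.add (UPoly.eval (UPoly_NN.comp (Poly.fst Poly.id)) qB) (UPoly.const 1)).range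
  · have h1 : Poly (fun x : (List (List (List ℤ)) × ℕ) × ℕ => x.2) := Poly.snd Poly.id
    have h2 : Poly (fun x : (List (List (List ℤ)) × ℕ) × ℕ => x.1.2) :=
      Poly.snd (Poly.fst Poly.id)
    exact Poly.not (Poly.and (Poly.and (Poly.decide_le (NPC.Poly.const 2) h1) (Poly.decide_lt h1 h2))
      (Poly.decide_eq (Poly.mod h2 h1) (NPC.Poly.const 0)))

theorem goodp_iff (t : List (List (List ℤ)) × List Unit → Bool) (qB : Polynomial ℕ)
    (γ : List (List (List ℤ))) (k : ℕ) (hk : k ≤ qB.eval (NN γ)) :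
    goodp t qB γ k = true ↔ k.Prime ∧ t (γ, List.replicate k ()) = true := by
  unfold goodp
  rw [ul_eq _ _ _ (by omega)]
  simp only [Bool.and_eq_true, decide_eq_true_eq, List.all_eq_true, List.mem_range,
    Bool.not_eq_true', Bool.and_eq_false_imp, decide_eq_false_iff_not, and_imp]
  refine and_congr_left fun _ => ?_
  rw [Nat.prime_def_lt']
  constructor
  · rintro ⟨h1, h2⟩
    exact ⟨h1, fun m hm hm' hd => h2 m (by omega) hm hm' (Nat.mod_eq_zero_of_dvd hd)⟩
  · rintro ⟨h1, h2⟩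
    exact ⟨h1, fun d _ h3 h4 h5 => h2 d h3 h4 (Nat.dvd_of_mod_eq_zero h5)⟩

/-- The prime. -/
def pp (t : List (List (List ℤ)) × List Unit → Bool) (qB : Polynomial ℕ)
    (γ : List (List (List ℤ))) : ℕ :=
  ((List.range (qB.eval (NN γ) + 1)).filter (goodp t qB γ)).head?.getD 0

theorem Poly_pp {t : List (List (List ℤ)) × List Unit → Bool} (ht : Poly t)
    (qB : Polynomial ℕ) : Poly (pp t qB) := by
  unfold pp
  refine Poly.head?_getD ?_ 0
  exact Poly.filter (p := fun γ k => goodp t qB γ k)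
    (UPoly.add (UPoly.eval UPoly_NN qB) (UPoly.const 1)).range (Poly_goodp ht qB)

theorem pp_spec {t : List (List (List ℤ)) × List Unit → Bool} {qB : Polynomial ℕ}
    {γ : List (List (List ℤ))} (h : ∃ k, k ≤ qB.eval (NN γ) ∧ k.Prime ∧
      t (γ, List.replicate k ()) = true) :
    pp t qB γ ≤ qB.eval (NN γ) ∧ (pp t qB γ).Prime ∧
      t (γ, List.replicate (pp t qB γ) ()) = true := by
  obtain ⟨k, hk, hk'⟩ := h
  have h1 : k ∈ (List.range (qB.eval (NN γ) + 1)).filter (goodp t qB γ) := by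
    rw [List.mem_filter, List.mem_range, goodp_iff _ _ _ _ hk]
    exact ⟨by omega, hk'⟩
  have h2 : pp t qB γ ∈ (List.range (qB.eval (NN γ) + 1)).filter (goodp t qB γ) := by
    unfold pp
    cases h3 : (List.range (qB.eval (NN γ) + 1)).filter (goodp t qB γ) with
    | nil => rw [h3] at h1; simp at h1
    | cons a l => simp
  rw [List.mem_filter, List.mem_range] at h2
  have h3 : pp t qB γ ≤ qB.eval (NN γ) := by omega
  exact ⟨h3, (goodp_iff _ _ _ _ h3).1 h2.2⟩

/-- Unit vectors. -/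
def uv (r i : ℕ) (c : ℤ) : List ℤ := (List.range r).map fun j => if j = i then c else 0

theorem uv_length (r i : ℕ) (c : ℤ) : (uv r i c).length = r := by simp [uv]

theorem uv_getD {r i j : ℕ} (c : ℤ) (hj : j < r) : (uv r i c).getD j 0 = if j = i then c else 0 := by
  unfold uv
  rw [List.getD_eq_getElem _ _ (by simpa using hj)]
  simp

/-- The lattice: rows. -/
def rows (γ : List (List (List ℤ))) (q : ℕ) (e : List ℤ) : List (List ℤ) :=
  ((List.range γ.length).map fun i => mulq γ q e (uv γ.length i 1)) ++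
    (List.range γ.length).map fun i => uv γ.length i (q : ℤ)


theorem mulq_length (γ : List (List (List ℤ))) (q : ℕ) (u v : List ℤ) :
    (mulq γ q u v).length = γ.length := by simp [mulq]

theorem rows_length (γ : List (List (List ℤ))) (q : ℕ) (e : List ℤ) :
    (rows γ q e).length = γ.length + γ.length := by simp [rows]

theorem rows_mem_length {γ : List (List (List ℤ))} {q : ℕ} {e : List ℤ} :
    ∀ v ∈ rows γ q e, v.length = γ.length := by
  intro v hv
  unfold rows at hv
  rw [List.mem_append, List.mem_map, List.mem_map] at hv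
  rcases hv with ⟨i, _, rfl⟩ | ⟨i, _, rfl⟩
  · exact mulq_length _ _ _ _
  · exact uv_length _ _ _

theorem rows_lt {γ : List (List (List ℤ))} {q : ℕ} {e : List ℤ} {i : ℕ} (hi : i < γ.length) :
    (rows γ q e).getD i [] = mulq γ q e (uv γ.length i 1) := by
  unfold rows
  rw [List.getD_append _ _ _ _ (by simpa using hi), List.getD_eq_getElem _ _ (by simpa using hi)]
  simp

theorem rows_ge {γ : List (List (List ℤ))} {q : ℕ} {e : List ℤ} {i : ℕ} (hi : i < γ.length) :
    (rows γ q e).getD (γ.length + i) [] = uv γ.length i (q : ℤ) := by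
  unfold rows
  rw [List.getD_append_right _ _ _ _ (by simp), List.getD_eq_getElem _ _ (by simpa using hi)]
  simp

/-- The iterated lifting of an idempotent. -/
def lift (γ : List (List (List ℤ))) (q : ℕ) (e : List ℤ) (K : ℕ) : List ℤ :=
  (List.range K).foldl (fun e _ => newq γ q e) e

/-- One ideal. -/
def ideal (ker : List (List ℤ) × ℕ → List (List ℤ)) (γ : List (List (List ℤ))) (q : ℕ)
    (e : List ℤ) (β : ℕ) : List (List ℤ) :=
  (ker (rows γ q e, β)).map fun u => u.take γ.length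

section Algo

variable (t : List (List (List ℤ)) × List Unit → Bool)
  (F : List (List (List ℤ)) × List Unit → List (List ℤ))
  (ker : List (List ℤ) × ℕ → List (List ℤ)) (qB qK qβ : Polynomial ℕ)

/-- The modulus. -/
def qq (γ : List (List (List ℤ))) : ℕ := pp t qB γ ^ (qK.eval (NN γ) + 1)

/-- The list of idempotents modulo the prime. -/
def es (γ : List (List (List ℤ))) : List (List ℤ) := F (γ, ul qB γ (pp t qB γ))

/-- The algorithm. -/
def sp (γ : List (List (List ℤ))) : List (List (List ℤ)) :=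
  (es t F qB γ).map fun e => ideal ker γ (qq t qB qK γ)
    (lift γ (qq t qB qK γ) e (qK.eval (NN γ) + 1)) (2 ^ qβ.eval (NN γ))

variable {t F ker}

theorem Poly_qq (ht : Poly t) : Poly (qq t qB qK) :=
  NPC.Poly.npow (Poly_pp ht qB) (UPoly.add (UPoly.eval UPoly_NN qK) (UPoly.const 1))

theorem Poly_es (ht : Poly t) (hF : Poly F) : Poly (es t F qB) :=
  hF.comp (NPC.Poly.pair NPC.Poly.id ((Poly_ul qB).comp
    (NPC.Poly.pair NPC.Poly.id (Poly_pp ht qB))))

theorem Poly_uv {α : Type} [TEnc α] {r i : α → ℕ} {c : α → ℤ} (hr : UPoly r) (hi : Poly i)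
    (hc : Poly c) : Poly (fun a => uv (r a) (i a) (c a)) := by
  unfold uv
  refine NPC.Poly.map (α := α) (β := ℕ) (γ := ℤ) (F := fun a j => if j = i a then c a else 0)
    hr.range ?_
  exact NPC.Poly.ite (NPC.Poly.decide_eq (NPC.Poly.snd NPC.Poly.id)
    (hi.comp (NPC.Poly.fst NPC.Poly.id))) (hc.comp (NPC.Poly.fst NPC.Poly.id))
    (NPC.Poly.const 0)

theorem Poly_rows {α : Type} [TEnc α] {γ : α → List (List (List ℤ))} {q : α → ℕ}
    {e : α → List ℤ} (hm : Poly (fun p : (List (List (List ℤ)) × ℕ) × List ℤ × List ℤ =>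
      mulq p.1.1 p.1.2 p.2.1 p.2.2)) (hγ : Poly γ) (hq : Poly q) (he : Poly e) :
    Poly (fun a => rows (γ a) (q a) (e a)) := by
  unfold rows
  have h1 : Poly (fun p : α × ℕ => p.1) := NPC.Poly.fst NPC.Poly.id
  have h2 : Poly (fun p : α × ℕ => p.2) := NPC.Poly.snd NPC.Poly.id
  refine NPC.Poly.append ?_ ?_
  · have h3 : Poly (fun p : α × ℕ => uv (γ p.1).length p.2 1) :=
      Poly_uv (UPoly.length (hγ.comp h1)) h2 (NPC.Poly.const 1)
    have h4 : Poly (fun p : α × ℕ => ((γ p.1, q p.1), (e p.1, uv (γ p.1).length p.2 1))) :=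
      NPC.Poly.pair (NPC.Poly.pair (hγ.comp h1) (hq.comp h1)) (NPC.Poly.pair (he.comp h1) h3)
    have h5 := hm.comp h4
    exact NPC.Poly.map (α := α) (β := ℕ) (γ := List ℤ)
      (F := fun a i => mulq (γ a) (q a) (e a) (uv (γ a).length i 1)) (UPoly.length hγ).range h5
  · refine NPC.Poly.map (α := α) (β := ℕ) (γ := List ℤ)
      (F := fun a i => uv (γ a).length i (q a : ℤ)) (UPoly.length hγ).range ?_
    exact Poly_uv (UPoly.length (hγ.comp h1)) h2 (Poly_ofNat (hq.comp h1))

theorem Poly_sp (ht : Poly t) (hF : Poly F) (hker : Poly ker)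
    (hm1 : Poly (fun p : (List (List (List ℤ)) × ℕ) × List ℤ × List ℤ =>
      mulq p.1.1 p.1.2 p.2.1 p.2.2))
    (hm2 : Poly (fun p : (List (List (List ℤ)) × ℕ) × List ℤ × List Unit =>
      (List.range p.2.2.length).foldl (fun e _ => newq p.1.1 p.1.2 e) p.2.1)) :
    Poly (sp t F ker qB qK qβ) := by
  unfold sp
  refine NPC.Poly.map (α := List (List (List ℤ))) (β := List ℤ) (γ := List (List ℤ))
    (F := fun γ e => ideal ker γ (qq t qB qK γ)
      (lift γ (qq t qB qK γ) e (qK.eval (NN γ) + 1)) (2 ^ qβ.eval (NN γ)))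
    (Poly_es qB ht hF) ?_
  have h1 : Poly (fun p : List (List (List ℤ)) × List ℤ => p.1) := NPC.Poly.fst NPC.Poly.id
  have h2 : Poly (fun p : List (List (List ℤ)) × List ℤ => p.2) := NPC.Poly.snd NPC.Poly.id
  have h3 : Poly (fun p : List (List (List ℤ)) × List ℤ => qq t qB qK p.1) :=
    (Poly_qq qB qK ht).comp h1
  have h4 : UPoly (fun p : List (List (List ℤ)) × List ℤ => qK.eval (NN p.1) + 1) :=
    UPoly.add (UPoly.eval (UPoly_NN.comp h1) qK) (UPoly.const 1)
  have h5 : Poly (fun p : List (List (List ℤ)) × List ℤ =>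
      lift p.1 (qq t qB qK p.1) p.2 (qK.eval (NN p.1) + 1)) := by
    refine (hm2.comp (NPC.Poly.pair (NPC.Poly.pair h1 h3) (NPC.Poly.pair h2 h4))).congr
      fun a => ?_
    simp only [List.length_replicate]
    rfl
  have h6 : Poly (fun p : List (List (List ℤ)) × List ℤ => 2 ^ qβ.eval (NN p.1)) :=
    NPC.Poly.npow (NPC.Poly.const 2) (UPoly.eval (UPoly_NN.comp h1) qβ)
  unfold ideal
  refine NPC.Poly.map (α := List (List (List ℤ)) × List ℤ) (β := List ℤ) (γ := List ℤ)
    (F := fun p u => u.take p.1.length)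
    (hker.comp (NPC.Poly.pair (Poly_rows hm1 h1 h3 h5) h6)) ?_
  exact NPC.Poly.take_length (NPC.Poly.snd NPC.Poly.id) (h1.comp (NPC.Poly.fst NPC.Poly.id))

end Algo

section Correct

variable {r : ℕ} {γ : List (List (List ℤ))}

theorem mulv_eq (u v : Fin r → ℤ) (l : Fin r) :
    mulv r γ u v l = ∑ j, v j * ∑ i : Fin r, u i * gm γ i j l := by
  unfold mulv
  rw [Finset.sum_comm]
  refine Finset.sum_congr rfl fun j _ => ?_
  rw [Finset.mul_sum]
  refine Finset.sum_congr rfl fun i _ => ?_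
  ring

theorem vz_uv (i : Fin r) (j : Fin r) : vz r (uv r i 1) j = if j = i then 1 else 0 := by
  unfold vz
  rw [uv_getD _ j.2]
  simp only [Fin.ext_iff]

theorem mulv_uv (u : Fin r → ℤ) (i l : Fin r) :
    mulv r γ u (vz r (uv r i 1)) l = ∑ i' : Fin r, u i' * gm γ i' i l := by
  rw [mulv_eq, Finset.sum_eq_single i]
  · rw [vz_uv, if_pos rfl, one_mul]
  · intro j _ hj
    rw [vz_uv, if_neg hj, zero_mul]
  · intro h
    exact absurd (Finset.mem_univ _) h

/-- The values of the relations. -/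
theorem form_rows (hr : γ.length = r) {q : ℕ} {e : List ℤ}
    (hmul : ∀ (u v : List ℤ) (l : Fin r),
      vz r (mulq γ q u v) l = mulv r γ (vz r u) (vz r v) l % (q : ℤ)) (c : ℕ → ℤ) (l : Fin r) :
    form (rows γ q e) c l = ∑ i : Fin r, c i * ((∑ i' : Fin r, vz r e i' * gm γ i' i l) % (q : ℤ)) +
      c (r + l) * q := by
  subst hr
  unfold form
  rw [rows_length, Finset.sum_range_add]
  congr 1
  · rw [Finset.sum_range]
    refine Finset.sum_congr rfl fun i _ => ?_
    rw [rows_lt i.2, ← mulv_uv, ← hmul]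
    rfl
  · rw [Finset.sum_eq_single (l : ℕ)]
    · rw [rows_ge l.2, uv_getD _ l.2, if_pos rfl]
    · intro j hj hne
      rw [rows_ge (Finset.mem_range.1 hj), uv_getD _ l.2, if_neg (Ne.symm hne), mul_zero]
    · intro h
      exact absurd (Finset.mem_range.2 l.2) h

theorem form_rows_ge {q : ℕ} {e : List ℤ} (c : ℕ → ℤ) {j : ℕ} (hj : γ.length ≤ j) :
    form (rows γ q e) c j = 0 := by
  unfold form
  refine Finset.sum_eq_zero fun i hi => ?_
  rw [Finset.mem_range] at hi
  have h1 : ((rows γ q e).getD i []).length = γ.length := by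
    rw [List.getD_eq_getElem _ _ hi]
    exact rows_mem_length _ (List.getElem_mem _)
  rw [List.getD_eq_default _ _ (by omega), mul_zero]

theorem dvd_form_sub (hr : γ.length = r) {q : ℕ} {e : List ℤ}
    (hmul : ∀ (u v : List ℤ) (l : Fin r),
      vz r (mulq γ q u v) l = mulv r γ (vz r u) (vz r v) l % (q : ℤ)) (c : ℕ → ℤ) (l : Fin r) :
    (q : ℤ) ∣ mulv r γ (vz r e) (fun i => c i) l - form (rows γ q e) c l := by
  rw [form_rows hr hmul, mulv_eq, ← sub_sub, ← Finset.sum_sub_distrib]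
  refine dvd_sub (Finset.dvd_sum fun i _ => ?_) (Dvd.intro_left _ rfl)
  rw [← mul_sub]
  exact Dvd.dvd.mul_left (Int.dvd_self_sub_emod) _

/-- Soundness of the lattice. -/
theorem sound (hr : γ.length = r) {q : ℕ} {e : List ℤ}
    (hmul : ∀ (u v : List ℤ) (l : Fin r),
      vz r (mulq γ q u v) l = mulv r γ (vz r u) (vz r v) l % (q : ℤ)) {N a : ℕ} (hN : r ≤ N)
    {u : List ℤ} (h0 : ∀ j, form (rows γ q e) (ent u) j = 0)
    (hs : ∑ i ∈ Finset.range (rows γ q e).length, ent u i ^ 2 ≤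
      4 ^ (rows γ q e).length * (2 ^ (2 * a + 8 * N + 8) : ℕ)) :
    (∀ i, |vz r (u.take r) i| < 2 ^ (a + 10 * N + 10)) ∧
      ∀ l, (q : ℤ) ∣ mulv r γ (vz r e) (vz r (u.take r)) l := by
  have hv : vz r (u.take r) = fun i : Fin r => ent u i := by
    funext i
    unfold vz ent
    simp only [List.getD_eq_getElem?_getD, List.getElem?_take, i.2, if_true]
  rw [hv]
  constructor
  · intro i
    have h1 : ent u i ^ 2 ≤ ∑ i ∈ Finset.range (rows γ q e).length, ent u i ^ 2 :=
      Finset.single_le_sum (f := fun i => ent u i ^ 2) (fun _ _ => sq_nonneg _)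
        (Finset.mem_range.2 (by rw [rows_length, hr]; have := i.2; omega))
    have h2 : ent u i ^ 2 ≤ (2 ^ (a + 6 * N + 4)) ^ 2 := by
      refine (h1.trans hs).trans ?_
      rw [rows_length, hr, ← pow_mul]
      push_cast
      rw [show (4 : ℤ) = 2 ^ 2 by norm_num, ← pow_mul, ← pow_add]
      exact pow_le_pow_right₀ (by norm_num) (by omega)
    have h3 : |ent u i| ≤ 2 ^ (a + 6 * N + 4) :=
      abs_le_of_sq_le_sq h2 (by positivity)
    exact lt_of_le_of_lt h3 (pow_lt_pow_right₀ (by norm_num) (by omega))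
  · intro l
    have := dvd_form_sub hr (e := e) hmul (ent u) l
    rwa [h0, sub_zero] at this

/-- The cofactors. -/
def cc (r : ℕ) (q : ℕ) (v : Fin r → ℤ) (S : Fin r → ℤ) (i : ℕ) : ℤ :=
  if h : i < r then v ⟨i, h⟩ else if h : i - r < r then - (S ⟨i - r, h⟩ / q) else 0

theorem complete (hr : γ.length = r) {q : ℕ} (hq : 0 < q) {e : List ℤ}
    (hmul : ∀ (u v : List ℤ) (l : Fin r),
      vz r (mulq γ q u v) l = mulv r γ (vz r u) (vz r v) l % (q : ℤ)) {N a : ℕ} (hN : r ≤ N)
    {v : Fin r → ℤ} (hv : ∀ i, |v i| < 2 ^ a)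
    (hd : ∀ l, (q : ℤ) ∣ mulv r γ (vz r e) v l) :
    ∃ c : ℕ → ℤ, (∀ i : Fin r, c i = v i) ∧ (∀ j, form (rows γ q e) c j = 0) ∧
      ∑ i ∈ Finset.range (rows γ q e).length, c i ^ 2 ≤ ((2 ^ (2 * a + 8 * N + 8) : ℕ) : ℤ) := by
  have hq' : (0 : ℤ) < q := by exact_mod_cast hq
  set M : Fin r → Fin r → ℤ := fun i l => (∑ i' : Fin r, vz r e i' * gm γ i' i l) % (q : ℤ)
    with hM
  set S : Fin r → ℤ := fun l => ∑ i, v i * M i l with hS
  have hc1 : ∀ i : Fin r, cc r q v S i = v i := fun i => by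
    unfold cc; rw [dif_pos i.2]
  have hc2 : ∀ l : Fin r, cc r q v S (r + l) = - (S l / q) := fun l => by
    unfold cc
    rw [dif_neg (by omega), dif_pos (by have := l.2; omega)]
    congr 3
    ext
    simp
  have hSd : ∀ l, (q : ℤ) ∣ S l := by
    intro l
    have h1 : (q : ℤ) ∣ mulv r γ (vz r e) v l - S l := by
      rw [mulv_eq, hS, ← Finset.sum_sub_distrib]
      refine Finset.dvd_sum fun i _ => ?_
      rw [← mul_sub]
      exact Dvd.dvd.mul_left (Int.dvd_self_sub_emod) _
    have h2 := dvd_sub (hd l) h1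
    rwa [sub_sub_cancel] at h2
  have hSb : ∀ l, |S l / q| ≤ r * 2 ^ a := by
    intro l
    obtain ⟨k, hk⟩ := hSd l
    rw [hk, Int.mul_ediv_cancel_left _ hq'.ne']
    have h1 : |S l| ≤ (r * 2 ^ a) * q := by
      calc |S l| ≤ ∑ i : Fin r, |v i * M i l| := Finset.abs_sum_le_sum_abs _ _
        _ ≤ ∑ _i : Fin r, 2 ^ a * (q : ℤ) := by
          refine Finset.sum_le_sum fun i _ => ?_
          rw [abs_mul]
          refine mul_le_mul (hv i).le ?_ (abs_nonneg _) (by positivity)
          rw [abs_of_nonneg (Int.emod_nonneg _ hq'.ne')]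
          exact (Int.emod_lt_of_pos _ hq').le
        _ = (r * 2 ^ a) * q := by
          rw [Finset.sum_const, Finset.card_univ, Fintype.card_fin, nsmul_eq_mul, mul_assoc]
    rw [hk, abs_mul, abs_of_pos hq', mul_comm] at h1
    exact le_of_mul_le_mul_right h1 hq'
  refine ⟨cc r q v S, hc1, fun j => ?_, ?_⟩
  · by_cases hj : j < r
    · have := form_rows hr (e := e) hmul (cc r q v S) ⟨j, hj⟩
      rw [this]
      simp only [hc1]
      have h1 : ∑ i : Fin r, v i * ((∑ i' : Fin r, vz r e i' * gm γ i' i (⟨j, hj⟩ : Fin r)) %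
        (q : ℤ)) = S ⟨j, hj⟩ := rfl
      have h2 := hc2 ⟨j, hj⟩
      rw [h2]
      refine (congrArg (fun t => t + -(S ⟨j, hj⟩ / q) * (q : ℤ)) h1).trans ?_
      have h3 := Int.ediv_mul_cancel (hSd ⟨j, hj⟩)
      simp only [neg_mul]
      rw [h3]
      ring
    · exact form_rows_ge _ (by omega)
  · rw [rows_length, hr, Finset.sum_range_add, Finset.sum_range, Finset.sum_range]
    simp only [hc1, hc2]
    have h1 : ∑ i : Fin r, v i ^ 2 ≤ (r : ℤ) * (2 ^ a) ^ 2 := by
      calc ∑ i : Fin r, v i ^ 2 ≤ ∑ _i : Fin r, (2 ^ a : ℤ) ^ 2 := by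
            refine Finset.sum_le_sum fun i _ => ?_
            rw [← sq_abs]
            exact pow_le_pow_left₀ (abs_nonneg _) (hv i).le 2
        _ = (r : ℤ) * (2 ^ a) ^ 2 := by
          rw [Finset.sum_const, Finset.card_univ, Fintype.card_fin, nsmul_eq_mul]
    have h2 : ∑ l : Fin r, (-(S l / (q : ℤ))) ^ 2 ≤ (r : ℤ) * ((r : ℤ) * 2 ^ a) ^ 2 := by
      calc ∑ l : Fin r, (-(S l / (q : ℤ))) ^ 2 ≤ ∑ _i : Fin r, ((r : ℤ) * 2 ^ a) ^ 2 := by
            refine Finset.sum_le_sum fun i _ => ?_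
            rw [neg_sq, ← sq_abs]
            exact pow_le_pow_left₀ (abs_nonneg _) (hSb i) 2
        _ = (r : ℤ) * ((r : ℤ) * 2 ^ a) ^ 2 := by
          rw [Finset.sum_const, Finset.card_univ, Fintype.card_fin, nsmul_eq_mul]
    have h3 : (r : ℤ) ≤ 2 ^ N := by
      have : r < 2 ^ N := lt_of_le_of_lt hN Nat.lt_two_pow_self
      exact_mod_cast this.le
    have h4 : (r : ℤ) * (2 ^ a) ^ 2 ≤ 2 ^ N * (2 ^ a) ^ 2 :=
      mul_le_mul_of_nonneg_right h3 (by positivity)
    have h5 : (r : ℤ) * ((r : ℤ) * 2 ^ a) ^ 2 ≤ 2 ^ N * (2 ^ N * 2 ^ a) ^ 2 := by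
      refine mul_le_mul h3 (pow_le_pow_left₀ (by positivity)
        (mul_le_mul_of_nonneg_right h3 (by positivity)) 2) (by positivity) (by positivity)
    have h6 : (2 : ℤ) ^ N * (2 ^ a) ^ 2 ≤ 2 ^ (2 * a + 8 * N + 7) := by
      rw [← pow_mul, ← pow_add]
      exact pow_le_pow_right₀ (by norm_num) (by omega)
    have h7 : (2 : ℤ) ^ N * (2 ^ N * 2 ^ a) ^ 2 ≤ 2 ^ (2 * a + 8 * N + 7) := by
      rw [← pow_add, ← pow_mul, ← pow_add]
      exact pow_le_pow_right₀ (by norm_num) (by omega)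
    have h8 : ((2 ^ (2 * a + 8 * N + 8) : ℕ) : ℤ) =
        2 ^ (2 * a + 8 * N + 7) + 2 ^ (2 * a + 8 * N + 7) := by
      push_cast
      rw [show 2 * a + 8 * N + 8 = (2 * a + 8 * N + 7) + 1 by ring, pow_succ]
      ring
    rw [h8]
    exact add_le_add ((h1.trans h4).trans h6) ((h2.trans h5).trans h7)

/-- The computed space is the space of coordinates of the ideal. -/
theorem mem_ideal_iff (hr : γ.length = r) {q : ℕ} (hq : 0 < q) {e : List ℤ}
    (hmul : ∀ (u v : List ℤ) (l : Fin r),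
      vz r (mulq γ q u v) l = mulv r γ (vz r u) (vz r v) l % (q : ℤ)) {N a : ℕ} (hN : r ≤ N)
    {ker : List (List ℤ) × ℕ → List (List ℤ)}
    (hker : ∀ (X : List (List ℤ)) (β q : ℕ), (∀ r ∈ X, r.length = q) →
      (∀ u ∈ ker (X, β), u.length = X.length ∧ (∀ j, form X (ent u) j = 0) ∧
        ∑ i ∈ Finset.range X.length, ent u i ^ 2 ≤ 4 ^ X.length * β) ∧
      ∀ c : ℕ → ℤ, (∀ j, form X c j = 0) → ∑ i ∈ Finset.range X.length, c i ^ 2 ≤ β →
        (fun i : Fin X.length => c i) ∈ Submodule.span ℤ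
          {y : Fin X.length → ℤ | ∃ u ∈ ker (X, β), y = fun i : Fin X.length => ent u i})
    {E : Type} [CommRing E] [Algebra ℚ E] (b : Module.Basis (Fin r) ℚ E) (I : Ideal E)
    (h1 : ∀ x ∈ I, x ∈ Submodule.span ℚ
      {y | ∃ v : Fin r → ℤ, (∀ i, |v i| < 2 ^ a) ∧ ev b v ∈ I ∧ y = ev b v})
    (h2 : ∀ v : Fin r → ℤ, ev b v ∈ I → ∀ l, (q : ℤ) ∣ mulv r γ (vz r e) v l)
    (h3 : ∀ v : Fin r → ℤ, (∀ i, |v i| < 2 ^ (a + 10 * N + 10)) →
      (∀ l, (q : ℤ) ∣ mulv r γ (vz r e) v l) → ev b v ∈ I) (x : E) :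
    x ∈ I ↔ b.equivFun x ∈ vspan r (ideal ker γ q e (2 ^ (2 * a + 8 * N + 8))) := by
  obtain ⟨hk1, hk2⟩ := hker (rows γ q e) (2 ^ (2 * a + 8 * N + 8)) γ.length
    (fun v hv => rows_mem_length v hv)
  have hev : ∀ v : Fin r → ℤ, b.equivFun (ev b v) = fun i => (v i : ℚ) := by
    intro v
    have : ev b v = b.equivFun.symm (fun i => (v i : ℚ)) := by
      rw [Module.Basis.equivFun_symm_apply]; rfl
    rw [this, LinearEquiv.apply_symm_apply]
  constructor
  · intro hx
    have hx' := h1 x hx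
    clear hx
    induction hx' using Submodule.span_induction with
    | mem x hx =>
      obtain ⟨v, hv, hvI, rfl⟩ := hx
      rw [hev]
      obtain ⟨c, hc1, hc2, hc3⟩ := complete hr hq hmul hN hv (h2 v hvI)
      have hc4 := hk2 c hc2 hc3
      have hlen : ∀ i : Fin r, (i : ℕ) < (rows γ q e).length := fun i => by
        rw [rows_length, hr]; have := i.2; omega
      have key : ∀ y : Fin (rows γ q e).length → ℤ, y ∈ Submodule.span ℤ
          {y : Fin (rows γ q e).length → ℤ | ∃ u ∈ ker (rows γ q e, 2 ^ (2 * a + 8 * N + 8)),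
            y = fun i : Fin (rows γ q e).length => ent u i} →
          (fun i : Fin r => (y ⟨i, hlen i⟩ : ℚ)) ∈
            vspan r (ideal ker γ q e (2 ^ (2 * a + 8 * N + 8))) := by
        intro y hy
        induction hy using Submodule.span_induction with
        | mem y hy =>
          obtain ⟨u, hu, rfl⟩ := hy
          refine Submodule.subset_span ⟨u.take γ.length, List.mem_map.2 ⟨u, hu, rfl⟩, ?_⟩
          funext i
          unfold vq ent
          simp only [List.getD_eq_getElem?_getD, List.getElem?_take, hr, i.2, if_true]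
        | zero =>
          have : (fun i : Fin r => (((0 : Fin (rows γ q e).length → ℤ) ⟨i, hlen i⟩ : ℤ) : ℚ)) = 0 := by
            funext i; simp
          rw [this]
          exact Submodule.zero_mem _
        | add y z _ _ hy hz =>
          have := Submodule.add_mem _ hy hz
          convert this using 1
          funext i
          simp
        | smul c y _ hy =>
          have := Submodule.smul_mem _ (c : ℚ) hy
          convert this using 1
          funext i
          simp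
      have := key _ hc4
      convert this using 1
      funext i
      rw [← hc1 i]
    | zero => rw [map_zero]; exact Submodule.zero_mem _
    | add x y _ _ hx hy => rw [map_add]; exact Submodule.add_mem _ hx hy
    | smul c x _ hx => rw [map_smul]; exact Submodule.smul_mem _ _ hx
  · intro hx
    have hle : vspan r (ideal ker γ q e (2 ^ (2 * a + 8 * N + 8))) ≤
        (I.restrictScalars ℚ).comap b.equivFun.symm.toLinearMap := by
      unfold vspan
      rw [Submodule.span_le]
      rintro w ⟨v, hv, rfl⟩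
      unfold ideal at hv
      rw [List.mem_map] at hv
      obtain ⟨u, hu, rfl⟩ := hv
      obtain ⟨_, hu2, hu3⟩ := hk1 u hu
      obtain ⟨h4, h5⟩ := sound hr hmul hN hu2 hu3
      have h6 := h3 _ h4 h5
      rw [hr]
      have h7 : b.equivFun.symm (vq r (u.take r)) = ev b (vz r (u.take r)) := by
        rw [Module.Basis.equivFun_symm_apply]; rfl
      change b.equivFun.symm (vq r (u.take r)) ∈ I
      rw [h7]
      exact h6
    have h4 := hle hx
    have h5 : b.equivFun.symm (b.equivFun x) ∈ I := h4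
    rwa [LinearEquiv.symm_apply_apply] at h5

end Correct

end E1

theorem e1 (k1 : K1S) (hp : PrimeS) (hd : EDS) (hm : MQS) (ht : EMtS) (hi : EMiS) (hl : ELS) :
    E1S := by
  obtain ⟨ker, hkp, hker⟩ := k1
  obtain ⟨qP, hqP⟩ := hp
  obtain ⟨qE, hqE⟩ := hd
  obtain ⟨hm1, -, -, hm2, hm3⟩ := hm
  obtain ⟨t, htp, ht⟩ := ht
  obtain ⟨F, hFp, hF⟩ := hi
  obtain ⟨q₁, q₂, hl⟩ := hl
  refine ⟨E1.sp t F ker (qP.comp qE) q₂
    (Polynomial.C 2 * q₁ + Polynomial.C 8 * Polynomial.X + Polynomial.C 8),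
    E1.Poly_sp (qP.comp qE) q₂ _ htp hFp hkp hm1 hm2, ?_⟩
  intro r γ E _ _ b hred hord
  have hr : γ.length = r := hord.len
  obtain ⟨hm3, -, hm4⟩ := hm3 r γ E b hord
  have hrN : r ≤ E1.NN γ := hr ▸ E1.length_le_NN γ
  have hgN := E1.gm_lt γ
  -- the prime
  obtain ⟨D, hD0, hD1, hD2⟩ := hqE (E1.NN γ) r γ E b hred hord hrN hgN
  obtain ⟨p₀, hp1, hp2, hp3⟩ := hqP D hD0
  have hp4 : p₀ ≤ (qP.comp qE).eval (E1.NN γ) := by
    rw [Polynomial.eval_comp]
    exact hp3.trans (eval_mono qP hD1)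
  obtain ⟨hpp1, hpp2, hpp3⟩ := E1.pp_spec (t := t) (qB := qP.comp qE) (γ := γ)
    ⟨p₀, hp4, hp1, (ht r γ E b hord p₀ hp1).2 (hD2 p₀ hp1 hp2)⟩
  set p := E1.pp t (qP.comp qE) γ with hpdef
  have hred' : RedMod r γ p := (ht r γ E b hord p hpp2).1 hpp3
  obtain ⟨hF1, hF2⟩ := hF r γ E b hord p hpp2 hred'
  have hes : E1.es t F (qP.comp qE) γ = F (γ, List.replicate p ()) := by
    unfold E1.es
    rw [← hpdef, E1.ul_eq _ _ _ (by omega)]
  obtain ⟨P, hP1, hP2⟩ := hl (E1.NN γ) r γ E b hred hord hrN hgN p hpp2 hred'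
  set K := q₂.eval (E1.NN γ) + 1 with hK
  have hqq : E1.qq t (qP.comp qE) q₂ γ = p ^ K := rfl
  have hpos : 0 < p ^ K := pow_pos hpp2.pos _
  have hKle : 2 ^ q₂.eval (E1.NN γ) ≤ p ^ K := by
    calc 2 ^ q₂.eval (E1.NN γ) ≤ 2 ^ K := Nat.pow_le_pow_right (by norm_num) (by omega)
      _ ≤ p ^ K := Nat.pow_le_pow_left hpp2.two_le K
  have hmul : ∀ (u v : List ℤ) (l : Fin r),
      vz r (mulq γ (p ^ K) u v) l = mulv r γ (vz r u) (vz r v) l % ((p ^ K : ℕ) : ℤ) :=
    fun u v l => (hm3 (p ^ K) u v hpos).2 l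
  have hβ : (Polynomial.C 2 * q₁ + Polynomial.C 8 * Polynomial.X + Polynomial.C 8).eval (E1.NN γ) =
      2 * q₁.eval (E1.NN γ) + 8 * E1.NN γ + 8 := by
    simp
  -- the spaces computed
  have key : ∀ e ∈ F (γ, List.replicate p ()), ∀ x : E, x ∈ P (vz r e) ↔ b.equivFun x ∈
      vspan r (E1.ideal ker γ (p ^ K) (E1.lift γ (p ^ K) e K)
        (2 ^ (2 * q₁.eval (E1.NN γ) + 8 * E1.NN γ + 8))) := by
    intro e he
    obtain ⟨_, he2⟩ := hF1 e he
    obtain ⟨-, hP3, hP4⟩ := hP1 (vz r e) he2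
    obtain ⟨_, hl2, hl3⟩ := hm4 p hpp2.one_lt K e (by omega) he2.1
    obtain ⟨hP5, hP6⟩ := hP4 K hKle (vz r (E1.lift γ (p ^ K) e K)) hl3 hl2
    exact E1.mem_ideal_iff hr hpos hmul hrN hker b (P (vz r e)) hP3 hP5 hP6
  unfold E1.sp
  rw [hes, hqq, ← hK, hβ]
  constructor
  · intro Q hQ
    rw [List.mem_map] at hQ
    obtain ⟨e, he, rfl⟩ := hQ
    constructor
    · intro v hv
      unfold E1.ideal at hv
      rw [List.mem_map] at hv
      obtain ⟨u, hu, rfl⟩ := hv
      have := ((hker _ _ γ.length (fun v hv => E1.rows_mem_length v hv)).1 u hu).1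
      rw [List.length_take, this, E1.rows_length]
      omega
    · exact ⟨P (vz r e), (hP1 (vz r e) (hF1 e he).2).1, key e he⟩
  · intro x hx
    have h1 : b.equivFun.symm x = 0 := by
      refine hP2 ((F (γ, List.replicate p ())).map (vz r)) ?_ ?_ _ ?_
      · intro e he
        rw [List.mem_map] at he
        obtain ⟨e, he, rfl⟩ := he
        exact (hF1 e he).2
      · intro l
        have := hF2 l
        rw [List.map_map]
        exact this
      · intro e he
        rw [List.mem_map] at he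
        obtain ⟨e, he, rfl⟩ := he
        rw [key e he, LinearEquiv.apply_symm_apply]
        exact hx _ (List.mem_map.2 ⟨e, he, rfl⟩)
    have h2 := congrArg b.equivFun h1
    rwa [LinearEquiv.apply_symm_apply, map_zero] at h2

end Pool.Agent.H420_NCF
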