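import Pool.Agent.H420_NCF.Spec

/-!
# an order of a commutative algebra and its residue rings (module EB)
-/

namespace Pool.Agent.H420_NCF

open Pool.Agent.NPC Pool.Agent.NPC.H532 Pool.Agent.H687R2.LLL
open scoped Matrix

namespace EB

variable {r : ℕ} {γ : List (List (List ℤ))} {E : Type} [CommRing E] [Algebra ℚ E]
  {b : Module.Basis (Fin r) ℚ E}

theorem ev_add (u v : Fin r → ℤ) : ev b (u + v) = ev b u + ev b v := by
  unfold ev
  rw [← Finset.sum_add_distrib]
  refine Finset.sum_congr rfl fun i _ => ?_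
  rw [Pi.add_apply, Int.cast_add, add_smul]

theorem ev_zero : ev b (0 : Fin r → ℤ) = 0 := by
  unfold ev
  simp

theorem ev_neg (u : Fin r → ℤ) : ev b (-u) = - ev b u := by
  unfold ev
  rw [← Finset.sum_neg_distrib]
  refine Finset.sum_congr rfl fun i _ => ?_
  rw [Pi.neg_apply, Int.cast_neg, neg_smul]

theorem ev_mul (h : IsOrder r γ E b) (u v : Fin r → ℤ) :
    ev b (mulv r γ u v) = ev b u * ev b v := by
  unfold ev mulv
  rw [Finset.sum_mul_sum]
  have e1 : ∀ l : Fin r, ((∑ i : Fin r, ∑ j : Fin r, u i * v j * gm γ i j l : ℤ) : ℚ) • b l =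
      ∑ i : Fin r, ∑ j : Fin r, ((u i : ℚ) * (v j : ℚ) * (gm γ i j l : ℚ)) • b l := by
    intro l
    push_cast
    rw [Finset.sum_smul]
    refine Finset.sum_congr rfl fun i _ => ?_
    rw [Finset.sum_smul]
  rw [Finset.sum_congr rfl fun l _ => e1 l, Finset.sum_comm]
  refine Finset.sum_congr rfl fun i _ => ?_
  rw [Finset.sum_comm]
  refine Finset.sum_congr rfl fun j _ => ?_
  rw [smul_mul_smul_comm, h.mul i j, Finset.smul_sum]
  refine Finset.sum_congr rfl fun l _ => ?_
  rw [smul_smul]

theorem ev_inj : Function.Injective (ev b) := by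
  intro u v huv
  have h1 : ∀ w : Fin r → ℤ, b.equivFun (ev b w) = fun i => (w i : ℚ) := by
    intro w
    unfold ev
    exact b.equivFun_symm_apply (fun i => (w i : ℚ)) ▸ b.equivFun.apply_symm_apply _
  have h2 := h1 u
  rw [huv, h1 v] at h2
  funext i
  have := congrFun h2 i
  exact_mod_cast this.symm

theorem ev_one (h : IsOrder r γ E b) : ev b (vz r (oneq γ)) = 1 := by
  rw [← h.one]
  unfold ev
  rw [Finset.sum_eq_single ⟨0, h.pos⟩]
  · have : vz r (oneq γ) ⟨0, h.pos⟩ = 1 := by
      unfold vz oneq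
      rw [List.getD_eq_getElem _ _ (by simp [h.len, h.pos])]
      simp
    rw [this]
    simp
  · intro l _ hl
    have : vz r (oneq γ) l = 0 := by
      unfold vz oneq
      have hl' : (l : ℕ) ≠ 0 := fun h' => hl (Fin.ext h')
      rw [List.getD_eq_getElem _ _ (by simp [h.len, l.isLt])]
      simp [hl']
    rw [this]
    simp
  · intro h'
    exact absurd (Finset.mem_univ _) h'

/-- the order -/
noncomputable def O (h : IsOrder r γ E b) : Subring E where
  carrier := Set.range (ev b)
  mul_mem' := by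
    rintro _ _ ⟨u, rfl⟩ ⟨v, rfl⟩
    exact ⟨_, ev_mul h u v⟩
  one_mem' := ⟨_, ev_one h⟩
  add_mem' := by
    rintro _ _ ⟨u, rfl⟩ ⟨v, rfl⟩
    exact ⟨_, ev_add u v⟩
  zero_mem' := ⟨0, ev_zero⟩
  neg_mem' := by
    rintro _ ⟨u, rfl⟩
    exact ⟨_, ev_neg u⟩

/-- the element of the order -/
noncomputable def el (h : IsOrder r γ E b) (v : Fin r → ℤ) : O h := ⟨ev b v, v, rfl⟩

theorem ev_natmul (q : ℕ) (w : Fin r → ℤ) : ev b (fun l => (q : ℤ) * w l) = (q : E) * ev b w := by
  unfold ev
  rw [Finset.mul_sum]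
  refine Finset.sum_congr rfl fun i _ => ?_
  rw [Int.cast_mul, Int.cast_natCast, mul_smul, Nat.cast_smul_eq_nsmul, nsmul_eq_mul]

end EB

open EB in
theorem eb : EBS := by
  intro r γ E _ _ b h
  refine ⟨ev_mul h, ev_inj, ev_one h, fun q => ?_⟩
  let I : Ideal (O h) := Ideal.span {(q : O h)}
  refine ⟨O h ⧸ I, inferInstance,
    { toFun := fun v => Ideal.Quotient.mk I (el h v)
      map_zero' := by
        have : el h (0 : Fin r → ℤ) = 0 := Subtype.ext ev_zero
        rw [this, map_zero]
      map_add' := fun u v => by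
        have : el h (u + v) = el h u + el h v := Subtype.ext (ev_add u v)
        rw [this, map_add] }, ?_, ?_, ?_, ?_⟩
  · intro x
    obtain ⟨⟨_, v, rfl⟩, rfl⟩ := Ideal.Quotient.mk_surjective x
    exact ⟨v, rfl⟩
  · intro v
    show Ideal.Quotient.mk I (el h v) = 0 ↔ _
    rw [Ideal.Quotient.eq_zero_iff_mem, Ideal.mem_span_singleton']
    constructor
    · rintro ⟨⟨_, w, rfl⟩, hw⟩
      have h1 : ev b w * (q : E) = ev b v := congrArg Subtype.val hw
      rw [mul_comm, ← ev_natmul] at h1
      have h2 := ev_inj h1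
      intro l
      exact ⟨w l, (congrFun h2 l).symm⟩
    · intro hv
      choose w hw using hv
      refine ⟨el h w, ?_⟩
      apply Subtype.ext
      show ev b w * (q : E) = ev b v
      rw [mul_comm, ← ev_natmul]
      congr 1
      funext l
      exact (hw l).symm
  · intro u v
    show Ideal.Quotient.mk I (el h _) = Ideal.Quotient.mk I (el h u) * Ideal.Quotient.mk I (el h v)
    have : el h (mulv r γ u v) = el h u * el h v := Subtype.ext (ev_mul h u v)
    rw [this, map_mul]
  · show Ideal.Quotient.mk I (el h _) = 1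
    have : el h (vz r (oneq γ)) = 1 := Subtype.ext (ev_one h)
    rw [this, map_one]

end Pool.Agent.H420_NCF
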