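import Pool.Agent.H420_NCF.Spec

/-!
# the discriminant (module ED)
-/

namespace Pool.Agent.H420_NCF

open Pool.Agent.NPC Pool.Agent.NPC.H532 Pool.Agent.H687R2.LLL
open scoped Matrix

namespace ED

/-- The integer matrix of the multiplication by the element with coordinates `u`. -/
def Lm (r : ℕ) (γ : List (List (List ℤ))) (u : Fin r → ℤ) : Matrix (Fin r) (Fin r) ℤ :=
  fun l k => ∑ i : Fin r, u i * gm γ i k l

/-- The traces of the basis elements. -/
def tau (r : ℕ) (γ : List (List (List ℤ))) (i : Fin r) : ℤ := ∑ l : Fin r, gm γ i l l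

/-- The matrix of the trace form. -/
def TT (r : ℕ) (γ : List (List (List ℤ))) : Matrix (Fin r) (Fin r) ℤ :=
  fun i j => ∑ l : Fin r, gm γ i j l * tau r γ l

theorem Lm_trace (r : ℕ) (γ : List (List (List ℤ))) (u : Fin r → ℤ) :
    (Lm r γ u).trace = ∑ i, u i * tau r γ i := by
  unfold Matrix.trace Lm tau
  simp only [Matrix.diag_apply]
  rw [Finset.sum_comm]
  exact Finset.sum_congr rfl fun i _ => (Finset.mul_sum _ _ _).symm

theorem trace_mulv (r : ℕ) (γ : List (List (List ℤ))) (u v : Fin r → ℤ) :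
    (Lm r γ (mulv r γ u v)).trace = u ⬝ᵥ (TT r γ *ᵥ v) := by
  rw [Lm_trace]
  unfold mulv TT
  simp only [dotProduct, Matrix.mulVec, Finset.sum_mul, Finset.mul_sum]
  rw [Finset.sum_comm]
  refine Finset.sum_congr rfl fun i _ => ?_
  rw [Finset.sum_comm]
  refine Finset.sum_congr rfl fun j _ => Finset.sum_congr rfl fun l _ => ?_
  ring

section Order
variable {r : ℕ} {γ : List (List (List ℤ))} {E : Type} [CommRing E] [Algebra ℚ E]
  {b : Module.Basis (Fin r) ℚ E}

theorem Lm_eq (h : IsOrder r γ E b) (u : Fin r → ℤ) :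
    (Lm r γ u).map (Int.castRingHom ℚ) = Algebra.leftMulMatrix b (ev b u) := by
  ext l k
  rw [Algebra.leftMulMatrix_eq_repr_mul, ev, Finset.sum_mul, map_sum, Finsupp.finsetSum_apply]
  unfold Lm
  rw [Matrix.map_apply, map_sum]
  refine Finset.sum_congr rfl fun i _ => ?_
  rw [smul_mul_assoc, h.mul, map_smul, Finsupp.smul_apply, map_sum, Finsupp.finsetSum_apply,
    Finset.sum_eq_single l, map_smul, Finsupp.smul_apply, Module.Basis.repr_self,
    Finsupp.single_eq_same]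
  · simp
  · intro m _ hm
    rw [map_smul, Finsupp.smul_apply, Module.Basis.repr_self, Finsupp.single_eq_of_ne' hm, smul_zero]
  · intro hm; exact absurd (Finset.mem_univ _) hm

theorem trace_ev (h : IsOrder r γ E b) (u : Fin r → ℤ) :
    Algebra.trace ℚ E (ev b u) = ((Lm r γ u).trace : ℤ) := by
  rw [Algebra.trace_eq_matrix_trace b, ← Lm_eq h]
  unfold Matrix.trace
  simp

theorem Lm_mul (hb : EBS) (h : IsOrder r γ E b) (u v : Fin r → ℤ) :
    Lm r γ (mulv r γ u v) = Lm r γ u * Lm r γ v := by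
  have h1 : (Lm r γ (mulv r γ u v)).map (Int.castRingHom ℚ) =
      (Lm r γ u * Lm r γ v).map (Int.castRingHom ℚ) := by
    rw [Matrix.map_mul, Lm_eq h, Lm_eq h, Lm_eq h, (hb r γ E b h).1, map_mul]
  exact Matrix.map_injective (Int.castRingHom ℚ).injective_int h1

/-- The discriminant is not zero. -/
theorem det_ne_zero (ht : TRNS) (hb : EBS) (h : IsOrder r γ E b) (hr : IsReduced E) :
    (TT r γ).det ≠ 0 := by
  intro h0
  obtain ⟨v, hv, hTv⟩ := Matrix.exists_mulVec_eq_zero_iff.2 h0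
  obtain ⟨hmul, hinj, hone, _⟩ := hb r γ E b h
  have : Module.Finite ℚ E := Module.Finite.of_basis b
  have hpow : ∀ n : ℕ, ∃ u, ev b v ^ n = ev b u := by
    intro n
    induction n with
    | zero => exact ⟨_, by rw [pow_zero]; exact hone.symm⟩
    | succ n ih =>
      obtain ⟨u, hu⟩ := ih
      exact ⟨mulv r γ u v, by rw [pow_succ, hu, hmul]⟩
  have htr : ∀ n : ℕ, 0 < n → Algebra.trace ℚ E (ev b v ^ n) = 0 := by
    intro n hn
    obtain ⟨m, rfl⟩ : ∃ m, n = m + 1 := ⟨n - 1, by omega⟩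
    obtain ⟨u, hu⟩ := hpow m
    rw [pow_succ, hu, ← hmul, trace_ev h, trace_mulv, hTv, dotProduct_zero, Int.cast_zero]
  have hnil := ht E (Algebra.lmul ℚ E (ev b v)) (fun i hi => by
    rw [← map_pow]
    exact htr i hi)
  obtain ⟨n, hn⟩ := hnil
  rw [← map_pow] at hn
  have h1 : ev b v ^ n = 0 := by
    have := LinearMap.congr_fun hn 1
    simpa using this
  have h2 : ev b v = 0 := IsReduced.eq_zero _ ⟨n, h1⟩
  have h3 : ev b (0 : Fin r → ℤ) = 0 := by
    unfold ev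
    exact Finset.sum_eq_zero fun i _ => by simp
  exact hv (hinj (h2.trans h3.symm))

theorem mulv_dvd_left {p : ℤ} (u v : Fin r → ℤ) (hu : ∀ l, p ∣ u l) (l : Fin r) :
    p ∣ mulv r γ u v l := by
  unfold mulv
  refine Finset.dvd_sum fun i _ => Finset.dvd_sum fun j _ => ?_
  exact Dvd.dvd.mul_right (Dvd.dvd.mul_right (hu i) _) _

theorem Lm_dvd {p : ℤ} (u : Fin r → ℤ) (hu : ∀ l, p ∣ u l) (i j : Fin r) :
    p ∣ Lm r γ u i j := by
  unfold Lm
  exact Finset.dvd_sum fun i _ => Dvd.dvd.mul_right (hu i) _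

/-- The order is reduced modulo the primes not dividing the discriminant. -/
theorem redMod (hb : EBS) (h : IsOrder r γ E b) {p : ℕ} (hp : p.Prime)
    (hd : ¬ p ∣ (TT r γ).det.natAbs) : RedMod r γ p := by
  intro v hv
  have : Fact p.Prime := ⟨hp⟩
  obtain ⟨hmul, hinj, hone, _⟩ := hb r γ E b h
  have key : ∀ j : Fin r, (p : ℤ) ∣ (Pi.single j 1) ⬝ᵥ (TT r γ *ᵥ v) := by
    intro j
    rw [← trace_mulv]
    set w := mulv r γ (Pi.single j 1) v with hw
    have h1 : mulv r γ w w = mulv r γ (mulv r γ v v) (mulv r γ (Pi.single j 1) (Pi.single j 1)) := by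
      apply hinj
      simp only [hw, hmul]
      ring
    have h2 : ∀ a c, (p : ℤ) ∣ (Lm r γ w * Lm r γ w) a c := by
      intro a c
      rw [← Lm_mul hb h, h1]
      exact Lm_dvd _ (fun l => mulv_dvd_left _ _ hv l) a c
    have h3 : IsNilpotent ((Lm r γ w).map (Int.castRingHom (ZMod p))) := by
      refine ⟨2, ?_⟩
      rw [pow_two, ← Matrix.map_mul]
      ext a c
      rw [Matrix.map_apply, Matrix.zero_apply]
      exact (ZMod.intCast_zmod_eq_zero_iff_dvd _ p).2 (h2 a c)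
    have h4 := (Matrix.isNilpotent_trace_of_isNilpotent h3).eq_zero
    have h5 : ((Lm r γ w).map (Int.castRingHom (ZMod p))).trace = (((Lm r γ w).trace : ℤ) : ZMod p) := by
      unfold Matrix.trace
      simp
    rw [h5] at h4
    exact (ZMod.intCast_zmod_eq_zero_iff_dvd _ p).1 h4
  have key2 : ∀ j : Fin r, (p : ℤ) ∣ (TT r γ *ᵥ v) j := by
    intro j
    have := key j
    rwa [single_dotProduct, one_mul] at this
  intro l
  have h6 : (p : ℤ) ∣ (TT r γ).det * v l := by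
    have h7 : ((TT r γ).adjugate *ᵥ (TT r γ *ᵥ v)) l = (TT r γ).det * v l := by
      rw [Matrix.mulVec_mulVec, Matrix.adjugate_mul, Matrix.smul_mulVec, Matrix.one_mulVec]
      rfl
    rw [← h7]
    unfold Matrix.mulVec dotProduct at key2 ⊢
    exact Finset.dvd_sum fun i _ => Dvd.dvd.mul_left (key2 i) _
  rcases (Nat.prime_iff_prime_int.1 hp).dvd_or_dvd h6 with h8 | h8
  · exact absurd (Int.natCast_dvd.1 h8) hd
  · exact h8

end Order

theorem det_bound {r N : ℕ} {γ : List (List (List ℤ))} (hr : r ≤ N)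
    (hγ : ∀ i j l, |gm γ i j l| < 2 ^ N) : (TT r γ).det.natAbs.size ≤ 5 * N ^ 2 + 1 := by
  have hN : (r : ℤ) ≤ 2 ^ N := by
    exact_mod_cast hr.trans (Nat.lt_two_pow_self).le
  have hr0 : (0 : ℤ) ≤ r := by positivity
  have h1 : ∀ l, |tau r γ l| ≤ 2 ^ (2 * N) := by
    intro l
    unfold tau
    calc |∑ k : Fin r, gm γ l k k| ≤ ∑ k : Fin r, |gm γ l k k| := Finset.abs_sum_le_sum_abs _ _
      _ ≤ ∑ _k : Fin r, (2 : ℤ) ^ N := Finset.sum_le_sum fun k _ => (hγ _ _ _).le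
      _ = r * 2 ^ N := by simp
      _ ≤ 2 ^ N * 2 ^ N := by gcongr
      _ = 2 ^ (2 * N) := by rw [← pow_add, two_mul]
  have h2 : ∀ i j, |TT r γ i j| ≤ 2 ^ (4 * N) := by
    intro i j
    unfold TT
    calc |∑ l : Fin r, gm γ i j l * tau r γ l| ≤ ∑ l : Fin r, |gm γ i j l * tau r γ l| :=
          Finset.abs_sum_le_sum_abs _ _
      _ ≤ ∑ _l : Fin r, (2 : ℤ) ^ N * 2 ^ (2 * N) := by
          refine Finset.sum_le_sum fun l _ => ?_
          rw [abs_mul]
          exact mul_le_mul (hγ _ _ _).le (h1 l) (abs_nonneg _) (by positivity)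
      _ = r * (2 ^ N * 2 ^ (2 * N)) := by simp
      _ ≤ 2 ^ N * (2 ^ N * 2 ^ (2 * N)) := by gcongr
      _ = 2 ^ (4 * N) := by rw [← pow_add, ← pow_add]; congr 1; ring
  have h3 : |(TT r γ).det| ≤ (Fintype.card (Fin r)).factorial • ((2 : ℤ) ^ (4 * N)) ^ Fintype.card (Fin r) :=
    Matrix.det_le (abv := AbsoluteValue.abs) h2
  rw [Fintype.card_fin, nsmul_eq_mul] at h3
  have h4 : ((r.factorial : ℕ) : ℤ) ≤ 2 ^ (N ^ 2) := by
    have : r.factorial ≤ 2 ^ (N ^ 2) := by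
      calc r.factorial ≤ r ^ r := Nat.factorial_le_pow r
        _ ≤ (2 ^ N) ^ r := Nat.pow_le_pow_left (hr.trans (Nat.lt_two_pow_self).le) _
        _ ≤ (2 ^ N) ^ N := Nat.pow_le_pow_right (by positivity) hr
        _ = 2 ^ (N ^ 2) := by rw [← pow_mul, pow_two]
    exact_mod_cast this
  have h5 : |(TT r γ).det| ≤ 2 ^ (5 * N ^ 2) := by
    calc |(TT r γ).det| ≤ (r.factorial : ℤ) * ((2 : ℤ) ^ (4 * N)) ^ r := h3
      _ ≤ 2 ^ (N ^ 2) * ((2 : ℤ) ^ (4 * N)) ^ N := by
          have : ((2 : ℤ) ^ (4 * N)) ^ r ≤ ((2 : ℤ) ^ (4 * N)) ^ N :=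
            pow_le_pow_right₀ (one_le_pow₀ (by norm_num)) hr
          gcongr
      _ = 2 ^ (5 * N ^ 2) := by rw [← pow_mul, ← pow_add]; congr 1; ring
  rw [Nat.size_le]
  have h6 : (((TT r γ).det.natAbs : ℕ) : ℤ) < ((2 ^ (5 * N ^ 2 + 1) : ℕ) : ℤ) := by
    rw [Int.natCast_natAbs]
    refine h5.trans_lt ?_
    push_cast
    exact pow_lt_pow_right₀ (by norm_num) (by omega)
  exact_mod_cast h6

end ED

theorem ed (ht : TRNS) (hb : EBS) : EDS := by
  refine ⟨5 * Polynomial.X ^ 2 + 1, fun N r γ E _ _ b hred h hr hγ => ?_⟩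
  refine ⟨(ED.TT r γ).det.natAbs, Int.natAbs_ne_zero.2 (ED.det_ne_zero ht hb h hred), ?_,
    fun p hp hd => ED.redMod hb h hp hd⟩
  have he : (5 * Polynomial.X ^ 2 + 1 : Polynomial ℕ).eval N = 5 * N ^ 2 + 1 := by
    simp
  rw [he]
  exact ED.det_bound hr hγ

end Pool.Agent.H420_NCF
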