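import Pool.Agent.H420_NCF.Spec

/-!
# assembling the correspondence between primitive idempotents mod p and maximal ideals (module EL)
-/

namespace Pool.Agent.H420_NCF

open Pool.Agent.NPC Pool.Agent.NPC.H532 Pool.Agent.H687R2.LLL
open scoped Matrix

namespace EL

/-- In a reduced finite-dimensional commutative algebra, the intersection of the maximal ideals is
zero. -/
theorem eq_zero_of_max {E : Type} [CommRing E] [IsArtinianRing E] [IsReduced E] {x : E}
    (h : ∀ I : Ideal E, I.IsMaximal → x ∈ I) : x = 0 := by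
  have h1 : x ∈ nilradical E := by
    rw [nilradical_eq_sInf, Submodule.mem_sInf]
    intro J hJ
    have hJ' : Ideal.IsPrime J := hJ
    have hJm : Ideal.IsMaximal J := inferInstance
    exact h J hJm
  exact (mem_nilradical.1 h1).eq_zero

theorem vz_oneq {r : ℕ} {γ : List (List (List ℤ))} (hr : γ.length = r) (l : Fin r) :
    vz r (oneq γ) l = if (l : ℕ) = 0 then 1 else 0 := by
  unfold vz oneq
  rw [List.getD_eq_getElem?_getD, List.getElem?_map, List.getElem?_range (by rw [hr]; exact l.2)]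
  rfl

end EL

open EL in
theorem el (hb : EBS) (h1 : EL1S) (ha : ELaS) : ELS := by
  classical
  obtain ⟨q₀, h1⟩ := h1
  obtain ⟨q₁, q₂, ha⟩ := ha q₀
  refine ⟨q₁, q₂, fun N r γ E _ _ b hred hord hrN hγ p hp hredp => ?_⟩
  have hfin : Module.Finite ℚ E := Module.Finite.of_basis b
  have hart : IsArtinianRing E := IsArtinianRing.of_finite ℚ E
  obtain ⟨hmulv, hinj, hone, hS⟩ := hb r γ E b hord
  obtain ⟨S, _, ρ, hsurj, hρ0, hρm, hρ1⟩ := hS p
  -- the idempotents
  have hy : ∀ I : MaximalSpectrum E, ∃ (y : Fin r → ℤ) (n : ℕ), 0 < n ∧ n < 2 ^ q₀.eval N ∧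
      (∀ i, |y i| < 2 ^ q₀.eval N) ∧
      ev b y * ev b y = (n : ℚ) • ev b y ∧ (∀ x, x ∈ I.asIdeal ↔ ev b y * x = 0) ∧
      ∀ p : ℕ, p.Prime → RedMod r γ p → ¬ p ∣ n ∧ ∃ l, ¬ (p : ℤ) ∣ y l := fun I =>
    h1 N r γ E b hred hord hrN hγ I.asIdeal I.isMaximal
  choose y n hn0 hnlt hylt hyy hyI hyp using hy
  have : Fintype (MaximalSpectrum E) := Fintype.ofFinite _
  have hpn : ∀ I, ¬ p ∣ n I := fun I => (hyp I p hp hredp).1
  have hpy : ∀ I, ∃ l, ¬ (p : ℤ) ∣ y I l := fun I => (hyp I p hp hredp).2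
  -- `y I` lies in all the other maximal ideals
  have hmem : ∀ I J : MaximalSpectrum E, I ≠ J → ev b (y I) ∈ J.asIdeal := by
    intro I J hIJ
    have : ∃ x ∈ I.asIdeal, x ∉ J.asIdeal := by
      by_contra hcon
      push Not at hcon
      apply hIJ
      have hle : I.asIdeal ≤ J.asIdeal := hcon
      exact MaximalSpectrum.ext (I.isMaximal.eq_of_le J.isMaximal.ne_top hle)
    obtain ⟨x, hxI, hxJ⟩ := this
    have h0 := (hyI I x).1 hxI
    have hJp : J.asIdeal.IsPrime := J.isMaximal.isPrime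
    have h2 : ev b (y I) * x ∈ J.asIdeal := by rw [h0]; exact J.asIdeal.zero_mem
    exact (hJp.mem_or_mem h2).resolve_right hxJ
  have hortho : ∀ I J : MaximalSpectrum E, I ≠ J → ev b (y I) * ev b (y J) = 0 := by
    intro I J hIJ
    apply eq_zero_of_max
    intro K hK
    by_cases hIK : I = ⟨K, hK⟩
    · have hJK : J ≠ ⟨K, hK⟩ := fun h => hIJ (hIK.trans h.symm)
      exact K.mul_mem_left _ (hmem J ⟨K, hK⟩ hJK)
    · exact K.mul_mem_right _ (hmem I ⟨K, hK⟩ hIK)
  have hself : ∀ I : MaximalSpectrum E, (n I : ℚ) • (1 : E) - ev b (y I) ∈ I.asIdeal := by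
    intro I
    rw [hyI, mul_sub, hyy, mul_smul_comm, mul_one, sub_self]
  -- the sum of the idempotents
  let Mc : MaximalSpectrum E → ℕ := fun I => ∏ J ∈ Finset.univ.erase I, n J
  let N₀ : ℕ := ∏ J, n J
  have hMN : ∀ I, n I * Mc I = N₀ := fun I => Finset.mul_prod_erase _ _ (Finset.mem_univ I)
  have hsumE : ∑ I, (Mc I : ℚ) • ev b (y I) = (N₀ : ℚ) • (1 : E) := by
    rw [← sub_eq_zero]
    apply eq_zero_of_max
    intro K hK
    let K' : MaximalSpectrum E := ⟨K, hK⟩
    have hsplit : ∑ I, (Mc I : ℚ) • ev b (y I) - (N₀ : ℚ) • (1 : E) =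
        ∑ I ∈ Finset.univ.erase K', (Mc I : ℚ) • ev b (y I) -
          (Mc K' : ℚ) • ((n K' : ℚ) • (1 : E) - ev b (y K')) := by
      rw [← Finset.add_sum_erase _ _ (Finset.mem_univ K'), smul_sub, smul_smul, ← hMN K']
      push_cast
      rw [mul_comm (n K' : ℚ)]
      abel
    rw [hsplit]
    refine K.sub_mem (Ideal.sum_mem _ fun I hI => ?_) ?_
    · rw [Algebra.smul_def]
      exact K.mul_mem_left _ (hmem I K' (Finset.ne_of_mem_erase hI))
    · rw [Algebra.smul_def]
      exact K.mul_mem_left _ (hself K')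
  have hev_smul : ∀ (c : ℤ) (v : Fin r → ℤ), ev b (c • v) = (c : ℚ) • ev b v := by
    intro c v
    unfold ev
    rw [Finset.smul_sum]
    refine Finset.sum_congr rfl fun i _ => ?_
    rw [smul_smul, Pi.smul_apply, smul_eq_mul]
    push_cast
    rfl
  have hev_add : ∀ v w : Fin r → ℤ, ev b (v + w) = ev b v + ev b w := by
    intro v w
    unfold ev
    rw [← Finset.sum_add_distrib]
    refine Finset.sum_congr rfl fun i _ => ?_
    rw [← add_smul, Pi.add_apply]
    push_cast
    rfl
  have hev_zero : ev b (0 : Fin r → ℤ) = 0 := by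
    unfold ev
    exact Finset.sum_eq_zero fun i _ => by simp
  have hev_sum : ∀ (s : Finset (MaximalSpectrum E)) (g : MaximalSpectrum E → (Fin r → ℤ)),
      ev b (∑ I ∈ s, g I) = ∑ I ∈ s, ev b (g I) := by
    intro s g
    induction s using Finset.induction_on with
    | empty => simpa using hev_zero
    | insert a s has ih => rw [Finset.sum_insert has, Finset.sum_insert has, hev_add, ih]
  have hsumZ : ∑ I, (Mc I : ℤ) • y I = (N₀ : ℤ) • vz r (oneq γ) := by
    apply hinj
    rw [hev_sum, hev_smul, hone]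
    simp only [hev_smul]
    exact_mod_cast hsumE
  -- the images in the residue ring
  have hρs : ∀ (c : ℤ) (v : Fin r → ℤ), ρ (c • v) = (c : S) * ρ v := by
    intro c v
    rw [map_zsmul, zsmul_eq_mul]
  have hcan : ∀ (c : ℕ) (s : S), ¬ p ∣ c → (c : S) * s = 0 → s = 0 := by
    intro c s hc hcs
    obtain ⟨v, rfl⟩ := hsurj s
    have h2 : ρ ((c : ℤ) • v) = 0 := by rw [hρs]; exact_mod_cast hcs
    rw [hρ0] at h2 ⊢
    intro l
    have h3 := h2 l
    rw [Pi.smul_apply, smul_eq_mul] at h3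
    rcases (Nat.prime_iff_prime_int.1 hp).dvd_or_dvd h3 with h4 | h4
    · exact absurd (Int.natCast_dvd_natCast.1 h4) hc
    · exact h4
  have hN₀ : ¬ p ∣ N₀ := by
    intro h
    obtain ⟨I, _, hI⟩ := (Nat.Prime.prime hp).exists_mem_finset_dvd h
    exact hpn I hI
  have hYsum : ∑ I, (Mc I : S) * ρ (y I) = (N₀ : S) := by
    have h2 := congrArg ρ hsumZ
    rw [map_sum, hρs, hρ1, mul_one] at h2
    simp only [hρs] at h2
    exact_mod_cast h2
  have hYY : ∀ I, ρ (y I) * ρ (y I) = (n I : S) * ρ (y I) := by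
    intro I
    rw [← hρm]
    have h2 : mulv r γ (y I) (y I) = (n I : ℤ) • y I := by
      apply hinj
      rw [hmulv, hyy, hev_smul]
      norm_cast
    rw [h2, hρs]
    norm_cast
  have hYo : ∀ I J, I ≠ J → ρ (y I) * ρ (y J) = 0 := by
    intro I J hIJ
    rw [← hρm]
    have h2 : mulv r γ (y I) (y J) = 0 := by
      apply hinj
      rw [hmulv, hortho I J hIJ, hev_zero]
    rw [h2, map_zero]
  have hYne : ∀ I, ρ (y I) ≠ 0 := by
    intro I h
    obtain ⟨l, hl⟩ := hpy I
    exact hl ((hρ0 _).1 h l)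
  -- idempotents modulo `p`
  have hinv : ∀ I, ∃ k : ℤ, (k : S) * (n I : S) = 1 := by
    intro I
    have hcop : IsCoprime (n I : ℤ) (p : ℤ) :=
      Nat.isCoprime_iff_coprime.2 ((Nat.Prime.coprime_iff_not_dvd hp).2 (hpn I)).symm
    obtain ⟨u, v, huv⟩ := hcop
    refine ⟨u, ?_⟩
    have hp0 : (p : S) = 0 := by
      have : ρ ((p : ℤ) • vz r (oneq γ)) = 0 := by
        rw [hρ0]
        intro l
        rw [Pi.smul_apply, smul_eq_mul]
        exact dvd_mul_right _ _
      rw [hρs, hρ1, mul_one] at this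
      exact_mod_cast this
    have h2 : ((u * (n I : ℤ) + v * (p : ℤ) : ℤ) : S) = ((1 : ℤ) : S) := by rw [huv]
    push_cast at h2
    rw [hp0, mul_zero, add_zero] at h2
    exact h2
  choose kk hkk using hinv
  have hidem_iff : ∀ v : Fin r → ℤ, IdemMod r γ p v ↔ ρ v * ρ v = ρ v := by
    intro v
    rw [← hρm, ← sub_eq_zero, ← map_sub, hρ0]
    rfl
  have hFidem : ∀ I, IdemMod r γ p (kk I • y I) := by
    intro I
    rw [hidem_iff, hρs]
    calc (kk I : S) * ρ (y I) * ((kk I : S) * ρ (y I))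
        = (kk I : S) * (kk I : S) * (ρ (y I) * ρ (y I)) := by ring
      _ = (kk I : S) * ((kk I : S) * (n I : S)) * ρ (y I) := by rw [hYY]; ring
      _ = (kk I : S) * ρ (y I) := by rw [hkk, mul_one]
  have hkY : ∀ (s : S) (I), s * ((kk I : S) * ρ (y I)) = 0 ↔ s * ρ (y I) = 0 := by
    intro s I
    constructor
    · intro h
      have : (n I : S) * (s * ((kk I : S) * ρ (y I))) = 0 := by rw [h, mul_zero]
      calc s * ρ (y I) = ((kk I : S) * (n I : S)) * (s * ρ (y I)) := by rw [hkk, one_mul]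
        _ = (n I : S) * (s * ((kk I : S) * ρ (y I))) := by ring
        _ = 0 := this
    · intro h
      calc s * ((kk I : S) * ρ (y I)) = (kk I : S) * (s * ρ (y I)) := by ring
        _ = 0 := by rw [h, mul_zero]
  have hprim : ∀ e, PrimMod r γ p e → ∀ I, ρ e * ρ (y I) ≠ 0 →
      ρ e * ((kk I : S) * ρ (y I)) = ρ e := by
    intro e he I hne
    rcases he.2.2 (kk I • y I) (hFidem I) with h | h
    · exfalso
      apply hne
      rw [← hkY, ← hρs, ← hρm, hρ0]
      exact h
    · rw [← sub_eq_zero, ← hρs, ← hρm, ← map_sub, hρ0]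
      exact h
  have hnz_iff : ∀ e I, (∃ l, ¬ (p : ℤ) ∣ mulv r γ e (y I) l) ↔ ρ e * ρ (y I) ≠ 0 := by
    intro e I
    rw [← hρm, Ne, hρ0]
    push Not
    rfl
  have hex : ∀ e, PrimMod r γ p e → ∃ I, ρ e * ρ (y I) ≠ 0 := by
    intro e he
    by_contra hcon
    push Not at hcon
    obtain ⟨l, hl⟩ := he.2.1
    apply hl
    have h2 : (N₀ : S) * ρ e = 0 := by
      rw [← hYsum, Finset.sum_mul]
      refine Finset.sum_eq_zero fun I _ => ?_
      rw [mul_assoc, mul_comm (ρ (y I)), hcon I, mul_zero]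
    exact (hρ0 e).1 (hcan _ _ hN₀ h2) l
  -- the ideals
  let P : (Fin r → ℤ) → Ideal E := fun e =>
    if h : ∃ I, ρ e * ρ (y I) ≠ 0 then (Classical.choose h).asIdeal else ⊤
  have hP : ∀ e, PrimMod r γ p e → ∃ I : MaximalSpectrum E, P e = I.asIdeal ∧
      ρ e * ρ (y I) ≠ 0 := by
    intro e he
    have h := hex e he
    refine ⟨Classical.choose h, ?_, Classical.choose_spec h⟩
    simp only [P]
    rw [dif_pos h]
  refine ⟨P, fun e he => ?_, fun es hes hsum x hx => ?_⟩
  · obtain ⟨I, hPI, hne⟩ := hP e he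
    rw [hPI]
    refine ⟨I.isMaximal, ?_⟩
    exact ha N r γ E b hred hord hrN hγ p hp hredp I.asIdeal (y I) (n I) I.isMaximal (hn0 I)
      (hnlt I) (hylt I) (hyy I) (hyI I) (hpn I) e he ((hnz_iff e I).2 hne)
  · apply eq_zero_of_max
    intro K hK
    let K' : MaximalSpectrum E := ⟨K, hK⟩
    -- the sum of the `e` is one
    have hsum1 : (es.map ρ).sum = 1 := by
      have h2 : es.sum = (fun l => (es.map fun e => e l).sum) := by
        funext l
        clear hsum hx hes
        induction es with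
        | nil => simp
        | cons e es ih => simp only [List.sum_cons, List.map_cons, Pi.add_apply, ih]
      have h3 : ρ (es.sum - vz r (oneq γ)) = 0 := by
        rw [hρ0]
        intro l
        rw [Pi.sub_apply, h2, vz_oneq hord.len]
        exact hsum l
      rw [map_sub, hρ1, sub_eq_zero, map_list_sum] at h3
      exact h3
    have hKne : ρ (y K') ≠ 0 := hYne K'
    have hexe : ∃ e ∈ es, ρ e * ρ (y K') ≠ 0 := by
      by_contra hcon
      push Not at hcon
      apply hKne
      rw [← one_mul (ρ (y K')), ← hsum1]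
      clear hsum hx hes hsum1
      induction es with
      | nil => simp
      | cons e es ih =>
        rw [List.map_cons, List.sum_cons, add_mul, hcon e (by simp), zero_add]
        exact ih fun e' he' => hcon e' (by simp [he'])
    obtain ⟨e, he, hne⟩ := hexe
    obtain ⟨I, hPI, hneI⟩ := hP e (hes e he)
    have hIK : I = K' := by
      by_contra hIK
      have h2 := hprim e (hes e he) K' hne
      have h3 := hprim e (hes e he) I hneI
      apply hne
      rw [← h3]
      calc ρ e * ((kk I : S) * ρ (y I)) * ρ (y K') = ρ e * (kk I : S) * (ρ (y I) * ρ (y K')) := by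
            ring
        _ = 0 := by rw [hYo I K' hIK, mul_zero]
    have h4 := hx e he
    rw [hPI, hIK] at h4
    exact h4

end Pool.Agent.H420_NCF
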