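import Pool.Agent.H420_NCF.Spec

/-!
# bounds for the idempotents of a commutative algebra (module EL1)
-/

namespace Pool.Agent.H420_NCF

open Pool.Agent.NPC Pool.Agent.NPC.H532 Pool.Agent.H687R2.LLL
open scoped Matrix

namespace EL1

section

variable {E : Type} [CommRing E] [Algebra ℚ E]

/-- The idempotent of a maximal ideal. -/
theorem exists_idem [FiniteDimensional ℚ E] [IsReduced E] (I : Ideal E) (hI : I.IsMaximal) :
    ∃ ε : E, ε * ε = ε ∧ ε ≠ 0 ∧ (1 - ε) ∈ I ∧ ∀ x, x ∈ I ↔ ε * x = 0 := by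
  classical
  have : IsArtinianRing E := IsArtinianRing.of_finite ℚ E
  set φ := IsArtinianRing.equivPi E with hφ
  set m₀ : MaximalSpectrum E := ⟨I, hI⟩ with hm₀
  set s : (∀ J : MaximalSpectrum E, E ⧸ J.asIdeal) := Pi.single m₀ 1 with hs
  set ε := φ.symm s with hε
  have hφε : φ ε = s := φ.apply_symm_apply s
  have hss : s * s = s := by
    funext J
    by_cases h : J = m₀
    · subst h; simp [hs]
    · simp [hs, Pi.single_eq_of_ne h]
  have hmem : ∀ x : E, x ∈ I ↔ φ x m₀ = 0 := by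
    intro x
    rw [hφ, IsArtinianRing.equivPi_apply]
    exact (Ideal.Quotient.eq_zero_iff_mem).symm
  have hone : φ ε m₀ = 1 := by rw [hφε, hs, Pi.single_eq_same]
  refine ⟨ε, ?_, ?_, ?_, ?_⟩
  · apply φ.injective
    rw [map_mul, hφε, hss]
  · intro h
    rw [h, map_zero] at hone
    have hnt : Nontrivial (E ⧸ m₀.asIdeal) := Ideal.Quotient.nontrivial_iff.2 hI.ne_top
    exact zero_ne_one hone
  · rw [hmem, map_sub, map_one, Pi.sub_apply, hone, Pi.one_apply, sub_self]
  · intro x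
    rw [hmem]
    constructor
    · intro h
      apply φ.injective
      rw [map_mul, map_zero, hφε]
      funext J
      by_cases hJ : J = m₀
      · subst hJ
        rw [Pi.mul_apply, h, mul_zero, Pi.zero_apply]
      · rw [Pi.mul_apply, hs, Pi.single_eq_of_ne hJ, zero_mul, Pi.zero_apply]
    · intro h
      have := congrArg (fun z => φ z m₀) h
      simp only [map_mul, Pi.mul_apply, hone, one_mul, map_zero, Pi.zero_apply] at this
      exact this

theorem trace_idem [FiniteDimensional ℚ E] (I : Ideal E) (ε : E)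
    (h2 : 1 - ε ∈ I) (h3 : ∀ x, x ∈ I ↔ ε * x = 0) (x : E) :
    Algebra.trace ℚ E (ε * x) = Algebra.trace ℚ (E ⧸ I) (Ideal.Quotient.mk I x) := by
  set π : E →ₗ[ℚ] E ⧸ I := (Ideal.Quotient.mkₐ ℚ I).toLinearMap with hπ
  have hπa : ∀ y, π y = Ideal.Quotient.mk I y := fun y => rfl
  have hsurj : Function.Surjective π := Ideal.Quotient.mk_surjective
  obtain ⟨s, hs⟩ := π.exists_rightInverse_of_surjective (LinearMap.range_eq_top.2 hsurj)
  have hs' : ∀ k, π (s k) = k := fun k => by
    have := congrArg (fun L => L k) hs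
    simpa using this
  set ι : (E ⧸ I) →ₗ[ℚ] E := (Algebra.lmul ℚ E ε).comp s with hι
  have hιa : ∀ y, ι (π y) = ε * y := by
    intro y
    have h4 : s (π y) - y ∈ I := by
      rw [← Ideal.Quotient.eq_zero_iff_mem, map_sub, ← hπa, ← hπa, hs', sub_self]
    have h5 := (h3 _).1 h4
    rw [mul_sub, sub_eq_zero] at h5
    exact h5
  have hε1 : Ideal.Quotient.mk I ε = 1 := by
    have := Ideal.Quotient.eq_zero_iff_mem.2 h2
    rw [map_sub, map_one, sub_eq_zero] at this
    exact this.symm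
  have e1 : Algebra.lmul ℚ E (ε * x) =
      ι.comp ((Algebra.lmul ℚ (E ⧸ I) (Ideal.Quotient.mk I x)).comp π) := by
    ext y
    change ε * x * y = ι (Ideal.Quotient.mk I x * π y)
    rw [hπa, ← map_mul, ← hπa, hιa, mul_assoc]
  have e2 : ((Algebra.lmul ℚ (E ⧸ I) (Ideal.Quotient.mk I x)).comp π).comp ι =
      Algebra.lmul ℚ (E ⧸ I) (Ideal.Quotient.mk I x) := by
    ext k
    change Ideal.Quotient.mk I x * π (ε * s k) = Ideal.Quotient.mk I x * k
    rw [hπa, map_mul, hε1, one_mul, show Ideal.Quotient.mk I (s k) = k from hs' k]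
  rw [Algebra.trace_apply, Algebra.trace_apply, e1, LinearMap.trace_comp_comm', e2]

variable {r : ℕ} {γ : List (List (List ℤ))} {b : Module.Basis (Fin r) ℚ E}

theorem norm_emb_le (hO : IsOrder r γ E b) {N : ℕ} (hγ : ∀ i j l, |gm γ i j l| < 2 ^ N)
    (σ : E →ₐ[ℚ] ℂ) (i : Fin r) : ‖σ (b i)‖ ≤ (r : ℝ) * 2 ^ N := by
  have : Nonempty (Fin r) := ⟨⟨0, hO.pos⟩⟩
  obtain ⟨j, -, hj⟩ := Finset.exists_max_image Finset.univ (fun j => ‖σ (b j)‖)
    (Finset.univ_nonempty)
  have h0 : ‖σ (b ⟨0, hO.pos⟩)‖ = 1 := by rw [hO.one, map_one, norm_one]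
  have hpos : 0 < ‖σ (b j)‖ := by
    have := hj ⟨0, hO.pos⟩ (Finset.mem_univ _)
    rw [h0] at this
    linarith
  have h1 : ‖σ (b i)‖ * ‖σ (b j)‖ ≤ ((r : ℝ) * 2 ^ N) * ‖σ (b j)‖ := by
    rw [← norm_mul, ← map_mul, hO.mul, map_sum]
    refine (norm_sum_le _ _).trans ?_
    have : ∀ l ∈ (Finset.univ : Finset (Fin r)), ‖σ ((gm γ i j l : ℚ) • b l)‖
        ≤ 2 ^ N * ‖σ (b j)‖ := by
      intro l _
      rw [map_smul]
      have e : ((gm γ i j l : ℚ) • σ (b l) : ℂ) = (gm γ i j l : ℂ) * σ (b l) := by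
        rw [Algebra.smul_def]
        simp
      rw [e, norm_mul]
      apply mul_le_mul _ (hj l (Finset.mem_univ _)) (norm_nonneg _) (by positivity)
      rw [Complex.norm_intCast]
      have := hγ i j l
      exact_mod_cast this.le
    refine (Finset.sum_le_sum this).trans ?_
    rw [Finset.sum_const, Finset.card_univ, Fintype.card_fin, nsmul_eq_mul]
    linarith
  exact le_of_mul_le_mul_right h1 hpos

/-- The trace on the residue field is a small integer. -/
theorem trace_int (hO : IsOrder r γ E b) {N : ℕ} (hγ : ∀ i j l, |gm γ i j l| < 2 ^ N)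
    (I : Ideal E) (hI : I.IsMaximal) (i : Fin r) :
    ∃ t : ℤ, (t : ℚ) = Algebra.trace ℚ (E ⧸ I) (Ideal.Quotient.mk I (b i)) ∧
      |t| ≤ r * (r * 2 ^ N) := by
  classical
  have hfin : FiniteDimensional ℚ E := Module.Finite.of_basis b
  let _ : Field (E ⧸ I) := Ideal.Quotient.field I
  have hfinK : FiniteDimensional ℚ (E ⧸ I) := inferInstance
  set N' : Submodule ℤ (E ⧸ I) :=
    Submodule.span ℤ (Set.range fun l => Ideal.Quotient.mk I (b l)) with hN'
  have hint : IsIntegral ℤ (Ideal.Quotient.mk I (b i)) := by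
    refine isIntegral_of_smul_mem_submodule (A := E ⧸ I) (M := E ⧸ I) N' ?_ ?_ _ ?_
    · intro h
      have : Ideal.Quotient.mk I (b ⟨0, hO.pos⟩) ∈ N' :=
        Submodule.subset_span ⟨_, rfl⟩
      rw [h, Submodule.mem_bot, hO.one, map_one] at this
      exact one_ne_zero this
    · exact Submodule.fg_span (Set.finite_range _)
    · intro z hz
      rw [hN'] at hz
      induction hz using Submodule.span_induction with
      | mem z hz =>
        obtain ⟨l, rfl⟩ := hz
        simp only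
        rw [smul_eq_mul, ← map_mul, hO.mul, map_sum]
        refine Submodule.sum_mem _ fun k _ => ?_
        have e : Ideal.Quotient.mk I ((gm γ i l k : ℚ) • b k) =
            (gm γ i l k) • Ideal.Quotient.mk I (b k) := by
          rw [Int.cast_smul_eq_zsmul, map_zsmul]
        rw [e]
        exact Submodule.smul_mem _ _ (Submodule.subset_span ⟨k, rfl⟩)
      | zero => rw [smul_zero]; exact Submodule.zero_mem _
      | add x y _ _ hx hy => rw [smul_add]; exact Submodule.add_mem _ hx hy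
      | smul c x _ hx => rw [smul_comm]; exact Submodule.smul_mem _ _ hx
  have hint2 : IsIntegral ℤ (Algebra.trace ℚ (E ⧸ I) (Ideal.Quotient.mk I (b i))) :=
    Algebra.isIntegral_trace hint
  obtain ⟨t, ht⟩ := IsIntegrallyClosed.isIntegral_iff.1 hint2
  refine ⟨t, by simpa using ht, ?_⟩
  have hsum := trace_eq_sum_embeddings (K := ℚ) (L := E ⧸ I) ℂ
    (x := Ideal.Quotient.mk I (b i))
  rw [← ht] at hsum
  have hcard : Fintype.card ((E ⧸ I) →ₐ[ℚ] ℂ) ≤ r := by
    rw [AlgHom.card ℚ (E ⧸ I) ℂ]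
    have h1 : Module.finrank ℚ (E ⧸ I) ≤ Module.finrank ℚ E :=
      LinearMap.finrank_le_finrank_of_surjective
        (f := (Ideal.Quotient.mkₐ ℚ I).toLinearMap) Ideal.Quotient.mk_surjective
    rw [Module.finrank_eq_card_basis b, Fintype.card_fin] at h1
    exact h1
  have hn : ‖((t : ℤ) : ℂ)‖ ≤ (r : ℝ) * (r * 2 ^ N) := by
    have e : ((t : ℤ) : ℂ) = ∑ σ : (E ⧸ I) →ₐ[ℚ] ℂ, σ (Ideal.Quotient.mk I (b i)) := by
      rw [← hsum]; simp
    rw [e]
    refine (norm_sum_le _ _).trans ?_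
    refine (Finset.sum_le_sum fun σ _ => (norm_emb_le hO hγ
      (σ.comp (Ideal.Quotient.mkₐ ℚ I)) i : ‖σ (Ideal.Quotient.mk I (b i))‖ ≤ _)).trans ?_
    rw [Finset.sum_const, Finset.card_univ, nsmul_eq_mul]
    apply mul_le_mul_of_nonneg_right _ (by positivity)
    exact_mod_cast hcard
  rw [Complex.norm_intCast] at hn
  exact_mod_cast hn

/-- The trace of a basis element. -/
def tl (γ : List (List (List ℤ))) (r : ℕ) (l : ℕ) : ℤ := ∑ k : Fin r, gm γ l k k

theorem trace_basis (hO : IsOrder r γ E b) (l : Fin r) :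
    Algebra.trace ℚ E (b l) = (tl γ r l : ℚ) := by
  classical
  rw [Algebra.trace_eq_matrix_trace b, Matrix.trace, tl, Int.cast_sum]
  refine Finset.sum_congr rfl fun k _ => ?_
  rw [Matrix.diag_apply, Algebra.leftMulMatrix_eq_repr_mul, hO.mul, map_sum]
  simp only [map_smul, Finsupp.coe_finsetSum, Finset.sum_apply, Finsupp.smul_apply,
    Module.Basis.repr_self, smul_eq_mul]
  rw [Finset.sum_eq_single k]
  · simp
  · intro j _ hj
    simp [hj]
  · intro h
    exact absurd (Finset.mem_univ _) h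

/-- The matrix of the trace form. -/
def TT (γ : List (List (List ℤ))) (r : ℕ) : Matrix (Fin r) (Fin r) ℤ :=
  fun i j => ∑ l : Fin r, gm γ i j l * tl γ r l

theorem TT_eq (hO : IsOrder r γ E b) (i j : Fin r) :
    ((TT γ r i j : ℤ) : ℚ) = Algebra.trace ℚ E (b i * b j) := by
  rw [hO.mul, map_sum, TT, Int.cast_sum]
  refine Finset.sum_congr rfl fun l _ => ?_
  rw [map_smul, trace_basis hO, smul_eq_mul, Int.cast_mul]

theorem tl_le {N : ℕ} (hγ : ∀ i j l, |gm γ i j l| < 2 ^ N) (l : ℕ) : |tl γ r l| ≤ r * 2 ^ N := by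
  rw [tl]
  refine (Finset.abs_sum_le_sum_abs _ _).trans ?_
  have h : ∀ k ∈ (Finset.univ : Finset (Fin r)), |gm γ l k k| ≤ 2 ^ N := fun k _ => (hγ l k k).le
  refine (Finset.sum_le_sum h).trans ?_
  rw [Finset.sum_const, Finset.card_univ, Fintype.card_fin, nsmul_eq_mul]

theorem TT_le {N : ℕ} (hγ : ∀ i j l, |gm γ i j l| < 2 ^ N) (i j : Fin r) :
    |TT γ r i j| ≤ r * (2 ^ N * (r * 2 ^ N)) := by
  rw [TT]
  refine (Finset.abs_sum_le_sum_abs _ _).trans ?_
  have : ∀ l ∈ (Finset.univ : Finset (Fin r)), |gm γ i j l * tl γ r l| ≤ 2 ^ N * (r * 2 ^ N) := by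
    intro l _
    rw [abs_mul]
    exact mul_le_mul (hγ i j l).le (tl_le hγ l) (abs_nonneg _) (by positivity)
  refine (Finset.sum_le_sum this).trans ?_
  rw [Finset.sum_const, Finset.card_univ, Fintype.card_fin, nsmul_eq_mul]

/-- The trace form is nondegenerate. -/
theorem det_ne_zero (ht : TRNS) [IsReduced E] (hO : IsOrder r γ E b) : (TT γ r).det ≠ 0 := by
  have hfin : FiniteDimensional ℚ E := Module.Finite.of_basis b
  intro h
  have hq : ((TT γ r).map (Int.castRingHom ℚ)).det = 0 := by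
    have := (Int.castRingHom ℚ).map_det (TT γ r)
    rw [h, map_zero] at this
    exact this.symm
  obtain ⟨v, hv0, hv⟩ := Matrix.exists_mulVec_eq_zero_iff.2 hq
  set x : E := ∑ i, v i • b i with hx
  have hx1 : ∀ j, Algebra.trace ℚ E (b j * x) = 0 := by
    intro j
    have h1 := congrFun hv j
    rw [Matrix.mulVec, dotProduct] at h1
    rw [hx, Finset.mul_sum, map_sum]
    refine Eq.trans (Finset.sum_congr rfl fun i _ => ?_) h1
    rw [mul_smul_comm, map_smul, smul_eq_mul, ← TT_eq hO, Matrix.map_apply, mul_comm]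
    rfl
  have hx2 : ∀ y, Algebra.trace ℚ E (y * x) = 0 := by
    intro y
    rw [← b.sum_repr y, Finset.sum_mul, map_sum]
    refine Finset.sum_eq_zero fun i _ => ?_
    rw [smul_mul_assoc, map_smul, hx1, smul_zero]
  have hnil := ht E (Algebra.lmul ℚ E x) (by
    intro i hi
    rw [← map_pow, ← Algebra.trace_apply]
    obtain ⟨k, rfl⟩ : ∃ k, i = k + 1 := ⟨i - 1, by omega⟩
    rw [pow_succ]
    exact hx2 _)
  obtain ⟨n, hn⟩ := hnil
  rw [← map_pow] at hn
  have hxn : x ^ n = 0 := by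
    have := congrArg (fun L => L 1) hn
    simpa using this
  have hx0 : x = 0 := eq_zero_of_pow_eq_zero hxn
  apply hv0
  funext i
  have := Fintype.linearIndependent_iff.1 b.linearIndependent v (by rw [← hx]; exact hx0) i
  exact this

theorem det_bound {N : ℕ} (hrN : r ≤ N) (A : Matrix (Fin r) (Fin r) ℤ)
    (hA : ∀ i j, |A i j| ≤ 2 ^ (4 * N)) : |A.det| ≤ 2 ^ (5 * N ^ 2) := by
  have h1 : |A.det| ≤ (Nat.factorial r) • (2 ^ (4 * N) : ℤ) ^ r := by
    have := Matrix.det_le (A := A) (abv := (AbsoluteValue.abs : AbsoluteValue ℤ ℤ))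
      (x := 2 ^ (4 * N)) hA
    simpa using this
  rw [nsmul_eq_mul] at h1
  have hrr : r < 2 ^ N := lt_of_le_of_lt hrN Nat.lt_two_pow_self
  have h2 : Nat.factorial r ≤ 2 ^ (N ^ 2) := by
    calc Nat.factorial r ≤ r ^ r := Nat.factorial_le_pow r
      _ ≤ (2 ^ N) ^ r := Nat.pow_le_pow_left hrr.le _
      _ ≤ (2 ^ N) ^ N := Nat.pow_le_pow_right (by positivity) hrN
      _ = 2 ^ (N ^ 2) := by rw [← pow_mul, pow_two]
  have h3 : ((2 : ℤ) ^ (4 * N)) ^ r ≤ 2 ^ (4 * N ^ 2) := by
    rw [← pow_mul]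
    apply pow_le_pow_right₀ (by norm_num)
    nlinarith
  refine h1.trans ?_
  calc (Nat.factorial r : ℤ) * (2 ^ (4 * N)) ^ r ≤ 2 ^ (N ^ 2) * 2 ^ (4 * N ^ 2) := by
        apply mul_le_mul _ h3 (by positivity) (by positivity)
        exact_mod_cast h2
    _ = 2 ^ (5 * N ^ 2) := by rw [← pow_add]; congr 1; ring

theorem ev_smul (c : ℤ) (y : Fin r → ℤ) : ev b (fun l => c * y l) = (c : ℚ) • ev b y := by
  rw [ev, ev, Finset.smul_sum]
  refine Finset.sum_congr rfl fun i _ => ?_
  rw [smul_smul, Int.cast_mul]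

theorem ev_repr (y : Fin r → ℤ) (l : Fin r) : b.repr (ev b y) l = (y l : ℚ) := by
  rw [ev, map_sum]
  simp only [map_smul, Finsupp.coe_finsetSum, Finset.sum_apply, Finsupp.smul_apply,
    Module.Basis.repr_self, smul_eq_mul]
  rw [Finset.sum_eq_single l]
  · simp
  · intro j _ hj
    simp [hj]
  · intro h
    exact absurd (Finset.mem_univ _) h

theorem nat_den {D : ℤ} {z : Fin r → ℤ} {ε : E} (hz : ev b z = (D : ℚ) • ε) :
    ∃ y : Fin r → ℤ, ev b y = (D.natAbs : ℚ) • ε := by
  rcases Int.natAbs_eq D with h | h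
  · refine ⟨z, ?_⟩
    have e : ((D.natAbs : ℕ) : ℚ) = ((D : ℤ) : ℚ) := by
      rw [← Int.cast_natCast (R := ℚ), ← h]
    rw [hz, e]
  · refine ⟨fun l => (-1) * z l, ?_⟩
    have e : ((D.natAbs : ℕ) : ℚ) = ((-D : ℤ) : ℚ) := by
      have h' : ((D.natAbs : ℕ) : ℤ) = -D := by omega
      rw [← Int.cast_natCast (R := ℚ), h']
    rw [ev_smul, hz, smul_smul, e]
    congr 1
    push_cast
    ring

/-- The coordinates of the idempotent have a small common denominator. -/
theorem exists_coords (ht : TRNS) [IsReduced E] (hO : IsOrder r γ E b) {N : ℕ} (hrN : r ≤ N)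
    (hγ : ∀ i j l, |gm γ i j l| < 2 ^ N) (I : Ideal E) (hI : I.IsMaximal) (ε : E)
    (h2 : 1 - ε ∈ I) (h3 : ∀ x, x ∈ I ↔ ε * x = 0) :
    ∃ (D : ℤ) (z : Fin r → ℤ), D ≠ 0 ∧ |D| ≤ 2 ^ (5 * N ^ 2) ∧ (∀ l, |z l| ≤ 2 ^ (5 * N ^ 2)) ∧
      ev b z = (D : ℚ) • ε := by
  classical
  have hfin : FiniteDimensional ℚ E := Module.Finite.of_basis b
  have hD := det_ne_zero ht hO
  choose τ hτ1 hτ2 using trace_int hO hγ I hI
  have hrr : (r : ℤ) ≤ 2 ^ N := by
    have : r < 2 ^ N := lt_of_le_of_lt hrN Nat.lt_two_pow_self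
    exact_mod_cast this.le
  have hr0 : (0 : ℤ) ≤ r := by positivity
  have hTT : ∀ i j, |TT γ r i j| ≤ 2 ^ (4 * N) := by
    intro i j
    refine (TT_le hγ i j).trans ?_
    calc (r : ℤ) * (2 ^ N * (r * 2 ^ N)) ≤ 2 ^ N * (2 ^ N * (2 ^ N * 2 ^ N)) := by gcongr
      _ = 2 ^ (4 * N) := by rw [← pow_add, ← pow_add, ← pow_add]; congr 1; ring
  have hττ : ∀ i, |τ i| ≤ 2 ^ (4 * N) := by
    intro i
    refine (hτ2 i).trans ?_
    calc (r : ℤ) * (r * 2 ^ N) ≤ 2 ^ N * (2 ^ N * 2 ^ N) := by gcongr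
      _ = 2 ^ (3 * N) := by rw [← pow_add, ← pow_add]; congr 1; ring
      _ ≤ 2 ^ (4 * N) := by
        apply pow_le_pow_right₀ (by norm_num)
        omega
  set z : Fin r → ℤ := fun l => ((TT γ r).updateCol l τ).det with hz
  refine ⟨(TT γ r).det, z, hD, det_bound hrN _ hTT, ?_, ?_⟩
  · intro l
    apply det_bound hrN
    intro i j
    rw [Matrix.updateCol_apply]
    split_ifs
    · exact hττ i
    · exact hTT i j
  · -- Cramer's rule
    set c : Fin r → ℚ := fun l => b.repr ε l with hc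
    set TQ : Matrix (Fin r) (Fin r) ℚ := (TT γ r).map (Int.castRingHom ℚ) with hTQ
    have hcε : ε = ∑ l, c l • b l := (b.sum_repr ε).symm
    have hsys : TQ *ᵥ c = fun i => (τ i : ℚ) := by
      funext i
      rw [hτ1 i, ← trace_idem I ε h2 h3, Matrix.mulVec, dotProduct]
      conv_rhs => rw [hcε]
      rw [Finset.sum_mul, map_sum]
      refine Finset.sum_congr rfl fun l _ => ?_
      rw [smul_mul_assoc, map_smul, smul_eq_mul, hTQ, Matrix.map_apply, mul_comm, mul_comm (b l)]
      congr 1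
      exact TT_eq hO i l
    have hcr : TQ.det • c = Matrix.cramer TQ (fun i => (τ i : ℚ)) := by
      rw [Matrix.cramer_eq_adjugate_mulVec, ← hsys, Matrix.mulVec_mulVec, Matrix.adjugate_mul,
        Matrix.smul_mulVec, Matrix.one_mulVec]
    have hdet : TQ.det = ((TT γ r).det : ℚ) := by
      have := (Int.castRingHom ℚ).map_det (TT γ r)
      exact this.symm
    have hzl : ∀ l, (z l : ℚ) = ((TT γ r).det : ℚ) * c l := by
      intro l
      have h4 := congrFun hcr l
      rw [Pi.smul_apply, smul_eq_mul, hdet, Matrix.cramer_apply] at h4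
      rw [h4, hz]
      have h5 := (Int.castRingHom ℚ).map_det ((TT γ r).updateCol l τ)
      rw [RingHom.mapMatrix_apply, Matrix.map_updateCol] at h5
      exact h5
    rw [ev, hcε, Finset.smul_sum]
    refine Finset.sum_congr rfl fun l _ => ?_
    rw [hzl, smul_smul]

end

end EL1

theorem el1 (ht : TRNS) (hb : EBS) : EL1S := by
  classical
  refine ⟨5 * Polynomial.X ^ 2 + 1, ?_⟩
  intro N r γ E _ _ b hred hO hrN hγ I hI
  have hfin : FiniteDimensional ℚ E := Module.Finite.of_basis b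
  obtain ⟨hmul, hinj, -, -⟩ := hb r γ E b hO
  obtain ⟨ε, e1, e2, e3, e4⟩ := EL1.exists_idem I hI
  obtain ⟨D, z, hD0, hD1, hz1, hz2⟩ := EL1.exists_coords ht hO hrN hγ I hI ε e3 e4
  have heval : (5 * Polynomial.X ^ 2 + 1 : Polynomial ℕ).eval N = 5 * N ^ 2 + 1 := by
    simp
  rw [heval]
  -- the least denominator
  have hex : ∃ n : ℕ, 0 < n ∧ ∃ y : Fin r → ℤ, ev b y = (n : ℚ) • ε := by
    exact ⟨D.natAbs, Int.natAbs_pos.2 hD0, EL1.nat_den hz2⟩
  obtain ⟨hn0, y, hy⟩ := Nat.find_spec hex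
  have hmin : ∀ m : ℕ, m < Nat.find hex → ¬ (0 < m ∧ ∃ y : Fin r → ℤ, ev b y = (m : ℚ) • ε) :=
    fun m hm => Nat.find_min hex hm
  have hle : Nat.find hex ≤ D.natAbs := by
    apply Nat.find_min' hex
    exact ⟨Int.natAbs_pos.2 hD0, EL1.nat_den hz2⟩
  set n := Nat.find hex with hn
  have hnD : (n : ℤ) ≤ |D| := by
    rw [Int.abs_eq_natAbs]
    exact_mod_cast hle
  have hlt : (2 : ℤ) ^ (5 * N ^ 2) < 2 ^ (5 * N ^ 2 + 1) := by
    apply pow_lt_pow_right₀ (by norm_num)
    omega
  have hyy : ev b y * ev b y = (n : ℚ) • ev b y := by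
    rw [hy, smul_mul_smul_comm, e1, smul_smul]
  have hyne : (n : ℚ) ≠ 0 := by exact_mod_cast hn0.ne'
  refine ⟨y, n, hn0, ?_, ?_, hyy, ?_, ?_⟩
  · have : (n : ℤ) < 2 ^ (5 * N ^ 2 + 1) := lt_of_le_of_lt (hnD.trans hD1) hlt
    exact_mod_cast this
  · intro l
    refine lt_of_le_of_lt ?_ hlt
    have h1 : (y l : ℚ) = n * b.repr ε l := by
      rw [← EL1.ev_repr (b := b) y l, hy, map_smul]; rfl
    have h2 : (z l : ℚ) = D * b.repr ε l := by
      rw [← EL1.ev_repr (b := b) z l, hz2, map_smul]; rfl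
    have h3 : |(y l : ℚ)| ≤ |(z l : ℚ)| := by
      rw [h1, h2, abs_mul, abs_mul]
      apply mul_le_mul_of_nonneg_right _ (abs_nonneg _)
      have : ((n : ℤ) : ℚ) ≤ ((|D| : ℤ) : ℚ) := by exact_mod_cast hnD
      rw [Int.cast_abs] at this
      rw [Nat.abs_cast]
      exact_mod_cast this
    have h4 : |y l| ≤ |z l| := by exact_mod_cast h3
    exact h4.trans (hz1 l)
  · intro x
    rw [e4, hy, smul_mul_assoc, smul_eq_zero]
    constructor
    · intro h; exact Or.inr h
    · rintro (h | h)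
      · exact absurd h hyne
      · exact h
  · intro p hp hpR
    have hmulv : mulv r γ y y = fun l => (n : ℤ) * y l := by
      apply hinj
      rw [hmul, EL1.ev_smul, hyy]
      norm_cast
    have hpn : ¬ p ∣ n := by
      rintro ⟨k, hk⟩
      have h1 : ∀ l, (p : ℤ) ∣ mulv r γ y y l := by
        intro l
        rw [hmulv]
        have hpn' : (p : ℤ) ∣ (n : ℤ) := ⟨(k : ℤ), by rw [hk]; push_cast; ring⟩
        exact Dvd.dvd.mul_right hpn' _
      have h2 := hpR y h1
      choose y' hy' using h2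
      have hk0 : 0 < k := by
        rcases Nat.eq_zero_or_pos k with h | h
        · rw [h, mul_zero] at hk; omega
        · exact h
      refine hmin k ?_ ⟨hk0, y', ?_⟩
      · rw [hk]
        have := hp.two_le
        nlinarith
      · have h3 : ev b y = ((p : ℤ) : ℚ) • ev b y' := by
          rw [← EL1.ev_smul]
          congr 1
          funext l
          exact hy' l
        have hp0 : (p : ℚ) ≠ 0 := by exact_mod_cast hp.pos.ne'
        have h4 : ((p : ℤ) : ℚ) • ev b y' = ((p : ℤ) : ℚ) • ((k : ℚ) • ε) := by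
          rw [← h3, hy, hk, smul_smul]
          push_cast
          rfl
        exact smul_right_injective _ (by exact_mod_cast hp0) h4
    refine ⟨hpn, ?_⟩
    by_contra hcon
    push Not at hcon
    -- all powers of `p` divide `y`
    have hall : ∀ k : ℕ, ∀ l, (p : ℤ) ^ (k + 1) ∣ y l := by
      intro k
      induction k with
      | zero => intro l; rw [zero_add, pow_one]; exact hcon l
      | succ k ih =>
        choose w hw using ih
        have hwq : ev b y = (((p : ℤ) ^ (k + 1) : ℤ) : ℚ) • ev b w := by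
          rw [← EL1.ev_smul]
          congr 1
          funext l
          exact hw l
        have hp0 : (((p : ℤ) ^ (k + 1) : ℤ) : ℚ) ≠ 0 := by
          have : (p : ℚ) ≠ 0 := by exact_mod_cast hp.pos.ne'
          push_cast
          positivity
        have h5 : (((p : ℤ) ^ (k + 1) : ℤ) : ℚ) • (ev b w * ev b w) = (n : ℚ) • ev b w := by
          have h6 := hyy
          rw [hwq, smul_mul_smul_comm, smul_comm (n : ℚ), mul_smul] at h6
          exact smul_right_injective _ hp0 h6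
        have h7 : (fun l => ((p : ℤ) ^ (k + 1)) * mulv r γ w w l) = fun l => (n : ℤ) * w l := by
          apply hinj
          rw [EL1.ev_smul, EL1.ev_smul, hmul, h5]
          norm_cast
        intro l
        have h8 : (p : ℤ) ^ (k + 1) * mulv r γ w w l = (n : ℤ) * w l := congrFun h7 l
        have h9 : (p : ℤ) ∣ (n : ℤ) * w l := by
          rw [← h8]
          exact Dvd.dvd.mul_right (dvd_pow_self _ (by omega)) _
        have h10 : (p : ℤ) ∣ w l := by
          rcases (Nat.prime_iff_prime_int.1 hp).dvd_or_dvd h9 with h | h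
          · exact absurd (by exact_mod_cast h) hpn
          · exact h
        rw [hw l, pow_succ (p : ℤ) (k + 1)]
        exact mul_dvd_mul_left _ h10
    have hy0 : ∀ l, y l = 0 := by
      intro l
      by_contra h
      have h1 := Int.le_of_dvd (abs_pos.2 h) ((dvd_abs _ _).2 (hall (y l).natAbs l))
      have h2 : (y l).natAbs < p ^ ((y l).natAbs + 1) :=
        lt_of_lt_of_le (Nat.lt_pow_self hp.one_lt) (Nat.pow_le_pow_right hp.pos (by omega))
      rw [Int.abs_eq_natAbs] at h1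
      have h3 : p ^ ((y l).natAbs + 1) ≤ (y l).natAbs := by exact_mod_cast h1
      omega
    have : ev b y = 0 := by
      rw [ev]
      exact Finset.sum_eq_zero fun i _ => by rw [hy0 i]; simp
    rw [hy, smul_eq_zero] at this
    rcases this with h | h
    · exact hyne h
    · exact e2 h

end Pool.Agent.H420_NCF
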