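import Pool.Agent.H420_NCF.Spec

/-!
# Module ELa: the lattice of a lifted idempotent determines the maximal ideal
(MP_825bd2_lc: deterministic polynomial-time factoring of sparse noncommutative polynomials)
-/

namespace Pool.Agent.H420_NCF

open Pool.Agent.NPC Pool.Agent.NPC.H532 Pool.Agent.H687R2.LLL
open scoped Matrix

namespace ELa

section Ev
variable {r : ℕ} {E : Type} [CommRing E] [Algebra ℚ E] (b : Module.Basis (Fin r) ℚ E)

theorem ev_add (u v : Fin r → ℤ) : ev b (u + v) = ev b u + ev b v := by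
  simp [ev, add_smul, Finset.sum_add_distrib]

theorem ev_smul (c : ℤ) (u : Fin r → ℤ) : ev b (c • u) = (c : E) * ev b u := by
  have h : (c : E) * ev b u = (c : ℚ) • ev b u := by
    rw [Algebra.smul_def, map_intCast]
  rw [h]
  simp [ev, Finset.smul_sum, mul_smul]

theorem ev_sub (u v : Fin r → ℤ) : ev b (u - v) = ev b u - ev b v := by
  simp [ev, sub_smul, Finset.sum_sub_distrib]

theorem ev_zero : ev b (0 : Fin r → ℤ) = 0 := by
  simp [ev]

theorem ev_single (i : Fin r) : ev b (Pi.single i 1) = b i := by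
  classical
  unfold ev
  rw [Finset.sum_eq_single i]
  · simp
  · intro j _ hj; simp [Pi.single_eq_of_ne hj]
  · simp

end Ev

section Mulv
variable {r : ℕ} {γ : List (List (List ℤ))}

theorem mulv_add_left (u u' v : Fin r → ℤ) :
    mulv r γ (u + u') v = mulv r γ u v + mulv r γ u' v := by
  ext l; simp [mulv, add_mul, Finset.sum_add_distrib]

theorem mulv_add_right (u v v' : Fin r → ℤ) :
    mulv r γ u (v + v') = mulv r γ u v + mulv r γ u v' := by
  ext l; simp [mulv, add_mul, mul_add, Finset.sum_add_distrib]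

theorem mulv_smul_left (c : ℤ) (u v : Fin r → ℤ) :
    mulv r γ (c • u) v = c • mulv r γ u v := by
  ext l; simp [mulv, Finset.mul_sum, mul_assoc]

theorem mulv_smul_right (c : ℤ) (u v : Fin r → ℤ) :
    mulv r γ u (c • v) = c • mulv r γ u v := by
  ext l
  simp only [mulv, Pi.smul_apply, smul_eq_mul, Finset.mul_sum]
  refine Finset.sum_congr rfl fun i _ => Finset.sum_congr rfl fun j _ => ?_
  ring

/-- All coordinates are divisible by `q`. -/
def Dv (q : ℤ) (u : Fin r → ℤ) : Prop := ∀ l, q ∣ u l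

theorem Dv.exists {q : ℤ} {u : Fin r → ℤ} (h : Dv q u) : ∃ w, u = q • w := by
  choose w hw using h
  exact ⟨w, funext fun l => by rw [hw l]; rfl⟩

theorem dv_smul (q : ℤ) (u : Fin r → ℤ) : Dv q (q • u) := fun l => Dvd.intro _ rfl

theorem Dv.smul {q : ℤ} {u : Fin r → ℤ} (h : Dv q u) (c : ℤ) : Dv q (c • u) :=
  fun l => Dvd.dvd.mul_left (h l) c

theorem Dv.add {q : ℤ} {u v : Fin r → ℤ} (h : Dv q u) (h' : Dv q v) : Dv q (u + v) :=
  fun l => dvd_add (h l) (h' l)

theorem Dv.sub {q : ℤ} {u v : Fin r → ℤ} (h : Dv q u) (h' : Dv q v) : Dv q (u - v) :=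
  fun l => dvd_sub (h l) (h' l)

theorem Dv.mul_left {q : ℤ} {u : Fin r → ℤ} (h : Dv q u) (v : Fin r → ℤ) :
    Dv q (mulv r γ v u) := by
  obtain ⟨w, rfl⟩ := h.exists
  rw [mulv_smul_right]; exact dv_smul _ _

theorem Dv.mul_right {q : ℤ} {u : Fin r → ℤ} (h : Dv q u) (v : Fin r → ℤ) :
    Dv q (mulv r γ u v) := by
  obtain ⟨w, rfl⟩ := h.exists
  rw [mulv_smul_left]; exact dv_smul _ _

theorem Dv.mono {q q' : ℤ} {u : Fin r → ℤ} (h : Dv q u) (hq : q' ∣ q) : Dv q' u :=
  fun l => hq.trans (h l)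

theorem mulv_bound {N : ℕ} (hrN : r ≤ N) (hγ : ∀ i j l, |gm γ i j l| < 2 ^ N) {A B : ℕ}
    {u v : Fin r → ℤ} (hu : ∀ i, |u i| ≤ 2 ^ A) (hv : ∀ i, |v i| ≤ 2 ^ B) (l : Fin r) :
    |mulv r γ u v l| ≤ 2 ^ (A + B + 3 * N) := by
  have hr2 : (r : ℤ) ≤ 2 ^ N := by
    have h1 : r < 2 ^ N := lt_of_le_of_lt hrN Nat.lt_two_pow_self
    exact_mod_cast h1.le
  have h0 : |mulv r γ u v l| ≤ ∑ i : Fin r, ∑ j : Fin r, (2 ^ A * 2 ^ B * 2 ^ N : ℤ) := by
    unfold mulv
    refine (Finset.abs_sum_le_sum_abs _ _).trans (Finset.sum_le_sum fun i _ => ?_)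
    refine (Finset.abs_sum_le_sum_abs _ _).trans (Finset.sum_le_sum fun j _ => ?_)
    rw [abs_mul, abs_mul]
    refine mul_le_mul (mul_le_mul (hu i) (hv j) (abs_nonneg _) (by positivity)) (hγ _ _ _).le
      (abs_nonneg _) (by positivity)
  refine h0.trans ?_
  simp only [Finset.sum_const, Finset.card_univ, Fintype.card_fin, smul_eq_mul, nsmul_eq_mul]
  calc (r : ℤ) * ((r : ℤ) * (2 ^ A * 2 ^ B * 2 ^ N))
      ≤ 2 ^ N * (2 ^ N * (2 ^ A * 2 ^ B * 2 ^ N)) := by
        refine mul_le_mul hr2 (mul_le_mul_of_nonneg_right hr2 (by positivity)) (by positivity)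
          (by positivity)
    _ = 2 ^ (A + B + 3 * N) := by ring

end Mulv

theorem dvd_of_dvd_nmul {p n : ℕ} (hp : p.Prime) (hpn : ¬ p ∣ n) (i : ℕ) {x : ℤ}
    (h : ((p ^ i : ℕ) : ℤ) ∣ (n : ℤ) * x) : ((p ^ i : ℕ) : ℤ) ∣ x := by
  have hc : IsCoprime ((p ^ i : ℕ) : ℤ) (n : ℤ) := by
    rw [Nat.isCoprime_iff_coprime]
    exact Nat.Coprime.pow_left i ((Nat.Prime.coprime_iff_not_dvd hp).2 hpn)
  exact hc.dvd_of_dvd_mul_left h

section Main

variable {r : ℕ} {γ : List (List (List ℤ))} {E : Type} [CommRing E] [Algebra ℚ E]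
  {b : Module.Basis (Fin r) ℚ E}

theorem natCast_cancel {n : ℕ} (hn : 0 < n) {x : E} (h : (n : E) * x = 0) : x = 0 := by
  have h1 : (n : ℚ) • x = 0 := by
    rw [Algebra.smul_def, map_natCast]; exact h
  rcases smul_eq_zero.1 h1 with h2 | h2
  · exact absurd (by exact_mod_cast h2) hn.ne'
  · exact h2

/-- Short generators. -/
theorem short (hmul : ∀ u v, ev b (mulv r γ u v) = ev b u * ev b v)
    {N : ℕ} (hrN : r ≤ N) (hγ : ∀ i j l, |gm γ i j l| < 2 ^ N) {I : Ideal E}
    {y z : Fin r → ℤ} {n : ℕ} (hn : 0 < n) {Q : ℕ}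
    (hz : ev b z = (n : E) - ev b y) (hyy : ev b y * ev b y = (n : E) * ev b y)
    (hzb : ∀ i, |z i| ≤ 2 ^ (Q + 1))
    (hI : ∀ x, x ∈ I ↔ ev b y * x = 0) :
    ∀ x ∈ I, x ∈ Submodule.span ℚ
      {w | ∃ v : Fin r → ℤ, (∀ i, |v i| < 2 ^ (Q + 3 * N + 2)) ∧ ev b v ∈ I ∧ w = ev b v} := by
  intro x hx
  have hyx : ev b y * x = 0 := (hI x).1 hx
  have h1 : (n : ℚ) • x = ∑ i, (b.repr x i) • ev b (mulv r γ z (Pi.single i 1)) := by
    have h2 : (n : ℚ) • x = ev b z * x := by
      rw [hz, sub_mul, hyx, sub_zero, Algebra.smul_def, map_natCast]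
    rw [h2]
    conv_lhs => rw [← b.sum_repr x]
    rw [Finset.mul_sum]
    refine Finset.sum_congr rfl fun i _ => ?_
    rw [hmul, ev_single, mul_smul_comm]
  have h3 : x = ∑ i, ((n : ℚ)⁻¹ * b.repr x i) • ev b (mulv r γ z (Pi.single i 1)) := by
    have hn' : (n : ℚ) ≠ 0 := by exact_mod_cast hn.ne'
    calc x = (n : ℚ)⁻¹ • ((n : ℚ) • x) := by rw [smul_smul, inv_mul_cancel₀ hn', one_smul]
      _ = _ := by rw [h1, Finset.smul_sum]; simp only [smul_smul]
  rw [h3]
  refine Submodule.sum_mem _ fun i _ => Submodule.smul_mem _ _ (Submodule.subset_span ?_)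
  refine ⟨mulv r γ z (Pi.single i 1), fun l => ?_, ?_, rfl⟩
  · have h4 : ∀ j, |(Pi.single i (1 : ℤ) : Fin r → ℤ) j| ≤ 2 ^ 0 := by
      intro j
      by_cases hij : j = i
      · subst hij; simp
      · simp [Pi.single_eq_of_ne hij]
    refine (mulv_bound hrN hγ hzb h4 l).trans_lt ?_
    exact pow_lt_pow_right₀ (by norm_num) (by omega)
  · rw [hI, hmul, ← mul_assoc, hz]
    have : ev b y * ((n : E) - ev b y) = 0 := by
      rw [mul_sub, hyy]; ring
    rw [this, zero_mul]

/-- Part (0): `e z` vanishes modulo `p`. -/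
theorem part0 (hinj : Function.Injective (ev b))
    (hmul : ∀ u v, ev b (mulv r γ u v) = ev b u * ev b v)
    {y z : Fin r → ℤ} {n p : ℕ} (hp : p.Prime) (hpn : ¬ p ∣ n)
    (hz : ev b z = (n : E) - ev b y) (hyy : ev b y * ev b y = (n : E) * ev b y)
    {e : Fin r → ℤ} (he : PrimMod r γ p e) (hey : ∃ l, ¬ (p : ℤ) ∣ mulv r γ e y l) :
    Dv (p : ℤ) (mulv r γ e z) := by
  have hyyv : mulv r γ y y = (n : ℤ) • y := by
    apply hinj; rw [hmul, ev_smul, hyy]; simp
  have hezv : mulv r γ e z = (n : ℤ) • e - mulv r γ e y := by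
    apply hinj; rw [hmul, ev_sub, hmul, ev_smul, hz]; push_cast; ring
  obtain ⟨n', m, hn'⟩ : ∃ n' m : ℤ, (n : ℤ) * n' = 1 + p * m := by
    have hc : IsCoprime (p : ℤ) (n : ℤ) := by
      rw [Nat.isCoprime_iff_coprime]
      exact (Nat.Prime.coprime_iff_not_dvd hp).2 hpn
    obtain ⟨a, c, h⟩ := hc
    exact ⟨c, -a, by linarith [h]⟩
  have hidem : IdemMod r γ p (n' • y) := by
    intro l
    have : mulv r γ (n' • y) (n' • y) l - (n' • y) l = p * (m * n' * y l) := by
      rw [mulv_smul_left, mulv_smul_right, hyyv]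
      simp only [Pi.smul_apply, smul_eq_mul]
      have : n' * (n' * (n * y l)) - n' * y l = (n * n' - 1) * n' * y l := by ring
      rw [this, hn']; ring
    rw [this]; exact Dvd.intro _ rfl
  rcases he.2.2 _ hidem with h | h
  · exfalso
    obtain ⟨l, hl⟩ := hey
    apply hl
    have h1 := h l
    rw [mulv_smul_right] at h1
    simp only [Pi.smul_apply, smul_eq_mul] at h1
    have h2 : mulv r γ e y l = n * (n' * mulv r γ e y l) - p * (m * mulv r γ e y l) := by
      rw [← mul_assoc, hn']; ring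
    rw [h2]
    exact dvd_sub (Dvd.dvd.mul_left h1 _) (Dvd.intro _ rfl)
  · intro l
    have h1 := h l
    rw [mulv_smul_right] at h1
    simp only [Pi.smul_apply, smul_eq_mul] at h1
    rw [hezv]
    simp only [Pi.sub_apply, Pi.smul_apply, smul_eq_mul]
    have h2 : (n : ℤ) * e l - mulv r γ e y l =
        p * (m * mulv r γ e y l) - n * (n' * mulv r γ e y l - e l) := by
      have : (n : ℤ) * (n' * mulv r γ e y l - e l) = (n * n') * mulv r γ e y l - n * e l := by ring
      rw [this, hn']; ring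
    rw [h2]
    exact dvd_sub (Dvd.intro _ rfl) (Dvd.dvd.mul_left h1 _)

/-- Part (a'): `e' z` vanishes modulo `p ^ k`. -/
theorem part1 (hinj : Function.Injective (ev b))
    (hmul : ∀ u v, ev b (mulv r γ u v) = ev b u * ev b v)
    {y z : Fin r → ℤ} {n p : ℕ} (hp : p.Prime) (hpn : ¬ p ∣ n)
    (hz : ev b z = (n : E) - ev b y) (hyy : ev b y * ev b y = (n : E) * ev b y)
    {e e' : Fin r → ℤ} (hez : Dv (p : ℤ) (mulv r γ e z)) {k : ℕ}
    (hee : ∀ l, (p : ℤ) ∣ e' l - e l) (he' : IdemMod r γ (p ^ k) e') :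
    Dv ((p ^ k : ℕ) : ℤ) (mulv r γ e' z) := by
  set x := mulv r γ e' z with hx
  -- `x² ≡ n x`
  have hxx : Dv ((p ^ k : ℕ) : ℤ) (mulv r γ x x - (n : ℤ) • x) := by
    have h1 : mulv r γ x x - (n : ℤ) • x =
        mulv r γ (mulv r γ e' e' - e') ((n : ℤ) • z) := by
      apply hinj
      rw [ev_sub, hmul, ev_smul, hx, hmul, hmul, ev_sub, hmul, ev_smul, hz]
      push_cast
      have h2 : ((n : E) - ev b y) * ((n : E) - ev b y) = (n : E) * ((n : E) - ev b y) := by
        have : ((n : E) - ev b y) * ((n : E) - ev b y) =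
          n * n - 2 * n * ev b y + ev b y * ev b y := by ring
        rw [this, hyy]; ring
      calc ev b e' * (↑n - ev b y) * (ev b e' * (↑n - ev b y)) - ↑n * (ev b e' * (↑n - ev b y))
          = ev b e' * ev b e' * (((n : E) - ev b y) * ((n : E) - ev b y))
            - ↑n * (ev b e' * (↑n - ev b y)) := by ring
        _ = _ := by rw [h2]; ring
    rw [h1]
    exact Dv.mul_right he' _
  have hx1 : Dv (p : ℤ) x := by
    have h1 : x = mulv r γ (e' - e) z + mulv r γ e z := by
      rw [← mulv_add_left, sub_add_cancel]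
    rw [h1]
    exact (Dv.mul_right hee _).add hez
  have key : ∀ i, i ≤ k → Dv ((p ^ i : ℕ) : ℤ) x := by
    intro i
    induction i with
    | zero => intro _ l; simp
    | succ i ih =>
      intro hik
      rcases Nat.eq_zero_or_pos i with h0 | h0
      · subst h0; simpa using hx1
      · have hi := ih (by omega)
        intro l
        apply dvd_of_dvd_nmul hp hpn
        have h2 : ((p ^ (i + 1) : ℕ) : ℤ) ∣ mulv r γ x x l := by
          obtain ⟨w, hw⟩ := hi.exists
          rw [hw, mulv_smul_left, mulv_smul_right]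
          simp only [Pi.smul_apply, smul_eq_mul]
          rw [← mul_assoc]
          apply Dvd.dvd.mul_right
          rw [← Nat.cast_mul]
          apply Int.natCast_dvd_natCast.2
          rw [← pow_add]
          exact pow_dvd_pow p (by omega)
        have h3 : ((p ^ (i + 1) : ℕ) : ℤ) ∣ mulv r γ x x l - (n : ℤ) * x l := by
          have h4 := hxx l
          simp only [Pi.sub_apply, Pi.smul_apply, smul_eq_mul] at h4
          exact (Int.natCast_dvd_natCast.2 (pow_dvd_pow p hik)).trans h4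
        have h5 := dvd_sub h2 h3
        rwa [sub_sub_cancel] at h5
  exact key k le_rfl

end Main

end ELa

open ELa in
theorem ela (hb : EBS) : ELaS := by
  intro q₀
  refine ⟨q₀ + 3 * Polynomial.X + 2,
    (q₀ + (q₀ + 3 * Polynomial.X + 2) + 17 * Polynomial.X + 11) * Polynomial.X + 1, ?_⟩
  intro N r γ E _ _ b hred hord hrN hγ p hp hRed I y n hI hn0 hn hy hyy hIy hpn e he hey
  obtain ⟨hmul, hinj, hone, -⟩ := hb r γ E b hord
  simp only [Polynomial.eval_add, Polynomial.eval_mul, Polynomial.eval_X, Polynomial.eval_one,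
    Polynomial.eval_ofNat] at hn hy ⊢
  set Q := q₀.eval N with hQ
  have hyy' : ev b y * ev b y = (n : E) * ev b y := by
    rw [hyy, Algebra.smul_def, map_natCast]
  set one := vz r (oneq γ) with hone'
  set z : Fin r → ℤ := (n : ℤ) • one - y with hzdef
  have hz : ev b z = (n : E) - ev b y := by
    rw [hzdef, ev_sub, ev_smul, hone]; simp
  have honeb : ∀ i, |one i| ≤ 1 := by
    intro i
    rw [hone']
    unfold vz oneq
    rw [hord.len]
    simp only [List.getD_eq_getElem?_getD, List.getElem?_map]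
    rw [List.getElem?_range i.2]
    simp only [Option.map_some, Option.getD_some]
    split_ifs <;> simp
  have hzb : ∀ i, |z i| ≤ 2 ^ (Q + 1) := by
    intro i
    have h1 : |z i| ≤ (n : ℤ) * |one i| + |y i| := by
      rw [hzdef]
      simp only [Pi.sub_apply, Pi.smul_apply, smul_eq_mul]
      refine (abs_sub _ _).trans ?_
      rw [abs_mul, Nat.abs_cast]
    have h2 : (n : ℤ) * |one i| ≤ 2 ^ Q := by
      have h3 : (n : ℤ) ≤ 2 ^ Q := by exact_mod_cast hn.le
      calc (n : ℤ) * |one i| ≤ n * 1 := mul_le_mul_of_nonneg_left (honeb i) (by positivity)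
        _ ≤ 2 ^ Q := by rw [mul_one]; exact h3
    have h4 := (hy i).le
    rw [pow_succ]; linarith
  have hez := part0 hinj hmul hp hpn hz hyy' he hey
  refine ⟨short hmul hrN hγ hn0 hz hyy' hzb hIy, ?_⟩
  intro k hk e' hee he'
  have hez' := part1 hinj hmul hp hpn hz hyy' hez hee he'
  refine ⟨?_, ?_⟩
  · -- part (a)
    intro v hv l
    have hyv := (hIy _).1 hv
    apply dvd_of_dvd_nmul hp hpn
    have h1 : (n : ℤ) • mulv r γ e' v = mulv r γ (mulv r γ e' z) v := by
      apply hinj
      rw [ev_smul, hmul, hmul, hmul, hz]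
      push_cast
      have : ev b e' * (↑n - ev b y) * ev b v = n * (ev b e' * ev b v) -
        ev b e' * (ev b y * ev b v) := by ring
      rw [this, hyv]; ring
    have h2 := congrFun h1 l
    simp only [Pi.smul_apply, smul_eq_mul] at h2
    rw [h2]
    exact Dv.mul_right hez' v l
  · -- part (b)
    intro v hvb hv
    by_contra hvI
    set vs : Fin r → ℤ := mulv r γ y v + z with hvs
    have hevs : ev b vs = ev b y * ev b v + ((n : E) - ev b y) := by
      rw [hvs, ev_add, hmul, hz]
    -- `vs` is not a zero divisor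
    have hnzd : ∀ x : E, ev b vs * x = 0 → x = 0 := by
      intro x hx
      have h1 : ev b y * (ev b v * x) = 0 := by
        apply natCast_cancel hn0
        have : (n : E) * (ev b y * (ev b v * x)) = ev b y * (ev b vs * x) := by
          rw [hevs]
          have : ev b y * ((ev b y * ev b v + ((n : E) - ev b y)) * x) =
            (ev b y * ev b y) * ev b v * x + (n * ev b y - ev b y * ev b y) * x := by ring
          rw [this, hyy']; ring
        rw [this, hx, mul_zero]
      have h2 : ev b v * x ∈ I := (hIy _).2 h1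
      have hxI : x ∈ I := (hI.isPrime.mem_or_mem h2).resolve_left hvI
      have hyx := (hIy _).1 hxI
      have h3 : ev b vs * x = n * x := by
        rw [hevs]
        have : (ev b y * ev b v + ((n : E) - ev b y)) * x =
          ev b v * (ev b y * x) + n * x - ev b y * x := by ring
        rw [this, hyx]; ring
      rw [h3] at hx
      exact natCast_cancel hn0 hx
    -- the matrix of multiplication by `vs`
    set M : Matrix (Fin r) (Fin r) ℤ := fun i j => mulv r γ vs (Pi.single i 1) j with hM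
    have hMv : ∀ u : Fin r → ℤ, u ᵥ* M = mulv r γ vs u := by
      intro u
      ext j
      simp only [Matrix.vecMul, dotProduct, hM]
      have hu : u = ∑ i, u i • (Pi.single i (1 : ℤ) : Fin r → ℤ) := by
        ext l
        simp [Finset.sum_apply, Pi.single_apply]
      have hsum : ∀ (s : Finset (Fin r)) (f : Fin r → (Fin r → ℤ)),
          mulv r γ vs (∑ i ∈ s, f i) = ∑ i ∈ s, mulv r γ vs (f i) := by
        intro s f
        classical
        induction s using Finset.induction_on with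
        | empty => ext l; simp [mulv]
        | insert a s ha ih => rw [Finset.sum_insert ha, mulv_add_right, ih, Finset.sum_insert ha]
      conv_rhs => rw [hu, hsum]
      simp only [mulv_smul_right, Finset.sum_apply, Pi.smul_apply, smul_eq_mul]
    have hdet : M.det ≠ 0 := by
      intro h0
      obtain ⟨u, hu, hu0⟩ := Matrix.exists_vecMul_eq_zero_iff.2 h0
      apply hu
      apply hinj
      rw [ev_zero]
      apply hnzd
      rw [← hmul, ← hMv, hu0, ev_zero]
    -- the bound on the determinant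
    have hvsb : ∀ i, |vs i| ≤ 2 ^ (Q + (Q + 3 * N + 2) + 13 * N + 11) := by
      intro i
      have h1 : |vs i| ≤ |mulv r γ y v i| + |z i| := by
        rw [hvs]; exact abs_add_le _ _
      have h2 := mulv_bound hrN hγ (fun i => (hy i).le) (fun i => (hvb i).le) i
      have h3 := hzb i
      have h4 : (2 : ℤ) ^ (Q + 1) ≤ 2 ^ (Q + (Q + 3 * N + 2 + 10 * N + 10) + 3 * N) :=
        pow_le_pow_right₀ (by norm_num) (by omega)
      have h5 : (2 : ℤ) ^ (Q + (Q + 3 * N + 2) + 13 * N + 11) =
          2 ^ (Q + (Q + 3 * N + 2 + 10 * N + 10) + 3 * N) * 2 := by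
        rw [← pow_succ]; congr 1; omega
      rw [h5]
      linarith
    have hMb : ∀ i j, |M i j| ≤ 2 ^ (Q + (Q + 3 * N + 2) + 16 * N + 11) := by
      intro i j
      have h4 : ∀ j, |(Pi.single i (1 : ℤ) : Fin r → ℤ) j| ≤ 2 ^ 0 := by
        intro j
        by_cases hij : j = i
        · subst hij; simp
        · simp [Pi.single_eq_of_ne hij]
      have h1 := mulv_bound hrN hγ hvsb h4 j
      refine h1.trans (le_of_eq ?_)
      congr 1; omega
    have hdetb : |M.det| < ((p ^ k : ℕ) : ℤ) := by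
      have h1 := Matrix.det_le (A := M) (abv := AbsoluteValue.abs) (fun i j => hMb i j)
      rw [Fintype.card_fin] at h1
      have h2 : (Nat.factorial r • (2 ^ (Q + (Q + 3 * N + 2) + 16 * N + 11)) ^ r : ℤ) ≤
          2 ^ ((Q + (Q + 3 * N + 2) + 17 * N + 11) * N) := by
        have hf : (Nat.factorial r : ℤ) ≤ 2 ^ (N * r) := by
          have h3 : Nat.factorial r ≤ r ^ r := Nat.factorial_le_pow r
          have h4 : r ^ r ≤ (2 ^ N) ^ r :=
            Nat.pow_le_pow_left ((lt_of_le_of_lt hrN Nat.lt_two_pow_self).le) r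
          rw [← pow_mul] at h4
          exact_mod_cast h3.trans h4
        rw [nsmul_eq_mul, ← pow_mul]
        calc (Nat.factorial r : ℤ) * 2 ^ ((Q + (Q + 3 * N + 2) + 16 * N + 11) * r)
            ≤ 2 ^ (N * r) * 2 ^ ((Q + (Q + 3 * N + 2) + 16 * N + 11) * r) :=
              mul_le_mul_of_nonneg_right hf (by positivity)
          _ = 2 ^ ((Q + (Q + 3 * N + 2) + 17 * N + 11) * r) := by
              rw [← pow_add]; congr 1; ring
          _ ≤ 2 ^ ((Q + (Q + 3 * N + 2) + 17 * N + 11) * N) :=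
              pow_le_pow_right₀ (by norm_num) (Nat.mul_le_mul_left _ hrN)
      have h3 : (2 : ℤ) ^ ((Q + (Q + 3 * N + 2) + 17 * N + 11) * N) <
          2 ^ ((Q + (Q + 3 * N + 2) + 17 * N + 11) * N + 1) :=
        pow_lt_pow_right₀ (by norm_num) (by omega)
      have h4 : (2 : ℤ) ^ ((Q + (Q + 3 * N + 2) + 17 * N + 11) * N + 1) ≤ ((p ^ k : ℕ) : ℤ) := by
        exact_mod_cast hk
      calc |M.det| ≤ _ := h1
        _ ≤ _ := h2
        _ < _ := h3
        _ ≤ _ := h4
    -- the adjugate
    set w : Fin r → ℤ := one ᵥ* M.adjugate with hw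
    have hw1 : mulv r γ vs w = M.det • one := by
      rw [← hMv, hw, Matrix.vecMul_vecMul, Matrix.adjugate_mul, Matrix.vecMul_smul,
        Matrix.vecMul_one]
    have hw2 : ev b vs * ev b w = (M.det : E) := by
      rw [← hmul, hw1, ev_smul, hone, mul_one]
    have hD : Dv ((p ^ k : ℕ) : ℤ) (M.det • mulv r γ e' y) := by
      have h1 : M.det • mulv r γ e' y =
          mulv r γ (mulv r γ e' v) ((n : ℤ) • mulv r γ y w) := by
        apply hinj
        rw [ev_smul, hmul, ← hw2, hevs, hmul, hmul, ev_smul, hmul]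
        push_cast
        have : (ev b y * ev b v + ((n : E) - ev b y)) * ev b w * (ev b e' * ev b y) =
          (ev b y * ev b y) * ev b v * ev b w * ev b e' +
            (n * ev b y - ev b y * ev b y) * ev b w * ev b e' := by ring
        rw [this, hyy']; ring
      rw [h1]
      exact Dv.mul_right (fun l => hv l) _
    obtain ⟨l, hl⟩ := hey
    have hl' : ¬ (p : ℤ) ∣ mulv r γ e' y l := by
      intro h
      apply hl
      have h1 : mulv r γ e y = mulv r γ e' y - mulv r γ (e' - e) y := by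
        apply hinj; rw [ev_sub, hmul, hmul, hmul, ev_sub]; ring
      rw [h1]
      exact dvd_sub h (Dv.mul_right hee _ l)
    have hco : IsCoprime ((p ^ k : ℕ) : ℤ) (mulv r γ e' y l) := by
      push_cast
      apply IsCoprime.pow_left
      exact (Nat.prime_iff_prime_int.1 hp).coprime_iff_not_dvd.2 hl'
    have hdvd : ((p ^ k : ℕ) : ℤ) ∣ M.det := by
      have h1 := hD l
      simp only [Pi.smul_apply, smul_eq_mul] at h1
      exact hco.dvd_of_dvd_mul_right h1
    have := Int.le_of_dvd (abs_pos.2 hdet) ((dvd_abs _ _).2 hdvd)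
    omega

end Pool.Agent.H420_NCF
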