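import Pool.Agent.H420_NCF.Spec

/-!
# Module EMi: primitive idempotents modulo a small prime
-/

namespace Pool.Agent.H420_NCF

open Pool.Agent.NPC Pool.Agent.NPC.H532 Pool.Agent.H687R2.LLL
open scoped Matrix

namespace EMi

section Ring

variable {S : Type} [CommRing S] {p : ℕ} [Fact p.Prime] [CharP S p]

include p in
omit [CharP S p] in
theorem zmod_natCast_pow (s : ℕ) : ((s : ZMod p)) ^ p = s := ZMod.pow_card _

theorem natCast_pow (s : ℕ) : ((s : S)) ^ p = s := by
  have h := congrArg (ZMod.castHom (dvd_refl p) S) (ZMod.pow_card (s : ZMod p))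
  rwa [map_pow, map_natCast] at h

theorem intCast_pow (s : ℤ) : ((s : S)) ^ p = s := by
  have h := congrArg (ZMod.castHom (dvd_refl p) S) (ZMod.pow_card (s : ZMod p))
  rwa [map_pow, map_intCast] at h

theorem sub_pow' {w : S} (hw : w ^ p = w) (s : ℕ) : (w - s) ^ p = w - s := by
  rw [sub_pow_char, hw, natCast_pow]

/-- The idempotent attached to the eigenvalue `s` of `w`. -/
def Ee (p : ℕ) (w : S) (s : ℕ) : S := 1 - (w - s) ^ (p - 1)

omit [Fact p.Prime] [CharP S p] in
theorem Ee_def (w : S) (s : ℕ) : Ee p w s = 1 - (w - s) ^ (p - 1) := rfl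

theorem sub_mul_Ee {w : S} (hw : w ^ p = w) (s : ℕ) : (w - s) * Ee p w s = 0 := by
  have hp : 0 < p := (Fact.out : p.Prime).pos
  have h := sub_pow' hw s
  obtain ⟨n, rfl⟩ : ∃ n, p = n + 1 := ⟨p - 1, by omega⟩
  rw [Ee_def, Nat.add_sub_cancel, mul_sub, mul_one, ← pow_succ', h, sub_self]

theorem pow_mul_Ee {w : S} (hw : w ^ p = w) (s : ℕ) : (w - s) ^ (p - 1) * Ee p w s = 0 := by
  have hp : 2 ≤ p := (Fact.out : p.Prime).two_le
  obtain ⟨n, hn⟩ : ∃ n, p - 1 = n + 1 := ⟨p - 2, by omega⟩
  rw [hn, pow_succ, mul_assoc, sub_mul_Ee hw, mul_zero]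

theorem Ee_idem {w : S} (hw : w ^ p = w) (s : ℕ) : Ee p w s * Ee p w s = Ee p w s := by
  have h := pow_mul_Ee hw s
  conv_lhs => rw [Ee_def, sub_mul, one_mul, ← Ee_def, h, sub_zero]

theorem Ee_orth {w : S} (hw : w ^ p = w) {s t : ℕ} (hs : s < p) (ht : t < p) (hst : s ≠ t) :
    Ee p w t * Ee p w s = 0 := by
  have h1 : ∀ n : ℕ, (w - t) ^ n * Ee p w s = ((s : S) - t) ^ n * Ee p w s := by
    intro n
    induction n with
    | zero => simp
    | succ n ih =>
      have h2 : (w - t) * Ee p w s = ((s : S) - t) * Ee p w s := by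
        have := sub_mul_Ee hw s
        have h3 : (w - t) = (w - s) + ((s : S) - t) := by ring
        rw [h3, add_mul, this, zero_add]
      calc (w - t) ^ (n + 1) * Ee p w s = (w - t) * ((w - t) ^ n * Ee p w s) := by ring
        _ = (w - t) * (((s : S) - t) ^ n * Ee p w s) := by rw [ih]
        _ = ((s : S) - t) ^ n * ((w - t) * Ee p w s) := by ring
        _ = ((s : S) - t) ^ (n + 1) * Ee p w s := by rw [h2]; ring
  have h4 : ((s : S) - t) ^ (p - 1) = 1 := by
    have hne : ((s : ZMod p) - (t : ZMod p)) ≠ 0 := by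
      intro hc
      have h5 : (s : ZMod p) = t := sub_eq_zero.1 hc
      rw [ZMod.natCast_eq_natCast_iff] at h5
      exact hst (Nat.ModEq.eq_of_lt_of_lt h5 hs ht)
    have h6 := congrArg (ZMod.castHom (dvd_refl p) S) (ZMod.pow_card_sub_one_eq_one hne)
    simpa using h6
  rw [Ee_def, sub_mul, one_mul, h1, h4, one_mul, sub_self]

open Polynomial in
theorem sum_Ee (w : S) : ∑ s ∈ Finset.range p, Ee p w s = 1 := by
  let _ : Algebra (ZMod p) S := ZMod.algebra S p
  have hp : 2 ≤ p := (Fact.out : p.Prime).two_le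
  have key : (∑ s ∈ Finset.range p, (1 - (X - C (s : ZMod p)) ^ (p - 1)) : (ZMod p)[X]) = 1 := by
    rw [← sub_eq_zero]
    refine Polynomial.eq_zero_of_natDegree_lt_card_of_eval_eq_zero' _ (Finset.univ : Finset (ZMod p))
      (fun t _ => ?_) ?_
    · rw [eval_sub, eval_finsetSum, eval_one, sub_eq_zero]
      rw [Finset.sum_eq_single t.val]
      · have h0 : p - 1 ≠ 0 := by omega
        simp [h0]
      · intro s hs hne
        have hs' : s < p := Finset.mem_range.1 hs
        have hne' : t - (s : ZMod p) ≠ 0 := by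
          intro hc
          apply hne
          have h5 : t = (s : ZMod p) := sub_eq_zero.1 hc
          rw [h5, ZMod.val_natCast, Nat.mod_eq_of_lt hs']
        simp only [eval_sub, eval_one, eval_pow, eval_X, eval_C]
        rw [ZMod.pow_card_sub_one_eq_one hne', sub_self]
      · intro h
        exact absurd (Finset.mem_range.2 (ZMod.val_lt t)) h
    · rw [Finset.card_univ, ZMod.card]
      refine lt_of_le_of_lt (natDegree_sub_le _ _) ?_
      rw [natDegree_one, max_lt_iff]
      refine ⟨lt_of_le_of_lt (natDegree_sum_le_of_forall_le _ _ (n := p - 1) fun s _ => ?_)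
        (by omega), by omega⟩
      refine (natDegree_sub_le _ _).trans ?_
      rw [natDegree_one]
      refine max_le (Nat.zero_le _) ?_
      refine natDegree_pow_le.trans ?_
      rw [natDegree_X_sub_C, mul_one]
  have h := congrArg (aeval w) key
  rw [map_one, map_sum] at h
  rw [← h]
  refine Finset.sum_congr rfl fun s _ => ?_
  simp [Ee_def]

variable (p) in
include p in
/-- Nonzero orthogonal idempotents are linearly independent, so there are few of them. -/
theorem length_le {r : ℕ} (b : Fin r → S) (hb : ∀ x : S, ∃ c : Fin r → ℤ, x = ∑ i, (c i : S) * b i)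
    (L : List S) (hne : ∀ e ∈ L, e ≠ 0) (hid : ∀ e ∈ L, e * e = e)
    (hor : L.Pairwise (fun e f => e * f = 0)) : L.length ≤ r := by
  classical
  let _ : Algebra (ZMod p) S := ZMod.algebra S p
  have hor' : ∀ i j : Fin L.length, i ≠ j → L.get i * L.get j = 0 := by
    intro i j hij
    rw [List.pairwise_iff_get] at hor
    rcases lt_or_gt_of_ne hij with h | h
    · exact hor i j h
    · rw [mul_comm]; exact hor j i h
  have hind : LinearIndependent (ZMod p) L.get := by
    rw [Fintype.linearIndependent_iff]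
    intro g hg j
    have h1 : (∑ i, g i • L.get i) * L.get j = 0 := by rw [hg, zero_mul]
    rw [Finset.sum_mul, Finset.sum_eq_single j] at h1
    · rw [smul_mul_assoc, hid _ (List.get_mem L j)] at h1
      rcases smul_eq_zero.1 h1 with h2 | h2
      · exact h2
      · exact absurd h2 (hne _ (List.get_mem L j))
    · intro i _ hij
      rw [smul_mul_assoc, hor' i j hij, smul_zero]
    · intro h
      exact absurd (Finset.mem_univ j) h
  have hspan : Submodule.span (ZMod p) (Set.range b) = ⊤ := by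
    rw [eq_top_iff]
    intro x _
    obtain ⟨c, rfl⟩ := hb x
    refine Submodule.sum_mem _ fun i _ => ?_
    have h2 : (c i : S) * b i = (c i : ZMod p) • b i := by
      rw [Algebra.smul_def, map_intCast]
    rw [h2]
    exact Submodule.smul_mem _ _ (Submodule.subset_span ⟨i, rfl⟩)
  have h1 := linearIndependent_le_span L.get hind (Set.range b) hspan
  rw [Cardinal.mk_fin, Nat.cast_le] at h1
  refine h1.trans ?_
  have h2 := Fintype.card_le_of_surjective (Set.rangeFactorization b) Set.rangeFactorization_surjective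
  simpa using h2

end Ring

/-! ### The algorithm -/

/-- The vector `g - s`. -/
def subc (γ : List (List (List ℤ))) (g : List ℤ) (s : ℕ) : List ℤ :=
  (List.range γ.length).map fun l => ent g l - (if l = 0 then (s : ℤ) else 0)

/-- The vector `1 - w`. -/
def oneSub (γ : List (List (List ℤ))) (w : List ℤ) : List ℤ :=
  (List.range γ.length).map fun l => ent (oneq γ) l - ent w l

/-- The part of `e` where `g` equals `s`. -/
def piece (γ : List (List (List ℤ))) (us : List Unit) (e g : List ℤ) (s : ℕ) : List ℤ :=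
  mulq γ us.length e (oneSub γ (powq γ us.length (subc γ g s) us.tail.length))

/-- The unit vectors. -/
def unitv (γ : List (List (List ℤ))) (i : ℕ) : List ℤ :=
  (List.range γ.length).map fun l => if l = i then 1 else 0

/-- The matrix of `x ↦ x ^ p - x`. -/
def Wm (γ : List (List (List ℤ))) (us : List Unit) : List (List ℤ) :=
  (List.range γ.length).map fun i => (List.range γ.length).map fun l =>
    ent (powq γ us.length (unitv γ i) us.length) l - ent (unitv γ i) l

/-- Some entry is not zero. -/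
def nz (v : List ℤ) : Bool := v.any fun z => !decide (z = 0)

/-- One step: refine the decomposition by `g`. -/
def stp (a : List (List (List ℤ)) × List Unit) (L : List (List ℤ)) (g : List ℤ) :
    List (List ℤ) :=
  (((L.flatMap fun e => (List.range a.2.length).map fun s => piece a.1 a.2 e g s).filter
    fun v => nz v).zip (List.range a.1.length)).map fun q => q.1

section PolyPart

variable {α : Type} [TEnc α]

theorem Poly_subc {γ : α → List (List (List ℤ))} {g : α → List ℤ} {s : α → ℕ} (hγ : Poly γ)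
    (hg : Poly g) (hs : Poly s) : Poly (fun a => subc (γ a) (g a) (s a)) := by
  unfold subc
  refine NPC.Poly.map (F := fun a l => ent (g a) l - (if l = 0 then (s a : ℤ) else 0))
    (UPoly.length hγ).range ?_
  have h1 : Poly (fun p : α × ℕ => p.1) := NPC.Poly.fst NPC.Poly.id
  have h2 : Poly (fun p : α × ℕ => p.2) := NPC.Poly.snd NPC.Poly.id
  exact Poly_subZ (NPC.Poly.getD (hg.comp h1) h2 (NPC.Poly.const _))
    (NPC.Poly.ite (NPC.Poly.decide_eq h2 (NPC.Poly.const 0)) (Poly_ofNat (hs.comp h1)) (NPC.Poly.const _))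

theorem Poly_unitv {γ : α → List (List (List ℤ))} {s : α → ℕ} (hγ : Poly γ)
    (hs : Poly s) : Poly (fun a => unitv (γ a) (s a)) := by
  unfold unitv
  refine NPC.Poly.map (F := fun a l => if l = s a then (1 : ℤ) else 0)
    (UPoly.length hγ).range ?_
  have h1 : Poly (fun p : α × ℕ => p.1) := NPC.Poly.fst NPC.Poly.id
  have h2 : Poly (fun p : α × ℕ => p.2) := NPC.Poly.snd NPC.Poly.id
  exact NPC.Poly.ite (NPC.Poly.decide_eq h2 (hs.comp h1)) (NPC.Poly.const _) (NPC.Poly.const _)

theorem Poly_oneq (hm : MQS) {γ : α → List (List (List ℤ))} (hγ : NPC.Poly γ) :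
    NPC.Poly (fun a => oneq (γ a)) := by
  obtain ⟨_, h1, _⟩ := hm
  exact NPC.Poly.comp (g := oneq) (f := γ) h1 hγ

theorem Poly_oneSub (hm : MQS) {γ : α → List (List (List ℤ))} {w : α → List ℤ} (hγ : Poly γ)
    (hw : Poly w) : Poly (fun a => oneSub (γ a) (w a)) := by
  unfold oneSub
  refine NPC.Poly.map (F := fun a l => ent (oneq (γ a)) l - ent (w a) l)
    (UPoly.length hγ).range ?_
  have h1 : Poly (fun p : α × ℕ => p.1) := NPC.Poly.fst NPC.Poly.id
  have h2 : Poly (fun p : α × ℕ => p.2) := NPC.Poly.snd NPC.Poly.id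
  exact Poly_subZ (NPC.Poly.getD (Poly_oneq hm (hγ.comp h1)) h2 (NPC.Poly.const _))
    (NPC.Poly.getD (hw.comp h1) h2 (NPC.Poly.const _))

theorem Poly_mulq (hm : MQS) {γ : α → List (List (List ℤ))} {q : α → ℕ} {u v : α → List ℤ}
    (hγ : NPC.Poly γ) (hq : NPC.Poly q) (hu : NPC.Poly u) (hv : NPC.Poly v) :
    NPC.Poly (fun a => mulq (γ a) (q a) (u a) (v a)) := by
  obtain ⟨h1, _⟩ := hm
  have h2 : NPC.Poly (fun a => ((γ a, q a), (u a, v a))) :=
    NPC.Poly.pair (NPC.Poly.pair hγ hq) (NPC.Poly.pair hu hv)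
  exact NPC.Poly.comp (g := fun p : (List (List (List ℤ)) × ℕ) × List ℤ × List ℤ =>
    mulq p.1.1 p.1.2 p.2.1 p.2.2) (f := fun a => ((γ a, q a), (u a, v a))) h1 h2

theorem Poly_powq (hm : MQS) {γ : α → List (List (List ℤ))} {q : α → ℕ} {u : α → List ℤ}
    {us : α → List Unit} (hγ : NPC.Poly γ) (hq : NPC.Poly q) (hu : NPC.Poly u)
    (hus : NPC.Poly us) : NPC.Poly (fun a => powq (γ a) (q a) (u a) (us a).length) := by
  obtain ⟨_, _, h1, _⟩ := hm
  have h2 : NPC.Poly (fun a => ((γ a, q a), (u a, us a))) :=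
    NPC.Poly.pair (NPC.Poly.pair hγ hq) (NPC.Poly.pair hu hus)
  exact NPC.Poly.comp (g := fun p : (List (List (List ℤ)) × ℕ) × List ℤ × List Unit =>
    powq p.1.1 p.1.2 p.2.1 p.2.2.length) (f := fun a => ((γ a, q a), (u a, us a))) h1 h2

theorem Poly_piece (hm : MQS) {γ : α → List (List (List ℤ))} {us : α → List Unit}
    {e g : α → List ℤ} {s : α → ℕ} (hγ : Poly γ) (hus : Poly us) (he : Poly e) (hg : Poly g)
    (hs : Poly s) : Poly (fun a => piece (γ a) (us a) (e a) (g a) (s a)) := by
  unfold piece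
  exact Poly_mulq hm hγ (NPC.Poly.length hus) he (Poly_oneSub hm hγ
    (Poly_powq hm hγ (NPC.Poly.length hus) (Poly_subc hγ hg hs) (NPC.Poly.tail hus)))

theorem Poly_Wm (hm : MQS) {γ : α → List (List (List ℤ))} {us : α → List Unit}
    (hγ : Poly γ) (hus : Poly us) : Poly (fun a => Wm (γ a) (us a)) := by
  unfold Wm
  refine NPC.Poly.map (F := fun a i => (List.range (γ a).length).map fun l =>
    ent (powq (γ a) (us a).length (unitv (γ a) i) (us a).length) l - ent (unitv (γ a) i) l)
    (UPoly.length hγ).range ?_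
  refine NPC.Poly.map (α := α × ℕ) (F := fun p l =>
    ent (powq (γ p.1) (us p.1).length (unitv (γ p.1) p.2) (us p.1).length) l -
      ent (unitv (γ p.1) p.2) l) (UPoly.length (hγ.comp (NPC.Poly.fst NPC.Poly.id))).range ?_
  have h1 : Poly (fun p : (α × ℕ) × ℕ => p.1.1) := NPC.Poly.fst (NPC.Poly.fst NPC.Poly.id)
  have h2 : Poly (fun p : (α × ℕ) × ℕ => p.1.2) := NPC.Poly.snd (NPC.Poly.fst NPC.Poly.id)
  have h3 : Poly (fun p : (α × ℕ) × ℕ => p.2) := NPC.Poly.snd NPC.Poly.id
  have h4 := Poly_unitv (hγ.comp h1) h2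
  exact Poly_subZ (NPC.Poly.getD (Poly_powq hm (hγ.comp h1) (NPC.Poly.length (hus.comp h1)) h4
    (hus.comp h1)) h3 (NPC.Poly.const _)) (NPC.Poly.getD h4 h3 (NPC.Poly.const _))

theorem Poly_nz {v : α → List ℤ} (hv : Poly v) : Poly (fun a => nz (v a)) := by
  unfold nz
  exact NPC.Poly.any (p := fun _ z => !decide (z = 0)) hv
    (NPC.Poly.not (NPC.Poly.decide_eq (NPC.Poly.snd NPC.Poly.id) (NPC.Poly.const 0)))

theorem Poly_stp (hm : MQS) {a : α → List (List (List ℤ)) × List Unit} {L : α → List (List ℤ)}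
    {g : α → List ℤ} (ha : Poly a) (hL : Poly L) (hg : Poly g) :
    Poly (fun x => stp (a x) (L x) (g x)) := by
  unfold stp
  refine NPC.Poly.map (F := fun _ q => q.1) (NPC.Poly.zip (NPC.Poly.filter (p := fun _ v => nz v) ?_
    (Poly_nz (NPC.Poly.snd NPC.Poly.id))) (UPoly.length ha.fst).range) (NPC.Poly.fst (NPC.Poly.snd NPC.Poly.id))
  refine NPC.Poly.flatMap (F := fun x e => (List.range (a x).2.length).map fun s =>
    piece (a x).1 (a x).2 e (g x) s) hL ?_
  refine NPC.Poly.map (α := α × List ℤ) (F := fun p s => piece (a p.1).1 (a p.1).2 p.2 (g p.1) s)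
    (UPoly.length (ha.snd.comp (NPC.Poly.fst NPC.Poly.id))).range ?_
  have h1 : Poly (fun p : (α × List ℤ) × ℕ => p.1.1) := NPC.Poly.fst (NPC.Poly.fst NPC.Poly.id)
  have h2 : Poly (fun p : (α × List ℤ) × ℕ => p.1.2) := NPC.Poly.snd (NPC.Poly.fst NPC.Poly.id)
  have h3 : Poly (fun p : (α × List ℤ) × ℕ => p.2) := NPC.Poly.snd NPC.Poly.id
  exact Poly_piece hm (ha.fst.comp h1) (ha.snd.comp h1) h2 (hg.comp h1) h3

end PolyPart

/-- The size bound for the states. -/
def Bd (a : List (List (List ℤ)) × List Unit) : ℕ :=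
  (a.1.length + 1) * ((a.1.length * (4 * (a.2.length + 1) + 5 + 1) + 1) + 1) + 1

/-- The shape of the states. -/
def Shp (a : List (List (List ℤ)) × List Unit) (L : List (List ℤ)) : Prop :=
  L.length ≤ a.1.length + 1 ∧ ∀ v ∈ L, v.length = a.1.length ∧ ∀ z ∈ v, ib z ≤ a.2.length + 1

theorem sz_le_Bd {a : List (List (List ℤ)) × List Unit} {L : List (List ℤ)} (h : Shp a L) :
    sz L ≤ Bd a := by
  refine (sz_list_le (B := a.1.length * (4 * (a.2.length + 1) + 5 + 1) + 1) fun v hv => ?_).trans ?_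
  · obtain ⟨h1, h2⟩ := h.2 v hv
    refine (sz_list_le (B := 4 * (a.2.length + 1) + 5) fun z hz => ?_).trans ?_
    · have := H532.sz_int_le z
      have := h2 z hz
      omega
    · rw [h1]
  · unfold Bd
    exact Nat.add_le_add_right (Nat.mul_le_mul_right _ h.1) 1

theorem ib_mulq {γ : List (List (List ℤ))} {q : ℕ} {u v : List ℤ} {z : ℤ}
    (hz : z ∈ mulq γ q u v) : ib z ≤ q + 1 := by
  unfold mulq at hz
  simp only [List.mem_map, List.mem_range] at hz
  obtain ⟨l, _, rfl⟩ := hz
  have hpos : (0 : ℤ) < ((max q 1 : ℕ) : ℤ) := by exact_mod_cast Nat.lt_of_lt_of_le Nat.one_pos (le_max_right _ _)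
  generalize (((List.range γ.length).map fun i =>
    ((List.range γ.length).map fun j => ent u i * ent v j * gm γ i j l).sum).sum) = x
  have h1 := Int.emod_nonneg x hpos.ne'
  have h2 := Int.emod_lt_of_pos x hpos
  rw [ib_le_iff]
  have h3 : max q 1 ≤ 2 ^ (q + 1) := by
    have := Nat.lt_two_pow_self (n := q + 1)
    omega
  omega

theorem shp_init (a : List (List (List ℤ)) × List Unit) : Shp a [oneq a.1] := by
  refine ⟨by simp, fun v hv => ?_⟩
  rw [List.mem_singleton] at hv
  subst hv
  refine ⟨by simp [oneq], fun z hz => ?_⟩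
  unfold oneq at hz
  simp only [List.mem_map, List.mem_range] at hz
  obtain ⟨l, _, rfl⟩ := hz
  split_ifs
  · rw [ib_one]; omega
  · rw [ib_zero]; omega

theorem shp_stp (a : List (List (List ℤ)) × List Unit) (L : List (List ℤ)) (g : List ℤ) :
    Shp a (stp a L g) := by
  refine ⟨?_, fun v hv => ?_⟩
  · unfold stp
    rw [List.length_map, List.length_zip, List.length_range]
    omega
  · unfold stp at hv
    rw [List.mem_map] at hv
    obtain ⟨q, hq, rfl⟩ := hv
    have h1 := (List.of_mem_zip (a := q.1) (b := q.2) hq).1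
    rw [List.mem_filter, List.mem_flatMap] at h1
    obtain ⟨⟨e, _, h2⟩, _⟩ := h1
    rw [List.mem_map] at h2
    obtain ⟨s, _, h3⟩ := h2
    rw [← h3]
    refine ⟨?_, fun z hz => ?_⟩
    · unfold piece mulq
      rw [List.length_map, List.length_range]
    · unfold piece at hz
      exact ib_mulq hz

theorem shp_foldl (a : List (List (List ℤ)) × List Unit) (G : List (List ℤ)) :
    ∀ L, Shp a L → Shp a (G.foldl (stp a) L) := by
  induction G with
  | nil => exact fun L h => h
  | cons g G ih => exact fun L _ => ih _ (shp_stp a L g)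

theorem PB_Bd : PB Bd := by
  unfold Bd
  have h1 : PB (fun a : List (List (List ℤ)) × List Unit => a.1.length) :=
    PB.length (NPC.Poly.fst NPC.Poly.id)
  have h2 : PB (fun a : List (List (List ℤ)) × List Unit => a.2.length) :=
    PB.length (NPC.Poly.snd NPC.Poly.id)
  exact ((h1.add (PB.const 1)).mul (((h1.mul ((((PB.const 4).mul (h2.add (PB.const 1))).add
    (PB.const 5)).add (PB.const 1))).add (PB.const 1)).add (PB.const 1))).add (PB.const 1)

theorem Poly_fold (hm : MQS) {l : List (List (List ℤ)) × List Unit → List (List ℤ)}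
    (hl : NPC.Poly l) : NPC.Poly (fun a => (l a).foldl (stp a) [oneq a.1]) := by
  have h1 : NPC.Poly (fun a : List (List (List ℤ)) × List Unit => a.1) :=
    NPC.Poly.fst NPC.Poly.id
  have h6 : NPC.Poly (fun a : List (List (List ℤ)) × List Unit => [oneq a.1]) :=
    NPC.Poly.cons (Poly_oneq hm h1) (NPC.Poly.const _)
  refine Poly_foldl (F := stp) (l := l)
    (s := fun a : List (List (List ℤ)) × List Unit => [oneq a.1]) hl h6 ?_ Bd PB_Bd ?_
  · exact Poly_stp hm (NPC.Poly.fst NPC.Poly.id) (NPC.Poly.fst (NPC.Poly.snd NPC.Poly.id))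
      (NPC.Poly.snd (NPC.Poly.snd NPC.Poly.id))
  · intro a k _
    exact sz_le_Bd (shp_foldl a _ _ (shp_init a))

/-- The relations used by the algorithm. -/
def rels (km : List (List ℤ) × ℕ → List (List ℤ)) (a : List (List (List ℤ)) × List Unit) :
    List (List ℤ) := km (Wm a.1 a.2, a.2.length)

theorem Poly_rels (hm : MQS) {km : List (List ℤ) × ℕ → List (List ℤ)} (hkm : NPC.Poly km) :
    NPC.Poly (rels km) := by
  have h1 : NPC.Poly (fun a : List (List (List ℤ)) × List Unit => a.1) :=
    NPC.Poly.fst NPC.Poly.id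
  have h2 : NPC.Poly (fun a : List (List (List ℤ)) × List Unit => a.2) :=
    NPC.Poly.snd NPC.Poly.id
  have h3 : NPC.Poly (fun a : List (List (List ℤ)) × List Unit => Wm a.1 a.2) :=
    Poly_Wm hm h1 h2
  have h4 : NPC.Poly (fun a : List (List (List ℤ)) × List Unit => a.2.length) :=
    NPC.Poly.length h2
  exact hkm.comp (NPC.Poly.pair h3 h4)

/-- The algorithm. -/
def alg (km : List (List ℤ) × ℕ → List (List ℤ)) (a : List (List (List ℤ)) × List Unit) :
    List (List ℤ) :=
  (rels km a).foldl (stp a) [oneq a.1]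

theorem Poly_alg (hm : MQS) {km : List (List ℤ) × ℕ → List (List ℤ)} (hkm : NPC.Poly km) :
    NPC.Poly (alg km) :=
  Poly_fold hm (Poly_rels hm hkm)

/-! ### Correctness -/

/-- The residue ring with its basic properties. -/
structure Ctx (r : ℕ) (γ : List (List (List ℤ))) (p : ℕ) (S : Type) [CommRing S]
    (ρ : (Fin r → ℤ) →+ S) : Prop where
  len : γ.length = r
  rpos : 0 < r
  surj : Function.Surjective ρ
  ker : ∀ v, ρ v = 0 ↔ ∀ l, (p : ℤ) ∣ v l
  mul : ∀ u v, ρ (mulv r γ u v) = ρ u * ρ v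
  one : ρ (vz r (oneq γ)) = 1
  mulq_len : ∀ u v, (mulq γ p u v).length = r
  mulq_val : ∀ u v l, vz r (mulq γ p u v) l = mulv r γ (vz r u) (vz r v) l % (p : ℤ)
  powq_len : ∀ u m, (powq γ p u m).length = r
  powq_val : ∀ u m, ρ (vz r (powq γ p u m)) = ρ (vz r u) ^ m

theorem vz_range {r : ℕ} (f : ℕ → ℤ) (l : Fin r) : vz r ((List.range r).map f) l = f l := by
  unfold vz
  rw [List.getD_eq_getElem _ _ (by simp)]
  simp

namespace Ctx

variable {r : ℕ} {γ : List (List (List ℤ))} {p : ℕ} {S : Type} [CommRing S]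
  {ρ : (Fin r → ℤ) →+ S} (C : Ctx r γ p S ρ)

include C

theorem congr {x y : Fin r → ℤ} : ρ x = ρ y ↔ ∀ l, (p : ℤ) ∣ x l - y l := by
  rw [← sub_eq_zero, ← map_sub, C.ker]
  rfl

theorem cast_eq_zero : (p : S) = 0 := by
  have h : (p : S) = ρ (p • vz r (oneq γ)) := by
    rw [map_nsmul, C.one, nsmul_eq_mul, mul_one]
  rw [h, C.ker]
  intro l
  rw [Pi.smul_apply, nsmul_eq_mul]
  exact dvd_mul_right _ _

theorem vz_oneq (l : Fin r) : vz r (oneq γ) l = if (l : ℕ) = 0 then 1 else 0 := by
  unfold oneq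
  rw [C.len, vz_range]

theorem nontrivial (hp : p.Prime) : Nontrivial S := by
  by_contra h
  rw [not_nontrivial_iff_subsingleton] at h
  have h1 : ρ (vz r (oneq γ)) = 0 := Subsingleton.elim _ _
  have h2 := (C.ker _).1 h1 ⟨0, C.rpos⟩
  rw [C.vz_oneq, if_pos rfl] at h2
  have h3 := Int.natAbs_dvd_natAbs.2 h2
  simp only [Int.natAbs_natCast, Int.natAbs_one, Nat.dvd_one] at h3
  exact hp.one_lt.ne' h3

theorem charP (hp : p.Prime) : CharP S p := by
  have := C.nontrivial hp
  obtain ⟨n, hn⟩ := CharP.exists S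
  have h1 : n ∣ p := (CharP.cast_eq_zero_iff S n p).1 C.cast_eq_zero
  rcases (Nat.dvd_prime hp).1 h1 with h2 | h2
  · exact absurd h2 (CharP.char_ne_one S n)
  · rwa [h2] at hn

theorem rho_mulq (u v : List ℤ) : ρ (vz r (mulq γ p u v)) = ρ (vz r u) * ρ (vz r v) := by
  rw [← C.mul, C.congr]
  intro l
  rw [C.mulq_val]
  exact ⟨-(mulv r γ (vz r u) (vz r v) l / (p : ℤ)), by
    have := Int.emod_add_mul_ediv (mulv r γ (vz r u) (vz r v) l) (p : ℤ)
    linarith⟩

theorem rho_subc (g : List ℤ) (s : ℕ) : ρ (vz r (subc γ g s)) = ρ (vz r g) - s := by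
  have h : vz r (subc γ g s) = vz r g - s • vz r (oneq γ) := by
    funext l
    unfold subc
    rw [C.len, vz_range, Pi.sub_apply, Pi.smul_apply, C.vz_oneq]
    congr 1
    split_ifs <;> simp
  rw [h, map_sub, map_nsmul, C.one, nsmul_eq_mul, mul_one]

theorem rho_oneSub (w : List ℤ) : ρ (vz r (oneSub γ w)) = 1 - ρ (vz r w) := by
  have h : vz r (oneSub γ w) = vz r (oneq γ) - vz r w := by
    funext l
    unfold oneSub
    rw [C.len, vz_range, Pi.sub_apply]
    rfl
  rw [h, map_sub, C.one]

theorem rho_piece {us : List Unit} (hus : us.length = p) (e g : List ℤ) (s : ℕ) :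
    ρ (vz r (piece γ us e g s)) = ρ (vz r e) * Ee p (ρ (vz r g)) s := by
  unfold piece
  rw [hus, C.rho_mulq, C.rho_oneSub, C.powq_val, C.rho_subc, List.length_tail, hus]
  rfl

theorem nz_mulq (hp : 0 < p) (u w : List ℤ) :
    nz (mulq γ p u w) = true ↔ ρ (vz r (mulq γ p u w)) ≠ 0 := by
  unfold nz
  rw [List.any_eq_true]
  have hlen := C.mulq_len u w
  constructor
  · rintro ⟨z, hz, hz0⟩ hc
    obtain ⟨l, hl, rfl⟩ := List.getElem_of_mem hz
    rw [hlen] at hl
    have h1 := (C.ker _).1 hc ⟨l, hl⟩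
    have h2 := C.mulq_val u w ⟨l, hl⟩
    have h3 : vz r (mulq γ p u w) ⟨l, hl⟩ = (mulq γ p u w)[l]'(by rw [hlen]; exact hl) := by
      unfold vz
      rw [List.getD_eq_getElem _ _ (by rw [hlen]; exact hl)]
    have hp' : (0 : ℤ) < p := by exact_mod_cast hp
    have h4 := Int.emod_nonneg (mulv r γ (vz r u) (vz r w) ⟨l, hl⟩) hp'.ne'
    have h5 := Int.emod_lt_of_pos (mulv r γ (vz r u) (vz r w) ⟨l, hl⟩) hp'
    rw [← h2] at h4 h5
    have h6 := Int.eq_zero_of_dvd_of_nonneg_of_lt h4 h5 h1
    rw [h3] at h6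
    simp [h6] at hz0
  · intro h
    by_contra hc
    push Not at hc
    apply h
    have h1 : vz r (mulq γ p u w) = 0 := by
      funext l
      have hl : (l : ℕ) < (mulq γ p u w).length := by rw [hlen]; exact l.2
      have h2 := hc _ (List.getElem_mem hl)
      unfold vz
      rw [List.getD_eq_getElem _ _ hl]
      simpa using h2
    rw [h1, map_zero]

theorem vz_unitv (i : ℕ) (l : Fin r) : vz r (unitv γ i) l = if (l : ℕ) = i then 1 else 0 := by
  unfold unitv
  rw [C.len, vz_range]

theorem length_Wm (us : List Unit) : (Wm γ us).length = r := by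
  unfold Wm
  rw [List.length_map, List.length_range, C.len]

theorem getD_Wm (us : List Unit) {i : ℕ} (hi : i < r) : (Wm γ us).getD i [] =
    (List.range γ.length).map fun l =>
      ent (powq γ us.length (unitv γ i) us.length) l - ent (unitv γ i) l := by
  unfold Wm
  rw [List.getD_eq_getElem _ _ (by simpa [C.len] using hi)]
  simp

theorem vec_eq (c : ℕ → ℤ) : (fun i : Fin r => c i) =
    ∑ i ∈ Finset.range r, c i • vz r (unitv γ i) := by
  funext l
  rw [Finset.sum_apply, Finset.sum_eq_single (l : ℕ)]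
  · rw [Pi.smul_apply, C.vz_unitv, if_pos rfl, smul_eq_mul, mul_one]
  · intro i _ hi
    rw [Pi.smul_apply, C.vz_unitv, if_neg (Ne.symm hi), smul_zero]
  · intro h
    exact absurd (Finset.mem_range.2 l.2) h

theorem form_eq {us : List Unit} (hus : us.length = p) (c : ℕ → ℤ) :
    (fun j : Fin r => form (Wm γ us) c j) =
      ∑ i ∈ Finset.range r, c i • (vz r (powq γ p (unitv γ i) p) - vz r (unitv γ i)) := by
  funext l
  unfold form
  rw [C.length_Wm, Finset.sum_apply]
  refine Finset.sum_congr rfl fun i hi => ?_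
  rw [C.getD_Wm us (Finset.mem_range.1 hi), Pi.smul_apply, smul_eq_mul, hus]
  congr 1
  have := vz_range (r := γ.length) (fun l => ent (powq γ p (unitv γ i) p) l - ent (unitv γ i) l)
    ⟨l, by rw [C.len]; exact l.2⟩
  exact this

theorem rho_form (hp : p.Prime) {us : List Unit} (hus : us.length = p) (c : ℕ → ℤ) :
    ρ (fun j : Fin r => form (Wm γ us) c j) =
      ρ (fun i : Fin r => c i) ^ p - ρ (fun i : Fin r => c i) := by
  have : Fact p.Prime := ⟨hp⟩
  have := C.charP hp
  rw [C.form_eq hus, C.vec_eq, map_sum, map_sum, sum_pow_char, ← Finset.sum_sub_distrib]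
  refine Finset.sum_congr rfl fun i _ => ?_
  rw [map_zsmul, map_zsmul, map_sub, C.powq_val, zsmul_eq_mul, zsmul_eq_mul, mul_pow,
    intCast_pow, mul_sub]

theorem form_ge {us : List Unit} (c : ℕ → ℤ) {j : ℕ} (hj : r ≤ j) :
    form (Wm γ us) c j = 0 := by
  unfold form
  rw [C.length_Wm]
  refine Finset.sum_eq_zero fun i hi => ?_
  rw [C.getD_Wm us (Finset.mem_range.1 hi), List.getD_eq_default _ _ (by simp [C.len, hj]),
    mul_zero]

theorem dvd_form_iff (hp : p.Prime) {us : List Unit} (hus : us.length = p) (c : ℕ → ℤ) :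
    (∀ j, (p : ℤ) ∣ form (Wm γ us) c j) ↔
      ρ (fun i : Fin r => c i) ^ p = ρ (fun i : Fin r => c i) := by
  rw [← sub_eq_zero (a := ρ (fun i : Fin r => c i) ^ p), ← C.rho_form hp hus, C.ker]
  constructor
  · intro h l
    exact h l
  · intro h j
    rcases lt_or_ge j r with h1 | h1
    · exact h ⟨j, h1⟩
    · rw [C.form_ge c h1]
      exact dvd_zero _

theorem span_split {us : List Unit} {G : List (List ℤ)} {e : S}
    (hG : ∀ g ∈ G, ∃ s : ℕ, (ρ (vz r g) - s) * e = 0) {y : Fin (Wm γ us).length → ℤ}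
    (hy : y ∈ Submodule.span ℤ {y : Fin (Wm γ us).length → ℤ | ∃ u ∈ G,
      y = fun i : Fin (Wm γ us).length => ent u i}) :
    ∃ c : ℤ, ρ (fun i : Fin r => y (Fin.cast (C.length_Wm us).symm i)) * e = c * e := by
  induction hy using Submodule.span_induction with
  | mem y hy =>
    obtain ⟨u, hu, rfl⟩ := hy
    obtain ⟨s, hs⟩ := hG u hu
    refine ⟨s, ?_⟩
    rw [sub_mul, sub_eq_zero] at hs
    push_cast
    rw [← hs]
    rfl
  | zero =>
    refine ⟨0, ?_⟩
    have : (fun i : Fin r => (0 : Fin (Wm γ us).length → ℤ) (Fin.cast (C.length_Wm us).symm i)) =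
      0 := rfl
    rw [this, map_zero]
    simp
  | add x y _ _ hx hy =>
    obtain ⟨a, ha⟩ := hx
    obtain ⟨c, hc⟩ := hy
    refine ⟨a + c, ?_⟩
    have : (fun i : Fin r => (x + y) (Fin.cast (C.length_Wm us).symm i)) =
      (fun i : Fin r => x (Fin.cast (C.length_Wm us).symm i)) +
        fun i : Fin r => y (Fin.cast (C.length_Wm us).symm i) := rfl
    rw [this, map_add, add_mul, ha, hc]
    push_cast
    ring
  | smul n x _ hx =>
    obtain ⟨a, ha⟩ := hx
    refine ⟨n * a, ?_⟩
    have : (fun i : Fin r => (n • x) (Fin.cast (C.length_Wm us).symm i)) =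
      n • (fun i : Fin r => x (Fin.cast (C.length_Wm us).symm i)) := rfl
    rw [this, map_zsmul, zsmul_eq_mul, mul_assoc, ha]
    push_cast
    ring

theorem int_eq_zero (hp : p.Prime) {n : ℤ} {e : S} (h : (n : S) * e = 0) (he : e ≠ 0) :
    (n : S) = 0 := by
  have : Fact p.Prime := ⟨hp⟩
  have := C.charP hp
  let _ : Algebra (ZMod p) S := ZMod.algebra S p
  have h1 : (n : ZMod p) • e = 0 := by
    rw [Algebra.smul_def, map_intCast, h]
  rcases smul_eq_zero.1 h1 with h2 | h2
  · have h3 := congrArg (algebraMap (ZMod p) S) h2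
    rwa [map_intCast, map_zero] at h3
  · exact absurd h2 he

theorem int_idem (hp : p.Prime) {c : ℤ} {e : S} (he : e ≠ 0) (h : (c : S) * c * e = c * e) :
    (c : S) = 0 ∨ (c : S) = 1 := by
  have : Fact p.Prime := ⟨hp⟩
  have hch := C.charP hp
  have h1 : ((c * (c - 1) : ℤ) : S) * e = 0 := by
    push_cast
    linear_combination h
  have h2 := C.int_eq_zero hp h1 he
  have h3 : (p : ℤ) ∣ c * (c - 1) := (CharP.intCast_eq_zero_iff S p _).1 h2
  rcases (Int.Prime.dvd_mul' hp h3) with h4 | h4
  · exact Or.inl ((CharP.intCast_eq_zero_iff S p _).2 h4)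
  · right
    have h5 := (CharP.intCast_eq_zero_iff S p _).2 h4
    push_cast at h5
    exact sub_eq_zero.1 h5

omit C in
theorem sum_map_range (f : ℕ → S) (n : ℕ) :
    ((List.range n).map f).sum = ∑ i ∈ Finset.range n, f i := by
  induction n with
  | zero => simp
  | succ n ih =>
    rw [List.range_succ, List.map_append, List.sum_append, Finset.sum_range_succ, ih]
    simp

omit C in
theorem sum_filter (f : List ℤ → S) (q : List ℤ → Bool) (M : List (List ℤ))
    (h : ∀ v ∈ M, q v = false → f v = 0) : ((M.filter q).map f).sum = (M.map f).sum := by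
  induction M with
  | nil => rfl
  | cons a M ih =>
    have ih' := ih fun v hv => h v (List.mem_cons_of_mem _ hv)
    cases hq : q a with
    | true =>
      rw [List.filter_cons_of_pos hq, List.map_cons, List.sum_cons, ih', List.map_cons,
        List.sum_cons]
    | false =>
      rw [List.filter_cons_of_neg (by simp [hq]), ih', List.map_cons, List.sum_cons,
        h a (by simp) hq, zero_add]

omit C in
theorem sum_flatMap' (f : List ℤ → S) (F : List ℤ → List (List ℤ)) (M : List (List ℤ))
    (h : ∀ v ∈ M, ((F v).map f).sum = f v) : ((M.flatMap F).map f).sum = (M.map f).sum := by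
  induction M with
  | nil => rfl
  | cons a M ih =>
    rw [List.flatMap_cons, List.map_append, List.sum_append, List.map_cons, List.sum_cons,
      ih fun v hv => h v (List.mem_cons_of_mem _ hv), h a (by simp)]

/-- The invariant of the algorithm. -/
structure _root_.Pool.Agent.H420_NCF.EMi.Inv (r : ℕ) (ρ : (Fin r → ℤ) →+ S)
    (L G : List (List ℤ)) : Prop where
  len : ∀ e ∈ L, e.length = r
  ne : ∀ e ∈ L, ρ (vz r e) ≠ 0
  idem : ∀ e ∈ L, ρ (vz r e) * ρ (vz r e) = ρ (vz r e)
  orth : L.Pairwise (fun e f => ρ (vz r e) * ρ (vz r f) = 0)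
  sum : (L.map fun e => ρ (vz r e)).sum = 1
  split : ∀ g ∈ G, ∀ e ∈ L, ∃ s : ℕ, (ρ (vz r g) - s) * ρ (vz r e) = 0

theorem inv_init (hp : p.Prime) : Inv r ρ [oneq γ] [] := by
  have := C.nontrivial hp
  refine ⟨?_, ?_, ?_, by simp, ?_, by simp⟩
  · intro e he
    rw [List.mem_singleton] at he
    subst he
    simp [oneq, C.len]
  · intro e he
    rw [List.mem_singleton] at he
    subst he
    rw [C.one]
    exact one_ne_zero
  · intro e he
    rw [List.mem_singleton] at he
    subst he
    rw [C.one, one_mul]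
  · simp [C.one]

theorem inv_step (hp : p.Prime) {us : List Unit} (hus : us.length = p) {L G : List (List ℤ)}
    (hI : Inv r ρ L G) {g : List ℤ} (hg : ρ (vz r g) ^ p = ρ (vz r g)) :
    Inv r ρ (stp (γ, us) L g) (g :: G) := by
  have : Fact p.Prime := ⟨hp⟩
  have hch := C.charP hp
  -- the list before truncation
  have hN : Inv r ρ ((L.flatMap fun e => (List.range us.length).map fun s =>
      piece γ us e g s).filter fun v => nz v) (g :: G) := by
    have hmem : ∀ v ∈ (L.flatMap fun e => (List.range us.length).map fun s =>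
        piece γ us e g s), ∃ e ∈ L, ∃ s, s < p ∧ v = piece γ us e g s := by
      intro v hv
      rw [List.mem_flatMap] at hv
      obtain ⟨e, he, hv⟩ := hv
      rw [List.mem_map] at hv
      obtain ⟨s, hs, rfl⟩ := hv
      rw [List.mem_range, hus] at hs
      exact ⟨e, he, s, hs, rfl⟩
    have hnz : ∀ e s, nz (piece γ us e g s) = true ↔ ρ (vz r (piece γ us e g s)) ≠ 0 := by
      intro e s
      unfold piece
      rw [hus]
      exact C.nz_mulq hp.pos _ _
    refine ⟨?_, ?_, ?_, ?_, ?_, ?_⟩
    · intro v hv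
      obtain ⟨e, he, s, hs, rfl⟩ := hmem v (List.mem_filter.1 hv).1
      unfold piece
      rw [hus]
      exact C.mulq_len _ _
    · intro v hv
      obtain ⟨h1, h2⟩ := List.mem_filter.1 hv
      obtain ⟨e, he, s, hs, rfl⟩ := hmem v h1
      exact (hnz e s).1 h2
    · intro v hv
      obtain ⟨e, he, s, hs, rfl⟩ := hmem v (List.mem_filter.1 hv).1
      rw [C.rho_piece hus]
      calc ρ (vz r e) * Ee p (ρ (vz r g)) s * (ρ (vz r e) * Ee p (ρ (vz r g)) s)
          = (ρ (vz r e) * ρ (vz r e)) * (Ee p (ρ (vz r g)) s * Ee p (ρ (vz r g)) s) := by ring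
        _ = _ := by rw [hI.idem e he, Ee_idem hg]
    · refine List.Pairwise.filter _ ?_
      rw [List.pairwise_flatMap]
      constructor
      · intro e _
        rw [List.pairwise_map]
        refine List.Pairwise.imp_of_mem ?_ (List.pairwise_lt_range (n := us.length))
        intro s t hs ht hst
        rw [List.mem_range, hus] at hs ht
        rw [C.rho_piece hus, C.rho_piece hus]
        calc ρ (vz r e) * Ee p (ρ (vz r g)) s * (ρ (vz r e) * Ee p (ρ (vz r g)) t)
            = (ρ (vz r e) * ρ (vz r e)) * (Ee p (ρ (vz r g)) s * Ee p (ρ (vz r g)) t) := by ring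
          _ = 0 := by rw [Ee_orth hg ht hs hst.ne', mul_zero]
      · refine hI.orth.imp ?_
        intro e f hef x hx y hy
        rw [List.mem_map] at hx hy
        obtain ⟨s, _, rfl⟩ := hx
        obtain ⟨t, _, rfl⟩ := hy
        rw [C.rho_piece hus, C.rho_piece hus]
        calc ρ (vz r e) * Ee p (ρ (vz r g)) s * (ρ (vz r f) * Ee p (ρ (vz r g)) t)
            = (ρ (vz r e) * ρ (vz r f)) * (Ee p (ρ (vz r g)) s * Ee p (ρ (vz r g)) t) := by ring
          _ = 0 := by rw [hef, zero_mul]
    · rw [sum_filter (fun e => ρ (vz r e))]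
      · rw [sum_flatMap' (fun e => ρ (vz r e)), hI.sum]
        intro e _
        rw [List.map_map, hus, sum_map_range]
        have h1 : ∀ s ∈ Finset.range p, ((fun e => ρ (vz r e)) ∘ fun s => piece γ us e g s) s =
            ρ (vz r e) * Ee p (ρ (vz r g)) s := fun s _ => C.rho_piece hus e g s
        rw [Finset.sum_congr rfl h1, ← Finset.mul_sum, sum_Ee, mul_one]
      · intro v hv hq
        obtain ⟨e, he, s, hs, rfl⟩ := hmem v hv
        by_contra hc
        rw [(hnz e s).2 hc] at hq
        exact absurd hq (by simp)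
    · intro g' hg' v hv
      obtain ⟨e, he, s, hs, rfl⟩ := hmem v (List.mem_filter.1 hv).1
      rw [C.rho_piece hus]
      rcases List.mem_cons.1 hg' with rfl | hg'
      · refine ⟨s, ?_⟩
        calc (ρ (vz r g') - s) * (ρ (vz r e) * Ee p (ρ (vz r g')) s)
            = ρ (vz r e) * ((ρ (vz r g') - s) * Ee p (ρ (vz r g')) s) := by ring
          _ = 0 := by rw [sub_mul_Ee hg, mul_zero]
      · obtain ⟨t, ht⟩ := hI.split g' hg' e he
        refine ⟨t, ?_⟩
        rw [← mul_assoc, ht, zero_mul]
  -- truncation does nothing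
  have hlen : ((L.flatMap fun e => (List.range us.length).map fun s =>
      piece γ us e g s).filter fun v => nz v).length ≤ r := by
    have h1 := length_le p (fun i : Fin r => ρ (vz r (unitv γ i))) (fun x => by
      obtain ⟨v, rfl⟩ := C.surj x
      refine ⟨v, ?_⟩
      have h2 := C.vec_eq (fun i => if h : i < r then v ⟨i, h⟩ else 0)
      have h3 : (fun i : Fin r => (fun i => if h : i < r then v ⟨i, h⟩ else 0) (i : ℕ)) = v := by
        funext i
        simp
      rw [h3] at h2
      conv_lhs => rw [h2]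
      rw [map_sum, Finset.sum_range]
      refine Finset.sum_congr rfl fun i _ => ?_
      rw [map_zsmul, zsmul_eq_mul]
      simp)
      (((L.flatMap fun e => (List.range us.length).map fun s =>
        piece γ us e g s).filter fun v => nz v).map fun e => ρ (vz r e)) ?_ ?_ ?_
    · rwa [List.length_map] at h1
    · intro x hx
      rw [List.mem_map] at hx
      obtain ⟨e, he, rfl⟩ := hx
      exact hN.ne e he
    · intro x hx
      rw [List.mem_map] at hx
      obtain ⟨e, he, rfl⟩ := hx
      exact hN.idem e he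
    · rw [List.pairwise_map]
      exact hN.orth
  have heq : stp (γ, us) L g = (L.flatMap fun e => (List.range us.length).map fun s =>
      piece γ us e g s).filter fun v => nz v := by
    unfold stp
    exact List.map_fst_zip (by rw [List.length_range, C.len]; exact hlen)
  rw [heq]
  exact hN

theorem inv_foldl (hp : p.Prime) {us : List Unit} (hus : us.length = p) :
    ∀ (H L G : List (List ℤ)), Inv r ρ L G → (∀ g ∈ H, ρ (vz r g) ^ p = ρ (vz r g)) →
      Inv r ρ (H.foldl (stp (γ, us)) L) (H.reverse ++ G) := by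
  intro H
  induction H with
  | nil => exact fun L G h _ => h
  | cons g H ih =>
    intro L G h hH
    rw [List.foldl_cons, List.reverse_cons, List.append_assoc]
    exact ih _ _ (C.inv_step hp hus h (hH g (by simp))) fun g' hg' => hH g' (by simp [hg'])

end Ctx

theorem rho_sum {r : ℕ} {S : Type} [CommRing S] (ρ : (Fin r → ℤ) →+ S) (L : List (List ℤ)) :
    ρ (fun l => (L.map fun e => vz r e l).sum) = (L.map fun e => ρ (vz r e)).sum := by
  induction L with
  | nil =>
    have : (fun l : Fin r => (([] : List (List ℤ)).map fun e => vz r e l).sum) = 0 := rfl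
    rw [this, map_zero]
    rfl
  | cons a L ih =>
    have : (fun l : Fin r => ((a :: L).map fun e => vz r e l).sum) =
        vz r a + fun l => (L.map fun e => vz r e l).sum := by
      funext l
      rw [List.map_cons, List.sum_cons]
      rfl
    rw [this, map_add, ih, List.map_cons, List.sum_cons]

end EMi

open EMi in
theorem emi (hb : EBS) (hm : MQS) (hk : KMS) : EMiS := by
  obtain ⟨km, hkm, hK⟩ := hk
  refine ⟨alg km, Poly_alg hm hkm, ?_⟩
  intro r γ E _ _ b hO p hp hred
  obtain ⟨_, _, _, hS⟩ := hb r γ E b hO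
  obtain ⟨S, _, ρ, hsurj, hker, hmul, hone⟩ := hS p
  obtain ⟨_, _, _, _, hM⟩ := hm
  obtain ⟨hM1, hM2, _⟩ := hM r γ E b hO
  have C : Ctx r γ p S ρ := {
    len := hO.len
    rpos := hO.pos
    surj := hsurj
    ker := hker
    mul := hmul
    one := hone
    mulq_len := fun u v => (hM1 p u v hp.pos).1
    mulq_val := fun u v l => (hM1 p u v hp.pos).2 l
    powq_len := fun u m => (hM2 p u m S ρ hp.pos hker hmul hone).1
    powq_val := fun u m => (hM2 p u m S ρ hp.pos hker hmul hone).2 }
  have hus : (List.replicate p ()).length = p := List.length_replicate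
  generalize List.replicate p () = us at hus
  have hrows : ∀ row ∈ Wm γ us, row.length = r := by
    intro row hrow
    unfold Wm at hrow
    rw [List.mem_map] at hrow
    obtain ⟨i, _, rfl⟩ := hrow
    rw [List.length_map, List.length_range, C.len]
  obtain ⟨hK1, hK2⟩ := hK (Wm γ us) r p hp.pos hrows
  have hG : ∀ g ∈ rels km (γ, us), ρ (vz r g) ^ p = ρ (vz r g) := by
    intro g hg
    unfold rels at hg
    rw [hus] at hg
    exact (C.dvd_form_iff hp hus (ent g)).1 (hK1 g hg).2
  have hI : Inv r ρ (alg km (γ, us)) ((rels km (γ, us)).reverse ++ []) :=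
    C.inv_foldl hp hus _ _ _ (C.inv_init hp) hG
  have hsplit : ∀ e ∈ alg km (γ, us), ∀ g ∈ km (Wm γ us, p),
      ∃ s : ℕ, (ρ (vz r g) - s) * ρ (vz r e) = 0 := by
    intro e he g hg
    refine hI.split g ?_ e he
    rw [List.append_nil, List.mem_reverse]
    unfold rels
    rw [hus]
    exact hg
  have hchar : (p : S) = 0 := C.cast_eq_zero
  refine ⟨fun e he => ⟨hI.len e he, ?_, ?_, fun v hv => ?_⟩, fun l => ?_⟩
  · intro l
    have h1 : ρ (mulv r γ (vz r e) (vz r e)) = ρ (vz r e) := by rw [hmul, hI.idem e he]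
    exact C.congr.1 h1 l
  · have h1 := hI.ne e he
    rw [Ne, hker] at h1
    push Not at h1
    exact h1
  · -- primitivity
    have hv1 : ρ v * ρ v = ρ v := by
      rw [← hmul]
      exact C.congr.2 hv
    have hvp : ∀ n : ℕ, ρ v ^ (n + 1) = ρ v := by
      intro n
      induction n with
      | zero => rw [zero_add, pow_one]
      | succ n ih => rw [pow_succ, ih, hv1]
    obtain ⟨n, hn⟩ : ∃ n, p = n + 1 := ⟨p - 1, by have := hp.pos; omega⟩
    have hv2 : ρ v ^ p = ρ v := by rw [hn]; exact hvp n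
    let c : ℕ → ℤ := fun i => if h : i < r then v ⟨i, h⟩ else 0
    have hcv : (fun i : Fin r => c i) = v := by
      funext i
      simp [c]
    have h3 := (C.dvd_form_iff hp hus c).2 (by rw [hcv]; exact hv2)
    obtain ⟨y, hy, hy2⟩ := hK2 c h3
    obtain ⟨a, ha⟩ := C.span_split (us := us) (e := ρ (vz r e)) (hsplit e he) hy
    have h4 : ρ v = ρ (fun i : Fin r => y (Fin.cast (C.length_Wm us).symm i)) := by
      rw [C.congr]
      intro l
      have h5 := hy2 (Fin.cast (C.length_Wm us).symm l)
      have h6 : c ((Fin.cast (C.length_Wm us).symm l : Fin (Wm γ us).length) : ℕ) = v l := by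
        simp [c]
      rw [h6] at h5
      exact h5
    rw [← h4] at ha
    have hne := hI.ne e he
    have hid := hI.idem e he
    have h5 : (a : S) * a * ρ (vz r e) = a * ρ (vz r e) := by
      calc (a : S) * a * ρ (vz r e) = a * (a * ρ (vz r e)) := by ring
        _ = a * (ρ v * ρ (vz r e)) := by rw [ha]
        _ = ρ v * (a * ρ (vz r e)) := by ring
        _ = ρ v * (ρ v * ρ (vz r e)) := by rw [ha]
        _ = (ρ v * ρ v) * ρ (vz r e) := by ring
        _ = ρ v * ρ (vz r e) := by rw [hv1]
        _ = a * ρ (vz r e) := ha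
    rcases C.int_idem hp hne h5 with h6 | h6
    · left
      rw [h6, zero_mul] at ha
      have h7 : ρ (mulv r γ (vz r e) v) = 0 := by rw [hmul, mul_comm, ha]
      exact (hker _).1 h7
    · right
      rw [h6, one_mul] at ha
      have h7 : ρ (mulv r γ (vz r e) v) = ρ (vz r e) := by rw [hmul, mul_comm, ha]
      exact C.congr.1 h7
  · have h1 : ρ (fun l => ((alg km (γ, us)).map fun e => vz r e l).sum) = ρ (vz r (oneq γ)) := by
      rw [rho_sum, hI.sum, hone]
    have h2 := C.congr.1 h1 l
    rw [C.vz_oneq] at h2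
    exact h2

end Pool.Agent.H420_NCF
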