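import Pool.Agent.H420_NCF.Spec

/-!
# test of reducedness modulo a small prime (module EMt)
-/

namespace Pool.Agent.H420_NCF.EMt

open Pool.Agent.NPC Pool.Agent.NPC.H532 Pool.Agent.H687R2.LLL Pool.Agent.H420_NCF

/-- A unit vector. -/
def uv (n i : ℕ) : List ℤ := (List.range n).map fun l => if l = i then 1 else 0

/-- The matrix of the Frobenius map. -/
def frob (γ : List (List (List ℤ))) (us : List Unit) : List (List ℤ) :=
  (List.range γ.length).map fun i => powq γ us.length (uv γ.length i) us.length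

/-- The test. -/
def tst (km : List (List ℤ) × ℕ → List (List ℤ)) (a : List (List (List ℤ)) × List Unit) : Bool :=
  (km (frob a.1 a.2, a.2.length)).all fun u => u.all fun z => decide (z % (a.2.length : ℤ) = 0)

section P

variable {α : Type} [TEnc α]

theorem Poly_emod {f : α → ℤ} {n : α → ℕ} (hf : Poly f) (hn : Poly n) :
    Poly (fun a => f a % (n a : ℤ)) :=
  (NPC.Poly.isub hf (NPC.Poly.imul (NPC.Poly.natCast hn) (NPC.Poly.idiv hf hn))).congr fun a => by
    have := Int.emod_add_mul_ediv (f a) (n a : ℤ)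
    linarith

theorem Poly_uv {n i : α → ℕ} (hn : UPoly n) (hi : Poly i) : Poly (fun a => uv (n a) (i a)) := by
  unfold uv
  refine NPC.Poly.map hn.range ?_
  exact NPC.Poly.ite (NPC.Poly.decide_eq (NPC.Poly.snd NPC.Poly.id)
    (hi.comp (NPC.Poly.fst NPC.Poly.id))) (NPC.Poly.const 1) (NPC.Poly.const 0)

theorem Poly_frob (hm : Poly (fun p : (List (List (List ℤ)) × ℕ) × List ℤ × List Unit =>
    powq p.1.1 p.1.2 p.2.1 p.2.2.length)) :
    Poly (fun a : List (List (List ℤ)) × List Unit => frob a.1 a.2) := by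
  refine NPC.Poly.map (l := fun a : List (List (List ℤ)) × List Unit => List.range a.1.length)
    (F := fun a i => powq a.1 a.2.length (uv a.1.length i) a.2.length)
    (UPoly.length (NPC.Poly.fst NPC.Poly.id)).range ?_
  have h1 : Poly (fun p : (List (List (List ℤ)) × List Unit) × ℕ => p.1.1) :=
    NPC.Poly.fst (NPC.Poly.fst NPC.Poly.id)
  have h2 : Poly (fun p : (List (List (List ℤ)) × List Unit) × ℕ => p.1.2) :=
    NPC.Poly.snd (NPC.Poly.fst NPC.Poly.id)
  exact NPC.Poly.comp (f := fun p : (List (List (List ℤ)) × List Unit) × ℕ =>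
    ((p.1.1, p.1.2.length), uv p.1.1.length p.2, p.1.2)) hm
    (NPC.Poly.pair (NPC.Poly.pair h1 (NPC.Poly.length h2))
    (NPC.Poly.pair (Poly_uv (UPoly.length h1) (NPC.Poly.snd NPC.Poly.id)) h2))

theorem Poly_tst {km : List (List ℤ) × ℕ → List (List ℤ)} (hkm : Poly km)
    (hm : Poly (fun p : (List (List (List ℤ)) × ℕ) × List ℤ × List Unit =>
    powq p.1.1 p.1.2 p.2.1 p.2.2.length)) : Poly (tst km) := by
  unfold tst
  refine NPC.Poly.all (hkm.comp (NPC.Poly.pair (Poly_frob hm)
    (NPC.Poly.length (NPC.Poly.snd NPC.Poly.id)))) ?_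
  refine NPC.Poly.all (NPC.Poly.snd NPC.Poly.id) ?_
  exact NPC.Poly.decide_eq (Poly_emod (NPC.Poly.snd NPC.Poly.id)
    (NPC.Poly.length (NPC.Poly.snd (NPC.Poly.fst (NPC.Poly.fst NPC.Poly.id))))) (NPC.Poly.const 0)

end P

theorem getD_map_range {β : Type} (r : ℕ) (f : ℕ → β) (l : ℕ) (hl : l < r) (d : β) :
    ((List.range r).map f).getD l d = f l := by
  have : l < ((List.range r).map f).length := by simpa using hl
  rw [List.getD_eq_getElem _ _ this, List.getElem_map, List.getElem_range]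

theorem vz_uv (r : ℕ) (i : Fin r) : vz r (uv r i) = Pi.single i 1 := by
  funext l
  unfold vz uv
  rw [getD_map_range _ _ _ l.2]
  by_cases h : l = i
  · subst h; rw [if_pos rfl, Pi.single_eq_same]
  · rw [if_neg (fun h' => h (Fin.ext h')), Pi.single_eq_of_ne h]

/-- Fermat in a ring of characteristic `p`. -/
theorem fermat {S : Type} [CommRing S] (p : ℕ) [Fact p.Prime] [CharP S p] (c : ℤ) :
    (c : S) ^ p = c := by
  have h1 : ((c : ZMod p)) ^ p = c := ZMod.pow_card _
  have h2 := congrArg (ZMod.castHom (dvd_refl p) S) h1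
  rwa [map_pow, map_intCast] at h2

theorem frob_spec {S : Type} [CommRing S] {r : ℕ} {γ : List (List (List ℤ))} (hγ : γ.length = r)
    (p : ℕ) [Fact p.Prime] [CharP S p] (ρ : (Fin r → ℤ) →+ S)
    (hpow : ∀ u : List ℤ, ρ (vz r (powq γ p u p)) = ρ (vz r u) ^ p) (c : ℕ → ℤ) :
    ρ (fun i => c i) ^ p = ρ (fun l => form (frob γ (List.replicate p ())) c l) := by
  have h1 : (fun i : Fin r => c i) = ∑ i : Fin r, c i • (Pi.single i 1 : Fin r → ℤ) := by
    funext l
    rw [Finset.sum_apply, Finset.sum_eq_single l]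
    · rw [Pi.smul_apply, Pi.single_eq_same, smul_eq_mul, mul_one]
    · intro b _ hb
      rw [Pi.smul_apply, Pi.single_eq_of_ne (Ne.symm hb), smul_zero]
    · intro h; exact absurd (Finset.mem_univ _) h
  rw [h1, map_sum, sum_pow_char]
  have h2 : (fun l : Fin r => form (frob γ (List.replicate p ())) c l) =
      ∑ i : Fin r, c i • vz r (powq γ p (uv r i) p) := by
    funext l
    rw [Finset.sum_apply]
    unfold form frob
    rw [List.length_map, List.length_range, hγ, List.length_replicate, Finset.sum_range]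
    refine Finset.sum_congr rfl fun i _ => ?_
    rw [getD_map_range _ _ _ i.2, Pi.smul_apply, smul_eq_mul]
    rfl
  rw [h2, map_sum]
  refine Finset.sum_congr rfl fun i _ => ?_
  rw [map_zsmul, map_zsmul, zsmul_eq_mul, zsmul_eq_mul, mul_pow, fermat, hpow, vz_uv]

end Pool.Agent.H420_NCF.EMt

namespace Pool.Agent.H420_NCF

open Pool.Agent.NPC Pool.Agent.NPC.H532 Pool.Agent.H687R2.LLL
open scoped Matrix

theorem emt (hb : EBS) (hm : MQS) (hk : KMS) : EMtS := by
  obtain ⟨-, -, hm1, -, hm2⟩ := hm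
  obtain ⟨km, hkm, hkm2⟩ := hk
  refine ⟨EMt.tst km, EMt.Poly_tst hkm hm1, ?_⟩
  intro r γ E _ _ b hO p hp
  have hγ := hO.len
  have : Fact p.Prime := ⟨hp⟩
  obtain ⟨-, -, -, hres⟩ := hb r γ E b hO
  obtain ⟨S, _, ρ, hs, hker, hmul, h1⟩ := hres p
  obtain ⟨-, hpw, -⟩ := hm2 r γ E b hO
  have hpow := fun (u : List ℤ) (m : ℕ) => hpw p u m S ρ hp.pos hker hmul h1
  -- nontrivial
  have hnt : Nontrivial S := by
    by_contra hcon
    rw [not_nontrivial_iff_subsingleton] at hcon
    have h2 : ρ (fun _ => 1) = 0 := Subsingleton.elim _ _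
    rw [hker] at h2
    have h3 := h2 ⟨0, hO.pos⟩
    have h4 : (p : ℤ) ∣ 1 := h3
    exact hp.one_lt.ne' (by exact_mod_cast Int.eq_one_of_dvd_one (by positivity) h4)
  have hp0 : (p : S) = 0 := by
    have h2 : ρ ((p : ℤ) • vz r (oneq γ)) = 0 := by
      rw [hker]; intro l
      exact ⟨vz r (oneq γ) l, by rw [Pi.smul_apply, smul_eq_mul]⟩
    rw [map_zsmul, h1, zsmul_eq_mul, mul_one] at h2
    exact_mod_cast h2
  have : CharP S p := (CharP.charP_iff_prime_eq_zero hp).2 hp0
  have hfrob := fun c => EMt.frob_spec hγ p ρ (fun u => (hpow u p).2) c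
  set X := EMt.frob γ (List.replicate p ()) with hX
  have hXl : X.length = r := by
    rw [hX]; unfold EMt.frob; rw [List.length_map, List.length_range, hγ]
  have hXr : ∀ x ∈ X, x.length = r := by
    intro x hx
    rw [hX] at hx
    unfold EMt.frob at hx
    obtain ⟨i, _, rfl⟩ := List.mem_map.1 hx
    rw [List.length_replicate]
    exact (hpow _ _).1
  have hout : ∀ (c : ℕ → ℤ) (j : ℕ), r ≤ j → form X c j = 0 := by
    intro c j hj
    unfold form
    refine Finset.sum_eq_zero fun i hi => ?_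
    have hi' := Finset.mem_range.1 hi
    rw [List.getD_eq_getElem X _ hi', List.getD_eq_default _ _ (by
      rw [hXr _ (List.getElem_mem _)]; exact hj), mul_zero]
  have hform : ∀ c : ℕ → ℤ, (∀ j, (p : ℤ) ∣ form X c j) ↔ ρ (fun i => c i) ^ p = 0 := by
    intro c
    rw [hfrob, hker]
    constructor
    · intro h l; exact h l
    · intro h j
      by_cases hj : j < r
      · exact h ⟨j, hj⟩
      · rw [hout c j (by omega)]; exact dvd_zero _
  obtain ⟨hk1, hk2⟩ := hkm2 X r p hp.pos hXr
  have htst : EMt.tst km (γ, List.replicate p ()) = true ↔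
      ∀ u ∈ km (X, p), ∀ z ∈ u, (p : ℤ) ∣ z := by
    unfold EMt.tst
    simp only [List.length_replicate]
    rw [← hX, List.all_eq_true]
    simp only [List.all_eq_true, decide_eq_true_eq, Int.dvd_iff_emod_eq_zero]
  rw [htst]
  constructor
  · intro ht v hv
    have h2 : ρ v * ρ v = 0 := by
      rw [← hmul, hker]; exact hv
    set c : ℕ → ℤ := fun i => if h : i < r then v ⟨i, h⟩ else 0 with hc
    have hcv : (fun i : Fin r => c i) = v := by
      funext i
      rw [hc]
      simp
    have h3 : ∀ j, (p : ℤ) ∣ form X c j := by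
      rw [hform, hcv]
      obtain ⟨m, hm⟩ : ∃ m, p = 2 + m := ⟨p - 2, by have := hp.two_le; omega⟩
      have : ρ v ^ 2 = 0 := by rw [pow_two, h2]
      have e : ρ v ^ p = ρ v ^ 2 * ρ v ^ m := by rw [← pow_add, ← hm]
      rw [e, this, zero_mul]
    obtain ⟨y, hy, hyc⟩ := hk2 c h3
    have hyd : ∀ i, (p : ℤ) ∣ y i := by
      refine Submodule.span_induction (p := fun y _ => ∀ i, (p : ℤ) ∣ y i) ?_ ?_ ?_ ?_ hy
      · rintro _ ⟨u, hu, rfl⟩ i
        have hul := (hk1 u hu).1
        have hi : (i : ℕ) < u.length := by rw [hul]; exact i.2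
        change (p : ℤ) ∣ ent u i
        unfold ent
        rw [List.getD_eq_getElem _ _ hi]
        exact ht u hu _ (List.getElem_mem _)
      · intro i; exact dvd_zero _
      · intro x y _ _ hx hy i
        exact dvd_add (hx i) (hy i)
      · intro a x _ hx i
        exact Dvd.dvd.mul_left (hx i) _
    intro l
    have h4 := hyc ⟨l, by rw [hXl]; exact l.2⟩
    have h5 := dvd_add h4 (hyd ⟨l, by rw [hXl]; exact l.2⟩)
    rw [sub_add_cancel] at h5
    have h6 : c l = v l := congrFun hcv l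
    rw [← h6]
    exact h5
  · intro hred u hu z hz
    have hsq : ∀ x : S, x ^ 2 = 0 → x = 0 := by
      intro x hx
      obtain ⟨v, rfl⟩ := hs x
      rw [pow_two, ← hmul, hker] at hx
      exact (hker v).2 (hred v hx)
    have : IsReduced S := (isReduced_iff_pow_one_lt 2 (by norm_num)).2 hsq
    obtain ⟨hul, huf⟩ := hk1 u hu
    have h2 := (hform _).1 huf
    have h3 : ρ (fun i : Fin r => ent u i) = 0 := pow_eq_zero_iff (hp.ne_zero) |>.1 h2
    rw [hker] at h3
    obtain ⟨i, hi, rfl⟩ := List.getElem_of_mem hz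
    have h4 := h3 ⟨i, by rw [← hXl, ← hul]; exact hi⟩
    change (p : ℤ) ∣ ent u i at h4
    unfold ent at h4
    rwa [List.getD_eq_getElem _ _ hi] at h4

end Pool.Agent.H420_NCF
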