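import Pool.Agent.H420_NCF.Spec
import Pool.Agent.ER.Rat

/-!
# the final factorisation algorithm: exact product, rational coefficients (module Final)
-/

namespace Pool.Agent.H420_NCF

open Pool.Agent.NPC Pool.Agent.NPC.H532 Pool.Agent.H687R2.LLL
open scoped Matrix

namespace Final

section Comp
variable {α : Type} [TEnc α]

theorem Poly_rat {q : α → ℚ} (h1 : Poly fun a => (q a).num) (h2 : Poly fun a => (q a).den) :
    Poly q := NPC.Poly.pair h1 h2

theorem Poly_mkRat {x : α → ℤ} {y : α → ℕ} (hx : Poly x) (hy : Poly y) :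
    Poly (fun a => mkRat (x a) (y a)) := by
  have hg : Poly fun a => (y a).gcd (x a).natAbs := NPC.Poly.gcd hy (NPC.Poly.natAbs hx)
  apply Poly_rat
  · refine (NPC.Poly.ite (p := fun a => y a = 0) (NPC.Poly.decide_eq hy (NPC.Poly.const 0)) (NPC.Poly.const (0 : ℤ))
      (NPC.Poly.idiv hx hg)).congr fun a => ?_
    rw [Rat.num_mkRat]
  · refine (NPC.Poly.ite (p := fun a => y a = 0) (NPC.Poly.decide_eq hy (NPC.Poly.const 0)) (NPC.Poly.const 1)
      (NPC.Poly.div hy hg)).congr fun a => ?_
    rw [Rat.den_mkRat]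

/-- The quotient of two integers as a rational number. -/
def qdiv (x y : ℤ) : ℚ := mkRat (if y < 0 then -x else x) y.natAbs

theorem qdiv_eq (x y : ℤ) : qdiv x y = (x : ℚ) / y := by
  unfold qdiv
  rw [Rat.mkRat_eq_div]
  split_ifs with h
  · have h1 : ((y.natAbs : ℕ) : ℚ) = -(y : ℚ) := by
      rw [Nat.cast_natAbs, abs_of_neg h, Int.cast_neg]
    rw [h1]
    push_cast
    rw [neg_div_neg_eq]
  · have h1 : ((y.natAbs : ℕ) : ℚ) = (y : ℚ) := by
      rw [Nat.cast_natAbs, abs_of_nonneg (not_lt.1 h)]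
    rw [h1]

theorem Poly_qdiv {x y : α → ℤ} (hx : Poly x) (hy : Poly y) :
    Poly (fun a => qdiv (x a) (y a)) := by
  unfold qdiv
  exact Poly_mkRat (NPC.Poly.ite (NPC.Poly.isNeg hy) (NPC.Poly.ineg hx) hx) (NPC.Poly.natAbs hy)

end Comp

/-- The product of the denominators. -/
def dn (f : List (List ℕ × ℚ)) : ℕ := (f.map fun t => t.2.den).prod

/-- Clearing denominators. -/
def clr (f : List (List ℕ × ℚ)) : IP := f.map fun t => (t.1, RP.zq (dn f) t.2)

/-- Normal form. -/
def nf (g : IP) : IP := toIP (ws g) (vecOf (ws g) g)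

/-- Test for constants, for polynomials in normal form. -/
def isC (g : IP) : Bool := g.all fun t => t.1.isEmpty

/-- A term with a word of maximal length. -/
def top (g : IP) : List ℕ × ℤ :=
  g.foldl (fun s t => if s.1.length ≤ t.1.length then t else s) ([], 0)

theorem Poly_dn : Poly dn :=
  RP.Poly_prodN (NPC.Poly.map NPC.Poly.id (RP.Poly_den (NPC.Poly.snd (NPC.Poly.snd NPC.Poly.id))))

theorem Poly_clr : Poly clr :=
  NPC.Poly.map (F := fun (f : List (List ℕ × ℚ)) (t : List ℕ × ℚ) => (t.1, RP.zq (dn f) t.2)) NPC.Poly.id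
    (NPC.Poly.pair (NPC.Poly.fst (NPC.Poly.snd NPC.Poly.id))
      (RP.Poly_zq (Poly_dn.comp (NPC.Poly.fst NPC.Poly.id)) (NPC.Poly.snd (NPC.Poly.snd NPC.Poly.id))))

theorem dn_ne (f : List (List ℕ × ℚ)) : dn f ≠ 0 := by
  unfold dn
  rw [Ne, List.prod_eq_zero_iff]
  simp

theorem pol_clr (f : List (List ℕ × ℚ)) : pol (clr f) = (dn f : ℚ) • polQ f := by
  unfold pol clr polQ
  rw [List.map_map, List.smul_sum, List.map_map]
  congr 1
  apply List.map_congr_left
  intro t ht
  simp only [Function.comp]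
  rw [RP.zq_cast, mul_smul]
  unfold dn
  exact List.dvd_prod (List.mem_map.2 ⟨t, ht, rfl⟩)

theorem Poly_top : Poly top := by
  refine Poly_foldl (s := fun _ => (([], 0) : List ℕ × ℤ))
    (F := fun _ (s : List ℕ × ℤ) (t : List ℕ × ℤ) => if s.1.length ≤ t.1.length then t else s)
    NPC.Poly.id (NPC.Poly.const _) ?_ (fun g => sz g + sz (([], 0) : List ℕ × ℤ)) ?_ ?_
  · exact NPC.Poly.ite (p := fun p : IP × (List ℕ × ℤ) × (List ℕ × ℤ) => p.2.1.1.length ≤ p.2.2.1.length)
      (NPC.Poly.decide_le (NPC.Poly.length (NPC.Poly.fst (NPC.Poly.fst (NPC.Poly.snd NPC.Poly.id))))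
        (NPC.Poly.length (NPC.Poly.fst (NPC.Poly.snd (NPC.Poly.snd NPC.Poly.id)))))
      (NPC.Poly.snd (NPC.Poly.snd NPC.Poly.id)) (NPC.Poly.fst (NPC.Poly.snd NPC.Poly.id))
  · exact (PB.sz NPC.Poly.id).add (PB.const _)
  · intro g k _
    have key : ∀ (l : IP) (s : List ℕ × ℤ),
        (l.foldl (fun s t => if s.1.length ≤ t.1.length then t else s) s) = s ∨
        (l.foldl (fun s t => if s.1.length ≤ t.1.length then t else s) s) ∈ l := by
      intro l
      induction l with
      | nil => intro s; left; rfl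
      | cons b l ih =>
        intro s
        rw [List.foldl_cons]
        rcases ih (if s.1.length ≤ b.1.length then b else s) with h | h
        · rw [h]
          split_ifs
          · right; simp
          · left; rfl
        · right; exact List.mem_cons_of_mem _ h
    rcases key (g.take k) ([], 0) with h | h
    · rw [h]; omega
    · have := sz_le_of_mem (List.mem_of_mem_take h)
      omega

theorem top_spec (g : IP) (hg : g ≠ []) : top g ∈ g ∧ ∀ t ∈ g, t.1.length ≤ (top g).1.length := by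
  have key : ∀ (l : IP) (s : List ℕ × ℤ),
      ((l.foldl (fun s t => if s.1.length ≤ t.1.length then t else s) s) = s ∨
      (l.foldl (fun s t => if s.1.length ≤ t.1.length then t else s) s) ∈ l) ∧
      s.1.length ≤ (l.foldl (fun s t => if s.1.length ≤ t.1.length then t else s) s).1.length ∧
      ∀ t ∈ l, t.1.length ≤
        (l.foldl (fun s t => if s.1.length ≤ t.1.length then t else s) s).1.length := by
    intro l
    induction l with
    | nil => intro s; exact ⟨Or.inl rfl, le_rfl, by simp⟩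
    | cons b l ih =>
      intro s
      rw [List.foldl_cons]
      obtain ⟨h1, h2, h3⟩ := ih (if s.1.length ≤ b.1.length then b else s)
      refine ⟨?_, ?_, ?_⟩
      · rcases h1 with h | h
        · rw [h]
          split_ifs
          · right; simp
          · left; rfl
        · right; exact List.mem_cons_of_mem _ h
      · refine le_trans ?_ h2
        split_ifs with h
        · exact h
        · exact le_rfl
      · intro t ht
        rcases List.mem_cons.1 ht with rfl | ht
        · refine le_trans ?_ h2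
          split_ifs with h
          · exact le_rfl
          · omega
        · exact h3 t ht
  obtain ⟨b, l, rfl⟩ := List.exists_cons_of_ne_nil hg
  unfold top
  rw [List.foldl_cons]
  simp only [List.length_nil, Nat.zero_le, if_true]
  obtain ⟨h1, h2, h3⟩ := key l b
  refine ⟨?_, ?_⟩
  · rcases h1 with h | h
    · rw [h]; simp
    · exact List.mem_cons_of_mem _ h
  · intro t ht
    rcases List.mem_cons.1 ht with rfl | ht
    · exact h2
    · exact h3 t ht

/-- The term `w` has coefficient `a` and is longest possible. -/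
def Lead (P : NC ℚ) (w : List ℕ) (a : ℚ) : Prop :=
  cf w P = a ∧ ∀ v : List ℕ, w.length < v.length → cf v P = 0

theorem Lead.one : Lead 1 [] 1 := by
  constructor
  · exact eps_one
  · intro v hv
    rw [← mon_nil, cf_mon, if_neg]
    rintro rfl
    simp at hv

theorem Lead.mul {P Q : NC ℚ} {u v : List ℕ} {a b : ℚ} (hP : Lead P u a) (hQ : Lead Q v b) :
    Lead (P * Q) (u ++ v) (a * b) := by
  constructor
  · rw [cf_mul, Finset.sum_eq_single u.length]
    · rw [List.take_left, List.drop_left, hP.1, hQ.1]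
    · intro i hi hne
      rcases lt_or_gt_of_ne hne with h | h
      · rw [hQ.2 _ (by simp; omega), mul_zero]
      · simp only [Finset.mem_range, List.length_append] at hi
        rw [hP.2 _ (by rw [List.length_take, List.length_append]; omega), zero_mul]
    · intro h; exact absurd (Finset.mem_range.2 (by rw [List.length_append]; omega)) h
  · intro w hw
    rw [List.length_append] at hw
    rw [cf_mul]
    refine Finset.sum_eq_zero fun i hi => ?_
    simp only [Finset.mem_range] at hi
    by_cases h : u.length < i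
    · rw [hP.2 _ (by rw [List.length_take]; omega), zero_mul]
    · rw [hQ.2 _ (by rw [List.length_drop]; omega), mul_zero]

/-- The concatenation of the leading words. -/
def lw (G : List IP) : List ℕ := (G.map fun g => (top g).1).flatten

/-- The product of the leading coefficients. -/
def la (G : List IP) : ℤ := (G.map fun g => (top g).2).prod

/-- `g` is in normal form, not constant. -/
def Nice (g : IP) : Prop := (g.map fun t => t.1).Nodup ∧ g ≠ [] ∧
  (∀ t ∈ g, t.2 ≠ 0 ∧ cf t.1 (pol g) = t.2) ∧ ∀ w, cf w (pol g) ≠ 0 → ∃ t ∈ g, t.1 = w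

theorem Nice.lead {g : IP} (h : Nice g) : Lead (pol g) (top g).1 ((top g).2 : ℤ) := by
  obtain ⟨h1, h2⟩ := top_spec g h.2.1
  refine ⟨(h.2.2.1 _ h1).2, fun v hv => ?_⟩
  by_contra hne
  obtain ⟨t, ht, rfl⟩ := h.2.2.2 v hne
  have := h2 t ht
  omega

theorem lead_prod (G : List IP) (h : ∀ g ∈ G, Nice g) :
    Lead (G.map pol).prod (lw G) (la G : ℤ) := by
  induction G with
  | nil => simpa [lw, la] using Lead.one
  | cons g G ih =>
    have h1 := (h g (by simp)).lead.mul (ih fun g hg => h g (List.mem_cons_of_mem _ hg))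
    unfold lw la at h1 ⊢
    simpa using h1

theorem la_ne (G : List IP) (h : ∀ g ∈ G, Nice g) : la G ≠ 0 := by
  unfold la
  rw [Ne, List.prod_eq_zero_iff, List.mem_map]
  rintro ⟨g, hg, h0⟩
  exact ((h g hg).2.2.1 _ (top_spec g (h g hg).2.1).1).1 h0

theorem Poly_lw : Poly lw :=
  NPC.Poly.flatten (NPC.Poly.map (F := fun (_ : List IP) (g : IP) => (top g).1) NPC.Poly.id
    (NPC.Poly.fst (Poly_top.comp (NPC.Poly.snd NPC.Poly.id))))

theorem Poly_la : Poly la :=
  RP.Poly_prodZ (NPC.Poly.map (F := fun (_ : List IP) (g : IP) => (top g).2) NPC.Poly.id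
    (NPC.Poly.snd (Poly_top.comp (NPC.Poly.snd NPC.Poly.id))))

/-- Multiplication by a rational number. -/
def sc (x y : ℤ) (g : IP) : List (List ℕ × ℚ) := g.map fun t => (t.1, qdiv (t.2 * x) y)

theorem Poly_sc {α : Type} [TEnc α] {x y : α → ℤ} {g : α → IP} (hx : Poly x) (hy : Poly y)
    (hg : Poly g) : Poly fun a => sc (x a) (y a) (g a) := by
  unfold sc
  exact NPC.Poly.map (F := fun (a : α) (t : List ℕ × ℤ) => (t.1, qdiv (t.2 * x a) (y a))) hg
    (NPC.Poly.pair (NPC.Poly.fst (NPC.Poly.snd NPC.Poly.id))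
      (Poly_qdiv (NPC.Poly.imul (NPC.Poly.snd (NPC.Poly.snd NPC.Poly.id))
        (hx.comp (NPC.Poly.fst NPC.Poly.id))) (hy.comp (NPC.Poly.fst NPC.Poly.id))))

theorem polQ_sc (x y : ℤ) (g : IP) : polQ (sc x y g) = ((x : ℚ) / y) • pol g := by
  unfold polQ sc pol
  rw [List.map_map, List.smul_sum, List.map_map]
  congr 1
  apply List.map_congr_left
  intro t ht
  simp only [Function.comp]
  rw [qdiv_eq, smul_smul]
  push_cast
  congr 1
  ring

theorem redQ_sc {x y : ℤ} (hx : x ≠ 0) (hy : y ≠ 0) {g : IP} (hg : Nice g) : RedQ (sc x y g) := by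
  constructor
  · have : (sc x y g).map (fun t => t.1) = g.map fun t => t.1 := by
      unfold sc
      rw [List.map_map]
      rfl
    rw [this]
    exact hg.1
  · intro t ht
    unfold sc at ht
    obtain ⟨s, hs, rfl⟩ := List.mem_map.1 ht
    have := (hg.2.2.1 s hs).1
    simp only
    rw [qdiv_eq]
    push_cast
    have h1 : (s.2 : ℚ) ≠ 0 := by exact_mod_cast this
    have h2 : (x : ℚ) ≠ 0 := by exact_mod_cast hx
    have h3 : (y : ℚ) ≠ 0 := by exact_mod_cast hy
    positivity

theorem isUnit_smul_one {c : ℚ} (hc : c ≠ 0) : IsUnit (c • (1 : NC ℚ)) := by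
  refine ⟨⟨c • 1, c⁻¹ • 1, ?_, ?_⟩, rfl⟩ <;> simp [smul_smul, hc]

theorem irreducible_smul {c : ℚ} (hc : c ≠ 0) {P : NC ℚ} (hP : Irreducible P) :
    Irreducible (c • P) := by
  obtain ⟨u, hu⟩ := isUnit_smul_one hc
  have : c • P = u * P := by rw [hu, smul_mul_assoc, one_mul]
  rw [this]
  exact (irreducible_units_mul u).2 hP

section Main
variable (A : IP → List (Bool × IP)) (A2 : IP → List IP)

/-- All factors of the first two modules. -/
def fl (f : IP) : List IP := (A f).flatMap fun t => if t.1 = true then [t.2] else A2 t.2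

/-- The factors that are not constants, in normal form. -/
def fac (f : IP) : List IP := ((fl A A2 f).map nf).filter fun g => !(isC g)

/-- The algorithm. -/
def out (f : List (List ℕ × ℚ)) : List (List (List ℕ × ℚ)) :=
  match fac A A2 (clr f) with
  | [] => []
  | g :: G => sc (cof (clr f) (lw (g :: G))) (la (g :: G) * (dn f : ℤ)) g :: G.map (sc 1 1)

variable {A A2}

theorem Poly_nf (hv : VTS) : Poly nf := by
  obtain ⟨h1, -, -, h4, h5, -⟩ := hv
  exact h5.comp (NPC.Poly.pair h1 (h4.comp (NPC.Poly.pair h1 NPC.Poly.id)))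

theorem Poly_fac (hv : VTS) (h1 : Poly A) (h2 : Poly A2) : Poly (fac A A2) := by
  unfold fac fl
  refine NPC.Poly.filter (p := fun (_ : IP) (g : IP) => !(isC g)) (NPC.Poly.map
    (F := fun (_ : IP) (g : IP) => nf g) (NPC.Poly.flatMap
      (F := fun (_ : IP) (t : Bool × IP) => if t.1 = true then [t.2] else A2 t.2) h1 ?_)
      ((Poly_nf hv).comp (NPC.Poly.snd NPC.Poly.id))) ?_
  · exact NPC.Poly.ite (p := fun (p : IP × (Bool × IP)) => p.2.1 = true)
      (NPC.Poly.decide_bool (NPC.Poly.fst (NPC.Poly.snd NPC.Poly.id)))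
      (NPC.Poly.cons (NPC.Poly.snd (NPC.Poly.snd NPC.Poly.id)) (NPC.Poly.const []))
      (h2.comp (NPC.Poly.snd (NPC.Poly.snd NPC.Poly.id)))
  · exact NPC.Poly.not (NPC.Poly.all (p := fun (_ : IP × IP) (t : List ℕ × ℤ) => t.1.isEmpty)
      (NPC.Poly.snd NPC.Poly.id) (NPC.Poly.isEmpty (NPC.Poly.fst (NPC.Poly.snd NPC.Poly.id))))

theorem Poly_out (hv : VTS) (h1 : Poly A) (h2 : Poly A2) : Poly (out A A2) := by
  have hv' := hv
  obtain ⟨-, -, h3, -⟩ := hv'
  unfold out
  refine (NPC.Poly.listCases (l := fun f : List (List ℕ × ℚ) => fac A A2 (clr f))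
    (g := fun _ => []) (h := fun f g G => sc (cof (clr f) (lw (g :: G)))
      (la (g :: G) * (dn f : ℤ)) g :: G.map (sc 1 1)) ((Poly_fac hv h1 h2).comp Poly_clr)
    (NPC.Poly.const _) ?_).congr fun f => by cases fac A A2 (clr f) <;> rfl
  have hl : Poly fun p : List (List ℕ × ℚ) × IP × List IP => p.2.1 :: p.2.2 :=
    NPC.Poly.cons (NPC.Poly.fst (NPC.Poly.snd NPC.Poly.id)) (NPC.Poly.snd (NPC.Poly.snd NPC.Poly.id))
  have hc1 : Poly fun p : List (List ℕ × ℚ) × IP × List IP => clr p.1 :=
    Poly_clr.comp (NPC.Poly.fst NPC.Poly.id)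
  have hc2 : Poly fun p : List (List ℕ × ℚ) × IP × List IP => lw (p.2.1 :: p.2.2) :=
    Poly_lw.comp hl
  have hx : Poly fun p : List (List ℕ × ℚ) × IP × List IP =>
      cof (clr p.1) (lw (p.2.1 :: p.2.2)) := by
    have := NPC.Poly.comp h3 (NPC.Poly.pair hc1 hc2)
    exact this
  have hy : Poly fun p : List (List ℕ × ℚ) × IP × List IP =>
      la (p.2.1 :: p.2.2) * (dn p.1 : ℤ) :=
    NPC.Poly.imul (Poly_la.comp hl) (NPC.Poly.natCast (Poly_dn.comp (NPC.Poly.fst NPC.Poly.id)))
  have hg : Poly fun p : List (List ℕ × ℚ) × IP × List IP => p.2.1 :=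
    NPC.Poly.fst (NPC.Poly.snd NPC.Poly.id)
  have hr : Poly fun p : List (List ℕ × ℚ) × IP × List IP => p.2.2.map (sc 1 1) :=
    NPC.Poly.map (F := fun (_ : List (List ℕ × ℚ) × IP × List IP) (g : IP) => sc 1 1 g)
      (NPC.Poly.snd (NPC.Poly.snd NPC.Poly.id))
      (Poly_sc (NPC.Poly.const _) (NPC.Poly.const _) (NPC.Poly.snd NPC.Poly.id))
  exact NPC.Poly.cons (Poly_sc hx hy hg) hr

theorem zip_map_self {α β : Type} (l : List α) (F : α → β) :
    l.zip (l.map F) = l.map fun w => (w, F w) := by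
  induction l with
  | nil => rfl
  | cons a l ih => simp [ih]

theorem nf_eq (g : IP) : nf g = ((ws g).map fun w => (w, cof g w)).filter
    fun t => !decide (t.2 = 0) := by
  unfold nf toIP vecOf
  rw [zip_map_self]

theorem pol_nf (hv : VTS) (g : IP) : pol (nf g) = pol g := by
  obtain ⟨-, -, -, -, -, -, -, h8, -, h10, -, -, -, h14, h15, -⟩ := hv
  unfold nf
  rw [h14 _ _ (by simp [vecOf]), h15 _ _ (h8 g) (h10 g)]

theorem nf_mem {g : IP} {t : List ℕ × ℤ} (h : t ∈ nf g) : t.2 = cof g t.1 ∧ t.2 ≠ 0 := by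
  rw [nf_eq, List.mem_filter, List.mem_map] at h
  obtain ⟨⟨w, _, rfl⟩, h2⟩ := h
  exact ⟨rfl, by simpa using h2⟩

theorem nf_nodup (hv : VTS) (g : IP) : ((nf g).map fun t => t.1).Nodup := by
  obtain ⟨-, -, -, -, -, -, -, h8, -⟩ := hv
  rw [nf_eq]
  have h1 : (((ws g).map fun w => (w, cof g w)).filter fun t => !decide (t.2 = 0)).Sublist
      ((ws g).map fun w => (w, cof g w)) := List.filter_sublist
  refine (h1.map fun t => t.1).nodup ?_
  rw [List.map_map]
  simpa [Function.comp_def] using h8 g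

theorem nf_words (hv : VTS) (g : IP) (w : List ℕ) (h : cf w (pol g) ≠ 0) :
    ∃ t ∈ nf g, t.1 = w := by
  obtain ⟨-, -, -, -, -, -, h7, -, -, h10, -⟩ := hv
  have h1 : cof g w ≠ 0 := by
    intro h0
    rw [h7, h0] at h
    simp at h
  refine ⟨(w, cof g w), ?_, rfl⟩
  rw [nf_eq, List.mem_filter, List.mem_map]
  exact ⟨⟨w, h10 g w h1, rfl⟩, by simpa using h1⟩

theorem nf_nice (hv : VTS) (g : IP) (h : isC (nf g) = false) : Nice (nf g) := by
  refine ⟨nf_nodup hv g, ?_, fun t ht => ?_, fun w hw => ?_⟩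
  · intro h0
    rw [h0] at h
    simp [isC] at h
  · refine ⟨(nf_mem ht).2, ?_⟩
    rw [pol_nf hv]
    obtain ⟨-, -, -, -, -, -, h7, -⟩ := hv
    rw [h7, (nf_mem ht).1]
  · rw [pol_nf hv] at hw
    exact nf_words hv g w hw

theorem isC_true (hv : VTS) {g : IP} (h : isC (nf g) = true) :
    pol g = eps (pol g) • (1 : NC ℚ) := by
  ext w
  rw [map_smul, ← mon_nil, cf_mon]
  by_cases hw : [] = w
  · subst hw; rw [if_pos rfl, smul_eq_mul, mul_one]; rfl
  · rw [if_neg hw, smul_zero]
    by_contra hne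
    obtain ⟨t, ht, rfl⟩ := nf_words hv g w hne
    unfold isC at h
    rw [List.all_eq_true] at h
    have := h t ht
    rw [List.isEmpty_iff] at this
    exact hw this.symm

theorem isC_of_unit (hv : VTS) {g : IP} (h : IsUnit (pol g)) : isC (nf g) = true := by
  unfold isC
  rw [List.all_eq_true]
  intro t ht
  rw [List.isEmpty_iff]
  have h1 := isUnit_iff.1 h
  obtain ⟨-, -, -, -, -, -, h7, -⟩ := hv
  have h2 : cf t.1 (pol g) ≠ 0 := by
    rw [h7]
    have := nf_mem ht
    rw [← this.1]
    exact_mod_cast this.2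
  by_contra h3
  exact h2 (h1.2 t.1 (List.length_pos_of_ne_nil h3))

theorem fl_prod (h2 : ∀ f : IP, eps (pol f) ≠ 0 →
    (∃ c : ℚ, c ≠ 0 ∧ ((A2 f).map fun g => pol g).prod = c • pol f) ∧
    ∀ g ∈ A2 f, IsUnit (pol g) ∨ Irreducible (pol g)) (L : List (Bool × IP))
    (hL : ∀ t ∈ L, (t.1 = true → Irreducible (pol t.2)) ∧ (t.1 = false → eps (pol t.2) ≠ 0)) :
    (∃ c : ℚ, c ≠ 0 ∧ ((L.flatMap fun t => if t.1 = true then [t.2] else A2 t.2).map pol).prod =
      c • (L.map fun t => pol t.2).prod) ∧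
    ∀ g ∈ L.flatMap fun t => if t.1 = true then [t.2] else A2 t.2,
      IsUnit (pol g) ∨ Irreducible (pol g) := by
  induction L with
  | nil => exact ⟨⟨1, one_ne_zero, by simp⟩, by simp⟩
  | cons t L ih =>
    obtain ⟨⟨c, hc, h3⟩, h4⟩ := ih fun t ht => hL t (List.mem_cons_of_mem _ ht)
    obtain ⟨ht1, ht2⟩ := hL t (by simp)
    rw [List.flatMap_cons, List.map_append, List.prod_append, h3, List.map_cons, List.prod_cons]
    cases hb : t.1 with
    | true =>
      refine ⟨⟨c, hc, by simp⟩, fun g hg => ?_⟩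
      rcases List.mem_append.1 hg with h | h
      · simp only [if_true, List.mem_singleton] at h
        subst h
        exact Or.inr (ht1 hb)
      · exact h4 g h
    | false =>
      obtain ⟨⟨d, hd, h5⟩, h6⟩ := h2 t.2 (ht2 hb)
      refine ⟨⟨d * c, mul_ne_zero hd hc, ?_⟩, fun g hg => ?_⟩
      · simp only [Bool.false_eq_true, if_false]
        rw [h5, smul_mul_smul_comm]
      · rcases List.mem_append.1 hg with h | h
        · simp only [Bool.false_eq_true, if_false] at h
          exact h6 g h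
        · exact h4 g h

theorem fac_prod (hv : VTS) (L : List IP) (hL : ∀ g ∈ L, IsUnit (pol g) ∨ Irreducible (pol g)) :
    (∃ c : ℚ, c ≠ 0 ∧ (((L.map nf).filter fun g => !(isC g)).map pol).prod =
      c • (L.map pol).prod) ∧
    ∀ g ∈ (L.map nf).filter fun g => !(isC g), Nice g ∧ Irreducible (pol g) := by
  induction L with
  | nil => exact ⟨⟨1, one_ne_zero, by simp⟩, by simp⟩
  | cons g L ih =>
    obtain ⟨⟨c, hc, h3⟩, h4⟩ := ih fun t ht => hL t (List.mem_cons_of_mem _ ht)
    have hg := hL g (by simp)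
    rw [List.map_cons, List.filter_cons, List.map_cons, List.prod_cons]
    cases hb : isC (nf g) with
    | true =>
      obtain ⟨e, h5⟩ : ∃ e : ℚ, pol g = e • (1 : NC ℚ) := ⟨_, isC_true hv hb⟩
      have h6 : e ≠ 0 := by
        intro h0
        rw [h0, zero_smul] at h5
        rw [h5] at hg
        rcases hg with h | h
        · exact not_isUnit_zero h
        · exact h.ne_zero rfl
      refine ⟨⟨e⁻¹ * c, mul_ne_zero (inv_ne_zero h6) hc, ?_⟩, h4⟩
      simp only [Bool.not_true, Bool.false_eq_true, if_false]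
      rw [h3, h5, smul_mul_assoc, one_mul, smul_smul]
      congr 1
      field_simp
    | false =>
      simp only [Bool.not_false, if_true]
      rw [List.map_cons, List.prod_cons, pol_nf hv, h3]
      refine ⟨⟨c, hc, by rw [mul_smul_comm]⟩, fun g' hg' => ?_⟩
      rcases List.mem_cons.1 hg' with rfl | h
      · refine ⟨nf_nice hv g hb, ?_⟩
        rw [pol_nf hv]
        rcases hg with h | h
        · rw [isC_of_unit hv h] at hb
          exact absurd hb (by simp)
        · exact h
      · exact h4 g' h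

end Main

end Final

open Final in
theorem final (hv : VTS) (h1 : A1S) (h2 : A2S) : FinalS := by
  obtain ⟨A, hA, hA'⟩ := h1
  obtain ⟨A2, hA2, hA2'⟩ := h2
  refine ⟨out A A2, Poly_out hv hA hA2, fun f hf => ?_⟩
  have h0 : polQ f ≠ 0 := by
    intro h; exact hf 0 (by rw [h, zero_smul])
  have hd : (dn f : ℚ) ≠ 0 := by exact_mod_cast dn_ne f
  have hp : pol (clr f) ≠ 0 := by
    rw [pol_clr]; exact smul_ne_zero hd h0
  obtain ⟨⟨c, hc, h3⟩, h4⟩ := hA' (clr f) hp
  obtain ⟨⟨c', hc', h5⟩, h6⟩ := fl_prod hA2' (A (clr f)) h4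
  obtain ⟨⟨c'', hc'', h7⟩, h8⟩ := fac_prod hv _ h6
  have h9 : ((fac A A2 (clr f)).map pol).prod = (c'' * (c' * (c * dn f))) • polQ f := by
    unfold fac fl
    rw [h7, h5, h3, pol_clr, smul_smul, smul_smul, smul_smul]
    congr 1
    ring
  have h8' : ∀ g ∈ fac A A2 (clr f), Nice g ∧ Irreducible (pol g) := h8
  have hcc : c'' * (c' * (c * dn f)) ≠ 0 := by positivity
  generalize c'' * (c' * (c * dn f)) = k at h9 hcc
  clear h3 h4 h5 h6 h7 h8
  unfold out
  generalize hG : fac A A2 (clr f) = G at h9 h8'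
  cases G with
  | nil =>
    exfalso
    simp only [List.map_nil, List.prod_nil] at h9
    refine hf k⁻¹ ?_
    rw [h9, smul_smul, inv_mul_cancel₀ hcc, one_smul]
  | cons g G =>
    simp only
    have hN : ∀ g' ∈ g :: G, Nice g' := fun g' hg' => (h8' g' hg').1
    have hL := (lead_prod (g :: G) hN).1
    have hla : (la (g :: G) : ℚ) ≠ 0 := by exact_mod_cast la_ne _ hN
    have h7 : cf (lw (g :: G)) (pol (clr f)) = cof (clr f) (lw (g :: G)) := by
      obtain ⟨-, -, -, -, -, -, h7, -⟩ := hv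
      exact h7 _ _
    rw [pol_clr, map_smul, smul_eq_mul] at h7
    rw [h9, map_smul, smul_eq_mul] at hL
    have hcf : cf (lw (g :: G)) (polQ f) ≠ 0 := by
      intro h; rw [h, mul_zero] at hL; exact hla hL.symm
    have hx : ((cof (clr f) (lw (g :: G)) : ℤ) : ℚ) ≠ 0 := by
      rw [← h7]; exact mul_ne_zero hd hcf
    have hx' : cof (clr f) (lw (g :: G)) ≠ 0 := by
      intro h; rw [h] at hx; simp at hx
    have hy' : la (g :: G) * (dn f : ℤ) ≠ 0 :=
      mul_ne_zero (la_ne _ hN) (by exact_mod_cast dn_ne f)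
    have hq : ((cof (clr f) (lw (g :: G)) : ℤ) : ℚ) / ((la (g :: G) * (dn f : ℤ) : ℤ) : ℚ) = k⁻¹ := by
      push_cast
      rw [← h7, ← hL]
      field_simp
    refine ⟨fun g' hg' => ?_, ?_⟩
    · rcases List.mem_cons.1 hg' with rfl | h
      · rw [polQ_sc, hq]
        exact ⟨irreducible_smul (inv_ne_zero hcc) (h8' g (by simp)).2,
          redQ_sc hx' hy' (hN g (by simp))⟩
      · obtain ⟨b, hb, rfl⟩ := List.mem_map.1 h
        rw [polQ_sc]
        have := h8' b (List.mem_cons_of_mem _ hb)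
        exact ⟨by simpa using this.2, redQ_sc one_ne_zero one_ne_zero this.1⟩
    · rw [List.map_cons, List.prod_cons, polQ_sc, hq, List.map_map, smul_mul_assoc]
      have : (polQ ∘ sc 1 1) = pol := by
        funext b
        simp [polQ_sc]
      rw [this]
      rw [List.map_cons, List.prod_cons] at h9
      rw [h9, smul_smul, inv_mul_cancel₀ hcc, one_smul]

end Pool.Agent.H420_NCF
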