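import Pool.Agent.H420_NCF.VT

/-!
# One step of phase 1 (proofs by helper322)
-/

namespace Pool.Agent.H420_NCF

open Pool.Agent.NPC Pool.Agent.NPC.H532 Pool.Agent.H687R2.LLL
open scoped Matrix

namespace HStep

/-- The vectors of the left quotients by the letters. -/
def start (f : IP) : List (List ℤ) := (lets f).map fun x => (ws f).map fun y => cof f (x :: y)

/-- The matrices of the operators. -/
def mats (a : IP × List ℕ × List ℕ) : List (List (List ℤ)) :=
  (lets a.1).map fun x => tm a.1 a.2.1 a.2.2 x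

/-- The test of the constant term of one vector. -/
def flag1 (l : List (List ℕ)) (v : List ℤ) : Bool :=
  (l.zip v).all fun t => !(decide (t.1 = [])) || decide (t.2 = 0)

/-- The test of the constant terms. -/
def flag (l : List (List ℕ)) (N : List (List ℤ)) : Bool := N.all fun v => flag1 l v

theorem Poly_start : Poly start := by
  unfold start
  refine NPC.Poly.map (F := fun (f : IP) x => (ws f).map fun y => cof f (x :: y)) VT.Poly_lets ?_
  exact NPC.Poly.map (α := IP × ℕ) (F := fun p y => cof p.1 (p.2 :: y))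
    (VT.Poly_ws.comp (Poly.fst Poly.id))
    (VT.Poly_cof (Poly.fst (Poly.fst Poly.id))
      (Poly.cons (Poly.snd (Poly.fst Poly.id)) (Poly.snd Poly.id)))

theorem Poly_args :
    Poly (fun p : (IP × List ℕ × List ℕ) × ℕ => (p.1.1, p.1.2.1, p.1.2.2, p.2)) :=
  Poly.pair (Poly.fst (Poly.fst Poly.id))
    (Poly.pair (Poly.fst (Poly.snd (Poly.fst Poly.id)))
      (Poly.pair (Poly.snd (Poly.snd (Poly.fst Poly.id))) (Poly.snd Poly.id)))

theorem Poly_tm' :
    Poly (fun p : (IP × List ℕ × List ℕ) × ℕ => tm p.1.1 p.1.2.1 p.1.2.2 p.2) :=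
  Poly.comp (g := fun p : IP × List ℕ × List ℕ × ℕ => tm p.1 p.2.1 p.2.2.1 p.2.2.2)
    (f := fun p : (IP × List ℕ × List ℕ) × ℕ => (p.1.1, p.1.2.1, p.1.2.2, p.2))
    VT.Poly_tm Poly_args

theorem Poly_lets' : Poly (fun a : IP × List ℕ × List ℕ => lets a.1) :=
  Poly.comp (g := lets) (f := fun a : IP × List ℕ × List ℕ => a.1) VT.Poly_lets
    (Poly.fst Poly.id)

theorem Poly_mats' : Poly (fun a : IP × List ℕ × List ℕ =>
    (lets a.1).map fun x => tm a.1 a.2.1 a.2.2 x) :=
  NPC.Poly.map (l := fun a : IP × List ℕ × List ℕ => lets a.1)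
    (F := fun (a : IP × List ℕ × List ℕ) x => tm a.1 a.2.1 a.2.2 x) Poly_lets' Poly_tm'

theorem Poly_mats : Poly mats := Poly_mats'

theorem Poly_flag {α : Type} [TEnc α] {l : α → List (List ℕ)} {N : α → List (List ℤ)}
    (hl : Poly l) (hN : Poly N) : Poly (fun a => flag (l a) (N a)) := by
  unfold flag flag1
  refine Poly.all (p := fun (a : α) v =>
    ((l a).zip v).all fun t => !(decide (t.1 = [])) || decide (t.2 = 0)) hN ?_
  exact Poly.all (α := α × List ℤ)
    (p := fun _ t => !(decide (t.1 = [])) || decide (t.2 = 0))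
    (Poly.zip (hl.comp (Poly.fst Poly.id)) (Poly.snd Poly.id))
    (Poly.or (Poly.not (Poly.decide_eq (Poly.fst (Poly.snd Poly.id)) (NPC.Poly.const [])))
      (Poly.decide_eq (Poly.snd (Poly.snd Poly.id)) (NPC.Poly.const 0)))

theorem flag1_iff {l : List (List ℕ)} (hl : l.Nodup) (h0 : [] ∈ l) {v : List ℤ}
    (hv : v.length = l.length) : flag1 l v = true ↔ eps (phi l (vq l.length v)) = 0 := by
  obtain ⟨i, hi⟩ := VT.exists_get h0
  have h1 : eps (phi l (vq l.length v)) = (v.getD i 0 : ℤ) := by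
    have := VT.cf_phi_get hl (vq l.length v) i
    rw [hi] at this
    exact this
  have hi2 : (i : ℕ) < v.length := by
    rw [hv]
    exact i.2
  have h2 : v.getD i 0 = v[(i : ℕ)] := List.getD_eq_getElem _ _ hi2
  have h3 : l[(i : ℕ)] = [] := by rw [← VT.getD_fin, hi]
  rw [h1, Int.cast_eq_zero, h2]
  unfold flag1
  rw [List.all_eq_true]
  constructor
  · intro h
    have hz : (i : ℕ) < (l.zip v).length := by
      rw [List.length_zip, hv, min_self]
      exact i.2
    have h4 := h _ (List.getElem_mem hz)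
    rw [List.getElem_zip] at h4
    simpa [h3] using h4
  · intro h t ht
    obtain ⟨j, hj, rfl⟩ := List.getElem_of_mem ht
    rw [List.getElem_zip]
    have hj1 : j < l.length := by
      rw [List.length_zip] at hj
      omega
    by_cases h4 : l[j] = []
    · have h5 : j = i := by
        rw [← h3] at h4
        exact hl.getElem_inj_iff.1 h4
      subst h5
      simp [h]
    · simp [h4]

theorem vq_start (f : IP) (x : ℕ) :
    phi (ws f) (vq (ws f).length ((ws f).map fun y => cof f (x :: y))) = lq x (pol f) := by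
  have hn : (ws f).Nodup := List.nodup_dedup _
  have h := VT.phi_coeffs hn (p := lq x (pol f)) (fun w hw => by
    rw [cf_lq, VT.cf_pol] at hw
    have h1 : cof f (x :: w) ≠ 0 := by
      intro h0
      rw [h0, Int.cast_zero] at hw
      exact hw rfl
    exact (VT.of_cons_mem_ws (VT.mem_ws_of_cof h1)).1)
  rw [← h]
  congr 1
  funext i
  unfold vq
  rw [cf_lq, VT.cf_pol, List.getD_eq_getElem _ _ (by simp), List.getElem_map, VT.getD_fin]

theorem lq_of_notMem {f : IP} {x : ℕ} (hx : x ∉ lets f) : lq x (pol f) = 0 := by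
  ext w
  rw [cf_lq, VT.cf_pol, map_zero]
  by_contra h
  have h1 : cof f (x :: w) ≠ 0 := by
    intro h0
    rw [h0, Int.cast_zero] at h
    exact h rfl
  exact hx (VT.of_cons_mem_ws (VT.mem_ws_of_cof h1)).2

theorem Top_of_notMem {f : IP} {x : ℕ} (hx : x ∉ lets f) (u w : List ℕ)
    (v : Fin (ws f).length → ℚ) : Top (pol f) u w x (phi (ws f) v) = 0 := by
  ext y
  rw [VT.cf_Top, map_zero]
  have h1 : cf (x :: y) (phi (ws f) v) = 0 :=
    VT.cf_phi_of_notMem _ fun h => hx (VT.of_cons_mem_ws h).2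
  have h2 : cf (u ++ x :: y) (pol f) = 0 := by
    rw [VT.cf_pol]
    have h3 : cof f (u ++ x :: y) = 0 := by
      by_contra h
      exact hx (VT.of_cons_mem_ws
        (VT.mem_ws_of_suffix (VT.mem_ws_of_cof h) (List.suffix_append _ _))).2
    rw [h3, Int.cast_zero]
  rw [h1, h2, mul_zero, mul_zero, sub_zero]

/-- The closure computes the stable subspace. -/
theorem map_vspan (f : IP) (u w : List ℕ) (N : List (List ℤ))
    (h1 : vspan (ws f).length (start f) ≤ vspan (ws f).length N)
    (h2 : ∀ M ∈ mats (f, u, w), ∀ v ∈ vspan (ws f).length N,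
      v ᵥ* mq (ws f).length M ∈ vspan (ws f).length N)
    (h3 : ∀ U : Submodule ℚ (Fin (ws f).length → ℚ), vspan (ws f).length (start f) ≤ U →
      (∀ M ∈ mats (f, u, w), ∀ v ∈ U, v ᵥ* mq (ws f).length M ∈ U) →
      vspan (ws f).length N ≤ U) :
    (vspan (ws f).length N).map (phi (ws f)) = Ncl (pol f) u w := by
  have hstart : ∀ x ∈ lets f, vq (ws f).length ((ws f).map fun y => cof f (x :: y)) ∈
      vspan (ws f).length (start f) := by
    intro x hx
    refine Submodule.subset_span ⟨_, ?_, rfl⟩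
    exact List.mem_map_of_mem hx
  apply le_antisymm
  · refine le_sInf ?_
    rintro U ⟨hU, hlq⟩
    rw [Submodule.map_le_iff_le_comap]
    refine h3 _ ?_ ?_
    · refine Submodule.span_le.2 ?_
      rintro _ ⟨v, hv, rfl⟩
      obtain ⟨x, -, rfl⟩ := List.mem_map.1 hv
      change phi (ws f) _ ∈ U
      rw [vq_start]
      exact hlq x
    · intro M hM v hv
      obtain ⟨x, -, rfl⟩ := List.mem_map.1 hM
      change phi (ws f) _ ∈ U
      rw [VT.phi_tm]
      exact hU x _ hv
  · refine sInf_le ⟨?_, ?_⟩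
    · rintro x _ ⟨v, hv, rfl⟩
      by_cases hx : x ∈ lets f
      · rw [← VT.phi_tm]
        exact ⟨_, h2 _ (List.mem_map_of_mem hx) v hv, rfl⟩
      · rw [Top_of_notMem hx]
        exact Submodule.zero_mem _
    · intro x
      by_cases hx : x ∈ lets f
      · rw [← vq_start]
        exact ⟨_, h1 (hstart x hx), rfl⟩
      · rw [lq_of_notMem hx]
        exact Submodule.zero_mem _

theorem flag_iff (f : IP) (h0 : [] ∈ ws f) (N : List (List ℤ))
    (hN : ∀ v ∈ N, v.length = (ws f).length) :
    flag (ws f) N = true ↔ ∀ p ∈ (vspan (ws f).length N).map (phi (ws f)), eps p = 0 := by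
  have hn : (ws f).Nodup := List.nodup_dedup _
  unfold flag
  rw [List.all_eq_true]
  constructor
  · rintro h _ ⟨v, hv, rfl⟩
    have h1 : vspan (ws f).length N ≤
        LinearMap.ker ((eps : NC ℚ →ₗ[ℚ] ℚ).comp (phi (ws f))) := by
      refine Submodule.span_le.2 ?_
      rintro _ ⟨v, hv, rfl⟩
      exact (flag1_iff hn h0 (hN v hv)).1 (h v hv)
    exact h1 hv
  · intro h v hv
    exact (flag1_iff hn h0 (hN v hv)).2
      (h _ ⟨_, Submodule.subset_span ⟨v, hv, rfl⟩, rfl⟩)

theorem vspan_cons (n : ℕ) (v : List ℤ) (N : List (List ℤ)) :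
    vspan n (v :: N) = vspan n N ⊔ Submodule.span ℚ {vq n v} := by
  unfold vspan
  rw [← Submodule.span_union]
  congr 1
  ext w
  simp only [List.mem_cons, Set.mem_ofPred_eq, Set.mem_union, Set.mem_singleton_iff]
  constructor
  · rintro ⟨x, rfl | hx, rfl⟩
    · exact Or.inr rfl
    · exact Or.inl ⟨x, hx, rfl⟩
  · rintro (⟨x, hx, rfl⟩ | rfl)
    · exact ⟨x, Or.inr hx, rfl⟩
    · exact ⟨v, Or.inl rfl, rfl⟩

end HStep

open HStep in
theorem hStep (hv : VTS) (hc : CloS) (hm : MinhS) (hp : P1S ℚ) : HStepS := by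
  obtain ⟨clo, hcloP, hclo⟩ := hc
  obtain ⟨mh, hmhP, hmh⟩ := hm
  have hN : Poly (fun a : IP × List ℕ × List ℕ => clo (mats a, start a.1)) :=
    hcloP.comp (Poly.pair Poly_mats (Poly_start.comp (Poly.fst Poly.id)))
  have hws : Poly (fun a : IP × List ℕ × List ℕ => ws a.1) := VT.Poly_ws.comp (Poly.fst Poly.id)
  refine ⟨fun a => (decide (a.2.2 = []) || flag (ws a.1) (clo (mats a, start a.1)),
    toIP (ws a.1) (mh (ws a.1, vecOf (ws a.1) a.1 :: clo (mats a, start a.1)))), ?_, ?_⟩
  · refine Poly.pair (Poly.or (Poly.decide_eq (Poly.snd (Poly.snd Poly.id)) (NPC.Poly.const []))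
      (Poly_flag hws hN)) ?_
    exact VT.Poly_toIP hws (hmhP.comp (Poly.pair hws
      (Poly.cons (VT.Poly_vecOf hws (Poly.fst Poly.id)) hN)))
  · intro f u w hlow hcf hu
    have hpol : pol f ≠ 0 := hlow.ne_zero
    have hf : f ≠ [] := by
      rintro rfl
      exact hpol VT.pol_nil
    have h0 : [] ∈ ws f := VT.nil_mem_ws hf
    have hn : (ws f).Nodup := List.nodup_dedup _
    have hmat : ∀ M ∈ mats (f, u, w), IsMat (ws f).length (ws f).length M := by
      intro M hM
      obtain ⟨x, -, rfl⟩ := List.mem_map.1 hM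
      exact VT.isMat_tm f u w x
    have hst : ∀ v ∈ start f, v.length = (ws f).length := by
      intro v hv
      obtain ⟨x, -, rfl⟩ := List.mem_map.1 hv
      simp
    obtain ⟨c1, -, c3, c4, c5⟩ := hclo (ws f).length (mats (f, u, w)) (start f) hmat hst
    have hmap := map_vspan f u w (clo (mats (f, u, w), start f)) c3 c4 c5
    have hvec : phi (ws f) (vq (ws f).length (vecOf (ws f) f)) = pol f :=
      VT.phi_vecOf hn fun w hw => VT.mem_ws_of_cof hw
    have hlen : ∀ v ∈ vecOf (ws f) f :: clo (mats (f, u, w), start f),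
        v.length = (ws f).length := by
      intro v hv
      rcases List.mem_cons.1 hv with rfl | hv
      · unfold vecOf
        simp
      · exact c1 v hv
    have hmap2 : (vspan (ws f).length (vecOf (ws f) f :: clo (mats (f, u, w), start f))).map
        (phi (ws f)) = Ncl (pol f) u w ⊔ Submodule.span ℚ {pol f} := by
      rw [vspan_cons, Submodule.map_sup, hmap, Submodule.map_span, Set.image_singleton, hvec]
    have hne : vspan (ws f).length (vecOf (ws f) f :: clo (mats (f, u, w), start f)) ≠ ⊥ := by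
      intro h
      rw [h, Submodule.map_bot] at hmap2
      have h1 : pol f ∈ Ncl (pol f) u w ⊔ Submodule.span ℚ {pol f} :=
        Submodule.mem_sup_right (Submodule.mem_span_singleton_self _)
      rw [← hmap2] at h1
      exact hpol ((Submodule.mem_bot ℚ).1 h1)
    obtain ⟨m1, m2⟩ := hmh (ws f) _ hn hlen hne
    rw [hmap2, ← VT.pol_toIP _ _ m1] at m2
    obtain ⟨p1, p2⟩ := hp (pol f) u w hlow hcf hu
    constructor
    · rw [p1]
      change (decide (w = []) || flag (ws f) (clo (mats (f, u, w), start f))) = true ↔ _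
      rw [Bool.or_eq_true, decide_eq_true_iff, flag_iff f h0 _ c1, hmap]
    · intro hg
      exact p2 hg _ m2

end Pool.Agent.H420_NCF
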