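import Pool.Agent.H420_NCF.Spec

/-!
# Bounded integer relations by lattice reduction (module K1)
-/

namespace Pool.Agent.H420_NCF

open Pool.Agent.NPC Pool.Agent.NPC.H532 Pool.Agent.H687R2.LLL
open scoped Matrix

namespace K1

/-- The weight: a power of two whose square is larger than `4 ^ |X| * β`. -/
def wt (X : List (List ℤ)) (β : ℕ) : ℕ := 2 ^ (X.length + β.bits.length)

/-- The rows of `X`, cut or padded to the length of the first row, times the weight. -/
def scl (X : List (List ℤ)) (β : ℕ) : List (List ℤ) :=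
  X.map fun r => (List.range (X.getD 0 []).length).map fun j => (wt X β : ℤ) * r.getD j 0

/-- All binary digits of all entries. -/
def bb (X : List (List ℤ)) : List Bool := X.flatMap fun r => r.flatMap fun x => x.natAbs.bits

/-- The number of steps. -/
def TT (X : List (List ℤ)) : ℕ := (bb X).length + X.length

/-- The bounded relations. -/
def ker (p : List (List ℤ) × ℕ) : List (List ℤ) := relShort (scl p.1 p.2) (TT (scl p.1 p.2)) p.2

theorem lt_two_pow_bits (n : ℕ) : n < 2 ^ n.bits.length := by
  have h := valB_lt n.bits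
  rwa [valB_bits] at h

theorem nrm_add_one_le (r : List ℤ) :
    nrm r + 1 ≤ 2 ^ (r.flatMap fun x => x.natAbs.bits).length := by
  induction r with
  | nil => simp
  | cons x l ih =>
    rw [nrm_cons, List.flatMap_cons, List.length_append, pow_add]
    have h1 := lt_two_pow_bits x.natAbs
    have h2 : (x.natAbs + 1) * (nrm l + 1) ≤
        2 ^ x.natAbs.bits.length * 2 ^ (l.flatMap fun x => x.natAbs.bits).length :=
      Nat.mul_le_mul h1 ih
    nlinarith [Nat.zero_le (x.natAbs * nrm l)]

theorem length_bb_of_mem {X : List (List ℤ)} {r : List ℤ} (hr : r ∈ X) :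
    (r.flatMap fun x => x.natAbs.bits).length ≤ (bb X).length := by
  unfold bb
  induction X with
  | nil => simp at hr
  | cons a X ih =>
    rw [List.flatMap_cons, List.length_append]
    rcases List.mem_cons.1 hr with h | h
    · subst h; omega
    · have := ih h; omega

theorem nrm_lt_TT {X : List (List ℤ)} : ∀ r ∈ X, nrm r < 2 ^ TT X := by
  intro r hr
  have h1 := nrm_add_one_le r
  have h2 := length_bb_of_mem hr
  have h3 : 2 ^ (r.flatMap fun x => x.natAbs.bits).length ≤ 2 ^ TT X :=
    Nat.pow_le_pow_right (by norm_num) (by unfold TT; omega)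
  omega

theorem length_scl (X : List (List ℤ)) (β : ℕ) : (scl X β).length = X.length := by
  simp [scl]

theorem scl_len (X : List (List ℤ)) (β : ℕ) :
    ∀ r ∈ scl X β, r.length = (X.getD 0 []).length := by
  intro r hr
  rw [scl, List.mem_map] at hr
  obtain ⟨s, _, rfl⟩ := hr
  simp

theorem poly_wt : Poly (fun p : List (List ℤ) × ℕ => wt p.1 p.2) :=
  Poly.npow (NPC.Poly.const 2)
    (UPoly.add (UPoly.length (Poly.fst Poly.id)) (UPoly.length (Poly.natBits (Poly.snd Poly.id))))

theorem poly_scl : Poly (fun p : List (List ℤ) × ℕ => scl p.1 p.2) := by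
  have h0 : Poly (fun z : ((List (List ℤ) × ℕ) × List ℤ) × ℕ =>
      (wt z.1.1.1 z.1.1.2 : ℤ) * z.1.2.getD z.2 0) :=
    Poly.imul (Poly.natCast (poly_wt.comp (Poly.fst (Poly.fst Poly.id))))
      (Poly.getD (Poly.snd (Poly.fst Poly.id)) (Poly.snd Poly.id) (NPC.Poly.const 0))
  have h1 : Poly (fun z : (List (List ℤ) × ℕ) × List ℤ =>
      (List.range (z.1.1.getD 0 []).length).map fun j =>
        (wt z.1.1 z.1.2 : ℤ) * z.2.getD j 0) :=
    NPC.Poly.map (F := fun (z : (List (List ℤ) × ℕ) × List ℤ) (j : ℕ) =>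
        (wt z.1.1 z.1.2 : ℤ) * z.2.getD j 0)
      (Poly.range_length (Poly.getD (Poly.fst (Poly.fst Poly.id)) (NPC.Poly.const 0) (NPC.Poly.const [])))
      h0
  exact NPC.Poly.map (F := fun (p : List (List ℤ) × ℕ) (r : List ℤ) =>
      (List.range (p.1.getD 0 []).length).map fun j => (wt p.1 p.2 : ℤ) * r.getD j 0)
    (Poly.fst Poly.id) h1

theorem poly_bb : Poly (fun X : List (List ℤ) => bb X) := by
  have h1 : Poly (fun p : (List (List ℤ) × List ℤ) × ℤ => p.2.natAbs.bits) :=
    Poly.natBits (Poly.natAbs (Poly.snd Poly.id))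
  have h2 : Poly (fun p : List (List ℤ) × List ℤ => p.2.flatMap fun x => x.natAbs.bits) :=
    Poly.flatMap (F := fun (_ : List (List ℤ) × List ℤ) (x : ℤ) => x.natAbs.bits)
      (Poly.snd Poly.id) h1
  exact Poly.flatMap (l := fun X : List (List ℤ) => X)
    (F := fun (_ : List (List ℤ)) (r : List ℤ) => r.flatMap fun x => x.natAbs.bits) Poly.id h2

theorem upoly_TT : UPoly (fun X : List (List ℤ) => TT X) :=
  UPoly.add (UPoly.length poly_bb) (UPoly.length Poly.id)

theorem poly_ker : Poly ker :=
  Poly.relShort poly_scl (upoly_TT.comp poly_scl) (Poly.snd Poly.id)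
    (fun a => ⟨_, scl_len a.1 a.2⟩) (fun a => nrm_lt_TT)
    (fun a => by unfold TT; omega)

theorem getD_scl (X : List (List ℤ)) (β i j : ℕ) :
    ((scl X β).getD i []).getD j 0 =
      if j < (X.getD 0 []).length then (wt X β : ℤ) * (X.getD i []).getD j 0 else 0 := by
  by_cases hi : i < X.length
  · have h1 : i < (scl X β).length := by rw [length_scl]; exact hi
    rw [List.getD_eq_getElem _ _ h1, List.getD_eq_getElem X _ hi]
    have h2 : (scl X β)[i] = (List.range (X.getD 0 []).length).map fun j =>
        (wt X β : ℤ) * X[i].getD j 0 := by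
      simp [scl]
    rw [h2]
    by_cases hj : j < (X.getD 0 []).length
    · rw [if_pos hj, List.getD_eq_getElem _ _ (by simpa using hj)]
      simp
    · rw [if_neg hj, List.getD_eq_default _ _ (by simpa using hj)]
  · have h1 : X.length ≤ i := by omega
    rw [List.getD_eq_default (scl X β) _ (by rw [length_scl]; exact h1),
      List.getD_eq_default X _ h1]
    simp

theorem form_scl (X : List (List ℤ)) (β : ℕ) (c : ℕ → ℤ) (j : ℕ) :
    form (scl X β) c j = if j < (X.getD 0 []).length then (wt X β : ℤ) * form X c j else 0 := by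
  unfold form
  rw [length_scl]
  split_ifs with hj
  · rw [Finset.mul_sum]
    refine Finset.sum_congr rfl fun i _ => ?_
    rw [getD_scl, if_pos hj]; ring
  · refine Finset.sum_eq_zero fun i _ => ?_
    rw [getD_scl, if_neg hj, mul_zero]

theorem form_ge {X : List (List ℤ)} {q : ℕ} (hq : ∀ r ∈ X, r.length = q) (c : ℕ → ℤ) {j : ℕ}
    (hj : (X.getD 0 []).length ≤ j) : form X c j = 0 := by
  unfold form
  refine Finset.sum_eq_zero fun i hi => ?_
  rw [Finset.mem_range] at hi
  have h1 : (X.getD i []).length = q := by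
    rw [List.getD_eq_getElem X _ hi]; exact hq _ (List.getElem_mem _)
  have h2 : (X.getD 0 []).length = q := by
    have h0 : 0 < X.length := by omega
    rw [List.getD_eq_getElem X _ h0]; exact hq _ (List.getElem_mem _)
  rw [List.getD_eq_default (X.getD i []) _ (by omega), mul_zero]

theorem lt_wt_sq (X : List (List ℤ)) (β : ℕ) : 4 ^ X.length * β < wt X β ^ 2 := by
  have h1 := lt_two_pow_bits β
  unfold wt
  have h2 : (2 ^ (X.length + β.bits.length)) ^ 2 = 4 ^ X.length * 4 ^ β.bits.length := by
    rw [← pow_mul, mul_comm, pow_mul, pow_add]; norm_num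
  rw [h2]
  have h3 : 2 ^ β.bits.length ≤ 4 ^ β.bits.length := Nat.pow_le_pow_left (by norm_num) _
  exact Nat.mul_lt_mul_of_pos_left (lt_of_lt_of_le h1 h3) (by positivity)

end K1

theorem K1 : K1S := by
  refine ⟨K1.ker, K1.poly_ker, fun X β q hq => ⟨fun u hu => ?_, fun c hc hs => ?_⟩⟩
  · obtain ⟨h1, h2⟩ := relShort_short (K1.scl_len X β) K1.nrm_lt_TT
      (by unfold K1.TT; omega) β hu
    rw [K1.length_scl] at h1 h2
    have h3 : 0 ≤ ∑ i ∈ Finset.range X.length, ent u i ^ 2 :=
      Finset.sum_nonneg fun i _ => sq_nonneg _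
    have h4 : 0 ≤ ∑ j ∈ Finset.range (X.getD 0 []).length,
        form (K1.scl X β) (ent u) j ^ 2 := Finset.sum_nonneg fun i _ => sq_nonneg _
    refine ⟨h1, fun j => ?_, by linarith⟩
    by_cases hj : j < (X.getD 0 []).length
    · by_contra hne
      have h5 : form (K1.scl X β) (ent u) j ^ 2 ≤ ∑ j ∈ Finset.range (X.getD 0 []).length,
          form (K1.scl X β) (ent u) j ^ 2 :=
        Finset.single_le_sum (f := fun j => form (K1.scl X β) (ent u) j ^ 2)
          (fun i _ => sq_nonneg _) (Finset.mem_range.2 hj)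
      rw [K1.form_scl, if_pos hj, mul_pow] at h5
      have h6 : ((4 ^ X.length * β : ℕ) : ℤ) < ((K1.wt X β ^ 2 : ℕ) : ℤ) := by
        exact_mod_cast K1.lt_wt_sq X β
      push_cast at h6
      have h7 : 1 ≤ form X (ent u) j ^ 2 := by
        have := sq_nonneg (form X (ent u) j)
        have h8 : form X (ent u) j ^ 2 ≠ 0 := pow_ne_zero 2 hne
        omega
      have h9 : (K1.wt X β : ℤ) ^ 2 * 1 ≤ (K1.wt X β : ℤ) ^ 2 * form X (ent u) j ^ 2 :=
        mul_le_mul_of_nonneg_left h7 (sq_nonneg _)
      linarith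
    · exact K1.form_ge hq _ (by omega)
  · have h1 := relShort_span (K1.scl_len X β) K1.nrm_lt_TT
      (by unfold K1.TT; omega) β c (by
        rw [K1.length_scl]
        have h2 : ∑ j ∈ Finset.range (X.getD 0 []).length, form (K1.scl X β) c j ^ 2 = 0 := by
          refine Finset.sum_eq_zero fun j _ => ?_
          rw [K1.form_scl, hc j, mul_zero, ite_self]
          rfl
        rw [h2, add_zero]
        exact hs)
    have h3 : ∀ (n : ℕ), n = X.length → ((fun i : Fin n => c i) ∈ Submodule.span ℤ
        {y : Fin n → ℤ | ∃ u ∈ K1.ker (X, β), y = fun i : Fin n => ent u i}) →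
        (fun i : Fin X.length => c i) ∈ Submodule.span ℤ
        {y : Fin X.length → ℤ | ∃ u ∈ K1.ker (X, β), y = fun i : Fin X.length => ent u i} := by
      rintro n rfl h
      exact h
    exact h3 _ (K1.length_scl X β) h1

end Pool.Agent.H420_NCF
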