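import Pool.Agent.H420_NCF.Spec

/-!
# All rational relations between the rows of an integer matrix (module K2)

`K2.relations`: with a maximal independent set of rows, its Gram matrix `G` and `D = det G`, every
rational relation `c` is the combination `∑ i, (c i / D) • u i` of the integer relations
`u i = D e_i - ∑ p, (cramer G b_i) p • e_p`, whose entries are bounded by determinants. The bound is
`2 ^ (2 + s + 8 s²)` with `s` the total size of the matrix (`K2.tot`), in unary.
-/

open scoped Matrix

namespace Pool.Agent.H420_NCF.K2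

/-- Rational relations are combinations of small integer relations. -/
theorem relations {k q : ℕ} (x : Fin k → Fin q → ℤ) (N : ℤ) (hN : 1 ≤ N)
    (hx : ∀ i i', |∑ j, x i j * x i' j| ≤ N) (B : ℤ)
    (hB : (k : ℤ) * (2 * ((k.factorial : ℤ) * N ^ k)) ^ 2 ≤ B)
    (c : Fin k → ℚ) (hc : ∀ j, ∑ i, c i * (x i j : ℚ) = 0) :
    c ∈ Submodule.span ℚ {w : Fin k → ℚ | ∃ u : Fin k → ℤ, (∀ j, ∑ i, u i * x i j = 0) ∧
      ∑ i, u i ^ 2 ≤ B ∧ w = fun i => (u i : ℚ)} := by
  classical
  set v : Fin k → Fin q → ℚ := fun i j => (x i j : ℚ) with hv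
  obtain ⟨κ, a, ha, hspan, hli⟩ := exists_linearIndependent' ℚ v
  have : Fintype κ := Fintype.ofInjective a ha
  have hcard : Fintype.card κ ≤ k := by
    simpa using Fintype.card_le_of_injective a ha
  set G : Matrix κ κ ℤ := Matrix.of fun p r => ∑ j, x (a p) j * x (a r) j with hG
  -- the Gram determinant
  have hD : G.det ≠ 0 := by
    intro h0
    have h1 : (G.map (Int.cast : ℤ → ℚ)).det = 0 := by
      have := (Int.cast_det (R := ℚ) G).symm
      rw [h0] at this
      simpa using this
    obtain ⟨w, hw, hGw⟩ := Matrix.exists_mulVec_eq_zero_iff.2 h1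
    apply hw
    have h2 : ∑ j, (∑ p, w p * v (a p) j) ^ 2 = 0 := by
      have h3 : w ⬝ᵥ ((G.map (Int.cast : ℤ → ℚ)) *ᵥ w) = 0 := by rw [hGw]; simp
      rw [← h3]
      simp only [dotProduct, Matrix.mulVec, Matrix.map_apply, hG, Matrix.of_apply, hv, Int.cast_sum,
        Int.cast_mul, sq, Finset.sum_mul, Finset.mul_sum]
      rw [Finset.sum_comm]
      refine Finset.sum_congr rfl fun p _ => ?_
      rw [Finset.sum_comm]
      refine Finset.sum_congr rfl fun r _ => ?_
      refine Finset.sum_congr rfl fun j _ => ?_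
      ring
    have h4 : ∀ j, ∑ p, w p * v (a p) j = 0 := by
      intro j
      have := (Finset.sum_eq_zero_iff_of_nonneg (fun j _ => sq_nonneg _)).1 h2 j (Finset.mem_univ _)
      exact pow_eq_zero_iff (two_ne_zero) |>.1 this
    have h5 := Fintype.linearIndependent_iff.1 hli w (by
      funext j
      simpa [Finset.sum_apply] using h4 j)
    funext p
    exact h5 p
  set b : Fin k → κ → ℤ := fun i p => ∑ j, x i j * x (a p) j with hb
  set y : Fin k → κ → ℤ := fun i => G.cramer (b i) with hy
  set u : Fin k → Fin k → ℤ := fun i l => (if l = i then G.det else 0) -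
    ∑ p, if l = a p then y i p else 0 with hu
  have hGy : ∀ i, G *ᵥ (y i) = G.det • b i := fun i => Matrix.mulVec_cramer G (b i)
  -- the relations
  have hrel : ∀ i j, ∑ l, u i l * x l j = 0 := by
    intro i
    set z : Fin q → ℤ := fun j => ∑ l, u i l * x l j with hz
    have hz1 : ∀ j, z j = G.det * x i j - ∑ p, y i p * x (a p) j := by
      intro j
      simp only [hz, hu, sub_mul, Finset.sum_sub_distrib, ite_mul, zero_mul, Finset.sum_mul]
      rw [Finset.sum_ite_eq' Finset.univ i, if_pos (Finset.mem_univ _), Finset.sum_comm]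
      congr 1
      refine Finset.sum_congr rfl fun p _ => ?_
      rw [Finset.sum_ite_eq' Finset.univ (a p), if_pos (Finset.mem_univ _)]
    have hz2 : ∀ r, ∑ j, z j * x (a r) j = 0 := by
      intro r
      have := congrFun (hGy i) r
      simp only [Matrix.mulVec, dotProduct, hG, Matrix.of_apply, Pi.smul_apply, smul_eq_mul, hb] at this
      simp only [hz1, sub_mul, Finset.sum_sub_distrib, Finset.sum_mul]
      rw [Finset.sum_comm]
      rw [sub_eq_zero]
      calc ∑ j, G.det * x i j * x (a r) j = G.det * ∑ j, x i j * x (a r) j := by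
            rw [Finset.mul_sum]; exact Finset.sum_congr rfl fun j _ => by ring
        _ = ∑ p, (∑ j, x (a r) j * x (a p) j) * y i p := this.symm
        _ = ∑ p, ∑ j, y i p * x (a p) j * x (a r) j := by
            refine Finset.sum_congr rfl fun p _ => ?_
            rw [Finset.sum_mul]; exact Finset.sum_congr rfl fun j _ => by ring
    -- z is in the span of all the rows, hence of the chosen rows
    have hz3 : (fun j => (z j : ℚ)) ∈ Submodule.span ℚ (Set.range (v ∘ a)) := by
      rw [hspan]
      have : (fun j => (z j : ℚ)) = ∑ l, (u i l : ℚ) • v l := by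
        funext j
        simp [hz, hv, Finset.sum_apply]
      rw [this]
      exact Submodule.sum_mem _ fun l _ => Submodule.smul_mem _ _ (Submodule.subset_span ⟨l, rfl⟩)
    have hz4 : ∀ t ∈ Submodule.span ℚ (Set.range (v ∘ a)), ∑ j, (z j : ℚ) * t j = 0 := by
      intro t ht
      induction ht using Submodule.span_induction with
      | mem t ht =>
        obtain ⟨r, rfl⟩ := ht
        have := hz2 r
        simp only [Function.comp, hv]
        exact_mod_cast this
      | zero => simp
      | add t t' _ _ h h' => simp only [Pi.add_apply, mul_add, Finset.sum_add_distrib, h, h', add_zero]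
      | smul s t _ h =>
        simp only [Pi.smul_apply, smul_eq_mul]
        rw [show ∑ j, (z j : ℚ) * (s * t j) = s * ∑ j, (z j : ℚ) * t j by
          rw [Finset.mul_sum]; exact Finset.sum_congr rfl fun j _ => by ring, h, mul_zero]
    have hz5 := hz4 _ hz3
    intro j
    have h6 := (Finset.sum_eq_zero_iff_of_nonneg (fun j _ => mul_self_nonneg (z j : ℚ))).1 hz5 j
      (Finset.mem_univ _)
    have h7 : (z j : ℚ) = 0 := by simpa using h6
    exact_mod_cast h7
  -- the bounds
  have hfac : ((Fintype.card κ).factorial : ℤ) * N ^ (Fintype.card κ) ≤ (k.factorial : ℤ) * N ^ k := by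
    apply mul_le_mul
    · exact_mod_cast Nat.factorial_le hcard
    · exact pow_le_pow_right₀ hN hcard
    · positivity
    · positivity
  have hdet : |G.det| ≤ (k.factorial : ℤ) * N ^ k := by
    refine le_trans ?_ hfac
    have := Matrix.det_le (A := G) (abv := AbsoluteValue.abs) (x := N) (fun i j => by
      simpa [hG] using hx (a i) (a j))
    simpa [nsmul_eq_mul] using this
  have hcr : ∀ i p, |y i p| ≤ (k.factorial : ℤ) * N ^ k := by
    intro i p
    refine le_trans ?_ hfac
    rw [hy]
    simp only [Matrix.cramer_apply]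
    have := Matrix.det_le (A := G.updateCol p (b i)) (abv := AbsoluteValue.abs) (x := N)
      (fun r r' => by
        by_cases hr : r' = p
        · subst hr
          simpa [hb] using hx i (a r)
        · rw [Matrix.updateCol_ne hr]
          simpa [hG] using hx (a r) (a r'))
    simpa [nsmul_eq_mul] using this
  have hub : ∀ i l, |u i l| ≤ 2 * ((k.factorial : ℤ) * N ^ k) := by
    intro i l
    have h1 : |if l = i then G.det else 0| ≤ (k.factorial : ℤ) * N ^ k := by
      split_ifs
      · exact hdet
      · rw [abs_zero]; positivity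
    have h2 : |∑ p, if l = a p then y i p else 0| ≤ (k.factorial : ℤ) * N ^ k := by
      by_cases hl : ∃ p, l = a p
      · obtain ⟨p, rfl⟩ := hl
        rw [Finset.sum_eq_single p]
        · rw [if_pos rfl]; exact hcr i p
        · intro r _ hr
          rw [if_neg]
          intro h
          exact hr (ha h).symm
        · intro h; exact absurd (Finset.mem_univ _) h
      · rw [Finset.sum_eq_zero]
        · rw [abs_zero]; positivity
        · intro p _
          rw [if_neg]
          intro h
          exact hl ⟨p, h⟩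
    calc |u i l| ≤ _ := abs_sub _ _
      _ ≤ _ := by linarith
  have hsq : ∀ i, ∑ l, u i l ^ 2 ≤ B := by
    intro i
    refine le_trans ?_ hB
    calc ∑ l, u i l ^ 2 ≤ ∑ l : Fin k, (2 * ((k.factorial : ℤ) * N ^ k)) ^ 2 := by
          refine Finset.sum_le_sum fun l _ => ?_
          rw [← sq_abs]
          exact pow_le_pow_left₀ (abs_nonneg _) (hub i l) 2
      _ = _ := by simp
  -- the combination
  have hcy : ∀ p, ∑ i, c i * (y i p : ℚ) = 0 := by
    intro p
    have h1 : ∀ i, (y i p : ℚ) = ∑ r, (G.adjugate p r : ℚ) * (b i r : ℚ) := by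
      intro i
      have : y i p = ∑ r, G.adjugate p r * b i r := by
        simp only [hy]
        rw [Matrix.cramer_eq_adjugate_mulVec]
        rfl
      rw [this]; push_cast; rfl
    simp only [h1, Finset.mul_sum]
    rw [Finset.sum_comm]
    refine Finset.sum_eq_zero fun r _ => ?_
    have h2 : ∑ i, c i * (b i r : ℚ) = 0 := by
      simp only [hb, Int.cast_sum, Int.cast_mul, Finset.mul_sum]
      rw [Finset.sum_comm]
      refine Finset.sum_eq_zero fun j _ => ?_
      rw [show ∑ i, c i * ((x i j : ℚ) * (x (a r) j : ℚ)) = (∑ i, c i * (x i j : ℚ)) * (x (a r) j : ℚ) by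
        rw [Finset.sum_mul]; exact Finset.sum_congr rfl fun i _ => by ring, hc j, zero_mul]
    rw [show ∑ i, c i * ((G.adjugate p r : ℚ) * (b i r : ℚ)) =
      (G.adjugate p r : ℚ) * ∑ i, c i * (b i r : ℚ) by
        rw [Finset.mul_sum]; exact Finset.sum_congr rfl fun i _ => by ring, h2, mul_zero]
  have hDq : (G.det : ℚ) ≠ 0 := by exact_mod_cast hD
  have hfin : c = ∑ i, (c i / (G.det : ℚ)) • (fun l => (u i l : ℚ)) := by
    funext l
    simp only [Finset.sum_apply, Pi.smul_apply, smul_eq_mul, hu, Int.cast_sub, mul_sub,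
      Finset.sum_sub_distrib, Int.cast_ite, Int.cast_zero, mul_ite, mul_zero, Int.cast_sum,
      Finset.mul_sum]
    rw [Finset.sum_ite_eq Finset.univ l, if_pos (Finset.mem_univ _), Finset.sum_comm,
      Finset.sum_eq_zero, div_mul_cancel₀ _ hDq, sub_zero]
    intro p _
    by_cases hl : l = a p
    · simp only [hl, if_true]
      rw [show ∑ i, c i / (G.det : ℚ) * (y i p : ℚ) = (∑ i, c i * (y i p : ℚ)) / (G.det : ℚ) by
        rw [Finset.sum_div]; exact Finset.sum_congr rfl fun i _ => by ring, hcy p, zero_div]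
    · simp [hl]
  rw [hfin]
  exact Submodule.sum_mem _ fun i _ => Submodule.smul_mem _ _
    (Submodule.subset_span ⟨u i, hrel i, hsq i, rfl⟩)


open Pool.Agent.NPC Pool.Agent.NPC.H532 Pool.Agent.H687R2.LLL

/-- The total size of a matrix, in unary. -/
def tot (X : List (List ℤ)) : ℕ :=
  X.length + (X.flatMap fun r => r).length +
    (X.flatMap fun r => r.flatMap fun z => z.natAbs.bits).length

/-- The bound for the relations. -/
def bnd (X : List (List ℤ)) : ℕ := 2 ^ (2 + tot X + 8 * (tot X * tot X))

theorem upoly_tot : UPoly tot := by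
  refine UPoly.add (UPoly.add (UPoly.length NPC.Poly.id) (UPoly.length ?_)) (UPoly.length ?_)
  · exact NPC.Poly.flatMap (F := fun _ r => r) NPC.Poly.id (NPC.Poly.snd NPC.Poly.id)
  · refine NPC.Poly.flatMap (α := List (List ℤ))
      (F := fun _ (r : List ℤ) => r.flatMap fun z => z.natAbs.bits) NPC.Poly.id ?_
    exact NPC.Poly.flatMap (α := List (List ℤ) × List ℤ) (F := fun _ (z : ℤ) => z.natAbs.bits)
      (NPC.Poly.snd NPC.Poly.id)
      (NPC.Poly.natBits (Poly_natAbs (NPC.Poly.snd NPC.Poly.id)))

theorem poly_bnd : NPC.Poly bnd :=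
  NPC.Poly.npow (NPC.Poly.const 2) (UPoly.add (UPoly.add (UPoly.const 2) upoly_tot)
    (UPoly.mul (UPoly.const 8) (UPoly.mul upoly_tot upoly_tot)))

theorem length_le_of_mem {α β : Type} {l : List α} {f : α → List β} {a : α} (h : a ∈ l) :
    (f a).length ≤ (l.flatMap f).length := by
  rw [List.length_flatMap]
  exact List.single_le_sum (fun _ _ => Nat.zero_le _) _ (List.mem_map.2 ⟨a, h, rfl⟩)

theorem entry_lt (X : List (List ℤ)) (i j : ℕ) :
    |(X.getD i []).getD j 0| ≤ 2 ^ tot X := by
  by_cases hi : i < X.length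
  · rw [List.getD_eq_getElem _ _ hi]
    by_cases hj : j < X[i].length
    · rw [List.getD_eq_getElem _ _ hj]
      have h1 : (X[i][j]).natAbs.bits.length ≤
          (X.flatMap fun r => r.flatMap fun z => z.natAbs.bits).length :=
        (length_le_of_mem (f := fun z : ℤ => z.natAbs.bits) (List.getElem_mem hj)).trans
          (length_le_of_mem (f := fun r : List ℤ => r.flatMap fun z => z.natAbs.bits)
            (List.getElem_mem hi))
      rw [Nat.size_eq_bits_len] at h1
      have h2 : (X[i][j]).natAbs < 2 ^ (tot X) := by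
        rw [← Nat.size_le]
        unfold tot
        omega
      rw [Int.abs_eq_natAbs]
      exact_mod_cast h2.le
    · rw [List.getD_eq_default _ _ (by omega), abs_zero]
      positivity
  · rw [List.getD_eq_default (l := X) (n := i) (d := []) (by omega)]
    simp

theorem nat_lt_pow (n : ℕ) : n ≤ 2 ^ n := Nat.lt_two_pow_self.le

end Pool.Agent.H420_NCF.K2

namespace Pool.Agent.H420_NCF

open Pool.Agent.NPC Pool.Agent.NPC.H532 Pool.Agent.H687R2.LLL
open scoped Matrix

theorem K2 (h : K1S) : K2S := by
  obtain ⟨ker, hker, hk⟩ := h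
  refine ⟨fun X => ker (X, K2.bnd X), hker.comp (NPC.Poly.pair NPC.Poly.id K2.poly_bnd), ?_⟩
  intro X q hX
  obtain ⟨h1, h2⟩ := hk X (K2.bnd X) q hX
  refine ⟨fun u hu => ⟨(h1 u hu).1, (h1 u hu).2.1⟩, ?_⟩
  intro c hc
  rcases Nat.eq_zero_or_pos X.length with h0 | h0
  · have : c = 0 := by
      funext i
      exact absurd i.2 (by omega)
    rw [this]
    exact Submodule.zero_mem _
  set s := K2.tot X with hs
  have hks : X.length ≤ s := by
    rw [hs]; unfold K2.tot; omega
  have hqs : q ≤ s := by
    have h3 : (X[0]).length ≤ (X.flatMap fun r => r).length :=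
      K2.length_le_of_mem (f := fun r : List ℤ => r) (List.getElem_mem h0)
    rw [hX _ (List.getElem_mem h0)] at h3
    rw [hs]; unfold K2.tot; omega
  -- the matrix
  let x : Fin X.length → Fin q → ℤ := fun i j => (X.getD i []).getD j 0
  have hx : ∀ i i', |∑ j, x i j * x i' j| ≤ 2 ^ (3 * s) := by
    intro i i'
    calc |∑ j, x i j * x i' j| ≤ ∑ j, |x i j * x i' j| := Finset.abs_sum_le_sum_abs _ _
      _ ≤ ∑ j : Fin q, (2 : ℤ) ^ s * 2 ^ s := by
          refine Finset.sum_le_sum fun j _ => ?_
          rw [abs_mul]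
          exact mul_le_mul (K2.entry_lt X i j) (K2.entry_lt X i' j) (abs_nonneg _) (by positivity)
      _ = (q : ℤ) * (2 ^ s * 2 ^ s) := by simp
      _ ≤ (2 : ℤ) ^ s * (2 ^ s * 2 ^ s) := by
          refine mul_le_mul_of_nonneg_right ?_ (by positivity)
          exact_mod_cast hqs.trans (K2.nat_lt_pow s)
      _ = 2 ^ (3 * s) := by ring
  have hfac : (X.length.factorial : ℤ) ≤ 2 ^ (s * s) := by
    have h3 : X.length.factorial ≤ 2 ^ (s * s) :=
      calc X.length.factorial ≤ s.factorial := Nat.factorial_le hks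
        _ ≤ s ^ s := Nat.factorial_le_pow s
        _ ≤ (2 ^ s) ^ s := Nat.pow_le_pow_left (K2.nat_lt_pow s) s
        _ = 2 ^ (s * s) := by rw [← pow_mul]
    exact_mod_cast h3
  have hN : ((2 : ℤ) ^ (3 * s)) ^ X.length ≤ 2 ^ (3 * (s * s)) := by
    rw [← pow_mul]
    refine pow_le_pow_right₀ (by norm_num) ?_
    calc 3 * s * X.length ≤ 3 * s * s := Nat.mul_le_mul_left _ hks
      _ = 3 * (s * s) := by ring
  have hB : (X.length : ℤ) * (2 * ((X.length.factorial : ℤ) * (2 ^ (3 * s)) ^ X.length)) ^ 2 ≤
      (K2.bnd X : ℤ) := by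
    have h4 : (X.length.factorial : ℤ) * (2 ^ (3 * s)) ^ X.length ≤ 2 ^ (4 * (s * s)) :=
      calc (X.length.factorial : ℤ) * (2 ^ (3 * s)) ^ X.length ≤ 2 ^ (s * s) * 2 ^ (3 * (s * s)) :=
            mul_le_mul hfac hN (by positivity) (by positivity)
        _ = 2 ^ (4 * (s * s)) := by ring
    have h5 : (X.length : ℤ) ≤ 2 ^ s := by
      exact_mod_cast hks.trans (K2.nat_lt_pow s)
    calc (X.length : ℤ) * (2 * ((X.length.factorial : ℤ) * (2 ^ (3 * s)) ^ X.length)) ^ 2
        ≤ 2 ^ s * (2 * 2 ^ (4 * (s * s))) ^ 2 := by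
          refine mul_le_mul h5 ?_ (by positivity) (by positivity)
          exact pow_le_pow_left₀ (by positivity) (mul_le_mul_of_nonneg_left h4 (by norm_num)) 2
      _ = 2 ^ (2 + s + 8 * (s * s)) := by ring
      _ = (K2.bnd X : ℤ) := by rw [hs]; unfold K2.bnd; push_cast; rfl
  have hcx : ∀ j, ∑ i, c i * (x i j : ℚ) = 0 := by
    intro j
    have := congrFun hc j
    simpa [Finset.sum_apply, vq, x] using this
  have key := K2.relations x (2 ^ (3 * s)) (one_le_pow₀ (by norm_num)) hx (K2.bnd X) hB c hcx
  refine (Submodule.span_le.2 ?_) key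
  rintro w ⟨u, hu1, hu2, rfl⟩
  -- the integer relation
  set c' : ℕ → ℤ := fun n => if h : n < X.length then u ⟨n, h⟩ else 0 with hc'
  have hc'i : ∀ i : Fin X.length, c' i = u i := fun i => by simp [hc']
  have h5 : ∀ j, form X c' j = 0 := by
    intro j
    unfold form
    rw [Finset.sum_range]
    by_cases hj : j < q
    · have := hu1 ⟨j, hj⟩
      refine (Finset.sum_congr rfl fun i _ => ?_).trans this
      rw [hc'i]
    · refine Finset.sum_eq_zero fun i _ => ?_
      rw [List.getD_eq_getElem _ _ i.2, List.getD_eq_default _ _ (by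
        rw [hX _ (List.getElem_mem i.2)]; omega), mul_zero]
  have h6 : ∑ i ∈ Finset.range X.length, c' i ^ 2 ≤ (K2.bnd X : ℤ) := by
    rw [Finset.sum_range]
    refine le_trans (le_of_eq ?_) hu2
    exact Finset.sum_congr rfl fun i _ => by rw [hc'i]
  have h7 := h2 c' h5 h6
  have h8 : ∀ y ∈ Submodule.span ℤ {y : Fin X.length → ℤ | ∃ u ∈ ker (X, K2.bnd X),
      y = fun i : Fin X.length => ent u i},
      (fun i => (y i : ℚ)) ∈ vspan X.length (ker (X, K2.bnd X)) := by
    intro y hy
    induction hy using Submodule.span_induction with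
    | mem y hy =>
      obtain ⟨u, hu, rfl⟩ := hy
      exact Submodule.subset_span ⟨u, hu, rfl⟩
    | zero =>
      have : (fun i => (((0 : Fin X.length → ℤ) i : ℤ) : ℚ)) = 0 := by funext i; simp
      rw [this]
      exact Submodule.zero_mem _
    | add y y' _ _ h h' =>
      have : (fun i => (((y + y') i : ℤ) : ℚ)) = (fun i => (y i : ℚ)) + fun i => (y' i : ℚ) := by
        funext i; simp
      rw [this]
      exact Submodule.add_mem _ h h'
    | smul t y _ h =>
      have : (fun i => (((t • y) i : ℤ) : ℚ)) = (t : ℚ) • fun i => (y i : ℚ) := by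
        funext i; simp
      rw [this]
      exact Submodule.smul_mem _ _ h
  have h9 := h8 _ h7
  have h10 : (fun i => ((c' (i : Fin X.length) : ℤ) : ℚ)) = fun i => (u i : ℚ) := by
    funext i; rw [hc'i]
  rw [h10] at h9
  exact h9

end Pool.Agent.H420_NCF
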