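import Pool.Agent.H420_NCF.Spec

/-!
# Module KEY: the key proposition
-/

namespace Pool.Agent.H420_NCF

open Pool.Agent.NPC Pool.Agent.NPC.H532 Pool.Agent.H687R2.LLL
open scoped Matrix

namespace KEY

variable {k : Type} [Field k] {n : ℕ}

/-- A subspace stable under generators is stable under the algebra they generate. -/
theorem stab_adjoin (M : ℕ → Matrix (Fin n) (Fin n) k) (U : Submodule k (Fin n → k))
    (hU : ∀ x, ∀ w ∈ U, w ᵥ* M x ∈ U) :
    ∀ w ∈ U, ∀ a ∈ Algebra.adjoin k (Set.range M), w ᵥ* a ∈ U := by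
  intro w hw a ha
  induction ha using Algebra.adjoin_induction generalizing w with
  | mem a ha =>
    obtain ⟨x, rfl⟩ := ha
    exact hU x w hw
  | algebraMap r =>
    rw [Algebra.algebraMap_eq_smul_one, Matrix.vecMul_smul, Matrix.vecMul_one]
    exact U.smul_mem r hw
  | add a b _ _ iha ihb =>
    rw [Matrix.vecMul_add]
    exact U.add_mem (iha w hw) (ihb w hw)
  | mul a b _ _ iha ihb =>
    rw [← Matrix.vecMul_vecMul]
    exact ihb _ (iha w hw)

theorem wmul_le {W U : Submodule k (Fin n → k)} {m : Submodule k (Matrix (Fin n) (Fin n) k)}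
    (h : ∀ w ∈ W, ∀ c ∈ m, w ᵥ* c ∈ U) : wmul W m ≤ U := by
  unfold wmul
  rw [Submodule.span_le]
  rintro _ ⟨w, hw, c, hc, rfl⟩
  exact h w hw c hc

theorem mem_wmul {W : Submodule k (Fin n → k)} {m : Submodule k (Matrix (Fin n) (Fin n) k)}
    {w : Fin n → k} {c : Matrix (Fin n) (Fin n) k} (hw : w ∈ W) (hc : c ∈ m) :
    w ᵥ* c ∈ wmul W m :=
  Submodule.subset_span ⟨w, hw, c, hc, rfl⟩

theorem wmul_stab (M : ℕ → Matrix (Fin n) (Fin n) k) {m : Submodule k (Matrix (Fin n) (Fin n) k)}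
    (hm : IsMaxC (Algebra.adjoin k (Set.range M)) m) {W : Submodule k (Fin n → k)}
    (hW : ∀ x, ∀ w ∈ W, w ᵥ* M x ∈ W) : ∀ x, ∀ w ∈ wmul W m, w ᵥ* M x ∈ wmul W m := by
  intro x w hw
  unfold wmul at hw
  induction hw using Submodule.span_induction with
  | mem w hw =>
    obtain ⟨v, hv, c, hc, rfl⟩ := hw
    have hMx : M x ∈ Algebra.adjoin k (Set.range M) := Algebra.subset_adjoin ⟨x, rfl⟩
    have h1 : c * M x - M x * c ∈ m := hm.J_le ((hm.le hc).2 (M x) hMx)
    have h2 : v ᵥ* c ᵥ* M x = (v ᵥ* M x) ᵥ* c + v ᵥ* (c * M x - M x * c) := by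
      rw [Matrix.vecMul_vecMul, Matrix.vecMul_vecMul, ← Matrix.vecMul_add]
      congr 1
      abel
    rw [h2]
    exact Submodule.add_mem _ (mem_wmul (hW x v hv) hc) (mem_wmul hv h1)
  | zero => rw [Matrix.zero_vecMul]; exact Submodule.zero_mem _
  | add a b _ _ iha ihb => rw [Matrix.add_vecMul]; exact Submodule.add_mem _ iha ihb
  | smul r a _ iha => rw [Matrix.smul_vecMul]; exact Submodule.smul_mem _ _ iha

theorem comap_lt {V : Type} [AddCommGroup V] [Module k V] {φ : (Fin n → k) →ₗ[k] V}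
    {P Q : Submodule k V} (hPQ : P < Q) (hQ : Q ≤ LinearMap.range φ) :
    P.comap φ < Q.comap φ := by
  refine lt_of_le_not_ge (Submodule.comap_mono hPQ.le) fun h => ?_
  have h1 : Q ≤ P := by
    rw [← Submodule.map_comap_eq_self hQ]
    exact (Submodule.map_mono h).trans (Submodule.map_comap_le _ _)
  exact absurd h1 (not_le_of_gt hPQ)

theorem stab_map {f : NC k} {φ : (Fin n → k) →ₗ[k] NC k} {M : ℕ → Matrix (Fin n) (Fin n) k}
    (hφ : ∀ x v, φ (v ᵥ* M x) = Top f [] [] x (φ v)) {W : Submodule k (Fin n → k)}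
    (hW : ∀ x, ∀ w ∈ W, w ᵥ* M x ∈ W) : Stab f [] [] (W.map φ) := by
  rintro x _ ⟨w, hw, rfl⟩
  rw [← hφ]
  exact Submodule.mem_map_of_mem (hW x w hw)

theorem comap_stab {f : NC k} {φ : (Fin n → k) →ₗ[k] NC k} {M : ℕ → Matrix (Fin n) (Fin n) k}
    (hφ : ∀ x v, φ (v ᵥ* M x) = Top f [] [] x (φ v)) {Q : Submodule k (NC k)}
    (hQ : Stab f [] [] Q) : ∀ x, ∀ w ∈ Q.comap φ, w ᵥ* M x ∈ Q.comap φ := by
  intro x w hw
  rw [Submodule.mem_comap, hφ]
  exact hQ x _ hw

theorem indep {N' : Submodule k (Fin n → k)} {c d : ℕ} {y : Fin c → (Fin n → k)}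
    {s t : Fin d → (Fin n → k)} (hy : LinearIndependent k y)
    (hyN : Submodule.span k (Set.range y) = N')
    (h : ∀ a b : Fin d → k, ∑ i, a i • s i + ∑ i, b i • t i ∈ N' → a = 0 ∧ b = 0) :
    LinearIndependent k (Sum.elim y (Sum.elim s t)) := by
  have hst : LinearIndependent k (Sum.elim s t) := by
    rw [Fintype.linearIndependent_iff]
    intro g hg
    rw [Fintype.sum_sum_type] at hg
    simp only [Sum.elim_inl, Sum.elim_inr] at hg
    obtain ⟨h1, h2⟩ := h (fun i => g (Sum.inl i)) (fun i => g (Sum.inr i))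
      (by rw [hg]; exact N'.zero_mem)
    rintro (i | i)
    · exact congrFun h1 i
    · exact congrFun h2 i
  refine hy.sum_type hst ?_
  rw [hyN, Submodule.disjoint_def]
  intro v hv hv'
  rw [Submodule.mem_span_range_iff_exists_fun] at hv'
  obtain ⟨g, hg⟩ := hv'
  rw [Fintype.sum_sum_type] at hg
  simp only [Sum.elim_inl, Sum.elim_inr] at hg
  obtain ⟨h1, h2⟩ := h (fun i => g (Sum.inl i)) (fun i => g (Sum.inr i)) (by rw [hg]; exact hv)
  rw [← hg]
  have e1 : ∀ i, g (Sum.inl i) = 0 := fun i => congrFun h1 i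
  have e2 : ∀ i, g (Sum.inr i) = 0 := fun i => congrFun h2 i
  simp [e1, e2]

end KEY

open KEY

theorem key (k : Type) [Field k] (h34 : L34S k) (h3 : R3S k) (hd : LDS k) : KeyS k := by
  intro f hf n φ hφinj hQ M hφ m hm W hW
  refine ⟨wmul_stab M hm hW, fun h h' hh hh' => ?_⟩
  have hWA := stab_adjoin M W hW
  have hle : wmul W m ≤ W := wmul_le fun w hw c hc => hWA w hw c (hm.le hc).1
  have hstab' := wmul_stab M hm hW
  obtain ⟨⟨p, hp⟩, h1, h2, h1', h2', h3a, h3b, h4⟩ := h34 f h h' (W.map φ) ((wmul W m).map φ) hf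
    (stab_map hφ hW) (stab_map hφ hstab') (Submodule.map_mono hle) hh hh'
  refine ⟨p, hp, ?_⟩
  by_contra hcon
  push Not at hcon
  obtain ⟨hpu, hpi⟩ := hcon
  rw [irreducible_iff] at hpi
  push Not at hpi
  obtain ⟨a, b, hab, ha, hb⟩ := hpi hpu
  obtain ⟨h5, h6, h7⟩ := h4 a b (by rw [hp, hab]) ha hb
  have hQI : ∀ g : NC k, QI f g ≤ LinearMap.range φ := fun g => inf_le_left.trans hQ
  set N' := (QI f h').comap φ with hN'
  set N'' := (QI f (b * h)).comap φ with hN''
  set M₀ := (QI f h).comap φ with hM₀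
  have l1 : N' < N'' := comap_lt h6 (hQI _)
  have l2 : N'' < M₀ := comap_lt h7 (hQI _)
  have s1 := stab_adjoin M N' (comap_stab hφ h3b)
  have s2 := stab_adjoin M N'' (comap_stab hφ h5)
  have s3 := stab_adjoin M M₀ (comap_stab hφ h3a)
  have hM₀W : M₀ ≤ W := by
    intro w hw
    have h8 : φ w ∈ W.map φ := h1 hw
    obtain ⟨w', hw', e⟩ := h8
    rwa [← hφinj e]
  have hw' : wmul M₀ m ≤ N' := by
    refine wmul_le fun w hw c hc => ?_
    rw [hN', Submodule.mem_comap]
    refine h2' ⟨?_, ?_⟩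
    · exact Submodule.mem_map_of_mem (mem_wmul (hM₀W hw) hc)
    · have h8 : w ᵥ* c ∈ M₀ := s3 w hw c (hm.le hc).1
      exact h8.1
  obtain ⟨d, s, t, B, hd0, hs, ht, hst, hBs, hBt⟩ := h3 n _ m hm N' N'' M₀ l1 l2 s1 s2 s3 hw'
  -- a basis of `N'`
  let bN := Module.finBasis k N'
  set c := Module.finrank k N' with hc
  let y : Fin c → (Fin n → k) := fun i => (bN i : Fin n → k)
  have hyli : LinearIndependent k y := bN.linearIndependent.map' N'.subtype N'.ker_subtype
  have hyspan : Submodule.span k (Set.range y) = N' := by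
    have e1 : Set.range y = N'.subtype '' Set.range bN := by
      rw [← Set.range_comp]; rfl
    rw [e1, ← Submodule.map_span, bN.span_eq, Submodule.map_top, Submodule.range_subtype]
  have hyspan' : Submodule.span k (Set.range (φ ∘ y)) = N'.map φ := by
    rw [Set.range_comp, ← Submodule.map_span, hyspan]
  have hmemN : ∀ v, v ∈ N' → φ v ∈ Submodule.span k (Set.range (φ ∘ y)) := by
    intro v hv
    rw [hyspan']
    exact Submodule.mem_map_of_mem hv
  have hli : LinearIndependent k (Sum.elim (φ ∘ y) (Sum.elim (φ ∘ s) (φ ∘ t))) := by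
    have e1 := (indep hyli hyspan hst).map' φ (LinearMap.ker_eq_bot.2 hφinj)
    rwa [Sum.comp_elim, Sum.comp_elim] at e1
  have hMA : ∀ x, M x ∈ Algebra.adjoin k (Set.range M) := fun x => Algebra.subset_adjoin ⟨x, rfl⟩
  refine hd f hf c d hd0 (φ ∘ y) (φ ∘ s) (φ ∘ t) (fun x => B (M x)) ?_ ?_ ?_ hli ?_ ?_ ?_
  · intro i
    have e1 : (bN i : Fin n → k) ∈ N' := (bN i).2
    exact (show φ (bN i : Fin n → k) ∈ QI f h' from e1).1
  · intro i
    exact (show φ (s i) ∈ QI f h from hs i).1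
  · intro i
    exact (show φ (t i) ∈ QI f h from ht i).1
  · intro x i
    rw [Function.comp_apply, ← hφ]
    exact hmemN _ (comap_stab hφ h3b x _ (bN i).2)
  · intro x i
    have e1 := hmemN _ (hBs (M x) (hMA x) i)
    rw [map_sub, map_sum, hφ] at e1
    simp only [map_smul] at e1
    exact e1
  · intro x i
    have e1 := hmemN _ (hBt (M x) (hMA x) i)
    rw [map_sub, map_sum, hφ] at e1
    simp only [map_smul] at e1
    exact e1

end Pool.Agent.H420_NCF
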