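import Pool.Agent.H420_NCF.Spec

/-!
# relations modulo p (module KM)
-/

namespace Pool.Agent.H420_NCF.KM

open Pool.Agent.NPC Pool.Agent.NPC.H532 Pool.Agent.H687R2.LLL Pool.Agent.H420_NCF

/-- The length of the first row. -/
def q0 (X : List (List ℤ)) : ℕ := (X.getD 0 []).length

/-- The rows reduced modulo `p`. -/
def top (X : List (List ℤ)) (p : ℕ) : List (List ℤ) :=
  X.map fun row => (List.range (q0 X)).map fun j => ent row j % (p : ℤ)

/-- `p` times the identity matrix. -/
def bot (X : List (List ℤ)) (p : ℕ) : List (List ℤ) :=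
  (List.range (q0 X)).map fun i => (List.range (q0 X)).map fun j => if j = i then (p : ℤ) else 0

/-- The matrix whose integer relations are the relations modulo `p`. -/
def XX (X : List (List ℤ)) (p : ℕ) : List (List ℤ) := top X p ++ bot X p

/-- The bound for the relations. -/
def bnd (X : List (List ℤ)) (p : ℕ) : ℕ :=
  X.length * (p * p) + q0 X * ((X.length * p) * (X.length * p))

variable {α : Type} [TEnc α]

theorem Poly_emod {f : α → ℤ} {n : α → ℕ} (hf : Poly f) (hn : Poly n) :
    Poly (fun a => f a % (n a : ℤ)) :=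
  (NPC.Poly.isub hf (NPC.Poly.imul (NPC.Poly.natCast hn) (NPC.Poly.idiv hf hn))).congr fun a => by
    have := Int.emod_add_mul_ediv (f a) (n a : ℤ)
    linarith

theorem UPoly_q0 {X : α → List (List ℤ)} (hX : Poly X) : UPoly (fun a => q0 (X a)) :=
  UPoly.length (NPC.Poly.getD hX (NPC.Poly.const 0) (NPC.Poly.const []))

theorem Poly_XX : Poly (fun a : List (List ℤ) × ℕ => XX a.1 a.2) := by
  unfold XX top bot
  refine NPC.Poly.append ?_ ?_
  · refine NPC.Poly.map (NPC.Poly.fst NPC.Poly.id) ?_
    refine NPC.Poly.map (UPoly_q0 (NPC.Poly.fst (NPC.Poly.fst NPC.Poly.id))).range ?_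
    refine Poly_emod ?_ (NPC.Poly.snd (NPC.Poly.fst (NPC.Poly.fst NPC.Poly.id)))
    exact NPC.Poly.getD (NPC.Poly.snd (NPC.Poly.fst NPC.Poly.id)) (NPC.Poly.snd NPC.Poly.id)
      (NPC.Poly.const 0)
  · refine NPC.Poly.map (UPoly_q0 (NPC.Poly.fst NPC.Poly.id)).range ?_
    refine NPC.Poly.map (UPoly_q0 (NPC.Poly.fst (NPC.Poly.fst NPC.Poly.id))).range ?_
    exact NPC.Poly.ite (NPC.Poly.decide_eq (NPC.Poly.snd NPC.Poly.id)
      (NPC.Poly.snd (NPC.Poly.fst NPC.Poly.id)))
      (NPC.Poly.natCast (NPC.Poly.snd (NPC.Poly.fst (NPC.Poly.fst NPC.Poly.id))))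
      (NPC.Poly.const 0)

theorem Poly_bnd : Poly (fun a : List (List ℤ) × ℕ => bnd a.1 a.2) := by
  unfold bnd
  have h1 : Poly (fun a : List (List ℤ) × ℕ => a.1.length) :=
    NPC.Poly.length (NPC.Poly.fst NPC.Poly.id)
  have h2 : Poly (fun a : List (List ℤ) × ℕ => a.2) := NPC.Poly.snd NPC.Poly.id
  have h3 : Poly (fun a : List (List ℤ) × ℕ => q0 a.1) :=
    (UPoly_q0 (NPC.Poly.fst NPC.Poly.id)).toPoly
  exact NPC.Poly.add (NPC.Poly.mul h1 (NPC.Poly.mul h2 h2)) (NPC.Poly.mul h3 (NPC.Poly.mul
    (NPC.Poly.mul h1 h2) (NPC.Poly.mul h1 h2)))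

theorem length_top (X : List (List ℤ)) (p : ℕ) : (top X p).length = X.length := by
  unfold top; rw [List.length_map]

theorem length_bot (X : List (List ℤ)) (p : ℕ) : (bot X p).length = q0 X := by
  unfold bot; rw [List.length_map, List.length_range]

theorem length_XX (X : List (List ℤ)) (p : ℕ) : (XX X p).length = X.length + q0 X := by
  unfold XX; rw [List.length_append, length_top, length_bot]

theorem len_XX (X : List (List ℤ)) (p : ℕ) : ∀ r ∈ XX X p, r.length = q0 X := by
  intro r hr
  unfold XX top bot at hr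
  rcases List.mem_append.1 hr with h | h
  · obtain ⟨x, _, rfl⟩ := List.mem_map.1 h
    rw [List.length_map, List.length_range]
  · obtain ⟨x, _, rfl⟩ := List.mem_map.1 h
    rw [List.length_map, List.length_range]

theorem getD_map_range {β : Type} (r : ℕ) (f : ℕ → β) (l : ℕ) (hl : l < r) (d : β) :
    ((List.range r).map f).getD l d = f l := by
  have : l < ((List.range r).map f).length := by simpa using hl
  rw [List.getD_eq_getElem _ _ this, List.getElem_map, List.getElem_range]

theorem XX_top (X : List (List ℤ)) (p : ℕ) {i j : ℕ} (hi : i < X.length) (hj : j < q0 X) :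
    ((XX X p).getD i []).getD j 0 = (X.getD i []).getD j 0 % (p : ℤ) := by
  unfold XX
  rw [List.getD_append _ _ _ _ (by rw [length_top]; exact hi)]
  have e : (top X p).getD i [] = (List.range (q0 X)).map fun j => ent (X.getD i []) j % (p : ℤ) := by
    unfold top
    rw [List.getD_eq_getElem (X.map _) _ (by rw [List.length_map]; exact hi), List.getElem_map,
      List.getD_eq_getElem X _ hi]
  rw [e, getD_map_range _ _ _ hj]
  rfl

theorem XX_bot (X : List (List ℤ)) (p : ℕ) {i j : ℕ} (hi : i < q0 X) (hj : j < q0 X) :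
    ((XX X p).getD (X.length + i) []).getD j 0 = if j = i then (p : ℤ) else 0 := by
  unfold XX
  rw [List.getD_append_right _ _ _ _ (by rw [length_top]; omega), length_top,
    Nat.add_sub_cancel_left]
  unfold bot
  rw [getD_map_range _ _ _ hi, getD_map_range _ _ _ hj]

/-- The value of the form, for a column inside the range. -/
theorem form_XX (X : List (List ℤ)) (p : ℕ) (c : ℕ → ℤ) {j : ℕ} (hj : j < q0 X) :
    form (XX X p) c j = ∑ i ∈ Finset.range X.length, c i * ((X.getD i []).getD j 0 % (p : ℤ)) +
      c (X.length + j) * p := by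
  unfold form
  rw [length_XX, Finset.sum_range_add]
  congr 1
  · refine Finset.sum_congr rfl fun i hi => ?_
    rw [XX_top X p (Finset.mem_range.1 hi) hj]
  · rw [Finset.sum_eq_single j]
    · rw [XX_bot X p hj hj, if_pos rfl]
    · intro i hi hij
      rw [XX_bot X p (Finset.mem_range.1 hi) hj, if_neg (Ne.symm hij), mul_zero]
    · intro h
      exact absurd (Finset.mem_range.2 hj) h

theorem form_zero {X : List (List ℤ)} {q : ℕ} (hX : ∀ r ∈ X, r.length = q) (c : ℕ → ℤ) {j : ℕ}
    (hj : q ≤ j) : form X c j = 0 := by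
  unfold form
  refine Finset.sum_eq_zero fun i hi => ?_
  have hi' := Finset.mem_range.1 hi
  rw [List.getD_eq_getElem X _ hi', List.getD_eq_default _ _ (by
    rw [hX _ (List.getElem_mem _)]; exact hj), mul_zero]

end Pool.Agent.H420_NCF.KM

namespace Pool.Agent.H420_NCF

open Pool.Agent.NPC Pool.Agent.NPC.H532 Pool.Agent.H687R2.LLL
open scoped Matrix

theorem km (h : K1S) : KMS := by
  obtain ⟨ker, hker, hK⟩ := h
  refine ⟨fun a => (ker (KM.XX a.1 a.2, KM.bnd a.1 a.2)).map fun u => u.take a.1.length, ?_, ?_⟩
  · refine NPC.Poly.map (hker.comp (NPC.Poly.pair KM.Poly_XX KM.Poly_bnd)) ?_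
    exact NPC.Poly.take_length (NPC.Poly.snd NPC.Poly.id)
      (NPC.Poly.fst (NPC.Poly.fst NPC.Poly.id))
  · intro X q p hp hX
    obtain ⟨h1, h2⟩ := hK (KM.XX X p) (KM.bnd X p) (KM.q0 X) (KM.len_XX X p)
    have hq0 : ∀ j, KM.q0 X ≤ j → ∀ c, form X c j = 0 := by
      intro j hj c
      rcases X with _ | ⟨x, X⟩
      · rfl
      · have : KM.q0 (x :: X) = q := hX x (by simp)
        exact KM.form_zero hX c (by rw [← this]; exact hj)
    constructor
    · intro u hu
      obtain ⟨w, hw, rfl⟩ := List.mem_map.1 hu
      obtain ⟨h3, h4, -⟩ := h1 w hw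
      rw [KM.length_XX] at h3
      refine ⟨by rw [List.length_take, h3]; exact min_eq_left (Nat.le_add_right _ _), fun j => ?_⟩
      by_cases hj : j < KM.q0 X
      · have h5 := h4 j
        rw [KM.form_XX X p _ hj] at h5
        have h6 : form X (ent (w.take X.length)) j = ∑ i ∈ Finset.range X.length,
            ent w i * (X.getD i []).getD j 0 := by
          unfold form
          refine Finset.sum_congr rfl fun i hi => ?_
          congr 1
          unfold ent
          rw [List.getD_eq_getElem?_getD, List.getElem?_take_of_lt (Finset.mem_range.1 hi),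
            ← List.getD_eq_getElem?_getD]
        rw [h6]
        have h7 : (p : ℤ) ∣ ∑ i ∈ Finset.range X.length, ent w i * (X.getD i []).getD j 0 -
            ∑ i ∈ Finset.range X.length, ent w i * ((X.getD i []).getD j 0 % (p : ℤ)) := by
          rw [← Finset.sum_sub_distrib]
          refine Finset.dvd_sum fun i _ => ?_
          rw [← mul_sub]
          exact Dvd.dvd.mul_left (Int.dvd_self_sub_emod) _
        have h8 : (p : ℤ) ∣ ∑ i ∈ Finset.range X.length,
            ent w i * ((X.getD i []).getD j 0 % (p : ℤ)) :=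
          ⟨- ent w (X.length + j), by linarith⟩
        have := dvd_add h7 h8
        rwa [sub_add_cancel] at this
      · rw [hq0 j (by omega)]
        exact dvd_zero _
    · intro c hc
      have hp' : (0 : ℤ) < p := by exact_mod_cast hp
      set s : ℕ → ℤ := fun j => ∑ i ∈ Finset.range X.length,
        (c i % (p : ℤ)) * ((X.getD i []).getD j 0 % (p : ℤ)) with hs
      have hsd : ∀ j, j < KM.q0 X → (p : ℤ) ∣ s j := by
        intro j hj
        have h3 := hc j
        unfold form at h3
        have h4 : (p : ℤ) ∣ ∑ i ∈ Finset.range X.length, c i * (X.getD i []).getD j 0 - s j := by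
          rw [hs, ← Finset.sum_sub_distrib]
          refine Finset.dvd_sum fun i _ => ?_
          have e : c i * (X.getD i []).getD j 0 - (c i % (p : ℤ)) *
              ((X.getD i []).getD j 0 % (p : ℤ)) = (c i - c i % (p : ℤ)) * (X.getD i []).getD j 0 +
              (c i % (p : ℤ)) * ((X.getD i []).getD j 0 - (X.getD i []).getD j 0 % (p : ℤ)) := by
            ring
          rw [e]
          exact dvd_add (Dvd.dvd.mul_right (Int.dvd_self_sub_emod) _)
            (Dvd.dvd.mul_left (Int.dvd_self_sub_emod) _)
        have := dvd_sub h3 h4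
        rwa [sub_sub_cancel] at this
      have hs0 : ∀ j, 0 ≤ s j := fun j => Finset.sum_nonneg fun i _ =>
        mul_nonneg (Int.emod_nonneg _ hp'.ne') (Int.emod_nonneg _ hp'.ne')
      have hs1 : ∀ j, s j ≤ X.length * p * p := by
        intro j
        have : s j ≤ ∑ i ∈ Finset.range X.length, (p : ℤ) * p :=
          Finset.sum_le_sum fun i _ => mul_le_mul (Int.emod_lt_of_pos _ hp').le
            (Int.emod_lt_of_pos _ hp').le (Int.emod_nonneg _ hp'.ne') hp'.le
        rw [Finset.sum_const, Finset.card_range, nsmul_eq_mul] at this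
        linarith
      set c' : ℕ → ℤ := fun i => if i < X.length then c i % (p : ℤ) else
        - (s (i - X.length) / (p : ℤ)) with hc'
      have hc1 : ∀ i, i < X.length → c' i = c i % (p : ℤ) := fun i hi => if_pos hi
      have hc2 : ∀ j, c' (X.length + j) = - (s j / (p : ℤ)) := fun j => by
        rw [hc']
        simp
      have h3 := h2 c' (fun j => ?_) ?_
      · set ρ : (Fin (KM.XX X p).length → ℤ) →ₗ[ℤ] (Fin X.length → ℤ) :=
          LinearMap.funLeft ℤ ℤ (Fin.castLE (by rw [KM.length_XX]; exact Nat.le_add_right _ _))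
          with hρ
        refine ⟨ρ (fun i => c' i), ?_, fun i => ?_⟩
        · have h4 := Submodule.mem_map_of_mem (f := ρ) h3
          rw [Submodule.map_span] at h4
          refine Submodule.span_mono ?_ h4
          rintro _ ⟨_, ⟨u, hu, rfl⟩, rfl⟩
          refine ⟨u.take X.length, List.mem_map.2 ⟨u, hu, rfl⟩, ?_⟩
          funext i
          change ent u i = ent (u.take X.length) i
          unfold ent
          rw [List.getD_eq_getElem?_getD, List.getD_eq_getElem?_getD,
            List.getElem?_take_of_lt i.2]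
        · change (p : ℤ) ∣ c i - c' i
          rw [hc1 i i.2]
          exact Int.dvd_self_sub_emod
      · by_cases hj : j < KM.q0 X
        · rw [KM.form_XX X p _ hj, hc2, neg_mul, Int.ediv_mul_cancel (hsd j hj)]
          have : ∑ i ∈ Finset.range X.length, c' i * ((X.getD i []).getD j 0 % (p : ℤ)) = s j :=
            Finset.sum_congr rfl fun i hi => by rw [hc1 i (Finset.mem_range.1 hi)]
          rw [this]; ring
        · exact KM.form_zero (KM.len_XX X p) _ (by omega)
      · rw [KM.length_XX, Finset.sum_range_add]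
        unfold KM.bnd
        push_cast
        refine add_le_add ?_ ?_
        · have : ∑ i ∈ Finset.range X.length, c' i ^ 2 ≤ ∑ i ∈ Finset.range X.length,
              (p : ℤ) * p := by
            refine Finset.sum_le_sum fun i hi => ?_
            rw [hc1 i (Finset.mem_range.1 hi), pow_two]
            exact mul_le_mul (Int.emod_lt_of_pos _ hp').le
              (Int.emod_lt_of_pos _ hp').le (Int.emod_nonneg _ hp'.ne') hp'.le
          rwa [Finset.sum_const, Finset.card_range, nsmul_eq_mul] at this
        · have : ∑ i ∈ Finset.range (KM.q0 X), c' (X.length + i) ^ 2 ≤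
              ∑ i ∈ Finset.range (KM.q0 X), ((X.length : ℤ) * p * (X.length * p)) := by
            refine Finset.sum_le_sum fun i hi => ?_
            rw [hc2, neg_sq, pow_two]
            have h5 : 0 ≤ s i / (p : ℤ) := Int.ediv_nonneg (hs0 i) hp'.le
            have h6 : s i / (p : ℤ) ≤ X.length * p := by
              have := Int.ediv_le_ediv hp' (hs1 i)
              rwa [Int.mul_ediv_cancel _ hp'.ne'] at this
            exact mul_le_mul h6 h6 h5 (by positivity)
          rwa [Finset.sum_const, Finset.card_range, nsmul_eq_mul] at this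

end Pool.Agent.H420_NCF
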