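import Pool.Agent.H420_NCF.Spec

/-!
# stable subspaces generate principal left ideals (module L11)
-/

namespace Pool.Agent.H420_NCF

open Pool.Agent.NPC Pool.Agent.NPC.H532 Pool.Agent.H687R2.LLL
open scoped Matrix

namespace L11

variable {k : Type} [Field k]

theorem lq_mem_Rlt {b : ℕ} {p : NC k} (x : ℕ) (hp : p ∈ Rlt k (b + 1)) : lq x p ∈ Rlt k b := by
  intro w hw
  rw [cf_lq]
  exact hp _ (by simp; omega)

theorem eq_zero_of_lq {p : NC k} (h0 : eps p = 0) (h : ∀ x, lq x p = 0) : p = 0 := by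
  ext w
  rw [map_zero]
  cases w with
  | nil => exact h0
  | cons x w => rw [← cf_lq, h x, map_zero]

/-- `Top` on an element without `w`-coefficient. -/
theorem Top_of_cf_zero (f : NC k) (u w : List ℕ) (x : ℕ) {p : NC k} (hp : cf w p = 0) :
    Top f u w x p = cf (u ++ w) f • lq x p := by
  show lq x (cf (u ++ w) f • p - cf w p • lqw u f) = _
  rw [hp, zero_smul, sub_zero, map_smul]

theorem step1 {f : NC k} {u w : List ℕ} {N : Submodule k (NC k)}
    (hlow : IsLow f (u ++ w).length) (hF : cf (u ++ w) f ≠ 0) (hst : Stab f u w N)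
    (hc : (u = [] ∧ w = []) ∨
      (u ≠ [] ∧ (∀ x, lq x f ∈ N) ∧ (w ≠ [] → ∀ p ∈ N, eps p = 0)))
    {p : NC k} (hp : p ∈ N ⊔ Submodule.span k {f}) (hp0 : cf w p = 0) :
    eps p = 0 ∧ ∀ x, lq x p ∈ N := by
  obtain ⟨n, hn, g, hg, rfl⟩ := Submodule.mem_sup.1 hp
  obtain ⟨c, rfl⟩ := Submodule.mem_span_singleton.1 hg
  rcases hc with ⟨rfl, rfl⟩ | ⟨hu, hlq, heps⟩
  · refine ⟨hp0, fun x => ?_⟩
    have h1 := hst x n hn
    have h2 : Top f [] [] x n = cf ([] ++ []) f • lq x (n + c • f) := by
      show lq x (cf ([] ++ []) f • n - cf [] n • lqw [] f) = _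
      rw [← map_smul]
      congr 1
      rw [map_add, map_smul] at hp0
      have h3 : cf [] n = - (c • cf [] f) := eq_neg_of_add_eq_zero_left hp0
      rw [h3, lqw_nil, List.append_nil, smul_add, neg_smul, sub_neg_eq_add, smul_smul,
        smul_eq_mul, mul_comm]
    rw [h2] at h1
    have h4 := N.smul_mem (cf ([] ++ []) f)⁻¹ h1
    rwa [smul_smul, inv_mul_cancel₀ hF, one_smul] at h4
  · have hul : 0 < u.length := List.length_pos_iff.2 hu
    have hfw : cf w f = 0 := hlow.2 w (by rw [List.length_append]; omega)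
    have hnw : cf w n = 0 := by
      rw [map_add, map_smul, hfw, smul_zero, add_zero] at hp0
      exact hp0
    constructor
    · by_cases hw : w = []
      · subst hw; exact hp0
      · have h1 : eps f = 0 := hlow.2 [] (by rw [List.length_append, List.length_nil]; omega)
        rw [map_add, map_smul, heps hw n hn, h1, smul_zero, add_zero]
    · intro x
      have h1 := hst x n hn
      rw [Top_of_cf_zero f u w x hnw] at h1
      have h4 := N.smul_mem (cf (u ++ w) f)⁻¹ h1
      rw [smul_smul, inv_mul_cancel₀ hF, one_smul] at h4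
      rw [map_add, map_smul]
      exact N.add_mem h4 (N.smul_mem _ (hlq x))

theorem step2 {f : NC k} {u w : List ℕ} {N : Submodule k (NC k)}
    (hlow : IsLow f (u ++ w).length) (hF : cf (u ++ w) f ≠ 0) (hst : Stab f u w N)
    (hlq : ∀ x, lq x f ∈ N) (v : List ℕ) (hv : v ≠ []) (v' : List ℕ) (hvu : v ++ v' = u) :
    lqw v f ∈ N := by
  induction v using List.reverseRecOn generalizing v' with
  | nil => exact absurd rfl hv
  | append_singleton v y ih =>
    by_cases hv0 : v = []
    · subst hv0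
      exact hlq y
    · have h1 := ih hv0 ([y] ++ v') (by rw [← hvu, List.append_assoc])
      have h2 : cf w (lqw v f) = 0 := by
        rw [cf_lqw]
        exact hlow.2 _ (by rw [← hvu]; simp)
      have h3 := hst y _ h1
      rw [Top_of_cf_zero f u w y h2] at h3
      have h4 := N.smul_mem (cf (u ++ w) f)⁻¹ h3
      rw [smul_smul, inv_mul_cancel₀ hF, one_smul] at h4
      rwa [lqw_snoc]

/-- Nonzero elements of `LI h` have degree at least that of `h`. -/
theorem eq_zero_of_mem_LI {h p : NC k} {d : ℕ} (hd : IsDeg h d) (hp : p ∈ LI h)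
    (hlt : p ∈ Rlt k d) : p = 0 := by
  by_contra hne
  obtain ⟨q, rfl⟩ := mem_LI.1 hp
  have hq : q ≠ 0 := by rintro rfl; exact hne (zero_mul _)
  obtain ⟨e, he⟩ := exists_isDeg hq
  obtain ⟨⟨v, hv, hv'⟩, _⟩ := he.mul hd
  exact hv' (hlt v (by omega))

end L11

open L11 in
theorem l11 (k : Type) [Field k] : L11S k := by
  intro f u w N h hlow hF hst hc hmin
  obtain ⟨hh, d, hd, hmin⟩ := hmin
  have hNle : N ≤ N ⊔ Submodule.span k {f} := le_sup_left
  -- (3)
  have h3 : cf w h ≠ 0 := by
    intro h0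
    obtain ⟨h1, h2⟩ := step1 hlow hF hst hc hh h0
    have h4 : ∀ x, lq x h = 0 := by
      intro x
      exact hmin _ (hNle (h2 x)) (lq_mem_Rlt x hd.mem_Rlt)
    exact hd.ne_zero (eq_zero_of_lq h1 h4)
  -- reduction of an element
  have hred : ∀ p ∈ N ⊔ Submodule.span k {f},
      eps (p - (cf w p / cf w h) • h) = 0 ∧ ∀ x, lq x (p - (cf w p / cf w h) • h) ∈ N := by
    intro p hp
    refine step1 hlow hF hst hc (Submodule.sub_mem _ hp (Submodule.smul_mem _ _ hh)) ?_
    rw [map_sub, map_smul, smul_eq_mul, div_mul_cancel₀ _ h3, sub_self]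
  -- (4)
  have h4 : ∀ b, ∀ p ∈ N ⊔ Submodule.span k {f}, p ∈ Rlt k b → p ∈ LI h := by
    intro b
    induction b with
    | zero =>
      intro p _ hpb
      have : p = 0 := by ext v; rw [map_zero]; exact hpb v (Nat.zero_le _)
      rw [this]; exact Submodule.zero_mem _
    | succ b ih =>
      intro p hp hpb
      by_cases hdb : d ≤ b
      · obtain ⟨h1, h2⟩ := hred p hp
        have h5 : p - (cf w p / cf w h) • h ∈ Rlt k (b + 1) := by
          refine Submodule.sub_mem _ hpb (Submodule.smul_mem _ _ fun v hv => ?_)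
          exact hd.2 v (by omega)
        have h6 : p - (cf w p / cf w h) • h ∈ LI h :=
          mem_of_lq h1 fun x => ih _ (hNle (h2 x)) (lq_mem_Rlt x h5)
        have h7 : (cf w p / cf w h) • h ∈ LI h := by
          rw [mem_LI]
          exact ⟨(cf w p / cf w h) • 1, by rw [smul_mul_assoc, one_mul]⟩
        have h8 := Submodule.add_mem _ h6 h7
        rwa [sub_add_cancel] at h8
      · have : p = 0 := hmin p hp fun v hv => hpb v (by omega)
        rw [this]; exact Submodule.zero_mem _
  have h4' : ∀ p ∈ N ⊔ Submodule.span k {f}, p ∈ LI h := by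
    intro p hp
    by_cases hp0 : p = 0
    · rw [hp0]; exact Submodule.zero_mem _
    · obtain ⟨e, he⟩ := exists_isDeg hp0
      exact h4 _ p hp he.mem_Rlt
  refine ⟨fun p hp => mem_LI.1 (h4' p hp), ?_⟩
  -- (5)
  have h5 : ∀ p ∈ N ⊔ Submodule.span k {f}, ∀ q, p = q * h → cf w p = eps q * cf w h := by
    intro p hp q hq
    obtain ⟨h1, h2⟩ := hred p hp
    set c := cf w p / cf w h with hcdef
    have h6 : p - c • h = (q - c • 1) * h := by
      rw [sub_mul, smul_mul_assoc, one_mul, hq]
    have h7 : eps (q - c • 1) = 0 := by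
      by_contra hne
      have h8 : ∀ x, lq x h = 0 := by
        intro x
        have h9 : lq x (p - c • h) ∈ LI h := h4' _ (hNle (h2 x))
        rw [h6, lq_mul] at h9
        have h10 : lq x (q - c • 1) * h ∈ LI h := mem_LI.2 ⟨_, rfl⟩
        have h11 : eps (q - c • 1) • lq x h ∈ LI h := by
          have := Submodule.sub_mem _ h9 h10
          rwa [add_sub_cancel_left] at this
        have h12 : lq x h ∈ LI h := by
          obtain ⟨s, hs⟩ := mem_LI.1 h11
          rw [mem_LI]
          refine ⟨(eps (q - c • 1))⁻¹ • s, ?_⟩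
          rw [smul_mul_assoc, ← hs, smul_smul, inv_mul_cancel₀ hne, one_smul]
        exact eq_zero_of_mem_LI hd h12 (lq_mem_Rlt x hd.mem_Rlt)
      rw [h6, eps_mul] at h1
      rcases mul_eq_zero.1 h1 with h9 | h9
      · exact hne h9
      · exact hd.ne_zero (eq_zero_of_lq h9 h8)
    rw [map_sub, map_smul, eps_one, smul_eq_mul, mul_one, sub_eq_zero] at h7
    rw [h7, hcdef, div_mul_cancel₀ _ h3]
  -- (2)
  obtain ⟨r, hr, hrw, hrlow⟩ : ∃ r ∈ N ⊔ Submodule.span k {f}, cf w r ≠ 0 ∧
      ∀ v : List ℕ, v.length < w.length → cf v r = 0 := by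
    rcases hc with ⟨rfl, rfl⟩ | ⟨hu, hlq, heps⟩
    · refine ⟨f, Submodule.mem_sup_right (Submodule.mem_span_singleton_self f), hF, ?_⟩
      intro v hv
      simp at hv
    · refine ⟨lqw u f, hNle (step2 hlow hF hst hlq u hu [] (List.append_nil u)), ?_, ?_⟩
      · rw [cf_lqw]; exact hF
      · intro v hv
        rw [cf_lqw]
        exact hlow.2 _ (by rw [List.length_append, List.length_append]; omega)
  obtain ⟨q, hq⟩ := mem_LI.1 (h4' r hr)
  have hrL : IsLow r w.length := ⟨⟨w, rfl, hrw⟩, hrlow⟩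
  have hqe : eps q ≠ 0 := by
    intro h0
    have := h5 r hr q hq
    rw [h0, zero_mul] at this
    exact hrw this
  have hqL : IsLow q 0 := ⟨⟨[], rfl, hqe⟩, fun v hv => absurd hv (Nat.not_lt_zero _)⟩
  obtain ⟨e, he⟩ := exists_isLow hd.ne_zero
  have h6 := hqL.mul he
  rw [← hq] at h6
  have h7 := h6.unique hrL
  rw [zero_add] at h7
  rwa [h7] at he

end Pool.Agent.H420_NCF
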