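import Pool.Agent.H420_NCF.Spec

/-!
# common left multiples stay stable (module L12)
-/

namespace Pool.Agent.H420_NCF

open Pool.Agent.NPC Pool.Agent.NPC.H532 Pool.Agent.H687R2.LLL
open scoped Matrix

namespace L12

variable {k : Type} [Field k]

theorem lqw_mul_of_low (u : List ℕ) (g h : NC k)
    (hg : ∀ v : List ℕ, v.length < u.length → cf v g = 0) : lqw u (g * h) = lqw u g * h := by
  induction u generalizing g with
  | nil => rfl
  | cons x u ih =>
    have h0 : eps g = 0 := hg [] (by simp)
    rw [lqw_cons, lqw_cons, lq_mul, h0, zero_smul, add_zero]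
    exact ih (lq x g) (fun v hv => by rw [cf_lq]; exact hg (x :: v) (by simpa using hv))

theorem cf_append_mul {u w : List ℕ} {g h : NC k} (hg : ∀ v : List ℕ, v.length < u.length → cf v g = 0)
    (hh : ∀ v : List ℕ, v.length < w.length → cf v h = 0) :
    cf (u ++ w) (g * h) = cf u g * cf w h := by
  rw [cf_mul, Finset.sum_eq_single u.length]
  · rw [List.take_left, List.drop_left]
  · intro i hi hne
    simp only [Finset.mem_range, List.length_append] at hi
    rcases lt_or_gt_of_ne hne with h' | h'
    · rw [hg _ (by rw [List.length_take, List.length_append]; omega), zero_mul]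
    · rw [hh _ (by rw [List.length_drop, List.length_append]; omega), mul_zero]
  · intro h'; exact absurd (Finset.mem_range.2 (by rw [List.length_append]; omega)) h'

theorem eps_lqw (u : List ℕ) (g : NC k) : eps (lqw u g) = cf u g := by
  rw [eps_def, cf_lqw, List.append_nil]

end L12

open L12 in
theorem l12 (k : Type) [Field k] : L12S k := by
  intro f g h g' h' u w hf hF hgh hgh' hg hg'
  obtain ⟨e, hue, hg'⟩ := hg'
  have hf0 : f ≠ 0 := hf.ne_zero
  have hh0 : h ≠ 0 := by rintro rfl; exact hf0 (by rw [hgh, mul_zero])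
  have hh0' : h' ≠ 0 := by rintro rfl; exact hf0 (by rw [hgh', mul_zero])
  obtain ⟨d, hd⟩ := exists_isLow hh0
  obtain ⟨d', hd'⟩ := exists_isLow hh0'
  have hlow1 := hg.mul hd
  rw [← hgh] at hlow1
  have hdw : d = w.length := by
    have := hlow1.unique hf
    rw [List.length_append] at this
    omega
  subst hdw
  have hlow2 := hg'.mul hd'
  rw [← hgh'] at hlow2
  have hde : e + d' = u.length + w.length := by
    have := hlow2.unique hf
    rw [List.length_append] at this
    omega
  refine ⟨?_, ?_⟩
  · intro hu x
    have hupos : 0 < u.length := List.length_pos_iff.2 hu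
    have e1 : eps g = 0 := hg.2 [] (by simpa using hupos)
    have e2 : eps g' = 0 := hg'.2 [] (by simp; omega)
    refine ⟨⟨lq x g, ?_⟩, ⟨lq x g', ?_⟩⟩
    · rw [hgh, lq_mul, e1, zero_smul, add_zero]
    · rw [hgh', lq_mul, e2, zero_smul, add_zero]
  · rintro p ⟨q, hq⟩ ⟨q', hq'⟩ x
    have l1 : lqw u f = lqw u g * h := by
      rw [hgh]; exact lqw_mul_of_low u g h hg.2
    have l2 : lqw u f = lqw u g' * h' := by
      rw [hgh']; exact lqw_mul_of_low u g' h' (fun v hv => hg'.2 v (by omega))
    have hFF : cf (u ++ w) f = cf u g * cf w h := by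
      rw [hgh]; exact cf_append_mul hg.2 hd.2
    have hwp : cf w p = eps q * cf w h := by
      rw [hq]
      exact cf_append_mul (u := []) (fun v hv => absurd hv (by simp)) hd.2
    set F := cf (u ++ w) f with hFdef
    set s₁ : NC k := F • q - cf w p • lqw u g with hs1
    set s₂ : NC k := F • q' - cf w p • lqw u g' with hs2
    have t1 : F • p - cf w p • lqw u f = s₁ * h := by
      rw [hs1, sub_mul, smul_mul_assoc, smul_mul_assoc, ← l1, ← hq]
    have t2 : F • p - cf w p • lqw u f = s₂ * h' := by
      rw [hs2, sub_mul, smul_mul_assoc, smul_mul_assoc, ← l2, ← hq']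
    have es1 : eps s₁ = 0 := by
      rw [hs1, map_sub, map_smul, map_smul, eps_lqw, hwp, hFF, smul_eq_mul, smul_eq_mul]
      ring
    have T1 : Top f u w x p = lq x (s₁ * h) := by
      rw [← t1]; rfl
    have T2 : Top f u w x p = lq x (s₂ * h') := by
      rw [← t2]; rfl
    refine ⟨⟨lq x s₁, ?_⟩, ?_⟩
    · rw [T1, lq_mul, es1, zero_smul, add_zero]
    · by_cases es2 : eps s₂ = 0
      · exact ⟨lq x s₂, by rw [T2, lq_mul, es2, zero_smul, add_zero]⟩
      · by_cases hs0 : s₁ = 0
        · exact ⟨0, by rw [T1, hs0, zero_mul, map_zero, zero_mul]⟩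
        · exfalso
          have hs20 : s₂ ≠ 0 := by
            rintro h0; exact es2 (by rw [h0, map_zero])
          obtain ⟨d₁, hd1⟩ := exists_isLow hs0
          obtain ⟨d₂, hd2⟩ := exists_isLow hs20
          have a1 := hd1.mul hd
          have a2 := hd2.mul hd'
          rw [← t1, t2] at a1
          have a3 := a1.unique a2
          have b1 : d₁ ≠ 0 := by
            rintro rfl
            obtain ⟨⟨v, hv, hv'⟩, _⟩ := hd1
            rw [List.length_eq_zero_iff] at hv
            subst hv
            exact hv' es1
          have b2 : d₂ = 0 := by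
            by_contra hne
            exact es2 (hd2.2 [] (by simp; omega))
          omega

end Pool.Agent.H420_NCF
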