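import Pool.Agent.H420_NCF.Spec

/-!
# Module L21: irreducibility of the phase 2 factors
-/

namespace Pool.Agent.H420_NCF

open Pool.Agent.NPC Pool.Agent.NPC.H532 Pool.Agent.H687R2.LLL
open scoped Matrix

namespace L21

variable {k : Type} [Field k]

theorem isLow_zero {p : NC k} (h : eps p ≠ 0) : IsLow p 0 :=
  ⟨⟨[], rfl, h⟩, fun w hw => absurd hw (by omega)⟩

theorem eps_ne_zero {p : NC k} (h : IsLow p 0) : eps p ≠ 0 := by
  obtain ⟨⟨w, hw, hw'⟩, _⟩ := h
  rw [List.length_eq_zero_iff] at hw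
  subst hw
  exact hw'

theorem unit_of_mul_eq_one {a t : NC k} (h : a * t = 1) : IsUnit a ∧ IsUnit t := by
  have ha : a ≠ 0 := by rintro rfl; rw [zero_mul] at h; exact zero_ne_one h
  have ht : t ≠ 0 := by rintro rfl; rw [mul_zero] at h; exact zero_ne_one h
  obtain ⟨d, hd⟩ := exists_isDeg ha
  obtain ⟨e, he⟩ := exists_isDeg ht
  have h1 := hd.mul he
  rw [h] at h1
  have h2 := h1.unique isDeg_one
  have h3 : d = 0 := by omega
  have h4 : e = 0 := by omega
  subst h3 h4
  exact ⟨isUnit_iff.2 hd, isUnit_iff.2 he⟩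

theorem low_of_isUnit {p : NC k} (h : IsUnit p) : IsLow p 0 := by
  have h1 := isUnit_iff.1 h
  obtain ⟨⟨w, hw, hw'⟩, _⟩ := h1
  rw [List.length_eq_zero_iff] at hw
  subst hw
  exact isLow_zero hw'

end L21

theorem l21 (k : Type) [Field k] : L21S k := by
  intro f P p h c d e e' hf hfP hP hPp hee hgood hmin hp hc hmax
  have hlc := L21.isLow_zero hc
  have hPp0 : P * p ≠ 0 := hPp.ne_zero
  have hd0 : d ≠ 0 := by
    rintro rfl
    rw [hp, mul_zero, mul_zero] at hPp0
    exact hPp0 rfl
  have hh0 : h ≠ 0 := by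
    rintro rfl
    rw [mul_zero] at hfP
    exact hf hfP
  have hc0 : c ≠ 0 := hlc.ne_zero
  obtain ⟨n, hn⟩ := exists_isLow hd0
  have hn' : e + n = e' := by
    have h1 := hP.mul (hlc.mul hn)
    rw [← hp] at h1
    have := h1.unique hPp
    omega
  refine ⟨fun hu => ?_, fun a b hab => ?_⟩
  · have := hn.unique (L21.low_of_isUnit hu)
    omega
  · have ha0 : a ≠ 0 := by rintro rfl; rw [zero_mul] at hab; exact hd0 hab
    have hb0 : b ≠ 0 := by rintro rfl; rw [mul_zero] at hab; exact hd0 hab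
    obtain ⟨i, hi⟩ := exists_isLow ha0
    obtain ⟨j, hj⟩ := exists_isLow hb0
    have hij : i + j = n := by
      have h1 := hi.mul hj
      rw [← hab] at h1
      exact h1.unique hn
    have hPca : IsLow (P * c * a) (e + i) := by
      have h1 := (hP.mul hlc).mul hi
      rwa [add_zero] at h1
    have hfac : f = (P * c * a) * (b * h) := by
      rw [hfP, hp, hab]
      simp only [mul_assoc]
    by_cases hi0 : i = 0
    · left
      subst hi0
      obtain ⟨t, ht⟩ := hmax (c * a) b (by rw [hp, hab, mul_assoc]) (by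
        rw [eps_mul]
        exact mul_ne_zero hc (L21.eps_ne_zero hi))
      have h1 : c * (a * t) = c * 1 := by rw [mul_one, ← mul_assoc]; exact ht.symm
      exact (L21.unit_of_mul_eq_one (mul_left_cancel₀ hc0 h1)).1
    · by_cases hj0 : j = 0
      · right
        subst hj0
        obtain ⟨t, ht⟩ := hmin (P * c * a) (b * h) hfac ⟨e + i, by omega, hPca⟩
        have h1 : (t * b) * h = 1 * h := by rw [one_mul, mul_assoc]; exact ht.symm
        exact (L21.unit_of_mul_eq_one (mul_right_cancel₀ hh0 h1)).2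
      · exact absurd ⟨P * c * a, b * h, hfac, hPca⟩ (hgood (e + i) (by omega) (by omega))

end Pool.Agent.H420_NCF
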