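import Pool.Agent.H420_NCF.Spec

/-!
# Factors of polynomials with constant term: Lemmas 3.1 and 3.2 (module L31)
-/

namespace Pool.Agent.H420_NCF

open Pool.Agent.NPC Pool.Agent.NPC.H532 Pool.Agent.H687R2.LLL
open scoped Matrix

namespace L31

variable {k : Type*} [Field k]

theorem lq_mem_Rlt {b : ℕ} {p : NC k} (x : ℕ) (hp : p ∈ Rlt k (b + 1)) : lq x p ∈ Rlt k b := by
  intro w hw
  rw [cf_lq]
  exact hp _ (by simpa using hw)

theorem Rlt_mono {b c : ℕ} (h : b ≤ c) : Rlt k b ≤ Rlt k c := fun _ hp w hw => hp w (h.trans hw)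

/-- Lemma 3.1 (i). -/
theorem diff_mem {f g h : NC k} {d : ℕ} (hf : f = g * h) (hd : IsDeg h d) (u : List ℕ) :
    lqw u f - lqw u g * h ∈ Rlt k d := by
  induction u using List.reverseRecOn with
  | nil => rw [lqw_nil, lqw_nil, hf, sub_self]; exact Submodule.zero_mem _
  | append_singleton u x ih =>
    have h1 : lqw u f = lqw u g * h + (lqw u f - lqw u g * h) := by abel
    have h2 : lqw (u ++ [x]) f - lqw (u ++ [x]) g * h =
        eps (lqw u g) • lq x h + lq x (lqw u f - lqw u g * h) := by
      rw [lqw_snoc, lqw_snoc]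
      conv_lhs => rw [h1]
      rw [map_add, lq_mul]
      abel
    rw [h2]
    exact Submodule.add_mem _ (Submodule.smul_mem _ _ (lq_mem_Rlt x hd.mem_Rlt))
      (lq_mem_Rlt x (Rlt_mono (Nat.le_succ d) ih))

theorem mul_eq_zero_of_mem {q h : NC k} {d : ℕ} (hd : IsDeg h d) (hm : q * h ∈ Rlt k d) :
    q * h = 0 := by
  by_contra hne
  have hq : q ≠ 0 := by rintro rfl; exact hne (zero_mul h)
  obtain ⟨e, he⟩ := exists_isDeg hq
  obtain ⟨⟨w, hw, hw'⟩, -⟩ := he.mul hd
  exact hw' (hm w (by omega))

theorem Top_apply (f p : NC k) (x : ℕ) :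
    Top f [] [] x p = eps f • lq x p - eps p • lq x f := by
  show lq x (cf ([] ++ []) f • p - cf [] p • lqw [] f) = _
  rw [map_sub, map_smul, map_smul]
  rfl

theorem Top_self (f : NC k) (x : ℕ) : Top f [] [] x f = 0 := by
  rw [Top_apply, sub_self]

theorem Top_mul (f g h r : NC k) (hf : f = g * h) (x : ℕ) :
    Top f [] [] x (r * h) = eps f • (lq x r * h) - (eps r * eps h) • (lq x g * h) := by
  rw [Top_apply, eps_mul, lq_mul]
  conv_lhs => rw [show lq x f = lq x g * h + eps g • lq x h by rw [hf, lq_mul]]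
  rw [hf, eps_mul, smul_add, smul_add, smul_smul, smul_smul]
  rw [show eps r * eps h * eps g = eps g * eps h * eps r by ring]
  abel

/-- Lemma 3.1 (ii), first part. -/
theorem stab_mem {f g h : NC k} (h0 : eps f ≠ 0) (hf : f = g * h) {W : Submodule k (NC k)}
    (hW : Stab f [] [] W) (hh : h ∈ W ⊔ Submodule.span k {f}) (u : List ℕ) (hu : u ≠ []) :
    lqw u g * h ∈ W := by
  have hgh : eps f = eps g * eps h := by rw [hf, eps_mul]
  have he : eps h ≠ 0 := by rintro h1; exact h0 (by rw [hgh, h1, mul_zero])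
  -- the letters
  have hx : ∀ x, lq x g * h ∈ W := by
    intro x
    have h1 : Top f [] [] x h ∈ W := by
      obtain ⟨w, hw, z, hz, e⟩ := Submodule.mem_sup.1 hh
      obtain ⟨c, rfl⟩ := Submodule.mem_span_singleton.1 hz
      rw [← e, map_add, map_smul, Top_self, smul_zero, add_zero]
      exact hW x w hw
    have h2 : Top f [] [] x h = (- eps h) • (lq x g * h) := by
      have := Top_mul f g h 1 hf x
      rw [one_mul, lq_one, zero_mul, smul_zero, eps_one, one_mul, zero_sub] at this
      rw [this, neg_smul]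
    rw [h2] at h1
    exact (Submodule.smul_mem_iff _ (neg_ne_zero.2 he)).1 h1
  induction u using List.reverseRecOn with
  | nil => exact absurd rfl hu
  | append_singleton u x ih =>
    by_cases hu' : u = []
    · subst hu'
      exact hx x
    · have h1 := hW x _ (ih hu')
      rw [Top_mul f g h _ hf] at h1
      have h2 : eps f • (lq x (lqw u g) * h) ∈ W := by
        have := W.add_mem h1 (W.smul_mem (eps (lqw u g) * eps h) (hx x))
        rwa [sub_add_cancel] at this
      rw [lqw_snoc]
      exact (Submodule.smul_mem_iff _ h0).1 h2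

theorem exists_approx {f g h : NC k} {d : ℕ} (h0 : eps f ≠ 0) (hf : f = g * h) (hd : IsDeg h d)
    {W : Submodule k (NC k)}
    (hW : Stab f [] [] W) (hh : h ∈ W ⊔ Submodule.span k {f}) (p : NC k) (hp : p ∈ Qsp f) :
    ∃ q, q * h ∈ W ∧ p - q * h ∈ Rlt k d := by
  unfold Qsp at hp
  induction hp using Submodule.span_induction with
  | mem p hp =>
    obtain ⟨u, hu, rfl⟩ := hp
    exact ⟨lqw u g, stab_mem h0 hf hW hh u hu, diff_mem hf hd u⟩
  | zero => exact ⟨0, by rw [zero_mul]; exact W.zero_mem, by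
      rw [zero_mul, sub_zero]; exact Submodule.zero_mem _⟩
  | add p p' _ _ hp hp' =>
    obtain ⟨q, hq, hq'⟩ := hp
    obtain ⟨r, hr, hr'⟩ := hp'
    refine ⟨q + r, by rw [add_mul]; exact W.add_mem hq hr, ?_⟩
    have := Submodule.add_mem _ hq' hr'
    rwa [show p - q * h + (p' - r * h) = p + p' - (q + r) * h by rw [add_mul]; abel] at this
  | smul c p _ hp =>
    obtain ⟨q, hq, hq'⟩ := hp
    refine ⟨c • q, by rw [smul_mul_assoc]; exact W.smul_mem c hq, ?_⟩
    have := Submodule.smul_mem _ c hq'
    rwa [smul_sub, ← smul_mul_assoc] at this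

/-- Lemma 3.1 (ii), second part. -/
theorem mem_of_dvd {f g h : NC k} (h0 : eps f ≠ 0) (hf : f = g * h)
    {W : Submodule k (NC k)}
    (hW : Stab f [] [] W) (hh : h ∈ W ⊔ Submodule.span k {f}) (p : NC k) (hp : p ∈ Qsp f)
    (hq : ∃ q, p = q * h) : p ∈ W := by
  have hne : h ≠ 0 := by
    rintro rfl
    rw [mul_zero] at hf
    rw [hf, map_zero] at h0
    exact h0 rfl
  obtain ⟨d, hd⟩ := exists_isDeg hne
  obtain ⟨q, hq1, hq2⟩ := exists_approx h0 hf hd hW hh p hp
  obtain ⟨r, rfl⟩ := hq
  rw [← sub_mul] at hq2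
  have := mul_eq_zero_of_mem hd hq2
  rw [sub_mul, sub_eq_zero] at this
  rwa [this]

theorem expand {f g h : NC k} (hf : f = g * h) {a : List ℕ} (ha : IsDeg g a.length) (v : List ℕ) :
    lqw (a ++ v) f = ∑ i ∈ Finset.range (a.length + 1),
      cf (a.take i) g • lqw (a.drop i ++ v) h := by
  ext y
  rw [cf_lqw, hf, cf_mul, map_sum]
  have hlen : (a ++ v ++ y).length + 1 = (a.length + 1) + (v.length + y.length) := by
    simp; omega
  rw [hlen, Finset.sum_range_add]
  have hz : ∑ i ∈ Finset.range (v.length + y.length),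
      cf ((a ++ v ++ y).take (a.length + 1 + i)) g * cf ((a ++ v ++ y).drop (a.length + 1 + i)) h
        = 0 := by
    refine Finset.sum_eq_zero fun i hi => ?_
    rw [Finset.mem_range] at hi
    rw [ha.2 _ (by simp; omega), zero_mul]
  rw [hz, add_zero]
  refine Finset.sum_congr rfl fun i hi => ?_
  rw [Finset.mem_range] at hi
  have h1 : (a ++ v ++ y).take i = a.take i := by
    rw [List.append_assoc, List.take_append_of_le_length (by omega)]
  have h2 : (a ++ v ++ y).drop i = a.drop i ++ v ++ y := by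
    rw [List.append_assoc, List.drop_append_of_le_length (by omega), List.append_assoc]
  rw [h1, h2, map_smul, cf_lqw, smul_eq_mul]

theorem lqw_mem {f g h : NC k} (hf : f = g * h) {a : List ℕ} (ha : IsDeg g a.length)
    (hag : cf a g ≠ 0) {d : ℕ} (hd : IsDeg h d) (n : ℕ) :
    ∀ v : List ℕ, v ≠ [] → d < v.length + n → lqw v h ∈ Qsp f := by
  induction n with
  | zero =>
    intro v _ hv
    have : lqw v h = 0 := by
      ext y
      rw [cf_lqw, map_zero]
      exact hd.2 _ (by simp; omega)
    rw [this]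
    exact Submodule.zero_mem _
  | succ n ih =>
    intro v hv hvn
    have h1 := expand hf ha v
    rw [Finset.sum_range_succ, List.take_length, List.drop_length, List.nil_append] at h1
    have h2 : cf a g • lqw v h ∈ Qsp f := by
      have h3 : cf a g • lqw v h = lqw (a ++ v) f -
          ∑ i ∈ Finset.range a.length, cf (a.take i) g • lqw (a.drop i ++ v) h := by
        rw [h1]; abel
      rw [h3]
      refine Submodule.sub_mem _ (Submodule.subset_span ⟨a ++ v, by simp [hv], rfl⟩)
        (Submodule.sum_mem _ fun i hi => Submodule.smul_mem _ _ (ih _ (by simp [hv]) ?_))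
      rw [Finset.mem_range] at hi
      simp
      omega
    exact (Submodule.smul_mem_iff _ hag).1 h2

theorem h_mem {f g h : NC k} (hf : f = g * h) {a : List ℕ} (ha : IsDeg g a.length)
    (hag : cf a g ≠ 0) (hv : ∀ v : List ℕ, v ≠ [] → lqw v h ∈ Qsp f) :
    h ∈ Qsp f ⊔ Submodule.span k {f} := by
  have h1 := expand hf ha []
  rw [Finset.sum_range_succ, List.take_length, List.drop_length, List.nil_append, lqw_nil] at h1
  have h2 : cf a g • h ∈ Qsp f ⊔ Submodule.span k {f} := by
    have h3 : cf a g • h = lqw (a ++ []) f -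
        ∑ i ∈ Finset.range a.length, cf (a.take i) g • lqw (a.drop i ++ []) h := by
      rw [h1]; abel
    rw [h3]
    refine Submodule.sub_mem _ ?_ (Submodule.sum_mem _ fun i hi =>
      Submodule.mem_sup_left (Submodule.smul_mem _ _ (hv _ ?_)))
    · by_cases h4 : a = []
      · subst h4
        exact Submodule.mem_sup_right (Submodule.mem_span_singleton_self f)
      · exact Submodule.mem_sup_left (Submodule.subset_span ⟨a ++ [], by simp [h4], rfl⟩)
    · rw [Finset.mem_range] at hi
      intro h5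
      have := congrArg List.length h5
      simp at this
      omega
  exact (Submodule.smul_mem_iff _ hag).1 h2

end L31

open L31 in
theorem l31 (k : Type) [Field k] (h : L11S k) : L31S k ∧ L32S k := by
  constructor
  · intro f g h h0 hf
    have hgh : eps f = eps g * eps h := by rw [hf, eps_mul]
    have hgne : g ≠ 0 := by
      rintro rfl
      rw [hgh, map_zero, zero_mul] at h0
      exact h0 rfl
    have hhne : h ≠ 0 := by
      rintro rfl
      rw [hgh, map_zero, mul_zero] at h0
      exact h0 rfl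
    obtain ⟨d, hd⟩ := exists_isDeg hhne
    obtain ⟨e, he⟩ := exists_isDeg hgne
    obtain ⟨a, ha, hag⟩ := he.1
    have ha' : IsDeg g a.length := by rw [ha]; exact he
    have h3 : ∀ v : List ℕ, v ≠ [] → lqw v h ∈ Qsp f := fun v hv =>
      lqw_mem hf ha' hag hd (d + 1) v hv (by omega)
    exact ⟨fun W hW hh => ⟨stab_mem h0 hf hW hh, mem_of_dvd h0 hf hW hh⟩, h3,
      h_mem hf ha' hag h3⟩
  · intro f p M b h0 hM hS hmin hb
    have hlow : IsLow f ([] ++ [] : List ℕ).length :=
      ⟨⟨[], rfl, h0⟩, fun w hw => absurd hw (Nat.not_lt_zero _)⟩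
    obtain ⟨hdvd, -⟩ := h f [] [] M p hlow h0 hS (Or.inl ⟨rfl, rfl⟩) hmin
    obtain ⟨g, hf⟩ := hdvd f (Submodule.mem_sup_right (Submodule.mem_span_singleton_self f))
    obtain ⟨hmem, d, hd, hd'⟩ := hmin
    have hbd : d = b := hd.unique hb
    subst hbd
    refine ⟨fun q hq hq' => hd' q (Submodule.mem_sup_left hq) hq', ?_, ?_⟩
    · intro q hq
      obtain ⟨r, hr, hr'⟩ := exists_approx h0 hf hd hS hmem q hq
      rw [Submodule.mem_sup]
      refine ⟨r * p, hr, q - r * p, ⟨Submodule.sub_mem _ hq (hM hr), hr'⟩, by abel⟩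
    · intro q
      constructor
      · intro hq
        exact ⟨hM hq, hdvd q (Submodule.mem_sup_left hq)⟩
      · rintro ⟨hq, hq'⟩
        exact mem_of_dvd h0 hf hS hmem q hq hq'

end Pool.Agent.H420_NCF
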