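import Pool.Agent.H420_NCF.Spec

/-!
# the lattice step: Lemma 3.4 (module L34)
-/

namespace Pool.Agent.H420_NCF.L34

open Pool.Agent.H420_NCF

variable {k : Type} [Field k]

theorem mem_QI {f h p : NC k} : p ∈ QI f h ↔ p ∈ Qsp f ∧ ∃ q, p = q * h := by
  unfold QI
  rw [Submodule.mem_inf, Submodule.restrictScalars_mem, mem_LI]

theorem isLow_zero {g : NC k} (hg : eps g ≠ 0) : IsLow g 0 :=
  ⟨⟨[], rfl, hg⟩, fun w hw => absurd hw (by omega)⟩

theorem lq_mem_Qsp (f : NC k) (x : ℕ) {p : NC k} (hp : p ∈ Qsp f) : lq x p ∈ Qsp f := by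
  unfold Qsp at hp
  induction hp using Submodule.span_induction with
  | mem y hy =>
    obtain ⟨u, hu, rfl⟩ := hy
    rw [← lqw_snoc]
    exact Submodule.subset_span ⟨u ++ [x], by simp, rfl⟩
  | zero => rw [map_zero]; exact Submodule.zero_mem _
  | add a b _ _ ha hb => rw [map_add]; exact Submodule.add_mem _ ha hb
  | smul c a _ ha => rw [map_smul]; exact Submodule.smul_mem _ _ ha

theorem lq_self_mem_Qsp (f : NC k) (x : ℕ) : lq x f ∈ Qsp f :=
  Submodule.subset_span ⟨[x], by simp, rfl⟩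

theorem stab_Qsp (f : NC k) : Stab f [] [] (Qsp f) := by
  intro x p hp
  change lq x (cf ([] ++ []) f • p - cf [] p • lqw [] f) ∈ Qsp f
  rw [map_sub, map_smul, map_smul, lqw_nil]
  exact Submodule.sub_mem _ (Submodule.smul_mem _ _ (lq_mem_Qsp f x hp))
    (Submodule.smul_mem _ _ (lq_self_mem_Qsp f x))

theorem stab_QI (h2 : L12S k) {f g h : NC k} (hf : eps f ≠ 0) (hfg : f = g * h) :
    Stab f [] [] (QI f h) := by
  intro x p hp
  rw [mem_QI] at hp ⊢
  refine ⟨stab_Qsp f x p hp.1, ?_⟩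
  have hg : eps g ≠ 0 := by
    intro h0; apply hf; rw [hfg, eps_mul, h0, zero_mul]
  exact ((h2 f g h g h [] [] (isLow_zero hf) hf hfg hfg (isLow_zero hg)
    ⟨0, le_refl _, isLow_zero hg⟩).2 p hp.2 hp.2 x).1

theorem Qsp_le {f : NC k} {d : ℕ} (hd : IsDeg f d) : Qsp f ≤ Rlt k d := by
  unfold Qsp
  rw [Submodule.span_le]
  rintro _ ⟨u, hu, rfl⟩ w hw
  rw [cf_lqw]
  apply hd.2
  rw [List.length_append]
  have : 0 < u.length := List.length_pos_iff.2 hu
  omega

theorem mem_Qsp_of_proper (h3 : L31S k) {f g h : NC k} (hf : eps f ≠ 0) (hfg : f = g * h)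
    (hg : ¬ IsUnit g) : h ∈ Qsp f := by
  have hf0 : f ≠ 0 := by rintro rfl; exact hf (map_zero _)
  have hg0 : g ≠ 0 := by rintro rfl; exact hf0 (by rw [hfg, zero_mul])
  have hh0 : h ≠ 0 := by rintro rfl; exact hf0 (by rw [hfg, mul_zero])
  obtain ⟨dg, hdg⟩ := exists_isDeg hg0
  obtain ⟨dh, hdh⟩ := exists_isDeg hh0
  have hd : IsDeg f (dg + dh) := by rw [hfg]; exact hdg.mul hdh
  have hdg0 : dg ≠ 0 := by
    rintro rfl; exact hg (isUnit_iff.2 hdg)
  obtain ⟨y, hy, z, hz, hyz⟩ := Submodule.mem_sup.1 (h3 f g h hf hfg).2.2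
  obtain ⟨c, rfl⟩ := Submodule.mem_span_singleton.1 hz
  obtain ⟨⟨w, hw, hw'⟩, -⟩ := hd
  have h4 : cf w y = 0 := Qsp_le (d := dg + dh) (by rw [hfg]; exact hdg.mul hdh) hy w hw.ge
  have h5 : cf w h = 0 := hdh.2 w (by omega)
  have h6 := congrArg (cf w) hyz
  rw [map_add, map_smul, h4, h5, zero_add, smul_eq_mul] at h6
  have hc : c = 0 := (mul_eq_zero.1 h6).resolve_right hw'
  rw [hc, zero_smul, add_zero] at hyz
  rw [← hyz]; exact hy

theorem isUnit_of_mul_eq_one {t a : NC k} (h : t * a = 1) : IsUnit a := by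
  have ht : t ≠ 0 := by rintro rfl; rw [zero_mul] at h; exact zero_ne_one h
  have ha : a ≠ 0 := by rintro rfl; rw [mul_zero] at h; exact zero_ne_one h
  obtain ⟨dt, hdt⟩ := exists_isDeg ht
  obtain ⟨da, hda⟩ := exists_isDeg ha
  have h1 := hdt.mul hda
  rw [h] at h1
  have h2 := h1.unique isDeg_one
  have h3 : da = 0 := by omega
  rw [isUnit_iff, ← h3]; exact hda

end Pool.Agent.H420_NCF.L34

namespace Pool.Agent.H420_NCF

open Pool.Agent.NPC Pool.Agent.NPC.H532 Pool.Agent.H687R2.LLL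
open scoped Matrix

theorem l34 (k : Type) [Field k] (h1 : L11S k) (h2 : L12S k) (h3 : L31S k) : L34S k := by
  intro f h h' W W' hf hW hW' hWW hm hm'
  have hlow : IsLow f (([] : List ℕ) ++ []).length := L34.isLow_zero hf
  have hall := (h1 f [] [] W h hlow hf hW (Or.inl ⟨rfl, rfl⟩) hm).1
  have hall' := (h1 f [] [] W' h' hlow hf hW' (Or.inl ⟨rfl, rfl⟩) hm').1
  have hfm : ∀ V : Submodule k (NC k), f ∈ V ⊔ Submodule.span k {f} := fun V =>
    Submodule.mem_sup_right (Submodule.mem_span_singleton_self f)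
  obtain ⟨g, hg⟩ := hall f (hfm W)
  obtain ⟨g', hg'⟩ := hall' f (hfm W')
  obtain ⟨p, hp⟩ := hall h' (sup_le_sup_right hWW _ hm'.1)
  have hf0 : f ≠ 0 := by rintro rfl; exact hf (map_zero _)
  have hh0 : h ≠ 0 := by rintro rfl; exact hf0 (by rw [hg, mul_zero])
  have hh0' : h' ≠ 0 := by rintro rfl; exact hf0 (by rw [hg', mul_zero])
  refine ⟨⟨p, hp⟩, ?_, ?_, ?_, ?_, L34.stab_QI h2 hf hg, L34.stab_QI h2 hf hg', ?_⟩
  · intro y hy
    rw [L34.mem_QI] at hy
    exact ((h3 f g h hf hg).1 W hW hm.1).2 y hy.1 hy.2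
  · intro y hy
    rw [L34.mem_QI] at hy
    exact ((h3 f g' h' hf hg').1 W' hW' hm'.1).2 y hy.1 hy.2
  · intro y hy
    rw [L34.mem_QI]
    exact ⟨hy.2, hall y (Submodule.mem_sup_left hy.1)⟩
  · intro y hy
    rw [L34.mem_QI]
    exact ⟨hy.2, hall' y (Submodule.mem_sup_left hy.1)⟩
  · intro a b hab ha hb
    have e1 : f = (g' * a) * (b * h) := by
      rw [hg', hab]; simp only [mul_assoc]
    have e2 : f = (g' * a * b) * h := by
      rw [hg', hab]; simp only [mul_assoc]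
    have hbh : b * h ≠ 0 := by
      intro h0; apply hh0'; rw [hab, mul_assoc, h0, mul_zero]
    have hna : ¬ IsUnit (g' * a) := by
      intro hu
      obtain ⟨u, hu⟩ := hu
      have : (↑u⁻¹ * g') * a = 1 := by
        rw [mul_assoc, ← hu, Units.inv_mul]
      exact ha (L34.isUnit_of_mul_eq_one this)
    have hnb : ¬ IsUnit (g' * a * b) := by
      intro hu
      obtain ⟨u, hu⟩ := hu
      have : (↑u⁻¹ * (g' * a)) * b = 1 := by
        rw [mul_assoc, ← hu, Units.inv_mul]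
      exact hb (L34.isUnit_of_mul_eq_one this)
    have m1 : b * h ∈ Qsp f := L34.mem_Qsp_of_proper h3 hf e1 hna
    have m2 : h ∈ Qsp f := L34.mem_Qsp_of_proper h3 hf e2 hnb
    refine ⟨L34.stab_QI h2 hf e1, ?_, ?_⟩
    · refine lt_of_le_of_ne ?_ ?_
      · intro y hy
        rw [L34.mem_QI] at hy ⊢
        obtain ⟨q, hq⟩ := hy.2
        exact ⟨hy.1, q * a, by rw [hq, hab]; simp only [mul_assoc]⟩
      · intro heq
        have : b * h ∈ QI f h' := by
          rw [heq, L34.mem_QI]; exact ⟨m1, 1, by rw [one_mul]⟩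
        rw [L34.mem_QI] at this
        obtain ⟨t, ht⟩ := this.2
        have h4 : (t * a) * (b * h) = 1 * (b * h) := by
          rw [one_mul]
          conv_rhs => rw [ht, hab]
          simp only [mul_assoc]
        exact ha (L34.isUnit_of_mul_eq_one (mul_right_cancel₀ hbh h4))
    · refine lt_of_le_of_ne ?_ ?_
      · intro y hy
        rw [L34.mem_QI] at hy ⊢
        obtain ⟨q, hq⟩ := hy.2
        exact ⟨hy.1, q * b, by rw [hq]; simp only [mul_assoc]⟩
      · intro heq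
        have : h ∈ QI f (b * h) := by
          rw [heq, L34.mem_QI]; exact ⟨m2, 1, by rw [one_mul]⟩
        rw [L34.mem_QI] at this
        obtain ⟨t, ht⟩ := this.2
        have h4 : (t * b) * h = 1 * h := by
          rw [one_mul, mul_assoc, ← ht]
        exact hb (L34.isUnit_of_mul_eq_one (mul_right_cancel₀ hh0 h4))

end Pool.Agent.H420_NCF
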