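import Pool.Agent.H420_NCF.Spec

/-!
# Module LD1: no repeated semisimple part, over an algebraically closed field

Only two of the stable subspaces `M α β = span (y, α s + β t)` are needed: `M 1 0`, and `M (-γ) 1`
where `γ` is an eigenvalue of the matrix of the `t i` with respect to the `s j`, modulo the `y` and
a complement of `M 1 0`.
-/

namespace Pool.Agent.H420_NCF

open Pool.Agent.NPC Pool.Agent.NPC.H532 Pool.Agent.H687R2.LLL
open scoped Matrix

namespace LD1

variable {K : Type} [Field K]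

/-- Elements of `Qsp f` have degree less than that of `f`. -/
theorem qsp_le {f : NC K} {D : ℕ} (hf : IsDeg f D) : Qsp f ≤ Rlt K D := by
  unfold Qsp
  rw [Submodule.span_le]
  rintro p ⟨u, hu, rfl⟩ w hw
  rw [cf_lqw]
  apply hf.2
  rw [List.length_append]
  have : 0 < u.length := List.length_pos_iff.2 hu
  omega

theorem exists_min (N : Submodule K (NC K)) (hN : N ≠ ⊥) :
    ∃ (h : NC K) (b : ℕ), IsMin N h ∧ IsDeg h b ∧ ∀ p ∈ N, p ∈ Rlt K b → p = 0 := by
  classical
  obtain ⟨p0, hp0, hne⟩ := Submodule.exists_mem_ne_zero_of_ne_bot hN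
  have hex : ∃ d, ∃ p ∈ N, IsDeg p d := by
    obtain ⟨d, hd⟩ := exists_isDeg hne
    exact ⟨d, p0, hp0, hd⟩
  obtain ⟨h, hh, hd⟩ := Nat.find_spec hex
  have key : ∀ p ∈ N, p ∈ Rlt K (Nat.find hex) → p = 0 := by
    intro p hp hlt
    by_contra hpne
    obtain ⟨e, he⟩ := exists_isDeg hpne
    obtain ⟨w, hw, hw'⟩ := he.1
    have : e < Nat.find hex := by
      by_contra hge
      exact hw' (hlt w (by omega))
    exact Nat.find_min hex this ⟨p, hp, he⟩
  exact ⟨h, Nat.find hex, ⟨hh, _, hd, key⟩, hd, key⟩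

/-- The data of a nonzero stable subspace of `Qsp f`. -/
theorem data (h : L32S K) {f : NC K} (hf : eps f ≠ 0) {M : Submodule K (NC K)} (hM : M ≠ ⊥)
    (hMQ : M ≤ Qsp f) (hst : Stab f [] [] M) :
    ∃ (b : ℕ) (g : NC K), g ∈ M ∧ IsDeg g b ∧ (∀ p ∈ M, p ∈ Rlt K b → p = 0) ∧
      Qsp f ≤ M ⊔ (Qsp f ⊓ Rlt K b) := by
  have hf0 : f ≠ 0 := by rintro rfl; exact hf (map_zero _)
  obtain ⟨D, hD⟩ := exists_isDeg hf0
  have hQ := qsp_le hD
  have hN : M ⊔ Submodule.span K {f} ≠ ⊥ := fun e => hM (le_bot_iff.1 (e ▸ le_sup_left))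
  obtain ⟨g, b, hmin, hdeg, hz⟩ := exists_min _ hN
  obtain ⟨h1, h2, -⟩ := h f g M b hf hMQ hst hmin hdeg
  refine ⟨b, g, ?_, hdeg, h1, h2⟩
  obtain ⟨m, hm, hm0⟩ := Submodule.exists_mem_ne_zero_of_ne_bot hM
  have hbD : b < D := by
    by_contra hge
    have : m ∈ Rlt K b := fun w hw => hQ (hMQ hm) w (by omega)
    exact hm0 (hz m (Submodule.mem_sup_left hm) this)
  obtain ⟨p, hp, q, hq, hpq⟩ := Submodule.mem_sup.1 hmin.1
  obtain ⟨c, rfl⟩ := Submodule.mem_span_singleton.1 hq
  obtain ⟨⟨w, hw, hw'⟩, -⟩ := hD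
  have e1 : cf w g = 0 := hdeg.2 w (by omega)
  rw [← hpq, map_add, map_smul, hQ (hMQ hp) w (by omega), zero_add, smul_eq_mul] at e1
  have hc : c = 0 := (mul_eq_zero.1 e1).resolve_right hw'
  rw [← hpq, hc, zero_smul, add_zero]
  exact hp

theorem finrank_le {V : Type*} [AddCommGroup V] [Module K V] {X M U : Submodule K V}
    [FiniteDimensional K M] (h1 : ∀ x ∈ X, x ∈ U → x = 0) (h2 : X ≤ M ⊔ U) :
    Module.finrank K X ≤ Module.finrank K M := by
  have hinj : Function.Injective (U.mkQ ∘ₗ X.subtype) := by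
    rw [← LinearMap.ker_eq_bot, LinearMap.ker_eq_bot']
    intro x hx
    rw [LinearMap.comp_apply, Submodule.mkQ_apply, Submodule.Quotient.mk_eq_zero] at hx
    exact Subtype.ext (h1 x x.2 hx)
  have hle : LinearMap.range (U.mkQ ∘ₗ X.subtype) ≤ M.map U.mkQ := by
    rintro _ ⟨x, rfl⟩
    obtain ⟨m, hm, u, hu, e⟩ := Submodule.mem_sup.1 (h2 x.2)
    refine ⟨m, hm, ?_⟩
    rw [LinearMap.comp_apply, Submodule.subtype_apply, ← e, map_add,
      Submodule.mkQ_apply U u, (Submodule.Quotient.mk_eq_zero U).2 hu, add_zero]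
  calc Module.finrank K X
      = Module.finrank K (LinearMap.range (U.mkQ ∘ₗ X.subtype)) :=
        (LinearMap.finrank_range_of_inj hinj).symm
    _ ≤ Module.finrank K (M.map U.mkQ) := Submodule.finrank_mono hle
    _ ≤ Module.finrank K M := Submodule.finrank_map_le _ _

/-- Complements of different kinds cannot have the same dimension. -/
theorem deg_le {Q M M' : Submodule K (NC K)} [FiniteDimensional K M] [FiniteDimensional K M']
    (hr : Module.finrank K M = Module.finrank K M') (hMQ : M ≤ Q) (hMQ' : M' ≤ Q)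
    {b b' : ℕ} {g : NC K} (hg : g ∈ M) (hdeg : IsDeg g b)
    (hz : ∀ p ∈ M, p ∈ Rlt K b → p = 0) (hc : Q ≤ M ⊔ (Q ⊓ Rlt K b))
    (hz' : ∀ p ∈ M', p ∈ Rlt K b' → p = 0) : b' ≤ b := by
  by_contra hlt
  have hgb' : g ∈ Rlt K b' := fun w hw => hdeg.2 w (by omega)
  have hg' : g ∉ M' := fun hm => hdeg.ne_zero (hz' g hm hgb')
  have hX : ∀ x ∈ M' ⊔ Submodule.span K {g}, x ∈ Q ⊓ Rlt K b → x = 0 := by
    intro x hx hxU
    obtain ⟨m, hm, q, hq, rfl⟩ := Submodule.mem_sup.1 hx
    obtain ⟨a, rfl⟩ := Submodule.mem_span_singleton.1 hq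
    have h1 : m ∈ Rlt K b' := by
      intro w hw
      have h2 := hxU.2 w (by omega)
      rw [map_add, map_smul, hgb' w hw, smul_zero, add_zero] at h2
      exact h2
    have h2 := hz' m hm h1
    subst h2
    rw [zero_add] at hxU ⊢
    exact hz _ (M.smul_mem a hg) hxU.2
  have hle : M' ⊔ Submodule.span K {g} ≤ M ⊔ (Q ⊓ Rlt K b) :=
    le_trans (sup_le hMQ' ((Submodule.span_singleton_le_iff_mem g Q).2 (hMQ hg))) hc
  have h3 := finrank_le hX hle
  have h4 : M' < M' ⊔ Submodule.span K {g} := by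
    refine lt_of_le_of_ne le_sup_left fun e => hg' ?_
    rw [e]
    exact Submodule.mem_sup_right (Submodule.mem_span_singleton_self g)
  have h5 := Submodule.finrank_lt_finrank_of_lt h4
  omega

/-- The vectors `α s i + β t i`. -/
noncomputable def cmb {d : ℕ} (s t : Fin d → NC K) (α β : K) : Fin d → NC K :=
  fun i => α • s i + β • t i

/-- The subspaces used. -/
noncomputable def Mab {c d : ℕ} (y : Fin c → NC K) (s t : Fin d → NC K) (α β : K) :
    Submodule K (NC K) :=
  Submodule.span K (Set.range (Sum.elim y (cmb s t α β)))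

theorem cmb_indep {c d : ℕ} {y : Fin c → NC K} {s t : Fin d → NC K} {α β : K}
    (hi : LinearIndependent K (Sum.elim y (Sum.elim s t))) (hab : α ≠ 0 ∨ β ≠ 0) :
    LinearIndependent K (Sum.elim y (cmb s t α β)) := by
  rw [Fintype.linearIndependent_iff] at hi ⊢
  intro a ha
  have h1 := hi (Sum.elim (fun i => a (Sum.inl i))
    (Sum.elim (fun i => a (Sum.inr i) * α) (fun i => a (Sum.inr i) * β))) (by
      rw [Fintype.sum_sum_type, Fintype.sum_sum_type]
      rw [Fintype.sum_sum_type] at ha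
      simp only [Sum.elim_inl, Sum.elim_inr, cmb] at ha ⊢
      rw [← ha, ← Finset.sum_add_distrib]
      congr 1
      refine Finset.sum_congr rfl fun i _ => ?_
      rw [smul_add, smul_smul, smul_smul])
  rintro (i | i)
  · exact h1 (Sum.inl i)
  · rcases hab with h | h
    · have h2 := h1 (Sum.inr (Sum.inl i))
      simp only [Sum.elim_inl, Sum.elim_inr] at h2
      exact (mul_eq_zero.1 h2).resolve_right h
    · have h2 := h1 (Sum.inr (Sum.inr i))
      simp only [Sum.elim_inr] at h2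
      exact (mul_eq_zero.1 h2).resolve_right h

theorem stab {f : NC K} {c d : ℕ} {y : Fin c → NC K} {s t : Fin d → NC K} {α β : K}
    {B : ℕ → Fin d → Fin d → K}
    (hy : ∀ x i, Top f [] [] x (y i) ∈ Submodule.span K (Set.range y))
    (hs : ∀ x i, Top f [] [] x (s i) - ∑ j, B x i j • s j ∈ Submodule.span K (Set.range y))
    (ht : ∀ x i, Top f [] [] x (t i) - ∑ j, B x i j • t j ∈ Submodule.span K (Set.range y)) :
    Stab f [] [] (Mab y s t α β) := by
  have hyM : Submodule.span K (Set.range y) ≤ Mab y s t α β := by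
    refine Submodule.span_mono ?_
    rintro _ ⟨i, rfl⟩
    exact ⟨Sum.inl i, rfl⟩
  have hcM : ∀ i, cmb s t α β i ∈ Mab y s t α β := fun i => Submodule.subset_span ⟨Sum.inr i, rfl⟩
  intro x
  have key : Mab y s t α β ≤ (Mab y s t α β).comap (Top f [] [] x) := by
    conv_lhs => unfold Mab
    rw [Submodule.span_le]
    rintro _ ⟨i | i, rfl⟩
    · exact hyM (hy x i)
    · change Top f [] [] x (cmb s t α β i) ∈ Mab y s t α β
      have e : Top f [] [] x (cmb s t α β i) =
          (α • (Top f [] [] x (s i) - ∑ j, B x i j • s j) +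
            β • (Top f [] [] x (t i) - ∑ j, B x i j • t j)) + ∑ j, B x i j • cmb s t α β j := by
        have e1 : ∑ j, B x i j • cmb s t α β j =
            α • ∑ j, B x i j • s j + β • ∑ j, B x i j • t j := by
          rw [Finset.smul_sum, Finset.smul_sum, ← Finset.sum_add_distrib]
          refine Finset.sum_congr rfl fun j _ => ?_
          rw [cmb, smul_add, smul_comm (B x i j) α, smul_comm (B x i j) β]
        rw [e1, cmb, map_add, map_smul, map_smul, smul_sub, smul_sub]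
        abel
      rw [e]
      exact Submodule.add_mem _ (hyM (Submodule.add_mem _ (Submodule.smul_mem _ _ (hs x i))
        (Submodule.smul_mem _ _ (ht x i))))
        (Submodule.sum_mem _ fun j _ => Submodule.smul_mem _ _ (hcM j))
  exact fun p hp => key hp

theorem Mab_le {Q : Submodule K (NC K)} {c d : ℕ} {y : Fin c → NC K} {s t : Fin d → NC K}
    {α β : K} (hy : ∀ i, y i ∈ Q) (hs : ∀ i, s i ∈ Q) (ht : ∀ i, t i ∈ Q) :
    Mab y s t α β ≤ Q := by
  unfold Mab
  rw [Submodule.span_le]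
  rintro _ ⟨i | i, rfl⟩
  · exact hy i
  · exact Q.add_mem (Q.smul_mem α (hs i)) (Q.smul_mem β (ht i))

instance {c d : ℕ} {y : Fin c → NC K} {s t : Fin d → NC K} {α β : K} :
    FiniteDimensional K (Mab y s t α β) :=
  FiniteDimensional.span_of_finite K (Set.finite_range _)

theorem finrank_Mab {c d : ℕ} {y : Fin c → NC K} {s t : Fin d → NC K} {α β : K}
    (hi : LinearIndependent K (Sum.elim y (Sum.elim s t))) (hab : α ≠ 0 ∨ β ≠ 0) :
    Module.finrank K (Mab y s t α β) = c + d := by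
  unfold Mab
  rw [finrank_span_eq_card (cmb_indep hi hab)]
  simp

theorem exists_eigen [IsAlgClosed K] {d : ℕ} (hd : 0 < d) (C : Fin d → Fin d → K) :
    ∃ (γ : K) (a : Fin d → K), a ≠ 0 ∧ ∀ j, ∑ i, a i * C i j = γ * a j := by
  have : Nonempty (Fin d) := ⟨⟨0, hd⟩⟩
  obtain ⟨γ, hγ⟩ := Module.End.exists_eigenvalue (Matrix.vecMulLinear (Matrix.of C))
  obtain ⟨a, ha⟩ := hγ.exists_hasEigenvector
  refine ⟨γ, a, ha.2, fun j => ?_⟩
  have := congrFun ha.apply_eq_smul j
  simpa [Matrix.vecMul, dotProduct] using this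

end LD1

open LD1 in
theorem ld1 (K : Type) [Field K] [IsAlgClosed K] (h : L32S K) : LDS K := by
  intro f hf c d hd y s t B hy hs ht hi hTy hTs hTt
  have hfin : ∀ α β : K, (α ≠ 0 ∨ β ≠ 0) → Mab y s t α β ≠ ⊥ := by
    intro α β hab e
    have h1 := finrank_Mab hi hab
    rw [e, finrank_bot] at h1
    omega
  have hle : ∀ α β : K, Mab y s t α β ≤ Qsp f := fun α β => Mab_le hy hs ht
  have h10 : (1 : K) ≠ 0 ∨ (0 : K) ≠ 0 := Or.inl one_ne_zero
  obtain ⟨b, g, hg, hdeg, hz, hc⟩ := data h hf (hfin 1 0 h10) (hle 1 0) (stab hTy hTs hTt)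
  -- the matrix of the `t i`
  have hdec : ∀ i, ∃ (E : Fin c → K) (C : Fin d → K),
      t i - ∑ j, E j • y j - ∑ j, C j • s j ∈ Qsp f ⊓ Rlt K b := by
    intro i
    obtain ⟨m, hm, u, hu, e⟩ := Submodule.mem_sup.1 (hc (ht i))
    unfold Mab at hm
    rw [Submodule.mem_span_range_iff_exists_fun] at hm
    obtain ⟨q, hq⟩ := hm
    refine ⟨fun j => q (Sum.inl j), fun j => q (Sum.inr j), ?_⟩
    rw [Fintype.sum_sum_type] at hq
    simp only [Sum.elim_inl, Sum.elim_inr, cmb, one_smul, zero_smul, add_zero] at hq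
    rw [sub_sub, hq, ← e, add_sub_cancel_left]
    exact hu
  choose E C hEC using hdec
  obtain ⟨γ, a, ha, hγ⟩ := exists_eigen hd C
  have hab : -γ ≠ 0 ∨ (1 : K) ≠ 0 := Or.inr one_ne_zero
  obtain ⟨b', g', hg', hdeg', hz', hc'⟩ := data h hf (hfin (-γ) 1 hab) (hle (-γ) 1)
    (stab hTy hTs hTt)
  have hbb : b ≤ b' := deg_le (by rw [finrank_Mab hi h10, finrank_Mab hi hab]) (hle (-γ) 1)
    (hle 1 0) hg' hdeg' hz' hc' hz
  -- the element in the intersection
  have hzU : ∑ i, a i • (t i - ∑ j, E i j • y j - ∑ j, C i j • s j) ∈ Qsp f ⊓ Rlt K b :=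
    Submodule.sum_mem _ fun i _ => Submodule.smul_mem _ _ (hEC i)
  have e1 : ∑ i, a i • ∑ j, C i j • s j = γ • ∑ j, a j • s j := by
    simp only [Finset.smul_sum, smul_smul]
    rw [Finset.sum_comm]
    refine Finset.sum_congr rfl fun j _ => ?_
    rw [← Finset.sum_smul, hγ j]
  have e2 : ∑ i, a i • ∑ j, E i j • y j = ∑ j, (∑ i, a i * E i j) • y j := by
    simp only [Finset.smul_sum, smul_smul]
    rw [Finset.sum_comm]
    refine Finset.sum_congr rfl fun j _ => ?_
    rw [← Finset.sum_smul]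
  have e3 : ∑ i, a i • (t i - ∑ j, E i j • y j - ∑ j, C i j • s j) =
      ∑ k : Fin c ⊕ Fin d, (Sum.elim (fun j => -∑ i, a i * E i j) a) k •
        Sum.elim y (cmb s t (-γ) 1) k := by
    rw [Fintype.sum_sum_type]
    simp only [Sum.elim_inl, Sum.elim_inr, cmb, smul_sub, Finset.sum_sub_distrib, e1, e2,
      neg_smul, Finset.sum_neg_distrib, one_smul, smul_add, smul_neg, Finset.sum_add_distrib]
    rw [Finset.smul_sum]
    simp only [smul_comm γ]
    abel
  rw [e3] at hzU
  have h0 := hz' _ (by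
    unfold Mab
    rw [Submodule.mem_span_range_iff_exists_fun]
    exact ⟨_, rfl⟩) (show _ ∈ Rlt K b' from fun w hw => hzU.2 w (by omega))
  have h1 := Fintype.linearIndependent_iff.1 (cmb_indep hi hab) _ h0
  apply ha
  funext i
  exact h1 (Sum.inr i)

end Pool.Agent.H420_NCF

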