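import Pool.Agent.H420_NCF.Spec

/-!
# Descent of Lemma 3.3 from the algebraic closure
-/

namespace Pool.Agent.H420_NCF

open Pool.Agent.NPC Pool.Agent.NPC.H532 Pool.Agent.H687R2.LLL
open scoped Matrix

namespace LD2

variable {k K : Type} [Field k] [Field K] [Algebra k K]

/-- extension of coefficients -/
noncomputable def io : NC k →+ NC K where
  toFun p := MonoidAlgebra.ofCoeff (p.coeff.mapRange (algebraMap k K) (map_zero _))
  map_zero' := by
    apply MonoidAlgebra.ext; ext w; simp
  map_add' p q := by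
    apply MonoidAlgebra.ext; ext w; simp

theorem cf_io (w : List ℕ) (p : NC k) : cf w (io p : NC K) = algebraMap k K (cf w p) := rfl

theorem io_smul (c : k) (p : NC k) : (io (c • p) : NC K) = algebraMap k K c • io p :=
  NC.ext fun w => by
    rw [cf_io, (cf w).map_smul, (cf w).map_smul, cf_io, smul_eq_mul, smul_eq_mul, map_mul]

theorem io_lqw (u : List ℕ) (p : NC k) : (io (lqw u p) : NC K) = lqw u (io p) :=
  NC.ext fun w => by rw [cf_io, cf_lqw, cf_lqw, cf_io]

theorem io_Top (f : NC k) (u w : List ℕ) (x : ℕ) (p : NC k) :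
    (io (Top f u w x p) : NC K) = Top (io f) u w x (io p) := by
  refine NC.ext fun v => ?_
  show cf v (io (lq x (cf (u ++ w) f • p - cf w p • lqw u f)) : NC K) =
    cf v (lq x (cf (u ++ w) (io f) • io p - cf w (io p) • lqw u (io f)))
  rw [cf_io, cf_lq, cf_lq, map_sub, (cf _).map_smul, (cf _).map_smul, map_sub,
    map_sub (cf (x :: v)), (cf _).map_smul, (cf _).map_smul, cf_lqw,
    cf_lqw, cf_io, cf_io, cf_io, cf_io, smul_eq_mul, smul_eq_mul, smul_eq_mul, smul_eq_mul,
    map_mul, map_mul]

theorem io_span {S : Set (NC k)} {S' : Set (NC K)} (hS : ∀ p ∈ S, (io p : NC K) ∈ S') {p : NC k}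
    (hp : p ∈ Submodule.span k S) : (io p : NC K) ∈ Submodule.span K S' := by
  induction hp using Submodule.span_induction with
  | mem x hx => exact Submodule.subset_span (hS x hx)
  | zero => rw [map_zero]; exact Submodule.zero_mem _
  | add x y _ _ hx hy => rw [map_add]; exact Submodule.add_mem _ hx hy
  | smul a x _ hx => rw [io_smul]; exact Submodule.smul_mem _ _ hx

theorem io_Qsp {f p : NC k} (hp : p ∈ Qsp f) : (io p : NC K) ∈ Qsp (io f : NC K) := by
  refine io_span ?_ hp
  rintro p ⟨u, hu, rfl⟩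
  exact ⟨u, hu, io_lqw u f⟩

theorem io_li {ι : Type} [Fintype ι] {v : ι → NC k} (h : LinearIndependent k v) :
    LinearIndependent K (fun i => (io (v i) : NC K)) := by
  rw [Fintype.linearIndependent_iff] at h ⊢
  intro c hc i
  rw [← Module.forall_dual_apply_eq_zero_iff k (c i)]
  intro l
  refine h (fun j => l (c j)) (NC.ext fun w => ?_) i
  have h1 : ∑ j, c j * algebraMap k K (cf w (v j)) = 0 := by
    have h2 := congrArg (cf w) hc
    rw [map_sum, map_zero] at h2
    rw [← h2]
    refine Finset.sum_congr rfl fun j _ => ?_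
    rw [map_smul, cf_io, smul_eq_mul]
  have h3 := congrArg l h1
  rw [map_sum, map_zero] at h3
  rw [map_sum, map_zero, ← h3]
  refine Finset.sum_congr rfl fun j _ => ?_
  rw [map_smul, mul_comm (c j), ← Algebra.smul_def, map_smul, smul_eq_mul, smul_eq_mul, mul_comm]

end LD2

open LD2 in
theorem ld2 (k : Type) [Field k] (h : LDS (AlgebraicClosure k)) : LDS k := by
  intro f hf c d hd y s t B hy hs ht hli hTy hTs hTt
  refine h (io f) ?_ c d hd (fun i => io (y i)) (fun i => io (s i)) (fun i => io (t i))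
    (fun x i j => algebraMap k (AlgebraicClosure k) (B x i j)) (fun i => io_Qsp (hy i))
    (fun i => io_Qsp (hs i)) (fun i => io_Qsp (ht i)) ?_ ?_ ?_ ?_
  · rw [eps_def, cf_io, ← eps_def]
    exact (map_ne_zero _).2 hf
  · have h1 := io_li (K := AlgebraicClosure k) hli
    convert h1 using 1
    funext i
    rcases i with i | i | i <;> rfl
  · intro x i
    rw [← io_Top]
    refine io_span ?_ (hTy x i)
    rintro _ ⟨j, rfl⟩
    exact ⟨j, rfl⟩
  · intro x i
    have e : Top (io f) [] [] x (io (s i)) -
        ∑ j, algebraMap k (AlgebraicClosure k) (B x i j) • (io (s j) : NC (AlgebraicClosure k)) =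
        io (Top f [] [] x (s i) - ∑ j, B x i j • s j) := by
      rw [map_sub, io_Top, map_sum]
      simp only [io_smul]
    rw [e]
    refine io_span ?_ (hTs x i)
    rintro _ ⟨j, rfl⟩
    exact ⟨j, rfl⟩
  · intro x i
    have e : Top (io f) [] [] x (io (t i)) -
        ∑ j, algebraMap k (AlgebraicClosure k) (B x i j) • (io (t j) : NC (AlgebraicClosure k)) =
        io (Top f [] [] x (t i) - ∑ j, B x i j • t j) := by
      rw [map_sub, io_Top, map_sum]
      simp only [io_smul]
    rw [e]
    refine io_span ?_ (hTt x i)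
    rintro _ ⟨j, rfl⟩
    exact ⟨j, rfl⟩

end Pool.Agent.H420_NCF
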