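import Pool.Agent.H420_NCF.Defs

/-!
# The words of a factor are factors of words of the product
-/

namespace Pool.Agent.H420_NCF.Letters

open Pool.Agent.H420_NCF

variable {k : Type*} [Field k]

/-- A word of a left factor is a beginning of a word of the product. -/
theorem left {p q : NC k} (hq : q ≠ 0) {a : List ℕ} (ha : cf a p ≠ 0) :
    ∃ b, cf (a ++ b) (p * q) ≠ 0 := by
  obtain ⟨d, ⟨v, hv, hv'⟩, hd⟩ := exists_isDeg hq
  have hfin : ({w | cf w p ≠ 0 ∧ ∃ c, w = a ++ c} : Set (List ℕ)).Finite :=
    (supp_finite p).subset fun w hw => hw.1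
  obtain ⟨a', ⟨ha1, c, hc⟩, ha2⟩ := hfin.exists_maximalFor List.length _ ⟨a, ha, [], by simp⟩
  refine ⟨c ++ v, ?_⟩
  rw [← List.append_assoc, ← hc, cf_mul, Finset.sum_eq_single a'.length]
  · rw [List.take_left, List.drop_left]; exact mul_ne_zero ha1 hv'
  · intro i hi hne
    rcases lt_or_gt_of_ne hne with h | h
    · rw [hd _ (by rw [List.length_drop, List.length_append]; omega), mul_zero]
    · simp only [Finset.mem_range, List.length_append] at hi
      by_contra h0
      have h1 : cf (List.take i (a' ++ v)) p ≠ 0 := fun h2 => h0 (by rw [h2, zero_mul])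
      have h2 : ∃ c', List.take i (a' ++ v) = a ++ c' := by
        refine ⟨c ++ List.take (i - a'.length) v, ?_⟩
        rw [List.take_append, List.take_of_length_le (by omega), hc, List.append_assoc]
      have h3 := ha2 (j := List.take i (a' ++ v)) ⟨h1, h2⟩
        (by rw [List.length_take, List.length_append]; omega)
      rw [List.length_take, List.length_append] at h3
      omega
  · intro h; exact absurd (Finset.mem_range.2 (by rw [List.length_append]; omega)) h

/-- A word of a right factor is an end of a word of the product. -/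
theorem right {p q : NC k} (hp : p ≠ 0) {b : List ℕ} (hb : cf b q ≠ 0) :
    ∃ a, cf (a ++ b) (p * q) ≠ 0 := by
  obtain ⟨d, ⟨v, hv, hv'⟩, hd⟩ := exists_isDeg hp
  have hfin : ({w | cf w q ≠ 0 ∧ ∃ c, w = c ++ b} : Set (List ℕ)).Finite :=
    (supp_finite q).subset fun w hw => hw.1
  obtain ⟨b', ⟨hb1, c, hc⟩, hb2⟩ := hfin.exists_maximalFor List.length _ ⟨b, hb, [], by simp⟩
  refine ⟨v ++ c, ?_⟩
  rw [List.append_assoc, ← hc, cf_mul, Finset.sum_eq_single v.length]
  · rw [List.take_left, List.drop_left]; exact mul_ne_zero hv' hb1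
  · intro i hi hne
    simp only [Finset.mem_range, List.length_append] at hi
    rcases lt_or_gt_of_ne hne with h | h
    · by_contra h0
      have h1 : cf (List.drop i (v ++ b')) q ≠ 0 := fun h2 => h0 (by rw [h2, mul_zero])
      have h2 : ∃ c', List.drop i (v ++ b') = c' ++ b := by
        refine ⟨List.drop i v ++ c, ?_⟩
        rw [List.drop_append, show i - v.length = 0 by omega, List.drop_zero, List.append_assoc, hc]
      have h3 := hb2 (j := List.drop i (v ++ b')) ⟨h1, h2⟩
        (by rw [List.length_drop, List.length_append]; omega)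
      rw [List.length_drop, List.length_append] at h3
      omega
    · rw [hd _ (by rw [List.length_take, List.length_append]; omega), zero_mul]
  · intro h; exact absurd (Finset.mem_range.2 (by rw [List.length_append]; omega)) h

/-- A word of a factor is a factor of a word of the product. -/
theorem prod {L : List (NC k)} (hL : L.prod ≠ 0) {g : NC k} (hg : g ∈ L) {w : List ℕ}
    (hw : cf w g ≠ 0) : ∃ a b, cf (a ++ w ++ b) L.prod ≠ 0 := by
  induction L with
  | nil => simp at hg
  | cons h L ih =>
    rw [List.prod_cons] at hL ⊢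
    have hh : h ≠ 0 := fun h0 => hL (by rw [h0, zero_mul])
    have hL' : L.prod ≠ 0 := fun h0 => hL (by rw [h0, mul_zero])
    rcases List.mem_cons.1 hg with rfl | hg
    · obtain ⟨b, hb⟩ := left hL' hw
      exact ⟨[], b, by simpa using hb⟩
    · obtain ⟨a, b, hab⟩ := ih hL' hg
      obtain ⟨c, hc⟩ := right hh hab
      exact ⟨c ++ a, b, by simpa [List.append_assoc] using hc⟩

end Pool.Agent.H420_NCF.Letters
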