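import Pool.Agent.H420_NCF.Spec

/-!
# arithmetic of the order modulo q (module MQ)
-/

namespace Pool.Agent.H420_NCF.MQ

open Pool.Agent.NPC Pool.Agent.NPC.H532 Pool.Agent.H687R2.LLL Pool.Agent.H420_NCF

variable {α : Type} [TEnc α]

theorem Poly_emod {f : α → ℤ} {n : α → ℕ} (hf : Poly f) (hn : Poly n) :
    Poly (fun a => f a % (n a : ℤ)) :=
  (NPC.Poly.isub hf (NPC.Poly.imul (NPC.Poly.natCast hn) (NPC.Poly.idiv hf hn))).congr fun a => by
    have := Int.emod_add_mul_ediv (f a) (n a : ℤ)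
    linarith

theorem Poly_ent {l : α → List ℤ} {i : α → ℕ} (hl : Poly l) (hi : Poly i) :
    Poly (fun a => ent (l a) (i a)) := NPC.Poly.getD hl hi (NPC.Poly.const 0)

theorem Poly_gm {G : α → List (List (List ℤ))} {i j l : α → ℕ} (hG : Poly G) (hi : Poly i)
    (hj : Poly j) (hl : Poly l) : Poly (fun a => gm (G a) (i a) (j a) (l a)) :=
  Poly_entry (NPC.Poly.getD hG hi (NPC.Poly.const [])) hj hl

theorem Poly_mulq {G : α → List (List (List ℤ))} {q : α → ℕ} {u v : α → List ℤ} (hG : Poly G)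
    (hq : Poly q) (hu : Poly u) (hv : Poly v) : Poly (fun a => mulq (G a) (q a) (u a) (v a)) := by
  unfold mulq
  refine NPC.Poly.map (UPoly.length hG).range ?_
  refine Poly_emod ?_ (NPC.Poly.max (hq.comp (NPC.Poly.fst NPC.Poly.id)) (NPC.Poly.const 1))
  refine Poly_sumZ ?_
  refine NPC.Poly.map (UPoly.length (hG.comp (NPC.Poly.fst NPC.Poly.id))).range ?_
  refine Poly_sumZ ?_
  refine NPC.Poly.map (UPoly.length (hG.comp (NPC.Poly.fst (NPC.Poly.fst NPC.Poly.id)))).range ?_
  refine Poly_mulZ (Poly_mulZ (Poly_ent ?_ ?_) (Poly_ent ?_ ?_)) (Poly_gm ?_ ?_ ?_ ?_)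
  · exact hu.comp (NPC.Poly.fst (NPC.Poly.fst (NPC.Poly.fst NPC.Poly.id)))
  · exact NPC.Poly.snd (NPC.Poly.fst NPC.Poly.id)
  · exact hv.comp (NPC.Poly.fst (NPC.Poly.fst (NPC.Poly.fst NPC.Poly.id)))
  · exact NPC.Poly.snd NPC.Poly.id
  · exact hG.comp (NPC.Poly.fst (NPC.Poly.fst (NPC.Poly.fst NPC.Poly.id)))
  · exact NPC.Poly.snd (NPC.Poly.fst NPC.Poly.id)
  · exact NPC.Poly.snd NPC.Poly.id
  · exact NPC.Poly.snd (NPC.Poly.fst (NPC.Poly.fst NPC.Poly.id))

theorem Poly_oneq {G : α → List (List (List ℤ))} (hG : Poly G) : Poly (fun a => oneq (G a)) := by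
  unfold oneq
  refine NPC.Poly.map (UPoly.length hG).range ?_
  exact NPC.Poly.ite (NPC.Poly.decide_eq (NPC.Poly.snd NPC.Poly.id) (NPC.Poly.const 0)) (NPC.Poly.const 1) (NPC.Poly.const 0)

theorem Poly_newq {G : α → List (List (List ℤ))} {q : α → ℕ} {e : α → List ℤ} (hG : Poly G)
    (hq : Poly q) (he : Poly e) : Poly (fun a => newq (G a) (q a) (e a)) := by
  unfold newq
  refine NPC.Poly.map (UPoly.length hG).range ?_
  refine Poly_emod ?_ (NPC.Poly.max (hq.comp (NPC.Poly.fst NPC.Poly.id)) (NPC.Poly.const 1))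
  have hG' : Poly (fun p : α × ℕ => G p.1) := hG.comp (NPC.Poly.fst NPC.Poly.id)
  have hq' : Poly (fun p : α × ℕ => q p.1) := hq.comp (NPC.Poly.fst NPC.Poly.id)
  have he' : Poly (fun p : α × ℕ => e p.1) := he.comp (NPC.Poly.fst NPC.Poly.id)
  refine Poly_subZ (Poly_mulZ (NPC.Poly.const 3) (Poly_ent (Poly_mulq hG' hq' he' he')
    (NPC.Poly.snd NPC.Poly.id))) (Poly_mulZ (NPC.Poly.const 2) (Poly_ent (Poly_mulq hG' hq'
      (Poly_mulq hG' hq' he' he') he') (NPC.Poly.snd NPC.Poly.id)))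

/-- Size bound for a list of reduced integers. -/
theorem sz_le_of_bd (w : List ℤ) (q : ℕ) (h : ∀ z ∈ w, 0 ≤ z ∧ z ≤ ((max q 1 : ℕ) : ℤ)) :
    sz w ≤ w.length * (4 * (sz q + 1) + 6) + 1 := by
  have := sz_list_le (l := w) (B := 4 * (sz q + 1) + 5) (fun z hz => ?_)
  · exact this
  · obtain ⟨h1, h2⟩ := h z hz
    refine (H532.sz_int_le z).trans ?_
    have : ib z ≤ sz q + 1 := by
      unfold ib
      have h3 : z.natAbs ≤ max q 1 := by omega
      have h4 : z.natAbs.size ≤ (max q 1).size := Nat.size_le_size h3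
      have h5 : (max q 1).size ≤ q.size + 1 := by
        rcases Nat.eq_zero_or_pos q with h | h
        · subst h; decide
        · rw [max_eq_left h]; omega
      have h6 := size_le_sz q
      omega
    omega

theorem mulq_length (γ : List (List (List ℤ))) (q : ℕ) (u v : List ℤ) :
    (mulq γ q u v).length = γ.length := by
  unfold mulq; rw [List.length_map, List.length_range]

theorem newq_length (γ : List (List (List ℤ))) (q : ℕ) (e : List ℤ) :
    (newq γ q e).length = γ.length := by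
  unfold newq; rw [List.length_map, List.length_range]

theorem oneq_length (γ : List (List (List ℤ))) : (oneq γ).length = γ.length := by
  unfold oneq; rw [List.length_map, List.length_range]

theorem mulq_bd (γ : List (List (List ℤ))) (q : ℕ) (u v : List ℤ) :
    ∀ z ∈ mulq γ q u v, 0 ≤ z ∧ z ≤ ((max q 1 : ℕ) : ℤ) := by
  intro z hz
  unfold mulq at hz
  rw [List.mem_map] at hz
  obtain ⟨l, _, rfl⟩ := hz
  have hpos : (0 : ℤ) < ((max q 1 : ℕ) : ℤ) := by
    have : 0 < max q 1 := by omega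
    exact_mod_cast this
  exact ⟨Int.emod_nonneg _ hpos.ne', (Int.emod_lt_of_pos _ hpos).le⟩

theorem newq_bd (γ : List (List (List ℤ))) (q : ℕ) (e : List ℤ) :
    ∀ z ∈ newq γ q e, 0 ≤ z ∧ z ≤ ((max q 1 : ℕ) : ℤ) := by
  intro z hz
  unfold newq at hz
  rw [List.mem_map] at hz
  obtain ⟨l, _, rfl⟩ := hz
  have hpos : (0 : ℤ) < ((max q 1 : ℕ) : ℤ) := by
    have : 0 < max q 1 := by omega
    exact_mod_cast this
  exact ⟨Int.emod_nonneg _ hpos.ne', (Int.emod_lt_of_pos _ hpos).le⟩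

theorem oneq_bd (γ : List (List (List ℤ))) (q : ℕ) :
    ∀ z ∈ oneq γ, 0 ≤ z ∧ z ≤ ((max q 1 : ℕ) : ℤ) := by
  intro z hz
  unfold oneq at hz
  rw [List.mem_map] at hz
  obtain ⟨l, _, rfl⟩ := hz
  have hpos : 1 ≤ max q 1 := by omega
  have hpos' : (1 : ℤ) ≤ ((max q 1 : ℕ) : ℤ) := by exact_mod_cast hpos
  split_ifs
  · exact ⟨by norm_num, hpos'⟩
  · exact ⟨le_refl _, by linarith⟩

theorem PB_bd {G : α → List (List (List ℤ))} {q : α → ℕ} (hG : Poly G) (hq : Poly q) :
    PB (fun a => (G a).length * (4 * (sz (q a) + 1) + 6) + 1) :=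
  ((PB.length hG).mul (((PB.const 4).mul ((PB.sz hq).add (PB.const 1))).add (PB.const 6))).add
    (PB.const 1)

theorem Poly_powq {G : α → List (List (List ℤ))} {q : α → ℕ} {u : α → List ℤ} {m : α → ℕ}
    (hG : Poly G) (hq : Poly q) (hu : Poly u) (hm : UPoly m) :
    Poly (fun a => powq (G a) (q a) (u a) (m a)) := by
  unfold powq
  refine Poly_foldRange (F := fun a w _ => mulq (G a) (q a) w (u a)) hm (Poly_oneq hG) ?_ _
    (PB_bd hG hq) ?_
  · exact Poly_mulq (hG.comp (NPC.Poly.fst NPC.Poly.id)) (hq.comp (NPC.Poly.fst NPC.Poly.id))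
      (NPC.Poly.fst (NPC.Poly.snd NPC.Poly.id)) (hu.comp (NPC.Poly.fst NPC.Poly.id))
  · intro a k _
    cases k with
    | zero =>
      rw [List.range_zero, List.foldl_nil]
      have := sz_le_of_bd _ (q a) (oneq_bd (G a) (q a))
      rwa [oneq_length] at this
    | succ k =>
      rw [List.range_succ, List.foldl_append, List.foldl_cons, List.foldl_nil]
      have := sz_le_of_bd _ (q a) (mulq_bd (G a) (q a) ((List.range k).foldl
        (fun w _ => mulq (G a) (q a) w (u a)) (oneq (G a))) (u a))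
      rwa [mulq_length] at this

theorem Poly_lift {G : α → List (List (List ℤ))} {q : α → ℕ} {e : α → List ℤ} {m : α → ℕ}
    (hG : Poly G) (hq : Poly q) (he : Poly e) (hm : UPoly m) :
    Poly (fun a => (List.range (m a)).foldl (fun e _ => newq (G a) (q a) e) (e a)) := by
  refine Poly_foldRange (F := fun a w _ => newq (G a) (q a) w) hm he ?_ _
    ((PB_bd hG hq).add (PB.sz he)) ?_
  · exact Poly_newq (hG.comp (NPC.Poly.fst NPC.Poly.id)) (hq.comp (NPC.Poly.fst NPC.Poly.id))
      (NPC.Poly.fst (NPC.Poly.snd NPC.Poly.id))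
  · intro a k _
    cases k with
    | zero =>
      rw [List.range_zero, List.foldl_nil]
      omega
    | succ k =>
      rw [List.range_succ, List.foldl_append, List.foldl_cons, List.foldl_nil]
      have := sz_le_of_bd _ (q a) (newq_bd (G a) (q a) ((List.range k).foldl
        (fun w _ => newq (G a) (q a) w) (e a)))
      rw [newq_length] at this
      omega

theorem sum_range_eq (r : ℕ) (f : ℕ → ℤ) : ((List.range r).map f).sum = ∑ i : Fin r, f i := by
  rw [← Finset.sum_range]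
  rfl

theorem getD_map_range (r : ℕ) (f : ℕ → ℤ) (l : Fin r) :
    ((List.range r).map f).getD l 0 = f l := by
  have : (l : ℕ) < ((List.range r).map f).length := by simp
  rw [List.getD_eq_getElem _ _ this, List.getElem_map, List.getElem_range]

theorem mulq_spec {r : ℕ} {γ : List (List (List ℤ))} (hγ : γ.length = r) {q : ℕ} (hq : 0 < q)
    (u v : List ℤ) (l : Fin r) :
    vz r (mulq γ q u v) l = mulv r γ (vz r u) (vz r v) l % (q : ℤ) := by
  unfold vz mulq mulv
  rw [hγ, getD_map_range, sum_range_eq]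
  have : (max q 1 : ℕ) = q := max_eq_left hq
  rw [this]
  congr 1
  refine Finset.sum_congr rfl fun i _ => ?_
  rw [sum_range_eq]
  rfl

theorem newq_spec {r : ℕ} {γ : List (List (List ℤ))} (hγ : γ.length = r) {q : ℕ} (hq : 0 < q)
    (e : List ℤ) (l : Fin r) :
    vz r (newq γ q e) l = (3 * vz r (mulq γ q e e) l - 2 * vz r (mulq γ q (mulq γ q e e) e) l)
      % (q : ℤ) := by
  unfold newq
  conv_lhs => rw [vz, hγ, getD_map_range]
  have : (max q 1 : ℕ) = q := max_eq_left hq
  rw [this]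
  rfl

section Ring

variable {r : ℕ} {γ : List (List (List ℤ))} {S : Type} [CommRing S] {ρ : (Fin r → ℤ) →+ S}
  {q q' : ℕ}

theorem rho_congr (hk : ∀ v, ρ v = 0 ↔ ∀ l, (q' : ℤ) ∣ v l) (hd : q' ∣ q) {u v : Fin r → ℤ}
    (h : ∀ l, u l = v l % (q : ℤ)) : ρ u = ρ v := by
  rw [← sub_eq_zero, ← map_sub, hk]
  intro l
  have h1 : (q : ℤ) ∣ u l - v l := by
    rw [h l]
    have := Int.emod_add_mul_ediv (v l) (q : ℤ)
    exact ⟨- (v l / q), by linarith⟩
  exact (Int.natCast_dvd_natCast.2 hd).trans h1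

theorem rho_mulq (hγ : γ.length = r) (hq : 0 < q) (hk : ∀ v, ρ v = 0 ↔ ∀ l, (q' : ℤ) ∣ v l)
    (hd : q' ∣ q) (hm : ∀ u v, ρ (mulv r γ u v) = ρ u * ρ v) (u v : List ℤ) :
    ρ (vz r (mulq γ q u v)) = ρ (vz r u) * ρ (vz r v) := by
  rw [← hm]
  exact rho_congr hk hd fun l => mulq_spec hγ hq u v l

theorem rho_newq (hγ : γ.length = r) (hq : 0 < q) (hk : ∀ v, ρ v = 0 ↔ ∀ l, (q' : ℤ) ∣ v l)
    (hd : q' ∣ q) (hm : ∀ u v, ρ (mulv r γ u v) = ρ u * ρ v) (e : List ℤ) :
    ρ (vz r (newq γ q e)) = 3 * ρ (vz r e) ^ 2 - 2 * ρ (vz r e) ^ 3 := by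
  have h1 : ρ (vz r (newq γ q e)) = ρ ((3 : ℤ) • vz r (mulq γ q e e) -
      (2 : ℤ) • vz r (mulq γ q (mulq γ q e e) e)) :=
    rho_congr hk hd fun l => by
      rw [newq_spec hγ hq]
      rfl
  rw [h1, map_sub, map_zsmul, map_zsmul, rho_mulq hγ hq hk hd hm, rho_mulq hγ hq hk hd hm,
    rho_mulq hγ hq hk hd hm]
  simp only [zsmul_eq_mul, Int.cast_ofNat]
  ring

end Ring

end Pool.Agent.H420_NCF.MQ

namespace Pool.Agent.H420_NCF

open Pool.Agent.NPC Pool.Agent.NPC.H532 Pool.Agent.H687R2.LLL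
open scoped Matrix

theorem mq_arith (h : EBS) : MQS := by
  refine ⟨?_, ?_, ?_, ?_, ?_⟩
  · exact MQ.Poly_mulq (NPC.Poly.fst (NPC.Poly.fst NPC.Poly.id)) (NPC.Poly.snd (NPC.Poly.fst NPC.Poly.id))
      (NPC.Poly.fst (NPC.Poly.snd NPC.Poly.id)) (NPC.Poly.snd (NPC.Poly.snd NPC.Poly.id))
  · exact MQ.Poly_oneq NPC.Poly.id
  · exact MQ.Poly_powq (NPC.Poly.fst (NPC.Poly.fst NPC.Poly.id)) (NPC.Poly.snd (NPC.Poly.fst NPC.Poly.id))
      (NPC.Poly.fst (NPC.Poly.snd NPC.Poly.id)) (UPoly.length (NPC.Poly.snd (NPC.Poly.snd NPC.Poly.id)))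
  · exact MQ.Poly_lift (NPC.Poly.fst (NPC.Poly.fst NPC.Poly.id)) (NPC.Poly.snd (NPC.Poly.fst NPC.Poly.id))
      (NPC.Poly.fst (NPC.Poly.snd NPC.Poly.id)) (UPoly.length (NPC.Poly.snd (NPC.Poly.snd NPC.Poly.id)))
  · intro r γ E _ _ b hO
    have hγ := hO.len
    refine ⟨?_, ?_, ?_⟩
    · intro q u v hq
      exact ⟨by rw [MQ.mulq_length, hγ], fun l => MQ.mulq_spec hγ hq u v l⟩
    · intro q u m S _ ρ hq hk hm h1
      induction m with
      | zero =>
        constructor
        · change (oneq γ).length = r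
          rw [MQ.oneq_length, hγ]
        · rw [pow_zero]; exact h1
      | succ m ih =>
        have e : powq γ q u (m + 1) = mulq γ q (powq γ q u m) u := by
          unfold powq
          rw [List.range_succ, List.foldl_append, List.foldl_cons, List.foldl_nil]
        rw [e]
        refine ⟨by rw [MQ.mulq_length, hγ], ?_⟩
        rw [MQ.rho_mulq hγ hq hk dvd_rfl hm, ih.2, pow_succ]
    · intro p hp K e hK he
      have hpK : 0 < p ^ K := by positivity
      obtain ⟨-, -, -, hres⟩ := h r γ E b hO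
      set F : ℕ → List ℤ := fun i => (List.range i).foldl (fun e _ => newq γ (p ^ K) e) e with hF
      have hF0 : F 0 = e := rfl
      have hFs : ∀ i, F (i + 1) = newq γ (p ^ K) (F i) := by
        intro i
        simp only [hF]
        rw [List.range_succ, List.foldl_append, List.foldl_cons, List.foldl_nil]
      change (F K).length = r ∧ IdemMod r γ (p ^ K) (vz r (F K)) ∧
        ∀ l, (p : ℤ) ∣ vz r (F K) l - vz r e l
      refine ⟨?_, ?_, ?_⟩
      · obtain ⟨K', rfl⟩ : ∃ K', K = K' + 1 := ⟨K - 1, by omega⟩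
        rw [hFs, MQ.newq_length, hγ]
      · obtain ⟨S, _, ρ, hs, hk, hm, h1⟩ := hres (p ^ K)
        have hpz : ((p : S)) ^ K = 0 := by
          have h2 : ρ (((p ^ K : ℕ) : ℤ) • vz r (oneq γ)) = 0 := by
            rw [hk]; intro l
            exact ⟨vz r (oneq γ) l, by rw [Pi.smul_apply, smul_eq_mul]⟩
          rw [map_zsmul, h1, zsmul_eq_mul, mul_one] at h2
          push_cast at h2
          exact h2
        have key : ∀ i, ∃ y : S, ρ (vz r (F i)) ^ 2 - ρ (vz r (F i)) = (p : S) ^ (i + 1) * y := by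
          intro i
          induction i with
          | zero =>
            rw [hF0]
            choose v hv using he
            refine ⟨ρ v, ?_⟩
            have h3 : mulv r γ (vz r e) (vz r e) - vz r e = (p : ℤ) • v := by
              funext l
              rw [Pi.sub_apply, hv l, Pi.smul_apply, smul_eq_mul]
            have h4 := congrArg ρ h3
            rw [map_sub, hm, map_zsmul, zsmul_eq_mul] at h4
            rw [pow_two, h4]
            push_cast
            ring
          | succ i ih =>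
            obtain ⟨y, hy⟩ := ih
            rw [hFs, MQ.rho_newq hγ hpK hk dvd_rfl hm]
            set x := ρ (vz r (F i)) with hx
            refine ⟨(p : S) ^ i * y ^ 2 * (4 * x ^ 2 - 4 * x - 3), ?_⟩
            have e1 : (3 * x ^ 2 - 2 * x ^ 3) ^ 2 - (3 * x ^ 2 - 2 * x ^ 3)
                = (x ^ 2 - x) ^ 2 * (4 * x ^ 2 - 4 * x - 3) := by ring
            rw [e1, hy]
            ring
        obtain ⟨y, hy⟩ := key K
        rw [pow_succ (p : S) K, hpz, zero_mul, zero_mul, pow_two, ← hm, ← map_sub, hk] at hy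
        exact hy
      · obtain ⟨S, _, ρ, hs, hk, hm, h1⟩ := hres p
        have h0 : ρ (vz r e) ^ 2 = ρ (vz r e) := by
          rw [pow_two, ← hm, ← sub_eq_zero, ← map_sub, hk]
          exact he
        have key : ∀ i, ρ (vz r (F i)) = ρ (vz r e) := by
          intro i
          induction i with
          | zero => rw [hF0]
          | succ i ih =>
            rw [hFs, MQ.rho_newq hγ hpK hk (dvd_pow_self p hK.ne') hm, ih, pow_succ _ 2, h0,
              ← pow_two, h0]
            ring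
        have := key K
        rw [← sub_eq_zero, ← map_sub, hk] at this
        exact this

end Pool.Agent.H420_NCF
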