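import Pool.Agent.H420_NCF.MainQ
import Pool.Agent.H420_NCF.FF.K2
import Pool.Agent.H420_NCF.FF.MemCo
import Pool.Agent.H420_NCF.FF.SelMod
import Pool.Agent.H420_NCF.FF.Clo
import Pool.Agent.H420_NCF.FF.Chain
import Pool.Agent.H420_NCF.FF.FR
import Pool.Agent.H420_NCF.FF.RJ
import Pool.Agent.H420_NCF.FF.RA
import Pool.Agent.H420_NCF.FF.E1
import Pool.Agent.H420_NCF.FF.TA
import Pool.Agent.H420_NCF.FF.VT
import Pool.Agent.H420_NCF.FF.MinH
import Pool.Agent.H420_NCF.FF.Div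
import Pool.Agent.H420_NCF.FF.HStep
import Pool.Agent.H420_NCF.FF.Rev
import Pool.Agent.H420_NCF.FF.Split
import Pool.Agent.H420_NCF.FF.A1
import Pool.Agent.H420_NCF.FF.A2
import Pool.Agent.H420_NCF.FF.Final

/-!
# Assembly over a finite field
-/

namespace Pool.Agent.H420_NCF.FF

open Pool.Agent.NPC

theorem finalF (K : Type) [Field K] [Finite K] [DecidableEq K] [TEnc K] : FinalS K := by
  have hK2 := k2 K
  have hMC := memCo K hK2
  have hSM := selMod K hMC.1
  have hJ := rj K (r0 K) (fr K)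
  have hRA := ra K hK2 hSM.2 (clo K hSM.2) (fr K) hJ
  have hTA := ta K hK2 hSM.1 hMC.2 (r0 K) hRA (e1 K hK2) (tm_math K (r0 K))
  have hV := vt K
  have hM := minH K hV hK2 hSM.2
  have hD := div_ K hV hK2
  have hH := hStep K hV (clo K hSM.2) hM (p1S K)
  have hS := split_ K hH (rev_ K) hD hV
  exact final K hV (a1 K hV hH hS hD (l21 K)) (a2 K hV hTA (chain K hSM.2) hM hD (keyS K) (wzS K))

end Pool.Agent.H420_NCF.FF
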