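import Pool.Agent.H420_NCF.Spec

/-!
# Module MemCo: membership in a rational span, and coordinates
(MP_825bd2_lc: deterministic polynomial-time factoring of sparse noncommutative polynomials)
-/

namespace Pool.Agent.H420_NCF

open Pool.Agent.NPC Pool.Agent.NPC.H532 Pool.Agent.H687R2.LLL
open scoped Matrix

namespace MemCo

/-- The first relation between `v` and the rows of `L` in which `v` really occurs. -/
def pick (kq : List (List ℤ) → List (List ℤ)) (p : List (List ℤ) × List ℤ) : List ℤ :=
  ((kq (p.2 :: p.1)).filter (fun u => !decide (u.getD 0 0 = 0))).head?.getD []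

theorem poly_zero {α : Type} [TEnc α] {l : α → List ℤ} (hl : NPC.Poly l) :
    NPC.Poly (fun a => (l a).getD 0 0) := by
  have h0 : NPC.Poly (fun _ : α => (0 : ℕ)) := NPC.Poly.const (0 : ℕ)
  have h1 : NPC.Poly (fun _ : α => (0 : ℤ)) := NPC.Poly.const (0 : ℤ)
  exact NPC.Poly.getD hl h0 h1

theorem poly_ne {α : Type} [TEnc α] {l : α → List ℤ} (hl : NPC.Poly l) :
    NPC.Poly (fun a => !decide ((l a).getD 0 0 = 0)) := by
  have h1 : NPC.Poly (fun _ : α => (0 : ℤ)) := NPC.Poly.const (0 : ℤ)
  have h2 : NPC.Poly (fun a => decide ((l a).getD 0 0 = 0)) :=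
    NPC.Poly.decide_eq (poly_zero hl) h1
  exact NPC.Poly.not h2

theorem poly_pick {kq : List (List ℤ) → List (List ℤ)} (hk : NPC.Poly kq) :
    NPC.Poly (pick kq) := by
  have h1 : NPC.Poly (fun p : List (List ℤ) × List ℤ => kq (p.2 :: p.1)) :=
    hk.comp (NPC.Poly.cons (NPC.Poly.snd NPC.Poly.id) (NPC.Poly.fst NPC.Poly.id))
  have h2 : NPC.Poly (fun x : (List (List ℤ) × List ℤ) × List ℤ => !decide (x.2.getD 0 0 = 0)) :=
    poly_ne (NPC.Poly.snd NPC.Poly.id)
  have h3 : NPC.Poly (fun p : List (List ℤ) × List ℤ =>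
      (kq (p.2 :: p.1)).filter (fun u => !decide (u.getD 0 0 = 0))) :=
    NPC.Poly.filter (p := fun _ u => !decide (u.getD 0 0 = 0)) h1 h2
  exact NPC.Poly.head?_getD h3 []

theorem pick_ne {kq : List (List ℤ) → List (List ℤ)} {p : List (List ℤ) × List ℤ}
    (h : (pick kq p).getD 0 0 ≠ 0) : pick kq p ∈ kq (p.2 :: p.1) := by
  unfold pick at h ⊢
  cases hc : ((kq (p.2 :: p.1)).filter (fun u => !decide (u.getD 0 0 = 0))) with
  | nil => rw [hc] at h; simp at h
  | cons u t =>
    have : u ∈ (kq (p.2 :: p.1)).filter (fun u => !decide (u.getD 0 0 = 0)) := by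
      rw [hc]; simp
    simpa using (List.mem_filter.1 this).1

theorem pick_of {kq : List (List ℤ) → List (List ℤ)} {p : List (List ℤ) × List ℤ}
    (h : ∃ u ∈ kq (p.2 :: p.1), u.getD 0 0 ≠ 0) : (pick kq p).getD 0 0 ≠ 0 := by
  obtain ⟨u, hu, hu0⟩ := h
  unfold pick
  have hm : u ∈ (kq (p.2 :: p.1)).filter (fun u => !decide (u.getD 0 0 = 0)) :=
    List.mem_filter.2 ⟨hu, by simpa using hu0⟩
  cases hc : ((kq (p.2 :: p.1)).filter (fun u => !decide (u.getD 0 0 = 0))) with
  | nil => rw [hc] at hm; simp at hm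
  | cons w t =>
    have : w ∈ (kq (p.2 :: p.1)).filter (fun u => !decide (u.getD 0 0 = 0)) := by
      rw [hc]; simp
    have h2 := (List.mem_filter.1 this).2
    simpa using h2

theorem vspan_eq (n : ℕ) (L : List (List ℤ)) :
    vspan n L = Submodule.span ℚ (Set.range fun i : Fin L.length => vq n (L.getD i [])) := by
  unfold vspan
  congr 1
  ext w
  constructor
  · rintro ⟨v, hv, rfl⟩
    obtain ⟨i, hi, rfl⟩ := List.getElem_of_mem hv
    exact ⟨⟨i, hi⟩, by simp only [List.getD_eq_getElem _ _ hi]⟩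
  · rintro ⟨i, rfl⟩
    refine ⟨L.getD i [], ?_, rfl⟩
    rw [List.getD_eq_getElem _ _ i.2]
    exact List.getElem_mem _

/-- A relation gives a combination. -/
theorem rel (n : ℕ) (L : List (List ℤ)) (v u : List ℤ)
    (h : ∀ j, form (v :: L) (ent u) j = 0) :
    ((u.getD 0 0 : ℤ) : ℚ) • vq n v =
      ∑ i : Fin L.length, (ent (u.tail.map fun x => -x) i : ℚ) • vq n (L.getD i []) := by
  have hent : ∀ i, ent (u.tail.map fun x => -x) i = - ent u (i + 1) := by
    intro i
    cases u with
    | nil => simp [ent]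
    | cons a u =>
      have h1 : ent (a :: u) (i + 1) = u[i]?.getD 0 := by simp [ent]
      rw [h1]
      simp only [List.tail_cons, ent, List.getD_eq_getElem?_getD, List.getElem?_map]
      cases u[i]? <;> simp
  ext j
  have h1 := h j
  unfold form at h1
  rw [List.length_cons, Finset.sum_range_succ'] at h1
  simp only [List.getD_cons_succ, List.getD_cons_zero] at h1
  rw [Finset.sum_apply]
  simp only [Pi.smul_apply, smul_eq_mul, vq, hent]
  rw [← Fin.sum_univ_eq_sum_range (fun i => ent u (i + 1) * (L.getD i []).getD (j : ℕ) 0)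
    L.length] at h1
  have h2 : ((∑ i : Fin L.length, ent u (i + 1) * (L.getD i []).getD (j : ℕ) 0 +
    ent u 0 * v.getD (j : ℕ) 0 : ℤ) : ℚ) = 0 := by rw [h1]; simp
  push_cast at h2
  have h3 : ent u 0 = u.getD 0 0 := rfl
  rw [h3] at h2
  push_cast
  simp only [neg_mul, Finset.sum_neg_distrib]
  linarith

end MemCo

open MemCo in
theorem memCo (h : K2S) : MemS ∧ CoS := by
  obtain ⟨kq, hkp, hk⟩ := h
  have key : ∀ (n : ℕ) (L : List (List ℤ)) (v : List ℤ), (∀ w ∈ L, w.length = n) → v.length = n →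
      ((pick kq (L, v)).getD 0 0 ≠ 0 ↔ vq n v ∈ vspan n L) := by
    intro n L v hL hv
    have hX : ∀ r ∈ v :: L, r.length = n := by
      intro r hr
      rcases List.mem_cons.1 hr with h | h
      · rw [h]; exact hv
      · exact hL r h
    obtain ⟨hk1, hk2⟩ := hk (v :: L) n hX
    constructor
    · intro h0
      have hm := pick_ne h0
      have h1 := rel n L v _ (hk1 _ hm).2
      have h2 : (((pick kq (L, v)).getD 0 0 : ℤ) : ℚ) ≠ 0 := by exact_mod_cast h0
      have h3 : vq n v = (((pick kq (L, v)).getD 0 0 : ℤ) : ℚ)⁻¹ •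
          ((((pick kq (L, v)).getD 0 0 : ℤ) : ℚ) • vq n v) := by
        rw [smul_smul, inv_mul_cancel₀ h2, one_smul]
      rw [h3, h1, vspan_eq]
      refine Submodule.smul_mem _ _ (Submodule.sum_mem _ fun i _ => Submodule.smul_mem _ _ ?_)
      exact Submodule.subset_span ⟨i, rfl⟩
    · intro hmem
      rw [vspan_eq, Submodule.mem_span_range_iff_exists_fun] at hmem
      obtain ⟨c, hc⟩ := hmem
      apply pick_of
      by_contra hno
      push Not at hno
      have h1 := hk2 (Fin.cons 1 (fun i : Fin L.length => - c i) : Fin (L.length + 1) → ℚ) (by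
        change ∑ i : Fin (L.length + 1), _ = _
        rw [Fin.sum_univ_succ]
        simp only [Fin.cons_zero, Fin.cons_succ, one_smul, neg_smul, Finset.sum_neg_distrib,
          Fin.val_zero, List.getD_cons_zero, Fin.val_succ, List.getD_cons_succ]
        rw [hc]; simp)
      have h2 : ∀ w ∈ vspan (v :: L).length (kq (v :: L)), w ⟨0, by simp⟩ = 0 := by
        intro w hw
        unfold vspan at hw
        induction hw using Submodule.span_induction with
        | mem x hx =>
          obtain ⟨u, hu, rfl⟩ := hx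
          have := hno u hu
          simp only [vq]
          exact_mod_cast this
        | zero => rfl
        | add x y _ _ hx hy => rw [Pi.add_apply, hx, hy, add_zero]
        | smul a x _ hx => rw [Pi.smul_apply, hx, smul_zero]
      have h3 := h2 _ h1
      have h4 : (Fin.cons 1 (fun i : Fin L.length => - c i) : Fin (L.length + 1) → ℚ) 0 = 1 := rfl
      exact one_ne_zero (h4.symm.trans h3)
  refine ⟨⟨fun p => !decide ((pick kq p).getD 0 0 = 0), ?_, ?_⟩,
    ⟨fun p => ((pick kq p).getD 0 0, (pick kq p).tail.map fun x => -x), ?_, ?_⟩⟩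
  · exact poly_ne (poly_pick hkp)
  · intro n L v hL hv
    rw [← key n L v hL hv]
    simp
  · refine NPC.Poly.pair (poly_zero (poly_pick hkp)) ?_
    exact NPC.Poly.map (F := fun _ x => -x) (NPC.Poly.tail (poly_pick hkp))
      (NPC.Poly.ineg (NPC.Poly.snd NPC.Poly.id))
  · intro n L v hL hv hmem
    have h0 := (key n L v hL hv).2 hmem
    have hX : ∀ r ∈ v :: L, r.length = n := by
      intro r hr
      rcases List.mem_cons.1 hr with h | h
      · rw [h]; exact hv
      · exact hL r h
    have hm := (hk (v :: L) n hX).1 _ (pick_ne h0)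
    refine ⟨h0, ?_, rel n L v _ hm.2⟩
    simp only [List.length_map, List.length_tail, hm.1, List.length_cons, Nat.add_sub_cancel]

end Pool.Agent.H420_NCF
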