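import Pool.Agent.H420_NCF.Spec

/-!
# Module MinH: elements of minimal degree
-/

namespace Pool.Agent.H420_NCF

open Pool.Agent.NPC Pool.Agent.NPC.H532 Pool.Agent.H687R2.LLL
open scoped Matrix

namespace MinH

/-- Keep the coordinates of the words of length at least `b`. -/
def cut (l : List (List ℕ)) (b : ℕ) (v : List ℤ) : List ℤ :=
  (l.zip v).map fun t => if b ≤ t.1.length then t.2 else 0

/-- A vector with a nonzero entry. -/
def nz (u : List ℤ) : Bool := u.any fun z => !decide (z = 0)

/-- The combination of the rows with given coefficients. -/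
def comb (n : ℕ) (L : List (List ℤ)) (u : List ℤ) : List ℤ :=
  (List.range n).map fun j => ((List.range L.length).map fun i => ent u i * entry L i j).sum

/-- The nonzero relations between the coordinates of words of length at least `b`. -/
def rel (kq : List (List ℤ) → List (List ℤ)) (l : List (List ℕ)) (L : List (List ℤ)) (b : ℕ) :
    List (List ℤ) := (kq (L.map fun v => cut l b v)).filter fun u => nz u

/-- The algorithm. -/
def alg (kq sel : List (List ℤ) → List (List ℤ)) (p : List (List ℕ) × List (List ℤ)) : List ℤ :=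
  comb p.1.length (sel p.2)
    (((List.range (p.1.flatten.length + 2)).flatMap fun b => rel kq p.1 (sel p.2) b).getD 0 [])

theorem alg_poly {kq sel : List (List ℤ) → List (List ℤ)} (hk : NPC.Poly kq) (hs : NPC.Poly sel) :
    NPC.Poly (alg kq sel) := by
  have pcut : NPC.Poly (fun p : (List (List ℕ) × ℕ) × List ℤ => cut p.1.1 p.1.2 p.2) := by
    unfold cut
    refine NPC.Poly.map (F := fun (p : (List (List ℕ) × ℕ) × List ℤ) (t : List ℕ × ℤ) =>
      if p.1.2 ≤ t.1.length then t.2 else 0)
      (NPC.Poly.zip (NPC.Poly.fst (NPC.Poly.fst NPC.Poly.id)) (NPC.Poly.snd NPC.Poly.id)) ?_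
    refine NPC.Poly.ite (NPC.Poly.decide_le (NPC.Poly.snd (NPC.Poly.fst (NPC.Poly.fst NPC.Poly.id)))
      (NPC.Poly.length (NPC.Poly.fst (NPC.Poly.snd NPC.Poly.id))))
      (NPC.Poly.snd (NPC.Poly.snd NPC.Poly.id)) (NPC.Poly.const _)
  have pnz : NPC.Poly nz := by
    unfold nz
    exact NPC.Poly.any (p := fun _ z => !decide (z = 0)) NPC.Poly.id
      (NPC.Poly.not (NPC.Poly.decide_eq (NPC.Poly.snd NPC.Poly.id) (NPC.Poly.const _)))
  have prel : NPC.Poly (fun x : (List (List ℕ) × List (List ℤ)) × ℕ =>
      rel kq x.1.1 (sel x.1.2) x.2) := by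
    unfold rel
    refine NPC.Poly.filter (p := fun _ u => nz u) ?_ (NPC.Poly.comp pnz (NPC.Poly.snd NPC.Poly.id))
    refine NPC.Poly.comp hk ?_
    refine NPC.Poly.map (F := fun (x : (List (List ℕ) × List (List ℤ)) × ℕ) v => cut x.1.1 x.2 v)
      (NPC.Poly.comp hs (NPC.Poly.snd (NPC.Poly.fst NPC.Poly.id))) ?_
    have h1 : NPC.Poly (fun y : ((List (List ℕ) × List (List ℤ)) × ℕ) × List ℤ =>
        ((y.1.1.1, y.1.2), y.2)) :=
      NPC.Poly.pair (NPC.Poly.pair (NPC.Poly.fst (NPC.Poly.fst (NPC.Poly.fst NPC.Poly.id)))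
        (NPC.Poly.snd (NPC.Poly.fst NPC.Poly.id))) (NPC.Poly.snd NPC.Poly.id)
    have h2 := NPC.Poly.comp pcut h1
    exact h2
  have pcomb : NPC.Poly (fun p : (List (List ℕ) × List (List ℤ)) × List ℤ =>
      comb p.1.1.length p.1.2 p.2) := by
    unfold comb
    refine NPC.Poly.map (F := fun (p : (List (List ℕ) × List (List ℤ)) × List ℤ) j =>
      ((List.range p.1.2.length).map fun i => ent p.2 i * entry p.1.2 i j).sum)
      (NPC.Poly.range_length (NPC.Poly.fst (NPC.Poly.fst NPC.Poly.id))) ?_
    refine Poly_sumZ ?_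
    refine NPC.Poly.map (F := fun (x : ((List (List ℕ) × List (List ℤ)) × List ℤ) × ℕ) i =>
      ent x.1.2 i * entry x.1.1.2 i x.2)
      (NPC.Poly.range_length (NPC.Poly.snd (NPC.Poly.fst (NPC.Poly.fst NPC.Poly.id)))) ?_
    refine Poly_mulZ ?_ ?_
    · exact NPC.Poly.getD (NPC.Poly.snd (NPC.Poly.fst (NPC.Poly.fst NPC.Poly.id)))
        (NPC.Poly.snd NPC.Poly.id) (NPC.Poly.const _)
    · exact Poly_entry (NPC.Poly.snd (NPC.Poly.fst (NPC.Poly.fst (NPC.Poly.fst NPC.Poly.id))))
        (NPC.Poly.snd NPC.Poly.id) (NPC.Poly.snd (NPC.Poly.fst NPC.Poly.id))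
  have pN : UPoly (fun p : List (List ℕ) × List (List ℤ) => p.1.flatten.length + 2) :=
    UPoly.add (UPoly.length (NPC.Poly.flatten (NPC.Poly.fst NPC.Poly.id))) (UPoly.const 2)
  have pc : NPC.Poly (fun p : List (List ℕ) × List (List ℤ) =>
      ((List.range (p.1.flatten.length + 2)).flatMap fun b => rel kq p.1 (sel p.2) b).getD 0 []) :=
    NPC.Poly.getD (NPC.Poly.flatMap (F := fun (p : List (List ℕ) × List (List ℤ)) b =>
      rel kq p.1 (sel p.2) b) pN.range prel) (NPC.Poly.const _) (NPC.Poly.const _)
  have h3 : NPC.Poly (fun p : List (List ℕ) × List (List ℤ) => ((p.1, sel p.2),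
      ((List.range (p.1.flatten.length + 2)).flatMap fun b => rel kq p.1 (sel p.2) b).getD 0 [])) :=
    NPC.Poly.pair (NPC.Poly.pair (NPC.Poly.fst NPC.Poly.id)
      (NPC.Poly.comp hs (NPC.Poly.snd NPC.Poly.id))) pc
  have h4 := NPC.Poly.comp pcomb h3
  exact h4

/-- The first element of a concatenation. -/
theorem first_flatMap {α : Type} (C : ℕ → List α) (d : α) (N : ℕ) (h : ∃ b < N, C b ≠ []) :
    ∃ b < N, ((List.range N).flatMap C).getD 0 d ∈ C b ∧ ∀ b' < b, C b' = [] := by
  induction N with
  | zero => obtain ⟨b, hb, -⟩ := h; omega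
  | succ N ih =>
    rw [List.range_succ, List.flatMap_append]
    by_cases h' : ∃ b < N, C b ≠ []
    · obtain ⟨b, hb, h1, h2⟩ := ih h'
      refine ⟨b, by omega, ?_, h2⟩
      have hne : (List.range N).flatMap C ≠ [] := by
        obtain ⟨b₀, hb₀, hb₀'⟩ := h'
        intro h0
        rw [List.flatMap_eq_nil_iff] at h0
        exact hb₀' (h0 b₀ (by simpa using hb₀))
      have hlen := List.length_pos_iff.2 hne
      rw [List.getD_append _ _ _ _ hlen]
      exact h1
    · push Not at h'
      obtain ⟨b, hb, hb'⟩ := h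
      have hbN : b = N := by
        by_contra hne
        exact hb' (h' b (by omega))
      subst hbN
      have h0 : (List.range b).flatMap C = [] := by
        rw [List.flatMap_eq_nil_iff]
        intro x hx
        exact h' x (by simpa using hx)
      refine ⟨b, by omega, ?_, h'⟩
      rw [h0, List.nil_append, List.flatMap_singleton, List.getD_eq_getElem _ _
        (List.length_pos_iff.2 hb')]
      exact List.getElem_mem _

theorem cut_length {l : List (List ℕ)} {b : ℕ} {v : List ℤ} (h : v.length = l.length) :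
    (cut l b v).length = l.length := by
  unfold cut
  simp [h]

theorem vq_cut {l : List (List ℕ)} {b : ℕ} {v : List ℤ} (h : v.length = l.length)
    (j : Fin l.length) : vq l.length (cut l b v) j =
      if b ≤ (l.getD j []).length then vq l.length v j else 0 := by
  unfold vq cut
  rw [List.getD_eq_getElem _ _ (by simp [h]), List.getD_eq_getElem l _ j.2,
    List.getD_eq_getElem v _ (by rw [h]; exact j.2)]
  simp only [List.getElem_map, List.getElem_zip]
  split_ifs <;> simp

theorem vq_comb (n : ℕ) (L : List (List ℤ)) (u : List ℤ) :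
    vq n (comb n L u) = ∑ i ∈ Finset.range L.length, (ent u i : ℚ) • vq n (L.getD i []) := by
  funext j
  unfold vq comb
  rw [List.getD_eq_getElem _ _ (by simp), Finset.sum_apply]
  simp only [List.getElem_map, List.getElem_range]
  have h1 : ((List.range L.length).map fun i => ent u i * entry L i j).sum =
      ∑ i ∈ Finset.range L.length, ent u i * entry L i j := by
    rw [← List.sum_toFinset _ (List.nodup_range), List.toFinset_range]
  rw [h1]
  push_cast
  rfl

theorem cf_phi {l : List (List ℕ)} (hl : l.Nodup) (v : Fin l.length → ℚ) (j : Fin l.length) :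
    cf (l.getD j []) (phi l v) = v j := by
  unfold phi
  rw [Fintype.linearCombination_apply, map_sum, Finset.sum_eq_single j]
  · rw [map_smul, cf_mon, if_pos rfl, smul_eq_mul, mul_one]
  · intro i _ hij
    rw [map_smul, cf_mon, if_neg, smul_zero]
    intro h
    rw [List.getD_eq_getElem _ _ i.2, List.getD_eq_getElem _ _ j.2] at h
    exact hij (Fin.ext ((List.Nodup.getElem_inj_iff hl).1 h))
  · intro h; exact absurd (Finset.mem_univ _) h

theorem cf_phi_notMem {l : List (List ℕ)} (v : Fin l.length → ℚ) {w : List ℕ} (hw : w ∉ l) :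
    cf w (phi l v) = 0 := by
  unfold phi
  rw [Fintype.linearCombination_apply, map_sum]
  refine Finset.sum_eq_zero fun i _ => ?_
  rw [map_smul, cf_mon, if_neg, smul_zero]
  rintro rfl
  rw [List.getD_eq_getElem _ _ i.2] at hw
  exact hw (List.getElem_mem _)

end MinH

open Pool.Agent.H420_NCF.MinH in
theorem minH (hv : VTS) (hk : K2S) (hs : SelS) : MinhS := by
  obtain ⟨kq, hkq, hkq2⟩ := hk
  obtain ⟨sel, hsel, hsel2⟩ := hs
  refine ⟨alg kq sel, alg_poly hkq hsel, fun l L hl hL hne => ?_⟩
  obtain ⟨hs1, hs2, hs3⟩ := hsel2 l.length L hL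
  set L' := sel L with hL'
  have hL'len : ∀ v ∈ L', v.length = l.length := fun v hv' => hL v (hs1 v hv')
  set n := l.length with hn
  -- combinations of the rows
  set S : (ℕ → ℚ) → (Fin n → ℚ) := fun c => ∑ i ∈ Finset.range L'.length,
    c i • vq n (L'.getD i []) with hS
  have hSfin : ∀ c : ℕ → ℚ, ∑ i : Fin L'.length, c i • vq n (L'.getD i []) = S c := fun c =>
    Fin.sum_univ_eq_sum_range (fun i => c i • vq n (L'.getD i [])) L'.length
  have hSmem : ∀ c, S c ∈ vspan n L := by
    intro c
    rw [← hs3, hS]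
    refine Submodule.sum_mem _ fun i hi => Submodule.smul_mem _ _ (Submodule.subset_span ?_)
    rw [Finset.mem_range] at hi
    exact ⟨L'.getD i [], by rw [List.getD_eq_getElem _ _ hi]; exact List.getElem_mem hi, rfl⟩
  have hSex : ∀ v ∈ vspan n L, ∃ c : ℕ → ℚ, v = S c := by
    intro v hv'
    rw [← hs3] at hv'
    have h1 : v ∈ Submodule.span ℚ (Set.range fun i : Fin L'.length => vq n (L'.getD i [])) := by
      refine Submodule.span_mono ?_ hv'
      rintro _ ⟨w, hw, rfl⟩
      obtain ⟨i, hi, rfl⟩ := List.getElem_of_mem hw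
      exact ⟨⟨i, hi⟩, by simp only; rw [List.getD_eq_getElem _ _ hi]⟩
    rw [Submodule.mem_span_range_iff_exists_fun] at h1
    obtain ⟨c, hc⟩ := h1
    refine ⟨fun i => if h : i < L'.length then c ⟨i, h⟩ else 0, ?_⟩
    rw [← hSfin, ← hc]
    refine Finset.sum_congr rfl fun i _ => ?_
    simp
  have hSinj : ∀ c : ℕ → ℚ, S c = 0 → ∀ i < L'.length, c i = 0 := by
    intro c hc i hi
    have h1 := Fintype.linearIndependent_iff.1 hs2 (fun i => c i) (by rw [hSfin, hc]) ⟨i, hi⟩
    exact h1
  -- relations
  have hX : ∀ b, ∀ r ∈ L'.map (fun v => cut l b v), r.length = n := by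
    intro b r hr
    rw [List.mem_map] at hr
    obtain ⟨v, hv', rfl⟩ := hr
    exact cut_length (hL'len v hv')
  have hXlen : ∀ b, (L'.map (fun v => cut l b v)).length = L'.length := fun b => by simp
  have hXsum : ∀ b (c : ℕ → ℚ) (j : Fin n), (∑ i ∈ Finset.range L'.length,
      c i • vq n ((L'.map (fun v => cut l b v)).getD i [])) j =
      if b ≤ (l.getD j []).length then S c j else 0 := by
    intro b c j
    have h1 : ∀ i ∈ Finset.range L'.length,
        (c i • vq n ((L'.map (fun v => cut l b v)).getD i [])) j =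
        if b ≤ (l.getD j []).length then (c i • vq n (L'.getD i [])) j else 0 := by
      intro i hi
      rw [Finset.mem_range] at hi
      have h2 : (L'.map (fun v => cut l b v)).getD i [] = cut l b (L'.getD i []) := by
        rw [List.getD_eq_getElem _ _ (by simpa using hi), List.getElem_map,
          List.getD_eq_getElem _ _ hi]
      rw [h2, Pi.smul_apply, Pi.smul_apply, vq_cut (hL'len _ (by
        rw [List.getD_eq_getElem _ _ hi]; exact List.getElem_mem hi)) j]
      split_ifs
      · rfl
      · rw [smul_zero]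
    rw [Finset.sum_apply, Finset.sum_congr rfl h1, hS]
    simp only
    rw [Finset.sum_apply]
    split_ifs
    · rfl
    · simp
  have hrel0 : ∀ b, rel kq l L' b = [] → ∀ c : ℕ → ℚ,
      (∀ j : Fin n, b ≤ (l.getD j []).length → S c j = 0) → ∀ i < L'.length, c i = 0 := by
    intro b hb c hc i hi
    obtain ⟨h1, h2⟩ := hkq2 (L'.map (fun v => cut l b v)) n (hX b)
    have h3 := h2 (fun i => c i) (by
      rw [Fin.sum_univ_eq_sum_range (fun i => c i • vq n ((L'.map (fun v => cut l b v)).getD i []))
        (L'.map (fun v => cut l b v)).length, hXlen]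
      funext j
      rw [hXsum, Pi.zero_apply]
      split_ifs with h4
      · exact hc j h4
      · rfl)
    have h4 : ∀ x ∈ vspan (L'.map (fun v => cut l b v)).length (kq (L'.map (fun v => cut l b v))),
        x = 0 := by
      intro x hx
      unfold vspan at hx
      induction hx using Submodule.span_induction with
      | mem x hx =>
        obtain ⟨u, hu, rfl⟩ := hx
        have h5 : ¬ nz u = true := by
          intro h6
          have h7 : u ∈ rel kq l L' b := by
            unfold rel
            rw [List.mem_filter]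
            exact ⟨hu, h6⟩
          rw [hb] at h7
          simp at h7
        unfold nz at h5
        rw [Bool.not_eq_true, List.any_eq_false] at h5
        funext j
        unfold vq
        rw [List.getD_eq_getElem _ _ (by rw [(h1 u hu).1]; exact j.2)]
        have h6 := h5 _ (List.getElem_mem (l := u) (n := (j : ℕ)) (by rw [(h1 u hu).1]; exact j.2))
        simp only [Bool.not_eq_true', decide_eq_false_iff_not, not_not] at h6
        rw [h6]
        simp
      | zero => rfl
      | add x y _ _ hx hy => rw [hx, hy, add_zero]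
      | smul r x _ hx => rw [hx, smul_zero]
    have h5 := congrFun (h4 _ h3) ⟨i, by simpa using hi⟩
    exact h5
  -- existence of a nonzero relation
  have hlen' : 0 < L'.length := by
    by_contra h0
    have h1 : L' = [] := List.eq_nil_of_length_eq_zero (by omega)
    apply hne
    rw [← hs3, h1]
    unfold vspan
    simp
  have hex : ∃ b < l.flatten.length + 2, rel kq l L' b ≠ [] := by
    refine ⟨l.flatten.length + 1, by omega, fun h0 => ?_⟩
    have h1 := hrel0 _ h0 (fun _ => 1) (by
      intro j hj
      have h2 : (l.getD j []).length ≤ l.flatten.length := by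
        rw [List.getD_eq_getElem _ _ j.2]
        exact (List.sublist_flatten_of_mem (List.getElem_mem _)).length_le
      omega) 0 hlen'
    exact one_ne_zero h1
  obtain ⟨b, hbN, hb1, hb2⟩ := first_flatMap (fun b => rel kq l L' b) [] _ hex
  set u := ((List.range (l.flatten.length + 2)).flatMap fun b => rel kq l L' b).getD 0 [] with hu
  have hu1 : u ∈ kq (L'.map fun v => cut l b v) ∧ nz u = true := by
    unfold rel at hb1
    rw [List.mem_filter] at hb1
    exact hb1
  obtain ⟨hu1, hu2⟩ := hu1
  obtain ⟨h1, h2⟩ := hkq2 (L'.map (fun v => cut l b v)) n (hX b)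
  obtain ⟨hul, huf⟩ := h1 u hu1
  rw [hXlen] at hul
  have hT : ∀ j : Fin n, b ≤ (l.getD j []).length → S (fun i => (ent u i : ℚ)) j = 0 := by
    intro j hj
    have h3 := hXsum b (fun i => (ent u i : ℚ)) j
    rw [if_pos hj] at h3
    rw [← h3, Finset.sum_apply]
    have h4 := huf j
    unfold form at h4
    rw [hXlen] at h4
    simp only [Pi.smul_apply, vq, smul_eq_mul]
    exact_mod_cast h4
  have hT0 : S (fun i => (ent u i : ℚ)) ≠ 0 := by
    intro h0
    have h3 := hSinj _ h0
    unfold nz at hu2
    rw [List.any_eq_true] at hu2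
    obtain ⟨z, hz, hz0⟩ := hu2
    simp only [Bool.not_eq_true', decide_eq_false_iff_not] at hz0
    obtain ⟨i, hi, rfl⟩ := List.getElem_of_mem hz
    have h4 := h3 i (by rw [← hul]; exact hi)
    simp only [ent] at h4
    rw [List.getD_eq_getElem _ _ hi] at h4
    exact hz0 (by exact_mod_cast h4)
  have halg : alg kq sel (l, L) = MinH.comb n L' u := rfl
  have hvq : vq n (MinH.comb n L' u) = S (fun i => (ent u i : ℚ)) := vq_comb n L' u
  refine ⟨by rw [halg]; unfold MinH.comb; rw [List.length_map, List.length_range], ?_⟩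
  rw [halg, hvq]
  have hdeg0 : phi l (S fun i => (ent u i : ℚ)) ≠ 0 := by
    intro h0
    apply hT0
    funext j
    have h3 := cf_phi hl (S fun i => (ent u i : ℚ)) j
    rw [h0, map_zero] at h3
    rw [← h3]; rfl
  have hbpos : 0 < b := by
    rcases Nat.eq_zero_or_pos b with hb0 | hb0
    · exfalso
      apply hT0
      funext j
      exact hT j (by omega)
    · exact hb0
  have hupper : ∀ w : List ℕ, b - 1 < w.length → cf w (phi l (S fun i => (ent u i : ℚ))) = 0 := by
    intro w hw
    by_cases hwl : w ∈ l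
    · obtain ⟨j, hj, rfl⟩ := List.getElem_of_mem hwl
      have h3 := cf_phi hl (S fun i => (ent u i : ℚ)) ⟨j, hj⟩
      simp only at h3
      rw [List.getD_eq_getElem _ _ hj] at h3
      rw [h3]
      refine hT ⟨j, hj⟩ ?_
      simp only
      rw [List.getD_eq_getElem _ _ hj]
      omega
    · exact cf_phi_notMem _ hwl
  have hmin : ∀ p ∈ (vspan n L).map (phi l), p ∈ Rlt ℚ (b - 1) → p = 0 := by
    rintro _ ⟨v, hv', rfl⟩ hp
    obtain ⟨c, rfl⟩ := hSex v hv'
    have h3 := hrel0 (b - 1) (hb2 (b - 1) (by omega)) c (by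
      intro j hj
      have h4 := hp _ hj
      rwa [cf_phi hl] at h4)
    have h4 : S c = 0 := by
      rw [hS]
      simp only
      refine Finset.sum_eq_zero fun i hi => ?_
      rw [h3 i (Finset.mem_range.1 hi), zero_smul]
    rw [h4, map_zero]
  refine ⟨Submodule.mem_map_of_mem (hSmem _), b - 1, ⟨?_, hupper⟩, hmin⟩
  by_contra hcon
  push Not at hcon
  apply hdeg0
  refine hmin _ (Submodule.mem_map_of_mem (hSmem _)) fun w hw => ?_
  rcases Nat.lt_or_ge (b - 1) w.length with h3 | h3
  · exact hupper w h3
  · exact hcon w (by omega)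

end Pool.Agent.H420_NCF
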