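import Pool.Agent.H420_NCF.Spec

/-!
# Module P1: left factors of given lower degree
-/

namespace Pool.Agent.H420_NCF

open Pool.Agent.NPC Pool.Agent.NPC.H532 Pool.Agent.H687R2.LLL
open scoped Matrix

namespace P1

variable {k : Type} [Field k]

theorem Ncl_lq (f : NC k) (u w : List ℕ) (x : ℕ) : lq x f ∈ Ncl f u w := by
  unfold Ncl
  rw [Submodule.mem_sInf]
  intro N hN
  exact hN.2 x

theorem Ncl_stab (f : NC k) (u w : List ℕ) : Stab f u w (Ncl f u w) := by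
  intro x p hp
  unfold Ncl at hp ⊢
  rw [Submodule.mem_sInf] at hp ⊢
  intro N hN
  exact hN.1 x p (hp N hN)

theorem Ncl_le {f : NC k} {u w : List ℕ} {N : Submodule k (NC k)} (h1 : Stab f u w N)
    (h2 : ∀ x, lq x f ∈ N) : Ncl f u w ≤ N := sInf_le ⟨h1, h2⟩

theorem exists_isMin {N : Submodule k (NC k)} (h : ∃ p ∈ N, p ≠ 0) : ∃ h, IsMin N h := by
  classical
  have h1 : ∃ d, ∃ p ∈ N, IsDeg p d := by
    obtain ⟨p, hp, hp0⟩ := h
    obtain ⟨d, hd⟩ := exists_isDeg hp0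
    exact ⟨d, p, hp, hd⟩
  obtain ⟨p, hp, hd⟩ := Nat.find_spec h1
  refine ⟨p, hp, Nat.find h1, hd, fun q hq hq' => ?_⟩
  by_contra hq0
  obtain ⟨e, he⟩ := exists_isDeg hq0
  have h2 : e < Nat.find h1 := by
    by_contra h3
    obtain ⟨⟨v, hv, hv'⟩, _⟩ := he
    exact hv' (hq' v (by omega))
  exact Nat.find_min h1 h2 ⟨q, hq, he⟩

/-- The common left multiples of two elements. -/
noncomputable def RR (h h' : NC k) : Submodule k (NC k) :=
  (LI h).restrictScalars k ⊓ (LI h').restrictScalars k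

theorem mem_RR {h h' p : NC k} : p ∈ RR h h' ↔ (∃ q, p = q * h) ∧ ∃ q, p = q * h' := by
  unfold RR
  rw [Submodule.mem_inf, Submodule.restrictScalars_mem, Submodule.restrictScalars_mem, mem_LI,
    mem_LI]

theorem Ncl_le_RR (h2 : L12S k) {f g h g' h' : NC k} {u w : List ℕ}
    (hf : IsLow f (u ++ w).length) (hc : cf (u ++ w) f ≠ 0) (hu : u ≠ []) (hgh : f = g * h)
    (hgh' : f = g' * h') (hg : IsLow g u.length) (hg' : ∃ e, u.length ≤ e ∧ IsLow g' e) :
    Ncl f u w ≤ RR h h' := by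
  obtain ⟨h3, h4⟩ := h2 f g h g' h' u w hf hc hgh hgh' hg hg'
  refine Ncl_le (fun x p hp => ?_) fun x => mem_RR.2 (h3 hu x)
  rw [mem_RR] at hp
  exact mem_RR.2 (h4 p hp.1 hp.2 x)

theorem good_imp (h2 : L12S k) {f : NC k} {u w : List ℕ} (hf : IsLow f (u ++ w).length)
    (hc : cf (u ++ w) f ≠ 0) (hu : u ≠ []) (hg : Good f u.length) :
    w = [] ∨ ∀ p ∈ Ncl f u w, eps p = 0 := by
  obtain ⟨g, h, hgh, hlow⟩ := hg
  by_cases hw : w = []
  · exact Or.inl hw
  · right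
    intro p hp
    obtain ⟨⟨q, hq⟩, _⟩ := mem_RR.1 (Ncl_le_RR h2 hf hc hu hgh hgh hlow ⟨_, le_rfl, hlow⟩ hp)
    have hh0 : h ≠ 0 := by
      rintro rfl
      rw [mul_zero] at hgh
      exact hf.ne_zero hgh
    obtain ⟨d, hd⟩ := exists_isLow hh0
    have h3 := hlow.mul hd
    rw [← hgh] at h3
    have h4 := hf.unique h3
    rw [List.length_append] at h4
    have h5 : 0 < w.length := List.length_pos_iff.2 hw
    rw [hq, eps_mul, eps_def h, hd.2 [] (by simp; omega), mul_zero]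

end P1

theorem p1 (k : Type) [Field k] (h1 : L11S k) (h2 : L12S k) : P1S k := by
  intro f u w hf hc hu
  have key : (w = [] ∨ ∀ p ∈ Ncl f u w, eps p = 0) →
      ∀ h, IsMin (Ncl f u w ⊔ Submodule.span k {f}) h →
      (∀ p ∈ Ncl f u w ⊔ Submodule.span k {f}, ∃ q, p = q * h) ∧ IsLow h w.length := by
    intro hw h hh
    refine h1 f u w (Ncl f u w) h hf hc (P1.Ncl_stab f u w) (Or.inr ⟨hu, P1.Ncl_lq f u w, ?_⟩) hh
    intro hw'
    exact hw.resolve_left hw'
  have hfm : f ∈ Ncl f u w ⊔ Submodule.span k {f} :=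
    Submodule.mem_sup_right (Submodule.mem_span_singleton_self f)
  refine ⟨⟨P1.good_imp h2 hf hc hu, fun hw => ?_⟩, fun hg h hh => ?_⟩
  · obtain ⟨h, hh⟩ := P1.exists_isMin (N := Ncl f u w ⊔ Submodule.span k {f})
      ⟨f, hfm, hf.ne_zero⟩
    obtain ⟨h3, h4⟩ := key hw h hh
    obtain ⟨g, hg⟩ := h3 f hfm
    have hg0 : g ≠ 0 := by
      rintro rfl
      rw [zero_mul] at hg
      exact hf.ne_zero hg
    obtain ⟨d, hd⟩ := exists_isLow hg0
    have h5 := hd.mul h4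
    rw [← hg] at h5
    have h6 := hf.unique h5
    rw [List.length_append] at h6
    have h7 : d = u.length := by omega
    exact ⟨g, h, hg, h7 ▸ hd⟩
  · obtain ⟨h3, h4⟩ := key (P1.good_imp h2 hf hc hu hg) h hh
    refine ⟨h4, h3 f hfm, fun g' h' hgh' hg' => ?_⟩
    obtain ⟨g₀, h₀, hgh₀, hlow₀⟩ := hg
    have h5 : Ncl f u w ⊔ Submodule.span k {f} ≤ (LI h').restrictScalars k := by
      refine sup_le ((P1.Ncl_le_RR h2 hf hc hu hgh₀ hgh' hlow₀ hg').trans inf_le_right) ?_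
      rw [Submodule.span_singleton_le_iff_mem, Submodule.restrictScalars_mem, mem_LI]
      exact ⟨g', hgh'⟩
    have h6 := h5 hh.1
    rw [Submodule.restrictScalars_mem, mem_LI] at h6
    exact h6

end Pool.Agent.H420_NCF
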