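import Pool.Agent.H420_NCF.Spec

/-!
# a small prime not dividing a given number (module PrimeB)
-/

namespace Pool.Agent.H420_NCF

open Pool.Agent.NPC Pool.Agent.NPC.H532 Pool.Agent.H687R2.LLL
open scoped Matrix

namespace PrimeB

/-- A nonzero number has fewer prime factors than binary digits. -/
theorem card_primeFactors_lt_size {D : ℕ} (hD : D ≠ 0) : D.primeFactors.card < D.size := by
  have h1 : 2 ^ D.primeFactors.card ≤ ∏ p ∈ D.primeFactors, p := by
    rw [← Finset.prod_const]
    exact Finset.prod_le_prod' fun p hp => (Nat.prime_of_mem_primeFactors hp).two_le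
  have h2 : ∏ p ∈ D.primeFactors, p ≤ D :=
    Nat.le_of_dvd (Nat.pos_of_ne_zero hD) (Nat.prod_primeFactors_dvd D)
  have h3 : D < 2 ^ D.size := Nat.lt_size_self D
  exact (Nat.pow_lt_pow_iff_right (by norm_num)).1 ((h1.trans h2).trans_lt h3)

theorem main {D n : ℕ} (hD : D ≠ 0) (hn : 0 < n)
    (h : ∀ p, p.Prime → p ≤ 2 * n → p ∣ D) : 4 ^ n ≤ (2 * n) ^ D.size := by
  have h1 := Nat.four_pow_le_two_mul_self_mul_centralBinom n hn
  have h2 : n.centralBinom ≤ (2 * n) ^ D.primeFactors.card := by
    calc n.centralBinom = ∏ p ∈ Finset.range (2 * n + 1), p ^ n.centralBinom.factorization p :=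
          (Nat.prod_pow_factorization_centralBinom n).symm
      _ = ∏ p ∈ (Finset.range (2 * n + 1)).filter Nat.Prime, p ^ n.centralBinom.factorization p := by
          rw [Finset.prod_filter]
          refine Finset.prod_congr rfl fun p _ => ?_
          split_ifs with hp
          · rfl
          · rw [Nat.factorization_eq_zero_of_not_prime _ hp, pow_zero]
      _ ≤ ∏ _p ∈ (Finset.range (2 * n + 1)).filter Nat.Prime, 2 * n := by
          refine Finset.prod_le_prod' fun p _ => ?_
          exact Nat.pow_factorization_choose_le (by omega)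
      _ = (2 * n) ^ ((Finset.range (2 * n + 1)).filter Nat.Prime).card := by
          rw [Finset.prod_const]
      _ ≤ (2 * n) ^ D.primeFactors.card := by
          refine Nat.pow_le_pow_right (by omega) (Finset.card_le_card fun p hp => ?_)
          rw [Finset.mem_filter, Finset.mem_range] at hp
          exact Nat.mem_primeFactors.2 ⟨hp.2, h p hp.2 (by omega), hD⟩
  calc 4 ^ n ≤ 2 * n * n.centralBinom := h1
    _ ≤ 2 * n * (2 * n) ^ D.primeFactors.card := Nat.mul_le_mul_left _ h2
    _ = (2 * n) ^ (D.primeFactors.card + 1) := by rw [pow_succ, mul_comm]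
    _ ≤ (2 * n) ^ D.size := Nat.pow_le_pow_right (by omega) (card_primeFactors_lt_size hD)

end PrimeB

theorem primeB : PrimeS := by
  refine ⟨16 * Polynomial.X ^ 2, fun D hD => ?_⟩
  have he : (16 * Polynomial.X ^ 2 : Polynomial ℕ).eval D.size = 2 * (8 * D.size ^ 2) := by
    rw [Polynomial.eval_mul, Polynomial.eval_pow, Polynomial.eval_X, Polynomial.eval_ofNat]; ring
  rw [he]
  have ht : 0 < D.size := Nat.size_pos.2 (Nat.pos_of_ne_zero hD)
  by_contra hcon
  push Not at hcon
  have h := PrimeB.main (n := 8 * D.size ^ 2) hD (by positivity) (fun p hp hle => by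
    by_contra hnd
    exact absurd hle (not_le.2 (hcon p hp hnd)))
  have h1 : (2 * (8 * D.size ^ 2)) ^ D.size = (4 * D.size) ^ (2 * D.size) := by
    rw [pow_mul]; congr 1; ring
  have h2 : 4 ^ (8 * D.size ^ 2) = (4 ^ (4 * D.size)) ^ (2 * D.size) := by
    rw [← pow_mul]; congr 1; ring
  rw [h1, h2] at h
  have h3 : 4 * D.size < 4 ^ (4 * D.size) := Nat.lt_pow_self (by norm_num)
  exact absurd h (not_le.2 (Nat.pow_lt_pow_left h3 (by omega)))

end Pool.Agent.H420_NCF
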