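import Pool.Agent.H420_NCF.Spec

/-!
# basic properties of the radical of a matrix algebra (module R0)
-/

namespace Pool.Agent.H420_NCF

open Pool.Agent.NPC Pool.Agent.NPC.H532 Pool.Agent.H687R2.LLL
open scoped Matrix

namespace R0

variable {k : Type} [Field k] {n : ℕ}

theorem mem_JJ {A : Subalgebra k (Matrix (Fin n) (Fin n) k)} {a : Matrix (Fin n) (Fin n) k} :
    a ∈ JJ A ↔ ∃ x : A, x ∈ Ring.jacobson A ∧ (x : Matrix (Fin n) (Fin n) k) = a := by
  unfold JJ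
  rw [Submodule.mem_map]
  constructor
  · rintro ⟨x, hx, rfl⟩
    exact ⟨x, hx, rfl⟩
  · rintro ⟨x, hx, rfl⟩
    exact ⟨x, hx, rfl⟩

theorem isNilpotent_of_mem (A : Subalgebra k (Matrix (Fin n) (Fin n) k)) (x : A)
    (hx : x ∈ Ring.jacobson A) : IsNilpotent x := by
  have : IsArtinianRing A := IsArtinianRing.of_finite k A
  obtain ⟨m, hm⟩ := IsSemiprimaryRing.isNilpotent (R := A)
  refine ⟨m, ?_⟩
  have h : x ^ m ∈ Ring.jacobson A ^ m := Ideal.pow_mem_pow hx m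
  rw [hm] at h
  exact h

theorem mem_jacobson_of_nilp {R : Type} [Ring R] (x : R) (h : ∀ y : R, IsNilpotent (x * y)) :
    x ∈ Ring.jacobson R := by
  rw [← Ideal.jacobson_bot, Ideal.mem_jacobson_iff]
  intro y
  have hyx : IsNilpotent (y * x) := by
    obtain ⟨m, hm⟩ := h y
    refine ⟨m + 1, ?_⟩
    have : (y * x) ^ (m + 1) = y * (x * y) ^ m * x := by
      have key : ∀ m : ℕ, (y * x) ^ (m + 1) = y * (x * y) ^ m * x := by
        intro m
        induction m with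
        | zero => simp
        | succ m ih =>
          rw [pow_succ, ih, pow_succ]
          simp only [mul_assoc]
      exact key m
    rw [this, hm, mul_zero, zero_mul]
  obtain ⟨u, hu⟩ := hyx.isUnit_add_one
  refine ⟨(u⁻¹ : Rˣ), ?_⟩
  rw [mul_assoc, ← mul_add_one, ← hu, Units.inv_mul, sub_self]
  exact Ideal.zero_mem _

end R0

theorem r0 (k : Type) [Field k] : R0S k := by
  intro n A
  refine ⟨?_, ?_, ?_⟩
  · intro a ha
    obtain ⟨x, hx, rfl⟩ := R0.mem_JJ.1 ha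
    refine ⟨x.2, ?_⟩
    have := R0.isNilpotent_of_mem A x hx
    exact this.map A.val
  · intro a ha b hb
    obtain ⟨x, hx, rfl⟩ := R0.mem_JJ.1 ha
    refine ⟨R0.mem_JJ.2 ⟨x * ⟨b, hb⟩, ?_, rfl⟩, R0.mem_JJ.2 ⟨⟨b, hb⟩ * x, ?_, rfl⟩⟩
    · exact Ideal.mul_mem_right _ _ hx
    · exact Ideal.mul_mem_left _ _ hx
  · intro a ha h
    refine R0.mem_JJ.2 ⟨⟨a, ha⟩, ?_, rfl⟩
    apply R0.mem_jacobson_of_nilp
    intro y
    obtain ⟨m, hm⟩ := h y y.2
    refine ⟨m, ?_⟩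
    apply Subtype.ext
    simpa using hm

end Pool.Agent.H420_NCF
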