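import Pool.Agent.H420_NCF.Spec

/-!
# The radical is the radical of the trace form (module R1)
-/

namespace Pool.Agent.H420_NCF

open Pool.Agent.NPC Pool.Agent.NPC.H532 Pool.Agent.H687R2.LLL
open scoped Matrix

theorem r1 (h : TRNS) (h0 : R0S ℚ) : R1S := by
  intro n A a
  obtain ⟨h1, h2, h3⟩ := h0 n A
  constructor
  · intro ha
    refine ⟨(h1 a ha).1, fun b hb => ?_⟩
    have := (h1 _ (h2 a ha b hb).1).2
    exact (Matrix.isNilpotent_trace_of_isNilpotent this).eq_zero
  · rintro ⟨ha, hb⟩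
    refine h3 a ha fun b hbA => ?_
    have hab : a * b ∈ A := A.mul_mem ha hbA
    have key : ∀ i : ℕ, 0 < i → Matrix.trace ((a * b) ^ i) = 0 := by
      intro i hi
      obtain ⟨j, rfl⟩ : ∃ j, i = j + 1 := ⟨i - 1, by omega⟩
      rw [pow_succ', mul_assoc]
      exact hb _ (A.mul_mem hbA (A.pow_mem hab j))
    have := h (Fin n → ℚ) (Matrix.toLin' (a * b)) (by
      intro i hi
      have e : (Matrix.toLin' (a * b)) ^ i = Matrix.toLin' ((a * b) ^ i) := by
        rw [Matrix.toLin'_pow]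
      rw [e, Matrix.trace_toLin'_eq]
      exact key i hi)
    obtain ⟨m, hm⟩ := this
    refine ⟨m, ?_⟩
    have e : (Matrix.toLin' (a * b)) ^ m = Matrix.toLin' ((a * b) ^ m) := by
      rw [Matrix.toLin'_pow]
    rw [e] at hm
    exact (LinearEquiv.map_eq_zero_iff _).1 hm

end Pool.Agent.H420_NCF
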