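import Pool.Agent.H420_NCF.Spec

/-!
# the radical acts nilpotently (module R2)
-/

namespace Pool.Agent.H420_NCF

open Pool.Agent.NPC Pool.Agent.NPC.H532 Pool.Agent.H687R2.LLL
open scoped Matrix

theorem r2 (k : Type) [Field k] (h0 : R0S k) : R2S k := by
  intro n A W hW hne
  have hle : wmul W (JJ A) ≤ W := by
    refine Submodule.span_le.mpr ?_
    rintro y ⟨w, hw, c, hc, rfl⟩
    exact hW w hw c ((h0 n A).1 c hc).1
  refine lt_of_le_of_ne hle fun heq => hne ?_
  have : IsArtinianRing A := isArtinian_of_tower k inferInstance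
  obtain ⟨N, hN⟩ := IsSemiprimaryRing.isNilpotent (R := A)
  have key : ∀ i : ℕ, W ≤ Submodule.span k
      {y | ∃ w ∈ W, ∃ a : A, a ∈ (Ring.jacobson A) ^ i ∧
        y = w ᵥ* (a : Matrix (Fin n) (Fin n) k)} := by
    intro i
    induction i with
    | zero =>
      intro w hw
      refine Submodule.subset_span ⟨w, hw, 1, ?_, ?_⟩
      · rw [Submodule.pow_zero, Ideal.one_eq_top]; exact Submodule.mem_top
      · rw [OneMemClass.coe_one, Matrix.vecMul_one]
    | succ i ih =>
      conv_lhs => rw [← heq]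
      refine Submodule.span_le.mpr ?_
      rintro y ⟨w, hw, c, hc, rfl⟩
      obtain ⟨c', hc', rfl⟩ := hc
      have hc'' : c' ∈ Ring.jacobson A := hc'
      have gen : ∀ w ∈ Submodule.span k
          {y | ∃ w ∈ W, ∃ a : A, a ∈ (Ring.jacobson A) ^ i ∧
            y = w ᵥ* (a : Matrix (Fin n) (Fin n) k)},
          w ᵥ* (c' : Matrix (Fin n) (Fin n) k) ∈ Submodule.span k
          {y | ∃ w ∈ W, ∃ a : A, a ∈ (Ring.jacobson A) ^ (i + 1) ∧
            y = w ᵥ* (a : Matrix (Fin n) (Fin n) k)} := by
        intro w hw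
        induction hw using Submodule.span_induction with
        | mem x hx =>
          obtain ⟨w', hw', a, ha, rfl⟩ := hx
          refine Submodule.subset_span ⟨w', hw', a * c', ?_, ?_⟩
          · rw [Submodule.pow_succ]; exact Submodule.mul_mem_mul ha hc''
          · rw [Matrix.vecMul_vecMul]; rfl
        | zero => rw [Matrix.zero_vecMul]; exact Submodule.zero_mem _
        | add x y _ _ hx hy => rw [Matrix.add_vecMul]; exact Submodule.add_mem _ hx hy
        | smul a x _ hx => rw [Matrix.smul_vecMul]; exact Submodule.smul_mem _ a hx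
      exact gen w (ih hw)
  rw [eq_bot_iff]
  intro w hw
  have h1 := key N hw
  refine (Submodule.span_le.mpr ?_ : _ ≤ (⊥ : Submodule k (Fin n → k))) h1
  rintro y ⟨w', _, a, ha, rfl⟩
  have ha0 : a = 0 := by
    have h2 : a ∈ (0 : Ideal A) := by rw [← hN]; exact ha
    exact h2
  rw [ha0, ZeroMemClass.coe_zero, Matrix.vecMul_zero]
  exact Submodule.zero_mem _

end Pool.Agent.H420_NCF
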