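import Pool.Agent.H420_NCF.Spec

namespace Pool.Agent.H420_NCF

open Pool.Agent.NPC Pool.Agent.NPC.H532 Pool.Agent.H687R2.LLL
open scoped Matrix

namespace R3

/-- General lemma on semisimple modules over an algebra. -/
theorem gl (k : Type) [Field k] (R : Type) [Ring R] [Algebra k R] [IsSemisimpleRing R]
    (Y : Type) [AddCommGroup Y] [Module k Y] [Module R Y] [IsScalarTower k R Y]
    [FiniteDimensional k Y]
    (Y₁ : Submodule R Y) (h1 : Y₁ ≠ ⊥) (h2 : Y₁ ≠ ⊤)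
    (hiso : ∀ S T : Submodule R Y, IsSimpleModule R S → IsSimpleModule R T →
      Nonempty (S ≃ₗ[R] T)) :
    ∃ (d : ℕ) (s t : Fin d → Y) (B : R → Fin d → Fin d → k), 0 < d ∧
      (∀ a b : Fin d → k, ∑ i, a i • s i + ∑ i, b i • t i = 0 → a = 0 ∧ b = 0) ∧
      (∀ r i, r • s i = ∑ j, B r i j • s j) ∧ (∀ r i, r • t i = ∑ j, B r i j • t j) := by
  obtain ⟨Y₂, hc⟩ := exists_isCompl Y₁
  have h3 : Y₂ ≠ ⊥ := by
    rintro rfl; exact h2 (by simpa using hc.sup_eq_top)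
  obtain ⟨S, hS, hSle⟩ := (eq_bot_or_exists_atom_le Y₁).resolve_left h1
  obtain ⟨T, hT, hTle⟩ := (eq_bot_or_exists_atom_le Y₂).resolve_left h3
  rw [← isSimpleModule_iff_isAtom] at hS hT
  obtain ⟨e⟩ := hiso S T hS hT
  have hdisj : Disjoint S T := hc.disjoint.mono hSle hTle
  have hfin : Module.Finite k S :=
    Module.Finite.of_injective (S.subtype.restrictScalars k) Subtype.val_injective
  let bs : Module.Basis (Fin (Module.finrank k S)) k S := Module.finBasis k S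
  have hnt : Nontrivial S := IsSimpleModule.nontrivial R S
  have hks : ∀ (c : k) (x : S), e (c • x) = c • e x := by
    intro c x
    rw [← algebraMap_smul R c x, ← algebraMap_smul R c (e x), map_smul]
  refine ⟨Module.finrank k S, fun i => (bs i : Y), fun i => (e (bs i) : Y),
    fun r i j => bs.repr (r • bs i) j, Module.finrank_pos, ?_, ?_, ?_⟩
  · intro a b hab
    have hx : ∑ i, a i • (bs i : Y) = ((∑ i, a i • bs i : S) : Y) := by
      simp
    have hy : ∑ i, b i • (e (bs i) : Y) = ((e (∑ i, b i • bs i) : T) : Y) := by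
      rw [map_sum]
      simp [hks]
    rw [hx, hy] at hab
    have hz : ((∑ i, a i • bs i : S) : Y) = 0 := by
      have hmem : ((∑ i, a i • bs i : S) : Y) ∈ S ⊓ T := by
        refine ⟨Subtype.mem _, ?_⟩
        rw [eq_neg_of_add_eq_zero_left hab]
        exact T.neg_mem (Subtype.mem _)
      rw [hdisj.eq_bot] at hmem
      simpa using hmem
    have hz2 : ((e (∑ i, b i • bs i) : T) : Y) = 0 := by
      rw [hz, zero_add] at hab; exact hab
    have hz' : (∑ i, a i • bs i : S) = 0 := by exact_mod_cast hz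
    have hz2' : (∑ i, b i • bs i : S) = 0 := by
      have : e (∑ i, b i • bs i) = 0 := by exact_mod_cast hz2
      exact e.map_eq_zero_iff.1 this
    constructor
    · ext i
      exact Fintype.linearIndependent_iff.1 bs.linearIndependent a hz' i
    · ext i
      exact Fintype.linearIndependent_iff.1 bs.linearIndependent b hz2' i
  · intro r i
    have := congrArg (Subtype.val) (bs.sum_repr (r • bs i))
    simp only [Submodule.coe_sum, Submodule.coe_smul] at this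
    rw [← this]
    simp
  · intro r i
    have h4 : r • e (bs i) = ∑ j, (bs.repr (r • bs i) j) • e (bs j) := by
      rw [← map_smul]
      conv_lhs => rw [← bs.sum_repr (r • bs i)]
      rw [map_sum]
      simp [hks]
    have := congrArg (Subtype.val) h4
    simpa using this


section setup
variable {k : Type} [Field k] {n : ℕ} (A : Subalgebra k (Matrix (Fin n) (Fin n) k))

theorem mem_JJ_of_op (h0 : R0S k) (x : (↥A)ᵐᵒᵖ) (hx : x ∈ Ring.jacobson (↥A)ᵐᵒᵖ) :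
    (x.unop : Matrix (Fin n) (Fin n) k) ∈ JJ A := by
  have hart : IsArtinianRing (↥A)ᵐᵒᵖ := IsArtinianRing.of_finite k _
  refine (h0 n A).2.2 _ x.unop.2 fun b hb => ?_
  have h1 : MulOpposite.op (⟨b, hb⟩ : ↥A) * x ∈ Ring.jacobson (↥A)ᵐᵒᵖ :=
    Ideal.mul_mem_left _ _ hx
  obtain ⟨N, hN⟩ := IsSemiprimaryRing.isNilpotent (R := (↥A)ᵐᵒᵖ)
  have h2 : (MulOpposite.op (⟨b, hb⟩ : ↥A) * x) ^ N = 0 := by
    have := Ideal.pow_mem_pow h1 N
    rw [hN] at this
    simpa using this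
  refine ⟨N, ?_⟩
  have h3 := congrArg (fun y : (↥A)ᵐᵒᵖ => ((y.unop : ↥A) : Matrix (Fin n) (Fin n) k)) h2
  simpa using h3

variable (N' M : Submodule k (Fin n → k)) (hN : ∀ w ∈ N', ∀ a ∈ A, w ᵥ* a ∈ N')
  (hM : ∀ w ∈ M, ∀ a ∈ A, w ᵥ* a ∈ M)

/-- The quotient space. -/
abbrev Yq := (↥M) ⧸ (N'.submoduleOf M)

theorem mk_sum {d : ℕ} (c : Fin d → k) (v : Fin d → ↥M) :
    (Submodule.Quotient.mk (∑ i, c i • v i) : Yq N' M) =
      ∑ i, c i • (Submodule.Quotient.mk (v i) : Yq N' M) := by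
  rw [← Submodule.mkQ_apply, map_sum]
  rfl

/-- The action of one matrix. -/
noncomputable def act (a : ↥A) : Yq N' M →ₗ[k] Yq N' M :=
  Submodule.mapQ _ _ ((Matrix.vecMulLinear (a : Matrix (Fin n) (Fin n) k)).restrict
    (p := M) (q := M) (fun w hw => hM w hw a a.2)) (fun _ hw => hN _ hw a a.2)

theorem act_mk (a : ↥A) (w : ↥M) : act A N' M hN hM a (Submodule.Quotient.mk w) =
    Submodule.Quotient.mk ⟨(w : Fin n → k) ᵥ* (a : Matrix (Fin n) (Fin n) k), hM w w.2 a a.2⟩ := rfl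

/-- The action of the opposite algebra. -/
noncomputable def rho : (↥A)ᵐᵒᵖ →ₐ[k] Module.End k (Yq N' M) where
  toFun x := act A N' M hN hM x.unop
  map_one' := by
    apply LinearMap.ext; intro y
    obtain ⟨w, rfl⟩ := Submodule.Quotient.mk_surjective _ y
    rw [act_mk]
    simp
  map_mul' x y := by
    apply LinearMap.ext; intro z
    obtain ⟨w, rfl⟩ := Submodule.Quotient.mk_surjective _ z
    rw [Module.End.mul_apply, act_mk, act_mk, act_mk]
    simp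
  map_zero' := by
    apply LinearMap.ext; intro y
    obtain ⟨w, rfl⟩ := Submodule.Quotient.mk_surjective _ y
    rw [act_mk]
    simp
    exact (N'.submoduleOf M).zero_mem
  map_add' x y := by
    apply LinearMap.ext; intro z
    obtain ⟨w, rfl⟩ := Submodule.Quotient.mk_surjective _ z
    rw [LinearMap.add_apply, act_mk, act_mk, act_mk, ← Submodule.Quotient.mk_add]
    congr 1
    ext1
    simp [Matrix.vecMul_add]
  commutes' c := by
    apply LinearMap.ext; intro z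
    obtain ⟨w, rfl⟩ := Submodule.Quotient.mk_surjective _ z
    rw [act_mk, Module.algebraMap_end_apply, ← Submodule.Quotient.mk_smul]
    congr 1
    ext1
    simp [Algebra.algebraMap_eq_smul_one, Matrix.vecMul_smul]

end setup

end R3

theorem r3 (k : Type) [Field k] (h0 : R0S k) (hc : CENS) : R3S k := by
  intro n A m hm N' N'' M hlt1 hlt2 hN' hN'' hM hwm
  have hact : ∀ w ∈ M, ∀ c ∈ m, w ᵥ* c ∈ N' := fun w hw c hc =>
    hwm (Submodule.subset_span ⟨w, hw, c, hc, rfl⟩)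
  have hart : IsArtinianRing (↥A)ᵐᵒᵖ := IsArtinianRing.of_finite k _
  have hss : IsSemisimpleRing ((↥A)ᵐᵒᵖ ⧸ Ring.jacobson (↥A)ᵐᵒᵖ) :=
    IsSemiprimaryRing.isSemisimpleRing
  have hkill : ∀ x ∈ Ring.jacobson (↥A)ᵐᵒᵖ, R3.rho A N' M hN' hM x = 0 := by
    intro x hx
    apply LinearMap.ext; intro z
    obtain ⟨w, rfl⟩ := Submodule.Quotient.mk_surjective _ z
    change R3.act A N' M hN' hM x.unop _ = 0
    rw [R3.act_mk, Submodule.Quotient.mk_eq_zero]
    exact hact w w.2 _ (hm.J_le (R3.mem_JJ_of_op A h0 x hx))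
  let ρ : ((↥A)ᵐᵒᵖ ⧸ Ring.jacobson (↥A)ᵐᵒᵖ) →ₐ[k] Module.End k (R3.Yq N' M) :=
    Ideal.Quotient.liftₐ (Ring.jacobson (↥A)ᵐᵒᵖ) (R3.rho A N' M hN' hM) hkill
  have hρ : ∀ (a : ↥A) (w : ↥M), ρ (Ideal.Quotient.mk _ (MulOpposite.op a))
      (Submodule.Quotient.mk w) = Submodule.Quotient.mk
        ⟨(w : Fin n → k) ᵥ* (a : Matrix (Fin n) (Fin n) k), hM w w.2 a a.2⟩ := fun a w => rfl
  let iM : Module ((↥A)ᵐᵒᵖ ⧸ Ring.jacobson (↥A)ᵐᵒᵖ) (R3.Yq N' M) :=
    Module.compHom _ ρ.toRingHom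
  have hsm : ∀ (a : ↥A) (w : ↥M),
      (Ideal.Quotient.mk (Ring.jacobson (↥A)ᵐᵒᵖ) (MulOpposite.op a)) •
      (Submodule.Quotient.mk w : R3.Yq N' M) = Submodule.Quotient.mk
        ⟨(w : Fin n → k) ᵥ* (a : Matrix (Fin n) (Fin n) k), hM w w.2 a a.2⟩ := fun a w => rfl
  have hst : IsScalarTower k ((↥A)ᵐᵒᵖ ⧸ Ring.jacobson (↥A)ᵐᵒᵖ) (R3.Yq N' M) := by
    refine ⟨fun c r y => ?_⟩
    change ρ (c • r) y = c • (ρ r y)
    rw [map_smul]; rfl
  let Y₁ : Submodule ((↥A)ᵐᵒᵖ ⧸ Ring.jacobson (↥A)ᵐᵒᵖ) (R3.Yq N' M) :=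
    { carrier := {y | ∃ w : ↥M, (w : Fin n → k) ∈ N'' ∧ Submodule.Quotient.mk w = y}
      add_mem' := by
        rintro _ _ ⟨w, hw, rfl⟩ ⟨v, hv, rfl⟩
        exact ⟨w + v, N''.add_mem hw hv, rfl⟩
      zero_mem' := ⟨0, N''.zero_mem, rfl⟩
      smul_mem' := by
        rintro r _ ⟨w, hw, rfl⟩
        obtain ⟨x, rfl⟩ := Ideal.Quotient.mk_surjective r
        exact ⟨⟨(w : Fin n → k) ᵥ* (x.unop : Matrix (Fin n) (Fin n) k), hM w w.2 _ x.unop.2⟩,
          hN'' w hw _ x.unop.2, rfl⟩ }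
  have hY1 : Y₁ ≠ ⊥ := by
    intro h
    obtain ⟨w, hw, hw'⟩ := SetLike.exists_of_lt hlt1
    have h1 : (Submodule.Quotient.mk ⟨w, hlt2.le hw⟩ : R3.Yq N' M) ∈ Y₁ := ⟨⟨w, hlt2.le hw⟩, hw, rfl⟩
    rw [h, Submodule.mem_bot, Submodule.Quotient.mk_eq_zero] at h1
    exact hw' h1
  have hY2 : Y₁ ≠ ⊤ := by
    intro h
    obtain ⟨w, hw, hw'⟩ := SetLike.exists_of_lt hlt2
    have h1 : (Submodule.Quotient.mk ⟨w, hw⟩ : R3.Yq N' M) ∈ Y₁ := by rw [h]; trivial
    obtain ⟨v, hv, hv'⟩ := h1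
    rw [Submodule.Quotient.eq] at hv'
    have h2 : (v : Fin n → k) - w ∈ N'' := hlt1.le hv'
    exact hw' ((Submodule.sub_mem_iff_right _ hv).1 h2)
  have hiso : ∀ S T : Submodule ((↥A)ᵐᵒᵖ ⧸ Ring.jacobson (↥A)ᵐᵒᵖ) (R3.Yq N' M),
      IsSimpleModule ((↥A)ᵐᵒᵖ ⧸ Ring.jacobson (↥A)ᵐᵒᵖ) S →
      IsSimpleModule ((↥A)ᵐᵒᵖ ⧸ Ring.jacobson (↥A)ᵐᵒᵖ) T →
      Nonempty (S ≃ₗ[(↥A)ᵐᵒᵖ ⧸ Ring.jacobson (↥A)ᵐᵒᵖ] T) := by
    intro S T hS hT
    by_contra hne
    rw [not_nonempty_iff] at hne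
    obtain ⟨z, hz, hzS, hzT⟩ := hc ((↥A)ᵐᵒᵖ ⧸ Ring.jacobson (↥A)ᵐᵒᵖ) S T hne
    obtain ⟨x, rfl⟩ := Ideal.Quotient.mk_surjective z
    have hcc : (x.unop : Matrix (Fin n) (Fin n) k) ∈ CC A := by
      refine ⟨x.unop.2, fun a ha => ?_⟩
      have h1 := hz (Ideal.Quotient.mk _ (MulOpposite.op (⟨a, ha⟩ : ↥A)))
      rw [← map_mul, ← map_mul, ← sub_eq_zero, ← map_sub, Ideal.Quotient.eq_zero_iff_mem] at h1
      have h2 := R3.mem_JJ_of_op A h0 _ h1
      have h3 := (JJ A).neg_mem h2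
      simpa using h3
    by_cases hcm : (x.unop : Matrix (Fin n) (Fin n) k) ∈ m
    · have hnt : Nontrivial S := IsSimpleModule.nontrivial
        ((↥A)ᵐᵒᵖ ⧸ Ring.jacobson (↥A)ᵐᵒᵖ) S
      obtain ⟨s, hs⟩ := exists_ne (0 : S)
      obtain ⟨w, hw⟩ := Submodule.Quotient.mk_surjective _ (s : R3.Yq N' M)
      apply hs
      have h1 := congrArg Subtype.val (hzS s)
      rw [Submodule.coe_smul, ← hw] at h1
      have h2 : (Submodule.Quotient.mk
        ⟨(w : Fin n → k) ᵥ* (x.unop : Matrix (Fin n) (Fin n) k), hM w w.2 x.unop x.unop.2⟩ :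
          R3.Yq N' M) = Submodule.Quotient.mk w := h1
      have h3 : (Submodule.Quotient.mk
        ⟨(w : Fin n → k) ᵥ* (x.unop : Matrix (Fin n) (Fin n) k), hM w w.2 x.unop x.unop.2⟩ :
          R3.Yq N' M) = 0 := by
        rw [Submodule.Quotient.mk_eq_zero]
        exact hact w w.2 _ hcm
      rw [h3] at h2
      apply Subtype.ext
      rw [← hw, ← h2]
      rfl
    · obtain ⟨e, he, hem⟩ := hm.inv _ hcc hcm
      have hnt : Nontrivial T := IsSimpleModule.nontrivial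
        ((↥A)ᵐᵒᵖ ⧸ Ring.jacobson (↥A)ᵐᵒᵖ) T
      obtain ⟨t, ht⟩ := exists_ne (0 : T)
      obtain ⟨w, hw⟩ := Submodule.Quotient.mk_surjective _ (t : R3.Yq N' M)
      apply ht
      have h1 := congrArg Subtype.val (hzT t)
      rw [Submodule.coe_smul, ← hw] at h1
      have h2 : (Submodule.Quotient.mk
        ⟨(w : Fin n → k) ᵥ* (x.unop : Matrix (Fin n) (Fin n) k), hM w w.2 x.unop x.unop.2⟩ :
          R3.Yq N' M) = 0 := h1
      rw [Submodule.Quotient.mk_eq_zero] at h2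
      have h3 : (w : Fin n → k) ᵥ* (x.unop : Matrix (Fin n) (Fin n) k) ∈ N' := h2
      have h4 := hN' _ h3 e he.1
      have h5 := hact w w.2 _ hem
      rw [Matrix.vecMul_vecMul] at h4
      rw [Matrix.vecMul_sub, Matrix.vecMul_one] at h5
      have h6 : (w : Fin n → k) ∈ N' := (Submodule.sub_mem_iff_right _ h4).1 h5
      apply Subtype.ext
      rw [← hw]
      exact (Submodule.Quotient.mk_eq_zero _).2 h6
  obtain ⟨d, s, t, B, hd, hind, hs, ht⟩ := R3.gl k ((↥A)ᵐᵒᵖ ⧸ Ring.jacobson (↥A)ᵐᵒᵖ)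
    (R3.Yq N' M) Y₁ hY1 hY2 hiso
  have hsl : ∀ i, ∃ w : ↥M, (Submodule.Quotient.mk w : R3.Yq N' M) = s i := fun i =>
    Submodule.Quotient.mk_surjective _ (s i)
  have htl : ∀ i, ∃ w : ↥M, (Submodule.Quotient.mk w : R3.Yq N' M) = t i := fun i =>
    Submodule.Quotient.mk_surjective _ (t i)
  choose s' hs' using hsl
  choose t' ht' using htl
  classical
  refine ⟨d, fun i => s' i, fun i => t' i, fun a i j => if h : a ∈ A then
    B (Ideal.Quotient.mk _ (MulOpposite.op ⟨a, h⟩)) i j else 0, hd, fun i => (s' i).2,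
    fun i => (t' i).2, ?_, ?_, ?_⟩
  · intro a b hab
    apply hind
    have h1 : (Submodule.Quotient.mk (∑ i, a i • s' i + ∑ i, b i • t' i) : R3.Yq N' M) = 0 := by
      rw [Submodule.Quotient.mk_eq_zero]
      change (((∑ i, a i • s' i + ∑ i, b i • t' i : ↥M)) : Fin n → k) ∈ N'
      simpa using hab
    rw [← h1, Submodule.Quotient.mk_add, R3.mk_sum, R3.mk_sum]
    simp only [hs', ht']
  · intro a ha i
    have h1 := hs (Ideal.Quotient.mk _ (MulOpposite.op ⟨a, ha⟩)) i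
    simp only [← hs'] at h1
    rw [hsm, ← R3.mk_sum, Submodule.Quotient.eq] at h1
    have h2 := h1
    change _ ∈ N' at h2
    simpa [dif_pos ha] using h2
  · intro a ha i
    have h1 := ht (Ideal.Quotient.mk _ (MulOpposite.op ⟨a, ha⟩)) i
    simp only [← ht'] at h1
    rw [hsm, ← R3.mk_sum, Submodule.Quotient.eq] at h1
    have h2 := h1
    change _ ∈ N' at h2
    simpa [dif_pos ha] using h2

end Pool.Agent.H420_NCF
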