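import Pool.Agent.H420_NCF.Spec

/-!
# Selection of independent vectors (module SelMod)
-/

namespace Pool.Agent.H420_NCF

open Pool.Agent.NPC Pool.Agent.NPC.H532 Pool.Agent.H687R2.LLL
open scoped Matrix

namespace SelMod

/-- One step of the selection. -/
def step (f : List (List ℤ) × List ℤ → Bool) (K kept : List (List ℤ)) (v : List ℤ) :
    List (List ℤ) :=
  bif f (K ++ kept, v) then kept else kept ++ [v]

/-- The selection. -/
def sel (f : List (List ℤ) × List ℤ → Bool) (a : List (List ℤ) × List (List ℤ)) :
    List (List ℤ) :=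
  a.2.foldl (fun kept v => step f a.1 kept v) []

theorem sz_step (f : List (List ℤ) × List ℤ → Bool) (K kept : List (List ℤ)) (v : List ℤ) :
    sz (step f K kept v) ≤ sz kept + sz v + 1 := by
  unfold step
  have h1 := sz_append kept [v]
  rw [sz_list_cons, sz_list_nil] at h1
  cases f (K ++ kept, v)
  · rw [cond_false]; omega
  · rw [cond_true]; omega

theorem sz_fold (f : List (List ℤ) × List ℤ → Bool) (K : List (List ℤ)) :
    ∀ (L kept : List (List ℤ)),
      sz (L.foldl (fun kept v => step f K kept v) kept) + 1 ≤ sz kept + sz L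
  | [], kept => by simp
  | v :: L, kept => by
    rw [List.foldl_cons]
    have h1 := sz_fold f K L (step f K kept v)
    have h2 := sz_step f K kept v
    rw [sz_list_cons]
    omega

theorem poly_sel (f : List (List ℤ) × List ℤ → Bool) (hf : Poly f) : Poly (sel f) := by
  have h1 : Poly (fun p : (List (List ℤ) × List (List ℤ)) × List (List ℤ) × List ℤ =>
      step f p.1.1 p.2.1 p.2.2) := by
    refine Poly.cond (hf.comp (Poly.pair (Poly.append (Poly.fst (Poly.fst Poly.id))
      (Poly.fst (Poly.snd Poly.id))) (Poly.snd (Poly.snd Poly.id)))) (Poly.fst (Poly.snd Poly.id)) ?_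
    exact Poly.append (Poly.fst (Poly.snd Poly.id))
      (Poly.cons (Poly.snd (Poly.snd Poly.id)) (Pool.Agent.NPC.Poly.const []))
  refine Poly_foldl (F := fun (a : List (List ℤ) × List (List ℤ)) kept v => step f a.1 kept v)
    (l := fun a : List (List ℤ) × List (List ℤ) => a.2)
    (s := fun _ => []) (Poly.snd Poly.id) (Pool.Agent.NPC.Poly.const []) h1 (fun a => sz a.2)
    (PB.sz (Poly.snd Poly.id)) ?_
  intro a k _
  have h2 := sz_fold f a.1 (a.2.take k) []
  have h3 := Poly.sz_take_le a.2 k
  rw [sz_list_nil] at h2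
  omega

theorem vspan_nil (n : ℕ) : vspan n [] = ⊥ := by
  unfold vspan
  rw [Submodule.span_eq_bot]
  rintro _ ⟨v, hv, _⟩
  simp at hv

theorem vspan_append (n : ℕ) (K L : List (List ℤ)) : vspan n (K ++ L) = vspan n K ⊔ vspan n L := by
  unfold vspan
  rw [← Submodule.span_union]
  congr 1
  ext w
  simp only [Set.mem_ofPred_eq, Set.mem_union, List.mem_append]
  constructor
  · rintro ⟨v, hv | hv, rfl⟩
    · exact Or.inl ⟨v, hv, rfl⟩
    · exact Or.inr ⟨v, hv, rfl⟩
  · rintro (⟨v, hv, rfl⟩ | ⟨v, hv, rfl⟩)
    · exact ⟨v, Or.inl hv, rfl⟩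
    · exact ⟨v, Or.inr hv, rfl⟩

theorem vspan_single (n : ℕ) (v : List ℤ) : vspan n [v] = Submodule.span ℚ {vq n v} := by
  unfold vspan
  congr 1
  ext w
  simp

theorem vspan_cons (n : ℕ) (v : List ℤ) (L : List (List ℤ)) :
    vspan n (v :: L) = Submodule.span ℚ {vq n v} ⊔ vspan n L := by
  rw [← vspan_single, ← vspan_append]; rfl

theorem mem_vspan_sum (n : ℕ) (L : List (List ℤ)) (c : ℕ → ℚ) :
    ∑ i ∈ Finset.range L.length, c i • vq n (L.getD i []) ∈ vspan n L := by
  refine Submodule.sum_mem _ fun i hi => Submodule.smul_mem _ _ (Submodule.subset_span ?_)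
  rw [Finset.mem_range] at hi
  refine ⟨L.getD i [], ?_, rfl⟩
  rw [List.getD_eq_getElem _ _ hi]
  exact List.getElem_mem hi

/-- Independence modulo the span of `K`. -/
def IndM (n : ℕ) (K L : List (List ℤ)) : Prop :=
  ∀ c : ℕ → ℚ, ∑ i ∈ Finset.range L.length, c i • vq n (L.getD i []) ∈ vspan n K →
    ∀ i < L.length, c i = 0

theorem IndM.snoc {n : ℕ} {K L : List (List ℤ)} (h : IndM n K L) {v : List ℤ}
    (hv : vq n v ∉ vspan n (K ++ L)) : IndM n K (L ++ [v]) := by
  intro c hc
  rw [List.length_append, List.length_singleton, Finset.sum_range_succ] at hc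
  have h1 : ∑ i ∈ Finset.range L.length, c i • vq n ((L ++ [v]).getD i []) =
      ∑ i ∈ Finset.range L.length, c i • vq n (L.getD i []) := by
    refine Finset.sum_congr rfl fun i hi => ?_
    rw [Finset.mem_range] at hi
    rw [List.getD_append _ _ _ _ hi]
  have h2 : (L ++ [v]).getD L.length [] = v := by
    rw [List.getD_append_right _ _ _ _ le_rfl]; simp
  rw [h1, h2] at hc
  have h3 : c L.length = 0 := by
    by_contra hne
    apply hv
    rw [vspan_append]
    have h4 : c L.length • vq n v ∈ vspan n K ⊔ vspan n L := by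
      have h5 := Submodule.sub_mem _ (Submodule.mem_sup_left (T := vspan n L) hc)
        (Submodule.mem_sup_right (S := vspan n K) (mem_vspan_sum n L c))
      rwa [add_sub_cancel_left] at h5
    have h6 := Submodule.smul_mem _ (c L.length)⁻¹ h4
    rwa [smul_smul, inv_mul_cancel₀ hne, one_smul] at h6
  rw [h3, zero_smul, add_zero] at hc
  intro i hi
  rw [List.length_append, List.length_singleton] at hi
  rcases Nat.lt_succ_iff_lt_or_eq.1 hi with hi | hi
  · exact h c hc i hi
  · rw [hi]; exact h3

theorem inv (f : List (List ℤ) × List ℤ → Bool) (n : ℕ)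
    (hf : ∀ (L : List (List ℤ)) (v : List ℤ), (∀ w ∈ L, w.length = n) → v.length = n →
      (f (L, v) = true ↔ vq n v ∈ vspan n L)) (K : List (List ℤ)) (hK : ∀ v ∈ K, v.length = n) :
    ∀ (L kept : List (List ℤ)), (∀ v ∈ L, v.length = n) → (∀ v ∈ kept, v.length = n) →
      (∀ v ∈ L.foldl (fun kept v => step f K kept v) kept, v ∈ kept ∨ v ∈ L) ∧
      (IndM n K kept → IndM n K (L.foldl (fun kept v => step f K kept v) kept)) ∧
      vspan n K ⊔ vspan n (L.foldl (fun kept v => step f K kept v) kept) =
        vspan n K ⊔ vspan n kept ⊔ vspan n L ∧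
      kept <+: L.foldl (fun kept v => step f K kept v) kept
  | [], kept, _, _ => by
    rw [List.foldl_nil, vspan_nil, sup_bot_eq]
    exact ⟨fun v hv => Or.inl hv, fun h => h, rfl, List.prefix_rfl⟩
  | v :: L, kept, hL, hkept => by
    rw [List.foldl_cons]
    have hv : v.length = n := hL v (by simp)
    have hL' : ∀ v ∈ L, v.length = n := fun w hw => hL w (by simp [hw])
    have hcat : ∀ w ∈ K ++ kept, w.length = n := by
      intro w hw
      rcases List.mem_append.1 hw with h | h
      · exact hK w h
      · exact hkept w h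
    have hfv := hf (K ++ kept) v hcat hv
    by_cases hm : f (K ++ kept, v) = true
    · have hs : step f K kept v = kept := by unfold step; rw [hm, cond_true]
      rw [hs]
      obtain ⟨i1, i2, i3, i4⟩ := inv f n hf K hK L kept hL' hkept
      refine ⟨fun w hw => ?_, i2, ?_, i4⟩
      · rcases i1 w hw with h | h
        · exact Or.inl h
        · exact Or.inr (List.mem_cons_of_mem _ h)
      · rw [i3, vspan_cons]
        have h1 : Submodule.span ℚ {vq n v} ≤ vspan n K ⊔ vspan n kept := by
          rw [Submodule.span_singleton_le_iff_mem, ← vspan_append]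
          exact hfv.1 hm
        rw [← sup_assoc, sup_eq_left.2 h1]
    · have hs : step f K kept v = kept ++ [v] := by
        unfold step
        rw [Bool.not_eq_true] at hm
        rw [hm, cond_false]
      rw [hs]
      have hkept' : ∀ w ∈ kept ++ [v], w.length = n := by
        intro w hw
        rcases List.mem_append.1 hw with h | h
        · exact hkept w h
        · rw [List.mem_singleton.1 h]; exact hv
      obtain ⟨i1, i2, i3, i4⟩ := inv f n hf K hK L (kept ++ [v]) hL' hkept'
      refine ⟨fun w hw => ?_, fun h => i2 (h.snoc (fun h' => hm (hfv.2 h'))), ?_,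
        (List.prefix_append _ _).trans i4⟩
      · rcases i1 w hw with h | h
        · rcases List.mem_append.1 h with h | h
          · exact Or.inl h
          · rw [List.mem_singleton.1 h]; exact Or.inr (by simp)
        · exact Or.inr (List.mem_cons_of_mem _ h)
      · rw [i3, vspan_cons, vspan_append, vspan_single]
        simp only [sup_assoc]

end SelMod

theorem selMod (h : MemS) : SelModS ∧ SelS := by
  obtain ⟨f, hf, hmem⟩ := h
  have key : ∀ (n : ℕ) (K L : List (List ℤ)), (∀ v ∈ K, v.length = n) → (∀ v ∈ L, v.length = n) →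
    (∀ v ∈ SelMod.sel f (K, L), v ∈ L) ∧
    (∀ c : Fin (SelMod.sel f (K, L)).length → ℚ,
      ∑ i, c i • vq n ((SelMod.sel f (K, L)).getD i []) ∈ vspan n K → c = 0) ∧
    vspan n K ⊔ vspan n (SelMod.sel f (K, L)) = vspan n K ⊔ vspan n L ∧
    ∀ v L', L = v :: L' → vq n v ∉ vspan n K → (SelMod.sel f (K, L)).head? = some v := by
    intro n K L hK hL
    obtain ⟨i1, i2, i3, i4⟩ := SelMod.inv f n (hmem n) K hK L [] hL (by simp)
    refine ⟨fun v hv => ?_, fun c hc => ?_, ?_, fun v L' hLv hv => ?_⟩
    · rcases i1 v hv with h | h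
      · simp at h
      · exact h
    · have h1 := i2 (fun c _ i hi => absurd hi (by simp))
        (fun i => if h : i < (SelMod.sel f (K, L)).length then c ⟨i, h⟩ else 0)
      have h2 : ∑ i ∈ Finset.range (SelMod.sel f (K, L)).length,
          (if h : i < (SelMod.sel f (K, L)).length then c ⟨i, h⟩ else 0) •
            vq n ((SelMod.sel f (K, L)).getD i []) =
          ∑ i, c i • vq n ((SelMod.sel f (K, L)).getD i []) := by
        rw [Finset.sum_range]
        refine Finset.sum_congr rfl fun i _ => ?_
        rw [dif_pos i.2]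
      have h3 := h1 (by
        change ∑ i ∈ Finset.range (SelMod.sel f (K, L)).length,
          (if h : i < (SelMod.sel f (K, L)).length then c ⟨i, h⟩ else 0) •
            vq n ((SelMod.sel f (K, L)).getD i []) ∈ vspan n K
        rw [h2]; exact hc)
      funext i
      have h4 := h3 i i.2
      simpa using h4
    · change vspan n K ⊔ vspan n (SelMod.sel f (K, L)) = _ at i3
      rw [i3, SelMod.vspan_nil, sup_bot_eq]
    · subst hLv
      have h1 : SelMod.step f K [] v = [v] := by
        unfold SelMod.step
        have h2 : ¬ f (K ++ [], v) = true := by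
          rw [hmem n (K ++ []) v (by simpa using hK) (hL v (by simp))]
          simpa using hv
        rw [Bool.not_eq_true] at h2
        rw [h2, cond_false]; rfl
      obtain ⟨-, -, -, j4⟩ := SelMod.inv f n (hmem n) K hK L' [v]
        (fun w hw => hL w (by simp [hw])) (by simpa using hL v (by simp))
      have h3 : SelMod.sel f (K, v :: L') =
          L'.foldl (fun kept v => SelMod.step f K kept v) [v] := by
        unfold SelMod.sel
        change List.foldl _ [] (v :: L') = _
        rw [List.foldl_cons, h1]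
      rw [h3]
      obtain ⟨t, ht⟩ := j4
      rw [← ht]; rfl
  refine ⟨⟨SelMod.sel f, SelMod.poly_sel f hf, key⟩, fun L => SelMod.sel f ([], L),
    (SelMod.poly_sel f hf).comp (Poly.pair (Pool.Agent.NPC.Poly.const []) Poly.id), fun n L hL => ?_⟩
  obtain ⟨k1, k2, k3, -⟩ := key n [] L (by simp) hL
  refine ⟨k1, ?_, ?_⟩
  · unfold Ind
    rw [Fintype.linearIndependent_iff]
    intro c hc i
    have := k2 c (by rw [hc]; exact Submodule.zero_mem _)
    rw [this]; rfl
  · rwa [SelMod.vspan_nil, bot_sup_eq, bot_sup_eq] at k3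

end Pool.Agent.H420_NCF
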