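import Pool.Agent.H420_NCF.Spec

/-!
# Module Split: the largest left factor with nonzero constant term
-/

namespace Pool.Agent.H420_NCF

open Pool.Agent.NPC Pool.Agent.NPC.H532 Pool.Agent.H687R2.LLL
open scoped Matrix

namespace Split

/-- A word of minimal length in a list. -/
def mn (l : List (List ℕ)) : List ℕ :=
  l.foldl (fun s w => if w.length ≤ s.length then w else s) (l.head?.getD [])

/-- The words with nonzero coefficient. -/
def wds (p : IP) : List (List ℕ) := (ws p).filter fun w => !decide (cof p w = 0)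

theorem fold_mem (l : List (List ℕ)) : ∀ s : List ℕ,
    (l.foldl (fun s w => if w.length ≤ s.length then w else s) s) = s ∨
    (l.foldl (fun s w => if w.length ≤ s.length then w else s) s) ∈ l := by
  induction l with
  | nil => intro s; left; rfl
  | cons b l ih =>
    intro s
    rw [List.foldl_cons]
    rcases ih (if b.length ≤ s.length then b else s) with h | h
    · rw [h]
      split_ifs
      · right; simp
      · left; rfl
    · right; exact List.mem_cons_of_mem _ h

theorem fold_le (l : List (List ℕ)) : ∀ s : List ℕ,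
    (l.foldl (fun s w => if w.length ≤ s.length then w else s) s).length ≤ s.length ∧
    ∀ w ∈ l, (l.foldl (fun s w => if w.length ≤ s.length then w else s) s).length ≤ w.length := by
  induction l with
  | nil => intro s; simp
  | cons b l ih =>
    intro s
    rw [List.foldl_cons]
    obtain ⟨h1, h2⟩ := ih (if b.length ≤ s.length then b else s)
    constructor
    · refine h1.trans ?_
      split_ifs with h
      · exact h
      · exact le_rfl
    · intro w hw
      rcases List.mem_cons.1 hw with rfl | hw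
      · refine h1.trans ?_
        split_ifs with h
        · exact le_rfl
        · omega
      · exact h2 w hw

theorem mn_spec {l : List (List ℕ)} (hl : l ≠ []) :
    mn l ∈ l ∧ ∀ w ∈ l, (mn l).length ≤ w.length := by
  refine ⟨?_, (fold_le l _).2⟩
  obtain ⟨b, l, rfl⟩ := List.exists_cons_of_ne_nil hl
  rcases fold_mem (b :: l) (((b :: l).head?).getD []) with h | h
  · unfold mn
    rw [h]
    simp
  · exact h

theorem Poly_mn : Poly mn := by
  unfold mn
  refine Poly_foldl (l := fun l : List (List ℕ) => l) (s := fun l => l.head?.getD [])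
    (F := fun _ (s w : List ℕ) => if w.length ≤ s.length then w else s) NPC.Poly.id
    (NPC.Poly.head?_getD NPC.Poly.id []) ?_ (fun l => sz l + sz (l.head?.getD [])) ?_ ?_
  · exact NPC.Poly.ite (p := fun p : List (List ℕ) × List ℕ × List ℕ => p.2.2.length ≤ p.2.1.length)
      (NPC.Poly.decide_le (NPC.Poly.length (NPC.Poly.snd (NPC.Poly.snd NPC.Poly.id)))
        (NPC.Poly.length (NPC.Poly.fst (NPC.Poly.snd NPC.Poly.id))))
      (NPC.Poly.snd (NPC.Poly.snd NPC.Poly.id)) (NPC.Poly.fst (NPC.Poly.snd NPC.Poly.id))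
  · exact (PB.sz NPC.Poly.id).add (PB.sz (NPC.Poly.head?_getD NPC.Poly.id []))
  · intro l k _
    rcases fold_mem (l.take k) (l.head?.getD []) with h | h
    · rw [h]; omega
    · have := sz_le_of_mem (List.mem_of_mem_take h)
      omega

theorem Poly_wds (hv : VTS) : Poly wds := by
  obtain ⟨h1, -, h3, -⟩ := hv
  unfold wds
  refine NPC.Poly.filter (p := fun (p : IP) (w : List ℕ) => !decide (cof p w = 0)) h1
    (NPC.Poly.not (NPC.Poly.decide_eq ?_ (NPC.Poly.const 0)))
  have := NPC.Poly.comp h3 (NPC.Poly.id (α := IP × List ℕ))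
  exact this

theorem mem_wds (hv : VTS) (p : IP) (w : List ℕ) : w ∈ wds p ↔ cf w (pol p) ≠ 0 := by
  obtain ⟨-, -, -, -, -, -, h7, -, -, h10, -⟩ := hv
  unfold wds
  rw [List.mem_filter, h7]
  constructor
  · rintro ⟨_, h⟩
    simpa using h
  · intro h
    have h' : cof p w ≠ 0 := by intro h0; rw [h0] at h; simp at h
    exact ⟨h10 _ _ h', by simpa using h'⟩

theorem isLow_of_eps {P : NC ℚ} (h : eps P ≠ 0) : IsLow P 0 :=
  ⟨⟨[], rfl, h⟩, fun _ hw => absurd hw (Nat.not_lt_zero _)⟩

theorem eps_of_isLow {P : NC ℚ} (h : IsLow P 0) : eps P ≠ 0 := by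
  obtain ⟨⟨w, hw, hw'⟩, _⟩ := h
  rw [List.length_eq_zero_iff] at hw
  subst hw
  exact hw'

end Split

open Split in
theorem split_ (hH : HStepS) (hr : RevS) (hd : DivS) (hv : VTS) : SplitS := by
  obtain ⟨H, hHp, hH⟩ := hH
  obtain ⟨rv, hrp, R, hRm, hRR, hRc, hRv⟩ := hr
  obtain ⟨dv, hdp, hd⟩ := hd
  have hRe : ∀ P, eps (R P) = eps P := fun P => by
    rw [eps_def, hRc]; rfl
  have hRlow : ∀ P d, IsLow P d → IsLow (R P) d := by
    intro P d ⟨⟨w, hw, hw'⟩, h2⟩
    refine ⟨⟨w.reverse, by rw [List.length_reverse, hw], ?_⟩, fun v hv => ?_⟩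
    · rw [hRc, List.reverse_reverse]; exact hw'
    · rw [hRc]; exact h2 _ (by rwa [List.length_reverse])
  have hp1 : Poly fun p : IP => mn (wds (rv p)) :=
    NPC.Poly.comp Poly_mn (NPC.Poly.comp (Poly_wds hv) hrp)
  have hp2 : Poly fun p : IP => (H (rv p, mn (wds (rv p)), [])).2 :=
    NPC.Poly.snd (NPC.Poly.comp hHp (NPC.Poly.pair hrp (NPC.Poly.pair hp1 (NPC.Poly.const []))))
  refine ⟨fun p => (rv (H (rv p, mn (wds (rv p)), [])).2,
    rv (dv (rv p, (H (rv p, mn (wds (rv p)), [])).2))), ?_, ?_⟩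
  · exact NPC.Poly.pair (NPC.Poly.comp hrp hp2)
      (NPC.Poly.comp hrp (NPC.Poly.comp hdp (NPC.Poly.pair hrp hp2)))
  · intro p m hm hlow
    have hlow' : IsLow (pol (rv p)) m := by rw [hRv]; exact hRlow _ _ hlow
    have hne : wds (rv p) ≠ [] := by
      obtain ⟨⟨w, _, hw'⟩, _⟩ := hlow'
      intro h0
      have := (mem_wds hv (rv p) w).2 hw'
      rw [h0] at this
      simp at this
    obtain ⟨hμ1, hμ2⟩ := mn_spec hne
    simp only
    generalize mn (wds (rv p)) = μ at hμ1 hμ2
    have hμc := (mem_wds hv _ _).1 hμ1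
    have hμl : μ.length = m := by
      obtain ⟨⟨w, hw, hw'⟩, h2⟩ := hlow'
      apply le_antisymm
      · rw [← hw]; exact hμ2 w ((mem_wds hv _ _).2 hw')
      · by_contra h
        exact hμc (h2 μ (by omega))
    have hμne : μ ≠ [] := by rintro rfl; simp at hμl; omega
    have hG : Good (pol (rv p)) μ.length :=
      ⟨pol (rv p), 1, by rw [mul_one], by rw [hμl]; exact hlow'⟩
    obtain ⟨h1, ⟨g, hg⟩, h3⟩ := (hH (rv p) μ [] (by rw [List.append_nil, hμl]; exact hlow')
      (by rw [List.append_nil]; exact hμc) hμne).2 hG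
    generalize (H (rv p, μ, [])).2 = h at h1 hg h3
    have heps := eps_of_isLow h1
    obtain ⟨c, hc, hcg⟩ := hd (rv p) h g hlow'.ne_zero hg
    refine ⟨⟨c, hc, ?_⟩, ?_, ?_⟩
    · rw [hRv, hRv, hcg, map_smul, mul_smul_comm, ← hRm, ← hg, hRv, hRR]
    · rw [hRv, hRe]; exact heps
    · intro b' a' hba hb
      have h4 : pol (rv p) = R a' * R b' := by rw [hRv, hba, hRm]
      have hne2 : R a' ≠ 0 := by
        intro h0; rw [h0, zero_mul] at h4; exact hlow'.ne_zero h4
      obtain ⟨e, he⟩ := exists_isLow hne2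
      have hb' : IsLow (R b') 0 := isLow_of_eps (by rw [hRe]; exact hb)
      have h5 := he.mul hb'
      rw [← h4] at h5
      have h6 := h5.unique hlow'
      obtain ⟨t, ht⟩ := h3 (R a') (R b') h4 ⟨e, by omega, he⟩
      refine ⟨R t, ?_⟩
      rw [hRv, ht, hRm, hRR]

end Pool.Agent.H420_NCF
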