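import Pool.Agent.H420_NCF.Spec

/-!
# Module TA: from matrices to the maximal ideals of the centre modulo the radical
-/

namespace Pool.Agent.H420_NCF

open Pool.Agent.NPC Pool.Agent.NPC.H532 Pool.Agent.H687R2.LLL
open scoped Matrix

namespace TA

/-! ### Sums over lists -/

theorem sum_map_range {M : Type} [AddCommMonoid M] (m : ℕ) (f : ℕ → M) :
    ((List.range m).map f).sum = ∑ i ∈ Finset.range m, f i := by
  induction m with
  | zero => simp
  | succ m ih => rw [List.range_succ, List.map_append, List.sum_append, ih,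
      Finset.sum_range_succ]; simp

/-! ### Flattening -/

/-- flatten a matrix -/
def fl (n : ℕ) (M : List (List ℤ)) : List ℤ :=
  (List.range (n * n)).map fun t => entry M (t / n) (t % n)

/-- the matrix with a given flattening -/
def uf (n : ℕ) (v : List ℤ) : List (List ℤ) := tab n fun i j => v.getD (j + n * i) 0

theorem fl_length (n : ℕ) (M : List (List ℤ)) : (fl n M).length = n * n := by simp [fl]

theorem tab_isMat (n : ℕ) (f : ℕ → ℕ → ℤ) : IsMat n n (tab n f) := by
  constructor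
  · simp [tab]
  · intro v hv
    simp only [tab, List.mem_map, List.mem_range] at hv
    obtain ⟨i, -, rfl⟩ := hv
    simp

theorem uf_isMat (n : ℕ) (v : List ℤ) : IsMat n n (uf n v) := tab_isMat n _

theorem mq_tab (n : ℕ) (f : ℕ → ℕ → ℤ) (i j : Fin n) : mq n (tab n f) i j = (f i j : ℤ) := by
  unfold mq
  rw [entry_tab f i.2 j.2]

/-- the flattening as a linear equivalence -/
noncomputable def ph (n : ℕ) : Matrix (Fin n) (Fin n) ℚ ≃ₗ[ℚ] (Fin (n * n) → ℚ) where
  toFun X t := X (finProdFinEquiv.symm t).1 (finProdFinEquiv.symm t).2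
  invFun v i j := v (finProdFinEquiv (i, j))
  left_inv X := by
    funext i j
    simp
  right_inv v := by
    funext t
    change v (finProdFinEquiv (finProdFinEquiv.symm t)) = v t
    rw [Equiv.apply_symm_apply]
  map_add' X Y := rfl
  map_smul' c X := rfl

theorem ph_apply (n : ℕ) (X : Matrix (Fin n) (Fin n) ℚ) (t : Fin (n * n)) :
    ph n X t = X (finProdFinEquiv.symm t).1 (finProdFinEquiv.symm t).2 := rfl

theorem ph_symm_apply (n : ℕ) (v : Fin (n * n) → ℚ) (i j : Fin n) :
    (ph n).symm v i j = v (finProdFinEquiv (i, j)) := rfl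

theorem ph_mq (n : ℕ) (M : List (List ℤ)) : ph n (mq n M) = vq (n * n) (fl n M) := by
  funext t
  rw [ph_apply]
  unfold mq vq fl
  rw [List.getD_eq_getElem _ _ (by simp)]
  simp [finProdFinEquiv, Fin.divNat, Fin.modNat]

theorem mq_uf (n : ℕ) (v : List ℤ) : mq n (uf n v) = (ph n).symm (vq (n * n) v) := by
  funext i j
  rw [ph_symm_apply]
  unfold uf
  rw [mq_tab]
  unfold vq
  simp [finProdFinEquiv]

theorem ph_mspan (n : ℕ) (L : List (List (List ℤ))) :
    (mspan n L).map (ph n : Matrix (Fin n) (Fin n) ℚ →ₗ[ℚ] _) = vspan (n * n) (L.map (fl n)) := by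
  unfold mspan vspan
  rw [Submodule.map_span]
  congr 1
  ext w
  constructor
  · rintro ⟨_, ⟨v, hv, rfl⟩, rfl⟩
    exact ⟨fl n v, List.mem_map.2 ⟨v, hv, rfl⟩, ph_mq n v⟩
  · rintro ⟨v, hv, rfl⟩
    obtain ⟨M, hM, rfl⟩ := List.mem_map.1 hv
    exact ⟨_, ⟨M, hM, rfl⟩, ph_mq n M⟩

theorem mem_mspan_iff (n : ℕ) (L : List (List (List ℤ))) (a : Matrix (Fin n) (Fin n) ℚ) :
    a ∈ mspan n L ↔ ph n a ∈ vspan (n * n) (L.map (fl n)) := by
  rw [← ph_mspan]
  constructor
  · intro h; exact ⟨a, h, rfl⟩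
  · rintro ⟨b, hb, hba⟩
    have : b = a := (ph n).injective hba
    rwa [← this]

theorem mem_mspan_uf (n : ℕ) (L : List (List ℤ)) (a : Matrix (Fin n) (Fin n) ℚ) :
    a ∈ mspan n (L.map (uf n)) ↔ ph n a ∈ vspan (n * n) L := by
  have h : mspan n (L.map (uf n)) =
      (vspan (n * n) L).map ((ph n).symm : (Fin (n * n) → ℚ) →ₗ[ℚ] _) := by
    unfold mspan vspan
    rw [Submodule.map_span]
    congr 1
    ext w
    constructor
    · rintro ⟨M, hM, rfl⟩
      obtain ⟨v, hv, rfl⟩ := List.mem_map.1 hM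
      exact ⟨_, ⟨v, hv, rfl⟩, (mq_uf n v).symm⟩
    · rintro ⟨_, ⟨v, hv, rfl⟩, rfl⟩
      exact ⟨_, List.mem_map.2 ⟨v, hv, rfl⟩, (mq_uf n v).symm⟩
  rw [h]
  constructor
  · rintro ⟨v, hv, rfl⟩
    simpa using hv
  · intro ha
    exact ⟨_, ha, by simp⟩

theorem mem_span_list {V : Type} [AddCommGroup V] [Module ℚ V] {β : Type} (L : List β) (d : β)
    (g : β → V) (a : V) : a ∈ Submodule.span ℚ {w | ∃ v ∈ L, w = g v} ↔
      ∃ c : ℕ → ℚ, a = ∑ i ∈ Finset.range L.length, c i • g (L.getD i d) := by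
  have hset : {w | ∃ v ∈ L, w = g v} = Set.range (fun i : Fin L.length => g (L.getD i d)) := by
    ext w
    constructor
    · rintro ⟨v, hv, rfl⟩
      obtain ⟨i, hi, rfl⟩ := List.getElem_of_mem hv
      refine ⟨⟨i, hi⟩, ?_⟩
      simp only
      rw [List.getD_eq_getElem _ _ hi]
    · rintro ⟨i, rfl⟩
      refine ⟨L.getD i d, ?_, rfl⟩
      rw [List.getD_eq_getElem _ _ i.2]
      exact List.getElem_mem _
  rw [hset, Submodule.mem_span_range_iff_exists_fun]
  constructor
  · rintro ⟨c, rfl⟩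
    refine ⟨fun i => if h : i < L.length then c ⟨i, h⟩ else 0, ?_⟩
    rw [Finset.sum_range]
    refine Finset.sum_congr rfl fun i _ => ?_
    simp
  · rintro ⟨c, rfl⟩
    refine ⟨fun i => c i, ?_⟩
    rw [Finset.sum_range]

theorem mem_mspan (n : ℕ) (L : List (List (List ℤ))) (a : Matrix (Fin n) (Fin n) ℚ) :
    a ∈ mspan n L ↔ ∃ c : ℕ → ℚ, a = ∑ i ∈ Finset.range L.length, c i • mq n (L.getD i []) :=
  mem_span_list L [] (mq n) a

theorem mem_vspan (n : ℕ) (L : List (List ℤ)) (a : Fin n → ℚ) :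
    a ∈ vspan n L ↔ ∃ c : ℕ → ℚ, a = ∑ i ∈ Finset.range L.length, c i • vq n (L.getD i []) :=
  mem_span_list L [] (vq n) a

/-! ### Combinations -/

/-- integer combination of a list of matrices -/
def comb (n : ℕ) (L : List (List (List ℤ))) (x : List ℤ) : List (List ℤ) :=
  tab n fun i j => ((List.range L.length).map fun t => ent x t * entry (L.getD t []) i j).sum

theorem mq_comb (n : ℕ) (L : List (List (List ℤ))) (x : List ℤ) :
    mq n (comb n L x) = ∑ t ∈ Finset.range L.length, (ent x t : ℚ) • mq n (L.getD t []) := by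
  funext i j
  unfold comb
  rw [mq_tab, sum_map_range, Matrix.sum_apply]
  push_cast
  refine Finset.sum_congr rfl fun t _ => ?_
  rw [Matrix.smul_apply, smul_eq_mul]
  rfl

/-- kernels of families of linear functionals on spans of matrices -/
theorem kerspan {kq : List (List ℤ) → List (List ℤ)}
    (hkq : ∀ (X : List (List ℤ)) (q : ℕ), (∀ r ∈ X, r.length = q) →
      (∀ u ∈ kq X, u.length = X.length ∧ ∀ j, form X (ent u) j = 0) ∧
      ∀ c : Fin X.length → ℚ, ∑ i, c i • vq q (X.getD i []) = 0 → c ∈ vspan X.length (kq X))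
    (n q : ℕ) (L : List (List (List ℤ))) (X : List (List ℤ)) (hX : X.length = L.length)
    (hXq : ∀ r ∈ X, r.length = q) (lam : Fin q → Matrix (Fin n) (Fin n) ℚ →ₗ[ℚ] ℚ)
    (hlam : ∀ i < L.length, ∀ j : Fin q,
      (((X.getD i []).getD j 0 : ℤ) : ℚ) = lam j (mq n (L.getD i [])))
    (a : Matrix (Fin n) (Fin n) ℚ) :
    a ∈ mspan n ((kq X).map (comb n L)) ↔ a ∈ mspan n L ∧ ∀ j, lam j a = 0 := by
  obtain ⟨h1, h2⟩ := hkq X q hXq
  constructor
  · intro ha
    unfold mspan at ha
    induction ha using Submodule.span_induction with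
    | mem x hx =>
      obtain ⟨M, hM, rfl⟩ := hx
      obtain ⟨u, hu, rfl⟩ := List.mem_map.1 hM
      constructor
      · rw [mem_mspan]
        exact ⟨fun t => ent u t, mq_comb n L u⟩
      · intro j
        rw [mq_comb, map_sum]
        have h3 := (h1 u hu).2 j
        unfold form at h3
        rw [hX] at h3
        have h4 : ((∑ i ∈ Finset.range L.length, ent u i * (X.getD i []).getD j 0 : ℤ) : ℚ) = 0 := by
          rw [h3]; simp
        rw [← h4]
        push_cast
        refine Finset.sum_congr rfl fun t ht => ?_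
        rw [map_smul, smul_eq_mul, hlam t (Finset.mem_range.1 ht) j]
    | zero => exact ⟨Submodule.zero_mem _, fun j => map_zero _⟩
    | add x y _ _ hx hy =>
      exact ⟨Submodule.add_mem _ hx.1 hy.1, fun j => by rw [map_add, hx.2, hy.2, add_zero]⟩
    | smul c x _ hx =>
      exact ⟨Submodule.smul_mem _ _ hx.1, fun j => by rw [map_smul, hx.2, smul_zero]⟩
  · rintro ⟨ha, hl⟩
    rw [mem_mspan] at ha
    obtain ⟨c, rfl⟩ := ha
    have h3 : ∑ i : Fin X.length, (fun i : Fin X.length => c i) i • vq q (X.getD i []) = 0 := by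
      funext j
      have h4 := hl j
      rw [map_sum, ← hX] at h4
      rw [Finset.sum_apply, Pi.zero_apply, ← h4, Finset.sum_range]
      refine Finset.sum_congr rfl fun t _ => ?_
      rw [map_smul, smul_eq_mul, ← hlam t (by have := t.2; omega) j]
      rfl
    have h5 := h2 _ h3
    let T : (Fin X.length → ℚ) →ₗ[ℚ] Matrix (Fin n) (Fin n) ℚ :=
      Fintype.linearCombination ℚ (fun i : Fin X.length => mq n (L.getD i []))
    have h6 : T (fun i : Fin X.length => c i) ∈
        (vspan X.length (kq X)).map T := ⟨_, h5, rfl⟩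
    have h7 : T (fun i : Fin X.length => c i) =
        ∑ i ∈ Finset.range L.length, c i • mq n (L.getD i []) := by
      rw [← hX, Finset.sum_range]
      rfl
    rw [← h7]
    unfold vspan at h6
    rw [Submodule.map_span] at h6
    unfold mspan
    refine Submodule.span_mono ?_ h6
    rintro _ ⟨_, ⟨u, hu, rfl⟩, rfl⟩
    refine ⟨comb n L u, List.mem_map.2 ⟨u, hu, rfl⟩, ?_⟩
    rw [mq_comb, ← hX, Finset.sum_range]
    rfl

/-! ### The algebra generated by matrices -/

/-- identity matrix -/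
def idm (n : ℕ) : List (List ℤ) := tab n fun i j => if i = j then 1 else 0

theorem mq_idm (n : ℕ) : mq n (idm n) = 1 := by
  funext i j
  unfold idm
  rw [mq_tab, Matrix.one_apply]
  by_cases h : i = j
  · subst h; simp
  · have : (i : ℕ) ≠ j := fun h' => h (Fin.ext h')
    simp [h, this]

/-- right multiplication on flattened matrices -/
def rm (n : ℕ) (M : List (List ℤ)) : List (List ℤ) :=
  tab (n * n) fun s t => if s / n = t / n then entry M (s % n) (t % n) else 0

theorem ph_mul (n : ℕ) (X : Matrix (Fin n) (Fin n) ℚ) (M : List (List ℤ)) :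
    ph n (X * mq n M) = ph n X ᵥ* mq (n * n) (rm n M) := by
  funext t
  rw [ph_apply, Matrix.mul_apply, Matrix.vecMul, dotProduct]
  rw [← finProdFinEquiv.sum_comp]
  rw [Fintype.sum_prod_type]
  symm
  rw [Finset.sum_eq_single (finProdFinEquiv.symm t).1]
  · refine Finset.sum_congr rfl fun k _ => ?_
    rw [ph_apply, Equiv.symm_apply_apply]
    unfold rm
    rw [mq_tab]
    have hn : 0 < n := by have := k.2; omega
    have e1 : ((finProdFinEquiv ((finProdFinEquiv.symm t).1, k) : Fin (n * n)) : ℕ) =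
        k + n * (t / n) := by
      simp [finProdFinEquiv, Fin.divNat]
    rw [e1]
    have e2 : ((k : ℕ) + n * (t / n)) / n = (t : ℕ) / n := by
      rw [Nat.add_mul_div_left _ _ hn, Nat.div_eq_of_lt k.2, zero_add]
    have e3 : ((k : ℕ) + n * (t / n)) % n = k := by
      rw [Nat.add_mul_mod_self_left, Nat.mod_eq_of_lt k.2]
    rw [e2, e3, if_pos rfl]
    rfl
  · intro i _ hi
    refine Finset.sum_eq_zero fun k _ => ?_
    unfold rm
    rw [mq_tab]
    have hn : 0 < n := by have := k.2; omega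
    have e1 : ((finProdFinEquiv (i, k) : Fin (n * n)) : ℕ) = k + n * i := by
      simp [finProdFinEquiv]
    rw [e1]
    have e2 : ((k : ℕ) + n * i) / n = (i : ℕ) := by
      rw [Nat.add_mul_div_left _ _ hn, Nat.div_eq_of_lt k.2, zero_add]
    rw [e2, if_neg, Int.cast_zero, mul_zero]
    intro h
    apply hi
    apply Fin.ext
    rw [h]
    rfl
  · intro h; exact absurd (Finset.mem_univ _) h

/-- a subspace containing one, stable under right multiplication by the generators and minimal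
is the algebra -/
theorem eq_adjoin {n : ℕ} (s : Set (Matrix (Fin n) (Fin n) ℚ))
    (W : Submodule ℚ (Matrix (Fin n) (Fin n) ℚ)) (h1 : (1 : Matrix (Fin n) (Fin n) ℚ) ∈ W)
    (hs : ∀ m ∈ s, ∀ w ∈ W, w * m ∈ W)
    (hmin : ∀ U : Submodule ℚ (Matrix (Fin n) (Fin n) ℚ), (1 : Matrix (Fin n) (Fin n) ℚ) ∈ U →
      (∀ m ∈ s, ∀ w ∈ U, w * m ∈ U) → W ≤ U) (a : Matrix (Fin n) (Fin n) ℚ) :
    a ∈ W ↔ a ∈ Algebra.adjoin ℚ s := by
  constructor
  · intro ha
    exact hmin (Subalgebra.toSubmodule (Algebra.adjoin ℚ s)) (Subalgebra.one_mem _)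
      (fun m hm w hw => Subalgebra.mul_mem _ hw (Algebra.subset_adjoin hm)) ha
  · intro ha
    have key : ∀ w ∈ W, w * a ∈ W := by
      induction ha using Algebra.adjoin_induction with
      | mem m hm => exact hs m hm
      | algebraMap r =>
        intro w hw
        rw [← Algebra.commutes, ← Algebra.smul_def]
        exact W.smul_mem r hw
      | add x y _ _ hx hy =>
        intro w hw
        rw [mul_add]
        exact W.add_mem (hx w hw) (hy w hw)
      | mul x y _ _ hx hy =>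
        intro w hw
        rw [← mul_assoc]
        exact hy _ (hx w hw)
    simpa using key 1 h1

/-- basis of the algebra -/
def abas (clo : List (List (List ℤ)) × List (List ℤ) → List (List ℤ)) (n : ℕ)
    (Ms : List (List (List ℤ))) : List (List (List ℤ)) :=
  (clo (Ms.map (rm n), [fl n (idm n)])).map (uf n)

theorem mem_abas {clo : List (List (List ℤ)) × List (List ℤ) → List (List ℤ)}
    (hclo : ∀ (n : ℕ) (Ms : List (List (List ℤ))) (L : List (List ℤ)), (∀ M ∈ Ms, IsMat n n M) →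
    (∀ v ∈ L, v.length = n) →
    (∀ v ∈ clo (Ms, L), v.length = n) ∧ Ind n (clo (Ms, L)) ∧
    vspan n L ≤ vspan n (clo (Ms, L)) ∧
    (∀ M ∈ Ms, ∀ w ∈ vspan n (clo (Ms, L)), w ᵥ* mq n M ∈ vspan n (clo (Ms, L))) ∧
    ∀ U : Submodule ℚ (Fin n → ℚ), vspan n L ≤ U → (∀ M ∈ Ms, ∀ w ∈ U, w ᵥ* mq n M ∈ U) →
      vspan n (clo (Ms, L)) ≤ U) (n : ℕ) (Ms : List (List (List ℤ)))
    (a : Matrix (Fin n) (Fin n) ℚ) : a ∈ mspan n (abas clo n Ms) ↔ a ∈ algOf n Ms := by
  obtain ⟨h1, -, h3, h4, h5⟩ := hclo (n * n) (Ms.map (rm n)) [fl n (idm n)] (by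
    intro M hM
    obtain ⟨M', -, rfl⟩ := List.mem_map.1 hM
    exact tab_isMat _ _) (by
    intro v hv
    rw [List.mem_singleton] at hv
    rw [hv]; exact fl_length n _)
  unfold algOf
  have hone : ∀ U : Submodule ℚ (Fin (n * n) → ℚ), vspan (n * n) [fl n (idm n)] ≤ U ↔
      ph n 1 ∈ U := by
    intro U
    unfold vspan
    rw [Submodule.span_le]
    constructor
    · intro h
      apply h
      exact ⟨fl n (idm n), by simp, by rw [← ph_mq, mq_idm]⟩
    · rintro h _ ⟨v, hv, rfl⟩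
      rw [List.mem_singleton] at hv
      rw [hv, ← ph_mq, mq_idm]
      exact h
  refine eq_adjoin _ (mspan n (abas clo n Ms)) ?_ ?_ ?_ a
  · unfold abas
    rw [mem_mspan_uf]
    exact (hone _).1 h3
  · rintro _ ⟨M, hM, rfl⟩ w hw
    unfold abas at hw ⊢
    rw [mem_mspan_uf] at hw ⊢
    rw [ph_mul]
    exact h4 _ (List.mem_map.2 ⟨M, hM, rfl⟩) _ hw
  · intro U hU1 hU2 w hw
    unfold abas at hw
    rw [mem_mspan_uf] at hw
    have := h5 (U.map (ph n : Matrix (Fin n) (Fin n) ℚ →ₗ[ℚ] _)) ((hone _).2 ⟨1, hU1, rfl⟩) (by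
      intro M hM w hw
      obtain ⟨M', hM', rfl⟩ := List.mem_map.1 hM
      obtain ⟨w', hw', rfl⟩ := hw
      change ph n w' ᵥ* _ ∈ _
      rw [← ph_mul]
      exact ⟨_, hU2 _ ⟨M', hM', rfl⟩ _ hw', rfl⟩) hw
    obtain ⟨w', hw', hww⟩ := this
    have : w' = w := (ph n).injective hww
    rwa [← this]

/-! ### The radical and the centre modulo the radical -/

theorem mq_mmul (n : ℕ) (A B : List (List ℤ)) : mq n (mmul n A B) = mq n A * mq n B := by
  funext i j
  unfold mmul
  rw [mq_tab, sum_map_range, Matrix.mul_apply, Finset.sum_range]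
  push_cast
  rfl

theorem mtr_cast (n : ℕ) (A : List (List ℤ)) : ((mtr n A : ℤ) : ℚ) = (mq n A).trace := by
  unfold mtr
  rw [sum_map_range, Finset.sum_range, Matrix.trace]
  push_cast
  rfl

/-- difference of matrices -/
def msub (n : ℕ) (A B : List (List ℤ)) : List (List ℤ) := tab n fun i j => entry A i j - entry B i j

theorem mq_msub (n : ℕ) (A B : List (List ℤ)) : mq n (msub n A B) = mq n A - mq n B := by
  funext i j
  unfold msub
  rw [mq_tab, Matrix.sub_apply]
  push_cast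
  rfl

theorem getD_map' {β γ : Type} (L : List β) (f : β → γ) (d : β) (e : γ) {i : ℕ}
    (hi : i < L.length) : (L.map f).getD i e = f (L.getD i d) := by
  rw [List.getD_eq_getElem _ _ (by simpa using hi), List.getD_eq_getElem _ _ hi, List.getElem_map]

/-- Gram matrix of the trace form -/
def gram (n : ℕ) (Ab : List (List (List ℤ))) : List (List ℤ) :=
  Ab.map fun a => Ab.map fun b => mtr n (mmul n a b)

/-- traces of commutators times basis elements -/
def cenX (n : ℕ) (Ab : List (List (List ℤ))) : List (List ℤ) :=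
  Ab.map fun a => (List.range (Ab.length * Ab.length)).map fun t =>
    mtr n (mmul n (msub n (mmul n a (Ab.getD (t / Ab.length) []))
      (mmul n (Ab.getD (t / Ab.length) []) a)) (Ab.getD (t % Ab.length) []))

/-- basis of the radical -/
def jb (kq : List (List ℤ) → List (List ℤ)) (n : ℕ) (Ab : List (List (List ℤ))) :
    List (List (List ℤ)) := (kq (gram n Ab)).map (comb n Ab)

/-- basis of the centre modulo the radical -/
def cb (kq : List (List ℤ) → List (List ℤ)) (n : ℕ) (Ab : List (List (List ℤ))) :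
    List (List (List ℤ)) := (kq (cenX n Ab)).map (comb n Ab)

section
variable {kq : List (List ℤ) → List (List ℤ)}
    (hkq : ∀ (X : List (List ℤ)) (q : ℕ), (∀ r ∈ X, r.length = q) →
      (∀ u ∈ kq X, u.length = X.length ∧ ∀ j, form X (ent u) j = 0) ∧
      ∀ c : Fin X.length → ℚ, ∑ i, c i • vq q (X.getD i []) = 0 → c ∈ vspan X.length (kq X))
    (h1 : R1S) (n : ℕ) (A : Subalgebra ℚ (Matrix (Fin n) (Fin n) ℚ)) (Ab : List (List (List ℤ)))
    (hAb : ∀ a, a ∈ mspan n Ab ↔ a ∈ A)
include hkq h1 hAb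

theorem mem_jb (a : Matrix (Fin n) (Fin n) ℚ) : a ∈ mspan n (jb kq n Ab) ↔ a ∈ JJ A := by
  unfold jb
  let lam : Fin Ab.length → Matrix (Fin n) (Fin n) ℚ →ₗ[ℚ] ℚ := fun j =>
    (Matrix.traceLinearMap (Fin n) ℚ ℚ) ∘ₗ (LinearMap.mulRight ℚ (mq n (Ab.getD j [])))
  rw [kerspan hkq n Ab.length Ab (gram n Ab) (by simp [gram]) (by
      intro r hr
      unfold gram at hr
      obtain ⟨a, -, rfl⟩ := List.mem_map.1 hr
      simp) lam (by
      intro i hi j
      unfold gram
      rw [getD_map' Ab _ [] [] hi, getD_map' Ab _ [] 0 j.2, mtr_cast, mq_mmul]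
      rfl) a, h1 n A a, hAb]
  constructor
  · rintro ⟨ha, hl⟩
    refine ⟨ha, fun b hb => ?_⟩
    rw [← hAb, mem_mspan] at hb
    obtain ⟨c, rfl⟩ := hb
    rw [Finset.mul_sum, Matrix.trace_sum]
    refine Finset.sum_eq_zero fun i hi => ?_
    rw [mul_smul_comm, Matrix.trace_smul]
    have := hl ⟨i, Finset.mem_range.1 hi⟩
    change (a * mq n (Ab.getD i [])).trace = 0 at this
    rw [this, smul_zero]
  · rintro ⟨ha, hl⟩
    refine ⟨ha, fun j => ?_⟩
    change (a * mq n (Ab.getD j [])).trace = 0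
    apply hl
    rw [← hAb, mem_mspan]
    refine ⟨fun i => if i = j then 1 else 0, ?_⟩
    rw [Finset.sum_eq_single (j : ℕ)]
    · simp
    · intro i _ hij; simp [hij]
    · intro h; exact absurd (Finset.mem_range.2 j.2) h

omit hkq h1 in
theorem basis_mem (i : ℕ) (hi : i < Ab.length) : mq n (Ab.getD i []) ∈ A := by
  rw [← hAb]
  unfold mspan
  refine Submodule.subset_span ⟨Ab.getD i [], ?_, rfl⟩
  rw [List.getD_eq_getElem _ _ hi]
  exact List.getElem_mem _

theorem mem_cb (a : Matrix (Fin n) (Fin n) ℚ) : a ∈ mspan n (cb kq n Ab) ↔ a ∈ CC A := by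
  unfold cb
  let br : Matrix (Fin n) (Fin n) ℚ → Matrix (Fin n) (Fin n) ℚ →ₗ[ℚ] Matrix (Fin n) (Fin n) ℚ :=
    fun b => LinearMap.mulRight ℚ b - LinearMap.mulLeft ℚ b
  let lam : Fin (Ab.length * Ab.length) → Matrix (Fin n) (Fin n) ℚ →ₗ[ℚ] ℚ := fun t =>
    (Matrix.traceLinearMap (Fin n) ℚ ℚ) ∘ₗ
      (LinearMap.mulRight ℚ (mq n (Ab.getD (t % Ab.length) []))) ∘ₗ
      (br (mq n (Ab.getD (t / Ab.length) [])))
  have hlam : ∀ t a, lam t a = ((a * mq n (Ab.getD (t / Ab.length) []) -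
      mq n (Ab.getD (t / Ab.length) []) * a) * mq n (Ab.getD (t % Ab.length) [])).trace :=
    fun t a => rfl
  rw [kerspan hkq n (Ab.length * Ab.length) Ab (cenX n Ab) (by simp [cenX]) (by
      intro r hr
      unfold cenX at hr
      obtain ⟨a, -, rfl⟩ := List.mem_map.1 hr
      simp) lam (by
      intro i hi t
      unfold cenX
      rw [getD_map' Ab _ [] [] hi, getD_map' _ _ 0 0 (by simp)]
      rw [mtr_cast, mq_mmul, mq_msub, mq_mmul, mq_mmul, hlam]
      rw [List.getD_eq_getElem _ _ (by simp : (t : ℕ) < (List.range (Ab.length * Ab.length)).length)]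
      simp) a, hAb]
  constructor
  · rintro ⟨ha, hl⟩
    refine ⟨ha, ?_⟩
    have hj : ∀ i < Ab.length, a * mq n (Ab.getD i []) - mq n (Ab.getD i []) * a ∈ JJ A := by
      intro i hi
      have hbi := basis_mem n A Ab hAb i hi
      rw [h1 n A]
      refine ⟨A.sub_mem (A.mul_mem ha hbi) (A.mul_mem hbi ha), fun b hb => ?_⟩
      rw [← hAb, mem_mspan] at hb
      obtain ⟨c, rfl⟩ := hb
      rw [Finset.mul_sum, Matrix.trace_sum]
      refine Finset.sum_eq_zero fun l hl' => ?_
      rw [Finset.mem_range] at hl'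
      rw [mul_smul_comm, Matrix.trace_smul]
      have hm : 0 < Ab.length := by omega
      have hlt : i * Ab.length + l < Ab.length * Ab.length := by nlinarith
      have e1 : (i * Ab.length + l) / Ab.length = i := by
        rw [mul_comm i, Nat.mul_add_div hm, Nat.div_eq_of_lt hl', add_zero]
      have e2 : (i * Ab.length + l) % Ab.length = l := by
        rw [mul_comm i, Nat.mul_add_mod, Nat.mod_eq_of_lt hl']
      have := hl ⟨i * Ab.length + l, hlt⟩
      rw [hlam] at this
      simp only [e1, e2] at this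
      rw [this, smul_zero]
    intro b hb
    rw [← hAb, mem_mspan] at hb
    obtain ⟨c, rfl⟩ := hb
    rw [Finset.mul_sum, Finset.sum_mul, ← Finset.sum_sub_distrib]
    refine Submodule.sum_mem _ fun i hi => ?_
    rw [mul_smul_comm, smul_mul_assoc, ← smul_sub]
    exact Submodule.smul_mem _ _ (hj i (Finset.mem_range.1 hi))
  · rintro ⟨ha, hc⟩
    refine ⟨ha, fun t => ?_⟩
    have hm : 0 < Ab.length := by
      by_contra h
      have h0 : Ab.length = 0 := by omega
      have h2 : Ab.length * Ab.length = 0 := by rw [h0]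
      have := t.2
      omega
    have ht : (t : ℕ) / Ab.length < Ab.length := Nat.div_lt_of_lt_mul t.2
    have ht' : (t : ℕ) % Ab.length < Ab.length := Nat.mod_lt _ hm
    have h3 := hc _ (basis_mem n A Ab hAb _ ht)
    rw [h1 n A] at h3
    rw [hlam]
    exact h3.2 _ (basis_mem n A Ab hAb _ ht')

end

/-! ### A basis of the centre modulo the radical -/

section
variable {n : ℕ} (A : Subalgebra ℚ (Matrix (Fin n) (Fin n) ℚ))

theorem one_mem_CC : (1 : Matrix (Fin n) (Fin n) ℚ) ∈ CC A :=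
  ⟨A.one_mem, fun a _ => by rw [one_mul, mul_one, sub_self]; exact (JJ A).zero_mem⟩

theorem JJ_le_CC (h0 : R0S ℚ) : JJ A ≤ CC A := by
  intro a ha
  obtain ⟨h1, h2, -⟩ := h0 n A
  exact ⟨(h1 a ha).1, fun b hb => (JJ A).sub_mem (h2 a ha b hb).1 (h2 a ha b hb).2⟩

theorem mul_mem_CC (h0 : R0S ℚ) {c d : Matrix (Fin n) (Fin n) ℚ} (hc : c ∈ CC A)
    (hd : d ∈ CC A) : c * d ∈ CC A := by
  obtain ⟨-, h2, -⟩ := h0 n A
  refine ⟨A.mul_mem hc.1 hd.1, fun a ha => ?_⟩
  have e : c * d * a - a * (c * d) = c * (d * a - a * d) + (c * a - a * c) * d := by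
    noncomm_ring
  rw [e]
  exact (JJ A).add_mem (h2 _ (hd.2 a ha) c hc.1).2 (h2 _ (hc.2 a ha) d hd.1).1

theorem one_notMem_JJ (h0 : R0S ℚ) (hn : 0 < n) : (1 : Matrix (Fin n) (Fin n) ℚ) ∉ JJ A := by
  intro h
  obtain ⟨h1, -, -⟩ := h0 n A
  have h2 := (h1 1 h).2
  have : Nonempty (Fin n) := ⟨⟨0, hn⟩⟩
  have : Nontrivial (Matrix (Fin n) (Fin n) ℚ) := inferInstance
  obtain ⟨m, hm⟩ := h2
  rw [one_pow] at hm
  exact one_ne_zero hm

end

/-- basis of the centre modulo the radical -/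
def b0 (sel : List (List ℤ) × List (List ℤ) → List (List ℤ)) (n : ℕ)
    (Jb Cb : List (List (List ℤ))) : List (List (List ℤ)) :=
  (sel (Jb.map (fl n), (idm n :: Cb).map (fl n))).map (uf n)

/-- what is needed about the basis -/
structure BasisC (n : ℕ) (A : Subalgebra ℚ (Matrix (Fin n) (Fin n) ℚ)) (r : ℕ)
    (B : ℕ → Matrix (Fin n) (Fin n) ℚ) : Prop where
  pos : 0 < r
  mem : ∀ i < r, B i ∈ CC A
  ind : ∀ c : ℕ → ℚ, ∑ i ∈ Finset.range r, c i • B i ∈ JJ A → ∀ i < r, c i = 0
  span : ∀ a ∈ CC A, ∃ c : ℕ → ℚ, a - ∑ i ∈ Finset.range r, c i • B i ∈ JJ A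
  one : B 0 = 1

theorem b0_spec {sel : List (List ℤ) × List (List ℤ) → List (List ℤ)}
    (hsel : ∀ (n : ℕ) (K L : List (List ℤ)), (∀ v ∈ K, v.length = n) → (∀ v ∈ L, v.length = n) →
    (∀ v ∈ sel (K, L), v ∈ L) ∧
    (∀ c : Fin (sel (K, L)).length → ℚ,
      ∑ i, c i • vq n ((sel (K, L)).getD i []) ∈ vspan n K → c = 0) ∧
    vspan n K ⊔ vspan n (sel (K, L)) = vspan n K ⊔ vspan n L ∧
    ∀ v L', L = v :: L' → vq n v ∉ vspan n K → (sel (K, L)).head? = some v)
    (h0 : R0S ℚ) (n : ℕ) (hn : 0 < n) (A : Subalgebra ℚ (Matrix (Fin n) (Fin n) ℚ))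
    (Jb Cb : List (List (List ℤ))) (hJ : ∀ a, a ∈ mspan n Jb ↔ a ∈ JJ A)
    (hC : ∀ a, a ∈ mspan n Cb ↔ a ∈ CC A) :
    BasisC n A (b0 sel n Jb Cb).length (fun i => mq n ((b0 sel n Jb Cb).getD i [])) := by
  obtain ⟨h1, h2, h3, h4⟩ := hsel (n * n) (Jb.map (fl n)) ((idm n :: Cb).map (fl n)) (by
    intro v hv
    obtain ⟨M, -, rfl⟩ := List.mem_map.1 hv
    exact fl_length n _) (by
    intro v hv
    obtain ⟨M, -, rfl⟩ := List.mem_map.1 hv
    exact fl_length n _)
  have hJ' : ∀ a, ph n a ∈ vspan (n * n) (Jb.map (fl n)) ↔ a ∈ JJ A := by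
    intro a; rw [← mem_mspan_iff, hJ]
  have hC' : ∀ a, ph n a ∈ vspan (n * n) ((idm n :: Cb).map (fl n)) ↔ a ∈ CC A := by
    intro a
    rw [← mem_mspan_iff, ← hC]
    constructor
    · intro h
      have hle : mspan n (idm n :: Cb) ≤ mspan n Cb := by
        unfold mspan
        rw [Submodule.span_le]
        rintro _ ⟨M, hM, rfl⟩
        rcases List.mem_cons.1 hM with rfl | hM
        · rw [mq_idm]
          exact (hC 1).2 (one_mem_CC A)
        · exact Submodule.subset_span ⟨M, hM, rfl⟩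
      exact hle h
    · intro h
      refine Submodule.span_mono ?_ h
      rintro _ ⟨M, hM, rfl⟩
      exact ⟨M, List.mem_cons_of_mem _ hM, rfl⟩
  have hlen : (b0 sel n Jb Cb).length =
      (sel (Jb.map (fl n), (idm n :: Cb).map (fl n))).length := by
    unfold b0; simp
  have hget : ∀ i < (b0 sel n Jb Cb).length, ph n (mq n ((b0 sel n Jb Cb).getD i [])) =
      vq (n * n) ((sel (Jb.map (fl n), (idm n :: Cb).map (fl n))).getD i []) := by
    intro i hi
    unfold b0
    rw [getD_map' _ (uf n) [] [] (by rw [← hlen]; exact hi), mq_uf, LinearEquiv.apply_symm_apply]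
  have hsum : ∀ c : ℕ → ℚ, ph n (∑ i ∈ Finset.range (b0 sel n Jb Cb).length,
      c i • mq n ((b0 sel n Jb Cb).getD i [])) =
      ∑ i ∈ Finset.range (sel (Jb.map (fl n), (idm n :: Cb).map (fl n))).length,
      c i • vq (n * n) ((sel (Jb.map (fl n), (idm n :: Cb).map (fl n))).getD i []) := by
    intro c
    rw [map_sum, hlen]
    refine Finset.sum_congr rfl fun i hi => ?_
    rw [map_smul, hget i (by rw [hlen]; exact Finset.mem_range.1 hi)]
  have h5 := h4 (fl n (idm n)) (Cb.map (fl n)) (by simp) (by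
    rw [← ph_mq, mq_idm, hJ']
    exact one_notMem_JJ A h0 hn)
  have hpos : 0 < (b0 sel n Jb Cb).length := by
    rw [hlen]
    rcases hs : sel (Jb.map (fl n), (idm n :: Cb).map (fl n)) with _ | ⟨v, t⟩
    · rw [hs] at h5; simp at h5
    · simp
  refine ⟨hpos, ?_, ?_, ?_, ?_⟩
  · intro i hi
    rw [← hC', hget i hi]
    unfold vspan
    refine Submodule.subset_span ⟨_, h1 _ ?_, rfl⟩
    rw [List.getD_eq_getElem _ _ (by rw [← hlen]; exact hi)]
    exact List.getElem_mem _
  · intro c hc i hi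
    rw [← hJ', hsum, Finset.sum_range] at hc
    have := h2 (fun i => c i) hc
    exact congrFun this ⟨i, by rw [← hlen]; exact hi⟩
  · intro a ha
    have h6 : ph n a ∈ vspan (n * n) (Jb.map (fl n)) ⊔
        vspan (n * n) (sel (Jb.map (fl n), (idm n :: Cb).map (fl n))) := by
      rw [h3]
      exact Submodule.mem_sup_right ((hC' a).2 ha)
    obtain ⟨x, hx, y, hy, hxy⟩ := Submodule.mem_sup.1 h6
    rw [mem_vspan] at hy
    obtain ⟨c, rfl⟩ := hy
    refine ⟨c, ?_⟩
    rw [← hJ', map_sub, hsum, ← hxy, add_sub_cancel_right]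
    exact hx
  · apply (ph n).injective
    rw [hget 0 hpos]
    rcases hs : sel (Jb.map (fl n), (idm n :: Cb).map (fl n)) with _ | ⟨v, t⟩
    · rw [hs] at h5; simp at h5
    · rw [hs] at h5
      simp only [List.head?_cons, Option.some.injEq] at h5
      rw [h5, List.getD_cons_zero, ← ph_mq, mq_idm]

/-! ### Structure constants -/

/-- exact division -/
def edv (x y : ℤ) : ℤ := NPC.ofSM (decide (x < 0) ^^ decide (y < 0)) (x.natAbs / y.natAbs)

theorem edv_mul {x y : ℤ} (hy : y ≠ 0) (h : y ∣ x) : edv x y * y = x := by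
  obtain ⟨q, rfl⟩ := h
  unfold edv
  have h1 : (y * q).natAbs / y.natAbs = q.natAbs := by
    rw [Int.natAbs_mul]
    exact Nat.mul_div_cancel_left _ (Int.natAbs_pos.2 hy)
  rw [h1]
  rcases lt_trichotomy q 0 with hq | rfl | hq
  · rcases lt_or_gt_of_ne hy with hy' | hy'
    · have h2 : ¬ y * q < 0 := not_lt.2 (mul_nonneg_of_nonpos_of_nonpos hy'.le hq.le)
      simp only [NPC.ofSM, h2, hy', decide_true, decide_false, Bool.false_xor, cond_true]
      have : (q.natAbs : ℤ) = -q := by omega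
      rw [this]; ring
    · have h2 : y * q < 0 := mul_neg_of_pos_of_neg hy' hq
      have h3 : ¬ y < 0 := not_lt.2 hy'.le
      simp only [NPC.ofSM, h2, h3, decide_true, decide_false, Bool.true_xor, Bool.not_false,
        cond_true]
      have : (q.natAbs : ℤ) = -q := by omega
      rw [this]; ring
  · simp [NPC.ofSM]
  · rcases lt_or_gt_of_ne hy with hy' | hy'
    · have h2 : y * q < 0 := mul_neg_of_neg_of_pos hy' hq
      simp only [NPC.ofSM, h2, hy', decide_true, Bool.xor_self, cond_false]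
      have : (q.natAbs : ℤ) = q := by omega
      rw [this]; ring
    · have h2 : ¬ y * q < 0 := not_lt.2 (mul_nonneg hy'.le hq.le)
      have h3 : ¬ y < 0 := not_lt.2 hy'.le
      simp only [NPC.ofSM, h2, h3, decide_false, Bool.xor_self, cond_false]
      have : (q.natAbs : ℤ) = q := by omega
      rw [this]; ring

/-- the coordinates of the product of two basis elements -/
def cc (co : List (List ℤ) × List ℤ → ℤ × List ℤ) (n : ℕ) (B Jb : List (List (List ℤ)))
    (i j : ℕ) : ℤ × List ℤ :=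
  co ((B ++ Jb).map (fl n), fl n (mmul n (B.getD i []) (B.getD j [])))

/-- the common denominator -/
def dd (co : List (List ℤ) × List ℤ → ℤ × List ℤ) (n : ℕ) (B Jb : List (List (List ℤ))) : ℤ :=
  ((List.range B.length).flatMap fun i => (List.range B.length).map fun j =>
    (cc co n B Jb i j).1).prod

/-- the scaled basis -/
def bp (co : List (List ℤ) × List ℤ → ℤ × List ℤ) (n : ℕ) (B Jb : List (List (List ℤ))) :
    List (List (List ℤ)) :=
  (List.range B.length).map fun l =>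
    tab n fun i j => (if l = 0 then 1 else dd co n B Jb) * entry (B.getD l []) i j

/-- the structure constants of the scaled basis -/
def gme (co : List (List ℤ) × List ℤ → ℤ × List ℤ) (n : ℕ) (B Jb : List (List (List ℤ)))
    (i j l : ℕ) : ℤ :=
  if i = 0 then (if j = l then 1 else 0) else if j = 0 then (if i = l then 1 else 0) else
    if l = 0 then dd co n B Jb * edv (dd co n B Jb) (cc co n B Jb i j).1 *
      ent (cc co n B Jb i j).2 0
    else edv (dd co n B Jb) (cc co n B Jb i j).1 * ent (cc co n B Jb i j).2 l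

/-- the structure constants as a list of matrices -/
def gam (co : List (List ℤ) × List ℤ → ℤ × List ℤ) (n : ℕ) (B Jb : List (List (List ℤ))) :
    List (List (List ℤ)) :=
  (List.range B.length).map fun i => tab B.length fun j l => gme co n B Jb i j l

theorem gm_gam (co : List (List ℤ) × List ℤ → ℤ × List ℤ) (n : ℕ) (B Jb : List (List (List ℤ)))
    {i j l : ℕ} (hi : i < B.length) (hj : j < B.length) (hl : l < B.length) :
    gm (gam co n B Jb) i j l = gme co n B Jb i j l := by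
  unfold gm gam
  rw [List.getD_eq_getElem _ _ (by simpa using hi)]
  simp only [List.getElem_map, List.getElem_range]
  rw [entry_tab _ hj hl]

section
variable {co : List (List ℤ) × List ℤ → ℤ × List ℤ}
  (hco : ∀ (n : ℕ) (L : List (List ℤ)) (v : List ℤ), (∀ w ∈ L, w.length = n) → v.length = n →
    vq n v ∈ vspan n L → (co (L, v)).1 ≠ 0 ∧ (co (L, v)).2.length = L.length ∧
      ((co (L, v)).1 : ℚ) • vq n v =
        ∑ i : Fin L.length, (ent (co (L, v)).2 i : ℚ) • vq n (L.getD i []))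
  (h0 : R0S ℚ) (n : ℕ) (A : Subalgebra ℚ (Matrix (Fin n) (Fin n) ℚ))
  (B Jb : List (List (List ℤ))) (hJ : ∀ a, a ∈ mspan n Jb ↔ a ∈ JJ A)
  (hB : BasisC n A B.length (fun i => mq n (B.getD i [])))
include hco h0 hJ hB

theorem cc_spec {i j : ℕ} (hi : i < B.length) (hj : j < B.length) :
    (cc co n B Jb i j).1 ≠ 0 ∧
    ((cc co n B Jb i j).1 : ℚ) • (mq n (B.getD i []) * mq n (B.getD j [])) -
      ∑ l ∈ Finset.range B.length, (ent (cc co n B Jb i j).2 l : ℚ) • mq n (B.getD l []) ∈ JJ A := by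
  have hmem : vq (n * n) (fl n (mmul n (B.getD i []) (B.getD j []))) ∈
      vspan (n * n) ((B ++ Jb).map (fl n)) := by
    rw [← ph_mq, ← mem_mspan_iff, mq_mmul]
    obtain ⟨c, hc⟩ := hB.span _ (mul_mem_CC A h0 (hB.mem i hi) (hB.mem j hj))
    have h1 : ∑ l ∈ Finset.range B.length, c l • mq n (B.getD l []) ∈ mspan n (B ++ Jb) := by
      refine Submodule.sum_mem _ fun l hl => Submodule.smul_mem _ _ ?_
      rw [Finset.mem_range] at hl
      refine Submodule.subset_span ⟨B.getD l [], ?_, rfl⟩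
      rw [List.getD_eq_getElem _ _ hl]
      exact List.mem_append_left _ (List.getElem_mem _)
    rw [← hJ] at hc
    have h2 : mspan n Jb ≤ mspan n (B ++ Jb) := by
      refine Submodule.span_mono ?_
      rintro _ ⟨M, hM, rfl⟩
      exact ⟨M, List.mem_append_right _ hM, rfl⟩
    have h3 := (mspan n (B ++ Jb)).add_mem (h2 hc) h1
    rwa [sub_add_cancel] at h3
  obtain ⟨h1, -, h3⟩ := hco (n * n) ((B ++ Jb).map (fl n))
    (fl n (mmul n (B.getD i []) (B.getD j []))) (by
      intro w hw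
      obtain ⟨M, -, rfl⟩ := List.mem_map.1 hw
      exact fl_length n _) (fl_length n _) hmem
  refine ⟨h1, ?_⟩
  change ((cc co n B Jb i j).1 : ℚ) • vq (n * n) (fl n (mmul n (B.getD i []) (B.getD j []))) =
    ∑ t : Fin ((B ++ Jb).map (fl n)).length, (ent (cc co n B Jb i j).2 t : ℚ) •
      vq (n * n) (((B ++ Jb).map (fl n)).getD t []) at h3
  rw [← Finset.sum_range (fun t => (ent (cc co n B Jb i j).2 t : ℚ) •
      vq (n * n) (((B ++ Jb).map (fl n)).getD t []))] at h3
  have h4 : ∀ t ∈ Finset.range ((B ++ Jb).map (fl n)).length,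
      (ent (cc co n B Jb i j).2 t : ℚ) • vq (n * n) (((B ++ Jb).map (fl n)).getD t []) =
      ph n ((ent (cc co n B Jb i j).2 t : ℚ) • mq n ((B ++ Jb).getD t [])) := by
    intro t ht
    rw [Finset.mem_range, List.length_map] at ht
    rw [map_smul, ph_mq, getD_map' _ (fl n) [] [] ht]
  rw [Finset.sum_congr rfl h4, ← map_sum, ← ph_mq, ← map_smul, (ph n).injective.eq_iff,
    mq_mmul, List.length_map, List.length_append, Finset.sum_range_add] at h3
  rw [h3]
  have h5 : ∑ l ∈ Finset.range B.length, (ent (cc co n B Jb i j).2 l : ℚ) •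
      mq n ((B ++ Jb).getD l []) = ∑ l ∈ Finset.range B.length,
      (ent (cc co n B Jb i j).2 l : ℚ) • mq n (B.getD l []) := by
    refine Finset.sum_congr rfl fun l hl => ?_
    rw [Finset.mem_range] at hl
    rw [List.getD_append _ _ _ _ hl]
  rw [h5, add_sub_cancel_left, ← hJ]
  refine Submodule.sum_mem _ fun l hl => Submodule.smul_mem _ _ ?_
  rw [Finset.mem_range] at hl
  refine Submodule.subset_span ⟨_, ?_, rfl⟩
  rw [List.getD_append_right _ _ _ _ (by omega), Nat.add_sub_cancel_left,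
    List.getD_eq_getElem _ _ hl]
  exact List.getElem_mem _

theorem dd_ne : dd co n B Jb ≠ 0 := by
  unfold dd
  apply List.prod_ne_zero
  intro h
  simp only [List.mem_flatMap, List.mem_range, List.mem_map] at h
  obtain ⟨i, hi, j, hj, h⟩ := h
  exact (cc_spec hco h0 n A B Jb hJ hB hi hj).1 h

omit hco h0 hJ hB in
theorem dvd_dd {i j : ℕ} (hi : i < B.length) (hj : j < B.length) :
    (cc co n B Jb i j).1 ∣ dd co n B Jb := by
  unfold dd
  apply List.dvd_prod
  simp only [List.mem_flatMap, List.mem_range, List.mem_map]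
  exact ⟨i, hi, j, hj, rfl⟩

omit hco h0 hJ hB in
theorem mq_bp {l : ℕ} (hl : l < B.length) : mq n ((bp co n B Jb).getD l []) =
    (if l = 0 then 1 else (dd co n B Jb : ℚ)) • mq n (B.getD l []) := by
  unfold bp
  rw [List.getD_eq_getElem _ _ (by simpa using hl)]
  simp only [List.getElem_map, List.getElem_range]
  funext i j
  rw [mq_tab, Matrix.smul_apply, smul_eq_mul]
  push_cast
  split_ifs <;> simp [mq]

theorem bp_spec : BasisC n A (bp co n B Jb).length (fun i => mq n ((bp co n B Jb).getD i [])) := by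
  have hlen : (bp co n B Jb).length = B.length := by simp [bp]
  have hD : (dd co n B Jb : ℚ) ≠ 0 := by
    exact_mod_cast dd_ne hco h0 n A B Jb hJ hB
  rw [hlen]
  refine ⟨hB.pos, ?_, ?_, ?_, ?_⟩
  · intro i hi
    rw [mq_bp n B Jb hi]
    exact Submodule.smul_mem _ _ (hB.mem i hi)
  · intro c hc i hi
    have h1 : ∑ i ∈ Finset.range B.length, c i • mq n ((bp co n B Jb).getD i []) =
        ∑ i ∈ Finset.range B.length, (c i * (if i = 0 then 1 else (dd co n B Jb : ℚ))) •
          mq n (B.getD i []) := by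
      refine Finset.sum_congr rfl fun i hi => ?_
      rw [mq_bp n B Jb (Finset.mem_range.1 hi), smul_smul]
    rw [h1] at hc
    have h2 := hB.ind _ hc i hi
    split_ifs at h2 with h
    · simpa using h2
    · exact (mul_eq_zero.1 h2).resolve_right hD
  · intro a ha
    obtain ⟨c, hc⟩ := hB.span a ha
    refine ⟨fun i => c i * (if i = 0 then 1 else (dd co n B Jb : ℚ))⁻¹, ?_⟩
    have h1 : ∑ i ∈ Finset.range B.length,
        (c i * (if i = 0 then 1 else (dd co n B Jb : ℚ))⁻¹) • mq n ((bp co n B Jb).getD i []) =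
        ∑ i ∈ Finset.range B.length, c i • mq n (B.getD i []) := by
      refine Finset.sum_congr rfl fun i hi => ?_
      rw [mq_bp n B Jb (Finset.mem_range.1 hi), smul_smul]
      congr 1
      split_ifs with h
      · simp
      · rw [mul_assoc, inv_mul_cancel₀ hD, mul_one]
    rw [h1]
    exact hc
  · have : mq n (B.getD 0 []) = 1 := hB.one
    rw [mq_bp n B Jb hB.pos, this]
    simp

theorem gam_spec {i j : ℕ} (hi : i < B.length) (hj : j < B.length) :
    mq n ((bp co n B Jb).getD i []) * mq n ((bp co n B Jb).getD j []) -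
      ∑ l ∈ Finset.range B.length, (gme co n B Jb i j l : ℚ) • mq n ((bp co n B Jb).getD l []) ∈
      JJ A := by
  have h1 : mq n (B.getD 0 []) = 1 := hB.one
  have h1' : mq n ((bp co n B Jb).getD 0 []) = 1 := by
    rw [mq_bp n B Jb hB.pos, h1]; simp
  by_cases hi0 : i = 0
  · subst hi0
    rw [h1', one_mul, Finset.sum_eq_single j]
    · unfold gme
      simp
    · intro l _ hl
      unfold gme
      simp [hl.symm]
    · intro h; exact absurd (Finset.mem_range.2 hj) h
  · by_cases hj0 : j = 0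
    · subst hj0
      rw [h1', mul_one, Finset.sum_eq_single i]
      · unfold gme
        simp [hi0]
      · intro l _ hl
        unfold gme
        simp [hi0, hl.symm]
      · intro h; exact absurd (Finset.mem_range.2 hi) h
    · obtain ⟨h2, h3⟩ := cc_spec hco h0 n A B Jb hJ hB hi hj
      have h4 := edv_mul h2 (dvd_dd (co := co) n B Jb hi hj)
      have h4' : (edv (dd co n B Jb) (cc co n B Jb i j).1 : ℚ) * ((cc co n B Jb i j).1 : ℚ) =
          (dd co n B Jb : ℚ) := by exact_mod_cast h4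
      have h5 : ∑ l ∈ Finset.range B.length,
          (gme co n B Jb i j l : ℚ) • mq n ((bp co n B Jb).getD l []) =
          ((dd co n B Jb : ℚ) * (edv (dd co n B Jb) (cc co n B Jb i j).1 : ℚ)) •
            ∑ l ∈ Finset.range B.length,
            (ent (cc co n B Jb i j).2 l : ℚ) • mq n (B.getD l []) := by
        rw [Finset.smul_sum]
        refine Finset.sum_congr rfl fun l hl => ?_
        rw [mq_bp n B Jb (Finset.mem_range.1 hl), smul_smul, smul_smul]
        congr 1
        unfold gme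
        rw [if_neg hi0, if_neg hj0]
        by_cases hl0 : l = 0
        · subst hl0
          simp
        · rw [if_neg hl0, if_neg hl0]
          push_cast
          ring
      rw [h5, mq_bp n B Jb hi, mq_bp n B Jb hj, if_neg hi0, if_neg hj0, smul_mul_smul_comm]
      have h6 := (JJ A).smul_mem
        ((dd co n B Jb : ℚ) * (edv (dd co n B Jb) (cc co n B Jb i j).1 : ℚ)) h3
      rw [smul_sub, smul_smul, mul_assoc, h4'] at h6
      exact h6

end

/-! ### Polynomial time -/

section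
variable {α : Type} [TEnc α]

theorem P_ent {u : α → List ℤ} {i : α → ℕ} (hu : Poly u) (hi : Poly i) :
    Poly (fun a => ent (u a) (i a)) := NPC.Poly.getD hu hi (NPC.Poly.const 0)

theorem P_fl {n : α → ℕ} {M : α → List (List ℤ)} (hn : UPoly n) (hM : Poly M) :
    Poly (fun a => fl (n a) (M a)) := by
  unfold fl
  refine NPC.Poly.map (F := fun a t => entry (M a) (t / n a) (t % n a)) (hn.mul hn).range ?_
  have h1 : Poly (fun p : α × ℕ => p.1) := NPC.Poly.fst NPC.Poly.id
  have h2 : Poly (fun p : α × ℕ => p.2) := NPC.Poly.snd NPC.Poly.id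
  exact Poly_entry (hM.comp h1) (NPC.Poly.div h2 (hn.toPoly.comp h1)) (NPC.Poly.mod h2 (hn.toPoly.comp h1))

theorem P_uf {n : α → ℕ} {v : α → List ℤ} (hn : UPoly n) (hv : Poly v) :
    Poly (fun a => uf (n a) (v a)) := by
  unfold uf
  refine Poly_tab (f := fun a i j => (v a).getD (j + n a * i) 0) hn ?_
  have h1 : Poly (fun p : (α × ℕ) × ℕ => p.1.1) := NPC.Poly.fst (NPC.Poly.fst NPC.Poly.id)
  have h2 : Poly (fun p : (α × ℕ) × ℕ => p.1.2) := NPC.Poly.snd (NPC.Poly.fst NPC.Poly.id)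
  have h3 : Poly (fun p : (α × ℕ) × ℕ => p.2) := NPC.Poly.snd NPC.Poly.id
  exact NPC.Poly.getD (hv.comp h1) (NPC.Poly.add h3 (NPC.Poly.mul (hn.toPoly.comp h1) h2)) (NPC.Poly.const 0)

theorem P_comb {n : α → ℕ} {L : α → List (List (List ℤ))} {x : α → List ℤ} (hn : UPoly n)
    (hL : Poly L) (hx : Poly x) : Poly (fun a => comb (n a) (L a) (x a)) := by
  unfold comb
  refine Poly_tab (f := fun a i j => ((List.range (L a).length).map fun t =>
    ent (x a) t * entry ((L a).getD t []) i j).sum) hn (Poly_sumZ ?_)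
  have h1 : Poly (fun p : (α × ℕ) × ℕ => p.1.1) := NPC.Poly.fst (NPC.Poly.fst NPC.Poly.id)
  refine NPC.Poly.map (α := (α × ℕ) × ℕ)
    (F := fun p t => ent (x p.1.1) t * entry ((L p.1.1).getD t []) p.1.2 p.2)
    (NPC.Poly.range_length (hL.comp h1)) ?_
  have k1 : Poly (fun p : ((α × ℕ) × ℕ) × ℕ => p.1.1.1) := NPC.Poly.fst (NPC.Poly.fst (NPC.Poly.fst NPC.Poly.id))
  have k2 : Poly (fun p : ((α × ℕ) × ℕ) × ℕ => p.1.1.2) := NPC.Poly.snd (NPC.Poly.fst (NPC.Poly.fst NPC.Poly.id))
  have k3 : Poly (fun p : ((α × ℕ) × ℕ) × ℕ => p.1.2) := NPC.Poly.snd (NPC.Poly.fst NPC.Poly.id)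
  have k4 : Poly (fun p : ((α × ℕ) × ℕ) × ℕ => p.2) := NPC.Poly.snd NPC.Poly.id
  exact Poly_mulZ (P_ent (hx.comp k1) k4)
    (Poly_entry (NPC.Poly.getD (hL.comp k1) k4 (NPC.Poly.const [])) k2 k3)

theorem P_idm {n : α → ℕ} (hn : UPoly n) : Poly (fun a => idm (n a)) := by
  unfold idm
  refine Poly_tab (f := fun _ i j => if i = j then 1 else 0) hn ?_
  exact NPC.Poly.ite (NPC.Poly.decide_eq (NPC.Poly.snd (NPC.Poly.fst NPC.Poly.id)) (NPC.Poly.snd NPC.Poly.id))
    (NPC.Poly.const _) (NPC.Poly.const _)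

theorem P_rm {n : α → ℕ} {M : α → List (List ℤ)} (hn : UPoly n) (hM : Poly M) :
    Poly (fun a => rm (n a) (M a)) := by
  unfold rm
  refine Poly_tab (f := fun a s t => if s / n a = t / n a then
    entry (M a) (s % n a) (t % n a) else 0) (hn.mul hn) ?_
  have h1 : Poly (fun p : (α × ℕ) × ℕ => p.1.1) := NPC.Poly.fst (NPC.Poly.fst NPC.Poly.id)
  have h2 : Poly (fun p : (α × ℕ) × ℕ => p.1.2) := NPC.Poly.snd (NPC.Poly.fst NPC.Poly.id)
  have h3 : Poly (fun p : (α × ℕ) × ℕ => p.2) := NPC.Poly.snd NPC.Poly.id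
  have h4 := hn.toPoly.comp h1
  exact NPC.Poly.ite (NPC.Poly.decide_eq (NPC.Poly.div h2 h4) (NPC.Poly.div h3 h4))
    (Poly_entry (hM.comp h1) (NPC.Poly.mod h2 h4) (NPC.Poly.mod h3 h4)) (NPC.Poly.const _)

theorem P_abas {clo : List (List (List ℤ)) × List (List ℤ) → List (List ℤ)} (hc : Poly clo)
    {n : α → ℕ} {Ms : α → List (List (List ℤ))} (hn : UPoly n) (hM : Poly Ms) :
    Poly (fun a => abas clo (n a) (Ms a)) := by
  unfold abas
  have h1 : Poly (fun p : α × List (List ℤ) => p.1) := NPC.Poly.fst NPC.Poly.id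
  have h2 : Poly (fun p : α × List ℤ => p.1) := NPC.Poly.fst NPC.Poly.id
  refine NPC.Poly.map (F := fun a v => uf (n a) v) (hc.comp (NPC.Poly.pair
    (NPC.Poly.map (F := fun a M => rm (n a) M) hM (P_rm (hn.comp h1) (NPC.Poly.snd NPC.Poly.id)))
    (NPC.Poly.cons (P_fl hn (P_idm hn)) (NPC.Poly.const [])))) ?_
  exact P_uf (hn.comp h2) (NPC.Poly.snd NPC.Poly.id)

theorem P_msub {n : α → ℕ} {A B : α → List (List ℤ)} (hn : UPoly n) (hA : Poly A) (hB : Poly B) :
    Poly (fun a => msub (n a) (A a) (B a)) := by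
  unfold msub
  refine Poly_tab (f := fun a i j => entry (A a) i j - entry (B a) i j) hn ?_
  have h1 : Poly (fun p : (α × ℕ) × ℕ => p.1.1) := NPC.Poly.fst (NPC.Poly.fst NPC.Poly.id)
  have h2 : Poly (fun p : (α × ℕ) × ℕ => p.1.2) := NPC.Poly.snd (NPC.Poly.fst NPC.Poly.id)
  have h3 : Poly (fun p : (α × ℕ) × ℕ => p.2) := NPC.Poly.snd NPC.Poly.id
  exact Poly_subZ (Poly_entry (hA.comp h1) h2 h3) (Poly_entry (hB.comp h1) h2 h3)

theorem P_gram {n : α → ℕ} {Ab : α → List (List (List ℤ))} (hn : UPoly n) (hA : Poly Ab) :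
    Poly (fun a => gram (n a) (Ab a)) := by
  unfold gram
  have h1 : Poly (fun p : α × List (List ℤ) => p.1) := NPC.Poly.fst NPC.Poly.id
  have h2 : Poly (fun p : (α × List (List ℤ)) × List (List ℤ) => p.1.1) :=
    NPC.Poly.fst (NPC.Poly.fst NPC.Poly.id)
  refine NPC.Poly.map (F := fun a x => (Ab a).map fun b => mtr (n a) (mmul (n a) x b)) hA ?_
  refine NPC.Poly.map (α := α × List (List ℤ)) (F := fun p b => mtr (n p.1) (mmul (n p.1) p.2 b))
    (hA.comp h1) ?_
  exact Poly_mtr (hn.comp h2) (Poly_mmul (hn.comp h2) (NPC.Poly.snd (NPC.Poly.fst NPC.Poly.id))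
    (NPC.Poly.snd NPC.Poly.id))

theorem P_cenX {n : α → ℕ} {Ab : α → List (List (List ℤ))} (hn : UPoly n) (hA : Poly Ab) :
    Poly (fun a => cenX (n a) (Ab a)) := by
  unfold cenX
  have h1 : Poly (fun p : α × List (List ℤ) => p.1) := NPC.Poly.fst NPC.Poly.id
  refine NPC.Poly.map (F := fun a x => (List.range ((Ab a).length * (Ab a).length)).map fun t =>
    mtr (n a) (mmul (n a) (msub (n a) (mmul (n a) x ((Ab a).getD (t / (Ab a).length) []))
      (mmul (n a) ((Ab a).getD (t / (Ab a).length) []) x)) ((Ab a).getD (t % (Ab a).length) []))) hA ?_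
  refine NPC.Poly.map (α := α × List (List ℤ)) (F := fun p t =>
    mtr (n p.1) (mmul (n p.1) (msub (n p.1) (mmul (n p.1) p.2
      ((Ab p.1).getD (t / (Ab p.1).length) []))
      (mmul (n p.1) ((Ab p.1).getD (t / (Ab p.1).length) []) p.2))
      ((Ab p.1).getD (t % (Ab p.1).length) [])))
    (((UPoly.length hA).mul (UPoly.length hA)).comp h1).range ?_
  have k1 : Poly (fun p : (α × List (List ℤ)) × ℕ => p.1.1) := NPC.Poly.fst (NPC.Poly.fst NPC.Poly.id)
  have k2 : Poly (fun p : (α × List (List ℤ)) × ℕ => p.1.2) := NPC.Poly.snd (NPC.Poly.fst NPC.Poly.id)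
  have k3 : Poly (fun p : (α × List (List ℤ)) × ℕ => p.2) := NPC.Poly.snd NPC.Poly.id
  have k4 := hn.comp k1
  have k5 := (NPC.Poly.length hA).comp k1
  have k6 := NPC.Poly.getD (hA.comp k1) (NPC.Poly.div k3 k5) (NPC.Poly.const [])
  have k7 := NPC.Poly.getD (hA.comp k1) (NPC.Poly.mod k3 k5) (NPC.Poly.const [])
  exact Poly_mtr k4 (Poly_mmul k4 (P_msub k4 (Poly_mmul k4 k2 k6) (Poly_mmul k4 k6 k2)) k7)

theorem P_jb {kq : List (List ℤ) → List (List ℤ)} (hk : Poly kq) {n : α → ℕ}
    {Ab : α → List (List (List ℤ))} (hn : UPoly n) (hA : Poly Ab) :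
    Poly (fun a => jb kq (n a) (Ab a)) := by
  unfold jb
  have h1 : Poly (fun p : α × List ℤ => p.1) := NPC.Poly.fst NPC.Poly.id
  exact NPC.Poly.map (F := fun a x => comb (n a) (Ab a) x) (hk.comp (P_gram hn hA))
    (P_comb (hn.comp h1) (hA.comp h1) (NPC.Poly.snd NPC.Poly.id))

theorem P_cb {kq : List (List ℤ) → List (List ℤ)} (hk : Poly kq) {n : α → ℕ}
    {Ab : α → List (List (List ℤ))} (hn : UPoly n) (hA : Poly Ab) :
    Poly (fun a => cb kq (n a) (Ab a)) := by
  unfold cb
  have h1 : Poly (fun p : α × List ℤ => p.1) := NPC.Poly.fst NPC.Poly.id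
  exact NPC.Poly.map (F := fun a x => comb (n a) (Ab a) x) (hk.comp (P_cenX hn hA))
    (P_comb (hn.comp h1) (hA.comp h1) (NPC.Poly.snd NPC.Poly.id))

theorem P_mfl {n : α → ℕ} {Ab : α → List (List (List ℤ))} (hn : UPoly n) (hA : Poly Ab) :
    Poly (fun a => (Ab a).map (fl (n a))) := by
  have h1 : Poly (fun p : α × List (List ℤ) => p.1) := NPC.Poly.fst NPC.Poly.id
  exact NPC.Poly.map (F := fun a x => fl (n a) x) hA (P_fl (hn.comp h1) (NPC.Poly.snd NPC.Poly.id))

theorem P_b0 {sel : List (List ℤ) × List (List ℤ) → List (List ℤ)} (hs : Poly sel) {n : α → ℕ}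
    {Jb Cb : α → List (List (List ℤ))} (hn : UPoly n) (hJ : Poly Jb) (hC : Poly Cb) :
    Poly (fun a => b0 sel (n a) (Jb a) (Cb a)) := by
  unfold b0
  have h1 : Poly (fun p : α × List ℤ => p.1) := NPC.Poly.fst NPC.Poly.id
  refine NPC.Poly.map (F := fun a x => uf (n a) x) (hs.comp (NPC.Poly.pair (P_mfl hn hJ)
    (P_mfl (Ab := fun a => idm (n a) :: Cb a) hn (NPC.Poly.cons (P_idm hn) hC)))) ?_
  exact P_uf (hn.comp h1) (NPC.Poly.snd NPC.Poly.id)

theorem P_edv {x y : α → ℤ} (hx : Poly x) (hy : Poly y) : Poly (fun a => edv (x a) (y a)) :=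
  NPC.Poly.idivExact hx hy

theorem P_cc {co : List (List ℤ) × List ℤ → ℤ × List ℤ} (hco : Poly co) {n : α → ℕ}
    {B Jb : α → List (List (List ℤ))} {i j : α → ℕ} (hn : UPoly n) (hB : Poly B) (hJ : Poly Jb)
    (hi : Poly i) (hj : Poly j) : Poly (fun a => cc co (n a) (B a) (Jb a) (i a) (j a)) := by
  unfold cc
  exact hco.comp (NPC.Poly.pair (P_mfl (Ab := fun a => B a ++ Jb a) hn (NPC.Poly.append hB hJ))
    (P_fl hn (Poly_mmul hn (NPC.Poly.getD hB hi (NPC.Poly.const [])) (NPC.Poly.getD hB hj (NPC.Poly.const [])))))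

theorem P_dd {co : List (List ℤ) × List ℤ → ℤ × List ℤ} (hco : Poly co) {n : α → ℕ}
    {B Jb : α → List (List (List ℤ))} (hn : UPoly n) (hB : Poly B) (hJ : Poly Jb) :
    Poly (fun a => dd co (n a) (B a) (Jb a)) := by
  unfold dd
  have h1 : Poly (fun p : α × ℕ => p.1) := NPC.Poly.fst NPC.Poly.id
  refine RP.Poly_prodZ (NPC.Poly.flatMap (F := fun a i => (List.range (B a).length).map fun j =>
    (cc co (n a) (B a) (Jb a) i j).1) (NPC.Poly.range_length hB) ?_)
  refine NPC.Poly.map (α := α × ℕ) (F := fun p j => (cc co (n p.1) (B p.1) (Jb p.1) p.2 j).1)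
    (NPC.Poly.range_length (hB.comp h1)) ?_
  have k1 : Poly (fun p : (α × ℕ) × ℕ => p.1.1) := NPC.Poly.fst (NPC.Poly.fst NPC.Poly.id)
  have k2 : Poly (fun p : (α × ℕ) × ℕ => p.1.2) := NPC.Poly.snd (NPC.Poly.fst NPC.Poly.id)
  have k3 : Poly (fun p : (α × ℕ) × ℕ => p.2) := NPC.Poly.snd NPC.Poly.id
  exact NPC.Poly.fst (P_cc hco (hn.comp k1) (hB.comp k1) (hJ.comp k1) k2 k3)

theorem P_bp {co : List (List ℤ) × List ℤ → ℤ × List ℤ} (hco : Poly co) {n : α → ℕ}
    {B Jb : α → List (List (List ℤ))} (hn : UPoly n) (hB : Poly B) (hJ : Poly Jb) :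
    Poly (fun a => bp co (n a) (B a) (Jb a)) := by
  unfold bp
  refine NPC.Poly.map (F := fun a l => tab (n a) fun i j =>
    (if l = 0 then 1 else dd co (n a) (B a) (Jb a)) * entry ((B a).getD l []) i j)
    (NPC.Poly.range_length hB) ?_
  refine Poly_tab (α := α × ℕ) (n := fun p => n p.1) (f := fun p i j =>
    (if p.2 = 0 then 1 else dd co (n p.1) (B p.1) (Jb p.1)) * entry ((B p.1).getD p.2 []) i j)
    (hn.comp (NPC.Poly.fst NPC.Poly.id)) ?_
  have k1 : Poly (fun p : ((α × ℕ) × ℕ) × ℕ => p.1.1.1) := NPC.Poly.fst (NPC.Poly.fst (NPC.Poly.fst NPC.Poly.id))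
  have k2 : Poly (fun p : ((α × ℕ) × ℕ) × ℕ => p.1.1.2) := NPC.Poly.snd (NPC.Poly.fst (NPC.Poly.fst NPC.Poly.id))
  have k3 : Poly (fun p : ((α × ℕ) × ℕ) × ℕ => p.1.2) := NPC.Poly.snd (NPC.Poly.fst NPC.Poly.id)
  have k4 : Poly (fun p : ((α × ℕ) × ℕ) × ℕ => p.2) := NPC.Poly.snd NPC.Poly.id
  exact Poly_mulZ (NPC.Poly.ite (NPC.Poly.decide_eq k2 (NPC.Poly.const 0)) (NPC.Poly.const 1)
    ((P_dd hco hn hB hJ).comp k1)) (Poly_entry (NPC.Poly.getD (hB.comp k1) k2 (NPC.Poly.const [])) k3 k4)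

theorem P_gme {co : List (List ℤ) × List ℤ → ℤ × List ℤ} (hco : Poly co) {n : α → ℕ}
    {B Jb : α → List (List (List ℤ))} {i j l : α → ℕ} (hn : UPoly n) (hB : Poly B) (hJ : Poly Jb)
    (hi : Poly i) (hj : Poly j) (hl : Poly l) :
    Poly (fun a => gme co (n a) (B a) (Jb a) (i a) (j a) (l a)) := by
  unfold gme
  have hc := P_cc hco hn hB hJ hi hj
  have hd := P_dd hco hn hB hJ
  have he := P_edv hd (NPC.Poly.fst hc)
  have c0 : Poly (fun _ : α => 0) := NPC.Poly.const 0
  refine NPC.Poly.ite (NPC.Poly.decide_eq hi c0) (NPC.Poly.ite (NPC.Poly.decide_eq hj hl) (NPC.Poly.const _)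
    (NPC.Poly.const _)) (NPC.Poly.ite (NPC.Poly.decide_eq hj c0) (NPC.Poly.ite (NPC.Poly.decide_eq hi hl)
    (NPC.Poly.const _) (NPC.Poly.const _)) (NPC.Poly.ite (NPC.Poly.decide_eq hl c0) ?_ ?_))
  · exact Poly_mulZ (Poly_mulZ hd he) (P_ent (NPC.Poly.snd hc) c0)
  · exact Poly_mulZ he (P_ent (NPC.Poly.snd hc) hl)

theorem P_gam {co : List (List ℤ) × List ℤ → ℤ × List ℤ} (hco : Poly co) {n : α → ℕ}
    {B Jb : α → List (List (List ℤ))} (hn : UPoly n) (hB : Poly B) (hJ : Poly Jb) :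
    Poly (fun a => gam co (n a) (B a) (Jb a)) := by
  unfold gam
  refine NPC.Poly.map (F := fun a i => tab (B a).length fun j l =>
    gme co (n a) (B a) (Jb a) i j l) (NPC.Poly.range_length hB) ?_
  refine Poly_tab (α := α × ℕ) (n := fun p => (B p.1).length) (f := fun p j l =>
    gme co (n p.1) (B p.1) (Jb p.1) p.2 j l) ((UPoly.length hB).comp (NPC.Poly.fst NPC.Poly.id)) ?_
  have k1 : Poly (fun p : ((α × ℕ) × ℕ) × ℕ => p.1.1.1) := NPC.Poly.fst (NPC.Poly.fst (NPC.Poly.fst NPC.Poly.id))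
  have k2 : Poly (fun p : ((α × ℕ) × ℕ) × ℕ => p.1.1.2) := NPC.Poly.snd (NPC.Poly.fst (NPC.Poly.fst NPC.Poly.id))
  have k3 : Poly (fun p : ((α × ℕ) × ℕ) × ℕ => p.1.2) := NPC.Poly.snd (NPC.Poly.fst NPC.Poly.id)
  have k4 : Poly (fun p : ((α × ℕ) × ℕ) × ℕ => p.2) := NPC.Poly.snd NPC.Poly.id
  exact P_gme hco (hn.comp k1) (hB.comp k1) (hJ.comp k1) k2 k3 k4

end

/-! ### The algorithm -/

/-- the output for given bases -/
def outF (co : List (List ℤ) × List ℤ → ℤ × List ℤ)
    (sp : List (List (List ℤ)) → List (List (List ℤ))) (n : ℕ)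
    (B Jb : List (List (List ℤ))) : List (List (List (List ℤ))) :=
  (sp (gam co n B Jb)).map fun P => Jb ++ P.map (comb n (bp co n B Jb))

theorem P_outF {α : Type} [TEnc α] {co : List (List ℤ) × List ℤ → ℤ × List ℤ} (hco : Poly co)
    {sp : List (List (List ℤ)) → List (List (List ℤ))} (hsp : Poly sp) {n : α → ℕ}
    {B Jb : α → List (List (List ℤ))} (hn : UPoly n) (hB : Poly B) (hJ : Poly Jb) :
    Poly (fun a => outF co sp (n a) (B a) (Jb a)) := by
  unfold outF
  have h1 : Poly (fun p : α × List (List ℤ) => p.1) := NPC.Poly.fst NPC.Poly.id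
  have h2 : Poly (fun p : (α × List (List ℤ)) × List ℤ => p.1.1) := NPC.Poly.fst (NPC.Poly.fst NPC.Poly.id)
  refine NPC.Poly.map (F := fun a P => Jb a ++ P.map (comb (n a) (bp co (n a) (B a) (Jb a))))
    (hsp.comp (P_gam hco hn hB hJ)) (NPC.Poly.append (hJ.comp h1) ?_)
  refine NPC.Poly.map (α := α × List (List ℤ)) (F := fun p v =>
    comb (n p.1) (bp co (n p.1) (B p.1) (Jb p.1)) v) (NPC.Poly.snd NPC.Poly.id) ?_
  exact P_comb (hn.comp h2) ((P_bp hco hn hB hJ).comp h2) (NPC.Poly.snd NPC.Poly.id)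

/-- the size of the matrices -/
def dm (Ms : List (List (List ℤ))) : ℕ := (Ms.getD 0 []).length

/-- the algorithm -/
def algo (clo : List (List (List ℤ)) × List (List ℤ) → List (List ℤ))
    (kq : List (List ℤ) → List (List ℤ))
    (sel : List (List ℤ) × List (List ℤ) → List (List ℤ))
    (co : List (List ℤ) × List ℤ → ℤ × List ℤ)
    (sp : List (List (List ℤ)) → List (List (List ℤ)))
    (Ms : List (List (List ℤ))) : List (List (List (List ℤ))) :=
  outF co sp (dm Ms) (b0 sel (dm Ms) (jb kq (dm Ms) (abas clo (dm Ms) Ms))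
    (cb kq (dm Ms) (abas clo (dm Ms) Ms))) (jb kq (dm Ms) (abas clo (dm Ms) Ms))

theorem P_algo {clo : List (List (List ℤ)) × List (List ℤ) → List (List ℤ)}
    {kq : List (List ℤ) → List (List ℤ)}
    {sel : List (List ℤ) × List (List ℤ) → List (List ℤ)}
    {co : List (List ℤ) × List ℤ → ℤ × List ℤ}
    {sp : List (List (List ℤ)) → List (List (List ℤ))} (h1 : Poly clo) (h2 : Poly kq)
    (h3 : Poly sel) (h4 : Poly co) (h5 : Poly sp) : Poly (algo clo kq sel co sp) := by
  have hn : UPoly dm := UPoly.length (NPC.Poly.getD NPC.Poly.id (NPC.Poly.const 0) (NPC.Poly.const []))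
  have hA := P_abas h1 hn NPC.Poly.id
  have hJ := P_jb h2 hn hA
  have hC := P_cb h2 hn hA
  exact P_outF h4 h5 hn (P_b0 h3 hn hJ hC) hJ

/-! ### Correctness -/

theorem mspan_append (n : ℕ) (L L' : List (List (List ℤ))) :
    mspan n (L ++ L') = mspan n L ⊔ mspan n L' := by
  unfold mspan
  rw [← Submodule.span_union]
  congr 1
  ext w
  constructor
  · rintro ⟨v, hv, rfl⟩
    rcases List.mem_append.1 hv with h | h
    · exact Or.inl ⟨v, h, rfl⟩
    · exact Or.inr ⟨v, h, rfl⟩
  · rintro (⟨v, hv, rfl⟩ | ⟨v, hv, rfl⟩)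
    · exact ⟨v, List.mem_append_left _ hv, rfl⟩
    · exact ⟨v, List.mem_append_right _ hv, rfl⟩

theorem mspan_comb (n r : ℕ) (B : List (List (List ℤ))) (P : List (List ℤ)) (hr : B.length = r) :
    mspan n (P.map (comb n B)) = (vspan r P).map
      (Fintype.linearCombination ℚ fun i : Fin r => mq n (B.getD i [])) := by
  unfold mspan vspan
  rw [Submodule.map_span]
  congr 1
  have key : ∀ v : List ℤ, mq n (comb n B v) =
      Fintype.linearCombination ℚ (fun i : Fin r => mq n (B.getD i [])) (vq r v) := by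
    intro v
    rw [mq_comb, hr, Finset.sum_range, Fintype.linearCombination_apply]
    rfl
  ext w
  constructor
  · rintro ⟨M, hM, rfl⟩
    obtain ⟨v, hv, rfl⟩ := List.mem_map.1 hM
    exact ⟨_, ⟨v, hv, rfl⟩, (key v).symm⟩
  · rintro ⟨_, ⟨v, hv, rfl⟩, rfl⟩
    exact ⟨_, List.mem_map.2 ⟨v, hv, rfl⟩, (key v).symm⟩

theorem outF_spec {co : List (List ℤ) × List ℤ → ℤ × List ℤ}
    (hco : ∀ (n : ℕ) (L : List (List ℤ)) (v : List ℤ), (∀ w ∈ L, w.length = n) → v.length = n →
      vq n v ∈ vspan n L → (co (L, v)).1 ≠ 0 ∧ (co (L, v)).2.length = L.length ∧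
        ((co (L, v)).1 : ℚ) • vq n v =
          ∑ i : Fin L.length, (ent (co (L, v)).2 i : ℚ) • vq n (L.getD i []))
    {sp : List (List (List ℤ)) → List (List (List ℤ))}
    (hsp : ∀ (r : ℕ) (γ : List (List (List ℤ))) (E : Type) [CommRing E] [Algebra ℚ E]
      (b : Module.Basis (Fin r) ℚ E), IsReduced E → IsOrder r γ E b →
      (∀ P ∈ sp γ, (∀ v ∈ P, v.length = r) ∧ IsMaxP b (vspan r P)) ∧
      ∀ x : Fin r → ℚ, (∀ P ∈ sp γ, x ∈ vspan r P) → x = 0)
    (h0 : R0S ℚ) (hT : TMS ℚ) (n : ℕ) (hn : 0 < n)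
    (A : Subalgebra ℚ (Matrix (Fin n) (Fin n) ℚ))
    (B Jb : List (List (List ℤ))) (hJ : ∀ a, a ∈ mspan n Jb ↔ a ∈ JJ A)
    (hJm : ∀ M ∈ Jb, IsMat n n M)
    (hB : BasisC n A B.length (fun i => mq n (B.getD i []))) :
    (∀ m ∈ outF co sp n B Jb, (∀ c ∈ m, IsMat n n c) ∧ IsMaxC A (mspan n m)) ∧
    ∀ a ∈ CC A, (∀ m ∈ outF co sp n B Jb, a ∈ mspan n m) → a ∈ JJ A := by
  have hlen : (bp co n B Jb).length = B.length := by simp [bp]
  have hb := bp_spec hco h0 n A B Jb hJ hB
  rw [hlen] at hb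
  have hJs : mspan n Jb = JJ A := Submodule.ext hJ
  obtain ⟨E, iE, iA, b, hred, hone, hmul, hmax⟩ := hT n B.length A
    (fun i => mq n ((bp co n B Jb).getD i []))
    (fun i j l => (gm (gam co n B Jb) i j l : ℚ)) ⟨0, hB.pos⟩ hn (fun i => hb.mem i i.2) hb.one
    (by
      intro v hv
      have h1 := hb.ind (fun i => if h : i < B.length then v ⟨i, h⟩ else 0) (by
        rw [Finset.sum_range]
        convert hv using 3 with i
        simp)
      funext i
      have := h1 i i.2
      simpa using this)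
    (by
      intro c hc
      obtain ⟨v, hv⟩ := hb.span c hc
      refine ⟨fun i => v i, ?_⟩
      rw [Finset.sum_range] at hv
      exact hv)
    (by
      intro i j
      have h1 := gam_spec hco h0 n A B Jb hJ hB i.2 j.2
      rw [Finset.sum_range] at h1
      convert h1 using 3 with l
      rw [gm_gam co n B Jb i.2 j.2 l.2])
  have hord : IsOrder B.length (gam co n B Jb) E b := by
    refine ⟨hB.pos, by simp [gam], ?_, hone, hmul⟩
    intro M hM
    unfold gam at hM
    obtain ⟨i, -, rfl⟩ := List.mem_map.1 hM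
    exact tab_isMat _ _
  obtain ⟨h2, h3⟩ := hsp B.length (gam co n B Jb) E b hred hord
  have hms : ∀ P : List (List ℤ), mspan n (Jb ++ P.map (comb n (bp co n B Jb))) =
      JJ A ⊔ (vspan B.length P).map (Fintype.linearCombination ℚ
        fun i : Fin B.length => mq n ((bp co n B Jb).getD i [])) := by
    intro P
    rw [mspan_append, hJs, mspan_comb n B.length _ P hlen]
  constructor
  · intro m hm
    unfold outF at hm
    obtain ⟨P, hP, rfl⟩ := List.mem_map.1 hm
    constructor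
    · intro c hc
      rcases List.mem_append.1 hc with h | h
      · exact hJm c h
      · obtain ⟨v, -, rfl⟩ := List.mem_map.1 h
        exact tab_isMat _ _
    · rw [hms]
      exact hmax _ (h2 P hP).2
  · intro a ha hall
    obtain ⟨c, hc⟩ := hb.span a ha
    have hx : (fun i : Fin B.length => c i) = 0 := by
      refine h3 _ fun P hP => ?_
      have h4 := hall _ (List.mem_map.2 ⟨P, hP, rfl⟩)
      rw [hms] at h4
      obtain ⟨j, hj, y', ⟨y, hy, rfl⟩, hjy⟩ := Submodule.mem_sup.1 h4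
      have h5 : ∑ i ∈ Finset.range B.length,
          (c i - if h : i < B.length then y ⟨i, h⟩ else 0) • mq n ((bp co n B Jb).getD i []) ∈
          JJ A := by
        have h6 : ∑ i ∈ Finset.range B.length,
          (c i - if h : i < B.length then y ⟨i, h⟩ else 0) • mq n ((bp co n B Jb).getD i []) =
          j - (a - ∑ i ∈ Finset.range B.length, c i • mq n ((bp co n B Jb).getD i [])) := by
          rw [← hjy, Fintype.linearCombination_apply]
          simp only [sub_smul, Finset.sum_sub_distrib]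
          have h7 : ∑ i ∈ Finset.range B.length,
              (if h : i < B.length then y ⟨i, h⟩ else 0) • mq n ((bp co n B Jb).getD i []) =
              ∑ i : Fin B.length, y i • mq n ((bp co n B Jb).getD i []) := by
            rw [Finset.sum_range]
            refine Finset.sum_congr rfl fun i _ => ?_
            simp
          rw [h7]
          abel
        rw [h6]
        exact (JJ A).sub_mem hj hc
      have h8 := hb.ind _ h5
      have h9 : (fun i : Fin B.length => c i) = y := by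
        funext i
        have := h8 i i.2
        simpa [sub_eq_zero] using this
      rw [h9]
      exact hy
    have h10 : ∑ i ∈ Finset.range B.length, c i • mq n ((bp co n B Jb).getD i []) = 0 := by
      rw [Finset.sum_range]
      refine Finset.sum_eq_zero fun i _ => ?_
      have : c i = 0 := congrFun hx i
      rw [this, zero_smul]
    simp only [h10, sub_zero] at hc
    exact hc

end TA

theorem ta (hclo : CloS) (hk : K2S) (hsel : SelModS) (hco : CoS) (h0 : R0S ℚ) (h1 : R1S)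
    (hE : E1S) (hT : TMS ℚ) : TAS := by
  obtain ⟨clo, pclo, hclo⟩ := hclo
  obtain ⟨kq, pkq, hkq⟩ := hk
  obtain ⟨sel, psel, hsel⟩ := hsel
  obtain ⟨co, pco, hco⟩ := hco
  obtain ⟨sp, psp, hsp⟩ := hE
  refine ⟨TA.algo clo kq sel co sp, TA.P_algo pclo pkq psel pco psp, ?_⟩
  intro n Ms hn hne hMs
  have hdm : TA.dm Ms = n := by
    unfold TA.dm
    obtain ⟨M, t, rfl⟩ := List.exists_cons_of_ne_nil hne
    rw [List.getD_cons_zero]
    exact (hMs M (by simp)).1
  unfold TA.algo
  rw [hdm]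
  have hA := TA.mem_abas hclo n Ms
  have hJ := TA.mem_jb hkq h1 n (algOf n Ms) _ hA
  have hC := TA.mem_cb hkq h1 n (algOf n Ms) _ hA
  refine TA.outF_spec hco hsp h0 hT n hn (algOf n Ms) _ _ hJ ?_
    (TA.b0_spec hsel h0 n hn (algOf n Ms) _ _ hJ hC)
  intro M hM
  unfold TA.jb at hM
  obtain ⟨u, -, rfl⟩ := List.mem_map.1 hM
  exact TA.tab_isMat _ _

end Pool.Agent.H420_NCF
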