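import Pool.Agent.H420_NCF.Spec

/-!
# the commutative algebra CC A / JJ A in coordinates (module TM)
-/

namespace Pool.Agent.H420_NCF.TM

open Pool.Agent.H420_NCF

variable {k : Type} [Field k] {n : ℕ}

/-- `CC A` is a subalgebra. -/
noncomputable def CS (h0 : R0S k) (A : Subalgebra k (Matrix (Fin n) (Fin n) k)) :
    Subalgebra k (Matrix (Fin n) (Fin n) k) where
  carrier := {c | c ∈ CC A}
  add_mem' := fun {a b} ha hb => (CC A).add_mem ha hb
  mul_mem' := fun {c d} hc hd => by
    refine ⟨A.mul_mem hc.1 hd.1, fun a ha => ?_⟩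
    have e : c * d * a - a * (c * d) = c * (d * a - a * d) + (c * a - a * c) * d := by
      rw [mul_sub, sub_mul]
      simp only [mul_assoc]
      abel
    rw [e]
    exact (JJ A).add_mem (((h0 n A).2.1 _ (hd.2 a ha) c hc.1).2)
      (((h0 n A).2.1 _ (hc.2 a ha) d hd.1).1)
  algebraMap_mem' := fun r => by
    refine ⟨A.algebraMap_mem r, fun a _ => ?_⟩
    rw [Algebra.commutes, sub_self]
    exact (JJ A).zero_mem

theorem mem_CS (h0 : R0S k) (A : Subalgebra k (Matrix (Fin n) (Fin n) k))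
    (x : Matrix (Fin n) (Fin n) k) : x ∈ CS h0 A ↔ x ∈ CC A := Iff.rfl

/-- `JJ A` as an ideal of `CC A`. -/
noncomputable def JC (h0 : R0S k) (A : Subalgebra k (Matrix (Fin n) (Fin n) k)) :
    Ideal (CS h0 A) where
  carrier := {x | (x : Matrix (Fin n) (Fin n) k) ∈ JJ A}
  add_mem' := fun ha hb => (JJ A).add_mem ha hb
  zero_mem' := (JJ A).zero_mem
  smul_mem' := fun c _ hx => ((h0 n A).2.1 _ hx (c : Matrix (Fin n) (Fin n) k) c.2.1).2

theorem mem_JC (h0 : R0S k) (A : Subalgebra k (Matrix (Fin n) (Fin n) k)) (x : CS h0 A) :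
    x ∈ JC h0 A ↔ (x : Matrix (Fin n) (Fin n) k) ∈ JJ A := Iff.rfl

instance twoSided (h0 : R0S k) (A : Subalgebra k (Matrix (Fin n) (Fin n) k)) :
    (JC h0 A).IsTwoSided where
  mul_mem_of_left := fun b ha =>
    ((h0 n A).2.1 _ ha (b : Matrix (Fin n) (Fin n) k) b.2.1).1

/-- The quotient is commutative. -/
@[instance_reducible] noncomputable def cring (h0 : R0S k) (A : Subalgebra k (Matrix (Fin n) (Fin n) k)) :
    CommRing (CS h0 A ⧸ JC h0 A) :=
  { Ideal.Quotient.ring (JC h0 A) with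
    mul_comm := fun x y => by
      obtain ⟨c, rfl⟩ := Ideal.Quotient.mk_surjective x
      obtain ⟨d, rfl⟩ := Ideal.Quotient.mk_surjective y
      have : (Ideal.Quotient.mk (JC h0 A)) (c * d) = (Ideal.Quotient.mk (JC h0 A)) (d * c) := by
        rw [Ideal.Quotient.eq, mem_JC]
        exact c.2.2 _ d.2.1
      rw [map_mul, map_mul] at this
      exact this }

/-- An existence form of the quotient. -/
theorem exists_quot (h0 : R0S k) (A : Subalgebra k (Matrix (Fin n) (Fin n) k)) :
    ∃ (E : Type) (_ : CommRing E) (_ : Algebra k E) (π : CS h0 A →ₐ[k] E),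
      Function.Surjective π ∧ ∀ x, π x = 0 ↔ (x : Matrix (Fin n) (Fin n) k) ∈ JJ A := by
  let _ := cring h0 A
  let alg : Algebra k (CS h0 A ⧸ JC h0 A) :=
    { (Ideal.Quotient.algebra (R₁ := k) (I := JC h0 A)) with }
  refine ⟨CS h0 A ⧸ JC h0 A, cring h0 A, alg, Ideal.Quotient.mkₐ k (JC h0 A),
    Ideal.Quotient.mk_surjective, fun x => ?_⟩
  rw [← mem_JC]
  exact Ideal.Quotient.eq_zero_iff_mem

end Pool.Agent.H420_NCF.TM

namespace Pool.Agent.H420_NCF

open Pool.Agent.NPC Pool.Agent.NPC.H532 Pool.Agent.H687R2.LLL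
open scoped Matrix

theorem tm_math (k : Type) [Field k] (h0 : R0S k) : TMS k := by
  intro n r A B g i₀ hn hB hB1 hind hspan hmul
  obtain ⟨E, _, _, π, hsurj, hker⟩ := TM.exists_quot h0 A
  -- the family
  let C := TM.CS h0 A
  let Bc : Fin r → C := fun i => ⟨B i, hB i⟩
  have hBc : ∀ i, ((Bc i : C) : Matrix (Fin n) (Fin n) k) = B i := fun i => rfl
  have hsum : ∀ v : Fin r → k, ((∑ i, v i • Bc i : C) : Matrix (Fin n) (Fin n) k)
      = ∑ i, v i • B i := by
    intro v
    rw [AddSubmonoidClass.coe_finsetSum]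
    rfl
  have hli : LinearIndependent k (fun i => π (Bc i)) := by
    rw [Fintype.linearIndependent_iff]
    intro v hv i
    have : π (∑ i, v i • Bc i) = 0 := by
      rw [map_sum, ← hv]
      exact Finset.sum_congr rfl fun i _ => map_smul π _ _
    rw [hker, hsum] at this
    exact congrFun (hind v this) i
  have hsp : ⊤ ≤ Submodule.span k (Set.range fun i => π (Bc i)) := by
    rintro x -
    obtain ⟨c, rfl⟩ := hsurj x
    obtain ⟨v, hv⟩ := hspan c c.2
    have : π c = ∑ i, v i • π (Bc i) := by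
      have h1 : π (c - ∑ i, v i • Bc i) = 0 := by
        rw [hker, AddSubgroupClass.coe_sub, hsum]
        exact hv
      rw [map_sub, sub_eq_zero, map_sum] at h1
      rw [h1]
      exact Finset.sum_congr rfl fun i _ => map_smul π _ _
    rw [this]
    exact Submodule.sum_mem _ fun i _ => Submodule.smul_mem _ _ (Submodule.subset_span ⟨i, rfl⟩)
  let b := Module.Basis.mk hli hsp
  have hb : ∀ i, b i = π (Bc i) := fun i => Module.Basis.mk_apply hli hsp i
  have hpi : ∀ v : Fin r → k, π (∑ i, v i • Bc i) = ∑ i, v i • b i := by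
    intro v
    rw [map_sum]
    exact Finset.sum_congr rfl fun i _ => by rw [map_smul, hb]
  refine ⟨E, inferInstance, inferInstance, b, ?_, ?_, ?_, ?_⟩
  · -- reduced
    rw [isReduced_iff_pow_one_lt 2 (by norm_num)]
    intro x hx
    obtain ⟨c, rfl⟩ := hsurj x
    rw [← map_pow, hker] at hx
    rw [hker]
    have hx2 : (c : Matrix (Fin n) (Fin n) k) * c ∈ JJ A := by
      have : ((c ^ 2 : C) : Matrix (Fin n) (Fin n) k) = (c : Matrix (Fin n) (Fin n) k) * c := by
        rw [pow_two]; rfl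
      rw [← this]; exact hx
    refine (h0 n A).2.2 _ c.2.1 fun a ha => ?_
    have key : ((c : Matrix (Fin n) (Fin n) k) * a) ^ 2 ∈ JJ A := by
      have e : ((c : Matrix (Fin n) (Fin n) k) * a) ^ 2 = (c : Matrix (Fin n) (Fin n) k) * c * (a * a)
          - c * ((c : Matrix (Fin n) (Fin n) k) * a - a * c) * a := by
        rw [pow_two, mul_sub, sub_mul]
        simp only [mul_assoc]
        abel
      rw [e]
      refine (JJ A).sub_mem ((h0 n A).2.1 _ hx2 _ (A.mul_mem ha ha)).1 ?_
      exact ((h0 n A).2.1 _ ((h0 n A).2.1 _ (c.2.2 a ha) _ c.2.1).2 _ ha).1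
    have h2 := ((h0 n A).1 _ key).2
    exact (IsNilpotent.pow_iff_pos (by norm_num)).1 h2
  · rw [hb, ← map_one π]
    congr 1
    exact Subtype.ext hB1
  · intro i j
    rw [← hpi, hb, hb, ← map_mul, ← sub_eq_zero, ← map_sub, hker, AddSubgroupClass.coe_sub, hsum]
    exact hmul i j
  · rintro P ⟨I, hI, hIP⟩
    have hJC : ∀ x ∈ JJ A, x ∈ CC A := by
      intro x hx
      refine ⟨((h0 n A).1 x hx).1, fun a ha => ?_⟩
      have := (h0 n A).2.1 x hx a ha
      exact (JJ A).sub_mem this.1 this.2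
    have hchar : ∀ x : Matrix (Fin n) (Fin n) k,
        x ∈ JJ A ⊔ P.map (Fintype.linearCombination k B) ↔ ∃ h : x ∈ C, π ⟨x, h⟩ ∈ I := by
      intro x
      constructor
      · intro hx
        obtain ⟨j, hj, y, hy, rfl⟩ := Submodule.mem_sup.1 hx
        obtain ⟨v, hv, rfl⟩ := hy
        have h1 : Fintype.linearCombination k B v = ((∑ i, v i • Bc i : C) :
            Matrix (Fin n) (Fin n) k) := by
          rw [hsum, Fintype.linearCombination_apply]
        have hjC : j ∈ C := hJC j hj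
        refine ⟨C.add_mem hjC (by rw [h1]; exact (∑ i, v i • Bc i : C).2), ?_⟩
        have h2 : (⟨j + Fintype.linearCombination k B v,
            C.add_mem hjC (by rw [h1]; exact (∑ i, v i • Bc i : C).2)⟩ : C)
            = ⟨j, hjC⟩ + ∑ i, v i • Bc i := by
          apply Subtype.ext
          exact congrArg (fun z => j + z) h1
        rw [h2, map_add, (hker ⟨j, hjC⟩).2 hj, zero_add, hIP, hpi, b.equivFun_apply]
        have h3 : b.repr (∑ i, v i • b i) = Finsupp.equivFunOnFinite.symm v := by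
          have := b.equivFun.apply_symm_apply v
          rw [Module.Basis.equivFun_symm_apply] at this
          ext i
          have := congrFun this i
          rw [Module.Basis.equivFun_apply] at this
          simpa using this
        rw [h3]
        exact hv
      · rintro ⟨hx, hxI⟩
        rw [hIP] at hxI
        set v := b.equivFun (π ⟨x, hx⟩) with hv
        have h1 : π ⟨x, hx⟩ = ∑ i, v i • b i := by
          rw [hv, Module.Basis.sum_equivFun]
        have h2 : x - ∑ i, v i • B i ∈ JJ A := by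
          have : π (⟨x, hx⟩ - ∑ i, v i • Bc i) = 0 := by
            rw [map_sub, hpi, h1, sub_self]
          rw [hker, AddSubgroupClass.coe_sub, hsum] at this
          exact this
        refine Submodule.mem_sup.2 ⟨_, h2, ∑ i, v i • B i, ⟨v, hxI, ?_⟩, sub_add_cancel _ _⟩
        rw [Fintype.linearCombination_apply]
    refine ⟨?_, le_sup_left, ?_, ?_, ?_⟩
    · intro x hx
      exact ((hchar x).1 hx).1
    · intro c hc x hx
      obtain ⟨h1, h2⟩ := (hchar x).1 hx
      have hcC : c ∈ C := hc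
      constructor
      · refine (hchar _).2 ⟨C.mul_mem hcC h1, ?_⟩
        have : (⟨c * x, C.mul_mem hcC h1⟩ : C) = ⟨c, hcC⟩ * ⟨x, h1⟩ := rfl
        rw [this, map_mul]
        exact I.mul_mem_left _ h2
      · refine (hchar _).2 ⟨C.mul_mem h1 hcC, ?_⟩
        have : (⟨x * c, C.mul_mem h1 hcC⟩ : C) = ⟨x, h1⟩ * ⟨c, hcC⟩ := rfl
        rw [this, map_mul]
        exact I.mul_mem_right _ h2
    · intro h1
      obtain ⟨h2, h3⟩ := (hchar _).1 h1
      have : (⟨1, h2⟩ : C) = 1 := rfl
      rw [this, map_one] at h3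
      exact hI.ne_top ((Ideal.eq_top_iff_one I).2 h3)
    · intro c hc hcm
      have hcC : c ∈ C := hc
      have h1 : π ⟨c, hcC⟩ ∉ I := fun h => hcm ((hchar c).2 ⟨hcC, h⟩)
      obtain ⟨y, hy⟩ := hI.exists_inv h1
      obtain ⟨i, hi, hyi⟩ := hy
      obtain ⟨d, rfl⟩ := hsurj y
      refine ⟨d, d.2, (hchar _).2 ⟨C.sub_mem (C.mul_mem hcC d.2) C.one_mem, ?_⟩⟩
      have : (⟨c * d - 1, C.sub_mem (C.mul_mem hcC d.2) C.one_mem⟩ : C) = ⟨c, hcC⟩ * d - 1 := rfl
      rw [this, map_sub, map_mul, map_one]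
      have h4 : π ⟨c, hcC⟩ * π d - 1 = - i := by
        rw [← hyi]; ring
      rw [h4]
      exact I.neg_mem hi

end Pool.Agent.H420_NCF
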