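import Pool.Agent.H420_NCF.Spec

/-!
# Trace criterion for nilpotency (module TRN)
-/

set_option autoImplicit false

namespace Pool.Agent.H420_NCF
namespace TRN

open Polynomial

theorem tr_X_mul {V : Type} [AddCommGroup V] [Module ℚ V] [FiniteDimensional ℚ V]
    (f : V →ₗ[ℚ] V) (h : ∀ i : ℕ, 0 < i → LinearMap.trace ℚ V (f ^ i) = 0) (w : ℚ[X]) :
    LinearMap.trace ℚ V (aeval (R := ℚ) (A := Module.End ℚ V) f (X * w)) = 0 := by
  induction w using Polynomial.induction_on' with
  | add p q hp hq => rw [mul_add, map_add, map_add, hp, hq, add_zero]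
  | monomial n a =>
    rw [X_mul_monomial, aeval_monomial, ← Algebra.smul_def, map_smul]
    erw [h (n + 1) (Nat.succ_pos n)]
    simp

theorem main (V : Type) [AddCommGroup V] [Module ℚ V] [FiniteDimensional ℚ V]
    (f : V →ₗ[ℚ] V) (h : ∀ i : ℕ, 0 < i → LinearMap.trace ℚ V (f ^ i) = 0) : IsNilpotent f := by
  obtain ⟨g, hg, hng⟩ := exists_eq_pow_rootMultiplicity_mul_and_not_dvd (LinearMap.charpoly f)
    (LinearMap.charpoly_monic f).ne_zero 0
  rw [C_0, sub_zero] at hg hng
  set a := (LinearMap.charpoly f).rootMultiplicity 0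
  have hp : aeval (R := ℚ) (A := Module.End ℚ V) f (LinearMap.charpoly f) = 0 :=
    LinearMap.aeval_self_charpoly f
  have hcop : IsCoprime ((X : ℚ[X]) ^ (a + 1)) g :=
    ((irreducible_X.coprime_iff_not_dvd).2 hng).pow_left
  obtain ⟨u, v, huv⟩ := hcop
  set e : Module.End ℚ V := aeval (R := ℚ) (A := Module.End ℚ V) f (u * X ^ (a + 1)) with he
  have h0 : aeval (R := ℚ) (A := Module.End ℚ V) f (X ^ a * g) = 0 := by rw [← hg]; exact hp
  have hidem : e * e = e := by
    have h1 : (u * X ^ (a + 1)) * (u * X ^ (a + 1)) =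
        u * X ^ (a + 1) - (u * v * X) * (X ^ a * g) := by
      have : v * g = 1 - u * X ^ (a + 1) := by rw [← huv]; ring
      calc (u * X ^ (a + 1)) * (u * X ^ (a + 1))
          = u * X ^ (a + 1) - u * X ^ (a + 1) * (1 - u * X ^ (a + 1)) := by ring
        _ = _ := by rw [← this]; ring
    rw [he, ← map_mul, h1, map_sub, map_mul _ _ (X ^ a * g), h0, mul_zero, sub_zero]
  have htr : LinearMap.trace ℚ V e = 0 := by
    have : u * X ^ (a + 1) = X * (u * X ^ a) := by ring
    rw [he, this]
    exact tr_X_mul f h _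
  have hproj : LinearMap.IsProj (LinearMap.range e) e :=
    LinearMap.IsIdempotentElem.isProj_range _ hidem
  have hr := hproj.trace
  rw [htr] at hr
  have hr' : Module.finrank ℚ (LinearMap.range e) = 0 := by exact_mod_cast hr.symm
  have he0 : e = 0 := by
    rw [← LinearMap.range_eq_bot]
    exact Submodule.finrank_eq_zero.1 hr'
  have h2 : aeval (R := ℚ) (A := Module.End ℚ V) f (v * g) = 1 := by
    have : v * g = 1 - u * X ^ (a + 1) := by rw [← huv]; ring
    rw [this, map_sub, map_one, ← he, he0, sub_zero]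
  refine ⟨a, ?_⟩
  have h3 : f ^ a = aeval (R := ℚ) (A := Module.End ℚ V) f (v * (X ^ a * g)) := by
    rw [show v * (X ^ a * g) = X ^ a * (v * g) by ring, map_mul, h2, mul_one, map_pow, aeval_X]
  rw [h3, map_mul, h0, mul_zero]

end TRN

open Pool.Agent.NPC Pool.Agent.NPC.H532 Pool.Agent.H687R2.LLL
open scoped Matrix

theorem trn : TRNS := by
  intro V _ _ _ f h
  exact TRN.main V f h

end Pool.Agent.H420_NCF
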