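import Pool.Agent.H420_NCF.Spec

/-!
# Multiplying by all the ideals often enough gives zero (module WZ)
-/

namespace Pool.Agent.H420_NCF

open Pool.Agent.NPC Pool.Agent.NPC.H532 Pool.Agent.H687R2.LLL
open scoped Matrix

namespace WZ

variable {k : Type} [Field k] {n : ℕ}

/-- `W` is stable under `A`. -/
def Stb (A : Subalgebra k (Matrix (Fin n) (Fin n) k)) (W : Submodule k (Fin n → k)) : Prop :=
  ∀ w ∈ W, ∀ a ∈ A, w ᵥ* a ∈ W

theorem wmul_le {W V : Submodule k (Fin n → k)} {m : Submodule k (Matrix (Fin n) (Fin n) k)}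
    (h : ∀ w ∈ W, ∀ c ∈ m, w ᵥ* c ∈ V) : wmul W m ≤ V := by
  unfold wmul
  rw [Submodule.span_le]
  rintro y ⟨w, hw, c, hc, rfl⟩
  exact h w hw c hc

theorem mem_wmul {W : Submodule k (Fin n → k)} {m : Submodule k (Matrix (Fin n) (Fin n) k)}
    {w : Fin n → k} (hw : w ∈ W) {c : Matrix (Fin n) (Fin n) k} (hc : c ∈ m) :
    w ᵥ* c ∈ wmul W m := Submodule.subset_span ⟨w, hw, c, hc, rfl⟩

theorem wmul_mono {W W' : Submodule k (Fin n → k)} {m m' : Submodule k (Matrix (Fin n) (Fin n) k)}
    (h : W ≤ W') (h' : m ≤ m') : wmul W m ≤ wmul W' m' :=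
  wmul_le fun _ hw _ hc => mem_wmul (h hw) (h' hc)

theorem foldl_mono (ms : List (Submodule k (Matrix (Fin n) (Fin n) k)))
    {W W' : Submodule k (Fin n → k)} (h : W ≤ W') : ms.foldl wmul W ≤ ms.foldl wmul W' := by
  induction ms generalizing W W' with
  | nil => exact h
  | cons m ms ih => exact ih (wmul_mono h le_rfl)

/-- A property of all elements of `wmul W m` follows from that of the products. -/
theorem wmul_ind {W : Submodule k (Fin n → k)} {m : Submodule k (Matrix (Fin n) (Fin n) k)}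
    {V : Submodule k (Fin n → k)} (a : Matrix (Fin n) (Fin n) k)
    (h : ∀ w ∈ W, ∀ c ∈ m, (w ᵥ* c) ᵥ* a ∈ V) : ∀ y ∈ wmul W m, y ᵥ* a ∈ V := by
  have : wmul W m ≤ V.comap a.vecMulLinear := wmul_le fun w hw c hc => h w hw c hc
  exact fun y hy => this hy

theorem stb_wmul {A : Subalgebra k (Matrix (Fin n) (Fin n) k)} {W : Submodule k (Fin n → k)}
    (hW : Stb A W) {m : Submodule k (Matrix (Fin n) (Fin n) k)} (hm : m ≤ CC A) (hJ : JJ A ≤ m) :
    Stb A (wmul W m) := by
  intro y hy a ha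
  refine wmul_ind a (fun w hw c hc => ?_) y hy
  have h1 : (w ᵥ* c) ᵥ* a = (w ᵥ* a) ᵥ* c + w ᵥ* (c * a - a * c) := by
    rw [Matrix.vecMul_sub, Matrix.vecMul_vecMul, Matrix.vecMul_vecMul]; abel
  rw [h1]
  exact add_mem (mem_wmul (hW w hw a ha) hc) (mem_wmul hw (hJ ((hm hc).2 a ha)))

theorem stb_foldl {A : Subalgebra k (Matrix (Fin n) (Fin n) k)}
    (ms : List (Submodule k (Matrix (Fin n) (Fin n) k))) (hms : ∀ m ∈ ms, IsMaxC A m)
    {W : Submodule k (Fin n → k)} (hW : Stb A W) : Stb A (ms.foldl wmul W) := by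
  induction ms generalizing W with
  | nil => exact hW
  | cons m ms ih =>
    have hm := hms m (by simp)
    exact ih (fun m' h => hms m' (List.mem_cons_of_mem _ h)) (stb_wmul hW hm.le hm.J_le)

theorem one_mem_CC (A : Subalgebra k (Matrix (Fin n) (Fin n) k)) : 1 ∈ CC A :=
  ⟨A.one_mem, fun a _ => by rw [one_mul, mul_one, sub_self]; exact (JJ A).zero_mem⟩

theorem foldl_le {A : Subalgebra k (Matrix (Fin n) (Fin n) k)}
    (ms : List (Submodule k (Matrix (Fin n) (Fin n) k))) (hms : ∀ m ∈ ms, IsMaxC A m)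
    (W : Submodule k (Fin n → k)) (K P : Submodule k (Matrix (Fin n) (Fin n) k)) (hK : K ≤ CC A)
    (hK' : ∀ c ∈ K, ∀ d ∈ CC A, c * d ∈ K) (hP : ∀ a ∈ K, (∀ m ∈ ms, a ∈ m) → a ∈ P) :
    ms.foldl wmul (wmul W K) ≤ wmul W P := by
  induction ms generalizing K with
  | nil =>
    exact wmul_mono le_rfl fun a ha => hP a ha (by simp)
  | cons m ms ih =>
    have hm := hms m (by simp)
    have h1 : wmul (wmul W K) m ≤ wmul W (K ⊓ m) := by
      refine wmul_le fun y hy d hd => ?_
      refine wmul_ind d (fun w hw c hc => ?_) y hy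
      rw [Matrix.vecMul_vecMul]
      exact mem_wmul hw ⟨hK' c hc d (hm.le hd), (hm.mul_mem c (hK hc) d hd).1⟩
    refine (foldl_mono ms h1).trans ?_
    refine ih (fun m' h => hms m' (List.mem_cons_of_mem _ h)) (K ⊓ m) (inf_le_left.trans hK)
      (fun c hc d hd => ⟨hK' c hc.1 d hd, (hm.mul_mem d hd c hc.2).2⟩) (fun a ha h => ?_)
    refine hP a ha.1 fun m' hm' => ?_
    rcases List.mem_cons.1 hm' with rfl | h'
    · exact ha.2
    · exact h m' h'

end WZ

open WZ in
theorem wz (k : Type) [Field k] (h0 : R0S k) (h2 : R2S k) : WZS k := by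
  intro n A ms hms hJ W hW
  have hmul : ∀ c ∈ CC A, ∀ d ∈ CC A, c * d ∈ CC A := by
    intro c hc d hd
    refine ⟨A.mul_mem hc.1 hd.1, fun a ha => ?_⟩
    have e : c * d * a - a * (c * d) = c * (d * a - a * d) + (c * a - a * c) * d := by
      rw [mul_sub, sub_mul]; simp only [mul_assoc]; abel
    rw [e]
    exact add_mem ((h0 n A).2.1 _ (hd.2 a ha) c hc.1).2 ((h0 n A).2.1 _ (hc.2 a ha) d hd.1).1
  have hF : ∀ V : Submodule k (Fin n → k), ms.foldl wmul V ≤ wmul V (JJ A) := by
    intro V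
    have hV : V ≤ wmul V (CC A) := by
      intro v hv
      have := mem_wmul hv (one_mem_CC A)
      rwa [Matrix.vecMul_one] at this
    exact (foldl_mono ms hV).trans
      (foldl_le ms hms V (CC A) (JJ A) le_rfl hmul fun a ha h => hJ a ha h)
  have key : ∀ (t : ℕ) (V : Submodule k (Fin n → k)), Stb A V → Module.finrank k V ≤ t →
      ((List.replicate t ms).flatten).foldl wmul V = ⊥ := by
    intro t
    induction t with
    | zero =>
      intro V _ hV
      have : Module.finrank k V = 0 := by omega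
      simpa using this
    | succ t ih =>
      intro V hV hr
      rw [List.replicate_succ, List.flatten_cons, List.foldl_append]
      refine ih _ (stb_foldl ms hms hV) ?_
      by_cases hb : V = ⊥
      · have h1 : ms.foldl wmul V ≤ ⊥ := by
          refine (hF V).trans (wmul_le fun w hw c _ => ?_)
          rw [hb, Submodule.mem_bot] at hw
          rw [hw, Matrix.zero_vecMul]; exact Submodule.zero_mem _
        rw [le_bot_iff.1 h1, finrank_bot]; omega
      · have h1 : ms.foldl wmul V < V := (hF V).trans_lt (h2 n A V hV hb)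
        have := Submodule.finrank_lt_finrank_of_lt h1
        omega
  refine key n W hW ?_
  have := Submodule.finrank_le W
  rwa [Module.finrank_fin_fun] at this

end Pool.Agent.H420_NCF
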