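import Pool.Agent.H420_NCF.K1
import Pool.Agent.H420_NCF.K2
import Pool.Agent.H420_NCF.MemCo
import Pool.Agent.H420_NCF.SelMod
import Pool.Agent.H420_NCF.Clo
import Pool.Agent.H420_NCF.Chain
import Pool.Agent.H420_NCF.TRN
import Pool.Agent.H420_NCF.R0
import Pool.Agent.H420_NCF.R1
import Pool.Agent.H420_NCF.R2
import Pool.Agent.H420_NCF.CEN
import Pool.Agent.H420_NCF.R3
import Pool.Agent.H420_NCF.TM
import Pool.Agent.H420_NCF.EB
import Pool.Agent.H420_NCF.KM
import Pool.Agent.H420_NCF.MQ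
import Pool.Agent.H420_NCF.EMt
import Pool.Agent.H420_NCF.EMi
import Pool.Agent.H420_NCF.PrimeB
import Pool.Agent.H420_NCF.ED
import Pool.Agent.H420_NCF.EL1
import Pool.Agent.H420_NCF.ELa
import Pool.Agent.H420_NCF.EL
import Pool.Agent.H420_NCF.E1
import Pool.Agent.H420_NCF.TA
import Pool.Agent.H420_NCF.L11
import Pool.Agent.H420_NCF.L12
import Pool.Agent.H420_NCF.L31
import Pool.Agent.H420_NCF.L34
import Pool.Agent.H420_NCF.P1
import Pool.Agent.H420_NCF.L21
import Pool.Agent.H420_NCF.LD1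
import Pool.Agent.H420_NCF.LD2
import Pool.Agent.H420_NCF.KEY
import Pool.Agent.H420_NCF.VT
import Pool.Agent.H420_NCF.MinH
import Pool.Agent.H420_NCF.Div
import Pool.Agent.H420_NCF.HStep
import Pool.Agent.H420_NCF.Rev
import Pool.Agent.H420_NCF.Split
import Pool.Agent.H420_NCF.A1
import Pool.Agent.H420_NCF.WZ
import Pool.Agent.H420_NCF.A2
import Pool.Agent.H420_NCF.Final

/-!
# Assembly over the rationals
-/

namespace Pool.Agent.H420_NCF

theorem ldS (k : Type) [Field k] : LDS k := ld2 k (ld1 (AlgebraicClosure k) (l31 _ (l11 _)).2)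

theorem l34S (k : Type) [Field k] : L34S k := l34 k (l11 k) (l12 k) (l31 k (l11 k)).1

theorem keyS (k : Type) [Field k] : KeyS k := key k (l34S k) (r3 k (r0 k) cen) (ldS k)

theorem wzS (k : Type) [Field k] : WZS k := wz k (r0 k) (r2 k (r0 k))

theorem p1S (k : Type) [Field k] : P1S k := p1 k (l11 k) (l12 k)

theorem finalQ : FinalS := by
  have hK2 := K2 K1
  have hMC := memCo hK2
  have hSM := selMod hMC.1
  have hE1 : E1S := e1 K1 primeB (ed trn eb) (mq_arith eb) (emt eb (mq_arith eb) (km K1))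
    (emi eb (mq_arith eb) (km K1)) (el eb (el1 trn eb) (ela eb))
  have hTA := ta (clo hSM.2) hK2 hSM.1 hMC.2 (r0 ℚ) (r1 trn (r0 ℚ)) hE1 (tm_math ℚ (r0 ℚ))
  have hM := minH vt hK2 hSM.2
  have hD := div_ vt hK2
  have hH := hStep vt (clo hSM.2) hM (p1S ℚ)
  have hS := split_ hH rev_ hD vt
  exact final vt (a1 vt hH hS hD (l21 ℚ)) (a2 vt hTA (chain hSM.2) hM hD (keyS ℚ) (wzS ℚ))

end Pool.Agent.H420_NCF
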