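import Pool.Agent.H420_NCF.Defs
import Pool.Agent.H687R2.Rel
import Pool.Agent.H532R2.RatPoly

/-!
# Statements of the modules of the factoring algorithm

Every module is a proposition `...S` (no proof here). A file proving module `X` may assume the
modules it uses as hypotheses, e.g. `theorem sel (h : K2S) : SelS`.
-/

namespace Pool.Agent.H420_NCF

open Pool.Agent.NPC Pool.Agent.NPC.H532 Pool.Agent.H687R2.LLL
open scoped Matrix

/-! ## Integer vectors and matrices as lists -/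

/-- `M` is an `r × c` matrix, as a list of rows. -/
def IsMat (r c : ℕ) (M : List (List ℤ)) : Prop := M.length = r ∧ ∀ v ∈ M, v.length = c

/-- The rational vector of a list of integers. -/
def vq (n : ℕ) (v : List ℤ) : Fin n → ℚ := fun i => (v.getD i 0 : ℤ)

/-- The rational square matrix of a list of rows. -/
def mq (n : ℕ) (M : List (List ℤ)) : Matrix (Fin n) (Fin n) ℚ := fun i j => (entry M i j : ℤ)

/-- The rational span of a list of vectors. -/
def vspan (n : ℕ) (L : List (List ℤ)) : Submodule ℚ (Fin n → ℚ) :=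
  Submodule.span ℚ {w | ∃ v ∈ L, w = vq n v}

/-- The rational span of a list of matrices. -/
def mspan (n : ℕ) (L : List (List (List ℤ))) : Submodule ℚ (Matrix (Fin n) (Fin n) ℚ) :=
  Submodule.span ℚ {w | ∃ v ∈ L, w = mq n v}

/-- The list of vectors is linearly independent over the rationals. -/
def Ind (n : ℕ) (L : List (List ℤ)) : Prop :=
  LinearIndependent ℚ (fun i : Fin L.length => vq n (L.getD i []))

/-! ## Linear algebra by lattice reduction -/

/-- Relations between the rows of `X` of bounded size: module K1. -/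
def K1S : Prop := ∃ ker : List (List ℤ) × ℕ → List (List ℤ), Poly ker ∧
  ∀ (X : List (List ℤ)) (β q : ℕ), (∀ r ∈ X, r.length = q) →
    (∀ u ∈ ker (X, β), u.length = X.length ∧ (∀ j, form X (ent u) j = 0) ∧
      ∑ i ∈ Finset.range X.length, ent u i ^ 2 ≤ 4 ^ X.length * β) ∧
    ∀ c : ℕ → ℤ, (∀ j, form X c j = 0) → ∑ i ∈ Finset.range X.length, c i ^ 2 ≤ β →
      (fun i : Fin X.length => c i) ∈ Submodule.span ℤ
        {y : Fin X.length → ℤ | ∃ u ∈ ker (X, β), y = fun i : Fin X.length => ent u i}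

/-- All rational relations between the rows of `X`: module K2. -/
def K2S : Prop := ∃ kq : List (List ℤ) → List (List ℤ), Poly kq ∧
  ∀ (X : List (List ℤ)) (q : ℕ), (∀ r ∈ X, r.length = q) →
    (∀ u ∈ kq X, u.length = X.length ∧ ∀ j, form X (ent u) j = 0) ∧
    ∀ c : Fin X.length → ℚ, ∑ i, c i • vq q (X.getD i []) = 0 → c ∈ vspan X.length (kq X)

/-- Selection of a maximal independent subfamily. -/
def SelS : Prop := ∃ sel : List (List ℤ) → List (List ℤ), Poly sel ∧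
  ∀ (n : ℕ) (L : List (List ℤ)), (∀ v ∈ L, v.length = n) →
    (∀ v ∈ sel L, v ∈ L) ∧ Ind n (sel L) ∧ vspan n (sel L) = vspan n L

/-- Selection from `L` of a family that is independent modulo the span of `K`, and that spans the
same space together with `K`; the first vector of `L` is selected if it is not in the span of `K`. -/
def SelModS : Prop := ∃ sel : List (List ℤ) × List (List ℤ) → List (List ℤ), Poly sel ∧
  ∀ (n : ℕ) (K L : List (List ℤ)), (∀ v ∈ K, v.length = n) → (∀ v ∈ L, v.length = n) →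
    (∀ v ∈ sel (K, L), v ∈ L) ∧
    (∀ c : Fin (sel (K, L)).length → ℚ,
      ∑ i, c i • vq n ((sel (K, L)).getD i []) ∈ vspan n K → c = 0) ∧
    vspan n K ⊔ vspan n (sel (K, L)) = vspan n K ⊔ vspan n L ∧
    ∀ v L', L = v :: L' → vq n v ∉ vspan n K → (sel (K, L)).head? = some v

/-- Membership in the rational span. -/
def MemS : Prop := ∃ f : List (List ℤ) × List ℤ → Bool, Poly f ∧
  ∀ (n : ℕ) (L : List (List ℤ)) (v : List ℤ), (∀ w ∈ L, w.length = n) → v.length = n →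
    (f (L, v) = true ↔ vq n v ∈ vspan n L)

/-- Coordinates of `v` with respect to the spanning family `L`, up to an integer factor. -/
def CoS : Prop := ∃ co : List (List ℤ) × List ℤ → ℤ × List ℤ, Poly co ∧
  ∀ (n : ℕ) (L : List (List ℤ)) (v : List ℤ), (∀ w ∈ L, w.length = n) → v.length = n →
    vq n v ∈ vspan n L → (co (L, v)).1 ≠ 0 ∧ (co (L, v)).2.length = L.length ∧
      ((co (L, v)).1 : ℚ) • vq n v =
        ∑ i : Fin L.length, (ent (co (L, v)).2 i : ℚ) • vq n (L.getD i [])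

/-- The smallest subspace containing the given vectors and stable under the given matrices, acting
on row vectors. -/
def CloS : Prop := ∃ clo : List (List (List ℤ)) × List (List ℤ) → List (List ℤ), Poly clo ∧
  ∀ (n : ℕ) (Ms : List (List (List ℤ))) (L : List (List ℤ)), (∀ M ∈ Ms, IsMat n n M) →
    (∀ v ∈ L, v.length = n) →
    (∀ v ∈ clo (Ms, L), v.length = n) ∧ Ind n (clo (Ms, L)) ∧
    vspan n L ≤ vspan n (clo (Ms, L)) ∧
    (∀ M ∈ Ms, ∀ w ∈ vspan n (clo (Ms, L)), w ᵥ* mq n M ∈ vspan n (clo (Ms, L))) ∧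
    ∀ U : Submodule ℚ (Fin n → ℚ), vspan n L ≤ U → (∀ M ∈ Ms, ∀ w ∈ U, w ᵥ* mq n M ∈ U) →
      vspan n (clo (Ms, L)) ≤ U

/-- The subspace spanned by the products of vectors of `W` and matrices of `m`. -/
def wmul {k : Type} [Field k] {n : ℕ} (W : Submodule k (Fin n → k))
    (m : Submodule k (Matrix (Fin n) (Fin n) k)) : Submodule k (Fin n → k) :=
  Submodule.span k {y | ∃ w ∈ W, ∃ c ∈ m, y = w ᵥ* c}

/-- The chain of subspaces `W`, `W m_1`, `W m_1 m_2`, ... -/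
def ChainS : Prop := ∃ ch : List (List ℤ) × List (List (List (List ℤ))) → List (List (List ℤ)),
  Poly ch ∧ ∀ (n : ℕ) (L : List (List ℤ)) (mm : List (List (List (List ℤ)))),
    (∀ v ∈ L, v.length = n) → (∀ m ∈ mm, ∀ c ∈ m, IsMat n n c) →
    (ch (L, mm)).length = mm.length + 1 ∧ (∀ W ∈ ch (L, mm), ∀ v ∈ W, v.length = n) ∧
    vspan n ((ch (L, mm)).getD 0 []) = vspan n L ∧
    ∀ i < mm.length, vspan n ((ch (L, mm)).getD (i + 1) []) =
      wmul (vspan n ((ch (L, mm)).getD i [])) (mspan n (mm.getD i []))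

/-! ## The radical, and the centre modulo the radical -/

section Ring
variable {k : Type} [Field k] {n : ℕ}

/-- The Jacobson radical of an algebra of matrices, as a space of matrices. -/
noncomputable def JJ (A : Subalgebra k (Matrix (Fin n) (Fin n) k)) :
    Submodule k (Matrix (Fin n) (Fin n) k) :=
  ((Ring.jacobson A).restrictScalars k).map A.val.toLinearMap

/-- The elements that are central modulo the radical. -/
noncomputable def CC (A : Subalgebra k (Matrix (Fin n) (Fin n) k)) :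
    Submodule k (Matrix (Fin n) (Fin n) k) where
  carrier := {c | c ∈ A ∧ ∀ a ∈ A, c * a - a * c ∈ JJ A}
  add_mem' := fun {c d} hc hd => ⟨A.add_mem hc.1 hd.1, fun a ha => by
    have := (JJ A).add_mem (hc.2 a ha) (hd.2 a ha)
    rwa [show c * a - a * c + (d * a - a * d) = (c + d) * a - a * (c + d) by
      rw [add_mul, mul_add]; abel] at this⟩
  zero_mem' := ⟨A.zero_mem, fun a _ => by
    rw [zero_mul, mul_zero, sub_zero]; exact (JJ A).zero_mem⟩
  smul_mem' := fun r c hc => ⟨A.smul_mem hc.1 r, fun a ha => by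
    have := (JJ A).smul_mem r (hc.2 a ha)
    rwa [smul_sub, ← smul_mul_assoc, ← mul_smul_comm] at this⟩

/-- `m` is an ideal of `CC A` containing the radical, with `CC A / m` a field. -/
structure IsMaxC (A : Subalgebra k (Matrix (Fin n) (Fin n) k))
    (m : Submodule k (Matrix (Fin n) (Fin n) k)) : Prop where
  le : m ≤ CC A
  J_le : JJ A ≤ m
  mul_mem : ∀ c ∈ CC A, ∀ x ∈ m, c * x ∈ m ∧ x * c ∈ m
  one_notMem : (1 : Matrix (Fin n) (Fin n) k) ∉ m
  inv : ∀ c ∈ CC A, c ∉ m → ∃ d ∈ CC A, c * d - 1 ∈ m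

/-- The algebra generated by a list of integer matrices. -/
def algOf (n : ℕ) (Ms : List (List (List ℤ))) : Subalgebra ℚ (Matrix (Fin n) (Fin n) ℚ) :=
  Algebra.adjoin ℚ {w | ∃ M ∈ Ms, w = mq n M}

end Ring

/-- Trace criterion for nilpotency: module TRN. -/
def TRNS : Prop := ∀ (V : Type) [AddCommGroup V] [Module ℚ V] [FiniteDimensional ℚ V]
  (f : V →ₗ[ℚ] V), (∀ i : ℕ, 0 < i → LinearMap.trace ℚ V (f ^ i) = 0) → IsNilpotent f

/-- Central elements separating non-isomorphic simple modules: module CEN. -/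
def CENS : Prop := ∀ (R : Type) [Ring R] [IsSemisimpleRing R] (S T : Type) [AddCommGroup S]
  [AddCommGroup T] [Module R S] [Module R T] [IsSimpleModule R S] [IsSimpleModule R T],
  IsEmpty (S ≃ₗ[R] T) → ∃ z : R, (∀ r, z * r = r * z) ∧ (∀ s : S, z • s = s) ∧ ∀ t : T, z • t = 0

/-- Basic properties of the radical: module R0. -/
def R0S (k : Type) [Field k] : Prop := ∀ (n : ℕ) (A : Subalgebra k (Matrix (Fin n) (Fin n) k)),
  (∀ a ∈ JJ A, a ∈ A ∧ IsNilpotent a) ∧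
  (∀ a ∈ JJ A, ∀ b ∈ A, a * b ∈ JJ A ∧ b * a ∈ JJ A) ∧
  ∀ a ∈ A, (∀ b ∈ A, IsNilpotent (a * b)) → a ∈ JJ A

/-- The radical is the radical of the trace form: module R1. -/
def R1S : Prop := ∀ (n : ℕ) (A : Subalgebra ℚ (Matrix (Fin n) (Fin n) ℚ))
  (a : Matrix (Fin n) (Fin n) ℚ), a ∈ JJ A ↔ a ∈ A ∧ ∀ b ∈ A, (a * b).trace = 0

/-- The radical acts nilpotently, in the form used for the chain of subspaces: module R2. -/
def R2S (k : Type) [Field k] : Prop := ∀ (n : ℕ) (A : Subalgebra k (Matrix (Fin n) (Fin n) k))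
  (W : Submodule k (Fin n → k)), (∀ w ∈ W, ∀ a ∈ A, w ᵥ* a ∈ W) → W ≠ ⊥ → wmul W (JJ A) < W

/-- Homomorphisms between complementary submodules (Lemma 4.2 of the plan), for subquotients
`N' < N'' < M` of the space of row vectors: module R3. There are vectors `s i` and `t i`, jointly
independent modulo `N'`, spanning modulo `N'` isomorphic modules. -/
def R3S (k : Type) [Field k] : Prop := ∀ (n : ℕ) (A : Subalgebra k (Matrix (Fin n) (Fin n) k))
  (m : Submodule k (Matrix (Fin n) (Fin n) k)), IsMaxC A m →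
  ∀ N' N'' M : Submodule k (Fin n → k), N' < N'' → N'' < M →
    (∀ w ∈ N', ∀ a ∈ A, w ᵥ* a ∈ N') → (∀ w ∈ N'', ∀ a ∈ A, w ᵥ* a ∈ N'') →
    (∀ w ∈ M, ∀ a ∈ A, w ᵥ* a ∈ M) → wmul M m ≤ N' →
    ∃ (d : ℕ) (s t : Fin d → (Fin n → k)) (B : Matrix (Fin n) (Fin n) k → Fin d → Fin d → k),
      0 < d ∧ (∀ i, s i ∈ M) ∧ (∀ i, t i ∈ M) ∧
      (∀ a b : Fin d → k, ∑ i, a i • s i + ∑ i, b i • t i ∈ N' → a = 0 ∧ b = 0) ∧
      (∀ a ∈ A, ∀ i, s i ᵥ* a - ∑ j, B a i j • s j ∈ N') ∧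
      (∀ a ∈ A, ∀ i, t i ᵥ* a - ∑ j, B a i j • t j ∈ N')

/-! ## Splitting a reduced commutative algebra -/

/-- Structure constants. -/
def gm (γ : List (List (List ℤ))) (i j l : ℕ) : ℤ := entry (γ.getD i []) j l

/-- The product of two vectors of coordinates. -/
def mulv (r : ℕ) (γ : List (List (List ℤ))) (u v : Fin r → ℤ) : Fin r → ℤ :=
  fun l => ∑ i, ∑ j, u i * v j * gm γ i j l

/-- `γ` are the structure constants of the basis `b` of `E`, and `b 0 = 1`. -/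
structure IsOrder (r : ℕ) (γ : List (List (List ℤ))) (E : Type) [CommRing E] [Algebra ℚ E]
    (b : Module.Basis (Fin r) ℚ E) : Prop where
  pos : 0 < r
  len : γ.length = r
  mat : ∀ M ∈ γ, IsMat r r M
  one : b ⟨0, pos⟩ = 1
  mul : ∀ i j : Fin r, b i * b j = ∑ l : Fin r, (gm γ i j l : ℚ) • b l

/-- The element with given integer coordinates. -/
noncomputable def ev {r : ℕ} {E : Type} [CommRing E] [Algebra ℚ E] (b : Module.Basis (Fin r) ℚ E)
    (v : Fin r → ℤ) : E := ∑ i, (v i : ℚ) • b i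

/-- The integer vector of a list. -/
def vz (r : ℕ) (v : List ℤ) : Fin r → ℤ := fun i => v.getD i 0

/-- The order is reduced modulo `p`. -/
def RedMod (r : ℕ) (γ : List (List (List ℤ))) (p : ℕ) : Prop :=
  ∀ v : Fin r → ℤ, (∀ l, (p : ℤ) ∣ mulv r γ v v l) → ∀ l, (p : ℤ) ∣ v l

/-- `e` is idempotent modulo `q`. -/
def IdemMod (r : ℕ) (γ : List (List (List ℤ))) (q : ℕ) (e : Fin r → ℤ) : Prop :=
  ∀ l, (q : ℤ) ∣ mulv r γ e e l - e l

/-- `e` is a primitive idempotent modulo `p`. -/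
def PrimMod (r : ℕ) (γ : List (List (List ℤ))) (p : ℕ) (e : Fin r → ℤ) : Prop :=
  IdemMod r γ p e ∧ (∃ l, ¬ (p : ℤ) ∣ e l) ∧
    ∀ v, IdemMod r γ p v → (∀ l, (p : ℤ) ∣ mulv r γ e v l) ∨ ∀ l, (p : ℤ) ∣ mulv r γ e v l - e l

/-- `P` is a maximal ideal of `E`, in coordinates. -/
def IsMaxP {k : Type} [Field k] {r : ℕ} {E : Type} [CommRing E] [Algebra k E]
    (b : Module.Basis (Fin r) k E) (P : Submodule k (Fin r → k)) : Prop :=
  ∃ I : Ideal E, I.IsMaximal ∧ ∀ x : E, x ∈ I ↔ b.equivFun x ∈ P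

/-- Splitting of reduced commutative algebras over the rationals: module E1. -/
def E1S : Prop := ∃ sp : List (List (List ℤ)) → List (List (List ℤ)), Poly sp ∧
  ∀ (r : ℕ) (γ : List (List (List ℤ))) (E : Type) [CommRing E] [Algebra ℚ E]
    (b : Module.Basis (Fin r) ℚ E), IsReduced E → IsOrder r γ E b →
    (∀ P ∈ sp γ, (∀ v ∈ P, v.length = r) ∧ IsMaxP b (vspan r P)) ∧
    ∀ x : Fin r → ℚ, (∀ P ∈ sp γ, x ∈ vspan r P) → x = 0

/-- A small prime not dividing a given number. -/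
def PrimeS : Prop := ∃ q : Polynomial ℕ, ∀ D : ℕ, D ≠ 0 → ∃ p, p.Prime ∧ ¬ p ∣ D ∧ p ≤ q.eval D.size

/-- The order is reduced modulo all primes not dividing a small number: module ED. -/
def EDS : Prop := ∃ q : Polynomial ℕ, ∀ (N r : ℕ) (γ : List (List (List ℤ))) (E : Type)
  [CommRing E] [Algebra ℚ E] (b : Module.Basis (Fin r) ℚ E), IsReduced E → IsOrder r γ E b →
  r ≤ N → (∀ i j l, |gm γ i j l| < 2 ^ N) →
  ∃ D : ℕ, D ≠ 0 ∧ D.size ≤ q.eval N ∧ ∀ p : ℕ, p.Prime → ¬ p ∣ D → RedMod r γ p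

/-- The product modulo `q` (modulo one if `q = 0`). -/
def mulq (γ : List (List (List ℤ))) (q : ℕ) (u v : List ℤ) : List ℤ :=
  (List.range γ.length).map fun l => (((List.range γ.length).map fun i =>
    ((List.range γ.length).map fun j => ent u i * ent v j * gm γ i j l).sum).sum) %
      ((max q 1 : ℕ) : ℤ)

/-- The coordinates of one. -/
def oneq (γ : List (List (List ℤ))) : List ℤ :=
  (List.range γ.length).map fun l => if l = 0 then 1 else 0

/-- Powers modulo `q`. -/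
def powq (γ : List (List (List ℤ))) (q : ℕ) (u : List ℤ) (m : ℕ) : List ℤ :=
  (List.range m).foldl (fun w _ => mulq γ q w u) (oneq γ)

/-- One step of the lifting of idempotents, modulo `q`: `e ↦ 3 e² - 2 e³`. -/
def newq (γ : List (List (List ℤ))) (q : ℕ) (e : List ℤ) : List ℤ :=
  (List.range γ.length).map fun l =>
    (3 * ent (mulq γ q e e) l - 2 * ent (mulq γ q (mulq γ q e e) e) l) % ((max q 1 : ℕ) : ℤ)

/-- Arithmetic modulo `q`: module MQ. -/
def MQS : Prop :=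
  Poly (fun p : (List (List (List ℤ)) × ℕ) × List ℤ × List ℤ => mulq p.1.1 p.1.2 p.2.1 p.2.2) ∧
  Poly oneq ∧
  Poly (fun p : (List (List (List ℤ)) × ℕ) × List ℤ × List Unit =>
    powq p.1.1 p.1.2 p.2.1 p.2.2.length) ∧
  Poly (fun p : (List (List (List ℤ)) × ℕ) × List ℤ × List Unit =>
    (List.range p.2.2.length).foldl (fun e _ => newq p.1.1 p.1.2 e) p.2.1) ∧
  ∀ (r : ℕ) (γ : List (List (List ℤ))) (E : Type) [CommRing E] [Algebra ℚ E]
    (b : Module.Basis (Fin r) ℚ E), IsOrder r γ E b →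
    (∀ (q : ℕ) (u v : List ℤ), 0 < q → (mulq γ q u v).length = r ∧
      ∀ l : Fin r, vz r (mulq γ q u v) l = mulv r γ (vz r u) (vz r v) l % (q : ℤ)) ∧
    (∀ (q : ℕ) (u : List ℤ) (m : ℕ) (S : Type) [CommRing S] (ρ : (Fin r → ℤ) →+ S), 0 < q →
      (∀ v, ρ v = 0 ↔ ∀ l, (q : ℤ) ∣ v l) → (∀ u v, ρ (mulv r γ u v) = ρ u * ρ v) →
      ρ (vz r (oneq γ)) = 1 → (powq γ q u m).length = r ∧ ρ (vz r (powq γ q u m)) = ρ (vz r u) ^ m) ∧
    ∀ (p : ℕ), 1 < p → ∀ (K : ℕ) (e : List ℤ), 0 < K → IdemMod r γ p (vz r e) →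
      ((List.range K).foldl (fun e _ => newq γ (p ^ K) e) e).length = r ∧
      IdemMod r γ (p ^ K) (vz r ((List.range K).foldl (fun e _ => newq γ (p ^ K) e) e)) ∧
      ∀ l, (p : ℤ) ∣ vz r ((List.range K).foldl (fun e _ => newq γ (p ^ K) e) e) l - vz r e l

/-- The order and its residue rings: module EB. -/
def EBS : Prop := ∀ (r : ℕ) (γ : List (List (List ℤ))) (E : Type) [CommRing E] [Algebra ℚ E]
  (b : Module.Basis (Fin r) ℚ E), IsOrder r γ E b →
  (∀ u v, ev b (mulv r γ u v) = ev b u * ev b v) ∧ Function.Injective (ev b) ∧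
  ev b (vz r (oneq γ)) = 1 ∧
  ∀ q : ℕ, ∃ (S : Type) (_ : CommRing S) (ρ : (Fin r → ℤ) →+ S), Function.Surjective ρ ∧
    (∀ v, ρ v = 0 ↔ ∀ l, (q : ℤ) ∣ v l) ∧ (∀ u v, ρ (mulv r γ u v) = ρ u * ρ v) ∧
    ρ (vz r (oneq γ)) = 1

/-- Relations modulo `p`: module KM. -/
def KMS : Prop := ∃ km : List (List ℤ) × ℕ → List (List ℤ), Poly km ∧
  ∀ (X : List (List ℤ)) (q p : ℕ), 0 < p → (∀ r ∈ X, r.length = q) →
    (∀ u ∈ km (X, p), u.length = X.length ∧ ∀ j, (p : ℤ) ∣ form X (ent u) j) ∧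
    ∀ c : ℕ → ℤ, (∀ j, (p : ℤ) ∣ form X c j) →
      ∃ y ∈ Submodule.span ℤ {y : Fin X.length → ℤ | ∃ u ∈ km (X, p),
        y = fun i : Fin X.length => ent u i}, ∀ i : Fin X.length, (p : ℤ) ∣ c i - y i

/-- Test of reducedness modulo a small prime: module EMt. The prime is given in unary, as the
length of a list. -/
def EMtS : Prop := ∃ t : List (List (List ℤ)) × List Unit → Bool, Poly t ∧
    ∀ (r : ℕ) (γ : List (List (List ℤ))) (E : Type) [CommRing E] [Algebra ℚ E]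
      (b : Module.Basis (Fin r) ℚ E), IsOrder r γ E b → ∀ p : ℕ, p.Prime →
      (t (γ, List.replicate p ()) = true ↔ RedMod r γ p)

/-- Primitive idempotents modulo a small prime: module EMi. The prime is given in unary, as the
length of a list. -/
def EMiS : Prop := ∃ F : List (List (List ℤ)) × List Unit → List (List ℤ), Poly F ∧
    ∀ (r : ℕ) (γ : List (List (List ℤ))) (E : Type) [CommRing E] [Algebra ℚ E]
      (b : Module.Basis (Fin r) ℚ E), IsOrder r γ E b → ∀ p : ℕ, p.Prime → RedMod r γ p →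
      (∀ e ∈ F (γ, List.replicate p ()), e.length = r ∧ PrimMod r γ p (vz r e)) ∧
      ∀ l : Fin r, (p : ℤ) ∣ ((F (γ, List.replicate p ())).map fun e => vz r e l).sum -
        (if (l : ℕ) = 0 then 1 else 0)

/-- Bounds for the idempotents of `E`: module EL1. -/
def EL1S : Prop := ∃ q₀ : Polynomial ℕ, ∀ (N r : ℕ) (γ : List (List (List ℤ))) (E : Type)
  [CommRing E] [Algebra ℚ E] (b : Module.Basis (Fin r) ℚ E), IsReduced E → IsOrder r γ E b →
  r ≤ N → (∀ i j l, |gm γ i j l| < 2 ^ N) → ∀ I : Ideal E, I.IsMaximal →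
  ∃ (y : Fin r → ℤ) (n : ℕ), 0 < n ∧ n < 2 ^ q₀.eval N ∧ (∀ i, |y i| < 2 ^ q₀.eval N) ∧
    ev b y * ev b y = (n : ℚ) • ev b y ∧ (∀ x, x ∈ I ↔ ev b y * x = 0) ∧
    ∀ p : ℕ, p.Prime → RedMod r γ p → ¬ p ∣ n ∧ ∃ l, ¬ (p : ℤ) ∣ y l

/-- The lattice of one idempotent, given the ideal: module ELa. -/
def ELaS : Prop := ∀ q₀ : Polynomial ℕ, ∃ q₁ q₂ : Polynomial ℕ, ∀ (N r : ℕ)
  (γ : List (List (List ℤ))) (E : Type) [CommRing E] [Algebra ℚ E]
  (b : Module.Basis (Fin r) ℚ E), IsReduced E → IsOrder r γ E b →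
  r ≤ N → (∀ i j l, |gm γ i j l| < 2 ^ N) → ∀ p : ℕ, p.Prime → RedMod r γ p →
  ∀ (I : Ideal E) (y : Fin r → ℤ) (n : ℕ), I.IsMaximal → 0 < n → n < 2 ^ q₀.eval N →
  (∀ i, |y i| < 2 ^ q₀.eval N) → ev b y * ev b y = (n : ℚ) • ev b y →
  (∀ x, x ∈ I ↔ ev b y * x = 0) → ¬ p ∣ n →
  ∀ e, PrimMod r γ p e → (∃ l, ¬ (p : ℤ) ∣ mulv r γ e y l) →
    (∀ x ∈ I, x ∈ Submodule.span ℚ
      {z | ∃ v : Fin r → ℤ, (∀ i, |v i| < 2 ^ q₁.eval N) ∧ ev b v ∈ I ∧ z = ev b v}) ∧
    ∀ k : ℕ, 2 ^ q₂.eval N ≤ p ^ k → ∀ e' : Fin r → ℤ, (∀ l, (p : ℤ) ∣ e' l - e l) →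
      IdemMod r γ (p ^ k) e' →
      (∀ v : Fin r → ℤ, ev b v ∈ I → ∀ l, ((p ^ k : ℕ) : ℤ) ∣ mulv r γ e' v l) ∧
      ∀ v : Fin r → ℤ, (∀ i, |v i| < 2 ^ (q₁.eval N + 10 * N + 10)) →
        (∀ l, ((p ^ k : ℕ) : ℤ) ∣ mulv r γ e' v l) → ev b v ∈ I

/-- The lattice attached to a primitive idempotent modulo `p`, lifted modulo a high power of `p`,
determines a maximal ideal: module EL. -/
def ELS : Prop := ∃ q₁ q₂ : Polynomial ℕ, ∀ (N r : ℕ) (γ : List (List (List ℤ))) (E : Type)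
  [CommRing E] [Algebra ℚ E] (b : Module.Basis (Fin r) ℚ E), IsReduced E → IsOrder r γ E b →
  r ≤ N → (∀ i j l, |gm γ i j l| < 2 ^ N) → ∀ p : ℕ, p.Prime → RedMod r γ p →
  ∃ P : (Fin r → ℤ) → Ideal E,
    (∀ e, PrimMod r γ p e → (P e).IsMaximal ∧
      -- the ideal has short generators
      (∀ x ∈ P e, x ∈ Submodule.span ℚ
        {y | ∃ v : Fin r → ℤ, (∀ i, |v i| < 2 ^ q₁.eval N) ∧ ev b v ∈ P e ∧ y = ev b v}) ∧
      ∀ k : ℕ, 2 ^ q₂.eval N ≤ p ^ k → ∀ e' : Fin r → ℤ, (∀ l, (p : ℤ) ∣ e' l - e l) →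
        IdemMod r γ (p ^ k) e' →
        (∀ v : Fin r → ℤ, ev b v ∈ P e → ∀ l, ((p ^ k : ℕ) : ℤ) ∣ mulv r γ e' v l) ∧
        ∀ v : Fin r → ℤ, (∀ i, |v i| < 2 ^ (q₁.eval N + 10 * N + 10)) →
          (∀ l, ((p ^ k : ℕ) : ℤ) ∣ mulv r γ e' v l) → ev b v ∈ P e) ∧
    ∀ es : List (Fin r → ℤ), (∀ e ∈ es, PrimMod r γ p e) →
      (∀ l : Fin r, (p : ℤ) ∣ (es.map fun e => e l).sum - (if (l : ℕ) = 0 then 1 else 0)) →
      ∀ x : E, (∀ e ∈ es, x ∈ P e) → x = 0

/-! ## From matrices to maximal ideals of the centre modulo the radical -/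

/-- The commutative reduced algebra `CC A / JJ A` in coordinates: module TM. -/
def TMS (k : Type) [Field k] : Prop := ∀ (n r : ℕ) (A : Subalgebra k (Matrix (Fin n) (Fin n) k))
  (B : Fin r → Matrix (Fin n) (Fin n) k) (g : Fin r → Fin r → Fin r → k) (i₀ : Fin r), 0 < n →
  (∀ i, B i ∈ CC A) → B i₀ = 1 →
  (∀ v : Fin r → k, ∑ i, v i • B i ∈ JJ A → v = 0) →
  (∀ c ∈ CC A, ∃ v : Fin r → k, c - ∑ i, v i • B i ∈ JJ A) →
  (∀ i j : Fin r, B i * B j - ∑ l : Fin r, g i j l • B l ∈ JJ A) →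
  ∃ (E : Type) (_ : CommRing E) (_ : Algebra k E) (b : Module.Basis (Fin r) k E),
    IsReduced E ∧ b i₀ = 1 ∧ (∀ i j : Fin r, b i * b j = ∑ l : Fin r, g i j l • b l) ∧
    ∀ P : Submodule k (Fin r → k), IsMaxP b P →
      IsMaxC A (JJ A ⊔ P.map (Fintype.linearCombination k B))

/-- The algorithm: maximal ideals with intersection the radical. Module TA. -/
def TAS : Prop := ∃ F : List (List (List ℤ)) → List (List (List (List ℤ))), Poly F ∧
  ∀ (n : ℕ) (Ms : List (List (List ℤ))), 0 < n → Ms ≠ [] → (∀ M ∈ Ms, IsMat n n M) →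
    (∀ m ∈ F Ms, (∀ c ∈ m, IsMat n n c) ∧ IsMaxC (algOf n Ms) (mspan n m)) ∧
    ∀ a ∈ CC (algOf n Ms), (∀ m ∈ F Ms, a ∈ mspan n m) → a ∈ JJ (algOf n Ms)

/-! ## The operators on noncommutative polynomials -/

section NC
variable {k : Type*} [Field k]

/-- `Top f u w x p = x⁻¹ (f_{uw} p - p_w u⁻¹ f)`. -/
noncomputable def Top (f : NC k) (u w : List ℕ) (x : ℕ) : NC k →ₗ[k] NC k where
  toFun p := lq x (cf (u ++ w) f • p - cf w p • lqw u f)
  map_add' p q := by
    rw [← map_add]; congr 1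
    rw [map_add, smul_add, add_smul]; abel
  map_smul' c p := by
    rw [RingHom.id_apply, ← map_smul]; congr 1
    rw [map_smul, smul_sub, smul_smul, smul_smul, smul_smul, mul_comm, smul_eq_mul]

/-- The span of the left quotients of `f` by nonempty words. -/
noncomputable def Qsp (f : NC k) : Submodule k (NC k) :=
  Submodule.span k {p | ∃ u : List ℕ, u ≠ [] ∧ p = lqw u f}

/-- Stability under the operators. -/
def Stab (f : NC k) (u w : List ℕ) (N : Submodule k (NC k)) : Prop :=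
  ∀ x, ∀ p ∈ N, Top f u w x p ∈ N

/-- `h` is a nonzero element of minimal degree of `N`. -/
def IsMin (N : Submodule k (NC k)) (h : NC k) : Prop :=
  h ∈ N ∧ ∃ d, IsDeg h d ∧ ∀ p ∈ N, p ∈ Rlt k d → p = 0

end NC

/-- Lemma 1.1 of the plan: a stable subspace together with `f` generates a principal left ideal. -/
def L11S (k : Type) [Field k] : Prop := ∀ (f : NC k) (u w : List ℕ) (N : Submodule k (NC k))
  (h : NC k), IsLow f (u ++ w).length → cf (u ++ w) f ≠ 0 → Stab f u w N →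
  ((u = [] ∧ w = []) ∨ (u ≠ [] ∧ (∀ x, lq x f ∈ N) ∧ (w ≠ [] → ∀ p ∈ N, eps p = 0))) →
  IsMin (N ⊔ Submodule.span k {f}) h →
  (∀ p ∈ N ⊔ Submodule.span k {f}, ∃ q, p = q * h) ∧ IsLow h w.length

/-- Lemma 1.2 of the plan. -/
def L12S (k : Type) [Field k] : Prop := ∀ (f g h g' h' : NC k) (u w : List ℕ),
  IsLow f (u ++ w).length → cf (u ++ w) f ≠ 0 → f = g * h → f = g' * h' → IsLow g u.length →
  (∃ e, u.length ≤ e ∧ IsLow g' e) → (u ≠ [] → ∀ x, (∃ q, lq x f = q * h) ∧ ∃ q, lq x f = q * h') ∧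
  ∀ p, (∃ q, p = q * h) → (∃ q, p = q * h') → ∀ x, (∃ q, Top f u w x p = q * h) ∧
    ∃ q, Top f u w x p = q * h'

/-- Lemma 3.1 of the plan. -/
def L31S (k : Type) [Field k] : Prop := ∀ f g h : NC k, eps f ≠ 0 → f = g * h →
  (∀ W, Stab f [] [] W → h ∈ W ⊔ Submodule.span k {f} → (∀ u : List ℕ, u ≠ [] → lqw u g * h ∈ W) ∧
    ∀ p ∈ Qsp f, (∃ q, p = q * h) → p ∈ W) ∧
  (∀ v : List ℕ, v ≠ [] → lqw v h ∈ Qsp f) ∧ h ∈ Qsp f ⊔ Submodule.span k {f}

/-- Lemma 3.2 of the plan. -/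
def L32S (k : Type) [Field k] : Prop := ∀ (f h : NC k) (M : Submodule k (NC k)) (b : ℕ),
  eps f ≠ 0 → M ≤ Qsp f → Stab f [] [] M → IsMin (M ⊔ Submodule.span k {f}) h → IsDeg h b →
  (∀ p ∈ M, p ∈ Rlt k b → p = 0) ∧ Qsp f ≤ M ⊔ (Qsp f ⊓ Rlt k b) ∧
  ∀ p, p ∈ M ↔ p ∈ Qsp f ∧ ∃ q, p = q * h

/-- The elements of `Qsp f` that are left multiples of `h`. -/
noncomputable def QI {k : Type} [Field k] (f h : NC k) : Submodule k (NC k) :=
  Qsp f ⊓ (LI h).restrictScalars k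

/-- Lemma 3.4 of the plan. -/
def L34S (k : Type) [Field k] : Prop := ∀ (f h h' : NC k) (W W' : Submodule k (NC k)),
  eps f ≠ 0 → Stab f [] [] W → Stab f [] [] W' → W' ≤ W →
  IsMin (W ⊔ Submodule.span k {f}) h → IsMin (W' ⊔ Submodule.span k {f}) h' →
  (∃ p, h' = p * h) ∧ QI f h ≤ W ∧ QI f h' ≤ W' ∧ W ⊓ Qsp f ≤ QI f h ∧ W' ⊓ Qsp f ≤ QI f h' ∧
  Stab f [] [] (QI f h) ∧ Stab f [] [] (QI f h') ∧
  ∀ a b, h' = a * b * h → ¬ IsUnit a → ¬ IsUnit b →
    Stab f [] [] (QI f (b * h)) ∧ QI f h' < QI f (b * h) ∧ QI f (b * h) < QI f h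

/-- `e` is the lower degree of a left factor of `f`. -/
def Good {k : Type} [Field k] (f : NC k) (e : ℕ) : Prop := ∃ g h, f = g * h ∧ IsLow g e

/-- The smallest stable subspace containing the left quotients of `f` by letters. -/
noncomputable def Ncl {k : Type} [Field k] (f : NC k) (u w : List ℕ) : Submodule k (NC k) :=
  sInf {N | Stab f u w N ∧ ∀ x, lq x f ∈ N}

/-- Phase 1 for one value of the lower degree. -/
def P1S (k : Type) [Field k] : Prop := ∀ (f : NC k) (u w : List ℕ), IsLow f (u ++ w).length →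
  cf (u ++ w) f ≠ 0 → u ≠ [] →
  (Good f u.length ↔ (w = [] ∨ ∀ p ∈ Ncl f u w, eps p = 0)) ∧
  (Good f u.length → ∀ h, IsMin (Ncl f u w ⊔ Submodule.span k {f}) h →
    IsLow h w.length ∧ (∃ g, f = g * h) ∧
    ∀ g' h', f = g' * h' → (∃ e, u.length ≤ e ∧ IsLow g' e) → ∃ t, h = t * h')

/-- Lemma 2.1 of the plan: irreducibility of the factors found in phase 2. -/
def L21S (k : Type) [Field k] : Prop := ∀ (f P p h c d : NC k) (e e' : ℕ), f ≠ 0 → f = P * p * h →
  IsLow P e → IsLow (P * p) e' → e < e' → (∀ a, e < a → a < e' → ¬ Good f a) →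
  (∀ g' h', f = g' * h' → (∃ a, e' ≤ a ∧ IsLow g' a) → ∃ t, h = t * h') →
  p = c * d → eps c ≠ 0 → (∀ b' a', p = b' * a' → eps b' ≠ 0 → ∃ t, c = b' * t) → Irreducible d

/-- No repeated semisimple part (Lemma 3.3 of the plan): module LD. -/
def LDS (k : Type) [Field k] : Prop := ∀ (f : NC k), eps f ≠ 0 → ∀ (c d : ℕ), 0 < d →
  ∀ (y : Fin c → NC k) (s t : Fin d → NC k) (B : ℕ → Fin d → Fin d → k),
  (∀ i, y i ∈ Qsp f) → (∀ i, s i ∈ Qsp f) → (∀ i, t i ∈ Qsp f) →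
  LinearIndependent k (Sum.elim y (Sum.elim s t)) →
  (∀ x i, Top f [] [] x (y i) ∈ Submodule.span k (Set.range y)) →
  (∀ x i, Top f [] [] x (s i) - ∑ j, B x i j • s j ∈ Submodule.span k (Set.range y)) →
  (∀ x i, Top f [] [] x (t i) - ∑ j, B x i j • t j ∈ Submodule.span k (Set.range y)) → False

/-- The key proposition (4.3 of the plan), in coordinates: module KEY. -/
def KeyS (k : Type) [Field k] : Prop := ∀ (f : NC k), eps f ≠ 0 → ∀ (n : ℕ)
  (φ : (Fin n → k) →ₗ[k] NC k), Function.Injective φ → Qsp f ≤ LinearMap.range φ →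
  ∀ M : ℕ → Matrix (Fin n) (Fin n) k, (∀ x v, φ (v ᵥ* M x) = Top f [] [] x (φ v)) →
  ∀ m, IsMaxC (Algebra.adjoin k (Set.range M)) m →
  ∀ W : Submodule k (Fin n → k), (∀ x, ∀ w ∈ W, w ᵥ* M x ∈ W) →
    (∀ x, ∀ w ∈ wmul W m, w ᵥ* M x ∈ wmul W m) ∧
    ∀ h h', IsMin (W.map φ ⊔ Submodule.span k {f}) h →
      IsMin ((wmul W m).map φ ⊔ Submodule.span k {f}) h' →
      ∃ p, h' = p * h ∧ (IsUnit p ∨ Irreducible p)

/-! ## Integer polynomials as lists -/

/-- Integer noncommutative polynomials as lists of terms. -/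
abbrev IP := List (List ℕ × ℤ)

/-- The polynomial of a list of terms. -/
noncomputable def pol (p : IP) : NC ℚ := (p.map fun t => (t.2 : ℚ) • (mon t.1 : NC ℚ)).sum

/-- The coefficient of a word. -/
def cof (p : IP) (w : List ℕ) : ℤ := ((p.filter fun t => decide (t.1 = w)).map fun t => t.2).sum

/-- All suffixes of all words of `p`, without repetition. -/
def ws (p : IP) : List (List ℕ) := (p.flatMap fun t => t.1.tails).dedup

/-- The letters of `p`. -/
def lets (p : IP) : List ℕ := (p.flatMap fun t => t.1).dedup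

/-- The polynomial with given coordinates with respect to a list of words. -/
noncomputable def phi (l : List (List ℕ)) : (Fin l.length → ℚ) →ₗ[ℚ] NC ℚ :=
  Fintype.linearCombination ℚ fun i => (mon (l.getD i []) : NC ℚ)

/-- The vector of coordinates with respect to a list of words. -/
def vecOf (l : List (List ℕ)) (p : IP) : List ℤ := l.map fun w => cof p w

/-- The list of terms of a vector of coordinates. -/
def toIP (l : List (List ℕ)) (v : List ℤ) : IP := (l.zip v).filter fun t => !decide (t.2 = 0)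

/-- The matrix of the operator `Top f u w x` on the span of `ws f`. -/
def tm (f : IP) (u w : List ℕ) (x : ℕ) : List (List ℤ) :=
  (ws f).map fun v => (ws f).map fun y =>
    cof f (u ++ w) * (if v = x :: y then 1 else 0) - (if v = w then 1 else 0) * cof f (u ++ x :: y)

/-- Module VT: coordinates and matrices of operators. -/
def VTS : Prop := Poly ws ∧ Poly lets ∧ Poly (fun p : IP × List ℕ => cof p.1 p.2) ∧
  Poly (fun p : List (List ℕ) × IP => vecOf p.1 p.2) ∧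
  Poly (fun p : List (List ℕ) × List ℤ => toIP p.1 p.2) ∧
  Poly (fun p : IP × List ℕ × List ℕ × ℕ => tm p.1 p.2.1 p.2.2.1 p.2.2.2) ∧
  (∀ (f : IP) (w : List ℕ), cf w (pol f) = cof f w) ∧
  (∀ f : IP, (ws f).Nodup) ∧ (∀ f : IP, f ≠ [] → [] ∈ ws f) ∧
  (∀ (f : IP) (w : List ℕ), cof f w ≠ 0 → w ∈ ws f) ∧
  (∀ (f : IP) (x : ℕ) (w : List ℕ), x :: w ∈ ws f → w ∈ ws f ∧ x ∈ lets f) ∧
  (∀ l : List (List ℕ), l.Nodup → Function.Injective (phi l)) ∧
  (∀ (l : List (List ℕ)) (p : NC ℚ), l.Nodup →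
    (p ∈ LinearMap.range (phi l) ↔ ∀ w, cf w p ≠ 0 → w ∈ l)) ∧
  (∀ (l : List (List ℕ)) (v : List ℤ), v.length = l.length →
    pol (toIP l v) = phi l (vq l.length v)) ∧
  (∀ (l : List (List ℕ)) (p : IP), l.Nodup → (∀ w, cof p w ≠ 0 → w ∈ l) →
    phi l (vq l.length (vecOf l p)) = pol p) ∧
  ∀ (f : IP) (u w : List ℕ) (x : ℕ), IsMat (ws f).length (ws f).length (tm f u w x) ∧
    ∀ v, phi (ws f) (v ᵥ* mq (ws f).length (tm f u w x)) = Top (pol f) u w x (phi (ws f) v)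

/-- Elements of minimal degree: module MinH. -/
def MinhS : Prop := ∃ mh : List (List ℕ) × List (List ℤ) → List ℤ, Poly mh ∧
  ∀ (l : List (List ℕ)) (L : List (List ℤ)), l.Nodup → (∀ v ∈ L, v.length = l.length) →
    vspan l.length L ≠ ⊥ → (mh (l, L)).length = l.length ∧
      IsMin ((vspan l.length L).map (phi l)) (phi l (vq l.length (mh (l, L))))

/-- Exact right division: module Div. -/
def DivS : Prop := ∃ dv : IP × IP → IP, Poly dv ∧ ∀ (f h : IP) (q : NC ℚ), pol f ≠ 0 →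
  pol f = q * pol h → ∃ c : ℚ, c ≠ 0 ∧ pol (dv (f, h)) = c • q

/-- One step of phase 1, for one value of the lower degree: module HStep. -/
def HStepS : Prop := ∃ H : IP × List ℕ × List ℕ → Bool × IP, Poly H ∧
  ∀ (f : IP) (u w : List ℕ), IsLow (pol f) (u ++ w).length → cf (u ++ w) (pol f) ≠ 0 → u ≠ [] →
    ((H (f, u, w)).1 = true ↔ Good (pol f) u.length) ∧
    (Good (pol f) u.length → IsLow (pol (H (f, u, w)).2) w.length ∧
      (∃ g, pol f = g * pol (H (f, u, w)).2) ∧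
      ∀ g' h', pol f = g' * h' → (∃ e, u.length ≤ e ∧ IsLow g' e) →
        ∃ t, pol (H (f, u, w)).2 = t * h')

/-- Reversal of words: module Rev. -/
def RevS : Prop := ∃ rv : IP → IP, Poly rv ∧ ∃ R : NC ℚ →ₗ[ℚ] NC ℚ,
  (∀ p q, R (p * q) = R q * R p) ∧ (∀ p, R (R p) = p) ∧ (∀ w p, cf w (R p) = cf w.reverse p) ∧
  ∀ f : IP, pol (rv f) = R (pol f)

/-- The largest left factor with nonzero constant term: module Split. -/
def SplitS : Prop := ∃ sp : IP → IP × IP, Poly sp ∧ ∀ (p : IP) (m : ℕ), 0 < m → IsLow (pol p) m →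
  (∃ c : ℚ, c ≠ 0 ∧ pol (sp p).1 * pol (sp p).2 = c • pol p) ∧ eps (pol (sp p).1) ≠ 0 ∧
  ∀ b' a', pol p = b' * a' → eps b' ≠ 0 → ∃ t, pol (sp p).1 = b' * t

/-- Factorisation into irreducible factors and factors with nonzero constant term: module A1. -/
def A1S : Prop := ∃ A : IP → List (Bool × IP), Poly A ∧ ∀ f : IP, pol f ≠ 0 →
  (∃ c : ℚ, c ≠ 0 ∧ ((A f).map fun t => pol t.2).prod = c • pol f) ∧
  ∀ t ∈ A f, (t.1 = true → Irreducible (pol t.2)) ∧ (t.1 = false → eps (pol t.2) ≠ 0)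

/-- Factorisation of polynomials with nonzero constant term: module A2. -/
def A2S : Prop := ∃ A : IP → List IP, Poly A ∧ ∀ f : IP, eps (pol f) ≠ 0 →
  (∃ c : ℚ, c ≠ 0 ∧ ((A f).map fun g => pol g).prod = c • pol f) ∧
  ∀ g ∈ A f, IsUnit (pol g) ∨ Irreducible (pol g)

/-- Multiplying by all the ideals often enough gives zero: module WZ. -/
def WZS (k : Type) [Field k] : Prop := ∀ (n : ℕ) (A : Subalgebra k (Matrix (Fin n) (Fin n) k))
  (ms : List (Submodule k (Matrix (Fin n) (Fin n) k))), (∀ m ∈ ms, IsMaxC A m) →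
  (∀ a ∈ CC A, (∀ m ∈ ms, a ∈ m) → a ∈ JJ A) →
  ∀ W : Submodule k (Fin n → k), (∀ w ∈ W, ∀ a ∈ A, w ᵥ* a ∈ W) →
    ((List.replicate n ms).flatten).foldl wmul W = ⊥

/-- The rational polynomial of a list of terms. -/
noncomputable def polQ (p : List (List ℕ × ℚ)) : NC ℚ := (p.map fun t => t.2 • (mon t.1 : NC ℚ)).sum

/-- Reduced form: distinct words and nonzero coefficients. -/
def RedQ (p : List (List ℕ × ℚ)) : Prop := (p.map fun t => t.1).Nodup ∧ ∀ t ∈ p, t.2 ≠ 0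

/-- Factorisation of rational polynomials. -/
def FinalS : Prop := ∃ F : List (List ℕ × ℚ) → List (List (List ℕ × ℚ)), Poly F ∧
  ∀ f : List (List ℕ × ℚ), (∀ c : ℚ, polQ f ≠ c • 1) →
    (∀ g ∈ F f, Irreducible (polQ g) ∧ RedQ g) ∧ ((F f).map polQ).prod = polQ f

end Pool.Agent.H420_NCF
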