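import Pool.Agent.H420_NCF.Spec

/-!
# Statements of the modules of the factoring algorithm over a finite field

`K` is a fixed finite field, its elements encoded by an instance of `TEnc K`. Vectors are lists of
elements of `K`, so all sizes are linear in the number of entries.
-/

namespace Pool.Agent.H420_NCF.FF

open Pool.Agent.NPC
open scoped Matrix

section Defs
variable {K : Type} [Field K]

/-- `M` is an `r × c` matrix, as a list of rows. -/
def IsMat (r c : ℕ) (M : List (List K)) : Prop := M.length = r ∧ ∀ v ∈ M, v.length = c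

/-- The vector of a list. -/
def vq (n : ℕ) (v : List K) : Fin n → K := fun i => v.getD i 0

/-- The entry of a matrix. -/
def entry (M : List (List K)) (i j : ℕ) : K := (M.getD i []).getD j 0

/-- The square matrix of a list of rows. -/
def mq (n : ℕ) (M : List (List K)) : Matrix (Fin n) (Fin n) K := fun i j => entry M i j

/-- The span of a list of vectors. -/
def vspan (n : ℕ) (L : List (List K)) : Submodule K (Fin n → K) :=
  Submodule.span K {w | ∃ v ∈ L, w = vq n v}

/-- The span of a list of matrices. -/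
def mspan (n : ℕ) (L : List (List (List K))) : Submodule K (Matrix (Fin n) (Fin n) K) :=
  Submodule.span K {w | ∃ v ∈ L, w = mq n v}

/-- The list of vectors is linearly independent. -/
def Ind (n : ℕ) (L : List (List K)) : Prop :=
  LinearIndependent K (fun i : Fin L.length => vq n (L.getD i []))

/-- The algebra generated by a list of matrices. -/
def algOf (n : ℕ) (Ms : List (List (List K))) : Subalgebra K (Matrix (Fin n) (Fin n) K) :=
  Algebra.adjoin K {w | ∃ M ∈ Ms, w = mq n M}

/-- Structure constants. -/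
def gm (γ : List (List (List K))) (i j l : ℕ) : K := entry (γ.getD i []) j l

/-- `γ` are the structure constants of the basis `b` of `E`, and `b 0 = 1`. -/
structure IsOrder (r : ℕ) (γ : List (List (List K))) (E : Type) [CommRing E] [Algebra K E]
    (b : Module.Basis (Fin r) K E) : Prop where
  pos : 0 < r
  len : γ.length = r
  mat : ∀ M ∈ γ, IsMat r r M
  one : b ⟨0, pos⟩ = 1
  mul : ∀ i j : Fin r, b i * b j = ∑ l : Fin r, gm γ i j l • b l

end Defs

/-! ## Linear algebra -/

section Lin
variable (K : Type) [Field K] [TEnc K]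

/-- All relations between the rows of `X`: module K2. -/
def K2S : Prop := ∃ kq : List (List K) → List (List K), Poly kq ∧
  ∀ (X : List (List K)) (q : ℕ), (∀ r ∈ X, r.length = q) →
    (∀ u ∈ kq X, u.length = X.length ∧ ∑ i : Fin X.length, u.getD i 0 • vq q (X.getD i []) = 0) ∧
    ∀ c : Fin X.length → K, ∑ i, c i • vq q (X.getD i []) = 0 → c ∈ vspan X.length (kq X)

/-- Selection of a maximal independent subfamily. -/
def SelS : Prop := ∃ sel : List (List K) → List (List K), Poly sel ∧
  ∀ (n : ℕ) (L : List (List K)), (∀ v ∈ L, v.length = n) →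
    (∀ v ∈ sel L, v ∈ L) ∧ Ind n (sel L) ∧ vspan n (sel L) = vspan n L

/-- Selection from `L` of a family that is independent modulo the span of `K`. -/
def SelModS : Prop := ∃ sel : List (List K) × List (List K) → List (List K), Poly sel ∧
  ∀ (n : ℕ) (N L : List (List K)), (∀ v ∈ N, v.length = n) → (∀ v ∈ L, v.length = n) →
    (∀ v ∈ sel (N, L), v ∈ L) ∧
    (∀ c : Fin (sel (N, L)).length → K,
      ∑ i, c i • vq n ((sel (N, L)).getD i []) ∈ vspan n N → c = 0) ∧
    vspan n N ⊔ vspan n (sel (N, L)) = vspan n N ⊔ vspan n L ∧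
    ∀ v L', L = v :: L' → vq n v ∉ vspan n N → (sel (N, L)).head? = some v

/-- Membership in the span. -/
def MemS : Prop := ∃ f : List (List K) × List K → Bool, Poly f ∧
  ∀ (n : ℕ) (L : List (List K)) (v : List K), (∀ w ∈ L, w.length = n) → v.length = n →
    (f (L, v) = true ↔ vq n v ∈ vspan n L)

/-- Coordinates of `v` with respect to the spanning family `L`. -/
def CoS : Prop := ∃ co : List (List K) × List K → List K, Poly co ∧
  ∀ (n : ℕ) (L : List (List K)) (v : List K), (∀ w ∈ L, w.length = n) → v.length = n →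
    vq n v ∈ vspan n L → (co (L, v)).length = L.length ∧
      vq n v = ∑ i : Fin L.length, (co (L, v)).getD i 0 • vq n (L.getD i [])

/-- Closure under matrices. -/
def CloS : Prop := ∃ clo : List (List (List K)) × List (List K) → List (List K), Poly clo ∧
  ∀ (n : ℕ) (Ms : List (List (List K))) (L : List (List K)), (∀ M ∈ Ms, IsMat n n M) →
    (∀ v ∈ L, v.length = n) →
    (∀ v ∈ clo (Ms, L), v.length = n) ∧ Ind n (clo (Ms, L)) ∧
    vspan n L ≤ vspan n (clo (Ms, L)) ∧
    (∀ M ∈ Ms, ∀ w ∈ vspan n (clo (Ms, L)), w ᵥ* mq n M ∈ vspan n (clo (Ms, L))) ∧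
    ∀ U : Submodule K (Fin n → K), vspan n L ≤ U → (∀ M ∈ Ms, ∀ w ∈ U, w ᵥ* mq n M ∈ U) →
      vspan n (clo (Ms, L)) ≤ U

/-- The chain of subspaces `W`, `W m_1`, `W m_1 m_2`, ... -/
def ChainS : Prop := ∃ ch : List (List K) × List (List (List (List K))) → List (List (List K)),
  Poly ch ∧ ∀ (n : ℕ) (L : List (List K)) (mm : List (List (List (List K)))),
    (∀ v ∈ L, v.length = n) → (∀ m ∈ mm, ∀ c ∈ m, IsMat n n c) →
    (ch (L, mm)).length = mm.length + 1 ∧ (∀ W ∈ ch (L, mm), ∀ v ∈ W, v.length = n) ∧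
    vspan n ((ch (L, mm)).getD 0 []) = vspan n L ∧
    ∀ i < mm.length, vspan n ((ch (L, mm)).getD (i + 1) []) =
      wmul (vspan n ((ch (L, mm)).getD i [])) (mspan n (mm.getD i []))

end Lin

/-! ## The radical in positive characteristic -/

section Rad
variable {K : Type} [Field K] {n : ℕ}

/-- The span of the commutators. -/
def comm (A : Subalgebra K (Matrix (Fin n) (Fin n) K)) : Submodule K (Matrix (Fin n) (Fin n) K) :=
  Submodule.span K {z | ∃ a ∈ A, ∃ b ∈ A, z = a * b - b * a}

/-- The elements some `p`-power power of which is a sum of commutators. -/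
def TT (p : ℕ) (A : Subalgebra K (Matrix (Fin n) (Fin n) K)) : Set (Matrix (Fin n) (Fin n) K) :=
  {a | a ∈ A ∧ ∃ i, a ^ p ^ i ∈ comm A}

end Rad

/-- Frobenius modulo commutators: module FR. -/
def FRS (K : Type) [Field K] : Prop := ∀ (p : ℕ) [Fact p.Prime] [CharP K p] (n : ℕ)
  (A : Subalgebra K (Matrix (Fin n) (Fin n) K)),
  (∀ a ∈ A, ∀ b ∈ A, (a + b) ^ p - (a ^ p + b ^ p) ∈ comm A) ∧ ∀ a ∈ comm A, a ^ p ∈ comm A

/-- The radical in positive characteristic: module RJ. -/
def RJS (K : Type) [Field K] : Prop := ∀ (p : ℕ) [Fact p.Prime] [CharP K p] (n : ℕ)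
  (A : Subalgebra K (Matrix (Fin n) (Fin n) K)) (a : Matrix (Fin n) (Fin n) K),
  a ∈ JJ A ↔ a ∈ A ∧ ∀ b ∈ A, a * b ∈ TT p A

section Alg
variable (K : Type) [Field K] [TEnc K]

/-- Splitting of reduced commutative algebras over a finite field: module E1. -/
def E1S : Prop := ∃ sp : List (List (List K)) → List (List (List K)), Poly sp ∧
  ∀ (r : ℕ) (γ : List (List (List K))) (E : Type) [CommRing E] [Algebra K E]
    (b : Module.Basis (Fin r) K E), IsReduced E → IsOrder r γ E b →
    (∀ P ∈ sp γ, (∀ v ∈ P, v.length = r) ∧ IsMaxP b (vspan r P)) ∧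
    ∀ x : Fin r → K, (∀ P ∈ sp γ, x ∈ vspan r P) → x = 0

/-- The radical of the algebra generated by a list of matrices, and its basis: module RA. -/
def RAS : Prop := ∃ F : List (List (List K)) → List (List (List K)) × List (List (List K)), Poly F ∧
  ∀ (n : ℕ) (Ms : List (List (List K))), 0 < n → Ms ≠ [] → (∀ M ∈ Ms, IsMat n n M) →
    (∀ c ∈ (F Ms).1, IsMat n n c) ∧ (∀ c ∈ (F Ms).2, IsMat n n c) ∧
    mspan n (F Ms).1 = Subalgebra.toSubmodule (algOf n Ms) ∧ mspan n (F Ms).2 = JJ (algOf n Ms)

/-- The algorithm: maximal ideals with intersection the radical. Module TA. -/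
def TAS : Prop := ∃ F : List (List (List K)) → List (List (List (List K))), Poly F ∧
  ∀ (n : ℕ) (Ms : List (List (List K))), 0 < n → Ms ≠ [] → (∀ M ∈ Ms, IsMat n n M) →
    (∀ m ∈ F Ms, (∀ c ∈ m, IsMat n n c) ∧ IsMaxC (algOf n Ms) (mspan n m)) ∧
    ∀ a ∈ CC (algOf n Ms), (∀ m ∈ F Ms, a ∈ mspan n m) → a ∈ JJ (algOf n Ms)

end Alg

/-! ## Polynomials as lists -/

/-- Noncommutative polynomials as lists of terms. -/
abbrev IP (K : Type) := List (List ℕ × K)

section Pol
variable {K : Type} [Field K]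

/-- The polynomial of a list of terms. -/
noncomputable def pol (p : IP K) : NC K := (p.map fun t => t.2 • (mon t.1 : NC K)).sum

/-- The coefficient of a word. -/
def cof (p : IP K) (w : List ℕ) : K := ((p.filter fun t => decide (t.1 = w)).map fun t => t.2).sum

/-- All suffixes of all words of `p`, without repetition. -/
def ws (p : IP K) : List (List ℕ) := (p.flatMap fun t => t.1.tails).dedup

/-- The letters of `p`. -/
def lets (p : IP K) : List ℕ := (p.flatMap fun t => t.1).dedup

variable (K) in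
/-- The polynomial with given coordinates with respect to a list of words. -/
noncomputable def phi (l : List (List ℕ)) : (Fin l.length → K) →ₗ[K] NC K :=
  Fintype.linearCombination K fun i => (mon (l.getD i []) : NC K)

/-- The vector of coordinates with respect to a list of words. -/
def vecOf (l : List (List ℕ)) (p : IP K) : List K := l.map fun w => cof p w

/-- The list of terms of a vector of coordinates. -/
def toIP [DecidableEq K] (l : List (List ℕ)) (v : List K) : IP K :=
  (l.zip v).filter fun t => !decide (t.2 = 0)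

/-- The matrix of the operator `Top f u w x` on the span of `ws f`. -/
def tm (f : IP K) (u w : List ℕ) (x : ℕ) : List (List K) :=
  (ws f).map fun v => (ws f).map fun y =>
    cof f (u ++ w) * (if v = x :: y then 1 else 0) - (if v = w then 1 else 0) * cof f (u ++ x :: y)

end Pol

section Poly
variable (K : Type) [Field K] [TEnc K] [DecidableEq K]

/-- Module VT: coordinates and matrices of operators. -/
def VTS : Prop := Poly (ws : IP K → _) ∧ Poly (lets : IP K → _) ∧
  Poly (fun p : IP K × List ℕ => cof p.1 p.2) ∧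
  Poly (fun p : List (List ℕ) × IP K => vecOf p.1 p.2) ∧
  Poly (fun p : List (List ℕ) × List K => toIP p.1 p.2) ∧
  Poly (fun p : IP K × List ℕ × List ℕ × ℕ => tm p.1 p.2.1 p.2.2.1 p.2.2.2) ∧
  (∀ (f : IP K) (w : List ℕ), cf w (pol f) = cof f w) ∧
  (∀ f : IP K, (ws f).Nodup) ∧ (∀ f : IP K, f ≠ [] → [] ∈ ws f) ∧
  (∀ (f : IP K) (w : List ℕ), cof f w ≠ 0 → w ∈ ws f) ∧
  (∀ (f : IP K) (x : ℕ) (w : List ℕ), x :: w ∈ ws f → w ∈ ws f ∧ x ∈ lets f) ∧
  (∀ l : List (List ℕ), l.Nodup → Function.Injective (phi K l)) ∧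
  (∀ (l : List (List ℕ)) (p : NC K), l.Nodup →
    (p ∈ LinearMap.range (phi K l) ↔ ∀ w, cf w p ≠ 0 → w ∈ l)) ∧
  (∀ (l : List (List ℕ)) (v : List K), v.length = l.length →
    pol (toIP l v) = phi K l (vq l.length v)) ∧
  (∀ (l : List (List ℕ)) (p : IP K), l.Nodup → (∀ w, cof p w ≠ 0 → w ∈ l) →
    phi K l (vq l.length (vecOf l p)) = pol p) ∧
  ∀ (f : IP K) (u w : List ℕ) (x : ℕ), IsMat (ws f).length (ws f).length (tm f u w x) ∧
    ∀ v, phi K (ws f) (v ᵥ* mq (ws f).length (tm f u w x)) = Top (pol f) u w x (phi K (ws f) v)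

/-- Elements of minimal degree: module MinH. -/
def MinhS : Prop := ∃ mh : List (List ℕ) × List (List K) → List K, Poly mh ∧
  ∀ (l : List (List ℕ)) (L : List (List K)), l.Nodup → (∀ v ∈ L, v.length = l.length) →
    vspan l.length L ≠ ⊥ → (mh (l, L)).length = l.length ∧
      IsMin ((vspan l.length L).map (phi K l)) (phi K l (vq l.length (mh (l, L))))

/-- Exact right division: module Div. -/
def DivS : Prop := ∃ dv : IP K × IP K → IP K, Poly dv ∧ ∀ (f h : IP K) (q : NC K), pol f ≠ 0 →
  pol f = q * pol h → ∃ c : K, c ≠ 0 ∧ pol (dv (f, h)) = c • q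

/-- One step of phase 1, for one value of the lower degree: module HStep. -/
def HStepS : Prop := ∃ H : IP K × List ℕ × List ℕ → Bool × IP K, Poly H ∧
  ∀ (f : IP K) (u w : List ℕ), IsLow (pol f) (u ++ w).length → cf (u ++ w) (pol f) ≠ 0 → u ≠ [] →
    ((H (f, u, w)).1 = true ↔ Good (pol f) u.length) ∧
    (Good (pol f) u.length → IsLow (pol (H (f, u, w)).2) w.length ∧
      (∃ g, pol f = g * pol (H (f, u, w)).2) ∧
      ∀ g' h', pol f = g' * h' → (∃ e, u.length ≤ e ∧ IsLow g' e) →
        ∃ t, pol (H (f, u, w)).2 = t * h')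

/-- Reversal of words: module Rev. -/
def RevS : Prop := ∃ rv : IP K → IP K, Poly rv ∧ ∃ R : NC K →ₗ[K] NC K,
  (∀ p q, R (p * q) = R q * R p) ∧ (∀ p, R (R p) = p) ∧ (∀ w p, cf w (R p) = cf w.reverse p) ∧
  ∀ f : IP K, pol (rv f) = R (pol f)

/-- The largest left factor with nonzero constant term: module Split. -/
def SplitS : Prop := ∃ sp : IP K → IP K × IP K, Poly sp ∧ ∀ (p : IP K) (m : ℕ), 0 < m →
  IsLow (pol p) m →
  (∃ c : K, c ≠ 0 ∧ pol (sp p).1 * pol (sp p).2 = c • pol p) ∧ eps (pol (sp p).1) ≠ 0 ∧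
  ∀ b' a', pol p = b' * a' → eps b' ≠ 0 → ∃ t, pol (sp p).1 = b' * t

/-- Factorisation into irreducible factors and factors with nonzero constant term: module A1. -/
def A1S : Prop := ∃ A : IP K → List (Bool × IP K), Poly A ∧ ∀ f : IP K, pol f ≠ 0 →
  (∃ c : K, c ≠ 0 ∧ ((A f).map fun t => pol t.2).prod = c • pol f) ∧
  ∀ t ∈ A f, (t.1 = true → Irreducible (pol t.2)) ∧ (t.1 = false → eps (pol t.2) ≠ 0)

/-- Factorisation of polynomials with nonzero constant term: module A2. -/
def A2S : Prop := ∃ A : IP K → List (IP K), Poly A ∧ ∀ f : IP K, eps (pol f) ≠ 0 →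
  (∃ c : K, c ≠ 0 ∧ ((A f).map fun g => pol g).prod = c • pol f) ∧
  ∀ g ∈ A f, IsUnit (pol g) ∨ Irreducible (pol g)

/-- Reduced form: distinct words and nonzero coefficients. -/
def RedF (p : IP K) : Prop := (p.map fun t => t.1).Nodup ∧ ∀ t ∈ p, t.2 ≠ 0

/-- Factorisation over a finite field. -/
def FinalS : Prop := ∃ F : IP K → List (IP K), Poly F ∧
  ∀ f : IP K, (∀ c : K, pol f ≠ c • 1) →
    (∀ g ∈ F f, Irreducible (pol g) ∧ RedF K g) ∧ ((F f).map pol).prod = pol f

end Poly

end Pool.Agent.H420_NCF.FF
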